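import Pool.Agent.RGD.Stmts

/-!
BLOW: the binomial probability of the mean is at least `c / √y`.
-/

set_option autoImplicit false

namespace Pool.Agent.RGD

open Finset Pool.Agent.RGA

namespace BlowX

/-- binomial probabilities -/
noncomputable def pp (N : ℕ) (l : ℝ) (k : ℕ) : ℝ := (N.choose k : ℝ) * l ^ k * (1 - l) ^ (N - k)

theorem pp_nonneg {N : ℕ} {l : ℝ} (h0 : 0 ≤ l) (h1 : l ≤ 1) (k : ℕ) : 0 ≤ pp N l k := by
  unfold pp
  have : 0 ≤ 1 - l := by linarith
  positivity

theorem ratio {N : ℕ} {l : ℝ} {k : ℕ} (hk : k < N) :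
    pp N l (k + 1) * (((k : ℝ) + 1) * (1 - l)) = pp N l k * (((N : ℝ) - k) * l) := by
  unfold pp
  have h : ((N.choose (k + 1) : ℝ)) * ((k : ℝ) + 1) = (N.choose k : ℝ) * ((N : ℝ) - k) := by
    have := Nat.choose_succ_right_eq N k
    have h2 : ((N.choose (k + 1) * (k + 1) : ℕ) : ℝ) = ((N.choose k * (N - k) : ℕ) : ℝ) := by
      rw [this]
    push_cast [Nat.cast_sub hk.le] at h2
    exact h2
  obtain ⟨j, hj⟩ : ∃ j, N = k + 1 + j := Nat.exists_eq_add_of_le hk
  have e1 : N - (k + 1) = j := by omega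
  have e2 : N - k = j + 1 := by omega
  rw [e1, e2, pow_succ, pow_succ]
  calc (N.choose (k + 1) : ℝ) * (l ^ k * l) * (1 - l) ^ j * (((k : ℝ) + 1) * (1 - l))
      = ((N.choose (k + 1) : ℝ) * ((k : ℝ) + 1)) * (l ^ k * l * (1 - l) ^ j * (1 - l)) := by ring
    _ = ((N.choose k : ℝ) * ((N : ℝ) - k)) * (l ^ k * l * (1 - l) ^ j * (1 - l)) := by rw [h]
    _ = (N.choose k : ℝ) * l ^ k * ((1 - l) ^ j * (1 - l)) * (((N : ℝ) - k) * l) := by ring

theorem sum_pp (N : ℕ) (l : ℝ) : ∑ k ∈ range (N + 1), pp N l k = 1 := by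
  have h := add_pow l (1 - l) N
  rw [add_sub_cancel, one_pow] at h
  rw [h]
  refine sum_congr rfl fun k _ => ?_
  unfold pp
  ring

theorem var_pp (N : ℕ) (l : ℝ) :
    ∑ k ∈ range (N + 1), ((N : ℝ) * l - k) ^ 2 * pp N l k = N * l * (1 - l) := by
  have h := congrArg (Polynomial.eval l) (bernsteinPolynomial.variance ℝ N)
  rw [Polynomial.eval_finsetSum] at h
  simp only [Polynomial.eval_mul, Polynomial.eval_pow, Polynomial.eval_sub,
    Polynomial.eval_X, Polynomial.eval_natCast, Polynomial.eval_one,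
    nsmul_eq_mul, bernsteinPolynomial] at h
  rw [← h]
  refine sum_congr rfl fun k _ => ?_
  unfold pp
  ring

theorem mode {N d : ℕ} (hN : 0 < N) (hd : 1 ≤ d) (h2 : 2 * d ≤ N) (k : ℕ) (hk : k ≤ N) :
    pp N ((d : ℝ) / N) k ≤ pp N ((d : ℝ) / N) d := by
  set l : ℝ := (d : ℝ) / N with hl
  have hN' : (0 : ℝ) < N := by exact_mod_cast hN
  have hdN : (2 : ℝ) * d ≤ N := by exact_mod_cast h2
  have hd' : (1 : ℝ) ≤ d := by exact_mod_cast hd
  have hlN : l * N = d := by rw [hl]; field_simp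
  have l0 : 0 ≤ l := by positivity
  have l1 : l ≤ 1 / 2 := by
    rw [hl, div_le_iff₀ hN']; linarith
  have up : ∀ j, j + 1 ≤ d → pp N l j ≤ pp N l (j + 1) := by
    intro j hj
    have hjN : j < N := by omega
    have hr := ratio (l := l) hjN
    have hp := pp_nonneg (N := N) l0 (by linarith) j
    have hj' : (j : ℝ) + 1 ≤ d := by exact_mod_cast hj
    have hc : ((j : ℝ) + 1) * (1 - l) ≤ ((N : ℝ) - j) * l := by
      have : ((N : ℝ) - j) * l - ((j : ℝ) + 1) * (1 - l) = l * N + l - (j + 1) := by ring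
      rw [hlN] at this
      linarith
    have hpos : 0 < ((j : ℝ) + 1) * (1 - l) := by
      have : (0 : ℝ) < 1 - l := by linarith
      positivity
    have h3 : pp N l j * (((j : ℝ) + 1) * (1 - l)) ≤ pp N l (j + 1) * (((j : ℝ) + 1) * (1 - l)) := by
      rw [hr]
      exact mul_le_mul_of_nonneg_left hc hp
    exact le_of_mul_le_mul_right h3 hpos
  have down : ∀ j, d ≤ j → j < N → pp N l (j + 1) ≤ pp N l j := by
    intro j hj hjN
    have hr := ratio (l := l) hjN
    have hp := pp_nonneg (N := N) l0 (by linarith) j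
    have hj' : (d : ℝ) ≤ j := by exact_mod_cast hj
    have hc : ((N : ℝ) - j) * l ≤ ((j : ℝ) + 1) * (1 - l) := by
      have : ((N : ℝ) - j) * l - ((j : ℝ) + 1) * (1 - l) = l * N + l - (j + 1) := by ring
      rw [hlN] at this
      linarith
    have hpos : 0 < ((j : ℝ) + 1) * (1 - l) := by
      have : (0 : ℝ) < 1 - l := by linarith
      positivity
    have h3 : pp N l (j + 1) * (((j : ℝ) + 1) * (1 - l)) ≤ pp N l j * (((j : ℝ) + 1) * (1 - l)) := by
      rw [hr]
      exact mul_le_mul_of_nonneg_left hc hp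
    exact le_of_mul_le_mul_right h3 hpos
  rcases le_total k d with h | h
  · -- below
    have : ∀ m, k + m ≤ d → pp N l k ≤ pp N l (k + m) := by
      intro m
      induction m with
      | zero => intro _; exact le_refl _
      | succ m ih =>
        intro hm
        exact (ih (by omega)).trans (up (k + m) (by omega))
    have h4 := this (d - k) (by omega)
    rwa [Nat.add_sub_cancel' h] at h4
  · have : ∀ m, d + m ≤ N → pp N l (d + m) ≤ pp N l d := by
      intro m
      induction m with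
      | zero => intro _; exact le_refl _
      | succ m ih =>
        intro hm
        exact (down (d + m) (by omega) (by omega)).trans (ih (by omega))
    have h4 := this (k - d) (by omega)
    rwa [Nat.add_sub_cancel' h] at h4

theorem cheb {N d : ℕ} (hN : 0 < N) (hd : 1 ≤ d) (h2 : 2 * d ≤ N) (V : ℝ)
    (hV : V = N * ((d : ℝ) / N) * (1 - (d : ℝ) / N)) :
    3 / 4 ≤ (4 * Real.sqrt V + 1) * pp N ((d : ℝ) / N) d := by
  set l : ℝ := (d : ℝ) / N with hl
  have hN' : (0 : ℝ) < N := by exact_mod_cast hN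
  have hdN : (2 : ℝ) * d ≤ N := by exact_mod_cast h2
  have hd' : (1 : ℝ) ≤ d := by exact_mod_cast hd
  have hlN : (N : ℝ) * l = d := by rw [hl]; field_simp
  have l0 : 0 < l := by positivity
  have l1 : l ≤ 1 / 2 := by
    rw [hl, div_le_iff₀ hN']; linarith
  have hVpos : 0 < V := by
    rw [hV]
    have : (0 : ℝ) < 1 - l := by linarith
    positivity
  set r : ℝ := 2 * Real.sqrt V with hr
  have hr0 : 0 ≤ r := by positivity
  have hr2 : r ^ 2 = 4 * V := by
    rw [hr, mul_pow, Real.sq_sqrt hVpos.le]; norm_num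
  have hvar := var_pp N l
  have hVd : V = d * (1 - l) := by rw [hV, hlN]
  rw [hlN, ← hVd] at hvar
  have hsum := sum_pp N l
  set S := (range (N + 1)).filter (fun k : ℕ => |(d : ℝ) - k| ≤ r) with hS
  have hsplit := sum_filter_add_sum_filter_not (range (N + 1))
    (fun k : ℕ => |(d : ℝ) - k| ≤ r) (fun k => pp N l k)
  rw [hsum] at hsplit
  have hnot : ∑ k ∈ (range (N + 1)).filter (fun k : ℕ => ¬ |(d : ℝ) - k| ≤ r), pp N l k ≤ 1 / 4 := by
    have hb : ∀ k ∈ (range (N + 1)).filter (fun k : ℕ => ¬ |(d : ℝ) - k| ≤ r),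
        pp N l k ≤ (1 / (4 * V)) * (((d : ℝ) - k) ^ 2 * pp N l k) := by
      intro k hk
      rw [mem_filter, not_le] at hk
      have h5 : r ^ 2 ≤ ((d : ℝ) - k) ^ 2 := by
        rw [← sq_abs ((d : ℝ) - k)]
        exact pow_le_pow_left₀ hr0 hk.2.le 2
      rw [hr2] at h5
      have hp := pp_nonneg (N := N) l0.le (by linarith) k
      have : 1 ≤ (1 / (4 * V)) * ((d : ℝ) - k) ^ 2 := by
        rw [one_div, ← div_eq_inv_mul, le_div_iff₀ (by positivity)]
        linarith
      calc pp N l k = 1 * pp N l k := (one_mul _).symm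
        _ ≤ ((1 / (4 * V)) * ((d : ℝ) - k) ^ 2) * pp N l k := mul_le_mul_of_nonneg_right this hp
        _ = _ := by ring
    refine (sum_le_sum hb).trans ?_
    rw [← mul_sum]
    have h6 : ∑ k ∈ (range (N + 1)).filter (fun k : ℕ => ¬ |(d : ℝ) - k| ≤ r),
        ((d : ℝ) - k) ^ 2 * pp N l k ≤ V := by
      rw [← hvar]
      refine sum_le_sum_of_subset_of_nonneg (filter_subset _ _) fun k _ _ => ?_
      exact mul_nonneg (sq_nonneg _) (pp_nonneg l0.le (by linarith) k)
    calc 1 / (4 * V) * ∑ k ∈ (range (N + 1)).filter (fun k : ℕ => ¬ |(d : ℝ) - k| ≤ r),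
        ((d : ℝ) - k) ^ 2 * pp N l k ≤ 1 / (4 * V) * V :=
          mul_le_mul_of_nonneg_left h6 (by positivity)
      _ = 1 / 4 := by field_simp
  have hin : 3 / 4 ≤ ∑ k ∈ S, pp N l k := by
    rw [hS]; linarith
  have hle : ∑ k ∈ S, pp N l k ≤ S.card • pp N l d := by
    refine sum_le_card_nsmul _ _ _ fun k hk => ?_
    rw [hS, mem_filter, mem_range] at hk
    exact mode hN hd h2 k (by omega)
  have hcard : (S.card : ℝ) ≤ 2 * r + 1 := by
    have hsub : S ⊆ Icc (d - ⌊r⌋₊) (d + ⌊r⌋₊) := by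
      intro k hk
      rw [hS, mem_filter] at hk
      obtain ⟨_, hk⟩ := hk
      rw [abs_le] at hk
      rw [mem_Icc]
      have a1 : (k : ℝ) - d ≤ r := by linarith
      have a2 : (d : ℝ) - k ≤ r := hk.2
      constructor
      · rcases le_total d k with h | h
        · omega
        · have : ((d - k : ℕ) : ℝ) ≤ r := by
            rw [Nat.cast_sub h]; exact a2
          have := Nat.le_floor this
          omega
      · rcases le_total k d with h | h
        · omega
        · have : ((k - d : ℕ) : ℝ) ≤ r := by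
            rw [Nat.cast_sub h]; exact a1
          have := Nat.le_floor this
          omega
    have h7 := card_le_card hsub
    rw [Nat.card_Icc] at h7
    have h8 : S.card ≤ 2 * ⌊r⌋₊ + 1 := by omega
    have h9 : (S.card : ℝ) ≤ 2 * (⌊r⌋₊ : ℝ) + 1 := by exact_mod_cast h8
    have := Nat.floor_le hr0
    linarith
  have hpd := pp_nonneg (N := N) l0.le (by linarith) d
  rw [nsmul_eq_mul] at hle
  have h10 : (S.card : ℝ) * pp N l d ≤ (2 * r + 1) * pp N l d :=
    mul_le_mul_of_nonneg_right hcard hpd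
  have : 2 * r + 1 = 4 * Real.sqrt V + 1 := by rw [hr]; ring
  rw [← this]
  linarith

end BlowX

open BlowX in
theorem blow_proof : Stmt_Blow := by
  refine ⟨1 / 8, by norm_num, ?_⟩
  intro n d hd h2
  have hn : 3 ≤ n := by omega
  set N := n - 1 with hN
  have hN2 : 2 ≤ N := by omega
  have hNn : (n : ℝ) = N + 1 := by
    have : n = N + 1 := by omega
    exact_mod_cast this
  have hN' : (2 : ℝ) ≤ N := by exact_mod_cast hN2
  have hdN : (2 : ℝ) * d ≤ N := by exact_mod_cast h2
  have hd' : (1 : ℝ) ≤ d := by exact_mod_cast hd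
  have hlam : lam n d = (d : ℝ) / N := by
    unfold lam
    rw [hNn]; congr 1; ring
  set l : ℝ := (d : ℝ) / N with hl
  have hlN : (N : ℝ) * l = d := by rw [hl]; field_simp
  have l1 : l ≤ 1 / 2 := by
    rw [hl, div_le_iff₀ (by linarith)]; linarith
  have hbb : bb n d = pp N l d := by
    unfold bb pp
    rw [hlam]
  set V : ℝ := N * l * (1 - l) with hV
  have hc := cheb (N := N) (d := d) (by omega) hd h2 V hV
  rw [← hl] at hc
  have hVy : V ≤ yy n d := by
    unfold yy Lam
    rw [hlam, hNn, hV]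
    have h3 : 0 ≤ l * (1 - l) := mul_nonneg (by positivity) (by linarith)
    nlinarith
  have hVhalf : 1 / 2 ≤ V := by
    rw [hV, hlN]
    nlinarith
  have hy : 1 / 2 ≤ yy n d := by linarith
  have hsq : Real.sqrt V ≤ Real.sqrt (yy n d) := Real.sqrt_le_sqrt hVy
  have hs2 : (1 : ℝ) / 2 ≤ Real.sqrt (yy n d) := by
    refine Real.le_sqrt_of_sq_le ?_
    linarith
  rw [hbb]
  have hp : 0 ≤ pp N l d := pp_nonneg (by positivity) (by linarith) d
  nlinarith

end Pool.Agent.RGD
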