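import Pool.Agent.RGD.Stmts

/-!
# BOX: the part where all sites are inner as an integral over a box of fields
-/

set_option autoImplicit false

namespace Pool.Agent.RGD

open Finset Pool.Agent.RGA MeasureTheory

namespace BoxX

theorem prod_prs {ι : Type} [Fintype ι] [LinearOrder ι] (P : ι → ι → ℂ) :
    ∏ p ∈ prs ι, P p.1 p.2 = ∏ i, ∏ j, if i < j then P i j else 1 := by
  rw [prs, Finset.prod_filter, Fintype.prod_prod_type]

theorem prod_prs_mul {ι : Type} [Fintype ι] [LinearOrder ι] (g : ι → ℂ) :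
    ∏ p ∈ prs ι, (g p.1 * g p.2) = ∏ l, g l ^ (Fintype.card ι - 1) := by
  rw [Finset.prod_mul_distrib, prod_prs (fun i _ => g i), prod_prs (fun _ j => g j),
    Finset.prod_comm (s := univ) (t := univ) (f := fun i j => if i < j then g j else 1),
    ← Finset.prod_mul_distrib]
  refine Finset.prod_congr rfl fun l _ => ?_
  rw [← Finset.prod_filter, ← Finset.prod_filter, Finset.prod_const, Finset.prod_const, ← pow_add]
  congr 1
  have h1 : Disjoint (univ.filter fun j => l < j) (univ.filter fun j => j < l) := by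
    rw [Finset.disjoint_filter]
    intro x _ h h'
    exact lt_asymm h h'
  rw [← Finset.card_union_of_disjoint h1]
  have h2 : (univ.filter fun j => l < j) ∪ (univ.filter fun j => j < l) = univ.erase l := by
    ext x
    simp only [mem_union, mem_filter, mem_univ, true_and, mem_erase, and_true]
    constructor
    · rintro (h | h)
      · exact h.ne'
      · exact h.ne
    · intro h
      exact (lt_or_gt_of_ne h).symm
  rw [h2, Finset.card_erase_of_mem (mem_univ l), card_univ]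

theorem sf_empty (z : Empty → ℂ) (u : ℂ) : sf z u = 1 := by
  unfold sf; simp

theorem phis_empty (n d : ℕ) (ε : ℝ) (K : ℕ) (g : Fin K → ℝ) (z : Empty → ℂ) :
    Phis n d ε K g z = Phi n d ε K g := by
  unfold Phis Phi
  simp [sf_empty]

/-- the sum over inner configurations -/
theorem zb_eq (hUid : Stmt_Uid) (n d : ℕ) (ε : ℝ) (hd : 1 ≤ d) (hd2 : 2 * d ≤ n - 1)
    (hq : ∀ k ∈ inn n d ε, qq n d k ≠ 0) (z : Empty → ℂ) :
    Zb n d ε = JJ n d ε (Fin n) z := by
  obtain ⟨-, -, -, h4⟩ := hUid n d hd hd2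
  unfold Zb JJ
  refine Finset.sum_congr rfl fun b hb => ?_
  rw [Fintype.mem_piFinset] at hb
  have hqb : ∀ l, qq n d (b l) ≠ 0 := fun l => hq _ (hb l)
  have e1 : ∀ p ∈ prs (Fin n), (1 + (lam n d : ℂ) * (ee n (b p.1) * ee n (b p.2) - 1))
      = (qq n d (b p.1) * qq n d (b p.2)) * (1 + uu n d (b p.1) * uu n d (b p.2)) := by
    intro p _
    rw [h4]
    have h1 := hqb p.1
    have h2 := hqb p.2
    unfold uu
    field_simp
  unfold FF
  rw [Finset.prod_congr rfl e1, Finset.prod_mul_distrib, prod_prs_mul (fun l => qq n d (b l)),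
    Fintype.card_fin]
  have e2 : ∀ l : Fin n, kap n d (b l) * sf z (uu n d (b l)) = qq n d (b l) ^ (n - 1) *
      (1 / (ee n (b l) ^ d * ((2 * n * bb n d : ℝ) : ℂ))) := by
    intro l
    rw [sf_empty]
    unfold kap kpj
    simp [div_eq_mul_inv]
  rw [Finset.prod_congr rfl (fun l _ => e2 l), Finset.prod_mul_distrib]
  ring

theorem phi_cont (n d : ℕ) (ε : ℝ) (K : ℕ) : Continuous (fun g : Fin K → ℝ => Phi n d ε K g) := by
  unfold Phi
  refine continuous_finsetSum _ fun k _ => ?_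
  refine Continuous.mul continuous_const ?_
  unfold fg fgG
  refine Complex.continuous_exp.comp ?_
  refine Continuous.sub ?_ continuous_const
  refine continuous_finsetSum _ fun i _ => ?_
  refine Continuous.mul ?_ continuous_const
  unfold Gt
  by_cases h : 1 ≤ i ∧ i ≤ K
  · simp only [dif_pos h]
    exact continuous_const.mul (Complex.continuous_ofReal.comp (continuous_apply _))
  · simp only [dif_neg h]
    exact continuous_const

end BoxX

open BoxX

theorem box_proof (hUid : Stmt_Uid) (hInb : Stmt_Inb) (hHsg : Stmt_Hsg) (hHsid : Stmt_Hsid)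
    (hInner : Stmt_Inner) : Stmt_Box := by
  intro σ M W K ε ε2 hP
  obtain ⟨n₁, h1⟩ := hInb σ M W K ε ε2 hP
  obtain ⟨η, C, n₂, hη, -, hC, h2⟩ := hInner σ M W K ε ε2 hP
  obtain ⟨-, hG2, hG3⟩ := hHsg
  obtain ⟨C', h3⟩ := hG3 K
  have hi : Integrable (fun g : Fin K → ℝ => Real.exp (sqn g / 4)) (gam K) := by
    have := hG2 K (1 / 4) (by norm_num)
    refine this.congr (Filter.Eventually.of_forall fun g => ?_)
    show Real.exp (1 / 4 * sqn g) = Real.exp (sqn g / 4)
    congr 1; ring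
  set I0 : ℝ := ∫ g, Real.exp (sqn g / 4) ∂(gam K) with hI0
  -- decay of the Gaussian tail
  have hdec : ∃ n₃ : ℕ, ∀ n : ℕ, n₃ ≤ n →
      Real.exp (-(((n : ℝ) ^ ε2) ^ 2 / 8)) ≤ (n : ℝ) ^ (-(M : ℝ)) := by
    have ht := isLittleO_log_rpow_atTop (r := 2 * ε2) (by linarith [hP.f0])
    have ht2 := ht.bound (c := 1 / (8 * (M + 1))) (by positivity)
    have ht3 := (tendsto_natCast_atTop_atTop (R := ℝ)).eventually ht2
    obtain ⟨n₃, hn₃⟩ := Filter.eventually_atTop.1 ht3
    refine ⟨max n₃ 1, fun n hn => ?_⟩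
    have hn1 : (1 : ℝ) ≤ n := by
      have : 1 ≤ n := le_trans (le_max_right _ _) hn
      exact_mod_cast this
    have hn0 : (0 : ℝ) < n := by linarith
    have h := hn₃ n (le_trans (le_max_left _ _) hn)
    rw [Real.norm_of_nonneg (Real.log_nonneg hn1), Real.norm_of_nonneg (by positivity)] at h
    rw [Real.rpow_def_of_pos hn0 (-(M : ℝ))]
    apply Real.exp_le_exp.2
    have e : ((n : ℝ) ^ ε2) ^ 2 = (n : ℝ) ^ (2 * ε2) := by
      rw [← Real.rpow_natCast, ← Real.rpow_mul hn0.le]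
      congr 1
      push_cast; ring
    rw [e]
    have hM : (0 : ℝ) < 8 * (M + 1) := by positivity
    have h5 : 8 * ((M : ℝ) + 1) * Real.log n ≤ (n : ℝ) ^ (2 * ε2) := by
      calc 8 * ((M : ℝ) + 1) * Real.log n ≤ 8 * ((M : ℝ) + 1) *
            (1 / (8 * (M + 1)) * (n : ℝ) ^ (2 * ε2)) := by gcongr
        _ = (n : ℝ) ^ (2 * ε2) := by field_simp
    have h6 : 0 ≤ Real.log n := Real.log_nonneg hn1
    nlinarith
  obtain ⟨n₃, h4⟩ := hdec
  refine ⟨C * I0 + C * |C'|, max n₁ (max n₂ (max n₃ 1)), fun n d hn hD => ?_⟩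
  have hn1 : n₁ ≤ n := le_trans (le_max_left _ _) hn
  have hn' := le_trans (le_max_right _ _) hn
  have hn2 : n₂ ≤ n := le_trans (le_max_left _ _) hn'
  have hn'' := le_trans (le_max_right _ _) hn'
  have hn3 : n₃ ≤ n := le_trans (le_max_left _ _) hn''
  have hn4 : 1 ≤ n := le_trans (le_max_right _ _) hn''
  have hn0 : (0 : ℝ) < n := by exact_mod_cast hn4
  set z : Empty → ℂ := fun _ => 0 with hz
  have hq : ∀ k ∈ inn n d ε, qq n d k ≠ 0 := fun k hk => (h1 n d hn1 hD k hk).1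
  obtain ⟨hHi, hHe⟩ := hHsid n d ε K (Fin n) Empty z
  rw [zb_eq hUid n d ε hD.1 hD.2.1 hq z, hHe]
  have hI : ∀ g : Fin K → ℝ,
      ‖Inn n d ε K g (Fin n) z‖ ≤ C * Real.exp (sqn g / 4) ∧
      ‖Phi n d ε K g ^ n‖ ≤ C * Real.exp (sqn g / 4) ∧
      ‖Inn n d ε K g (Fin n) z - Phi n d ε K g ^ n‖
        ≤ C * (n : ℝ) ^ (-(M : ℝ)) * Real.exp (sqn g / 4) := by
    intro g
    have h := h2 n d hn2 hD (Fin n) (by simp) Empty z (fun j => j.elim)
      (by simp only [univ_eq_empty, sum_empty]; positivity) g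
    simp only [univ_eq_empty, sum_empty, Fintype.card_fin, phis_empty] at h
    refine ⟨?_, ?_, ?_⟩
    · simpa using h.1
    · rw [norm_pow]; simpa using h.2.1
    · simpa using h.2.2
  have hPm : AEStronglyMeasurable (fun g : Fin K → ℝ => Phi n d ε K g ^ n) (gam K) :=
    ((phi_cont n d ε K).pow n).aestronglyMeasurable
  have hPi : Integrable (fun g : Fin K → ℝ => Phi n d ε K g ^ n) (gam K) := by
    refine (hi.const_mul C).mono' hPm (Filter.Eventually.of_forall fun g => (hI g).2.1)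
  set B : Set (Fin K → ℝ) := {g : Fin K → ℝ | ∀ i, |g i| ≤ (n : ℝ) ^ ε2} with hB
  have hBm : MeasurableSet B := by
    have : B = ⋂ i, {g : Fin K → ℝ | |g i| ≤ (n : ℝ) ^ ε2} := by
      ext g; simp [hB]
    rw [this]
    refine MeasurableSet.iInter fun i => ?_
    exact measurableSet_le ((measurable_pi_apply i).abs) measurable_const
  have hBc : Bᶜ = {g : Fin K → ℝ | ∃ i, (n : ℝ) ^ ε2 < |g i|} := by
    ext g; simp [hB]
  have e1 : ∫ g, Inn n d ε K g (Fin n) z ∂(gam K) - ∫ g in B, Phi n d ε K g ^ n ∂(gam K)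
      = (∫ g, (Inn n d ε K g (Fin n) z - Phi n d ε K g ^ n) ∂(gam K))
        + ∫ g in Bᶜ, Phi n d ε K g ^ n ∂(gam K) := by
    rw [integral_sub hHi hPi, ← integral_add_compl hBm hPi]
    ring
  rw [e1]
  have b1 : ‖∫ g, (Inn n d ε K g (Fin n) z - Phi n d ε K g ^ n) ∂(gam K)‖
      ≤ C * I0 * (n : ℝ) ^ (-(M : ℝ)) := by
    have := norm_integral_le_of_norm_le (hi.const_mul (C * (n : ℝ) ^ (-(M : ℝ))))
      (Filter.Eventually.of_forall fun g => (hI g).2.2)
    refine this.trans (le_of_eq ?_)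
    rw [integral_const_mul]
    ring
  have b2 : ‖∫ g in Bᶜ, Phi n d ε K g ^ n ∂(gam K)‖ ≤ C * |C'| * (n : ℝ) ^ (-(M : ℝ)) := by
    have := norm_integral_le_of_norm_le ((hi.const_mul C).restrict (s := Bᶜ))
      (Filter.Eventually.of_forall fun g => (hI g).2.1)
    refine this.trans ?_
    rw [integral_const_mul, hBc]
    have h5 := h3 ((n : ℝ) ^ ε2) (by positivity)
    have h6 := h4 n hn3
    calc C * ∫ g in {g : Fin K → ℝ | ∃ i, (n : ℝ) ^ ε2 < |g i|}, Real.exp (sqn g / 4) ∂(gam K)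
        ≤ C * (C' * Real.exp (-(((n : ℝ) ^ ε2) ^ 2 / 8))) := by gcongr
      _ ≤ C * (|C'| * Real.exp (-(((n : ℝ) ^ ε2) ^ 2 / 8))) := by
          gcongr
          exact le_abs_self _
      _ ≤ C * (|C'| * (n : ℝ) ^ (-(M : ℝ))) := by gcongr
      _ = C * |C'| * (n : ℝ) ^ (-(M : ℝ)) := by ring
  calc ‖(∫ g, (Inn n d ε K g (Fin n) z - Phi n d ε K g ^ n) ∂(gam K))
        + ∫ g in Bᶜ, Phi n d ε K g ^ n ∂(gam K)‖
      ≤ ‖∫ g, (Inn n d ε K g (Fin n) z - Phi n d ε K g ^ n) ∂(gam K)‖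
        + ‖∫ g in Bᶜ, Phi n d ε K g ^ n ∂(gam K)‖ := norm_add_le _ _
    _ ≤ C * I0 * (n : ℝ) ^ (-(M : ℝ)) + C * |C'| * (n : ℝ) ^ (-(M : ℝ)) := add_le_add b1 b2
    _ = (C * I0 + C * |C'|) * (n : ℝ) ^ (-(M : ℝ)) := by ring

end Pool.Agent.RGD
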