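import Pool.Agent.RGD.Stmts

/-!
CHI: the remainder of the pair factor.
-/

set_option autoImplicit false

namespace Pool.Agent.RGD

open Finset

theorem chi_proof : Stmt_Chi := by
  intro K
  refine ⟨4, by norm_num, fun x hx => ?_⟩
  have hx1 : ‖x‖ < 1 := by linarith
  have hlt : lgt K x = Complex.logTaylor (K + 1) x := by
    rw [Complex.logTaylor, lgt]
    induction K with
    | zero => simp
    | succ K ih =>
      rw [Finset.sum_Icc_succ_top (by omega), Finset.sum_range_succ, ih]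
      congr 2
      rw [Nat.add_sub_cancel, pow_succ (-1 : ℂ) (K + 1), pow_succ (-1 : ℂ) K]
      ring
  have h1x : (1 : ℂ) + x ≠ 0 := by
    intro h
    have : x = -1 := by linear_combination h
    rw [this, norm_neg, norm_one] at hx
    linarith
  have h := Complex.norm_log_sub_logTaylor_le K hx1
  rw [← hlt] at h
  have hK : (1 : ℝ) ≤ (K : ℝ) + 1 := by
    have : (0 : ℝ) ≤ K := Nat.cast_nonneg K
    linarith
  have hpow : ‖x‖ ^ (K + 1) ≤ 1 / 2 := by
    calc ‖x‖ ^ (K + 1) ≤ ‖x‖ ^ 1 := pow_le_pow_of_le_one (norm_nonneg _) hx1.le (by omega)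
      _ ≤ 1 / 2 := by rw [pow_one]; exact hx
  have h2 : ‖Complex.log (1 + x) - lgt K x‖ ≤ 2 * ‖x‖ ^ (K + 1) := by
    refine h.trans ?_
    rw [div_le_iff₀ (by linarith)]
    have h3 : (1 - ‖x‖)⁻¹ ≤ 2 := by
      rw [inv_le_comm₀ (by linarith) (by norm_num)]
      linarith
    have h4 : 0 ≤ ‖x‖ ^ (K + 1) := by positivity
    calc ‖x‖ ^ (K + 1) * (1 - ‖x‖)⁻¹ ≤ ‖x‖ ^ (K + 1) * 2 := by gcongr
      _ = 2 * ‖x‖ ^ (K + 1) * 1 := by ring
      _ ≤ 2 * ‖x‖ ^ (K + 1) * ((K : ℝ) + 1) := by gcongr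
  have heq : chi K x = Complex.exp (Complex.log (1 + x) - lgt K x) - 1 := by
    rw [chi, sub_eq_add_neg (Complex.log (1 + x)), Complex.exp_add, Complex.exp_log h1x]
  rw [heq]
  refine (Complex.norm_exp_sub_one_le (by linarith)).trans ?_
  linarith

end Pool.Agent.RGD
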