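import Pool.Agent.RGD.CompDefs

/-!
COMP: kernel evaluation at t = 1.
-/

set_option autoImplicit false

namespace Pool.Agent.RGD.Comp

theorem chk1 : chkAll (Et 1 6) cert1 = true := by decide +kernel

end Pool.Agent.RGD.Comp
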