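import Pool.Agent.RGD.CompK0
import Pool.Agent.RGD.CompK1

/-!
COMP: the explicit computation, by evaluation in the kernel (programs and their soundness in
`CompDefs`, evaluation in `CompK0`, `CompK1`).
-/

set_option autoImplicit false

namespace Pool.Agent.RGD.Comp

open Finset

theorem vals0 : Lf (kap' 0 (EE 1)) = -1 / 4 ∧ Lf (kap' 0 (EE 2)) = -19 / 32 ∧
    Lf (kap' 0 (EE 3)) = -199 / 128 ∧ Lf (kap' 0 (EE 4)) = -32647 / 6144 ∧
    Lf (kap' 0 (EE 5)) = -3051977 / 122880 ∧ Lf (kap' 0 (EE 6)) = -139001801 / 983040 := by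
  obtain ⟨h1, h2⟩ := Et_spec 0 6 le_rfl
  have h := chkAll_spec 0 (Et 0 6) cert0 (fun i => EE (6 - i))
    (fun i hi => h2 i (by omega)) (by decide) chk0
  refine ⟨?_, ?_, ?_, ?_, ?_, ?_⟩
  · have := h 5 (by decide); simpa [cert0] using this
  · have := h 4 (by decide); simpa [cert0] using this
  · have := h 3 (by decide); simpa [cert0] using this
  · have := h 2 (by decide); simpa [cert0] using this
  · have := h 1 (by decide); simpa [cert0] using this
  · have := h 0 (by decide); simpa [cert0] using this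

theorem vals1 : Lf (kap' 1 (EE 1)) = -1 / 4 ∧ Lf (kap' 1 (EE 2)) = -49 / 96 ∧
    Lf (kap' 1 (EE 3)) = -253 / 384 ∧ Lf (kap' 1 (EE 4)) = 32155 / 18432 ∧
    Lf (kap' 1 (EE 5)) = 3284743 / 122880 ∧ Lf (kap' 1 (EE 6)) = 6103331509 / 26542080 := by
  obtain ⟨h1, h2⟩ := Et_spec 1 6 le_rfl
  have h := chkAll_spec 1 (Et 1 6) cert1 (fun i => EE (6 - i))
    (fun i hi => h2 i (by omega)) (by decide) chk1
  refine ⟨?_, ?_, ?_, ?_, ?_, ?_⟩
  · have := h 5 (by decide); simpa [cert1] using this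
  · have := h 4 (by decide); simpa [cert1] using this
  · have := h 3 (by decide); simpa [cert1] using this
  · have := h 2 (by decide); simpa [cert1] using this
  · have := h 1 (by decide); simpa [cert1] using this
  · have := h 0 (by decide); simpa [cert1] using this

end Pool.Agent.RGD.Comp

namespace Pool.Agent.RGD

open Pool.Agent.RGD.Comp

theorem comp_proof (hD : Stmt_Deg) : Stmt_Comp := by
  have q0 : ∀ w ≤ 6, (Qt w).eval (0 : ℚ) = Lf (kap' 0 (EE w)) := fun w hw => by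
    simpa using Qt_eval hD 0 w hw
  have q1 : ∀ w ≤ 6, (Qt w).eval (1 : ℚ) = Lf (kap' 1 (EE w)) := fun w hw => by
    simpa using Qt_eval hD 1 w hw
  obtain ⟨a1, a2, a3, a4, a5, a6⟩ := vals0
  obtain ⟨b1, b2, b3, b4, b5, b6⟩ := vals1
  obtain ⟨l1, l2, l3, l4, l5, l6⟩ := logS_six (fun w => (Qt w).eval (0 : ℚ))
  obtain ⟨k1, k2, k3, k4, k5, k6⟩ := logS_six (fun w => (Qt w).eval (1 : ℚ))
  simp only [q0 1 (by norm_num), q0 2 (by norm_num), q0 3 (by norm_num), q0 4 (by norm_num),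
    q0 5 (by norm_num), q0 6 (by norm_num), a1, a2, a3, a4, a5, a6] at l1 l2 l3 l4 l5 l6
  simp only [q1 1 (by norm_num), q1 2 (by norm_num), q1 3 (by norm_num), q1 4 (by norm_num),
    q1 5 (by norm_num), q1 6 (by norm_num), b1, b2, b3, b4, b5, b6] at k1 k2 k3 k4 k5 k6
  rw [l1] at l2 l3 l4 l5 l6
  norm_num at l2
  rw [l2] at l3 l4 l5 l6
  norm_num at l3
  rw [l3] at l4 l5 l6
  norm_num at l4
  rw [l4] at l5 l6
  norm_num at l5
  rw [l5] at l6
  norm_num at l6
  rw [k1] at k2 k3 k4 k5 k6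
  norm_num at k2
  rw [k2] at k3 k4 k5 k6
  norm_num at k3
  rw [k3] at k4 k5 k6
  norm_num at k4
  rw [k4] at k5 k6
  norm_num at k5
  rw [k5] at k6
  norm_num at k6
  refine ⟨?_, ?_, ?_⟩
  · rw [QQ_eval, l5]; norm_num
  · rw [QQ_eval, l6]; norm_num
  · rw [QQ_eval, k6]

end Pool.Agent.RGD
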