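import Pool.Agent.RGD.Stmts

/-!
COMP: the explicit computation, by evaluation in the kernel.
Polynomials in the fields are coded by Kronecker substitution `X_i -> X^(32^(i-1))` as sorted lists
of pairs (exponent, integer coefficient) with one common denominator.
-/

set_option autoImplicit false

namespace Pool.Agent.RGD.Comp

open Finset

abbrev CP := List (ℕ × ℤ)
abbrev SP := ℕ × CP

/-! ### the program -/

def consz (c : ℕ) (z : ℤ) (l : CP) : CP :=
  match z with
  | Int.ofNat 0 => l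
  | Int.ofNat (n + 1) => (c, Int.ofNat (n + 1)) :: l
  | Int.negSucc n => (c, Int.negSucc n) :: l

def addGo (a : ℕ × ℤ) (l : CP) (ih : CP → CP) : CP → CP
  | [] => a :: l
  | b :: m => bif Nat.blt a.1 b.1 then a :: ih (b :: m)
          else bif Nat.blt b.1 a.1 then b :: addGo a l ih m
          else consz a.1 (a.2 + b.2) (ih m)

def add : CP → CP → CP
  | [] => fun m => m
  | a :: l => addGo a l (add l)

def sc (z : ℤ) (c : ℕ) : CP → CP
  | [] => []
  | a :: p => (a.1 + c, z * a.2) :: sc z c p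

def mul0 : CP → CP → CP
  | [], _ => []
  | a :: p, q => add (sc a.2 a.1 q) (mul0 p q)

def mul (p q : CP) : CP := bif Nat.ble p.length q.length then mul0 p q else mul0 q p

def addS (s t : SP) : SP :=
  (s.1 * (t.1 / Nat.gcd s.1 t.1), add (sc ((t.1 / Nat.gcd s.1 t.1 : ℕ) : ℤ) 0 s.2)
    (sc ((s.1 / Nat.gcd s.1 t.1 : ℕ) : ℤ) 0 t.2))

def mulS (s t : SP) : SP := (s.1 * t.1, mul s.2 t.2)

def smS (a : ℤ) (b : ℕ) (s : SP) : SP :=
  match a with
  | Int.ofNat 0 => (1, [])
  | Int.ofNat (n + 1) => (s.1 * b, sc (Int.ofNat (n + 1)) 0 s.2)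
  | Int.negSucc n => (s.1 * b, sc (Int.negSucc n) 0 s.2)

def cv : List SP → List SP → SP
  | a :: f, b :: l => addS (mulS a b) (cv f l)
  | _, _ => (1, [])

/-- `[x_n, ..., x_0]` -/
def tab (x0 : SP) (step : ℕ → List SP → SP) : ℕ → List SP
  | 0 => [x0]
  | k + 1 => let l := tab x0 step k; step k l :: l

def iotI (i : ℕ) : ℤ := bif Nat.beq (i % 4) 0 then 1 else -1

/-- coefficient of the recursion of bet : `i X_i + iot i` -/
def fb (i : ℕ) : SP :=
  (1, bif Nat.beq (i % 2) 0 then [(0, iotI i), (32 ^ (i - 1), (i : ℤ))]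
    else [(32 ^ (i - 1), (i : ℤ))])

def fbl : ℕ → ℕ → List SP
  | 0, _ => []
  | n + 1, i => fb i :: fbl n (i + 1)

def bT (n : ℕ) : List SP :=
  tab (1, [(0, 1)]) (fun k l => smS 1 (k + 1) (cv (fbl (k + 1) 1) l)) n

/-- `x s / (1 - c x)` -/
def geoL (c : ℤ) : ℤ → List ℤ → List ℤ
  | r, [] => [r]
  | r, s :: l => r :: geoL c (s + c * r) l

/-- row k, row k+1 -/
def rows (t : ℤ) : ℕ → List ℤ × List ℤ
  | 0 => ([1, 0, 0, 0, 0, 0, 0, 0], [0, 0, 0, 0, 0, 0, 0, 0])
  | k + 1 => let p := rows t k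
     (p.2, (geoL (k + 2) 0 (List.zipWith (fun a b => -((k : ℤ) + 1) * (a + t * b)) p.1 p.2)))

def Dn (t : ℤ) (bl : List SP) (w : ℕ) : ℕ → SP
  | 0 => (1, [])
  | k + 1 => addS (smS (((rows t (k + 2)).1).getD w 0) 1 (bl.getD (12 - k) (1, []))) (Dn t bl w k)

/-- D_1 .. D_7 -/
def Dl (t : ℤ) : List SP :=
  let bl := bT 14
  [Dn t bl 1 1, Dn t bl 2 3, Dn t bl 3 5, Dn t bl 4 7, Dn t bl 5 9, Dn t bl 6 11, Dn t bl 7 13]

/-- M_n, ..., M_0 ; D = [D_1, D_2, ...] -/
def Mt (D : List SP) : ℕ → List SP :=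
  tab (1, []) (fun k l => addS (smS ((k : ℤ) + 1) 1 (D.getD k (1, []))) (smS (-1) 1 (cv D l)))

/-- B_1, B_2, ..., B_6 -/
def Bl (t : ℤ) : List SP :=
  let M := Mt (Dl t) 7
  [smS 1 2 (M.getD 5 (1, [])), smS 2 3 (M.getD 4 (1, [])), smS 3 4 (M.getD 3 (1, [])),
   smS 4 5 (M.getD 2 (1, [])), smS 5 6 (M.getD 1 (1, [])), smS 6 7 (M.getD 0 (1, []))]

def Et (t : ℤ) : ℕ → List SP :=
  tab (1, [(0, 1)]) (fun k l => smS 1 (k + 1) (cv (Bl t) l))

def sdn (i : ℕ) : ℕ := bif Nat.ble i 1 then 2 else i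
def smu (i : ℕ) : ℤ := bif Nat.beq i 2 then 1 else 0
def sva (i : ℕ) : ℤ := bif Nat.beq i 1 then 2 else bif Nat.beq (i % 2) 0 then -(i : ℤ) else (i : ℤ)

def nuP (i : ℕ) : ℕ → ℤ × ℤ
  | 0 => (1, smu i)
  | a + 1 => let p := nuP i a; (p.2, smu i * p.2 + ((a : ℤ) + 1) * sva i * p.1)

def mom : ℕ → ℕ → ℕ → ℕ × ℤ
  | 0, _, _ => (1, 1)
  | n + 1, i, c => match c with
    | 0 => (1, 1)
    | c + 1 =>
      let r := mom n (i + 1) ((c + 1) / 32)
      (sdn i ^ ((c + 1) % 32) * r.1, (nuP i ((c + 1) % 32)).1 * r.2)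

def addN (s t : ℕ × ℤ) : ℕ × ℤ :=
  (s.1 * (t.1 / Nat.gcd s.1 t.1), ((t.1 / Nat.gcd s.1 t.1 : ℕ) : ℤ) * s.2
    + ((s.1 / Nat.gcd s.1 t.1 : ℕ) : ℤ) * t.2)

def sumL : CP → ℕ × ℤ
  | [] => (1, 0)
  | a :: p => let r := mom 14 1 a.1
     match r.2 with
     | Int.ofNat 0 => sumL p
     | Int.ofNat (n + 1) => addN (r.1, a.2 * Int.ofNat (n + 1)) (sumL p)
     | Int.negSucc n => addN (r.1, a.2 * Int.negSucc n) (sumL p)

def LL (s : SP) : ℕ × ℤ := let r := sumL s.2; (s.1 * r.1, r.2)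

def chk (s : SP) (z : ℕ × ℤ) : Bool :=
  let r := LL s; decide ((z.1 : ℤ) * r.2 = z.2 * (r.1 : ℤ))

def chkAll : List SP → List (ℕ × ℤ) → Bool
  | s :: l, z :: m => chk s z && chkAll l m
  | [], [] => true
  | _, _ => false

/-! ### meaning -/

noncomputable def kap' (t : ℤ) : Rg →ₐ[ℚ] Polynomial ℚ :=
  MvPolynomial.aeval (fun i => if i = 0 then Polynomial.C (t : ℚ)
    else Polynomial.X ^ (32 ^ (i - 1)))

noncomputable def den : CP → Polynomial ℚ
  | [] => 0
  | a :: p => Polynomial.C (a.2 : ℚ) * Polynomial.X ^ a.1 + den p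

theorem den_consz (c : ℕ) (z : ℤ) (l : CP) :
    den (consz c z l) = Polynomial.C (z : ℚ) * Polynomial.X ^ c + den l := by
  rcases z with (_ | n) | n <;> simp [consz, den]

theorem den_addGo (a : ℕ × ℤ) (l : CP) (ih : CP → CP) (h : ∀ m, den (ih m) = den l + den m) :
    ∀ m, den (addGo a l ih m)
      = Polynomial.C (a.2 : ℚ) * Polynomial.X ^ a.1 + den l + den m
  | [] => by simp [addGo, den]
  | b :: m => by
      rw [addGo]
      cases h1 : Nat.blt a.1 b.1 with
      | true => simp only [cond_true, den, h]; ring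
      | false =>
        cases h2 : Nat.blt b.1 a.1 with
        | true => simp only [cond_false, cond_true, den, den_addGo a l ih h m]; ring
        | false =>
          have e1 : ¬ a.1 < b.1 := by rw [← Nat.blt_eq]; simp [h1]
          have e2 : ¬ b.1 < a.1 := by rw [← Nat.blt_eq]; simp [h2]
          have e3 : b.1 = a.1 := by omega
          simp only [cond_false, den, den_consz, h, e3, Int.cast_add, map_add]; ring

theorem den_add : ∀ l m : CP, den (add l m) = den l + den m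
  | [], m => by simp [add, den]
  | a :: l, m => by
      rw [add, den_addGo a l (add l) (den_add l), den]

theorem den_sc (z : ℤ) (c : ℕ) : ∀ p : CP,
    den (sc z c p) = Polynomial.C (z : ℚ) * Polynomial.X ^ c * den p
  | [] => by simp [sc, den]
  | a :: p => by
      simp only [sc, den, den_sc z c p, Int.cast_mul, map_mul, pow_add]; ring

theorem den_mul0 : ∀ p q : CP, den (mul0 p q) = den p * den q
  | [], q => by simp [mul0, den]
  | a :: p, q => by simp only [mul0, den_add, den_sc, den, den_mul0 p q]; ring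

theorem den_mul (p q : CP) : den (mul p q) = den p * den q := by
  unfold mul
  cases Nat.ble p.length q.length
  · simp only [cond_false, den_mul0]; ring
  · simp only [cond_true, den_mul0]

/-- `s` represents `P` -/
def R (t : ℤ) (s : SP) (P : Rg) : Prop :=
  s.1 ≠ 0 ∧ Polynomial.C (s.1 : ℚ) * kap' t P = den s.2

theorem R.congr {t : ℤ} {s : SP} {P Q : Rg} (h : R t s P) (e : kap' t P = kap' t Q) : R t s Q :=
  ⟨h.1, e ▸ h.2⟩

theorem R_zero (t : ℤ) : R t (1, []) 0 := ⟨one_ne_zero, by simp [den]⟩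

theorem R_one (t : ℤ) : R t (1, [(0, 1)]) 1 := ⟨one_ne_zero, by simp [den]⟩

theorem R_add {t : ℤ} {s s' : SP} {P Q : Rg} (h : R t s P) (h' : R t s' Q) :
    R t (addS s s') (P + Q) := by
  obtain ⟨h1, h2⟩ := h
  obtain ⟨h3, h4⟩ := h'
  have hg : Nat.gcd s.1 s'.1 ≠ 0 := Nat.gcd_ne_zero_left h1
  obtain ⟨a, ha⟩ := Nat.gcd_dvd_left s.1 s'.1
  obtain ⟨b, hb⟩ := Nat.gcd_dvd_right s.1 s'.1
  have ea : s.1 / Nat.gcd s.1 s'.1 = a :=
    Nat.div_eq_of_eq_mul_right (Nat.pos_of_ne_zero hg) ha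
  have eb : s'.1 / Nat.gcd s.1 s'.1 = b :=
    Nat.div_eq_of_eq_mul_right (Nat.pos_of_ne_zero hg) hb
  have hab : s.1 * b = s'.1 * a := by
    have h5 : s.1 * b = (Nat.gcd s.1 s'.1 * a) * b := congrArg (· * b) ha
    have h6 : s'.1 * a = (Nat.gcd s.1 s'.1 * b) * a := congrArg (· * a) hb
    rw [h5, h6]; ring
  have hb0 : b ≠ 0 := by rintro rfl; simp at hb; exact h3 hb
  refine ⟨?_, ?_⟩
  · simp only [addS, eb]; exact Nat.mul_ne_zero h1 hb0
  · simp only [addS, ea, eb, den_add, den_sc, pow_zero, mul_one, ← h2, ← h4, map_add]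
    have e1 : ((s.1 * b : ℕ) : ℚ) = (s'.1 : ℚ) * a := by rw [hab]; push_cast; ring
    have e2 : ((s.1 * b : ℕ) : ℚ) = (s.1 : ℚ) * b := by push_cast; ring
    rw [mul_add]
    conv_lhs => congr; · rw [e2]
                · rw [e1]
    simp only [map_mul, Int.cast_natCast]
    ring

theorem R_mul {t : ℤ} {s s' : SP} {P Q : Rg} (h : R t s P) (h' : R t s' Q) :
    R t (mulS s s') (P * Q) := by
  refine ⟨Nat.mul_ne_zero h.1 h'.1, ?_⟩
  simp only [mulS, den_mul, ← h.2, ← h'.2, map_mul, Nat.cast_mul]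
  ring

theorem R_smS {t : ℤ} {s : SP} {P : Rg} (h : R t s P) (a : ℤ) (b : ℕ) (hb : b ≠ 0) :
    R t (smS a b s) (((a : ℚ) / (b : ℚ)) • P) := by
  have hb' : (b : ℚ) ≠ 0 := by exact_mod_cast hb
  have key : ∀ z : ℤ, R t (s.1 * b, sc z 0 s.2) (((z : ℚ) / (b : ℚ)) • P) := by
    intro z
    refine ⟨Nat.mul_ne_zero h.1 hb, ?_⟩
    simp only [den_sc, pow_zero, mul_one, ← h.2, map_smul, Nat.cast_mul, map_mul]
    rw [Polynomial.smul_eq_C_mul]
    have : (Polynomial.C (s.1 : ℚ) * Polynomial.C (b : ℚ))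
        * (Polynomial.C ((z : ℚ) / (b : ℚ)) * kap' t P)
        = Polynomial.C ((b : ℚ) * ((z : ℚ) / (b : ℚ))) * (Polynomial.C (s.1 : ℚ) * kap' t P) := by
      rw [map_mul]; ring
    rw [this, mul_div_cancel₀ _ hb']
  rcases a with (_ | n) | n
  · simpa [smS] using R_zero t
  · exact key _
  · exact key _

theorem cv_spec (t : ℤ) : ∀ (f l : List SP) (F G : ℕ → Rg),
    (∀ i < f.length, R t (f.getD i (1, [])) (F i)) →
    (∀ i < l.length, R t (l.getD i (1, [])) (G i)) →
    R t (cv f l) (∑ i ∈ range (min f.length l.length), F i * G i)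
  | [], l, F, G, hF, hG => by simpa [cv] using R_zero t
  | a :: f, [], F, G, hF, hG => by simpa [cv] using R_zero t
  | a :: f, b :: l, F, G, hF, hG => by
      have h := cv_spec t f l (fun i => F (i + 1)) (fun i => G (i + 1))
        (fun i hi => by simpa using hF (i + 1) (by simpa using hi))
        (fun i hi => by simpa using hG (i + 1) (by simpa using hi))
      have h0 := R_mul (hF 0 (by simp)) (hG 0 (by simp))
      have h2 := R_add h0 h
      rw [cv]
      rw [List.length_cons, List.length_cons, Nat.succ_min_succ, Finset.sum_range_succ']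
      rw [add_comm (F 0 * G 0)] at h2
      simpa using h2

theorem tab_spec (t : ℤ) (x0 : SP) (step : ℕ → List SP → SP) (x : ℕ → Rg) (N : ℕ)
    (h0 : R t x0 (x 0))
    (hs : ∀ k < N, ∀ l : List SP, l.length = k + 1 →
      (∀ i < k + 1, R t (l.getD i (1, [])) (x (k - i))) → R t (step k l) (x (k + 1))) :
    ∀ n ≤ N, (tab x0 step n).length = n + 1 ∧
      ∀ i < n + 1, R t ((tab x0 step n).getD i (1, [])) (x (n - i))
  | 0, _ => by
      refine ⟨rfl, ?_⟩
      intro i hi
      obtain rfl : i = 0 := by omega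
      simpa [tab] using h0
  | n + 1, hn => by
      obtain ⟨h1, h2⟩ := tab_spec t x0 step x N h0 hs n (by omega)
      refine ⟨by simp [tab, h1], ?_⟩
      intro i hi
      rcases i with _ | i
      · simpa [tab] using hs n (by omega) _ h1 h2
      · have := h2 i (by omega)
        simpa [tab] using this

/-! ### the sequence `bet` -/

theorem kap_X (t : ℤ) (i : ℕ) (hi : i ≠ 0) :
    kap' t (MvPolynomial.X i) = Polynomial.X ^ (32 ^ (i - 1)) := by
  simp [kap', hi]

theorem kap_X0 (t : ℤ) : kap' t (MvPolynomial.X 0) = Polynomial.C (t : ℚ) := by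
  simp [kap']

theorem kap_C (t : ℤ) (c : ℚ) : kap' t (MvPolynomial.C c) = Polynomial.C c := by
  simp [kap', MvPolynomial.algHom_C]

/-- the factor in the recursion of `bet` -/
noncomputable def fbR (i : ℕ) : Rg := ((i : ℕ) : ℚ) • MvPolynomial.X i + MvPolynomial.C (iot i)

theorem iot_even (i : ℕ) (h : i % 2 = 0) : (iotI i : ℚ) = iot i := by
  have he : Even i := Nat.even_iff.mpr h
  unfold iotI iot
  rw [if_pos he]
  cases h4 : Nat.beq (i % 4) 0 with
  | true =>
    have h5 : i % 4 = 0 := Nat.eq_of_beq_eq_true h4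
    have : Even (i / 2) := by rw [Nat.even_iff]; omega
    simp [this.neg_one_pow]
  | false =>
    have h5 : i % 4 ≠ 0 := Nat.ne_of_beq_eq_false h4
    have : Odd (i / 2) := by rw [Nat.odd_iff]; omega
    simp [this.neg_one_pow]

theorem R_fb (t : ℤ) (i : ℕ) (hi : i ≠ 0) : R t (fb i) (fbR i) := by
  refine ⟨one_ne_zero, ?_⟩
  unfold fb fbR
  cases h : Nat.beq (i % 2) 0 with
  | true =>
    have h2 : i % 2 = 0 := Nat.eq_of_beq_eq_true h
    simp only [map_add, map_smul, kap_X t i hi, kap_C, cond_true, den, iot_even i h2,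
      Polynomial.smul_eq_C_mul]
    simp
    ring
  | false =>
    have h2 : ¬ Even i := by
      intro he
      exact Nat.ne_of_beq_eq_false h (Nat.even_iff.mp he)
    simp only [map_add, map_smul, kap_X t i hi, kap_C, cond_false, den, iot, if_neg h2,
      Polynomial.smul_eq_C_mul]
    simp

theorem fbl_length : ∀ n i : ℕ, (fbl n i).length = n
  | 0, _ => rfl
  | n + 1, i => by simp [fbl, fbl_length n]

theorem fbl_getD : ∀ n i j : ℕ, j < n → (fbl n i).getD j (1, []) = fb (i + j)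
  | 0, _, _, h => absurd h (by omega)
  | n + 1, i, 0, _ => by simp [fbl]
  | n + 1, i, j + 1, h => by
      have := fbl_getD n (i + 1) j (by omega)
      simp only [fbl, List.getD_cons_succ, this]
      congr 1; omega

theorem bet_succ' (k : ℕ) :
    bet (k + 1) = (1 / ((k : ℚ) + 1)) • ∑ i ∈ range (k + 1), fbR (i + 1) * bet (k - i) := by
  rw [bet, MvPolynomial.smul_eq_C_mul]
  congr 1
  rw [Finset.sum_range (fun i => fbR (i + 1) * bet (k - i))]
  refine Fintype.sum_equiv Fin.revPerm _ _ ?_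
  intro j
  have hj := j.2
  have e1 : ((Fin.revPerm j : Fin (k + 1)) : ℕ) = k - j := by
    simp [Fin.revPerm_apply, Fin.val_rev]
  have e2 : k - (k - (j : ℕ)) = j := by omega
  have e3 : k - (j : ℕ) + 1 = k + 1 - j := by omega
  rw [e1, e2, e3]
  rfl

theorem bT_spec (t : ℤ) (n : ℕ) : (bT n).length = n + 1 ∧
    ∀ i < n + 1, R t ((bT n).getD i (1, [])) (bet (n - i)) := by
  refine tab_spec t _ _ bet n (by rw [bet]; exact R_one t) ?_ n le_rfl
  intro k hk l hl h
  have h1 := cv_spec t (fbl (k + 1) 1) l (fun i => fbR (i + 1)) (fun i => bet (k - i))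
    (fun i hi => by
      rw [fbl_length] at hi
      rw [fbl_getD _ _ _ hi, add_comm 1 i]
      exact R_fb t _ (by omega))
    (fun i hi => h i (by omega))
  rw [fbl_length, hl, min_self] at h1
  have h2 := R_smS h1 1 (k + 1) (by omega)
  rw [bet_succ']
  push_cast at h2
  exact h2

/-! ### the rows -/

theorem coeff_geo_mul (c : ℚ) (f : PowerSeries Rg) :
    PowerSeries.coeff 0 (geo c * f) = 0 ∧ ∀ n, PowerSeries.coeff (n + 1) (geo c * f)
      = PowerSeries.coeff n f + MvPolynomial.C c * PowerSeries.coeff n (geo c * f) := by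
  have hg : geo c = PowerSeries.X * (1 + PowerSeries.C (MvPolynomial.C c) * geo c) := by
    ext n : 1
    rcases n with _ | n
    · simp [geo]
    · rw [PowerSeries.coeff_succ_X_mul, map_add, PowerSeries.coeff_C_mul]
      rcases n with _ | n
      · simp [geo]
      · simp [geo, PowerSeries.coeff_one, pow_succ, mul_comm]
  have h2 : geo c * f = PowerSeries.X * (f + PowerSeries.C (MvPolynomial.C c) * (geo c * f)) := by
    conv_lhs => rw [hg]
    ring
  refine ⟨?_, ?_⟩
  · rw [h2]; simp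
  · intro n
    conv_lhs => rw [h2]
    rw [PowerSeries.coeff_succ_X_mul, map_add, PowerSeries.coeff_C_mul]

/-- the list represents the beginning of the series -/
def Row (t : ℤ) (l : List ℤ) (f : PowerSeries Rg) : Prop :=
  8 ≤ l.length ∧ ∀ w < l.length, kap' t (PowerSeries.coeff w f) = Polynomial.C ((l.getD w 0 : ℤ) : ℚ)

theorem geoL_length (c : ℤ) : ∀ (l : List ℤ) (r : ℤ), (geoL c r l).length = l.length + 1
  | [], _ => rfl
  | s :: l, r => by simp [geoL, geoL_length c l]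

theorem geoL_zero (c : ℤ) : ∀ (l : List ℤ) (r : ℤ), (geoL c r l).getD 0 0 = r
  | [], _ => rfl
  | _ :: _, _ => rfl

theorem geoL_succ (c : ℤ) : ∀ (l : List ℤ) (r : ℤ) (w : ℕ), w < l.length →
    (geoL c r l).getD (w + 1) 0 = l.getD w 0 + c * (geoL c r l).getD w 0
  | [], r, w, h => absurd h (by simp)
  | s :: l, r, 0, _ => by
      simp [geoL]
      cases l <;> simp [geoL]
  | s :: l, r, w + 1, h => by
      have := geoL_succ c l (s + c * r) w (by simpa using h)
      simpa [geoL] using this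

theorem Row_geo {t : ℤ} {l : List ℤ} {f : PowerSeries Rg} (h : Row t l f) (c : ℤ) :
    Row t (geoL c 0 l) (geo c * f) := by
  obtain ⟨h0, h1⟩ := h
  refine ⟨by rw [geoL_length]; omega, ?_⟩
  intro w
  induction w with
  | zero =>
    intro _
    rw [(coeff_geo_mul (c : ℚ) f).1, geoL_zero]; simp
  | succ w ih =>
    intro hw
    rw [geoL_length] at hw ih
    rw [(coeff_geo_mul (c : ℚ) f).2, geoL_succ c l 0 w (by omega), map_add, map_mul,
      ih (by omega), h1 w (by omega), kap_C]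
    push_cast
    rw [map_add, map_mul]

theorem Row_comb {t : ℤ} {l m : List ℤ} {f g : PowerSeries Rg} (hf : Row t l f) (hg : Row t m g)
    (k : ℕ) : Row t (List.zipWith (fun a b => -((k : ℤ) + 1) * (a + t * b)) l m)
      (-((k : PowerSeries Rg) + 1) * (f + PowerSeries.C (MvPolynomial.X 0) * g)) := by
  refine ⟨by rw [List.length_zipWith]; exact le_min hf.1 hg.1, ?_⟩
  intro w hw
  rw [List.length_zipWith] at hw
  have h1 : w < l.length := lt_of_lt_of_le hw (min_le_left _ _)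
  have h2 : w < m.length := lt_of_lt_of_le hw (min_le_right _ _)
  have e1 : (-((k : PowerSeries Rg) + 1)) = PowerSeries.C (MvPolynomial.C (-((k : ℚ) + 1))) := by
    simp
  rw [e1, PowerSeries.coeff_C_mul, map_mul, map_add, PowerSeries.coeff_C_mul, map_add, map_mul,
    kap_X0, kap_C, hf.2 w h1, hg.2 w h2]
  have e2 : (List.zipWith (fun a b => -((k : ℤ) + 1) * (a + t * b)) l m).getD w 0
      = -((k : ℤ) + 1) * (l.getD w 0 + t * m.getD w 0) := by
    rw [List.getD_eq_getElem _ _ (by rw [List.length_zipWith]; exact hw),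
      List.getD_eq_getElem _ _ h1, List.getD_eq_getElem _ _ h2, List.getElem_zipWith]
  rw [e2]
  push_cast
  simp only [map_mul, map_add, map_neg, map_one]

theorem rows_spec (t : ℤ) : ∀ k, Row t (rows t k).1 (mfm k) ∧ Row t (rows t k).2 (mfm (k + 1))
  | 0 => by
      refine ⟨⟨by simp [rows], ?_⟩, ⟨by simp [rows], ?_⟩⟩
      · intro w hw
        rw [mfm]
        simp only [rows, List.length_cons, List.length_nil] at hw
        interval_cases w <;> simp [rows, PowerSeries.coeff_one]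
      · intro w hw
        rw [zero_add, mfm]
        simp only [rows, List.length_cons, List.length_nil] at hw
        interval_cases w <;> simp [rows]
  | k + 1 => by
      obtain ⟨h1, h2⟩ := rows_spec t k
      refine ⟨h2, ?_⟩
      have h3 := Row_geo (Row_comb h1 h2 k) (k + 2)
      rw [mfm]
      have e : -((k : PowerSeries Rg) + 1) * geo ((k : ℚ) + 2)
          * (mfm k + PowerSeries.C (MvPolynomial.X 0) * mfm (k + 1))
          = geo (((k : ℤ) + 2 : ℤ) : ℚ) * (-((k : PowerSeries Rg) + 1)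
            * (mfm k + PowerSeries.C (MvPolynomial.X 0) * mfm (k + 1))) := by
        push_cast; ring
      rw [e]
      exact h3

/-! ### Del -/

theorem Dn_spec (t : ℤ) (w : ℕ) (hw : w < 8) : ∀ n ≤ 13, R t (Dn t (bT 14) w n)
    (∑ k ∈ range n, bet (k + 2) * PowerSeries.coeff w (mfm (k + 2)))
  | 0, _ => by simpa [Dn] using R_zero t
  | n + 1, hn => by
      have h1 := Dn_spec t w hw n (by omega)
      have h2 := (bT_spec t 14).2 (12 - n) (by omega)
      have h3 : 14 - (12 - n) = n + 2 := by omega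
      rw [h3] at h2
      obtain ⟨h4, h5⟩ := (rows_spec t (n + 2)).1
      have h6 := R_smS h2 (((rows t (n + 2)).1).getD w 0) 1 one_ne_zero
      rw [Finset.sum_range_succ, add_comm (Finset.sum _ _) _, Dn]
      refine R_add (h6.congr ?_) h1
      rw [map_smul, map_mul, h5 w (by omega), Polynomial.smul_eq_C_mul]
      push_cast
      rw [div_one]; ring

theorem Del_eq (w : ℕ) (hw : 1 ≤ w) :
    Del w = ∑ k ∈ range (2 * w - 1), bet (k + 2) * PowerSeries.coeff w (mfm (k + 2)) := by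
  unfold Del
  rw [Finset.range_eq_Ico, Finset.sum_Ico_add' (fun k => bet k * PowerSeries.coeff w (mfm k)) 0
    (2 * w - 1) 2]
  apply Finset.sum_congr _ (fun _ _ => rfl)
  ext x; simp only [Finset.mem_Icc, Finset.mem_Ico]; omega

theorem Dl_spec (t : ℤ) : (Dl t).length = 7 ∧ ∀ i < 7, R t ((Dl t).getD i (1, [])) (Del (i + 1)) := by
  refine ⟨rfl, ?_⟩
  intro i hi
  rw [Del_eq (i + 1) (by omega)]
  interval_cases i
  · exact Dn_spec t 1 (by omega) 1 (by omega)
  · exact Dn_spec t 2 (by omega) 3 (by omega)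
  · exact Dn_spec t 3 (by omega) 5 (by omega)
  · exact Dn_spec t 4 (by omega) 7 (by omega)
  · exact Dn_spec t 5 (by omega) 9 (by omega)
  · exact Dn_spec t 6 (by omega) 11 (by omega)
  · exact Dn_spec t 7 (by omega) 13 (by omega)

/-! ### logarithm and exponential -/

noncomputable def Mx (w : ℕ) : Rg := (w : ℚ) • logS Del w

theorem Mx_succ (k : ℕ) : Mx (k + 1) = ((k : ℚ) + 1) • Del (k + 1)
    + (-1 : ℚ) • ∑ i ∈ range (k + 1), Del (i + 1) * Mx (k - i) := by
  have h0 : ((k : ℚ) + 1) ≠ 0 := by positivity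
  unfold Mx
  rw [logS]
  push_cast
  rw [smul_sub, smul_smul, mul_one_div_cancel h0, one_smul, sub_eq_add_neg, neg_one_smul]
  congr 2
  rw [Finset.sum_range (fun i => Del (i + 1) * (((k - i : ℕ) : ℚ) • logS Del (k - i)))]
  refine Fintype.sum_equiv Fin.revPerm _ _ ?_
  intro j
  have hj := j.2
  have e1 : ((Fin.revPerm j : Fin (k + 1)) : ℕ) = k - j := by
    simp [Fin.revPerm_apply, Fin.val_rev]
  have e2 : k - (k - (j : ℕ)) = j := by omega
  have e3 : k - (j : ℕ) + 1 = k + 1 - j := by omega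
  rw [e1, e2, e3, mul_smul_comm, mul_comm]

theorem Mt_spec (t : ℤ) (n : ℕ) (hn : n ≤ 7) : (Mt (Dl t) n).length = n + 1 ∧
    ∀ i < n + 1, R t ((Mt (Dl t) n).getD i (1, [])) (Mx (n - i)) := by
  refine tab_spec t _ _ Mx 7 ?_ ?_ n hn
  · have : Mx 0 = 0 := by simp [Mx]
    rw [this]; exact R_zero t
  intro k hk l hl h
  obtain ⟨hD, hD'⟩ := Dl_spec t
  have h1 := cv_spec t (Dl t) l (fun i => Del (i + 1)) (fun i => Mx (k - i))
    (fun i hi => hD' i (by omega)) (fun i hi => h i (by omega))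
  rw [hD, hl, min_eq_right (by omega)] at h1
  have h2 := R_smS h1 (-1) 1 one_ne_zero
  have h3 := R_smS (hD' k hk) ((k : ℤ) + 1) 1 one_ne_zero
  have h4 := R_add h3 h2
  rw [Mx_succ]
  push_cast at h4
  simpa only [div_one] using h4

noncomputable def Bx (w : ℕ) : Rg := (w : ℚ) • rr w

theorem Bx_eq (i : ℕ) (hi : i ≠ 0) : Bx i = ((i : ℚ) / ((i : ℚ) + 1)) • Mx (i + 1) := by
  have h0 : ((i : ℚ) + 1) ≠ 0 := by positivity
  unfold Bx Mx rr
  rw [if_neg hi, add_zero, smul_smul]
  push_cast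
  rw [div_mul_cancel₀ _ h0]

theorem Bl_spec (t : ℤ) : (Bl t).length = 6 ∧ ∀ i < 6, R t ((Bl t).getD i (1, [])) (Bx (i + 1)) := by
  refine ⟨rfl, ?_⟩
  obtain ⟨h1, h2⟩ := Mt_spec t 7 le_rfl
  intro i hi
  rw [Bx_eq (i + 1) (by omega)]
  interval_cases i
  · have := R_smS (h2 5 (by omega)) 1 2 (by omega)
    norm_num at this ⊢
    exact this
  · have := R_smS (h2 4 (by omega)) 2 3 (by omega)
    norm_num at this ⊢
    exact this
  · have := R_smS (h2 3 (by omega)) 3 4 (by omega)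
    norm_num at this ⊢
    exact this
  · have := R_smS (h2 2 (by omega)) 4 5 (by omega)
    norm_num at this ⊢
    exact this
  · have := R_smS (h2 1 (by omega)) 5 6 (by omega)
    norm_num at this ⊢
    exact this
  · have := R_smS (h2 0 (by omega)) 6 7 (by omega)
    norm_num at this ⊢
    exact this

theorem EE_succ (k : ℕ) : EE (k + 1) = (1 / ((k : ℚ) + 1)) •
    ∑ i ∈ range (k + 1), Bx (i + 1) * EE (k - i) := by
  unfold EE
  rw [expS]
  congr 1
  rw [Finset.sum_range (fun i => Bx (i + 1) * expS rr (k - i))]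
  refine Fintype.sum_equiv Fin.revPerm _ _ ?_
  intro j
  have hj := j.2
  have e1 : ((Fin.revPerm j : Fin (k + 1)) : ℕ) = k - j := by
    simp [Fin.revPerm_apply, Fin.val_rev]
  have e2 : k - (k - (j : ℕ)) = j := by omega
  have e3 : k - (j : ℕ) + 1 = k + 1 - j := by omega
  rw [e1, e2, e3]
  unfold Bx
  rw [smul_mul_assoc]

theorem Et_spec (t : ℤ) (n : ℕ) (hn : n ≤ 6) : (Et t n).length = n + 1 ∧
    ∀ i < n + 1, R t ((Et t n).getD i (1, [])) (EE (n - i)) := by
  refine tab_spec t _ _ EE 6 ?_ ?_ n hn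
  · have : EE 0 = 1 := by unfold EE; rw [expS]
    rw [this]; exact R_one t
  intro k hk l hl h
  obtain ⟨hB, hB'⟩ := Bl_spec t
  have h1 := cv_spec t (Bl t) l (fun i => Bx (i + 1)) (fun i => EE (k - i))
    (fun i hi => hB' i (by omega)) (fun i hi => h i (by omega))
  rw [hB, hl, min_eq_right (by omega)] at h1
  have h2 := R_smS h1 1 (k + 1) (by omega)
  rw [EE_succ]
  push_cast at h2
  exact h2

/-! ### the functional -/

/-- moment of a code -/
def nuR : ℕ → ℕ → ℕ → ℚ
  | 0, _, _ => 1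
  | n + 1, i, c => nu i (c % 32) * nuR n (i + 1) (c / 32)

theorem sdn_ne (i : ℕ) (hi : 1 ≤ i) : sdn i ≠ 0 := by
  unfold sdn
  cases Nat.ble i 1
  · simp; omega
  · simp

theorem sdn_mu (i : ℕ) (hi : 1 ≤ i) : (smu i : ℚ) = sdn i * nmu i := by
  unfold smu sdn nmu
  by_cases h2 : i = 2
  · subst h2; simp [show Nat.ble 2 1 = false from rfl]
  · have : Nat.beq i 2 = false := by
      cases h : Nat.beq i 2 with
      | false => rfl
      | true => exact absurd (Nat.eq_of_beq_eq_true h) h2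
    simp [this, h2]

theorem sdn_va (i : ℕ) (hi : 1 ≤ i) : (sva i : ℚ) = (sdn i : ℚ) ^ 2 * nva i := by
  unfold sva sdn nva
  by_cases h1 : i = 1
  · subst h1; simp [show Nat.ble 1 1 = true from rfl]; norm_num
  · have e1 : Nat.beq i 1 = false := by
      cases h : Nat.beq i 1 with
      | false => rfl
      | true => exact absurd (Nat.eq_of_beq_eq_true h) h1
    have e2 : Nat.ble i 1 = false := by
      cases h : Nat.ble i 1 with
      | false => rfl
      | true => exact absurd (Nat.le_of_ble_eq_true h) (by omega)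
    have hi0 : (i : ℚ) ≠ 0 := by exact_mod_cast (by omega : i ≠ 0)
    rw [if_neg h1, e1, e2]
    simp only [cond_false]
    cases h : Nat.beq (i % 2) 0 with
    | true =>
      have h2 : i % 2 = 0 := Nat.eq_of_beq_eq_true h
      have h3 : Odd (i - 1) := by rw [Nat.odd_iff]; omega
      rw [h3.neg_one_pow]
      simp only [cond_true]
      push_cast
      field_simp
    | false =>
      have h2 : i % 2 ≠ 0 := Nat.ne_of_beq_eq_false h
      have h3 : Even (i - 1) := by rw [Nat.even_iff]; omega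
      rw [h3.neg_one_pow]
      simp only [cond_false]
      push_cast
      field_simp

theorem nuP_spec (i : ℕ) (hi : 1 ≤ i) : ∀ a, ((nuP i a).1 : ℚ) = (sdn i : ℚ) ^ a * nu i a ∧
    ((nuP i a).2 : ℚ) = (sdn i : ℚ) ^ (a + 1) * nu i (a + 1)
  | 0 => by simp [nuP, nu, sdn_mu i hi]
  | a + 1 => by
      obtain ⟨h1, h2⟩ := nuP_spec i hi a
      refine ⟨h2, ?_⟩
      simp only [nuP]
      push_cast
      rw [h1, h2, sdn_mu i hi, sdn_va i hi, nu]
      ring

theorem nuR_zero : ∀ n i : ℕ, nuR n i 0 = 1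
  | 0, _ => rfl
  | n + 1, i => by simp [nuR, nu, nuR_zero n]

theorem mom_spec : ∀ n i c : ℕ, 1 ≤ i → (mom n i c).1 ≠ 0 ∧
    ((mom n i c).1 : ℚ) * nuR n i c = ((mom n i c).2 : ℚ)
  | 0, i, c, _ => by simp [mom, nuR]
  | n + 1, i, 0, _ => by simp [mom, nuR_zero]
  | n + 1, i, c + 1, hi => by
      obtain ⟨h1, h2⟩ := mom_spec n (i + 1) ((c + 1) / 32) (by omega)
      refine ⟨?_, ?_⟩
      · simp only [mom]
        exact Nat.mul_ne_zero (pow_ne_zero _ (sdn_ne i hi)) h1
      · simp only [mom, nuR]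
        push_cast
        rw [← h2, (nuP_spec i hi _).1]
        ring

noncomputable def Lf : Polynomial ℚ →ₗ[ℚ] ℚ :=
  Polynomial.lsum (fun c => (nuR 14 1 c) • LinearMap.id)

theorem Lf_mono (z : ℚ) (c : ℕ) : Lf (Polynomial.C z * Polynomial.X ^ c) = z * nuR 14 1 c := by
  rw [Polynomial.C_mul_X_pow_eq_monomial, Lf, Polynomial.lsum_apply,
    Polynomial.sum_monomial_index _ _ (by simp)]
  simp [mul_comm]

/-- `s` represents the number `q` -/
def RN (s : ℕ × ℤ) (q : ℚ) : Prop := s.1 ≠ 0 ∧ (s.1 : ℚ) * q = (s.2 : ℚ)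

theorem RN_add {s s' : ℕ × ℤ} {P Q : ℚ} (h : RN s P) (h' : RN s' Q) :
    RN (addN s s') (P + Q) := by
  obtain ⟨h1, h2⟩ := h
  obtain ⟨h3, h4⟩ := h'
  have hg : Nat.gcd s.1 s'.1 ≠ 0 := Nat.gcd_ne_zero_left h1
  obtain ⟨a, ha⟩ := Nat.gcd_dvd_left s.1 s'.1
  obtain ⟨b, hb⟩ := Nat.gcd_dvd_right s.1 s'.1
  have ea : s.1 / Nat.gcd s.1 s'.1 = a :=
    Nat.div_eq_of_eq_mul_right (Nat.pos_of_ne_zero hg) ha
  have eb : s'.1 / Nat.gcd s.1 s'.1 = b :=
    Nat.div_eq_of_eq_mul_right (Nat.pos_of_ne_zero hg) hb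
  have hab : s.1 * b = s'.1 * a := by
    have h5 : s.1 * b = (Nat.gcd s.1 s'.1 * a) * b := congrArg (· * b) ha
    have h6 : s'.1 * a = (Nat.gcd s.1 s'.1 * b) * a := congrArg (· * a) hb
    rw [h5, h6]; ring
  have hb0 : b ≠ 0 := by rintro rfl; simp at hb; exact h3 hb
  refine ⟨?_, ?_⟩
  · simp only [addN, eb]; exact Nat.mul_ne_zero h1 hb0
  · simp only [addN, ea, eb]
    have hab' : (s.1 : ℚ) * b = (s'.1 : ℚ) * a := by exact_mod_cast hab
    push_cast
    rw [← h2, ← h4, mul_add, hab']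
    linear_combination P * (-hab')

theorem sumL_spec : ∀ p : CP, RN (sumL p) (Lf (den p))
  | [] => by simp [sumL, den, RN]
  | a :: p => by
      have ih := sumL_spec p
      obtain ⟨h1, h2⟩ := mom_spec 14 1 a.1 le_rfl
      rw [den, map_add, Lf_mono]
      have key : ∀ z : ℤ, (mom 14 1 a.1).2 = z →
          RN ((mom 14 1 a.1).1, a.2 * z) ((a.2 : ℚ) * nuR 14 1 a.1) := by
        intro z hz
        refine ⟨h1, ?_⟩
        rw [hz] at h2
        push_cast
        rw [← h2]; ring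
      rw [sumL]
      rcases hz : (mom 14 1 a.1).2 with (_ | n) | n
      · have h3 : nuR 14 1 a.1 = 0 := by
          rw [hz] at h2
          have : ((mom 14 1 a.1).1 : ℚ) ≠ 0 := by exact_mod_cast h1
          simpa [this] using h2
        simpa [hz, h3] using ih
      · have := RN_add (key _ hz) ih
        simpa [hz] using this
      · have := RN_add (key _ hz) ih
        simpa [hz] using this

theorem LL_spec {t : ℤ} {s : SP} {P : Rg} (h : R t s P) : RN (LL s) (Lf (kap' t P)) := by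
  obtain ⟨h1, h2⟩ := h
  obtain ⟨h3, h4⟩ := sumL_spec s.2
  refine ⟨Nat.mul_ne_zero h1 h3, ?_⟩
  simp only [LL]
  rw [← h4, ← h2, ← Polynomial.smul_eq_C_mul, map_smul, smul_eq_mul]
  push_cast; ring

theorem chk_spec {t : ℤ} {s : SP} {P : Rg} (h : R t s P) (z : ℕ × ℤ) (hz : z.1 ≠ 0)
    (hc : chk s z = true) : Lf (kap' t P) = (z.2 : ℚ) / (z.1 : ℚ) := by
  obtain ⟨h1, h2⟩ := LL_spec h
  have h3 : (z.1 : ℤ) * (LL s).2 = z.2 * ((LL s).1 : ℤ) := by simpa [chk] using hc
  have h4 : (z.1 : ℚ) * ((LL s).2 : ℚ) = (z.2 : ℚ) * ((LL s).1 : ℚ) := by exact_mod_cast h3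
  have h5 : ((LL s).1 : ℚ) ≠ 0 := by exact_mod_cast h1
  have h6 : (z.1 : ℚ) ≠ 0 := by exact_mod_cast hz
  rw [eq_div_iff h6]
  apply mul_left_cancel₀ h5
  rw [← h2] at h4
  linear_combination h4

theorem chkAll_spec (t : ℤ) : ∀ (l : List SP) (m : List (ℕ × ℤ)) (x : ℕ → Rg),
    (∀ i < l.length, R t (l.getD i (1, [])) (x i)) → (∀ z ∈ m, z.1 ≠ 0) → chkAll l m = true →
    ∀ i < m.length, Lf (kap' t (x i)) = ((m.getD i (1, 0)).2 : ℚ) / ((m.getD i (1, 0)).1 : ℚ)
  | [], [], x, _, _, _ => by intro i hi; simp at hi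
  | s :: l, [], x, _, _, h => by simp [chkAll] at h
  | [], z :: m, x, _, _, h => by simp [chkAll] at h
  | s :: l, z :: m, x, hx, hz, h => by
      simp only [chkAll, Bool.and_eq_true] at h
      intro i hi
      rcases i with _ | i
      · simpa using chk_spec (hx 0 (by simp)) z (hz z (by simp)) h.1
      · have := chkAll_spec t l m (fun i => x (i + 1))
          (fun i hi => by simpa using hx (i + 1) (by simpa using hi))
          (fun z' hz' => hz z' (by simp [hz'])) h.2 i (by simpa using hi)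
        simpa using this

/-! ### evaluation of `Ef` -/

def codeR (f : ℕ → ℕ) : ℕ → ℕ → ℕ
  | 0, _ => 0
  | n + 1, i => f i + 32 * codeR f n (i + 1)

theorem codeR_sum (f : ℕ → ℕ) : ∀ n i : ℕ,
    codeR f n i = ∑ j ∈ range n, 32 ^ j * f (i + j)
  | 0, i => by simp [codeR]
  | n + 1, i => by
      rw [codeR, codeR_sum f n (i + 1), Finset.sum_range_succ', Finset.mul_sum]
      rw [pow_zero, one_mul, add_zero, add_comm]
      congr 1
      apply Finset.sum_congr rfl
      intro j _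
      rw [show i + 1 + j = i + (j + 1) by omega, pow_succ]; ring

theorem nuR_code (f : ℕ → ℕ) (hf : ∀ i, 1 ≤ i → f i < 32) : ∀ n i : ℕ, 1 ≤ i →
    nuR n i (codeR f n i) = ∏ j ∈ range n, nu (i + j) (f (i + j))
  | 0, i, _ => by simp [nuR]
  | n + 1, i, hi => by
      have h1 := hf i hi
      have e1 : (f i + 32 * codeR f n (i + 1)) % 32 = f i := by omega
      have e2 : (f i + 32 * codeR f n (i + 1)) / 32 = codeR f n (i + 1) := by omega
      rw [codeR, nuR, e1, e2, nuR_code f hf n (i + 1) (by omega), Finset.prod_range_succ']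
      rw [add_zero, mul_comm]
      congr 1
      apply Finset.prod_congr rfl
      intro j _
      rw [show i + 1 + j = i + (j + 1) by omega]

theorem Lf_monomial (t : ℤ) (m : ℕ →₀ ℕ) (a : ℚ) (h1 : ∀ i, 1 ≤ i → m i < 32)
    (h2 : ∀ i ∈ m.support, i ≤ 14) :
    Lf (kap' t (MvPolynomial.monomial m a))
      = (a * ∏ i ∈ m.support.erase 0, nu i (m i)) * (t : ℚ) ^ m 0 := by
  have e1 : kap' t (MvPolynomial.monomial m a)
      = Polynomial.C (a * (t : ℚ) ^ m 0) * Polynomial.X ^ (codeR m 14 1) := by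
    rw [kap', MvPolynomial.aeval_monomial,
      Finsupp.prod_of_support_subset m (s := range 15) (fun i hi => by
        have := h2 i hi; simp; omega) _ (fun i _ => pow_zero _),
      Finset.prod_range_succ', codeR_sum]
    rw [if_pos rfl, Polynomial.algebraMap_eq, map_mul, map_pow]
    have : ∀ i ∈ range 14, (if i + 1 = 0 then Polynomial.C (t : ℚ)
        else Polynomial.X ^ (32 ^ (i + 1 - 1))) ^ m (i + 1)
        = (Polynomial.X : Polynomial ℚ) ^ (32 ^ i * m (1 + i)) := by
      intro i _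
      rw [if_neg (by omega), ← pow_mul, add_tsub_cancel_right, add_comm 1 i]
    rw [Finset.prod_congr rfl this, Finset.prod_pow_eq_pow_sum]
    ring
  rw [e1, Lf_mono, nuR_code m h1 14 1 le_rfl]
  have e2 : ∏ j ∈ range 14, nu (1 + j) (m (1 + j)) = ∏ i ∈ m.support.erase 0, nu i (m i) := by
    rw [Finset.range_eq_Ico, Finset.prod_Ico_add (fun i => nu i (m i)) 0 14 1]
    symm
    apply Finset.prod_subset
    · intro i hi
      rw [Finset.mem_erase] at hi
      have := h2 i hi.2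
      rw [Finset.mem_Ico]; omega
    · intro i hi hi'
      rw [Finset.mem_Ico] at hi
      have : m i = 0 := by
        by_contra h
        exact hi' (Finset.mem_erase.mpr ⟨by omega, Finsupp.mem_support_iff.mpr h⟩)
      rw [this, nu]
  rw [e2]; ring

theorem Ef_eval (t : ℤ) (P : Rg) (h1 : ∀ m ∈ P.support, ∀ i, 1 ≤ i → m i < 32)
    (h2 : ∀ i ∈ P.vars, i ≤ 14) : (Ef P).eval (t : ℚ) = Lf (kap' t P) := by
  conv_rhs => rw [MvPolynomial.as_sum P]
  rw [map_sum, map_sum, Ef, Polynomial.eval_finsetSum]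
  apply Finset.sum_congr rfl
  intro m hm
  rw [Polynomial.eval_monomial, Lf_monomial t m _ (h1 m hm)]
  intro i hi
  exact h2 i ((MvPolynomial.mem_vars_iff_mem_support i).mpr ⟨m, hm, hi⟩)

theorem Qt_eval (hD : Stmt_Deg) (t : ℤ) (w : ℕ) (hw : w ≤ 6) :
    (Qt w).eval (t : ℚ) = Lf (kap' t (EE w)) := by
  obtain ⟨-, -, -, -, hE, hV, -⟩ := hD
  apply Ef_eval
  · intro m hm i hi
    obtain ⟨-, h2⟩ := hE w m hm
    by_contra hc
    have hi' : i ∈ m.support.erase 0 :=
      Finset.mem_erase.mpr ⟨by omega, Finsupp.mem_support_iff.mpr (by omega)⟩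
    have h3 : m i ≤ gdeg m := Finset.single_le_sum (fun _ _ => Nat.zero_le _) hi'
    omega
  · intro i hi
    have := hV w i hi
    omega

theorem map_logS {R' S : Type} [CommRing R'] [Algebra ℚ R'] [CommRing S] [Algebra ℚ S]
    (φ : R' →ₐ[ℚ] S) (A : ℕ → R') : ∀ w, φ (logS A w) = logS (fun w => φ (A w)) w
  | 0 => by simp [logS]
  | w + 1 => by
      rw [logS, logS, map_sub, map_smul, map_sum]
      congr 2
      apply Finset.sum_congr rfl
      intro j _
      rw [map_smul, map_mul, map_logS φ A j.val]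

theorem QQ_eval (t : ℚ) (w : ℕ) :
    (QQ w).eval t = logS (fun w => (Qt w).eval t) w := by
  have h := map_logS (Polynomial.aeval t : Polynomial ℚ →ₐ[ℚ] ℚ) Qt w
  simpa [QQ, Polynomial.coe_aeval_eq_eval] using h

theorem logS_six (z : ℕ → ℚ) :
    logS z 1 = z 1 ∧
    logS z 2 = z 2 - (1 / 2) * (logS z 1 * z 1) ∧
    logS z 3 = z 3 - (1 / 3) * (logS z 1 * z 2 + 2 * (logS z 2 * z 1)) ∧
    logS z 4 = z 4 - (1 / 4) * (logS z 1 * z 3 + 2 * (logS z 2 * z 2) + 3 * (logS z 3 * z 1)) ∧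
    logS z 5 = z 5 - (1 / 5) * (logS z 1 * z 4 + 2 * (logS z 2 * z 3) + 3 * (logS z 3 * z 2)
      + 4 * (logS z 4 * z 1)) ∧
    logS z 6 = z 6 - (1 / 6) * (logS z 1 * z 5 + 2 * (logS z 2 * z 4) + 3 * (logS z 3 * z 3)
      + 4 * (logS z 4 * z 2) + 5 * (logS z 5 * z 1)) := by
  have h : ∀ w : ℕ, logS z (w + 1) = z (w + 1) - (1 / ((w : ℚ) + 1)) *
      ∑ j ∈ range (w + 1), (j : ℚ) * (logS z j * z (w + 1 - j)) := by
    intro w
    rw [logS, Finset.sum_range (fun j => (j : ℚ) * (logS z j * z (w + 1 - j)))]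
    simp only [smul_eq_mul]
  refine ⟨?_, ?_, ?_, ?_, ?_, ?_⟩
  · have := h 0
    simpa using this
  · have := h 1
    norm_num [Finset.sum_range_succ] at this ⊢
    linarith
  · have := h 2
    norm_num [Finset.sum_range_succ] at this ⊢
    linarith
  · have := h 3
    norm_num [Finset.sum_range_succ] at this ⊢
    linarith
  · have := h 4
    norm_num [Finset.sum_range_succ] at this ⊢
    linarith
  · have := h 5
    norm_num [Finset.sum_range_succ] at this ⊢
    linarith

/-! ### the kernel computations -/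

def cert0 : List (ℕ × ℤ) :=
  [(983040, -139001801), (122880, -3051977), (6144, -32647), (128, -199), (32, -19), (4, -1),
    (1, 1)]

def cert1 : List (ℕ × ℤ) :=
  [(26542080, 6103331509), (122880, 3284743), (18432, 32155), (384, -253), (96, -49), (4, -1),
    (1, 1)]

end Pool.Agent.RGD.Comp
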