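import Pool.Agent.RGD.Stmts

/-!
# CR: pair inequalities
-/

set_option autoImplicit false

namespace Pool.Agent.RGD

open Finset Pool.Agent.RGA

namespace CrX

theorem sum_prs {ι : Type} [Fintype ι] [LinearOrder ι] (g : ι → ι → ℝ)
    (hg : ∀ i j, g i j = g j i) :
    ∑ i, ∑ j, g i j = 2 * ∑ p ∈ prs ι, g p.1 p.2 + ∑ i, g i i := by
  have h1 : ∑ p ∈ prs ι, g p.1 p.2 = ∑ i, ∑ j, if i < j then g i j else 0 := by
    unfold prs
    rw [Finset.sum_filter, Fintype.sum_prod_type]
  have h2 : ∑ i, ∑ j, (if j < i then g i j else 0) = ∑ i, ∑ j, if i < j then g i j else 0 := by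
    rw [Finset.sum_comm]
    apply Finset.sum_congr rfl
    intro i _
    apply Finset.sum_congr rfl
    intro j _
    rw [hg j i]
  have h3 : ∑ i, ∑ j, (if i = j then g i j else 0) = ∑ i, g i i := by
    apply Finset.sum_congr rfl
    intro i _
    rw [Finset.sum_ite_eq Finset.univ i (fun j => g i j)]
    simp
  have h4 : ∀ i j, g i j = (if i < j then g i j else 0) + (if j < i then g i j else 0)
      + (if i = j then g i j else 0) := by
    intro i j
    rcases lt_trichotomy i j with h | h | h
    · simp [h, h.not_gt, h.ne]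
    · simp [h]
    · simp [h, h.not_gt, h.ne']
  calc ∑ i, ∑ j, g i j = ∑ i, ∑ j, ((if i < j then g i j else 0) + (if j < i then g i j else 0)
      + (if i = j then g i j else 0)) :=
        Finset.sum_congr rfl fun i _ => Finset.sum_congr rfl fun j _ => h4 i j
    _ = 2 * ∑ p ∈ prs ι, g p.1 p.2 + ∑ i, g i i := by
        simp only [Finset.sum_add_distrib]
        rw [h2, h3, h1]
        ring

/-- the main identity, doubled -/
theorem key {ι : Type} [Fintype ι] [LinearOrder ι] (x : ι → ℂ) (hx : ∀ j, ‖x j‖ = 1) :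
    2 * ∑ p ∈ prs ι, (1 - (x p.1 * x p.2).re) =
      (Fintype.card ι : ℝ) ^ 2 - (∑ j, (x j).re) ^ 2 + (∑ j, (x j).im) ^ 2
        - 2 * ∑ j, (1 - (x j).re ^ 2) := by
  have h1 := sum_prs (fun i j => 1 - (x i * x j).re) (by intro i j; rw [mul_comm])
  have h2 : ∑ i, ∑ j, (1 - (x i * x j).re) =
      (Fintype.card ι : ℝ) ^ 2 - (∑ j, (x j).re) ^ 2 + (∑ j, (x j).im) ^ 2 := by
    simp only [Complex.mul_re, Finset.sum_sub_distrib]
    rw [pow_two (∑ j, (x j).re), pow_two (∑ j, (x j).im), Finset.sum_mul_sum, Finset.sum_mul_sum]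
    simp only [Finset.sum_const, Finset.card_univ, nsmul_eq_mul, mul_one]
    ring
  have h3 : ∀ i, 1 - (x i * x i).re = 2 * (1 - (x i).re ^ 2) := by
    intro i
    have h := hx i
    have h4 : (x i).re ^ 2 + (x i).im ^ 2 = 1 := by
      have := Complex.sq_norm (x i)
      rw [h, Complex.normSq_apply] at this
      nlinarith
    rw [Complex.mul_re]
    nlinarith
  have h4 : ∑ i, (1 - (x i * x i).re) = 2 * ∑ j, (1 - (x j).re ^ 2) := by
    rw [Finset.mul_sum]
    exact Finset.sum_congr rfl fun i _ => h3 i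
  rw [h2, h4] at h1
  linarith

end CrX

open CrX in
theorem cr_proof : Stmt_Cr := by
  refine ⟨?_, ?_⟩
  · intro ι _ _ x hx
    have hk := key x hx
    have hre : ∀ j, -1 ≤ (x j).re ∧ (x j).re ≤ 1 := by
      intro j
      have h := Complex.abs_re_le_norm (x j)
      rw [hx j] at h
      exact abs_le.mp h
    have hm : (0 : ℝ) ≤ Fintype.card ι := Nat.cast_nonneg _
    set m : ℝ := (Fintype.card ι : ℝ) with hmdef
    set X : ℝ := ∑ j, (x j).re with hX
    have e1 : ∑ j, (1 - (x j).re) = m - X := by
      rw [Finset.sum_sub_distrib, Finset.sum_const, Finset.card_univ, nsmul_eq_mul, mul_one]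
    have e2 : ∑ j, (1 + (x j).re) = m + X := by
      rw [Finset.sum_add_distrib, Finset.sum_const, Finset.card_univ, nsmul_eq_mul, mul_one]
    have b1 : ∑ j, (1 - (x j).re ^ 2) ≤ 2 * (m - X) := by
      rw [← e1, Finset.mul_sum]
      apply Finset.sum_le_sum
      intro j _
      nlinarith [(hre j).1, (hre j).2]
    have b2 : ∑ j, (1 - (x j).re ^ 2) ≤ 2 * (m + X) := by
      rw [← e2, Finset.mul_sum]
      apply Finset.sum_le_sum
      intro j _
      nlinarith [(hre j).1, (hre j).2]
    have p1 : 0 ≤ m - X := by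
      rw [← e1]
      exact Finset.sum_nonneg fun j _ => by linarith [(hre j).2]
    have p2 : 0 ≤ m + X := by
      rw [← e2]
      exact Finset.sum_nonneg fun j _ => by linarith [(hre j).1]
    have hY : 0 ≤ (∑ j, (x j).im) ^ 2 := sq_nonneg _
    rw [e1, e2]
    refine ⟨?_, ?_⟩
    · intro h4
      rcases le_total 0 X with h | h
      · have : min (m - X) (m + X) ≤ m - X := min_le_left _ _
        have h5 : (4 : ℝ) ≤ m := by
          rw [hmdef]
          exact_mod_cast h4
        have h6 : (m - 4) / 2 * min (m - X) (m + X) ≤ (m - 4) / 2 * (m - X) :=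
          mul_le_mul_of_nonneg_left this (by linarith)
        nlinarith
      · have : min (m - X) (m + X) ≤ m + X := min_le_right _ _
        have h5 : (4 : ℝ) ≤ m := by
          rw [hmdef]
          exact_mod_cast h4
        have h6 : (m - 4) / 2 * min (m - X) (m + X) ≤ (m - 4) / 2 * (m + X) :=
          mul_le_mul_of_nonneg_left this (by linarith)
        nlinarith
    · intro c hc
      nlinarith
  · intro l z hl0 hl1 hz
    have h4 : z.re ^ 2 + z.im ^ 2 = 1 := by
      have := Complex.sq_norm z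
      rw [hz, Complex.normSq_apply] at this
      nlinarith
    have h5 : ‖1 + (l : ℂ) * (z - 1)‖ ^ 2 = 1 - 2 * (l * (1 - l) * (1 - z.re)) := by
      rw [Complex.sq_norm, Complex.normSq_apply]
      simp only [Complex.add_re, Complex.one_re, Complex.mul_re, Complex.ofReal_re,
        Complex.sub_re, Complex.ofReal_im, Complex.sub_im, Complex.one_im, Complex.add_im,
        Complex.mul_im]
      linear_combination l ^ 2 * h4
    have h6 : ‖1 + (l : ℂ) * (z - 1)‖ ^ 2 ≤ Real.exp (-(l * (1 - l) * (1 - z.re))) ^ 2 := by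
      rw [h5, ← Real.exp_nat_mul]
      have := Real.add_one_le_exp (((2 : ℕ) : ℝ) * -(l * (1 - l) * (1 - z.re)))
      push_cast at this ⊢
      linarith
    exact (pow_le_pow_iff_left₀ (norm_nonneg _) (Real.exp_pos _).le two_ne_zero).mp h6

end Pool.Agent.RGD
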