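import Mathlib
import Pool.Agent.RGA.Defs

/-!
Regular graphs, high precision asymptotics: the dense range `Λ n ≥ n^σ` (MP_3a123b_co).
Definitions.  See /team-store/MP_3a123b_DENSE.md for the proof.

Everything is a finite sum over the grid `exp (π i k / n)`, `k < 2 n` (one grid point for every
vertex), and a Gaussian integral over `K` real fields.
-/

set_option autoImplicit false

namespace Pool.Agent.RGD

open Finset Pool.Agent.RGA

/-! ### one site -/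

/-- grid points: the `2 n`-th roots of unity -/
noncomputable def ee (n : ℕ) (k : Fin (2 * n)) : ℂ :=
  Complex.exp (((Real.pi * (k : ℕ) / n : ℝ) : ℂ) * Complex.I)

/-- `1 - cos` at the grid point -/
noncomputable def ss (n : ℕ) (k : Fin (2 * n)) : ℝ := 1 - (ee n k).re

/-- `y = Λ n` -/
noncomputable def yy (n d : ℕ) : ℝ := Lam n d * n

/-- `t = (1 - 2 λ) / √Λ` -/
noncomputable def tt (n d : ℕ) : ℝ := (1 - 2 * lam n d) / Real.sqrt (Lam n d)

/-- the binomial probability of `d` -/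
noncomputable def bb (n d : ℕ) : ℝ :=
  ((n - 1).choose d : ℝ) * lam n d ^ d * (1 - lam n d) ^ (n - 1 - d)

/-- `q = 1 + λ (e - 1)` -/
noncomputable def qq (n d : ℕ) (k : Fin (2 * n)) : ℂ := 1 + (lam n d : ℂ) * (ee n k - 1)

/-- `v = √Λ (e - 1)` -/
noncomputable def vv (n d : ℕ) (k : Fin (2 * n)) : ℂ :=
  (Real.sqrt (Lam n d) : ℂ) * (ee n k - 1)

/-- `u = v / q` -/
noncomputable def uu (n d : ℕ) (k : Fin (2 * n)) : ℂ := vv n d k / qq n d k

/-- `q^(n-1-j) v^j / (e^d 2 n b)` -/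
noncomputable def kpj (n d j : ℕ) (k : Fin (2 * n)) : ℂ :=
  qq n d k ^ (n - 1 - j) * vv n d k ^ j / (ee n k ^ d * ((2 * n * bb n d : ℝ) : ℂ))

/-- complex weight of one site, total mass `1` -/
noncomputable def kap (n d : ℕ) (k : Fin (2 * n)) : ℂ := kpj n d 0 k

/-- real reference weight `exp (- a y s) / (2 n b)` -/
noncomputable def wt (n d : ℕ) (a : ℝ) (k : Fin (2 * n)) : ℝ :=
  Real.exp (-(a * yy n d * ss n k)) / (2 * n * bb n d)

/-- inner grid points: `|v|² = 2 Λ s ≤ n^(-1+2ε)` -/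
noncomputable def inn (n d : ℕ) (ε : ℝ) : Finset (Fin (2 * n)) :=
  univ.filter (fun k => 2 * Lam n d * ss n k ≤ (n : ℝ) ^ (-1 + 2 * ε))

/-- outer grid points -/
noncomputable def outt (n d : ℕ) (ε : ℝ) : Finset (Fin (2 * n)) :=
  univ.filter (fun k => (n : ℝ) ^ (-1 + 2 * ε) < 2 * Lam n d * ss n k)

/-- moments of `u`: `(n-1-k) m_(k+1) = - k (m_(k-1) + t m_k)` -/
noncomputable def mm (n : ℕ) (t : ℝ) : ℕ → ℝ
  | 0 => 1
  | 1 => 0
  | (k + 2) => -((k : ℝ) + 1) * (mm n t k + t * mm n t (k + 1)) / ((n : ℝ) - 1 - (k + 1))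

/-- unordered pairs of sites -/
def prs (ι : Type) [Fintype ι] [LinearOrder ι] : Finset (ι × ι) :=
  univ.filter (fun p => p.1 < p.2)

/-! ### the sum over all sites -/

/-- summand for the configuration `k` -/
noncomputable def FF (n d : ℕ) {ι : Type} [Fintype ι] [LinearOrder ι] (k : ι → Fin (2 * n)) : ℂ :=
  (∏ p ∈ prs ι, (1 + (lam n d : ℂ) * (ee n (k p.1) * ee n (k p.2) - 1)))
    * ∏ j, (1 / (ee n (k j) ^ d * ((2 * n * bb n d : ℝ) : ℂ)))

/-- the normalised number of regular graphs -/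
noncomputable def ZZ (n d : ℕ) : ℂ := ∑ k : Fin n → Fin (2 * n), FF n d k

/-- the part where all sites are inner -/
noncomputable def Zb (n d : ℕ) (ε : ℝ) : ℂ :=
  ∑ k ∈ Fintype.piFinset (fun _ : Fin n => inn n d ε), FF n d k

/-- shift of a grid point by `π` -/
def shf (n : ℕ) (k : Fin (2 * n)) : Fin (2 * n) :=
  ⟨(k.val + n) % (2 * n), Nat.mod_lt _ (lt_of_le_of_lt (Nat.zero_le _) k.isLt)⟩

/-- outer sites of a configuration -/
noncomputable def Sout (n d : ℕ) (ε : ℝ) (k : Fin n → Fin (2 * n)) : Finset (Fin n) :=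
  univ.filter (fun j => k j ∈ outt n d ε)

/-- the factor of the sources `z` -/
noncomputable def sf {τ : Type} [Fintype τ] (z : τ → ℂ) (u : ℂ) : ℂ := ∏ j, (1 + z j * u)

/-- `∑_b ∏ κ ∏ (1 + z u) ∏ (1 + u u')` over inner sites -/
noncomputable def JJ (n d : ℕ) (ε : ℝ) (ι : Type) [Fintype ι] [LinearOrder ι] {τ : Type}
    [Fintype τ] (z : τ → ℂ) : ℂ :=
  ∑ b ∈ Fintype.piFinset (fun _ : ι => inn n d ε),
    (∏ l, kap n d (b l) * sf z (uu n d (b l)))
      * ∏ p ∈ prs ι, (1 + uu n d (b p.1) * uu n d (b p.2))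

/-! ### Gaussian fields -/

/-- `α_i² = (-1)^(i-1) / i` -/
noncomputable def al (i : ℕ) : ℂ :=
  if Even i then Complex.I * ((1 / Real.sqrt i : ℝ) : ℂ) else ((1 / Real.sqrt i : ℝ) : ℂ)

/-- the fields `G_i = α_i g_(i-1)`, `1 ≤ i ≤ K` -/
noncomputable def Gt (K : ℕ) (g : Fin K → ℝ) (i : ℕ) : ℂ :=
  if h : 1 ≤ i ∧ i ≤ K then al i * (g ⟨i - 1, by omega⟩ : ℂ) else 0

/-- `∑_{i ≤ K} (-1)^(i-1) x^i / i`, the truncated logarithm of `1 + x` -/
noncomputable def lgt (K : ℕ) (x : ℂ) : ℂ := ∑ i ∈ Icc 1 K, (-1) ^ (i - 1) * x ^ i / i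

/-- `exp (∑_{i ≤ K} G_i u^i - lgt (u²) / 2)` -/
noncomputable def fgG (K : ℕ) (G : ℕ → ℂ) (u : ℂ) : ℂ :=
  Complex.exp ((∑ i ∈ Icc 1 K, G i * u ^ i) - lgt K (u ^ 2) / 2)

/-- the same for `G = Gt K g` -/
noncomputable def fg (K : ℕ) (g : Fin K → ℝ) (u : ℂ) : ℂ := fgG K (Gt K g) u

/-- remainder of the pair factor -/
noncomputable def chi (K : ℕ) (x : ℂ) : ℂ := (1 + x) * Complex.exp (-lgt K x) - 1

/-- standard Gaussian measure on `ℝ^K` -/
noncomputable def gam (K : ℕ) : MeasureTheory.Measure (Fin K → ℝ) :=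
  MeasureTheory.Measure.pi (fun _ => ProbabilityTheory.gaussianReal 0 1)

/-- one site integral with fields and sources -/
noncomputable def Phis (n d : ℕ) (ε : ℝ) (K : ℕ) (g : Fin K → ℝ) {τ : Type} [Fintype τ]
    (z : τ → ℂ) : ℂ :=
  ∑ k ∈ inn n d ε, kap n d k * fg K g (uu n d k) * sf z (uu n d k)

/-- one site integral with fields -/
noncomputable def Phi (n d : ℕ) (ε : ℝ) (K : ℕ) (g : Fin K → ℝ) : ℂ :=
  ∑ k ∈ inn n d ε, kap n d k * fg K g (uu n d k)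

/-- the sum over inner sites for given fields -/
noncomputable def Inn (n d : ℕ) (ε : ℝ) (K : ℕ) (g : Fin K → ℝ) (ι : Type) [Fintype ι]
    [LinearOrder ι] {τ : Type} [Fintype τ] (z : τ → ℂ) : ℂ :=
  ∑ b ∈ Fintype.piFinset (fun _ : ι => inn n d ε),
    (∏ l, kap n d (b l) * fg K g (uu n d (b l)) * sf z (uu n d (b l)))
      * ∏ p ∈ prs ι, (1 + chi K (uu n d (b p.1) * uu n d (b p.2)))

/-- `|g|²` -/
def sqn {K : ℕ} (g : Fin K → ℝ) : ℝ := ∑ i, g i ^ 2

/-! ### the domain and the parameters -/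

/-- admissible pairs with `Λ n ≥ n^σ` and `λ ≤ 1/2` -/
def Dom (σ : ℝ) (n d : ℕ) : Prop :=
  1 ≤ d ∧ 2 * d ≤ n - 1 ∧ Even (n * d) ∧ (n : ℝ) ^ σ ≤ yy n d

/-- parameters: target error `n^(-M)`, order `W` of the expansion, number `K` of fields,
`ε`: size of the inner set, `ε2`: cut-off `n^ε2` of the fields -/
structure Par (σ : ℝ) (M W K : ℕ) (ε ε2 : ℝ) : Prop where
  s0 : 0 < σ
  s1 : σ ≤ 1
  hW : 2 * ((M : ℝ) + 6) ≤ σ * W
  hK : K = 2 * W + 2
  e0 : 0 < ε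
  e1 : 8 * ε ≤ σ
  e2 : 16 * ((K : ℝ) + 1) * ε ≤ 1
  f0 : 0 < ε2
  f1 : 64 * ((K : ℝ) + 2) * ε2 ≤ σ

/-! ### formal series

`Rg`: variable `0` is `t`, variable `i ≥ 1` is the field `G_i`; the power series variable is
`1 / n`. -/

/-- coefficient ring -/
abbrev Rg : Type := MvPolynomial ℕ ℚ

/-- `ι_i`: coefficients of `- u² / (1 + u²)` -/
def iot (i : ℕ) : ℚ := if Even i then (-1) ^ (i / 2) else 0

/-- coefficients of `(1 + u²)^(-1/2) exp (∑ G_i u^i)` -/
noncomputable def bet : ℕ → Rg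
  | 0 => 1
  | (k + 1) => MvPolynomial.C (1 / ((k : ℚ) + 1)) *
      ∑ j : Fin (k + 1), ((((k + 1 - j.val : ℕ) : ℚ)) • MvPolynomial.X (k + 1 - j.val)
        + MvPolynomial.C (iot (k + 1 - j.val))) * bet j.val

/-- `ε / (1 - c ε)` as a power series -/
noncomputable def geo (c : ℚ) : PowerSeries Rg :=
  PowerSeries.mk (fun j => if j = 0 then 0 else MvPolynomial.C (c ^ (j - 1)))

/-- the moments as power series in `1 / n` -/
noncomputable def mfm : ℕ → PowerSeries Rg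
  | 0 => 1
  | 1 => 0
  | (k + 2) => -((k : PowerSeries Rg) + 1) * geo (k + 2)
      * (mfm k + PowerSeries.C (MvPolynomial.X 0) * mfm (k + 1))

/-- `∑_{k ≥ 2} β_k m_k` -/
noncomputable def Del (w : ℕ) : Rg := ∑ k ∈ Icc 2 (2 * w), bet k * PowerSeries.coeff w (mfm k)

/-- coefficients of the logarithm of `1 + ∑_{w ≥ 1} A_w x^w` -/
noncomputable def logS {R : Type} [CommRing R] [Algebra ℚ R] (A : ℕ → R) : ℕ → R
  | 0 => 0
  | (w + 1) => A (w + 1) - (1 / ((w : ℚ) + 1)) •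
      ∑ j : Fin (w + 1), ((j.val : ℕ) : ℚ) • (logS A j.val * A (w + 1 - j.val))

/-- coefficients of the exponential of `∑_{w ≥ 1} A_w x^w` -/
noncomputable def expS {R : Type} [CommRing R] [Algebra ℚ R] (A : ℕ → R) : ℕ → R
  | 0 => 1
  | (w + 1) => (1 / ((w : ℚ) + 1)) •
      ∑ j : Fin (w + 1), (((w + 1 - j.val : ℕ)) : ℚ) • (A (w + 1 - j.val) * expS A j.val)

/-- `n log Φ + β_2` -/
noncomputable def rr (w : ℕ) : Rg := logS Del (w + 1) + if w = 0 then bet 2 else 0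

/-- `exp (n log Φ + β_2)` -/
noncomputable def EE : ℕ → Rg := expS rr

/-- mean of the field `G_i` in the tilted Gaussian law -/
def nmu (i : ℕ) : ℚ := if i = 2 then 1 / 2 else 0

/-- variance of the field `G_i` in the tilted Gaussian law -/
def nva (i : ℕ) : ℚ := if i = 1 then 1 / 2 else (-1) ^ (i - 1) / i

/-- moments of the field `G_i` in the tilted Gaussian law -/
def nu (i : ℕ) : ℕ → ℚ
  | 0 => 1
  | 1 => nmu i
  | (a + 2) => nmu i * nu i (a + 1) + ((a : ℚ) + 1) * nva i * nu i a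

/-- tilted Gaussian expectation -/
noncomputable def Ef (P : Rg) : Polynomial ℚ :=
  ∑ m ∈ P.support,
    Polynomial.monomial (m 0) (MvPolynomial.coeff m P * ∏ i ∈ m.support.erase 0, nu i (m i))

/-- coefficients of `Z / (√2 e^(1/4))` -/
noncomputable def Qt (w : ℕ) : Polynomial ℚ := Ef (EE w)

/-- coefficients of `log (Z / (√2 e^(1/4)))` -/
noncomputable def QQ : ℕ → Polynomial ℚ := logS Qt

/-- values of the variables -/
noncomputable def vals (t : ℝ) (G : ℕ → ℂ) (i : ℕ) : ℂ := if i = 0 then (t : ℂ) else G i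

/-- evaluation of the sequence `A` up to order `W` at `x = 1 / n` -/
noncomputable def ev (A : ℕ → Rg) (W n : ℕ) (t : ℝ) (G : ℕ → ℂ) : ℂ :=
  ∑ w ∈ range (W + 1), MvPolynomial.aeval (vals t G) (A w) / (n : ℂ) ^ w

/-- degree in the fields -/
def gdeg (m : ℕ →₀ ℕ) : ℕ := ∑ i ∈ m.support.erase 0, m i

/-- `A_w` has degree `≤ 2 w` in `t` and `≤ 4 w` in the fields -/
def DegOK (A : ℕ → Rg) : Prop := ∀ w, ∀ m ∈ (A w).support, m 0 ≤ 2 * w ∧ gdeg m ≤ 4 * w

/-- `A_w` involves only fields `G_i` with `i ≤ 2 w + 2` -/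
def VarOK (A : ℕ → Rg) : Prop := ∀ w, ∀ i ∈ (A w).vars, i ≤ 2 * w + 2

end Pool.Agent.RGD
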