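import Pool.Agent.RGD.Stmts

/-!
Module Deg (MP_3a123b_co, dense range): degrees and variables of the formal series.
-/

set_option autoImplicit false

namespace Pool.Agent.RGD

open Finset Pool.Agent.RGA MvPolynomial

namespace DegAux

/-- degree `≤ a` in `t`, degree `≤ b` in the fields, variables `≤ c` -/
def Bd (a b c : ℕ) (P : Rg) : Prop :=
  ∀ m ∈ P.support, m 0 ≤ a ∧ gdeg m ≤ b ∧ ∀ i ∈ m.support, i ≤ c

lemma gdeg_add_zero (m : ℕ →₀ ℕ) : gdeg m + m 0 = ∑ i ∈ m.support, m i := by
  unfold gdeg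
  by_cases h : (0 : ℕ) ∈ m.support
  · rw [Finset.sum_erase_add _ _ h]
  · rw [Finset.erase_eq_of_notMem h, Finsupp.notMem_support_iff.mp h, add_zero]

lemma gdeg_add (m m' : ℕ →₀ ℕ) : gdeg (m + m') = gdeg m + gdeg m' := by
  have h1 := gdeg_add_zero m
  have h2 := gdeg_add_zero m'
  have h3 := gdeg_add_zero (m + m')
  have h4 : ∑ i ∈ (m + m').support, (m + m') i
      = ∑ i ∈ m.support, m i + ∑ i ∈ m'.support, m' i := by
    have := Finsupp.sum_add_index' (f := m) (g := m') (h := fun _ (x : ℕ) => x)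
      (fun _ => rfl) (fun _ _ _ => rfl)
    simpa [Finsupp.sum] using this
  have h5 : (m + m') 0 = m 0 + m' 0 := rfl
  omega

lemma Bd.mono {a b c a' b' c' : ℕ} {P : Rg} (h : Bd a b c P) (ha : a ≤ a') (hb : b ≤ b')
    (hc : c ≤ c') : Bd a' b' c' P := fun m hm =>
  ⟨(h m hm).1.trans ha, (h m hm).2.1.trans hb, fun i hi => ((h m hm).2.2 i hi).trans hc⟩

lemma Bd.zero (a b c : ℕ) : Bd a b c 0 := fun m hm => by simp at hm

lemma Bd.add {a b c : ℕ} {P Q : Rg} (h : Bd a b c P) (h' : Bd a b c Q) : Bd a b c (P + Q) := by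
  intro m hm
  rcases Finset.mem_union.mp (MvPolynomial.support_add hm) with h1 | h1
  · exact h m h1
  · exact h' m h1

lemma Bd.neg {a b c : ℕ} {P : Rg} (h : Bd a b c P) : Bd a b c (-P) := by
  intro m hm
  rw [MvPolynomial.support_neg] at hm
  exact h m hm

lemma Bd.sub {a b c : ℕ} {P Q : Rg} (h : Bd a b c P) (h' : Bd a b c Q) : Bd a b c (P - Q) := by
  rw [sub_eq_add_neg]; exact h.add h'.neg

lemma Bd.sum {a b c : ℕ} {β : Type} (s : Finset β) (f : β → Rg) (h : ∀ x ∈ s, Bd a b c (f x)) :
    Bd a b c (∑ x ∈ s, f x) := by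
  classical
  induction s using Finset.induction_on with
  | empty => simpa using Bd.zero a b c
  | insert x s hx ih =>
    rw [Finset.sum_insert hx]
    exact (h x (Finset.mem_insert_self _ _)).add
      (ih (fun y hy => h y (Finset.mem_insert_of_mem hy)))

lemma Bd.mul {a b c a' b' c' : ℕ} {P Q : Rg} (h : Bd a b c P) (h' : Bd a' b' c' Q) :
    Bd (a + a') (b + b') (max c c') (P * Q) := by
  classical
  intro m hm
  obtain ⟨m1, h1, m2, h2, rfl⟩ := Finset.mem_add.mp (MvPolynomial.support_mul _ _ hm)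
  obtain ⟨p1, p2, p3⟩ := h m1 h1
  obtain ⟨q1, q2, q3⟩ := h' m2 h2
  refine ⟨?_, ?_, ?_⟩
  · have : (m1 + m2) 0 = m1 0 + m2 0 := rfl
    omega
  · rw [gdeg_add]; omega
  · intro i hi
    rcases Finset.mem_union.mp (Finsupp.support_add hi) with h3 | h3
    · exact (p3 i h3).trans (le_max_left _ _)
    · exact (q3 i h3).trans (le_max_right _ _)

lemma Bd.C (q : ℚ) : Bd 0 0 0 (MvPolynomial.C q : Rg) := by
  intro m hm
  have h0 : m = 0 := by
    by_contra hne
    rw [MvPolynomial.mem_support_iff, MvPolynomial.coeff_C] at hm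
    rw [if_neg (fun h => hne h.symm)] at hm
    exact hm rfl
  subst h0
  simp [gdeg]

lemma Bd.smul {a b c : ℕ} {P : Rg} (q : ℚ) (h : Bd a b c P) : Bd a b c (q • P) := by
  rw [MvPolynomial.smul_eq_C_mul]
  have := (Bd.C q).mul h
  simpa using this

lemma Bd.one : Bd 0 0 0 (1 : Rg) := by
  have := Bd.C 1
  simpa using this

lemma Bd.X0 : Bd 1 0 0 (MvPolynomial.X 0 : Rg) := by
  intro m hm
  rw [MvPolynomial.support_X, Finset.mem_singleton] at hm
  subst hm
  refine ⟨by simp, ?_, ?_⟩
  · have := gdeg_add_zero (Finsupp.single 0 1)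
    rw [Finsupp.support_single_ne_zero _ one_ne_zero] at this
    simp at this
    omega
  · intro i hi
    rw [Finsupp.support_single_ne_zero _ one_ne_zero, Finset.mem_singleton] at hi
    omega

lemma Bd.X (i : ℕ) (hi : 1 ≤ i) : Bd 0 1 i (MvPolynomial.X i : Rg) := by
  intro m hm
  rw [MvPolynomial.support_X, Finset.mem_singleton] at hm
  subst hm
  have h0 : (Finsupp.single i 1 : ℕ →₀ ℕ) 0 = 0 := by
    rw [Finsupp.single_apply, if_neg (by omega)]
  refine ⟨by omega, ?_, ?_⟩
  · have := gdeg_add_zero (Finsupp.single i 1)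
    rw [Finsupp.support_single_ne_zero _ one_ne_zero] at this
    simp at this
    omega
  · intro j hj
    rw [Finsupp.support_single_ne_zero _ one_ne_zero, Finset.mem_singleton] at hj
    omega

/-! ### the coefficients `bet` -/

lemma bd_bet (k : ℕ) : Bd 0 k k (bet k) := by
  induction k using Nat.strong_induction_on with
  | _ k ih =>
    rcases k with _ | k
    · rw [bet]; exact Bd.one
    · rw [bet]
      have hs : Bd 0 (k + 1) (k + 1) (∑ j : Fin (k + 1),
          ((((k + 1 - j.val : ℕ) : ℚ)) • MvPolynomial.X (k + 1 - j.val)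
            + MvPolynomial.C (iot (k + 1 - j.val))) * bet j.val) := by
        refine Bd.sum _ _ fun j _ => ?_
        have hj := j.isLt
        have h1 : Bd 0 1 (k + 1 - j.val) ((((k + 1 - j.val : ℕ) : ℚ)) •
            (MvPolynomial.X (k + 1 - j.val) : Rg) + MvPolynomial.C (iot (k + 1 - j.val))) :=
          ((Bd.X _ (by omega)).smul _).add
            ((Bd.C _).mono (le_refl _) (Nat.zero_le _) (Nat.zero_le _))
        exact (h1.mul (ih j.val hj)).mono (by omega) (by omega) (by omega)
      exact ((Bd.C _).mul hs).mono (by omega) (by omega) (by omega)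

/-! ### the moments -/

lemma coeff_mfm (k w : ℕ) : PowerSeries.coeff w (mfm (k + 2))
    = MvPolynomial.C (-((k : ℚ) + 1)) * ∑ p ∈ antidiagonal w,
        PowerSeries.coeff p.1 (geo (k + 2)) *
          (PowerSeries.coeff p.2 (mfm k) + MvPolynomial.X 0 * PowerSeries.coeff p.2 (mfm (k + 1))) := by
  have h : mfm (k + 2) = PowerSeries.C (MvPolynomial.C (-((k : ℚ) + 1)) : Rg) *
      (geo (k + 2) * (mfm k + PowerSeries.C (MvPolynomial.X 0) * mfm (k + 1))) := by
    rw [mfm]
    simp only [map_neg, map_add, map_natCast, map_one]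
    ring
  rw [h, PowerSeries.coeff_C_mul, PowerSeries.coeff_mul]
  simp only [map_add, PowerSeries.coeff_C_mul]

lemma coeff_geo_zero (c : ℚ) : PowerSeries.coeff 0 (geo c) = 0 := by
  simp [geo]

lemma mfm_low (k : ℕ) : ∀ w, 2 * w < k → PowerSeries.coeff w (mfm k) = 0 := by
  induction k using Nat.strong_induction_on with
  | _ k ih =>
    intro w hw
    rcases k with _ | _ | k
    · omega
    · rw [mfm]; simp
    · rw [coeff_mfm]
      rw [Finset.sum_eq_zero, mul_zero]
      intro p hp
      rw [HasAntidiagonal.mem_antidiagonal] at hp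
      rcases Nat.eq_zero_or_pos p.1 with h0 | h0
      · rw [h0, coeff_geo_zero, zero_mul]
      · rw [ih k (by omega) p.2 (by omega), ih (k + 1) (by omega) p.2 (by omega)]
        simp

lemma bd_mfm (k : ℕ) : ∀ w, Bd (w - 1) 0 0 (PowerSeries.coeff w (mfm k)) := by
  induction k using Nat.strong_induction_on with
  | _ k ih =>
    intro w
    rcases k with _ | _ | k
    · rw [mfm, PowerSeries.coeff_one]
      split_ifs with h
      · exact Bd.one.mono (Nat.zero_le _) (le_refl _) (le_refl _)
      · exact Bd.zero _ _ _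
    · rw [mfm]; simpa using Bd.zero _ _ _
    · rw [coeff_mfm]
      have hs : Bd (w - 1) 0 0 (∑ p ∈ antidiagonal w,
        PowerSeries.coeff p.1 (geo (k + 2)) *
          (PowerSeries.coeff p.2 (mfm k) + MvPolynomial.X 0 *
            PowerSeries.coeff p.2 (mfm (k + 1)))) := by
        refine Bd.sum _ _ fun p hp => ?_
        rw [HasAntidiagonal.mem_antidiagonal] at hp
        rcases Nat.eq_zero_or_pos p.1 with h0 | h0
        · rw [h0, coeff_geo_zero, zero_mul]; exact Bd.zero _ _ _
        · have hg : Bd 0 0 0 (PowerSeries.coeff p.1 (geo (k + 2))) := by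
            rw [geo, PowerSeries.coeff_mk]
            split_ifs
            · exact Bd.zero _ _ _
            · exact Bd.C _
          have h1 : Bd (w - 1) 0 0 (PowerSeries.coeff p.2 (mfm k)) :=
            (ih k (by omega) p.2).mono (by omega) (le_refl _) (le_refl _)
          have h2 : Bd (w - 1) 0 0 (MvPolynomial.X 0 * PowerSeries.coeff p.2 (mfm (k + 1))) := by
            rcases Nat.eq_zero_or_pos p.2 with h3 | h3
            · rw [h3, mfm_low (k + 1) 0 (by omega), mul_zero]; exact Bd.zero _ _ _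
            · exact (Bd.X0.mul (ih (k + 1) (by omega) p.2)).mono (by omega) (by omega) (by omega)
          exact (hg.mul (h1.add h2)).mono (by omega) (by omega) (by omega)
      exact ((Bd.C _).mul hs).mono (by omega) (by omega) (by omega)

/-! ### `Del`, `rr`, `EE` -/

lemma bd_Del (w : ℕ) : Bd (w - 1) (2 * w) (2 * w) (Del w) := by
  unfold Del
  refine Bd.sum _ _ fun k hk => ?_
  rw [Finset.mem_Icc] at hk
  exact ((bd_bet k).mul (bd_mfm k w)).mono (by omega) (by omega) (by omega)

lemma Del_zero : Del 0 = 0 := by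
  unfold Del
  simp

lemma bd_log (w : ℕ) : Bd (w - 1) (2 * w) (2 * w) (logS Del w) := by
  induction w using Nat.strong_induction_on with
  | _ w ih =>
    rcases w with _ | w
    · rw [logS]; exact Bd.zero _ _ _
    · rw [logS]
      refine (bd_Del (w + 1)).sub (Bd.smul _ (Bd.sum _ _ fun j _ => Bd.smul _ ?_))
      have hj := j.isLt
      rcases Nat.eq_zero_or_pos j.val with h0 | h0
      · rw [h0, logS, zero_mul]; exact Bd.zero _ _ _
      · exact ((ih j.val hj).mul (bd_Del (w + 1 - j.val))).mono (by omega) (by omega) (by omega)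

lemma bd_rr (w : ℕ) (hw : 1 ≤ w) : Bd w (4 * w) (2 * w + 2) (rr w) := by
  unfold rr
  rw [if_neg (by omega), add_zero]
  exact (bd_log (w + 1)).mono (by omega) (by omega) (by omega)

lemma rr_zero : rr 0 = 0 := by
  have h1 : logS Del (0 + 1) = Del 1 := by
    rw [logS]
    simp [logS]
  have h2 : PowerSeries.coeff 1 (mfm 2) = (-1 : Rg) := by
    rw [coeff_mfm, mfm, mfm]
    have : antidiagonal 1 = {((0 : ℕ), (1 : ℕ)), (1, 0)} := rfl
    rw [this]
    simp [geo]
  have h3 : Del 1 = -bet 2 := by
    unfold Del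
    have : Icc 2 (2 * 1) = {2} := rfl
    rw [this, Finset.sum_singleton, h2]
    ring
  unfold rr
  rw [if_pos rfl, h1, h3]
  ring

lemma bd_EE (w : ℕ) : Bd w (4 * w) (2 * w + 2) (EE w) := by
  unfold EE
  induction w using Nat.strong_induction_on with
  | _ w ih =>
    rcases w with _ | w
    · rw [expS]; exact Bd.one.mono (Nat.zero_le _) (Nat.zero_le _) (Nat.zero_le _)
    · rw [expS]
      refine Bd.smul _ (Bd.sum _ _ fun j _ => Bd.smul _ ?_)
      have hj := j.isLt
      exact ((bd_rr (w + 1 - j.val) (by omega)).mul (ih j.val hj)).mono (by omega) (by omega)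
        (by omega)

lemma Qt_zero : Qt 0 = 1 := by
  unfold Qt EE
  rw [expS]
  unfold Ef
  have h : (1 : Rg).support = {0} := MvPolynomial.support_one
  rw [h, Finset.sum_singleton]
  simp

lemma Qt_deg (w : ℕ) : (Qt w).natDegree ≤ 2 * w := by
  unfold Qt Ef
  refine Polynomial.natDegree_sum_le_of_forall_le _ _ fun m hm => ?_
  have := (bd_EE w m hm).1
  exact (Polynomial.natDegree_monomial_le _).trans (by omega)

lemma QQ_deg (w : ℕ) : (QQ w).natDegree ≤ 2 * w := by
  unfold QQ
  induction w using Nat.strong_induction_on with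
  | _ w ih =>
    rcases w with _ | w
    · rw [logS]; simp
    · rw [logS]
      refine (Polynomial.natDegree_sub_le_of_le (Qt_deg (w + 1))
        ((Polynomial.natDegree_smul_le _ _).trans
          (Polynomial.natDegree_sum_le_of_forall_le _ _ fun j _ =>
            (Polynomial.natDegree_smul_le _ _).trans ?_))).trans (max_self _).le
      have hj := j.isLt
      have h1 := ih j.val hj
      have h2 := Qt_deg (w + 1 - j.val)
      exact (Polynomial.natDegree_mul_le).trans (by omega)

end DegAux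

open DegAux in
theorem deg_proof : Stmt_Deg := by
  refine ⟨?_, Del_zero, ?_, rr_zero, ?_, ?_, Qt_zero, Qt_deg, QQ_deg⟩
  · intro w m hm
    obtain ⟨h1, h2, -⟩ := bd_Del w m hm
    omega
  · intro w m hm
    rcases Nat.eq_zero_or_pos w with h0 | h0
    · subst h0
      rw [rr_zero] at hm
      simp at hm
    · obtain ⟨h1, h2, -⟩ := bd_rr w h0 m hm
      omega
  · intro w m hm
    obtain ⟨h1, h2, -⟩ := bd_EE w m hm
    omega
  · intro w i hi
    obtain ⟨m, hm, h1⟩ := (MvPolynomial.mem_vars i).mp hi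
    exact (bd_EE w m hm).2.2 i h1

end Pool.Agent.RGD
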