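import Pool.Agent.RGD.Stmts

/-!
# EEB: grid points
-/

set_option autoImplicit false

namespace Pool.Agent.RGD

open Finset Pool.Agent.RGA

namespace EebX

theorem norm_ee (n : ℕ) (k : Fin (2 * n)) : ‖ee n k‖ = 1 :=
  Complex.norm_exp_ofReal_mul_I _

theorem re_im (n : ℕ) (k : Fin (2 * n)) : (ee n k).re ^ 2 + (ee n k).im ^ 2 = 1 := by
  have := Complex.sq_norm (ee n k)
  rw [norm_ee, Complex.normSq_apply] at this
  nlinarith

theorem shf_val (n : ℕ) (k : Fin (2 * n)) :
    (shf n k).val = if k.val < n then k.val + n else k.val - n := by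
  have hk := k.isLt
  unfold shf
  split_ifs with h
  · exact Nat.mod_eq_of_lt (by omega)
  · show (k.val + n) % (2 * n) = k.val - n
    have : k.val + n = (k.val - n) + 2 * n := by omega
    rw [this, Nat.add_mod_right]
    exact Nat.mod_eq_of_lt (by omega)

theorem ee_shf (n : ℕ) (k : Fin (2 * n)) : ee n (shf n k) = -ee n k := by
  have hk := k.isLt
  have hn : (n : ℝ) ≠ 0 := by
    have : 0 < n := by omega
    positivity
  unfold ee
  rw [shf_val]
  split_ifs with h
  · have e : (((Real.pi * ((k.val + n : ℕ) : ℝ) / n : ℝ) : ℂ)) * Complex.I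
        = (((Real.pi * (k.val : ℝ) / n : ℝ) : ℂ)) * Complex.I + (Real.pi : ℂ) * Complex.I := by
      have e1 : Real.pi * ((k.val + n : ℕ) : ℝ) / n = Real.pi * (k.val : ℝ) / n + Real.pi := by
        push_cast
        field_simp
      rw [e1]
      push_cast
      ring
    rw [e, Complex.exp_add, Complex.exp_pi_mul_I]
    ring
  · have e : (((Real.pi * ((k.val - n : ℕ) : ℝ) / n : ℝ) : ℂ)) * Complex.I
        = (((Real.pi * (k.val : ℝ) / n : ℝ) : ℂ)) * Complex.I - (Real.pi : ℂ) * Complex.I := by
      have e1 : Real.pi * ((k.val - n : ℕ) : ℝ) / n = Real.pi * (k.val : ℝ) / n - Real.pi := by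
        rw [Nat.cast_sub (by omega)]
        field_simp
      rw [e1]
      push_cast
      ring
    rw [e, Complex.exp_sub, Complex.exp_pi_mul_I]
    ring

theorem shf_shf (n : ℕ) (k : Fin (2 * n)) : shf n (shf n k) = k := by
  have hk := k.isLt
  apply Fin.ext
  rw [shf_val, shf_val]
  split_ifs <;> omega

theorem sum_pow (n : ℕ) (m : ℤ) (hn : 1 ≤ n) :
    ∑ k : Fin (2 * n), ee n k ^ m = if (2 * (n : ℤ)) ∣ m then (2 * n : ℂ) else 0 := by
  have hn0 : (n : ℂ) ≠ 0 := by
    have : (n : ℂ) ≠ 0 := Nat.cast_ne_zero.mpr (by omega)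
    exact this
  set ω : ℂ := Complex.exp ((m : ℂ) * (Real.pi * Complex.I / n)) with hω
  have h1 : ∀ k : Fin (2 * n), ee n k ^ m = ω ^ (k : ℕ) := by
    intro k
    rw [hω, ← Complex.exp_nat_mul]
    unfold ee
    rw [← Complex.exp_int_mul]
    congr 1
    push_cast
    ring
  have h2 : ω ^ (2 * n) = 1 := by
    rw [hω, ← Complex.exp_nat_mul]
    have : ((2 * n : ℕ) : ℂ) * ((m : ℂ) * (Real.pi * Complex.I / n)) =
        m * (2 * Real.pi * Complex.I) := by
      push_cast
      field_simp
    rw [this]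
    exact Complex.exp_int_mul_two_pi_mul_I m
  have h3 : ω = 1 ↔ (2 * (n : ℤ)) ∣ m := by
    rw [hω, Complex.exp_eq_one_iff]
    constructor
    · rintro ⟨j, hj⟩
      refine ⟨j, ?_⟩
      have hpi : (Real.pi : ℂ) * Complex.I ≠ 0 :=
        mul_ne_zero (Complex.ofReal_ne_zero.mpr Real.pi_ne_zero) Complex.I_ne_zero
      have : (m : ℂ) = 2 * n * j := by
        have h4 : ((m : ℂ) - 2 * n * j) * ((Real.pi : ℂ) * Complex.I) = 0 := by
          have h5 : (m : ℂ) * (Real.pi * Complex.I / n) * n = j * (2 * Real.pi * Complex.I) * n := by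
            rw [hj]
          have h6 : (m : ℂ) * (Real.pi * Complex.I / n) * n = m * (Real.pi * Complex.I) := by
            field_simp
          rw [h6] at h5
          linear_combination h5
        rcases mul_eq_zero.mp h4 with h | h
        · linear_combination h
        · exact absurd h hpi
      exact_mod_cast this
    · rintro ⟨j, hj⟩
      refine ⟨j, ?_⟩
      rw [hj]
      push_cast
      field_simp
  rw [Finset.sum_congr rfl (fun k _ => h1 k), Fin.sum_univ_eq_sum_range (fun k => ω ^ k) (2 * n)]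
  split_ifs with h
  · rw [h3.mpr h]
    simp
  · have h4 : ω ≠ 1 := fun h5 => h (h3.mp h5)
    have h5 := geom_sum_mul ω (2 * n)
    rw [h2, sub_self] at h5
    rcases mul_eq_zero.mp h5 with h6 | h6
    · exact h6
    · exact absurd (sub_eq_zero.mp h6) h4

end EebX

open EebX in
theorem eeb_proof : Stmt_Eeb := by
  refine ⟨?_, ?_⟩
  · intro n k
    have h1 := norm_ee n k
    have h2 := re_im n k
    have h3 := Complex.abs_re_le_norm (ee n k)
    rw [h1] at h3
    have h4 := abs_le.mp h3
    refine ⟨h1, ?_, ?_, ?_, ee_shf n k, ?_, shf_shf n k⟩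
    · unfold ss
      linarith [h4.2]
    · unfold ss
      linarith [h4.1]
    · rw [Complex.sq_norm, Complex.normSq_apply]
      simp only [Complex.sub_re, Complex.one_re, Complex.sub_im, Complex.one_im]
      unfold ss
      linear_combination h2
    · unfold ss
      rw [ee_shf, Complex.neg_re]
      ring
  · intro n m hn
    exact sum_pow n m hn

end Pool.Agent.RGD
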