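import Pool.Agent.RGD.Stmts

/-!
RGD, module Evb: closure of `DegOK`, size of the terms.
-/

set_option autoImplicit false

namespace Pool.Agent.RGD

open Finset Pool.Agent.RGA MeasureTheory

namespace EvbM

theorem gdeg_eq (m : ℕ →₀ ℕ) (S : Finset ℕ) (h : m.support ⊆ S) :
    gdeg m = ∑ i ∈ S.erase 0, m i := by
  unfold gdeg
  refine Finset.sum_subset (Finset.erase_subset_erase 0 h) ?_
  intro i hi hi2
  rw [Finset.mem_erase] at hi hi2
  by_contra h3
  exact hi2 ⟨hi.1, Finsupp.mem_support_iff.mpr h3⟩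

theorem gdeg_add (m m' : ℕ →₀ ℕ) : gdeg (m + m') = gdeg m + gdeg m' := by
  rw [gdeg_eq (m + m') (m.support ∪ m'.support) Finsupp.support_add,
    gdeg_eq m (m.support ∪ m'.support) Finset.subset_union_left,
    gdeg_eq m' (m.support ∪ m'.support) Finset.subset_union_right, ← Finset.sum_add_distrib]
  rfl

theorem degOK_cnv (A B : ℕ → Rg) (hA : DegOK A) (hB : DegOK B) : DegOK (cnv A B) := by
  intro w m hm
  unfold cnv at hm
  have h1 := MvPolynomial.support_sum hm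
  rw [Finset.mem_biUnion] at h1
  obtain ⟨j, hj, hmj⟩ := h1
  have h2 := MvPolynomial.support_mul (A j) (B (w - j)) hmj
  rw [Finset.mem_add] at h2
  obtain ⟨m1, hm1, m2, hm2, rfl⟩ := h2
  have h3 := hA j m1 hm1
  have h4 := hB (w - j) m2 hm2
  rw [Finset.mem_range] at hj
  rw [gdeg_add]
  constructor
  · have : (m1 + m2) 0 = m1 0 + m2 0 := rfl
    omega
  · omega

theorem tt_pow (σ : ℝ) (n d : ℕ) (h : Dom σ n d) :
    0 < Lam n d ∧ ∀ a w : ℕ, a ≤ 2 * w → |tt n d| ^ a ≤ (1 / Lam n d) ^ w := by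
  obtain ⟨h1, h2, -, -⟩ := h
  have hn : 3 ≤ n := by omega
  have hn1 : (0 : ℝ) < (n : ℝ) - 1 := by
    have : (3 : ℝ) ≤ n := by exact_mod_cast hn
    linarith
  have hd : (0 : ℝ) < d := by exact_mod_cast h1
  have hl0 : 0 < lam n d := div_pos hd hn1
  have hl1 : lam n d ≤ 1 / 2 := by
    unfold lam
    rw [div_le_div_iff₀ hn1 two_pos]
    have : ((2 * d : ℕ) : ℝ) ≤ ((n - 1 : ℕ) : ℝ) := by exact_mod_cast h2
    rw [Nat.cast_sub (by omega)] at this
    push_cast at this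
    linarith
  have hL0 : 0 < Lam n d := by
    unfold Lam
    exact mul_pos hl0 (by linarith)
  have hL1 : Lam n d ≤ 1 := by
    unfold Lam
    nlinarith
  refine ⟨hL0, ?_⟩
  intro a w haw
  have hs : 0 < Real.sqrt (Lam n d) := Real.sqrt_pos.mpr hL0
  have hs1 : Real.sqrt (Lam n d) ≤ 1 := Real.sqrt_le_one.mpr hL1
  have h3 : |tt n d| ≤ 1 / Real.sqrt (Lam n d) := by
    unfold tt
    rw [abs_div, abs_of_pos hs]
    apply div_le_div_of_nonneg_right _ hs.le
    rw [abs_le]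
    constructor <;> linarith
  have h4 : 1 ≤ 1 / Real.sqrt (Lam n d) := by
    rw [le_div_iff₀ hs]
    linarith
  calc |tt n d| ^ a ≤ (1 / Real.sqrt (Lam n d)) ^ a := by gcongr
    _ ≤ (1 / Real.sqrt (Lam n d)) ^ (2 * w) := pow_le_pow_right₀ h4 haw
    _ = (1 / Lam n d) ^ w := by
      rw [pow_mul, div_pow, Real.sq_sqrt hL0.le, one_pow]

theorem monom_bound (σ : ℝ) (M W K : ℕ) (ε ε2 : ℝ) (hP : Par σ M W K ε ε2) (w : ℕ)
    (m : ℕ →₀ ℕ) (h0 : m 0 ≤ 2 * w) (hg : gdeg m ≤ 4 * w) (n d : ℕ) (hn : 1 ≤ n)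
    (hD : Dom σ n d) (G : ℕ → ℂ) (hG : ∀ i, ‖G i‖ ≤ (n : ℝ) ^ ε2) :
    ‖(m.prod fun i k => vals (tt n d) G i ^ k)‖ / (n : ℝ) ^ w ≤ (n : ℝ) ^ (-(σ * w / 2)) := by
  obtain ⟨hL0, htt⟩ := tt_pow σ n d hD
  have hn0 : (0 : ℝ) < n := by exact_mod_cast hn
  have hn1 : (1 : ℝ) ≤ n := by exact_mod_cast hn
  have hy : 0 < yy n d := by unfold yy; positivity
  have hone : 1 ≤ (n : ℝ) ^ ε2 := Real.one_le_rpow hn1 hP.f0.le
  have h1 : ‖(m.prod fun i k => vals (tt n d) G i ^ k)‖ ≤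
      |tt n d| ^ (m 0) * ((n : ℝ) ^ ε2) ^ gdeg m := by
    have h2 : (m.prod fun i k => vals (tt n d) G i ^ k) =
        ∏ i ∈ insert 0 m.support, vals (tt n d) G i ^ m i := by
      rw [Finsupp.prod]
      apply Finset.prod_subset (Finset.subset_insert 0 _)
      intro i _ hi
      rw [Finsupp.notMem_support_iff] at hi
      rw [hi, pow_zero]
    rw [h2, ← Finset.insert_erase (Finset.mem_insert_self 0 m.support),
      Finset.prod_insert (Finset.notMem_erase 0 _), norm_mul, norm_pow]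
    have h3 : ‖vals (tt n d) G 0‖ = |tt n d| := by
      simp [vals]
    rw [h3]
    gcongr
    rw [gdeg_eq m (insert 0 m.support) (Finset.subset_insert 0 _), norm_prod,
      ← Finset.prod_pow_eq_pow_sum]
    apply Finset.prod_le_prod
    · intro i _
      positivity
    · intro i hi
      have hi0 : i ≠ 0 := (Finset.mem_erase.mp hi).1
      rw [norm_pow]
      have : ‖vals (tt n d) G i‖ ≤ (n : ℝ) ^ ε2 := by
        simp only [vals, if_neg hi0]
        exact hG i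
      gcongr
  have h4 : ((n : ℝ) ^ ε2) ^ gdeg m ≤ (n : ℝ) ^ (σ * w / 2) := by
    calc ((n : ℝ) ^ ε2) ^ gdeg m ≤ ((n : ℝ) ^ ε2) ^ (4 * w) := pow_le_pow_right₀ hone hg
      _ = (n : ℝ) ^ (ε2 * ((4 * w : ℕ) : ℝ)) := by
        rw [← Real.rpow_natCast, ← Real.rpow_mul hn0.le]
      _ ≤ (n : ℝ) ^ (σ * w / 2) := by
        apply Real.rpow_le_rpow_of_exponent_le hn1
        have h5 := hP.f1
        have h6 := hP.f0
        have hK : (0 : ℝ) ≤ K := Nat.cast_nonneg K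
        have h7 : 128 * ε2 ≤ σ := by nlinarith
        have hw : (0 : ℝ) ≤ w := Nat.cast_nonneg w
        push_cast
        nlinarith
  have h8 : |tt n d| ^ (m 0) / (n : ℝ) ^ w ≤ (n : ℝ) ^ (-(σ * w)) := by
    calc |tt n d| ^ (m 0) / (n : ℝ) ^ w ≤ (1 / Lam n d) ^ w / (n : ℝ) ^ w := by
          gcongr
          exact htt _ _ h0
      _ = (1 / yy n d) ^ w := by
        unfold yy
        rw [← div_pow]
        congr 1
        field_simp
      _ ≤ (1 / (n : ℝ) ^ σ) ^ w := by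
        have h9 := hD.2.2.2
        have h10 : 0 < (n : ℝ) ^ σ := Real.rpow_pos_of_pos hn0 σ
        gcongr
      _ = (n : ℝ) ^ (-(σ * w)) := by
        rw [one_div, ← Real.rpow_neg hn0.le, ← Real.rpow_natCast, ← Real.rpow_mul hn0.le]
        congr 1
        ring
  calc ‖(m.prod fun i k => vals (tt n d) G i ^ k)‖ / (n : ℝ) ^ w
      ≤ |tt n d| ^ (m 0) * ((n : ℝ) ^ ε2) ^ gdeg m / (n : ℝ) ^ w := by gcongr
    _ = |tt n d| ^ (m 0) / (n : ℝ) ^ w * ((n : ℝ) ^ ε2) ^ gdeg m := by ring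
    _ ≤ (n : ℝ) ^ (-(σ * w)) * (n : ℝ) ^ (σ * w / 2) := by gcongr
    _ = (n : ℝ) ^ (-(σ * w / 2)) := by
      rw [← Real.rpow_add hn0]
      congr 1
      ring

end EvbM

theorem evb_proof : Stmt_Evb := by
  refine ⟨EvbM.degOK_cnv, ?_, ?_, ?_⟩
  · intro A B hA hB w m hm
    have h1 := MvPolynomial.support_add hm
    rw [Finset.mem_union] at h1
    rcases h1 with h1 | h1
    · exact hA w m h1
    · exact hB w m h1
  · intro c A hA w m hm
    exact hA w m (MvPolynomial.support_smul hm)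
  · intro σ M W K ε ε2 hP A hA w
    refine ⟨∑ m ∈ (A w).support, ‖((MvPolynomial.coeff m (A w) : ℚ) : ℂ)‖, ?_⟩
    intro n d hn hD G hG
    have hn0 : (0 : ℝ) < n := by exact_mod_cast hn
    have h0 : MvPolynomial.aeval (vals (tt n d) G) (A w) =
        ∑ m ∈ (A w).support, ((MvPolynomial.coeff m (A w) : ℚ) : ℂ) *
          (m.prod fun i k => vals (tt n d) G i ^ k) := by
      rw [MvPolynomial.aeval_def, MvPolynomial.eval₂_eq]
      rfl
    have h2 : ‖((n : ℂ) ^ w)‖ = (n : ℝ) ^ w := by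
      rw [norm_pow, Complex.norm_natCast]
    rw [norm_div, h2, Finset.sum_mul, h0]
    have h1 : ‖∑ m ∈ (A w).support, ((MvPolynomial.coeff m (A w) : ℚ) : ℂ) *
          (m.prod fun i k => vals (tt n d) G i ^ k)‖ ≤
        ∑ m ∈ (A w).support, ‖((MvPolynomial.coeff m (A w) : ℚ) : ℂ) *
          (m.prod fun i k => vals (tt n d) G i ^ k)‖ := norm_sum_le _ _
    refine (div_le_div_of_nonneg_right h1 (by positivity)).trans ?_
    rw [Finset.sum_div]
    apply Finset.sum_le_sum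
    intro m hm
    rw [norm_mul, mul_div_assoc]
    have h3 := EvbM.monom_bound σ M W K ε ε2 hP w m (hA w m hm).1 (hA w m hm).2 n d hn hD G hG
    exact mul_le_mul_of_nonneg_left h3 (norm_nonneg _)

end Pool.Agent.RGD
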