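import Pool.Agent.RGD.Stmts

/-!
Module Evexp (MP_3a123b_co, dense range): the exponential of an evaluated series.
-/

set_option autoImplicit false

namespace Pool.Agent.RGD

open Finset Pool.Agent.RGA

namespace EvexpAux

/-- coefficients of the powers of `∑ A_w x^w` -/
noncomputable def pw (A : ℕ → Rg) (q w : ℕ) : Rg :=
  PowerSeries.coeff w ((PowerSeries.mk A) ^ q)

lemma pw_zero (A : ℕ → Rg) (w : ℕ) : pw A 0 w = if w = 0 then 1 else 0 := by
  unfold pw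
  rw [pow_zero, PowerSeries.coeff_one]

lemma pw_succ (A : ℕ → Rg) (q : ℕ) : pw A (q + 1) = cnv (pw A q) A := by
  funext w
  unfold pw cnv
  rw [pow_succ, PowerSeries.coeff_mul, Finset.Nat.sum_antidiagonal_eq_sum_range_succ_mk]
  refine Finset.sum_congr rfl fun j _ => ?_
  simp only [PowerSeries.coeff_mk]

lemma pw_deg (hE : Stmt_Evb) (A : ℕ → Rg) (hA : DegOK A) (q : ℕ) : DegOK (pw A q) := by
  induction q with
  | zero =>
    intro w m hm
    rw [pw_zero] at hm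
    split_ifs at hm with hw
    · rw [MvPolynomial.support_one, Finset.mem_singleton] at hm
      subst hm
      simp [gdeg]
    · simp at hm
  | succ q ih =>
    rw [pw_succ]
    exact hE.1 _ _ ih hA

lemma ev_zero (A : ℕ → Rg) (V n : ℕ) (t : ℝ) (G : ℕ → ℂ) : ev (pw A 0) V n t G = 1 := by
  unfold ev
  rw [Finset.sum_eq_single 0]
  · rw [pw_zero]; simp
  · intro w _ hw
    rw [pw_zero, if_neg hw]; simp
  · intro h
    exact absurd (Finset.mem_range.mpr (Nat.succ_pos V)) h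

lemma ev_exp (hF : Stmt_Flog) (A : ℕ → Rg) (h0 : A 0 = 0) (V n : ℕ) (t : ℝ) (G : ℕ → ℂ) :
    ev (expS A) V n t G
      = ∑ q ∈ range (V + 1), (1 / (q.factorial : ℂ)) * ev (pw A q) V n t G := by
  unfold ev
  simp_rw [Finset.mul_sum]
  rw [Finset.sum_comm]
  refine Finset.sum_congr rfl fun w hw => ?_
  rw [Finset.mem_range] at hw
  rw [(hF A h0 V w (by omega)).2, map_sum, Finset.sum_div]
  refine Finset.sum_congr rfl fun q _ => ?_
  rw [map_smul, Rat.smul_def, mul_div_assoc]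
  unfold pw
  push_cast
  rfl

/-- bound for `ev A` if `A 0 = 0` -/
lemma ev_small (hE : Stmt_Evb) (σ : ℝ) (M W K : ℕ) (ε ε2 : ℝ) (hP : Par σ M W K ε ε2)
    (A : ℕ → Rg) (hA : DegOK A) (h0 : A 0 = 0) (V : ℕ) :
    ∃ C : ℝ, 0 ≤ C ∧ ∀ n d : ℕ, 1 ≤ n → Dom σ n d → ∀ G : ℕ → ℂ,
      (∀ i, ‖G i‖ ≤ (n : ℝ) ^ ε2) → ‖ev A V n (tt n d) G‖ ≤ C * (n : ℝ) ^ (-(σ / 2)) := by
  choose CA hCA using hE.2.2.2 σ M W K ε ε2 hP A hA
  refine ⟨∑ w ∈ range (V + 1), |CA w|, Finset.sum_nonneg fun _ _ => abs_nonneg _, ?_⟩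
  intro n d hn hD G hG
  have hn1 : (1 : ℝ) ≤ n := by exact_mod_cast hn
  have hn0 : (0 : ℝ) < n := by linarith
  unfold ev
  rw [Finset.sum_mul]
  refine (norm_sum_le _ _).trans (Finset.sum_le_sum fun w _ => ?_)
  rcases Nat.eq_zero_or_pos w with hw | hw
  · subst hw
    rw [h0, map_zero, zero_div, norm_zero]
    positivity
  · refine (hCA w n d hn hD G hG).trans ?_
    refine mul_le_mul (le_abs_self _) ?_ (by positivity) (abs_nonneg _)
    refine Real.rpow_le_rpow_of_exponent_le hn1 ?_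
    have h1 : (1 : ℝ) ≤ w := by exact_mod_cast hw
    nlinarith [mul_le_mul_of_nonneg_left h1 hP.s0.le]

lemma ev_pow (hE : Stmt_Evb) (hM : Stmt_Evm) (σ : ℝ) (M W K : ℕ) (ε ε2 : ℝ)
    (hP : Par σ M W K ε ε2) (A : ℕ → Rg) (hA : DegOK A) (h0 : A 0 = 0) (V : ℕ) (hV : W ≤ V)
    (q : ℕ) :
    ∃ C : ℝ, 0 ≤ C ∧ ∀ n d : ℕ, 1 ≤ n → Dom σ n d → ∀ G : ℕ → ℂ,
      (∀ i, ‖G i‖ ≤ (n : ℝ) ^ ε2) →
      ‖ev A V n (tt n d) G ^ q - ev (pw A q) V n (tt n d) G‖ ≤ C * (n : ℝ) ^ (-(M + 6 : ℝ)) := by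
  induction q with
  | zero =>
    refine ⟨0, le_refl _, ?_⟩
    intro n d _ _ G _
    rw [ev_zero, pow_zero, sub_self, norm_zero, zero_mul]
  | succ q ih =>
    obtain ⟨C1, hC1, h1⟩ := ih
    obtain ⟨C2, hC2, h2⟩ := ev_small hE σ M W K ε ε2 hP A hA h0 V
    obtain ⟨C3, h3⟩ := hM σ M W K ε ε2 hP (pw A q) A (pw_deg hE A hA q) hA V hV
    refine ⟨C1 * C2 + |C3|, by positivity, ?_⟩
    intro n d hn hD G hG
    have hn1 : (1 : ℝ) ≤ n := by exact_mod_cast hn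
    have hn0 : (0 : ℝ) < n := by linarith
    have e1 : ev A V n (tt n d) G ^ (q + 1) - ev (pw A (q + 1)) V n (tt n d) G
        = (ev A V n (tt n d) G ^ q - ev (pw A q) V n (tt n d) G) * ev A V n (tt n d) G
          + (ev (pw A q) V n (tt n d) G * ev A V n (tt n d) G
            - ev (cnv (pw A q) A) V n (tt n d) G) := by
      rw [pw_succ]; ring
    have hr : (0 : ℝ) ≤ (n : ℝ) ^ (-(M + 6 : ℝ)) := Real.rpow_nonneg hn0.le _
    have h4 : ‖ev A V n (tt n d) G‖ ≤ C2 := by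
      refine (h2 n d hn hD G hG).trans ?_
      have : (n : ℝ) ^ (-(σ / 2)) ≤ 1 := by
        rw [← Real.rpow_zero (n : ℝ)]
        refine Real.rpow_le_rpow_of_exponent_le hn1 ?_
        have := hP.s0
        linarith
      nlinarith
    rw [e1]
    refine (norm_add_le _ _).trans ?_
    rw [norm_mul, add_mul]
    refine add_le_add ?_ ?_
    · calc ‖ev A V n (tt n d) G ^ q - ev (pw A q) V n (tt n d) G‖ * ‖ev A V n (tt n d) G‖
          ≤ (C1 * (n : ℝ) ^ (-(M + 6 : ℝ))) * C2 :=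
            mul_le_mul (h1 n d hn hD G hG) h4 (norm_nonneg _) (by positivity)
        _ = C1 * C2 * (n : ℝ) ^ (-(M + 6 : ℝ)) := by ring
    · exact (h3 n d hn hD G hG).trans (mul_le_mul_of_nonneg_right (le_abs_self _) hr)

end EvexpAux

open EvexpAux in
theorem evexp_proof (hE : Stmt_Evb) (hM : Stmt_Evm) (hF : Stmt_Flog) : Stmt_Evexp := by
  intro σ M W K ε ε2 hP A hA h0 V hV C₁ s hs hsM
  obtain ⟨CA, hCA, hA1⟩ := ev_small hE σ M W K ε ε2 hP A hA h0 V
  choose CP hCP hP1 using ev_pow hE hM σ M W K ε ε2 hP A hA h0 V hV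
  refine ⟨Real.exp CA * (|C₁| * Real.exp |C₁|) + CA ^ (V + 1) * Real.exp CA
    + ∑ q ∈ range (V + 1), CP q, 1, ?_⟩
  intro n d hn hD G hG x hx
  have hn1 : (1 : ℝ) ≤ n := by exact_mod_cast hn
  have hn0 : (0 : ℝ) < n := by linarith
  set E := ev A V n (tt n d) G with hEdef
  have hns : (0 : ℝ) ≤ (n : ℝ) ^ (-s) := Real.rpow_nonneg hn0.le _
  have hns1 : (n : ℝ) ^ (-s) ≤ 1 := by
    rw [← Real.rpow_zero (n : ℝ)]
    exact Real.rpow_le_rpow_of_exponent_le hn1 (by linarith)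
  have hMs : (n : ℝ) ^ (-(M + 6 : ℝ)) ≤ (n : ℝ) ^ (-s) :=
    Real.rpow_le_rpow_of_exponent_le hn1 (by linarith)
  have hEs : ‖E‖ ≤ CA * (n : ℝ) ^ (-(σ / 2)) := hA1 n d hn hD G hG
  have hσ1 : (n : ℝ) ^ (-(σ / 2)) ≤ 1 := by
    rw [← Real.rpow_zero (n : ℝ)]
    refine Real.rpow_le_rpow_of_exponent_le hn1 ?_
    have := hP.s0
    linarith
  have hE1 : ‖E‖ ≤ CA := hEs.trans (by nlinarith)
  -- first part
  have hx1 : ‖x - E‖ ≤ |C₁| * (n : ℝ) ^ (-s) :=
    hx.trans (mul_le_mul_of_nonneg_right (le_abs_self _) hns)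
  have hx2 : ‖x - E‖ ≤ |C₁| := hx1.trans (by nlinarith [abs_nonneg C₁])
  have p1 : ‖Complex.exp x - Complex.exp E‖
      ≤ Real.exp CA * (|C₁| * Real.exp |C₁|) * (n : ℝ) ^ (-s) := by
    have e1 : Complex.exp x - Complex.exp E = Complex.exp E * (Complex.exp (x - E) - 1) := by
      rw [mul_sub, ← Complex.exp_add, mul_one]
      congr 2
      ring
    rw [e1, norm_mul]
    have h1 : ‖Complex.exp E‖ ≤ Real.exp CA :=
      (Complex.norm_exp_le_exp_norm E).trans (Real.exp_le_exp.mpr hE1)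
    have h2 : ‖Complex.exp (x - E) - 1‖ ≤ ‖x - E‖ * Real.exp ‖x - E‖ := by
      have := Complex.norm_exp_sub_sum_le_norm_mul_exp (x - E) 1
      simpa using this
    have h3 : ‖x - E‖ * Real.exp ‖x - E‖ ≤ (|C₁| * (n : ℝ) ^ (-s)) * Real.exp |C₁| :=
      mul_le_mul hx1 (Real.exp_le_exp.mpr hx2) (Real.exp_pos _).le (by positivity)
    calc ‖Complex.exp E‖ * ‖Complex.exp (x - E) - 1‖
        ≤ Real.exp CA * ((|C₁| * (n : ℝ) ^ (-s)) * Real.exp |C₁|) :=
          mul_le_mul h1 (h2.trans h3) (norm_nonneg _) (Real.exp_pos _).le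
      _ = _ := by ring
  -- second part
  have p2 : ‖Complex.exp E - ∑ q ∈ range (V + 1), E ^ q / (q.factorial : ℂ)‖
      ≤ CA ^ (V + 1) * Real.exp CA * (n : ℝ) ^ (-s) := by
    have h1 := Complex.norm_exp_sub_sum_le_norm_mul_exp E (V + 1)
    have h2 : ‖E‖ ^ (V + 1) ≤ CA ^ (V + 1) * (n : ℝ) ^ (-s) := by
      calc ‖E‖ ^ (V + 1) ≤ (CA * (n : ℝ) ^ (-(σ / 2))) ^ (V + 1) :=
            pow_le_pow_left₀ (norm_nonneg _) hEs _
        _ = CA ^ (V + 1) * ((n : ℝ) ^ (-(σ / 2))) ^ (V + 1) := mul_pow _ _ _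
        _ ≤ CA ^ (V + 1) * (n : ℝ) ^ (-s) := by
            refine mul_le_mul_of_nonneg_left ?_ (by positivity)
            rw [← Real.rpow_natCast, ← Real.rpow_mul hn0.le]
            refine Real.rpow_le_rpow_of_exponent_le hn1 ?_
            have h3 : (W : ℝ) ≤ V := by exact_mod_cast hV
            have h4 := hP.hW
            have h5 := hP.s0
            push_cast
            nlinarith [mul_le_mul_of_nonneg_left h3 h5.le]
    calc _ ≤ ‖E‖ ^ (V + 1) * Real.exp ‖E‖ := h1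
      _ ≤ (CA ^ (V + 1) * (n : ℝ) ^ (-s)) * Real.exp CA :=
          mul_le_mul h2 (Real.exp_le_exp.mpr hE1) (Real.exp_pos _).le (by positivity)
      _ = _ := by ring
  -- third part
  have p3 : ‖∑ q ∈ range (V + 1), E ^ q / (q.factorial : ℂ) - ev (expS A) V n (tt n d) G‖
      ≤ (∑ q ∈ range (V + 1), CP q) * (n : ℝ) ^ (-s) := by
    rw [ev_exp hF A h0, ← Finset.sum_sub_distrib, Finset.sum_mul]
    refine (norm_sum_le _ _).trans (Finset.sum_le_sum fun q _ => ?_)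
    have e1 : E ^ q / (q.factorial : ℂ) - 1 / (q.factorial : ℂ) * ev (pw A q) V n (tt n d) G
        = (1 / (q.factorial : ℂ)) * (E ^ q - ev (pw A q) V n (tt n d) G) := by ring
    rw [e1, norm_mul]
    have h1 : ‖(1 / (q.factorial : ℂ))‖ ≤ 1 := by
      rw [norm_div, norm_one, Complex.norm_natCast]
      rw [div_le_one (by positivity)]
      exact_mod_cast Nat.one_le_iff_ne_zero.mpr (Nat.factorial_ne_zero q)
    have h2 := hP1 q n d hn hD G hG
    calc ‖(1 / (q.factorial : ℂ))‖ * ‖E ^ q - ev (pw A q) V n (tt n d) G‖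
        ≤ 1 * (CP q * (n : ℝ) ^ (-(M + 6 : ℝ))) :=
          mul_le_mul h1 h2 (norm_nonneg _) zero_le_one
      _ = CP q * (n : ℝ) ^ (-(M + 6 : ℝ)) := one_mul _
      _ ≤ CP q * (n : ℝ) ^ (-s) := mul_le_mul_of_nonneg_left hMs (hCP q)
  have e : Complex.exp x - ev (expS A) V n (tt n d) G
      = (Complex.exp x - Complex.exp E)
        + (Complex.exp E - ∑ q ∈ range (V + 1), E ^ q / (q.factorial : ℂ))
        + (∑ q ∈ range (V + 1), E ^ q / (q.factorial : ℂ) - ev (expS A) V n (tt n d) G) := by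
    ring
  rw [e]
  calc _ ≤ ‖Complex.exp x - Complex.exp E‖
        + ‖Complex.exp E - ∑ q ∈ range (V + 1), E ^ q / (q.factorial : ℂ)‖
        + ‖∑ q ∈ range (V + 1), E ^ q / (q.factorial : ℂ) - ev (expS A) V n (tt n d) G‖ :=
        norm_add₃_le
    _ ≤ _ := by
      rw [add_mul, add_mul]
      exact add_le_add (add_le_add p1 p2) p3

end Pool.Agent.RGD
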