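import Pool.Agent.RGD.Stmts

/-!
EVLOG: the logarithm of an expansion (MP_3a123b_co, dense range).
-/

set_option autoImplicit false

namespace Pool.Agent.RGD

open Finset Pool.Agent.RGA MeasureTheory

namespace EvlogAux

/-- coefficients of the powers -/
noncomputable def pw (A : ℕ → Rg) (q w : ℕ) : Rg := PowerSeries.coeff w ((PowerSeries.mk A) ^ q)

theorem pw_zero (A : ℕ → Rg) (w : ℕ) : pw A 0 w = if w = 0 then 1 else 0 := by
  unfold pw
  rw [pow_zero, PowerSeries.coeff_one]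

theorem pw_succ (A : ℕ → Rg) (q : ℕ) : pw A (q + 1) = cnv (pw A q) A := by
  funext w
  unfold pw cnv
  rw [pow_succ, PowerSeries.coeff_mul, Finset.Nat.sum_antidiagonal_eq_sum_range_succ_mk]
  refine Finset.sum_congr rfl fun j _ => ?_
  rw [PowerSeries.coeff_mk]

theorem degOK_one : DegOK (fun w => if w = 0 then (1 : Rg) else 0) := by
  intro w m hm
  by_cases hw : w = 0
  · simp only [hw, if_true] at hm
    have h1 : m = 0 := by
      by_contra hne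
      rw [MvPolynomial.mem_support_iff, MvPolynomial.coeff_one, if_neg (fun h => hne h.symm)] at hm
      exact hm rfl
    subst h1
    simp [gdeg]
  · simp [hw] at hm

theorem degOK_pw (hEvb : Stmt_Evb) (A : ℕ → Rg) (hA : DegOK A) (q : ℕ) : DegOK (pw A q) := by
  induction q with
  | zero =>
    have : pw A 0 = fun w => if w = 0 then (1 : Rg) else 0 := by
      funext w
      exact pw_zero A w
    rw [this]
    exact degOK_one
  | succ q ih =>
    rw [pw_succ]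
    exact hEvb.1 _ _ ih hA

theorem ev_pw_zero (A : ℕ → Rg) (V n : ℕ) (t : ℝ) (G : ℕ → ℂ) : ev (pw A 0) V n t G = 1 := by
  unfold ev
  rw [Finset.sum_eq_single 0]
  · rw [pw_zero, if_pos rfl, map_one, pow_zero, div_one]
  · intro w _ hw
    rw [pw_zero, if_neg hw, map_zero, zero_div]
  · intro h
    exact absurd (Finset.mem_range.2 (Nat.succ_pos V)) h

theorem rpow_le_one_of {n : ℕ} (hn : 1 ≤ n) {a : ℝ} (ha : 0 ≤ a) : (n : ℝ) ^ (-a) ≤ 1 := by
  apply Real.rpow_le_one_of_one_le_of_nonpos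
  · exact_mod_cast hn
  · linarith

theorem rpow_mono {n : ℕ} (hn : 1 ≤ n) {a b : ℝ} (h : b ≤ a) : (n : ℝ) ^ (-a) ≤ (n : ℝ) ^ (-b) := by
  apply Real.rpow_le_rpow_of_exponent_le
  · exact_mod_cast hn
  · linarith

/-- the evaluation is small -/
theorem ev_small (hEvb : Stmt_Evb) {σ : ℝ} {M W K : ℕ} {ε ε2 : ℝ} (hP : Par σ M W K ε ε2)
    (A : ℕ → Rg) (hA : DegOK A) (hA0 : A 0 = 0) (V : ℕ) :
    ∃ C : ℝ, 0 ≤ C ∧ ∀ n d : ℕ, 1 ≤ n → Dom σ n d → ∀ G : ℕ → ℂ,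
      (∀ i, ‖G i‖ ≤ (n : ℝ) ^ ε2) → ‖ev A V n (tt n d) G‖ ≤ C * (n : ℝ) ^ (-(σ / 2)) := by
  choose C hC using hEvb.2.2.2 σ M W K ε ε2 hP A hA
  refine ⟨∑ w ∈ range (V + 1), |C w|, Finset.sum_nonneg fun w _ => abs_nonneg _, ?_⟩
  intro n d hn hd G hG
  have hn1 : (1 : ℝ) ≤ n := by exact_mod_cast hn
  unfold ev
  refine (norm_sum_le _ _).trans ?_
  rw [Finset.sum_mul]
  refine Finset.sum_le_sum fun w _ => ?_
  by_cases hw : w = 0
  · subst hw
    rw [hA0, map_zero, zero_div, norm_zero]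
    positivity
  · refine (hC w n d hn hd G hG).trans ?_
    have h1 : (1 : ℝ) ≤ w := by exact_mod_cast Nat.one_le_iff_ne_zero.2 hw
    have h2 : (n : ℝ) ^ (-(σ * w / 2)) ≤ (n : ℝ) ^ (-(σ / 2)) := by
      apply rpow_mono hn
      nlinarith [hP.s0]
    calc C w * (n : ℝ) ^ (-(σ * w / 2)) ≤ |C w| * (n : ℝ) ^ (-(σ * w / 2)) :=
          mul_le_mul_of_nonneg_right (le_abs_self _) (by positivity)
      _ ≤ |C w| * (n : ℝ) ^ (-(σ / 2)) := mul_le_mul_of_nonneg_left h2 (abs_nonneg _)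

/-- powers of the evaluation -/
theorem ev_pow (hEvb : Stmt_Evb) (hEvm : Stmt_Evm) {σ : ℝ} {M W K : ℕ} {ε ε2 : ℝ}
    (hP : Par σ M W K ε ε2) (A : ℕ → Rg) (hA : DegOK A) (hA0 : A 0 = 0) (V : ℕ) (hV : W ≤ V)
    (q : ℕ) :
    ∃ C : ℝ, 0 ≤ C ∧ ∀ n d : ℕ, 1 ≤ n → Dom σ n d → ∀ G : ℕ → ℂ,
      (∀ i, ‖G i‖ ≤ (n : ℝ) ^ ε2) →
      ‖ev A V n (tt n d) G ^ q - ev (pw A q) V n (tt n d) G‖ ≤ C * (n : ℝ) ^ (-(M + 6 : ℝ)) := by
  obtain ⟨C₀, hC₀, hs⟩ := ev_small hEvb hP A hA hA0 V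
  induction q with
  | zero =>
    refine ⟨0, le_rfl, ?_⟩
    intro n d hn hd G hG
    rw [pow_zero, ev_pw_zero, sub_self, norm_zero, zero_mul]
  | succ q ih =>
    obtain ⟨C₁, hC₁, h1⟩ := ih
    obtain ⟨C₂, h2⟩ := hEvm σ M W K ε ε2 hP (pw A q) A (degOK_pw hEvb A hA q) hA V hV
    refine ⟨C₁ * C₀ + |C₂|, by positivity, ?_⟩
    intro n d hn hd G hG
    have e1 := h1 n d hn hd G hG
    have e2 := h2 n d hn hd G hG
    have e3 : ‖ev A V n (tt n d) G‖ ≤ C₀ := by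
      refine (hs n d hn hd G hG).trans ?_
      have := rpow_le_one_of hn (a := σ / 2) (by linarith [hP.s0])
      nlinarith
    rw [pw_succ]
    have e4 : ev A V n (tt n d) G ^ (q + 1) - ev (cnv (pw A q) A) V n (tt n d) G =
        (ev A V n (tt n d) G ^ q - ev (pw A q) V n (tt n d) G) * ev A V n (tt n d) G +
          (ev (pw A q) V n (tt n d) G * ev A V n (tt n d) G -
            ev (cnv (pw A q) A) V n (tt n d) G) := by ring
    rw [e4]
    refine (norm_add_le _ _).trans ?_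
    rw [norm_mul, add_mul]
    have hp : 0 ≤ (n : ℝ) ^ (-(M + 6 : ℝ)) := by positivity
    refine add_le_add ?_ (e2.trans (mul_le_mul_of_nonneg_right (le_abs_self _) hp))
    calc ‖ev A V n (tt n d) G ^ q - ev (pw A q) V n (tt n d) G‖ * ‖ev A V n (tt n d) G‖
        ≤ (C₁ * (n : ℝ) ^ (-(M + 6 : ℝ))) * C₀ :=
          mul_le_mul e1 e3 (norm_nonneg _) (by positivity)
      _ = C₁ * C₀ * (n : ℝ) ^ (-(M + 6 : ℝ)) := by ring

theorem ev_logS (hFlog : Stmt_Flog) (A : ℕ → Rg) (hA0 : A 0 = 0) (V n : ℕ) (t : ℝ)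
    (G : ℕ → ℂ) : ev (logS A) V n t G =
      ∑ q ∈ Icc 1 V, ((-1 : ℂ) ^ (q - 1) / q) * ev (pw A q) V n t G := by
  unfold ev
  have h : ∀ w ∈ range (V + 1), MvPolynomial.aeval (vals t G) (logS A w) / (n : ℂ) ^ w =
      ∑ q ∈ Icc 1 V, ((-1 : ℂ) ^ (q - 1) / q) *
        (MvPolynomial.aeval (vals t G) (pw A q w) / (n : ℂ) ^ w) := by
    intro w hw
    rw [(hFlog A hA0 V w (Nat.lt_succ_iff.1 (Finset.mem_range.1 hw))).1, map_sum,
      Finset.sum_div]
    refine Finset.sum_congr rfl fun q _ => ?_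
    rw [map_smul, Algebra.smul_def]
    have : (algebraMap ℚ ℂ) ((-1 : ℚ) ^ (q - 1) / q) = (-1 : ℂ) ^ (q - 1) / q := by
      rw [eq_ratCast]
      push_cast
      rfl
    rw [this, mul_div_assoc]
    rfl
  rw [Finset.sum_congr rfl h, Finset.sum_comm]
  refine Finset.sum_congr rfl fun q _ => ?_
  rw [Finset.mul_sum]

theorem logTaylor_eq (V : ℕ) (y : ℂ) : Complex.logTaylor (V + 1) y =
    ∑ q ∈ Icc 1 V, ((-1 : ℂ) ^ (q - 1) / q) * y ^ q := by
  unfold Complex.logTaylor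
  rw [Finset.range_eq_Ico, Finset.sum_eq_sum_Ico_succ_bot (by omega)]
  have h0 : (-1 : ℂ) ^ (0 + 1) * y ^ 0 / ((0 : ℕ) : ℂ) = 0 := by simp
  rw [h0, zero_add]
  have : Finset.Ico (0 + 1) (V + 1) = Icc 1 V := by
    ext k
    simp only [Finset.mem_Ico, Finset.mem_Icc]
    omega
  rw [this]
  refine Finset.sum_congr rfl fun q hq => ?_
  have hq1 := (Finset.mem_Icc.1 hq).1
  obtain ⟨k, rfl⟩ : ∃ k, q = k + 1 := ⟨q - 1, by omega⟩
  rw [Nat.add_sub_cancel, pow_succ (-1 : ℂ) (k + 1), pow_succ (-1 : ℂ) k]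
  ring

theorem log_lip {x y : ℂ} (hx : ‖x‖ ≤ 1 / 2) (hy : ‖y‖ ≤ 1 / 2) :
    ‖Complex.log (1 + x) - Complex.log (1 + y)‖ ≤ 2 * ‖x - y‖ := by
  have hconv : Convex ℝ (Metric.closedBall (0 : ℂ) (1 / 2)) := convex_closedBall _ _
  have hmem : ∀ z ∈ Metric.closedBall (0 : ℂ) (1 / 2), 1 / 2 ≤ ‖1 + z‖ ∧
      1 + z ∈ Complex.slitPlane := by
    intro z hz
    rw [mem_closedBall_zero_iff] at hz
    constructor
    · have h1 : ‖(1 : ℂ)‖ ≤ ‖1 + z‖ + ‖z‖ := by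
        have := norm_sub_le (1 + z) z
        rwa [add_sub_cancel_right] at this
      rw [norm_one] at h1
      linarith
    · left
      have h2 := Complex.abs_re_le_norm z
      have h3 := abs_le.1 (h2.trans hz)
      rw [Complex.add_re, Complex.one_re]
      linarith
  refine hconv.norm_image_sub_le_of_norm_hasDerivWithin_le (f := fun z => Complex.log (1 + z))
    (f' := fun z => 1 / (1 + z)) ?_ ?_ ?_ ?_
  · intro z hz
    have := ((hasDerivAt_id z).const_add 1).clog (hmem z hz).2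
    exact this.hasDerivWithinAt
  · intro z hz
    rw [norm_div, norm_one, div_le_iff₀ (by linarith [(hmem z hz).1])]
    linarith [(hmem z hz).1]
  · rwa [mem_closedBall_zero_iff]
  · rwa [mem_closedBall_zero_iff]

theorem eventually_small (C a δ : ℝ) (ha : 0 < a) (hδ : 0 < δ) :
    ∃ n₀ : ℕ, ∀ n : ℕ, n₀ ≤ n → C * (n : ℝ) ^ (-a) ≤ δ := by
  have h1 : Filter.Tendsto (fun n : ℕ => C * (n : ℝ) ^ (-a)) Filter.atTop (nhds (C * 0)) :=
    ((tendsto_rpow_neg_atTop ha).comp tendsto_natCast_atTop_atTop).const_mul C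
  rw [mul_zero] at h1
  have h2 := (h1.eventually (gt_mem_nhds hδ))
  obtain ⟨n₀, hn₀⟩ := Filter.eventually_atTop.1 h2
  exact ⟨n₀, fun n hn => (hn₀ n hn).le⟩

end EvlogAux

open EvlogAux in
theorem evlog_proof (hEvb : Stmt_Evb) (hEvm : Stmt_Evm) (hFlog : Stmt_Flog) : Stmt_Evlog := by
  intro σ M W K ε ε2 hP A hA hA0 V hV C₁ s hs hsM
  obtain ⟨C₀, hC₀, hsm⟩ := ev_small hEvb hP A hA hA0 V
  choose D hD0 hD using ev_pow hEvb hEvm hP A hA hA0 V hV
  obtain ⟨n₁, hn₁⟩ := eventually_small C₀ (σ / 2) (1 / 4) (by linarith [hP.s0]) (by norm_num)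
  obtain ⟨n₂, hn₂⟩ := eventually_small C₁ s (1 / 4) hs (by norm_num)
  refine ⟨2 * |C₁| + 2 * C₀ ^ (V + 1) + ∑ q ∈ Icc 1 V, D q, max 1 (max n₁ n₂), ?_⟩
  intro n d hn hd G hG x hx
  have hn0 : 1 ≤ n := le_trans (le_max_left _ _) hn
  have hnn1 : n₁ ≤ n := le_trans ((le_max_left _ _).trans (le_max_right _ _)) hn
  have hnn2 : n₂ ≤ n := le_trans ((le_max_right _ _).trans (le_max_right _ _)) hn
  have hy := hsm n d hn0 hd G hG
  have hpw := fun q => hD q n d hn0 hd G hG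
  set y := ev A V n (tt n d) G with hydef
  have hy4 : ‖y‖ ≤ 1 / 4 := hy.trans (hn₁ n hnn1)
  have hxy4 : ‖x - y‖ ≤ 1 / 4 := hx.trans (hn₂ n hnn2)
  have hx2 : ‖x‖ ≤ 1 / 2 := by
    have : ‖x‖ ≤ ‖x - y‖ + ‖y‖ := by
      have := norm_add_le (x - y) y
      rwa [sub_add_cancel] at this
    linarith
  refine ⟨hx2, ?_⟩
  have hMs : (n : ℝ) ^ (-(M + 6 : ℝ)) ≤ (n : ℝ) ^ (-s) := rpow_mono hn0 hsM
  have hps : 0 ≤ (n : ℝ) ^ (-s) := by positivity
  -- first part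
  have p1 : ‖Complex.log (1 + x) - Complex.log (1 + y)‖ ≤ 2 * |C₁| * (n : ℝ) ^ (-s) := by
    refine (log_lip hx2 (by linarith)).trans ?_
    have h3 := hx.trans (mul_le_mul_of_nonneg_right (le_abs_self C₁) hps)
    linarith
  -- second part
  have p2 : ‖Complex.log (1 + y) - Complex.logTaylor (V + 1) y‖ ≤
      2 * C₀ ^ (V + 1) * (n : ℝ) ^ (-s) := by
    refine (Complex.norm_log_sub_logTaylor_le V (by linarith)).trans ?_
    have h4 : ‖y‖ ^ (V + 1) ≤ C₀ ^ (V + 1) * (n : ℝ) ^ (-s) := by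
      refine (pow_le_pow_left₀ (norm_nonneg _) hy (V + 1)).trans ?_
      rw [mul_pow]
      refine mul_le_mul_of_nonneg_left ?_ (by positivity)
      rw [← Real.rpow_natCast, ← Real.rpow_mul (by positivity)]
      rw [show -(σ / 2) * ((V + 1 : ℕ) : ℝ) = -((σ / 2) * ((V + 1 : ℕ) : ℝ)) by ring]
      apply rpow_mono hn0
      have h5 : (W : ℝ) ≤ V := by exact_mod_cast hV
      have h6 := hP.hW
      have h7 := hP.s0
      push_cast
      nlinarith
    have h8 : (1 - ‖y‖)⁻¹ ≤ 2 := by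
      rw [inv_le_comm₀ (by linarith) (by norm_num)]
      linarith
    have h9 : (0 : ℝ) ≤ (1 - ‖y‖)⁻¹ := inv_nonneg.2 (by linarith)
    have h10 : ‖y‖ ^ (V + 1) * (1 - ‖y‖)⁻¹ ≤ 2 * C₀ ^ (V + 1) * (n : ℝ) ^ (-s) := by
      calc ‖y‖ ^ (V + 1) * (1 - ‖y‖)⁻¹ ≤ (C₀ ^ (V + 1) * (n : ℝ) ^ (-s)) * 2 :=
            mul_le_mul h4 h8 h9 (by positivity)
        _ = _ := by ring
    refine le_trans ?_ h10
    apply div_le_self (by positivity)
    have : (0 : ℝ) ≤ V := by positivity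
    linarith
  -- third part
  have p3 : ‖Complex.logTaylor (V + 1) y - ev (logS A) V n (tt n d) G‖ ≤
      (∑ q ∈ Icc 1 V, D q) * (n : ℝ) ^ (-s) := by
    rw [logTaylor_eq, ev_logS hFlog A hA0, ← Finset.sum_sub_distrib, Finset.sum_mul]
    refine (norm_sum_le _ _).trans (Finset.sum_le_sum fun q hq => ?_)
    rw [← mul_sub, norm_mul]
    have h11 : ‖(-1 : ℂ) ^ (q - 1) / q‖ ≤ 1 := by
      rw [norm_div, norm_pow, norm_neg, norm_one, one_pow, Complex.norm_natCast]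
      have : (1 : ℝ) ≤ q := by exact_mod_cast (Finset.mem_Icc.1 hq).1
      rw [div_le_one (by linarith)]
      exact this
    calc ‖(-1 : ℂ) ^ (q - 1) / q‖ * ‖y ^ q - ev (pw A q) V n (tt n d) G‖
        ≤ 1 * (D q * (n : ℝ) ^ (-(M + 6 : ℝ))) :=
          mul_le_mul h11 (hpw q) (norm_nonneg _) (by norm_num)
      _ ≤ D q * (n : ℝ) ^ (-s) := by
          rw [one_mul]
          exact mul_le_mul_of_nonneg_left hMs (hD0 q)
  have e : Complex.log (1 + x) - ev (logS A) V n (tt n d) G =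
      (Complex.log (1 + x) - Complex.log (1 + y)) +
      (Complex.log (1 + y) - Complex.logTaylor (V + 1) y) +
      (Complex.logTaylor (V + 1) y - ev (logS A) V n (tt n d) G) := by ring
  rw [e]
  refine (norm_add_le _ _).trans ?_
  have := norm_add_le (Complex.log (1 + x) - Complex.log (1 + y))
    (Complex.log (1 + y) - Complex.logTaylor (V + 1) y)
  linarith

end Pool.Agent.RGD
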