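import Pool.Agent.RGD.Stmts

/-!
Module Evm (MP_3a123b_co, dense range): evaluation is multiplicative up to `n^(-(M+6))`.
-/

set_option autoImplicit false

namespace Pool.Agent.RGD

open Finset Pool.Agent.RGA

namespace EvmAux

/-- one term of `ev` -/
noncomputable def tm (A : ℕ → Rg) (n : ℕ) (t : ℝ) (G : ℕ → ℂ) (w : ℕ) : ℂ :=
  MvPolynomial.aeval (vals t G) (A w) / (n : ℂ) ^ w

lemma ev_eq (A : ℕ → Rg) (W n : ℕ) (t : ℝ) (G : ℕ → ℂ) :
    ev A W n t G = ∑ w ∈ range (W + 1), tm A n t G w := rfl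

lemma tm_cnv (A B : ℕ → Rg) (n : ℕ) (t : ℝ) (G : ℕ → ℂ) (w : ℕ) :
    tm (cnv A B) n t G w = ∑ j ∈ range (w + 1), tm A n t G j * tm B n t G (w - j) := by
  unfold tm cnv
  rw [map_sum, Finset.sum_div]
  refine Finset.sum_congr rfl fun j hj => ?_
  rw [Finset.mem_range] at hj
  rw [map_mul, div_mul_div_comm, ← pow_add]
  congr 2
  omega

lemma diff_eq (A B : ℕ → Rg) (V n : ℕ) (t : ℝ) (G : ℕ → ℂ) :
    ev A V n t G * ev B V n t G - ev (cnv A B) V n t G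
      = ∑ i ∈ range (V + 1), ∑ j ∈ Ico (V + 1 - i) (V + 1), tm A n t G i * tm B n t G j := by
  rw [ev_eq, ev_eq, ev_eq, Finset.sum_mul_sum]
  have h1 : ∑ w ∈ range (V + 1), tm (cnv A B) n t G w
      = ∑ i ∈ range (V + 1), ∑ j ∈ range (V + 1 - i), tm A n t G i * tm B n t G j := by
    rw [← Finset.sum_range_diag_flip (V + 1) (fun i j => tm A n t G i * tm B n t G j)]
    exact Finset.sum_congr rfl fun w _ => tm_cnv A B n t G w
  rw [h1, ← Finset.sum_sub_distrib]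
  refine Finset.sum_congr rfl fun i _ => ?_
  rw [Finset.sum_Ico_eq_sub _ (by omega : V + 1 - i ≤ V + 1)]

end EvmAux

open EvmAux in
theorem evm_proof (hE : Stmt_Evb) : Stmt_Evm := by
  intro σ M W K ε ε2 hP A B hA hB V hV
  choose CA hCA using hE.2.2.2 σ M W K ε ε2 hP A hA
  choose CB hCB using hE.2.2.2 σ M W K ε ε2 hP B hB
  refine ⟨∑ i ∈ range (V + 1), ∑ j ∈ Ico (V + 1 - i) (V + 1), |CA i| * |CB j|, ?_⟩
  intro n d hn hD G hG
  have hn1 : (1 : ℝ) ≤ n := by exact_mod_cast hn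
  have hn0 : (0 : ℝ) < n := by linarith
  rw [diff_eq, Finset.sum_mul]
  refine (norm_sum_le _ _).trans (Finset.sum_le_sum fun i hi => ?_)
  rw [Finset.sum_mul]
  refine (norm_sum_le _ _).trans (Finset.sum_le_sum fun j hj => ?_)
  rw [Finset.mem_range] at hi
  rw [Finset.mem_Ico] at hj
  have h1 : ‖tm A n (tt n d) G i‖ ≤ |CA i| * (n : ℝ) ^ (-(σ * i / 2)) :=
    (hCA i n d hn hD G hG).trans (mul_le_mul_of_nonneg_right (le_abs_self _)
      (Real.rpow_nonneg hn0.le _))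
  have h2 : ‖tm B n (tt n d) G j‖ ≤ |CB j| * (n : ℝ) ^ (-(σ * j / 2)) :=
    (hCB j n d hn hD G hG).trans (mul_le_mul_of_nonneg_right (le_abs_self _)
      (Real.rpow_nonneg hn0.le _))
  have h3 : (n : ℝ) ^ (-(σ * i / 2)) * (n : ℝ) ^ (-(σ * j / 2)) ≤ (n : ℝ) ^ (-(M + 6 : ℝ)) := by
    rw [← Real.rpow_add hn0]
    refine Real.rpow_le_rpow_of_exponent_le hn1 ?_
    have h4 : (W : ℝ) ≤ i + j := by
      have : W ≤ i + j := by omega
      exact_mod_cast this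
    have h5 := hP.hW
    have h6 := hP.s0
    nlinarith [mul_le_mul_of_nonneg_left h4 h6.le]
  rw [norm_mul]
  calc ‖tm A n (tt n d) G i‖ * ‖tm B n (tt n d) G j‖
      ≤ (|CA i| * (n : ℝ) ^ (-(σ * i / 2))) * (|CB j| * (n : ℝ) ^ (-(σ * j / 2))) :=
        mul_le_mul h1 h2 (norm_nonneg _)
          (mul_nonneg (abs_nonneg _) (Real.rpow_nonneg hn0.le _))
    _ = |CA i| * |CB j| * ((n : ℝ) ^ (-(σ * i / 2)) * (n : ℝ) ^ (-(σ * j / 2))) := by ring
    _ ≤ |CA i| * |CB j| * (n : ℝ) ^ (-(M + 6 : ℝ)) :=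
        mul_le_mul_of_nonneg_left h3 (mul_nonneg (abs_nonneg _) (abs_nonneg _))

end Pool.Agent.RGD
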