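import Pool.Agent.RGD.Stmts

/-!
EXACT: the number of regular graphs as a sum over the grid (MP_3a123b_co, dense range).
-/

set_option autoImplicit false

namespace Pool.Agent.RGD

open Finset Pool.Agent.RGA

namespace Exact

variable {n : ℕ}

/-- degree in a set of ordered pairs -/
def dA (A : Finset (Fin n × Fin n)) (j : Fin n) : ℕ :=
  (A.filter (fun p => p.1 = j ∨ p.2 = j)).card

theorem filter_pair {p : Fin n × Fin n} :
    (univ.filter (fun j : Fin n => p.1 = j ∨ p.2 = j)) = {p.1, p.2} := by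
  ext j
  simp only [mem_filter, mem_univ, true_and, mem_insert, mem_singleton]
  constructor
  · rintro (h | h)
    · exact Or.inl h.symm
    · exact Or.inr h.symm
  · rintro (h | h)
    · exact Or.inl h.symm
    · exact Or.inr h.symm

theorem prod_dA {R : Type} [CommMonoid R] {A : Finset (Fin n × Fin n)} (hA : A ⊆ prs (Fin n))
    (x : Fin n → R) : ∏ p ∈ A, (x p.1 * x p.2) = ∏ j, x j ^ dA A j := by
  have h1 : ∀ p ∈ A, x p.1 * x p.2 = ∏ j, (if p.1 = j ∨ p.2 = j then x j else 1) := by
    intro p hp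
    have hlt : p.1 < p.2 := (mem_filter.mp (hA hp)).2
    rw [← prod_filter, filter_pair, prod_pair hlt.ne]
  rw [prod_congr rfl h1, prod_comm]
  refine prod_congr rfl (fun j _ => ?_)
  rw [← prod_filter, prod_const, dA]

theorem sum_dA {A : Finset (Fin n × Fin n)} (hA : A ⊆ prs (Fin n)) :
    ∑ j, dA A j = 2 * A.card := by
  have h1 : ∀ p ∈ A, ∑ j : Fin n, (if p.1 = j ∨ p.2 = j then 1 else 0) = 2 := by
    intro p hp
    have hlt : p.1 < p.2 := (mem_filter.mp (hA hp)).2
    rw [← sum_filter, filter_pair, sum_pair hlt.ne]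
  have h2 : ∑ j, dA A j = ∑ p ∈ A, ∑ j : Fin n, (if p.1 = j ∨ p.2 = j then 1 else 0) := by
    rw [sum_comm]
    refine sum_congr rfl (fun j _ => ?_)
    rw [dA, card_filter]
  rw [h2, sum_congr rfl h1, sum_const, smul_eq_mul, mul_comm]

theorem dA_le (A : Finset (Fin n × Fin n)) (j : Fin n) : dA A j ≤ 2 * n := by
  have h : A.filter (fun p => p.1 = j ∨ p.2 = j) ⊆
      (univ.image (fun i : Fin n => (j, i))) ∪ (univ.image (fun i : Fin n => (i, j))) := by
    intro p hp
    rw [mem_filter] at hp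
    rcases hp.2 with h | h
    · refine mem_union_left _ (mem_image.mpr ⟨p.2, mem_univ _, ?_⟩)
      rw [← h]
    · refine mem_union_right _ (mem_image.mpr ⟨p.1, mem_univ _, ?_⟩)
      rw [← h]
  calc dA A j ≤ _ := card_le_card h
    _ ≤ _ := card_union_le _ _
    _ ≤ n + n := by
        refine Nat.add_le_add ?_ ?_
        · exact le_trans card_image_le (by simp)
        · exact le_trans card_image_le (by simp)
    _ = 2 * n := by ring

theorem card_prs : (prs (Fin n)).card = n.choose 2 := by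
  have hlt : ∀ a b : Fin n, (if a < b then 1 else 0) + (if b < a then 1 else 0)
      + (if a = b then 1 else 0) = (1 : ℕ) := by
    intro a b
    rcases lt_trichotomy a b with h | h | h
    · simp [h, h.not_gt, h.ne]
    · simp [h]
    · simp [h, h.not_gt, h.ne']
  have h1 : (prs (Fin n)).card = ∑ a : Fin n, ∑ b : Fin n, (if a < b then 1 else 0) := by
    rw [prs, card_filter, Fintype.sum_prod_type]
  have h2 : (prs (Fin n)).card = ∑ a : Fin n, ∑ b : Fin n, (if b < a then 1 else 0) := by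
    rw [h1, sum_comm]
  have h3 : 2 * (prs (Fin n)).card + n = n * n := by
    have h4 : ∑ a : Fin n, ∑ b : Fin n, (if a = b then 1 else 0) = n := by simp
    calc 2 * (prs (Fin n)).card + n
        = (∑ a : Fin n, ∑ b : Fin n, (if a < b then 1 else 0))
          + (∑ a : Fin n, ∑ b : Fin n, (if b < a then 1 else 0))
          + ∑ a : Fin n, ∑ b : Fin n, (if a = b then 1 else 0) := by
          rw [← h1, ← h2, h4]; ring
      _ = ∑ a : Fin n, ∑ b : Fin n, 1 := by
          rw [← sum_add_distrib, ← sum_add_distrib]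
          refine sum_congr rfl (fun a _ => ?_)
          rw [← sum_add_distrib, ← sum_add_distrib]
          exact sum_congr rfl (fun b _ => hlt a b)
      _ = n * n := by simp
  rw [Nat.choose_two_right]
  rcases Nat.eq_zero_or_pos n with h | h
  · subst h
    simp at h3 ⊢
    exact h3
  · obtain ⟨m, rfl⟩ : ∃ m, n = m + 1 := ⟨n - 1, by omega⟩
    have h5 : 2 * (prs (Fin (m + 1))).card = (m + 1) * (m + 1 - 1) := by
      rw [Nat.add_sub_cancel]
      nlinarith [h3]
    rw [← h5]
    simp

/-- the graph of a set of pairs -/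
def gph (A : Finset (Fin n × Fin n)) (hA : A ⊆ prs (Fin n)) : SimpleGraph (Fin n) where
  Adj i j := (i, j) ∈ A ∨ (j, i) ∈ A
  symm := ⟨fun i j h => h.symm⟩
  loopless := ⟨fun i h => by
    rcases h with h | h
    · exact absurd (mem_filter.mp (hA h)).2 (lt_irrefl _)
    · exact absurd (mem_filter.mp (hA h)).2 (lt_irrefl _)⟩

open Classical in
/-- the pairs of a graph -/
noncomputable def prG (G : SimpleGraph (Fin n)) : Finset (Fin n × Fin n) :=
  (prs (Fin n)).filter (fun p => G.Adj p.1 p.2)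

theorem prG_sub (G : SimpleGraph (Fin n)) : prG G ⊆ prs (Fin n) := by
  classical
  exact filter_subset _ _

theorem mem_prG {G : SimpleGraph (Fin n)} {p : Fin n × Fin n} :
    p ∈ prG G ↔ p.1 < p.2 ∧ G.Adj p.1 p.2 := by
  simp only [prG, prs, mem_filter, mem_univ, true_and]

theorem gph_prG (G : SimpleGraph (Fin n)) : gph (prG G) (prG_sub G) = G := by
  ext i j
  show ((i, j) ∈ prG G ∨ (j, i) ∈ prG G) ↔ _
  rw [mem_prG, mem_prG]
  constructor
  · rintro (h | h)
    · exact h.2
    · exact h.2.symm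
  · intro h
    rcases lt_trichotomy i j with h1 | h1 | h1
    · exact Or.inl ⟨h1, h⟩
    · exact absurd h1 h.ne
    · exact Or.inr ⟨h1, h.symm⟩

theorem prG_gph (A : Finset (Fin n × Fin n)) (hA : A ⊆ prs (Fin n)) : prG (gph A hA) = A := by
  ext p
  rw [mem_prG]
  show (p.1 < p.2 ∧ ((p.1, p.2) ∈ A ∨ (p.2, p.1) ∈ A)) ↔ _
  constructor
  · rintro ⟨h1, h2 | h2⟩
    · exact h2
    · exact absurd (mem_filter.mp (hA h2)).2 (not_lt.mpr h1.le)
  · intro h
    exact ⟨(mem_filter.mp (hA h)).2, Or.inl h⟩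

theorem ncard_neighbor (G : SimpleGraph (Fin n)) (v : Fin n) :
    (G.neighborSet v).ncard = dA (prG G) v := by
  classical
  have h : G.neighborSet v =
      ((((prG G).filter (fun p => p.1 = v ∨ p.2 = v)).image
        (fun p => if p.1 = v then p.2 else p.1) : Finset (Fin n)) : Set (Fin n)) := by
    ext w
    rw [SimpleGraph.mem_neighborSet, coe_image, Set.mem_image]
    constructor
    · intro hw
      rcases lt_trichotomy v w with h1 | h1 | h1
      · refine ⟨(v, w), ?_, by simp⟩
        rw [mem_coe, mem_filter, mem_prG]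
        exact ⟨⟨h1, hw⟩, Or.inl rfl⟩
      · exact absurd h1 hw.ne
      · refine ⟨(w, v), ?_, ?_⟩
        · rw [mem_coe, mem_filter, mem_prG]
          exact ⟨⟨h1, hw.symm⟩, Or.inr rfl⟩
        · simp [h1.ne]
    · rintro ⟨p, hp, hpw⟩
      rw [mem_coe, mem_filter, mem_prG] at hp
      obtain ⟨⟨h1, h2⟩, h3⟩ := hp
      by_cases h4 : p.1 = v
      · rw [if_pos h4] at hpw
        rw [← hpw, ← h4]
        exact h2
      · rw [if_neg h4] at hpw
        have h5 : p.2 = v := h3.resolve_left h4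
        rw [← hpw, ← h5]
        exact h2.symm
  rw [h, Set.ncard_coe_finset, dA, card_image_of_injOn]
  intro p hp p' hp' hpp
  rw [mem_coe, mem_filter, mem_prG] at hp hp'
  obtain ⟨⟨h1, h2⟩, h3⟩ := hp
  obtain ⟨⟨h1', h2'⟩, h3'⟩ := hp'
  simp only at hpp
  by_cases h4 : p.1 = v
  · by_cases h4' : p'.1 = v
    · rw [if_pos h4, if_pos h4'] at hpp
      exact Prod.ext (h4.trans h4'.symm) hpp
    · rw [if_pos h4, if_neg h4'] at hpp
      have h5 : p'.2 = v := h3'.resolve_left h4'
      exfalso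
      rw [h4, hpp] at h1
      rw [h5] at h1'
      exact lt_asymm h1 h1'
  · have h5 : p.2 = v := h3.resolve_left h4
    by_cases h4' : p'.1 = v
    · rw [if_neg h4, if_pos h4'] at hpp
      exfalso
      rw [hpp, h5] at h1
      rw [h4'] at h1'
      exact lt_asymm h1 h1'
    · rw [if_neg h4, if_neg h4'] at hpp
      have h5' : p'.2 = v := h3'.resolve_left h4'
      exact Prod.ext hpp (h5.trans h5'.symm)

theorem RG_eq (n d : ℕ) :
    RG n d = ((prs (Fin n)).powerset.filter (fun A => ∀ j, dA A j = d)).card := by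
  classical
  have e : {G : SimpleGraph (Fin n) // ∀ v, (G.neighborSet v).ncard = d} ≃
      {A // A ∈ (prs (Fin n)).powerset.filter (fun A => ∀ j, dA A j = d)} :=
    { toFun := fun G => ⟨prG G.1, by
        rw [mem_filter, mem_powerset]
        exact ⟨prG_sub _, fun j => by rw [← ncard_neighbor]; exact G.2 j⟩⟩
      invFun := fun A => ⟨gph A.1 (mem_powerset.mp (mem_filter.mp A.2).1), by
        intro v
        rw [ncard_neighbor, prG_gph]
        exact (mem_filter.mp A.2).2 v⟩
      left_inv := fun G => Subtype.ext (gph_prG G.1)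
      right_inv := fun A =>
        Subtype.ext (prG_gph A.1 (mem_powerset.mp (mem_filter.mp A.2).1)) }
  rw [RG, Nat.card_congr e, Nat.card_eq_fintype_card, Fintype.card_coe]

theorem site_sum (hEeb : Stmt_Eeb) {n d m : ℕ} (h1 : 1 ≤ d) (h2 : 2 * d ≤ n - 1)
    (hb : bb n d ≠ 0) (hm : m ≤ 2 * n) :
    ∑ k : Fin (2 * n), ee n k ^ m * (1 / (ee n k ^ d * ((2 * n * bb n d : ℝ) : ℂ))) =
      if m = d then 1 / (bb n d : ℂ) else 0 := by
  have hn : 1 ≤ n := by omega
  have hn0 : (n : ℂ) ≠ 0 := by exact_mod_cast (by omega : n ≠ 0)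
  have hbc : (bb n d : ℂ) ≠ 0 := by exact_mod_cast hb
  have hee : ∀ k, ee n k ≠ 0 := fun k => by
    have := (hEeb.1 n k).1
    intro h
    rw [h, norm_zero] at this
    exact zero_ne_one this
  have h3 : ∀ k : Fin (2 * n), ee n k ^ m * (1 / (ee n k ^ d * ((2 * n * bb n d : ℝ) : ℂ))) =
      ee n k ^ ((m : ℤ) - d) * (1 / ((2 * n * bb n d : ℝ) : ℂ)) := by
    intro k
    rw [zpow_sub₀ (hee k), zpow_natCast, zpow_natCast]
    have := pow_ne_zero d (hee k)
    field_simp
  rw [sum_congr rfl (fun k _ => h3 k), ← sum_mul, hEeb.2 n _ hn]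
  by_cases h : m = d
  · subst h
    rw [if_pos rfl, sub_self, if_pos (dvd_zero _)]
    push_cast
    field_simp
  · rw [if_neg h, if_neg, zero_mul]
    rintro ⟨c, hc⟩
    have hd : (d : ℤ) < 2 * n := by omega
    have hm' : (m : ℤ) ≤ 2 * n := by exact_mod_cast hm
    have hd1 : (1 : ℤ) ≤ d := by exact_mod_cast h1
    have hn' : (1 : ℤ) ≤ n := by exact_mod_cast hn
    have hc0 : c = 0 := by
      have hlt : 2 * (n : ℤ) * c < 2 * n * 1 := by rw [← hc]; linarith
      have hgt : 2 * (n : ℤ) * (-1) < 2 * n * c := by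
        rw [← hc]
        have : (0 : ℤ) ≤ m := Int.natCast_nonneg m
        linarith
      have a1 := lt_of_mul_lt_mul_left hlt (by linarith)
      have a2 := lt_of_mul_lt_mul_left hgt (by linarith)
      omega
    rw [hc0, mul_zero] at hc
    apply h
    have : (m : ℤ) = d := by linarith
    exact_mod_cast this

end Exact

open Exact in
theorem exact_proof (hEeb : Stmt_Eeb) (hUid : Stmt_Uid) : Stmt_Exact := by
  intro n d h1 h2
  obtain ⟨⟨hl0, hl1, -, -, -, -, -, -, hb⟩, -⟩ := hUid n d h1 h2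
  have hb0 : bb n d ≠ 0 := hb.ne'
  have hbc : (bb n d : ℂ) ≠ 0 := by exact_mod_cast hb0
  set l : ℝ := lam n d with hl
  set q : ℕ := (prs (Fin n)).card with hq
  -- the sum over all sets of pairs
  have key : ZZ n d = ∑ A ∈ (prs (Fin n)).powerset.filter (fun A => ∀ j, dA A j = d),
      (l : ℂ) ^ A.card * (1 - (l : ℂ)) ^ (q - A.card) * (1 / (bb n d : ℂ)) ^ n := by
    have e1 : ∀ k : Fin n → Fin (2 * n), FF n d k = ∑ A ∈ (prs (Fin n)).powerset,
        (l : ℂ) ^ A.card * (1 - (l : ℂ)) ^ (q - A.card) *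
          ∏ j, (ee n (k j) ^ dA A j * (1 / (ee n (k j) ^ d * ((2 * n * bb n d : ℝ) : ℂ)))) := by
      intro k
      have e2 : ∏ p ∈ prs (Fin n), (1 + (lam n d : ℂ) * (ee n (k p.1) * ee n (k p.2) - 1)) =
          ∏ p ∈ prs (Fin n), ((l : ℂ) * (ee n (k p.1) * ee n (k p.2)) + (1 - (l : ℂ))) := by
        refine prod_congr rfl (fun p _ => ?_)
        rw [← hl]; ring
      rw [FF, e2, prod_add, sum_mul]
      refine sum_congr rfl (fun A hA => ?_)
      have hA' := mem_powerset.mp hA
      rw [prod_mul_distrib, prod_const, prod_const, card_sdiff_of_subset hA',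
        prod_dA hA' (fun j => ee n (k j)), prod_mul_distrib]
      ring
    rw [ZZ, sum_congr rfl (fun k _ => e1 k), sum_comm, sum_filter]
    refine sum_congr rfl (fun A _ => ?_)
    rw [← mul_sum]
    have e3 : ∑ k : Fin n → Fin (2 * n), ∏ j, (ee n (k j) ^ dA A j *
        (1 / (ee n (k j) ^ d * ((2 * n * bb n d : ℝ) : ℂ)))) =
        ∏ j : Fin n, ∑ i : Fin (2 * n), (ee n i ^ dA A j *
          (1 / (ee n i ^ d * ((2 * n * bb n d : ℝ) : ℂ)))) := by
      rw [prod_univ_sum, Fintype.piFinset_univ]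
    rw [e3, prod_congr rfl (fun j _ => site_sum hEeb h1 h2 hb0 (dA_le A j))]
    by_cases h : ∀ j, dA A j = d
    · rw [if_pos h, prod_congr rfl (fun j _ => if_pos (h j)), prod_const, card_univ,
        Fintype.card_fin]
    · rw [if_neg h]
      push Not at h
      obtain ⟨j, hj⟩ := h
      rw [prod_eq_zero (mem_univ j) (if_neg hj), mul_zero]
  -- every term equals `√2 / B`
  have term : ∀ A ∈ (prs (Fin n)).powerset.filter (fun A => ∀ j, dA A j = d),
      (l : ℂ) ^ A.card * (1 - (l : ℂ)) ^ (q - A.card) * (1 / (bb n d : ℂ)) ^ n =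
        ((1 / (Bnd n d / Real.sqrt 2) : ℝ) : ℂ) := by
    intro A hA
    rw [mem_filter, mem_powerset] at hA
    obtain ⟨hA1, hA2⟩ := hA
    have hs : n * d = 2 * A.card := by
      rw [← sum_dA hA1, sum_congr rfl (fun j _ => hA2 j)]
      simp
    have hqn : q = n.choose 2 := card_prs
    have hq2 : 2 * q = n * (n - 1) := by
      rw [hqn, Nat.choose_two_right]
      exact Nat.mul_div_cancel' (Nat.even_mul_pred_self n).two_dvd
    have hAq : A.card ≤ q := card_le_card hA1
    have hl1' : 0 < 1 - l := by linarith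
    have hn1 : (1 : ℝ) < n := by exact_mod_cast (by omega : 1 < n)
    have x1 : l * (n.choose 2 : ℝ) = (A.card : ℝ) := by
      have c1 : (n * d : ℝ) = 2 * A.card := by exact_mod_cast hs
      have c2 : 2 * (n.choose 2 : ℝ) = n * ((n : ℝ) - 1) := by
        rw [← hqn]
        have : ((2 * q : ℕ) : ℝ) = ((n * (n - 1) : ℕ) : ℝ) := by exact_mod_cast hq2
        rw [Nat.cast_mul, Nat.cast_mul, Nat.cast_sub (by omega)] at this
        simpa using this
      have c3 : (n : ℝ) - 1 ≠ 0 := by linarith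
      have c4 : (n.choose 2 : ℝ) = n * ((n : ℝ) - 1) / 2 := by linarith
      rw [hl, lam, c4]
      field_simp
      linarith
    have x2 : (1 - l) * (n.choose 2 : ℝ) = ((q - A.card : ℕ) : ℝ) := by
      rw [sub_mul, x1, one_mul, Nat.cast_sub hAq, hqn]
    have x3 : Bnd n d / Real.sqrt 2 =
        ((n - 1).choose d : ℝ) ^ n * l ^ A.card * (1 - l) ^ (q - A.card) := by
      rw [Bnd, ← hl, x1, x2, Real.rpow_natCast, Real.rpow_natCast]
      have : Real.sqrt 2 ≠ 0 := by positivity
      field_simp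
    have x4 : bb n d ^ n = ((n - 1).choose d : ℝ) ^ n * l ^ (2 * A.card)
        * (1 - l) ^ (2 * (q - A.card)) := by
      rw [bb, ← hl, mul_pow, mul_pow, ← pow_mul, ← pow_mul]
      have y1 : d * n = 2 * A.card := by rw [← hs, mul_comm]
      have y2 : (n - 1 - d) * n = 2 * (q - A.card) := by
        rw [Nat.mul_sub, hq2, ← hs, Nat.sub_mul, mul_comm (n - 1) n, mul_comm d n]
      rw [y1, y2]
    have hch : ((n - 1).choose d : ℝ) ≠ 0 := by
      exact_mod_cast (Nat.choose_pos (by omega : d ≤ n - 1)).ne'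
    have real : l ^ A.card * (1 - l) ^ (q - A.card) * (1 / bb n d) ^ n =
        1 / (Bnd n d / Real.sqrt 2) := by
      rw [x3, one_div, inv_pow, x4]
      have z1 : l ^ A.card ≠ 0 := pow_ne_zero _ hl0.ne'
      have z2 : (1 - l) ^ (q - A.card) ≠ 0 := pow_ne_zero _ hl1'.ne'
      have z3 : ((n - 1).choose d : ℝ) ^ n ≠ 0 := pow_ne_zero _ hch
      rw [mul_comm 2 A.card, pow_mul, mul_comm 2 (q - A.card), pow_mul]
      field_simp
    rw [← real]
    push_cast
    rfl
  rw [key, sum_congr rfl term, sum_const, ← RG_eq, nsmul_eq_mul]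
  push_cast
  ring
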