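import Pool.Agent.RGD.Stmts

/-!
Module FEW: only the two boxes matter.
-/

set_option autoImplicit false

namespace Pool.Agent.RGD

open Finset Pool.Agent.RGA MeasureTheory

namespace FewX

open Filter Topology

theorem small (ε A δ : ℝ) (hε : 0 < ε) (hδ : 0 < δ) :
    ∃ n₀ : ℕ, ∀ n : ℕ, n₀ ≤ n → (n : ℝ) ^ A * Real.exp (-(n : ℝ) ^ ε) ≤ δ := by
  have h1 := tendsto_rpow_mul_exp_neg_mul_atTop_nhds_zero (A / ε) 1 one_pos
  have h2 : Tendsto (fun n : ℕ => (n : ℝ) ^ ε) atTop atTop :=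
    (tendsto_rpow_atTop hε).comp tendsto_natCast_atTop_atTop
  have h3 := h1.comp h2
  have h4 := (tendsto_order.1 h3).2 δ hδ
  obtain ⟨n₀, hn₀⟩ := eventually_atTop.1 h4
  refine ⟨n₀, fun n hn => ?_⟩
  have h5 := hn₀ n hn
  simp only [Function.comp_apply] at h5
  rw [← Real.rpow_mul (Nat.cast_nonneg n), mul_div_cancel₀ _ hε.ne'] at h5
  have h6 : -1 * (n : ℝ) ^ ε = -(n : ℝ) ^ ε := by ring
  rw [h6] at h5
  exact h5.le

theorem mem_outt_iff {n d : ℕ} {ε : ℝ} (k : Fin (2 * n)) : k ∈ outt n d ε ↔ ¬ k ∈ inn n d ε := by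
  rw [outt, inn, mem_filter, mem_filter]
  simp only [mem_univ, true_and, not_le]

theorem sum_pow_card (n : ℕ) (x : ℝ) :
    ∑ S : Finset (Fin n), x ^ S.card = (1 + x) ^ n := by
  have h := Fintype.sum_pow_mul_eq_add_pow (Fin n) x (1 : ℝ)
  simp only [one_pow, mul_one, Fintype.card_fin] at h
  rw [h, add_comm]

end FewX

open FewX

theorem few_proof (hEeb : Stmt_Eeb) (hInb : Stmt_Inb) (hShift : Stmt_Shift) (hRest : Stmt_Rest)
    (hFewc : Stmt_Fewc) (hFewh : Stmt_Fewh) : Stmt_Few := by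
  intro σ M W K ε ε2 hP
  obtain ⟨c₁, hc₁, hF1⟩ := hFewc σ ε hP.s0 hP.e0 hP.e1
  obtain ⟨c₂, hc₂, hF2⟩ := hFewh σ M W K ε ε2 hP
  set c : ℝ := min (min c₁ c₂) (1 / 2) with hc
  have hc0 : 0 < c := lt_min (lt_min hc₁ hc₂) (by norm_num)
  have hcc1 : c ≤ c₁ := (min_le_left _ _).trans (min_le_left _ _)
  have hcc2 : c ≤ c₂ := (min_le_left _ _).trans (min_le_right _ _)
  have hcc3 : c ≤ 1 / 2 := min_le_right _ _
  obtain ⟨n1, hn1⟩ := hF1 c hc0 hcc1
  obtain ⟨n2, hn2⟩ := hF2 c hc0 hcc2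
  obtain ⟨n3, hn3⟩ := hRest σ ε c hP.s0 hP.e0 hc0
  obtain ⟨n4, hn4⟩ := hInb σ M W K ε ε2 hP
  obtain ⟨n5, hn5⟩ := small ε ((M : ℝ) + 1) (1 / 8) hP.e0 (by norm_num)
  obtain ⟨n6, hn6⟩ := small 1 (M : ℝ) (1 / 2) one_pos (by norm_num)
  refine ⟨n1 + n2 + n3 + n4 + n5 + n6 + 1, fun n d hn hD => ?_⟩
  have hn1 := hn1 n d (by omega) hD
  have hn2 := hn2 n d (by omega) hD
  have hn3 := hn3 n d (by omega) hD
  have hn4 := hn4 n d (by omega) hD
  have hn5 := hn5 n (by omega)
  have hn6 := hn6 n (by omega)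
  have hnpos : 0 < n := by omega
  have hnR : (1 : ℝ) ≤ n := by exact_mod_cast hnpos
  have hshf : ∀ k : Fin (2 * n), shf n (shf n k) = k := fun k => (hEeb.1 n k).2.2.2.2.2.2
  -- the sets
  set sc : (Fin n → Fin (2 * n)) → (Fin n → Fin (2 * n)) := fun k j => shf n (k j) with hsc
  have hscsc : ∀ k, sc (sc k) = k := fun k => funext fun j => hshf (k j)
  have hFs : ∀ k, FF n d (sc k) = FF n d k := fun k => hShift n d k hD.2.2.1
  set A : Finset (Fin n → Fin (2 * n)) :=
    univ.filter (fun k => ((Sout n d ε k).card : ℝ) < c * n) with hA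
  set A' : Finset (Fin n → Fin (2 * n)) :=
    univ.filter (fun k => ((Sout n d ε (sc k)).card : ℝ) < c * n) with hA'
  set Rs : Finset (Fin n → Fin (2 * n)) :=
    univ.filter (fun k => c * n ≤ ((Sout n d ε k).card : ℝ) ∧
      c * n ≤ ((Sout n d ε (sc k)).card : ℝ)) with hRs
  have hdisj : Disjoint A A' := by
    rw [Finset.disjoint_filter]
    intro k _ h1 h2
    have h3 : (univ : Finset (Fin n)) ⊆ Sout n d ε k ∪ Sout n d ε (sc k) := by
      intro j _
      rw [mem_union]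
      by_cases hj : k j ∈ inn n d ε
      · right
        rw [Sout, mem_filter]
        exact ⟨mem_univ _, (mem_outt_iff _).2 (hn4 _ hj).2.2.2.2⟩
      · left
        rw [Sout, mem_filter]
        exact ⟨mem_univ _, (mem_outt_iff _).2 hj⟩
    have h4 := (card_le_card h3).trans (card_union_le _ _)
    rw [card_univ, Fintype.card_fin] at h4
    have h5 : (n : ℝ) ≤ (Sout n d ε k).card + (Sout n d ε (sc k)).card := by exact_mod_cast h4
    have h6 : c * (n : ℝ) ≤ 1 / 2 * n := mul_le_mul_of_nonneg_right hcc3 (by linarith)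
    linarith
  have hdisj2 : Disjoint (A ∪ A') Rs := by
    rw [Finset.disjoint_left]
    intro k h1 h2
    rw [mem_union, hA, hA', mem_filter, mem_filter] at h1
    rw [hRs, mem_filter] at h2
    rcases h1 with h | h
    · exact absurd h2.2.1 (not_le.2 h.2)
    · exact absurd h2.2.2 (not_le.2 h.2)
  have huniv : (univ : Finset (Fin n → Fin (2 * n))) = (A ∪ A') ∪ Rs := by
    ext k
    simp only [mem_univ, true_iff, mem_union, hA, hA', hRs, mem_filter, true_and]
    by_cases h1 : ((Sout n d ε k).card : ℝ) < c * n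
    · exact Or.inl (Or.inl h1)
    · by_cases h2 : ((Sout n d ε (sc k)).card : ℝ) < c * n
      · exact Or.inl (Or.inr h2)
      · exact Or.inr ⟨not_lt.1 h1, not_lt.1 h2⟩
  have hZZ : ZZ n d = (∑ k ∈ A, FF n d k + ∑ k ∈ A', FF n d k) + ∑ k ∈ Rs, FF n d k := by
    rw [ZZ, huniv, Finset.sum_union hdisj2, Finset.sum_union hdisj]
  have hA'A : ∑ k ∈ A', FF n d k = ∑ k ∈ A, FF n d k := by
    refine Finset.sum_bij' (fun k _ => sc k) (fun k _ => sc k) ?_ ?_ ?_ ?_ ?_
    · intro k hk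
      rw [hA', mem_filter] at hk
      rw [hA, mem_filter]
      exact ⟨mem_univ _, hk.2⟩
    · intro k hk
      rw [hA, mem_filter] at hk
      rw [hA', mem_filter]
      refine ⟨mem_univ _, ?_⟩
      rw [hscsc]
      exact hk.2
    · intro k _
      exact hscsc k
    · intro k _
      exact hscsc k
    · intro k _
      exact (hFs k).symm
  have hRs' : ‖∑ k ∈ Rs, FF n d k‖ ≤ Real.exp (-(n : ℝ)) :=
    (norm_sum_le _ _).trans hn3
  -- the sum over `A`
  set x : ℝ := Real.exp (-(n : ℝ) ^ ε) with hx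
  have hx0 : 0 < x := Real.exp_pos _
  set 𝒮 : Finset (Finset (Fin n)) := univ.filter (fun S => (S.card : ℝ) < c * n) with h𝒮
  have hAS : ∑ k ∈ A, FF n d k = ∑ S ∈ 𝒮, ∑ k ∈ univ.filter (fun k => Sout n d ε k = S),
      FF n d k := by
    have h1 : ∀ S ∈ 𝒮, ∑ k ∈ univ.filter (fun k => Sout n d ε k = S), FF n d k =
        ∑ k ∈ A.filter (fun k => Sout n d ε k = S), FF n d k := by
      intro S hS
      refine Finset.sum_congr ?_ fun _ _ => rfl
      rw [h𝒮, mem_filter] at hS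
      ext k
      simp only [mem_filter, mem_univ, true_and, hA]
      constructor
      · intro h
        rw [h]
        exact ⟨hS.2, rfl⟩
      · exact fun h => h.2
    rw [Finset.sum_congr rfl h1]
    refine (Finset.sum_fiberwise_of_maps_to (fun k hk => ?_) _).symm
    rw [hA, mem_filter] at hk
    rw [h𝒮, mem_filter]
    exact ⟨mem_univ _, hk.2⟩
  have hempty : ∅ ∈ 𝒮 := by
    rw [h𝒮, mem_filter]
    refine ⟨mem_univ _, ?_⟩
    rw [card_empty, Nat.cast_zero]
    positivity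
  have hbox : ∑ k ∈ univ.filter (fun k => Sout n d ε k = ∅), FF n d k = Zb n d ε := by
    rw [Zb]
    refine Finset.sum_congr ?_ fun _ _ => rfl
    ext k
    rw [mem_filter, Fintype.mem_piFinset]
    constructor
    · intro h j
      by_contra hc
      have h1 : j ∈ Sout n d ε k := by
        rw [Sout, mem_filter]
        exact ⟨mem_univ _, (mem_outt_iff _).2 hc⟩
      rw [h.2] at h1
      exact absurd h1 (Finset.notMem_empty j)
    · intro h
      refine ⟨mem_univ _, ?_⟩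
      rw [Finset.eq_empty_iff_forall_notMem]
      intro j hj
      rw [Sout, mem_filter] at hj
      exact (mem_outt_iff _).1 hj.2 (h j)
  have hAZ : ‖∑ k ∈ A, FF n d k - Zb n d ε‖ ≤ (1 + x) ^ n - 1 := by
    rw [hAS, ← Finset.add_sum_erase _ _ hempty, hbox, add_sub_cancel_left]
    refine (norm_sum_le _ _).trans ?_
    have h1 : ∀ S ∈ 𝒮.erase ∅, ‖∑ k ∈ univ.filter (fun k => Sout n d ε k = S), FF n d k‖ ≤
        x ^ S.card := by
      intro S hS
      rw [mem_erase, h𝒮, mem_filter] at hS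
      obtain ⟨hS0, -, hSc⟩ := hS
      have hne : S.Nonempty := Finset.nonempty_iff_ne_empty.2 hS0
      have e1 := hn1 S hne hSc.le
      have e2 := hn2 S hne hSc.le
      have h2 : univ.filter (fun k : Fin n → Fin (2 * n) => Sout n d ε k = S) =
          univ.filter (fun k => Sout n d ε k = S ∧ 1 / 8 ≤ Lam n d * ∑ j ∈ S, ss n (k j)) ∪
          univ.filter (fun k => Sout n d ε k = S ∧ Lam n d * ∑ j ∈ S, ss n (k j) < 1 / 8) := by
        ext k
        simp only [mem_filter, mem_univ, true_and, mem_union]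
        constructor
        · intro h
          rcases le_or_gt (1 / 8) (Lam n d * ∑ j ∈ S, ss n (k j)) with h' | h'
          · exact Or.inl ⟨h, h'⟩
          · exact Or.inr ⟨h, h'⟩
        · rintro (h | h)
          · exact h.1
          · exact h.1
      have h3 : Disjoint
          (univ.filter (fun k : Fin n → Fin (2 * n) => Sout n d ε k = S ∧
            1 / 8 ≤ Lam n d * ∑ j ∈ S, ss n (k j)))
          (univ.filter (fun k => Sout n d ε k = S ∧ Lam n d * ∑ j ∈ S, ss n (k j) < 1 / 8)) := by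
        rw [Finset.disjoint_filter]
        intro k _ h h'
        exact absurd h.2 (not_le.2 h'.2)
      rw [h2, Finset.sum_union h3]
      have h4 : x ^ S.card = Real.exp (-(S.card * (n : ℝ) ^ ε)) := by
        rw [hx, ← Real.exp_nat_mul]
        congr 1
        ring
      rw [h4]
      calc _ ≤ _ := norm_add_le _ _
        _ ≤ Real.exp (-(S.card * (n : ℝ) ^ ε)) / 2 + Real.exp (-(S.card * (n : ℝ) ^ ε)) / 2 :=
            add_le_add ((norm_sum_le _ _).trans e1) e2
        _ = _ := add_halves _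
    refine (Finset.sum_le_sum h1).trans ?_
    have h5 : ∑ S ∈ 𝒮.erase ∅, x ^ S.card ≤ ∑ S ∈ (univ : Finset (Finset (Fin n))).erase ∅,
        x ^ S.card :=
      Finset.sum_le_sum_of_subset_of_nonneg (Finset.erase_subset_erase _ (Finset.subset_univ _))
        fun _ _ _ => by positivity
    refine h5.trans ?_
    have h6 := Finset.add_sum_erase (univ : Finset (Finset (Fin n)))
      (fun S => x ^ S.card) (mem_univ ∅)
    rw [sum_pow_card, card_empty, pow_zero] at h6
    linarith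
  -- estimates
  have hMpos : 0 < (n : ℝ) ^ (M : ℝ) := by positivity
  have hinv : (n : ℝ) ^ (-(M : ℝ)) = ((n : ℝ) ^ (M : ℝ))⁻¹ := Real.rpow_neg (by linarith) _
  have hM1 : 1 ≤ (n : ℝ) ^ (M : ℝ) := Real.one_le_rpow hnR (by positivity)
  have hnx : n * x ≤ 1 / 8 * (n : ℝ) ^ (-(M : ℝ)) := by
    rw [hinv, ← div_eq_mul_inv, le_div_iff₀ hMpos]
    rw [Real.rpow_add (by linarith), Real.rpow_one] at hn5
    calc (n : ℝ) * x * (n : ℝ) ^ (M : ℝ) = (n : ℝ) ^ (M : ℝ) * n * x := by ring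
      _ ≤ 1 / 8 := hn5
  have hnx1 : (n : ℝ) * x ≤ 1 := by
    have h7 : (n : ℝ) ^ (-(M : ℝ)) ≤ 1 := by
      rw [hinv]
      exact inv_le_one_of_one_le₀ hM1
    linarith
  have hexpn : Real.exp (-(n : ℝ)) ≤ 1 / 2 * (n : ℝ) ^ (-(M : ℝ)) := by
    rw [hinv, ← div_eq_mul_inv, le_div_iff₀ hMpos, mul_comm]
    rw [Real.rpow_one] at hn6
    exact hn6
  have hpow : (1 + x) ^ n - 1 ≤ 2 * (n * x) := by
    have h8 : (1 + x) ^ n ≤ Real.exp (n * x) := by
      calc (1 + x) ^ n ≤ (Real.exp x) ^ n := by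
            apply pow_le_pow_left₀ (by positivity)
            linarith [Real.add_one_le_exp x]
        _ = Real.exp (n * x) := by rw [← Real.exp_nat_mul]
    have h9 : |(n : ℝ) * x| ≤ 1 := by
      rw [abs_of_nonneg (by positivity)]
      exact hnx1
    have h10 := Real.abs_exp_sub_one_le h9
    rw [abs_of_nonneg (a := (n : ℝ) * x) (by positivity)] at h10
    have h11 := le_abs_self (Real.exp (n * x) - 1)
    linarith
  have hfin : ZZ n d - 2 * Zb n d ε = 2 * (∑ k ∈ A, FF n d k - Zb n d ε) + ∑ k ∈ Rs, FF n d k := by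
    rw [hZZ, hA'A]
    ring
  rw [hfin]
  calc ‖2 * (∑ k ∈ A, FF n d k - Zb n d ε) + ∑ k ∈ Rs, FF n d k‖
      ≤ ‖2 * (∑ k ∈ A, FF n d k - Zb n d ε)‖ + ‖∑ k ∈ Rs, FF n d k‖ := norm_add_le _ _
    _ ≤ 2 * ((1 + x) ^ n - 1) + Real.exp (-(n : ℝ)) := by
        refine add_le_add ?_ hRs'
        rw [norm_mul, Complex.norm_ofNat]
        exact mul_le_mul_of_nonneg_left hAZ (by norm_num)
    _ ≤ (n : ℝ) ^ (-(M : ℝ)) := by linarith

end Pool.Agent.RGD
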