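import Pool.Agent.RGD.Stmts

/-!
FEWC: configurations with few outer sites but large `Λ ∑ s` are negligible (MP_3a123b_co).
-/

set_option autoImplicit false

namespace Pool.Agent.RGD

open Finset Pool.Agent.RGA Filter

namespace Fewc

/-- crude bound of the summand -/
lemma norm_FF_le (hEeb : Stmt_Eeb) (hUid : Stmt_Uid) (hCr : Stmt_Cr) (n d : ℕ) (hd : 1 ≤ d)
    (h2d : 2 * d ≤ n - 1) (k : Fin n → Fin (2 * n)) :
    ‖FF n d k‖ ≤ Real.exp (-(Lam n d * ∑ p ∈ prs (Fin n), (1 - (ee n (k p.1) * ee n (k p.2)).re)))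
      * (1 / (2 * n * bb n d)) ^ n := by
  obtain ⟨⟨hl0, hl1, hL0, hL1, -, -, -, -, hb⟩, -⟩ := hUid n d hd h2d
  have hn : 0 < n := by omega
  have hB : 0 < 2 * (n : ℝ) * bb n d := by positivity
  unfold FF
  rw [norm_mul, norm_prod, norm_prod]
  have h1 : ∏ j : Fin n, ‖(1 : ℂ) / (ee n (k j) ^ d * ((2 * n * bb n d : ℝ) : ℂ))‖
      = (1 / (2 * n * bb n d)) ^ n := by
    have : ∀ j : Fin n, ‖(1 : ℂ) / (ee n (k j) ^ d * ((2 * n * bb n d : ℝ) : ℂ))‖
        = 1 / (2 * n * bb n d) := by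
      intro j
      rw [norm_div, norm_mul, norm_pow, (hEeb.1 n (k j)).1, one_pow, one_mul, norm_one,
        Complex.norm_real, Real.norm_of_nonneg hB.le]
    rw [Finset.prod_congr rfl (fun j _ => this j), Finset.prod_const, Finset.card_univ,
      Fintype.card_fin]
  rw [h1]
  refine mul_le_mul_of_nonneg_right ?_ (by positivity)
  have h2 : ∀ p ∈ prs (Fin n), ‖1 + (lam n d : ℂ) * (ee n (k p.1) * ee n (k p.2) - 1)‖
      ≤ Real.exp (-(Lam n d * (1 - (ee n (k p.1) * ee n (k p.2)).re))) := by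
    intro p _
    have := hCr.2 (lam n d) (ee n (k p.1) * ee n (k p.2)) hl0.le (by linarith)
      (by rw [norm_mul, (hEeb.1 n (k p.1)).1, (hEeb.1 n (k p.2)).1, one_mul])
    simpa [Lam] using this
  refine (Finset.prod_le_prod (fun _ _ => norm_nonneg _) h2).trans ?_
  rw [← Real.exp_sum]
  apply le_of_eq
  congr 1
  rw [Finset.mul_sum, ← Finset.sum_neg_distrib]

/-- product bound on configurations with few outer sites -/
lemma norm_FF_le_prod (hEeb : Stmt_Eeb) (hUid : Stmt_Uid) (hCr : Stmt_Cr) (n d : ℕ) (hd : 1 ≤ d)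
    (h2d : 2 * d ≤ n - 1) (c : ℝ) (hcn : 4 ≤ c * n) (k : Fin n → Fin (2 * n))
    (hs : ∑ j, ss n (k j) ≤ 3 * c * n) :
    ‖FF n d k‖ ≤ ∏ j, wt n d (1 - 2 * c) (k j) := by
  obtain ⟨⟨hl0, hl1, hL0, hL1, -, -, -, -, hb⟩, -⟩ := hUid n d hd h2d
  have hn : 0 < n := by omega
  have hnr : (0 : ℝ) < n := by exact_mod_cast hn
  have hB : 0 < 2 * (n : ℝ) * bb n d := by positivity
  refine (norm_FF_le hEeb hUid hCr n d hd h2d k).trans ?_
  have h1 : ∏ j, wt n d (1 - 2 * c) (k j)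
      = Real.exp (-((1 - 2 * c) * yy n d * ∑ j, ss n (k j))) * (1 / (2 * n * bb n d)) ^ n := by
    have h2 : ∀ j : Fin n, wt n d (1 - 2 * c) (k j)
        = Real.exp (-((1 - 2 * c) * yy n d * ss n (k j))) * (1 / (2 * n * bb n d)) := by
      intro j
      rw [wt]; ring
    rw [Finset.prod_congr rfl (fun j _ => h2 j), Finset.prod_mul_distrib, ← Real.exp_sum,
      Finset.prod_const, Finset.card_univ, Fintype.card_fin, Finset.sum_neg_distrib,
      ← Finset.mul_sum]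
  rw [h1]
  refine mul_le_mul_of_nonneg_right (Real.exp_le_exp.mpr (neg_le_neg ?_)) (by positivity)
  have h3 := (hCr.1 (Fin n) (fun j => ee n (k j)) (fun j => (hEeb.1 n (k j)).1)).2 (3 * c)
    (by rw [Fintype.card_fin]; exact hs)
  rw [Fintype.card_fin] at h3
  have h4 : ((1 - 3 * c / 2) * (n : ℝ) - 2) * ∑ j, ss n (k j)
      ≤ ∑ p ∈ prs (Fin n), (1 - (ee n (k p.1) * ee n (k p.2)).re) := h3
  have h5 : 0 ≤ ∑ j, ss n (k j) := Finset.sum_nonneg (fun j _ => (hEeb.1 n (k j)).2.1)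
  have h6 : (1 - 2 * c) * (n : ℝ) ≤ (1 - 3 * c / 2) * (n : ℝ) - 2 := by nlinarith
  calc (1 - 2 * c) * yy n d * ∑ j, ss n (k j)
      = Lam n d * (((1 - 2 * c) * n) * ∑ j, ss n (k j)) := by rw [yy]; ring
    _ ≤ Lam n d * (((1 - 3 * c / 2) * (n : ℝ) - 2) * ∑ j, ss n (k j)) :=
        mul_le_mul_of_nonneg_left (mul_le_mul_of_nonneg_right h6 h5) hL0.le
    _ ≤ _ := mul_le_mul_of_nonneg_left h4 hL0.le

/-- `∑ s` is small when there are few outer sites -/
lemma sum_ss_le (hEeb : Stmt_Eeb) (hUid : Stmt_Uid) (n d : ℕ) (σ ε c : ℝ)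
    (hdom : Dom σ n d) (hn2 : (n : ℝ) ^ (-1 + 2 * ε) ≤ 2 * c * (n : ℝ) ^ (σ - 1))
    (hc : 0 < c) (k : Fin n → Fin (2 * n)) (S : Finset (Fin n)) (hS : Sout n d ε k = S)
    (hcard : (S.card : ℝ) ≤ c * n) :
    ∑ j, ss n (k j) ≤ 3 * c * n := by
  obtain ⟨hd, h2d, -, hy⟩ := hdom
  obtain ⟨⟨hl0, hl1, hL0, hL1, -, -, -, -, hb⟩, -⟩ := hUid n d hd h2d
  have hn : 0 < n := by omega
  have hnr : (0 : ℝ) < n := by exact_mod_cast hn
  have hL : (n : ℝ) ^ (σ - 1) ≤ Lam n d := by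
    rw [Real.rpow_sub hnr, Real.rpow_one, div_le_iff₀ hnr]
    exact hy
  have h1 : ∀ j ∈ (univ : Finset (Fin n)) \ S, ss n (k j) ≤ c := by
    intro j hj
    have hj' : j ∉ Sout n d ε k := by
      rw [hS]; exact (Finset.mem_sdiff.mp hj).2
    have h2 : ¬ ((n : ℝ) ^ (-1 + 2 * ε) < 2 * Lam n d * ss n (k j)) := by
      intro h
      exact hj' (by simp [Sout, outt, h])
    push Not at h2
    have h3 : 2 * Lam n d * ss n (k j) ≤ 2 * Lam n d * c := by
      calc 2 * Lam n d * ss n (k j) ≤ (n : ℝ) ^ (-1 + 2 * ε) := h2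
        _ ≤ 2 * c * (n : ℝ) ^ (σ - 1) := hn2
        _ ≤ 2 * c * Lam n d := mul_le_mul_of_nonneg_left hL (by positivity)
        _ = 2 * Lam n d * c := by ring
    exact le_of_mul_le_mul_left h3 (by positivity)
  have h4 : ∑ j ∈ (univ : Finset (Fin n)) \ S, ss n (k j) ≤ n * c := by
    calc ∑ j ∈ (univ : Finset (Fin n)) \ S, ss n (k j)
        ≤ ∑ j ∈ (univ : Finset (Fin n)) \ S, c := Finset.sum_le_sum h1
      _ = (((univ : Finset (Fin n)) \ S).card : ℝ) * c := by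
          rw [Finset.sum_const, nsmul_eq_mul]
      _ ≤ n * c := by
          refine mul_le_mul_of_nonneg_right ?_ hc.le
          have := Finset.card_le_univ ((univ : Finset (Fin n)) \ S)
          rw [Fintype.card_fin] at this
          exact_mod_cast this
  have h5 : ∑ j ∈ S, ss n (k j) ≤ 2 * (c * n) := by
    calc ∑ j ∈ S, ss n (k j) ≤ ∑ j ∈ S, (2 : ℝ) :=
          Finset.sum_le_sum (fun j _ => (hEeb.1 n (k j)).2.2.1)
      _ = (S.card : ℝ) * 2 := by rw [Finset.sum_const, nsmul_eq_mul]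
      _ ≤ 2 * (c * n) := by linarith
  have h6 : ∑ j, ss n (k j) = ∑ j ∈ (univ : Finset (Fin n)) \ S, ss n (k j)
      + ∑ j ∈ S, ss n (k j) := (Finset.sum_sdiff (Finset.subset_univ S)).symm
  rw [h6]
  linarith

/-- trading the weight on the outer sites -/
lemma prod_wt_le (n d : ℕ) (c : ℝ) (hc8 : c ≤ 1 / 8) (hb : 0 < bb n d) (hn : 0 < n)
    (k : Fin n → Fin (2 * n)) (S : Finset (Fin n))
    (hlow : 1 / 8 ≤ Lam n d * ∑ j ∈ S, ss n (k j)) :
    ∏ j ∈ S, wt n d (1 - 2 * c) (k j)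
      ≤ Real.exp (-((n : ℝ) / 16)) * ∏ j ∈ S, wt n d (1 / 4) (k j) := by
  have hnr : (0 : ℝ) < n := by exact_mod_cast hn
  have hB : 0 < 2 * (n : ℝ) * bb n d := by positivity
  have h1 : ∀ a : ℝ, ∏ j ∈ S, wt n d a (k j)
      = Real.exp (-(a * yy n d * ∑ j ∈ S, ss n (k j))) * (1 / (2 * n * bb n d)) ^ S.card := by
    intro a
    have h2 : ∀ j ∈ S, wt n d a (k j)
        = Real.exp (-(a * yy n d * ss n (k j))) * (1 / (2 * n * bb n d)) := by
      intro j _
      rw [wt]; ring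
    rw [Finset.prod_congr rfl h2, Finset.prod_mul_distrib, ← Real.exp_sum,
      Finset.prod_const, Finset.sum_neg_distrib, ← Finset.mul_sum]
  rw [h1, h1, ← mul_assoc, ← Real.exp_add]
  refine mul_le_mul_of_nonneg_right (Real.exp_le_exp.mpr ?_) (by positivity)
  have h3 : (n : ℝ) / 8 ≤ yy n d * ∑ j ∈ S, ss n (k j) := by
    rw [yy]
    nlinarith [mul_le_mul_of_nonneg_left hlow hnr.le]
  have h4 : (1 - 2 * c) * yy n d * ∑ j ∈ S, ss n (k j)
      = 1 / 4 * yy n d * (∑ j ∈ S, ss n (k j))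
        + (3 / 4 - 2 * c) * (yy n d * ∑ j ∈ S, ss n (k j)) := by ring
  rw [h4]
  have h5 : (n : ℝ) / 16 ≤ (3 / 4 - 2 * c) * (yy n d * ∑ j ∈ S, ss n (k j)) := by
    have h6 : (1 : ℝ) / 2 * ((n : ℝ) / 8) ≤ (3 / 4 - 2 * c) * (yy n d * ∑ j ∈ S, ss n (k j)) :=
      mul_le_mul (by linarith) h3 (by positivity) (by linarith)
    linarith
  linarith

lemma sum_piFinset (n : ℕ) (S : Finset (Fin n)) (O : Finset (Fin (2 * n)))
    (f g : Fin (2 * n) → ℝ) :
    ∑ k ∈ Fintype.piFinset (fun j : Fin n => if j ∈ S then O else univ),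
      ((∏ j ∈ S, f (k j)) * ∏ j ∈ univ \ S, g (k j))
      = (∑ x ∈ O, f x) ^ S.card * (∑ x, g x) ^ (univ \ S).card := by
  classical
  have h1 : ∀ k : Fin n → Fin (2 * n),
      (∏ j ∈ S, f (k j)) * ∏ j ∈ univ \ S, g (k j)
        = ∏ j, (if j ∈ S then f (k j) else g (k j)) := by
    intro k
    rw [← Finset.prod_sdiff (Finset.subset_univ S)
      (f := fun j => if j ∈ S then f (k j) else g (k j)), mul_comm]
    congr 1
    · refine Finset.prod_congr rfl (fun j hj => ?_)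
      rw [if_neg (Finset.mem_sdiff.mp hj).2]
    · refine Finset.prod_congr rfl (fun j hj => ?_)
      rw [if_pos hj]
  rw [Finset.sum_congr rfl (fun k _ => h1 k),
    ← Finset.prod_univ_sum (fun j : Fin n => if j ∈ S then O else univ)
      (fun j x => if j ∈ S then f x else g x),
    ← Finset.prod_sdiff (Finset.subset_univ S), mul_comm]
  congr 1
  · rw [Finset.prod_congr rfl (g := fun _ => ∑ x ∈ O, f x), Finset.prod_const]
    intro j hj
    simp [hj]
  · rw [Finset.prod_congr rfl (g := fun _ => ∑ x, g x), Finset.prod_const]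
    intro j hj
    simp [(Finset.mem_sdiff.mp hj).2]

end Fewc

open Fewc in
/-- module `FEWC` -/
theorem fewc_proof (hEeb : Stmt_Eeb) (hUid : Stmt_Uid) (hTail : Stmt_Tail) (hSharp : Stmt_Sharp)
    (hCr : Stmt_Cr) : Stmt_Fewc := by
  classical
  intro σ ε hσ hε hεσ
  obtain ⟨C₀, hC₀⟩ := hSharp
  refine ⟨min (1 / 8) (1 / (64 * (|C₀| + 1))), by positivity, ?_⟩
  intro c hc hcc
  have hc8 : c ≤ 1 / 8 := hcc.trans (min_le_left _ _)
  have hcC : 2 * |C₀| * c ≤ 1 / 32 := by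
    have h1 : c ≤ 1 / (64 * (|C₀| + 1)) := hcc.trans (min_le_right _ _)
    have h2 : 0 < 64 * (|C₀| + 1) := by positivity
    rw [le_div_iff₀ h2] at h1
    nlinarith [abs_nonneg C₀]
  obtain ⟨n₁, hn₁⟩ := hC₀ σ (2 * c) hσ (by positivity) (by linarith)
  obtain ⟨n₂, hn₂⟩ := hTail ε 0 hε
  have hlim : ∀ᶠ n : ℕ in atTop, (n : ℝ) ^ (-(6 * ε)) < 2 * c := by
    have h1 : Tendsto (fun n : ℕ => (n : ℝ) ^ (-(6 * ε))) atTop (nhds 0) :=
      (tendsto_rpow_neg_atTop (by positivity)).comp tendsto_natCast_atTop_atTop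
    exact h1.eventually (gt_mem_nhds (by positivity))
  obtain ⟨n₃, hn₃⟩ := Filter.eventually_atTop.mp hlim
  obtain ⟨n₄, hn₄⟩ := exists_nat_ge (4 / c)
  refine ⟨max (max n₁ n₂) (max n₃ (max n₄ 32)), ?_⟩
  intro n d hn hdom S hSne hScard
  have hn1 : n₁ ≤ n := le_trans (le_trans (le_max_left _ _) (le_max_left _ _)) hn
  have hn2 : n₂ ≤ n := le_trans (le_trans (le_max_right _ _) (le_max_left _ _)) hn
  have hn3 : n₃ ≤ n := le_trans (le_trans (le_max_left _ _) (le_max_right _ _)) hn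
  have hn4 : n₄ ≤ n := le_trans (le_trans (le_trans (le_max_left _ _) (le_max_right _ _))
    (le_max_right _ _)) hn
  have hn5 : 32 ≤ n := le_trans (le_trans (le_trans (le_max_right _ _) (le_max_right _ _))
    (le_max_right _ _)) hn
  have hnpos : 0 < n := by omega
  have hnr : (0 : ℝ) < n := by exact_mod_cast hnpos
  obtain ⟨hd, h2d, hev, hy⟩ := id hdom
  obtain ⟨⟨hl0, hl1, hL0, hL1, -, -, -, -, hb⟩, -⟩ := hUid n d hd h2d
  have hB : 0 < 2 * (n : ℝ) * bb n d := by positivity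
  have hwt : ∀ (a : ℝ) (x : Fin (2 * n)), 0 ≤ wt n d a x := fun a x => by
    rw [wt]; positivity
  have hcn : 4 ≤ c * n := by
    have h1 : 4 / c ≤ n := hn₄.trans (by exact_mod_cast hn4)
    rw [div_le_iff₀ hc] at h1
    linarith
  have hpow : (n : ℝ) ^ (-1 + 2 * ε) ≤ 2 * c * (n : ℝ) ^ (σ - 1) := by
    have h1 := (hn₃ n hn3).le
    have h2 : (n : ℝ) ^ (-1 + 2 * ε) = (n : ℝ) ^ (2 * ε - σ) * (n : ℝ) ^ (σ - 1) := by
      rw [← Real.rpow_add hnr]; congr 1; ring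
    rw [h2]
    refine mul_le_mul_of_nonneg_right (le_trans ?_ h1) (by positivity)
    exact Real.rpow_le_rpow_of_exponent_le (by exact_mod_cast hnpos) (by linarith)
  -- termwise bound
  have hterm : ∀ k ∈ univ.filter (fun k : Fin n → Fin (2 * n) => Sout n d ε k = S ∧
      1 / 8 ≤ Lam n d * ∑ j ∈ S, ss n (k j)),
      ‖FF n d k‖ ≤ Real.exp (-((n : ℝ) / 16)) * ((∏ j ∈ S, wt n d (1 / 4) (k j))
        * ∏ j ∈ univ \ S, wt n d (1 - 2 * c) (k j)) := by
    intro k hk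
    obtain ⟨hkS, hlow⟩ := (Finset.mem_filter.mp hk).2
    refine (norm_FF_le_prod hEeb hUid hCr n d hd h2d c hcn k
      (sum_ss_le hEeb hUid n d σ ε c hdom hpow hc k S hkS hScard)).trans ?_
    rw [← Finset.prod_sdiff (Finset.subset_univ S), mul_comm, ← mul_assoc]
    exact mul_le_mul_of_nonneg_right (prod_wt_le n d c hc8 hb hnpos k S hlow)
      (Finset.prod_nonneg (fun j _ => hwt _ _))
  have hsub : univ.filter (fun k : Fin n → Fin (2 * n) => Sout n d ε k = S ∧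
      1 / 8 ≤ Lam n d * ∑ j ∈ S, ss n (k j))
      ⊆ Fintype.piFinset (fun j : Fin n => if j ∈ S then outt n d ε else univ) := by
    intro k hk
    obtain ⟨hkS, -⟩ := (Finset.mem_filter.mp hk).2
    rw [Fintype.mem_piFinset]
    intro j
    by_cases hj : j ∈ S
    · rw [if_pos hj]
      rw [← hkS] at hj
      exact (Finset.mem_filter.mp hj).2
    · rw [if_neg hj]; exact Finset.mem_univ _
  have htail : ∑ x ∈ outt n d ε, wt n d (1 / 4) x ≤ Real.exp (-(n : ℝ) ^ ε) :=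
    (hn₂ n d hn2 hd h2d).2
  have hsharp : ∑ x, wt n d (1 - 2 * c) x ≤ Real.exp (2 * |C₀| * c) := by
    refine (hn₁ n d hn1 hdom).trans ?_
    refine le_trans ?_ (Real.add_one_le_exp _)
    nlinarith [le_abs_self C₀]
  have hs1 : (∑ x ∈ outt n d ε, wt n d (1 / 4) x) ^ S.card
      ≤ Real.exp (-(S.card * (n : ℝ) ^ ε)) := by
    refine (pow_le_pow_left₀ (Finset.sum_nonneg (fun x _ => hwt _ _)) htail S.card).trans ?_
    rw [← Real.exp_nat_mul]
    apply le_of_eq; congr 1; ring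
  have hs2 : (∑ x, wt n d (1 - 2 * c) x) ^ (univ \ S).card
      ≤ Real.exp (1 / 32 * n) := by
    refine (pow_le_pow_left₀ (Finset.sum_nonneg (fun x _ => hwt _ _)) hsharp _).trans ?_
    rw [← Real.exp_nat_mul]
    refine Real.exp_le_exp.mpr ?_
    have h1 : ((univ \ S).card : ℝ) ≤ n := by
      have := Finset.card_le_univ ((univ : Finset (Fin n)) \ S)
      rw [Fintype.card_fin] at this
      exact_mod_cast this
    have h2 : 0 ≤ 2 * |C₀| * c := by positivity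
    calc ((univ \ S).card : ℝ) * (2 * |C₀| * c) ≤ n * (1 / 32) :=
          mul_le_mul h1 hcC h2 hnr.le
      _ = 1 / 32 * n := by ring
  calc ∑ k ∈ univ.filter (fun k : Fin n → Fin (2 * n) => Sout n d ε k = S ∧
        1 / 8 ≤ Lam n d * ∑ j ∈ S, ss n (k j)), ‖FF n d k‖
      ≤ ∑ k ∈ univ.filter (fun k : Fin n → Fin (2 * n) => Sout n d ε k = S ∧
        1 / 8 ≤ Lam n d * ∑ j ∈ S, ss n (k j)),
          Real.exp (-((n : ℝ) / 16)) * ((∏ j ∈ S, wt n d (1 / 4) (k j))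
            * ∏ j ∈ univ \ S, wt n d (1 - 2 * c) (k j)) := Finset.sum_le_sum hterm
    _ ≤ ∑ k ∈ Fintype.piFinset (fun j : Fin n => if j ∈ S then outt n d ε else univ),
          Real.exp (-((n : ℝ) / 16)) * ((∏ j ∈ S, wt n d (1 / 4) (k j))
            * ∏ j ∈ univ \ S, wt n d (1 - 2 * c) (k j)) := by
        refine Finset.sum_le_sum_of_subset_of_nonneg hsub (fun k _ _ => ?_)
        exact mul_nonneg (Real.exp_pos _).le (mul_nonneg
          (Finset.prod_nonneg (fun j _ => hwt _ _)) (Finset.prod_nonneg (fun j _ => hwt _ _)))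
    _ = Real.exp (-((n : ℝ) / 16)) * ((∑ x ∈ outt n d ε, wt n d (1 / 4) x) ^ S.card
          * (∑ x, wt n d (1 - 2 * c) x) ^ (univ \ S).card) := by
        rw [← Finset.mul_sum, sum_piFinset]
    _ ≤ Real.exp (-((n : ℝ) / 16)) * (Real.exp (-(S.card * (n : ℝ) ^ ε))
          * Real.exp (1 / 32 * n)) := by
        refine mul_le_mul_of_nonneg_left (mul_le_mul hs1 hs2 ?_ (Real.exp_pos _).le)
          (Real.exp_pos _).le
        exact pow_nonneg (Finset.sum_nonneg (fun x _ => hwt _ _)) _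
    _ = Real.exp (-(S.card * (n : ℝ) ^ ε)) * Real.exp (-((n : ℝ) / 32)) := by
        rw [← Real.exp_add, ← Real.exp_add, ← Real.exp_add]; congr 1; ring
    _ ≤ Real.exp (-(S.card * (n : ℝ) ^ ε)) * (1 / 2) := by
        refine mul_le_mul_of_nonneg_left ?_ (Real.exp_pos _).le
        have h1 : Real.exp (-((n : ℝ) / 32)) ≤ Real.exp (-1) := by
          refine Real.exp_le_exp.mpr ?_
          have : (32 : ℝ) ≤ n := by exact_mod_cast hn5
          linarith
        refine h1.trans ?_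
        rw [Real.exp_neg]
        have h2 : (2 : ℝ) ≤ Real.exp 1 := by
          have := Real.add_one_le_exp (1 : ℝ); linarith
        rw [one_div]
        exact inv_anti₀ (by norm_num) h2
    _ = Real.exp (-(S.card * (n : ℝ) ^ ε)) / 2 := by ring

end Pool.Agent.RGD
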