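import Pool.Agent.RGD.Stmts

/-!
# FEWH: few outer sites with small `Λ ∑ s`
-/

set_option autoImplicit false

namespace Pool.Agent.RGD

open Finset Pool.Agent.RGA

namespace FewhX

theorem wt_half (n d : ℕ) (ε : ℝ) (hn : 1 ≤ n) (hb : 0 < bb n d) (k : Fin (2 * n))
    (hk : k ∈ outt n d ε) :
    wt n d (1 / 2) k ≤ Real.exp (-((n : ℝ) ^ (2 * ε) / 8)) * wt n d (1 / 4) k := by
  have hn0 : (0 : ℝ) < n := by exact_mod_cast hn
  have h1 : (n : ℝ) ^ (-1 + 2 * ε) < 2 * Lam n d * ss n k := (Finset.mem_filter.mp hk).2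
  have h2 : (n : ℝ) * (n : ℝ) ^ (-1 + 2 * ε) = (n : ℝ) ^ (2 * ε) := by
    rw [Real.rpow_add hn0, Real.rpow_neg_one, ← mul_assoc, mul_inv_cancel₀ hn0.ne', one_mul]
  have h3 : (n : ℝ) ^ (2 * ε) ≤ 2 * (yy n d * ss n k) := by
    rw [← h2, yy]
    have := mul_le_mul_of_nonneg_left h1.le hn0.le
    linarith
  unfold wt
  rw [← mul_div_assoc, ← Real.exp_add]
  apply div_le_div_of_nonneg_right _ (by positivity)
  apply Real.exp_le_exp.mpr
  nlinarith

theorem pair_le (hCr : Stmt_Cr) (hEeb : Stmt_Eeb) (n d : ℕ) (h0 : 0 ≤ lam n d)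
    (h1 : lam n d ≤ 1) (k l : Fin (2 * n)) :
    ‖1 + (lam n d : ℂ) * (ee n k * ee n l - 1)‖ ≤ 1 := by
  have hz : ‖ee n k * ee n l‖ = 1 := by
    rw [norm_mul, (hEeb.1 n k).1, (hEeb.1 n l).1, mul_one]
  refine (hCr.2 (lam n d) (ee n k * ee n l) h0 h1 hz).trans ?_
  rw [Real.exp_le_one_iff, neg_nonpos]
  have hre : (ee n k * ee n l).re ≤ 1 := by
    rw [← hz]
    exact Complex.re_le_norm _
  exact mul_nonneg (mul_nonneg h0 (by linarith)) (by linarith)

theorem qq_le (hCr : Stmt_Cr) (hEeb : Stmt_Eeb) (n d : ℕ) (h0 : 0 ≤ lam n d)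
    (h1 : lam n d ≤ 1) (k : Fin (2 * n)) :
    ‖qq n d k‖ ≤ Real.exp (-(Lam n d * ss n k)) :=
  hCr.2 (lam n d) (ee n k) h0 h1 (hEeb.1 n k).1

theorem FF_le (hCr : Stmt_Cr) (hEeb : Stmt_Eeb) (n d : ℕ) (h0 : 0 ≤ lam n d)
    (h1 : lam n d ≤ 1) (hb : 0 < bb n d) {ι : Type} [Fintype ι] [LinearOrder ι]
    (a : ι → Fin (2 * n)) :
    ‖FF n d a‖ ≤ ∏ _j : ι, (1 / (2 * n * bb n d) : ℝ) := by
  unfold FF
  rw [norm_mul, norm_prod, norm_prod]
  have e1 : ∏ p ∈ prs ι, ‖1 + (lam n d : ℂ) * (ee n (a p.1) * ee n (a p.2) - 1)‖ ≤ 1 :=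
    Finset.prod_le_one (fun _ _ => norm_nonneg _)
      (fun p _ => pair_le hCr hEeb n d h0 h1 (a p.1) (a p.2))
  have e2 : ∏ j : ι, ‖1 / (ee n (a j) ^ d * ((2 * n * bb n d : ℝ) : ℂ))‖ =
      ∏ _j : ι, (1 / (2 * n * bb n d) : ℝ) := by
    apply Finset.prod_congr rfl
    intro j _
    rw [norm_div, norm_one, norm_mul, norm_pow, (hEeb.1 n (a j)).1, one_pow, one_mul,
      Complex.norm_real, Real.norm_of_nonneg (by positivity)]
  rw [e2]
  have e3 : 0 ≤ ∏ _j : ι, (1 / (2 * n * bb n d) : ℝ) :=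
    Finset.prod_nonneg fun _ _ => by positivity
  calc _ ≤ 1 * ∏ _j : ι, (1 / (2 * n * bb n d) : ℝ) := mul_le_mul_of_nonneg_right e1 e3
    _ = _ := one_mul _

theorem wt_prod (n d : ℕ) {ι : Type} [Fintype ι] (a : ι → Fin (2 * n)) :
    ∏ j, wt n d (1 / 2) (a j) =
      (∏ _j : ι, (1 / (2 * n * bb n d) : ℝ)) *
        Real.exp (-(yy n d * ∑ j, ss n (a j)) / 2) := by
  have : ∀ j, wt n d (1 / 2) (a j) =
      (1 / (2 * n * bb n d) : ℝ) * Real.exp (-(1 / 2 * yy n d * ss n (a j))) := by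
    intro j
    unfold wt
    ring
  rw [Finset.prod_congr rfl (fun j _ => this j), Finset.prod_mul_distrib, ← Real.exp_sum]
  congr 2
  rw [Finset.mul_sum, ← Finset.sum_neg_distrib, Finset.sum_div]
  apply Finset.sum_congr rfl
  intro j _
  ring

/-- the inner sum with sources -/
theorem inner_eq (n d : ℕ) (ε : ℝ) {ι κ : Type} [Fintype ι] [LinearOrder ι] [Fintype κ]
    (a : κ → Fin (2 * n)) (hq : ∀ j, qq n d (a j) ≠ 0) :
    (∑ b ∈ Fintype.piFinset (fun _ : ι => inn n d ε),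
      (∏ l, kap n d (b l)) * (∏ l, ∏ j, (qq n d (a j) + vv n d (a j) * uu n d (b l)))
        * ∏ p ∈ prs ι, (1 + uu n d (b p.1) * uu n d (b p.2)))
    = (∏ j, qq n d (a j)) ^ Fintype.card ι * JJ n d ε ι (fun j => uu n d (a j)) := by
  unfold JJ
  rw [Finset.mul_sum]
  apply Finset.sum_congr rfl
  intro b _
  have e1 : ∀ l, ∏ j, (qq n d (a j) + vv n d (a j) * uu n d (b l)) =
      (∏ j, qq n d (a j)) * sf (fun j => uu n d (a j)) (uu n d (b l)) := by
    intro l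
    unfold sf
    rw [← Finset.prod_mul_distrib]
    apply Finset.prod_congr rfl
    intro j _
    have := hq j
    have h2 : uu n d (a j) = vv n d (a j) / qq n d (a j) := rfl
    show qq n d (a j) + vv n d (a j) * uu n d (b l)
      = qq n d (a j) * (1 + uu n d (a j) * uu n d (b l))
    rw [h2, mul_add, mul_one, ← mul_assoc, mul_div_cancel₀ _ this]
  rw [Finset.prod_congr rfl (fun l _ => e1 l), Finset.prod_mul_distrib, Finset.prod_mul_distrib,
    Finset.prod_const, Finset.card_univ]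
  ring

/-- bound of one term -/
theorem term_le (hCr : Stmt_Cr) (hEeb : Stmt_Eeb) (hUid : Stmt_Uid) (n d : ℕ) (hd : 1 ≤ d)
    (hd2 : 2 * d ≤ n - 1) (ε c C η : ℝ) (hC : 0 ≤ C) (hη : 0 < η) (hc : 0 < c) (hc1 : c ≤ 1 / 4)
    (hc2 : c ≤ η ^ 2) (hc3 : c * (16 * (C + 1)) ≤ 1)
    (hJ : ∀ (ι : Type) [Fintype ι] [LinearOrder ι],
      Fintype.card ι ≤ n → ∀ (τ : Type) [Fintype τ] (z : τ → ℂ), (∀ j, ‖z j‖ ≤ 1) →
      ∑ j, ‖z j‖ ≤ η * Real.sqrt n → ‖JJ n d ε ι z‖ ≤ C * Real.exp (C * (∑ j, ‖z j‖) ^ 2))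
    (S : Finset (Fin n)) (hS : (S.card : ℝ) ≤ c * n) (a : {j // j ∈ S} → Fin (2 * n))
    (ha : Lam n d * ∑ j, ss n (a j) < 1 / 8) :
    ‖FF n d a * ∑ b ∈ Fintype.piFinset (fun _ : {j // j ∉ S} => inn n d ε),
      (∏ l, kap n d (b l)) * (∏ l, ∏ j, (qq n d (a j) + vv n d (a j) * uu n d (b l)))
        * ∏ p ∈ prs {j // j ∉ S}, (1 + uu n d (b p.1) * uu n d (b p.2))‖
      ≤ C * ∏ j, wt n d (1 / 2) (a j) := by
  obtain ⟨⟨hl0, hl1, hL0, -, -, -, -, -, hb⟩, hqv, hu, -⟩ := hUid n d hd hd2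
  have hn : 1 ≤ n := by omega
  have hn0 : (0 : ℝ) < n := by exact_mod_cast hn
  have hs0 : ∀ j, 0 ≤ ss n (a j) := fun j => (hEeb.1 n (a j)).2.1
  set D : ℝ := Lam n d * ∑ j, ss n (a j) with hD
  have hD0 : 0 ≤ D := mul_nonneg hL0.le (Finset.sum_nonneg fun j _ => hs0 j)
  have hLs : ∀ j, Lam n d * ss n (a j) ≤ D := by
    intro j
    rw [hD]
    exact mul_le_mul_of_nonneg_left
      (Finset.single_le_sum (f := fun j => ss n (a j)) (fun i _ => hs0 i) (Finset.mem_univ j))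
      hL0.le
  have hq2 : ∀ j, 3 / 4 ≤ ‖qq n d (a j)‖ ^ 2 := by
    intro j
    rw [(hqv (a j)).1]
    have := hLs j
    nlinarith
  have hq : ∀ j, qq n d (a j) ≠ 0 := by
    intro j h
    have := hq2 j
    rw [h, norm_zero] at this
    norm_num at this
  have hz2 : ∀ j, ‖uu n d (a j)‖ ^ 2 ≤ 8 / 3 * (Lam n d * ss n (a j)) := by
    intro j
    rw [(hu (a j) (hq j)).1]
    have h1 := hLs j
    have h2 : 0 ≤ Lam n d * ss n (a j) := mul_nonneg hL0.le (hs0 j)
    rw [div_le_iff₀ (by nlinarith)]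
    nlinarith
  have hz1 : ∀ j, ‖uu n d (a j)‖ ≤ 1 := by
    intro j
    have h1 := hz2 j
    have h2 := hLs j
    have h3 : ‖uu n d (a j)‖ ^ 2 ≤ 1 ^ 2 := by linarith
    exact (pow_le_pow_iff_left₀ (norm_nonneg _) zero_le_one two_ne_zero).mp h3
  have hSL : (∑ j, ‖uu n d (a j)‖) ^ 2 ≤ S.card * (8 / 3 * D) := by
    have h1 := sq_sum_le_card_mul_sum_sq (s := (Finset.univ : Finset {j // j ∈ S}))
      (f := fun j => ‖uu n d (a j)‖)
    rw [Finset.card_univ, Fintype.card_coe] at h1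
    refine h1.trans ?_
    apply mul_le_mul_of_nonneg_left _ (Nat.cast_nonneg _)
    rw [hD, Finset.mul_sum, Finset.mul_sum]
    exact Finset.sum_le_sum fun j _ => hz2 j
  have hSL2 : (∑ j, ‖uu n d (a j)‖) ^ 2 ≤ c * n * (8 / 3 * D) :=
    hSL.trans (mul_le_mul_of_nonneg_right hS (by positivity))
  have hsum0 : 0 ≤ ∑ j, ‖uu n d (a j)‖ := Finset.sum_nonneg fun j _ => norm_nonneg _
  have hL : ∑ j, ‖uu n d (a j)‖ ≤ η * Real.sqrt n := by
    have h1 : (∑ j, ‖uu n d (a j)‖) ^ 2 ≤ (η * Real.sqrt n) ^ 2 := by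
      rw [mul_pow, Real.sq_sqrt hn0.le]
      refine hSL2.trans ?_
      have h2 : c * n * (8 / 3 * D) ≤ c * n := by
        have : 0 ≤ c * n := by positivity
        nlinarith
      exact h2.trans (mul_le_mul_of_nonneg_right hc2 hn0.le)
    exact (pow_le_pow_iff_left₀ hsum0 (by positivity) two_ne_zero).mp h1
  have hin : (∑ b ∈ Fintype.piFinset (fun _ : {j // j ∉ S} => inn n d ε),
      (∏ l, kap n d (b l)) * (∏ l, ∏ j, (qq n d (a j) + vv n d (a j) * uu n d (b l)))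
        * ∏ p ∈ prs {j // j ∉ S}, (1 + uu n d (b p.1) * uu n d (b p.2)))
    = (∏ j, qq n d (a j)) ^ Fintype.card {j // j ∉ S} *
      JJ n d ε {j // j ∉ S} (fun j => uu n d (a j)) := by
    refine Eq.trans ?_ (inner_eq n d ε a hq)
    refine Finset.sum_congr ?_ (fun _ _ => rfl)
    ext b
    simp only [Fintype.mem_piFinset]
  rw [hin, norm_mul, norm_mul, norm_pow, norm_prod]
  have hcard : Fintype.card {j // j ∉ S} = n - S.card := by
    rw [Fintype.card_subtype_compl, Fintype.card_fin, Fintype.card_coe]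
  have hJJ := hJ {j // j ∉ S} (by rw [hcard]; omega) {j // j ∈ S}
    (fun j => uu n d (a j)) hz1 hL
  have hSn : S.card ≤ n := by
    have := Finset.card_le_univ S
    simpa using this
  -- the exponent
  have hJ2 : ‖JJ n d ε {j // j ∉ S} (fun j => uu n d (a j))‖ ≤ C * Real.exp (n * D / 4) := by
    refine hJJ.trans (mul_le_mul_of_nonneg_left (Real.exp_le_exp.mpr ?_) hC)
    have h1 : C * (∑ j, ‖uu n d (a j)‖) ^ 2 ≤ C * (c * n * (8 / 3 * D)) :=
      mul_le_mul_of_nonneg_left hSL2 hC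
    refine h1.trans ?_
    have h2 : C * c ≤ 1 / 16 := by nlinarith
    have h3 : 0 ≤ n * D := by positivity
    calc C * (c * n * (8 / 3 * D)) = (C * c) * (8 / 3) * (n * D) := by ring
      _ ≤ (1 / 16) * (8 / 3) * (n * D) := by gcongr
      _ ≤ n * D / 4 := by nlinarith
  have hqp : (∏ j, ‖qq n d (a j)‖) ^ Fintype.card {j // j ∉ S} ≤
      Real.exp (-(3 / 4 * (n * D))) := by
    have h1 : ∏ j, ‖qq n d (a j)‖ ≤ Real.exp (-D) := by
      calc ∏ j, ‖qq n d (a j)‖ ≤ ∏ j, Real.exp (-(Lam n d * ss n (a j))) :=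
            Finset.prod_le_prod (fun _ _ => norm_nonneg _)
              (fun j _ => qq_le hCr hEeb n d hl0.le (by linarith) (a j))
        _ = Real.exp (-D) := by
            rw [← Real.exp_sum, Finset.sum_neg_distrib, hD, Finset.mul_sum]
    have h2 : (∏ j, ‖qq n d (a j)‖) ^ Fintype.card {j // j ∉ S} ≤
        Real.exp (-D) ^ Fintype.card {j // j ∉ S} :=
      pow_le_pow_left₀ (Finset.prod_nonneg fun _ _ => norm_nonneg _) h1 _
    refine h2.trans ?_
    rw [← Real.exp_nat_mul, hcard]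
    apply Real.exp_le_exp.mpr
    rw [Nat.cast_sub hSn]
    have h3 : (S.card : ℝ) ≤ n / 4 := by nlinarith
    nlinarith
  have hFF := FF_le hCr hEeb n d hl0.le (by linarith) hb a
  rw [wt_prod]
  have e0 : yy n d * ∑ j, ss n (a j) = n * D := by
    rw [yy, hD]
    ring
  rw [e0]
  have hP0 : 0 ≤ ∏ _j : {j // j ∈ S}, (1 / (2 * n * bb n d) : ℝ) :=
    Finset.prod_nonneg fun _ _ => by positivity
  calc ‖FF n d a‖ * ((∏ j, ‖qq n d (a j)‖) ^ Fintype.card {j // j ∉ S} *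
        ‖JJ n d ε {j // j ∉ S} (fun j => uu n d (a j))‖)
      ≤ (∏ _j : {j // j ∈ S}, (1 / (2 * n * bb n d) : ℝ)) *
        (Real.exp (-(3 / 4 * (n * D))) * (C * Real.exp (n * D / 4))) := by
          apply mul_le_mul hFF _ (by positivity) hP0
          exact mul_le_mul hqp hJ2 (norm_nonneg _) (Real.exp_pos _).le
    _ = C * ((∏ _j : {j // j ∈ S}, (1 / (2 * n * bb n d) : ℝ)) *
        (Real.exp (-(3 / 4 * (n * D))) * Real.exp (n * D / 4))) := by ring
    _ = C * ((∏ _j : {j // j ∈ S}, (1 / (2 * n * bb n d) : ℝ)) *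
        Real.exp (-(n * D) / 2)) := by
          rw [← Real.exp_add]
          congr 3
          ring

end FewhX

open FewhX in
theorem fewh_proof (hEeb : Stmt_Eeb) (hUid : Stmt_Uid) (hInb : Stmt_Inb) (hTail : Stmt_Tail)
    (hHsb : Stmt_Hsb) (hSplit : Stmt_Split) (hCr : Stmt_Cr) : Stmt_Fewh := by
  intro σ M W K ε ε2 hP
  obtain ⟨η, C, n₁, hη, hC, hJ⟩ := hHsb σ M W K ε ε2 hP
  obtain ⟨n₂, hI⟩ := hInb σ M W K ε ε2 hP
  obtain ⟨n₃, hT⟩ := hTail ε 0 hP.e0
  have hc0 : 0 < min (1 / 4) (min (η ^ 2) (1 / (16 * (C + 1)))) := by positivity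
  refine ⟨min (1 / 4) (min (η ^ 2) (1 / (16 * (C + 1)))), hc0, ?_⟩
  intro c hc hcc
  have hc1 : c ≤ 1 / 4 := hcc.trans (min_le_left _ _)
  have hc2 : c ≤ η ^ 2 := hcc.trans ((min_le_right _ _).trans (min_le_left _ _))
  have hc3 : c * (16 * (C + 1)) ≤ 1 := by
    have h := hcc.trans ((min_le_right _ _).trans (min_le_right _ _))
    rwa [le_div_iff₀ (by positivity)] at h
  -- large n
  have hlim : Filter.Tendsto (fun n : ℕ => C * Real.exp (-((n : ℝ) ^ (2 * ε) / 8)))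
      Filter.atTop (nhds 0) := by
    have h1 : Filter.Tendsto (fun n : ℕ => (n : ℝ) ^ (2 * ε)) Filter.atTop Filter.atTop :=
      (tendsto_rpow_atTop (by have := hP.e0; linarith)).comp tendsto_natCast_atTop_atTop
    have h2 : Filter.Tendsto (fun n : ℕ => -((n : ℝ) ^ (2 * ε) / 8)) Filter.atTop
        Filter.atBot :=
      Filter.tendsto_neg_atTop_atBot.comp (h1.atTop_div_const (by norm_num))
    have h3 := (Real.tendsto_exp_atBot.comp h2).const_mul C
    simpa using h3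
  obtain ⟨n₄, h4⟩ := Filter.eventually_atTop.mp
    (hlim.eventually (ge_mem_nhds (show (0 : ℝ) < 1 / 2 by norm_num)))
  refine ⟨n₁ + n₂ + n₃ + n₄ + 1, ?_⟩
  intro n d hn hdom S hS0 hS
  have hd : 1 ≤ d := hdom.1
  have hd2 : 2 * d ≤ n - 1 := hdom.2.1
  have hn1 : 1 ≤ n := by omega
  have hJn := hJ n d (by omega) hdom
  have hIn := hI n d (by omega) hdom
  have hTn := (hT n d (by omega) hd hd2).2
  have h4n := h4 n (by omega)
  obtain ⟨⟨hl0, hl1, hL0, -, -, -, -, -, hb⟩, -, -, -⟩ := hUid n d hd hd2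
  have hn0 : (0 : ℝ) < n := by exact_mod_cast hn1
  -- the outer sum
  have hout : ∑ k ∈ outt n d ε, wt n d (1 / 2) k ≤
      Real.exp (-((n : ℝ) ^ (2 * ε) / 8)) * Real.exp (-(n : ℝ) ^ ε) := by
    calc ∑ k ∈ outt n d ε, wt n d (1 / 2) k
        ≤ ∑ k ∈ outt n d ε, Real.exp (-((n : ℝ) ^ (2 * ε) / 8)) * wt n d (1 / 4) k :=
          Finset.sum_le_sum fun k hk => wt_half n d ε hn1 hb k hk
      _ = Real.exp (-((n : ℝ) ^ (2 * ε) / 8)) * ∑ k ∈ outt n d ε, wt n d (1 / 4) k := by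
          rw [Finset.mul_sum]
      _ ≤ _ := mul_le_mul_of_nonneg_left hTn (Real.exp_pos _).le
  have hwt0 : ∀ k, 0 ≤ wt n d (1 / 2) k := by
    intro k
    unfold wt
    positivity
  -- the sum with the indicator
  classical
  let φ : ({j // j ∈ S} → Fin (2 * n)) → ℂ :=
    fun a => if Lam n d * ∑ j, ss n (a j) < 1 / 8 then 1 else 0
  have hsp := hSplit n d ε hd hd2 (fun k hk => (hIn k hk).1) S φ
  have e1 : ∑ k ∈ univ.filter (fun k : Fin n → Fin (2 * n) => Sout n d ε k = S ∧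
        Lam n d * ∑ j ∈ S, ss n (k j) < 1 / 8), FF n d k =
      ∑ k ∈ univ.filter (fun k : Fin n → Fin (2 * n) => Sout n d ε k = S),
        φ (fun j => k j.1) * FF n d k := by
    rw [← Finset.filter_filter, Finset.sum_filter]
    apply Finset.sum_congr rfl
    intro k _
    have e2 : ∑ j ∈ S, ss n (k j) = ∑ j : {j // j ∈ S}, ss n (k j.1) :=
      (Finset.sum_coe_sort S (fun j => ss n (k j))).symm
    simp only [φ, e2]
    split_ifs
    · rw [one_mul]
    · rw [zero_mul]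
  rw [e1, hsp]
  have hterm : ∀ a ∈ Fintype.piFinset (fun _ : {j // j ∈ S} => outt n d ε),
      ‖φ a * FF n d a *
            ∑ b ∈ Fintype.piFinset (fun _ : {j // j ∉ S} => inn n d ε),
              (∏ l, kap n d (b l)) * (∏ l, ∏ j, (qq n d (a j) + vv n d (a j) * uu n d (b l)))
                * ∏ p ∈ prs {j // j ∉ S}, (1 + uu n d (b p.1) * uu n d (b p.2))‖ ≤
        C * ∏ j, wt n d (1 / 2) (a j) := by
    intro a _
    by_cases ha : Lam n d * ∑ j, ss n (a j) < 1 / 8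
    · have : φ a = 1 := if_pos ha
      rw [this, one_mul]
      exact term_le hCr hEeb hUid n d hd hd2 ε c C η hC hη hc hc1 hc2 hc3 hJn S hS a ha
    · have : φ a = 0 := if_neg ha
      rw [this, zero_mul, zero_mul, norm_zero]
      exact mul_nonneg hC (Finset.prod_nonneg fun j _ => hwt0 _)
  have hcard : 1 ≤ S.card := hS0.card_pos
  calc _ ≤ ∑ a ∈ Fintype.piFinset (fun _ : {j // j ∈ S} => outt n d ε),
        C * ∏ j, wt n d (1 / 2) (a j) := norm_sum_le_of_le _ hterm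
    _ = C * (∑ k ∈ outt n d ε, wt n d (1 / 2) k) ^ S.card := by
        rw [← Finset.mul_sum]
        congr 1
        have := Finset.sum_prod_piFinset (outt n d ε)
          (fun (_ : {j // j ∈ S}) k => wt n d (1 / 2) k)
        rw [Finset.prod_const, Finset.card_univ, Fintype.card_coe] at this
        exact this
    _ ≤ C * (Real.exp (-((n : ℝ) ^ (2 * ε) / 8)) * Real.exp (-(n : ℝ) ^ ε)) ^ S.card :=
        mul_le_mul_of_nonneg_left (pow_le_pow_left₀
          (Finset.sum_nonneg fun k _ => hwt0 k) hout _) hC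
    _ = C * Real.exp (-((n : ℝ) ^ (2 * ε) / 8)) ^ S.card *
        Real.exp (-(S.card * (n : ℝ) ^ ε)) := by
        rw [mul_pow, ← Real.exp_nat_mul (-(n : ℝ) ^ ε)]
        rw [mul_assoc]
        congr 3
        ring
    _ ≤ C * Real.exp (-((n : ℝ) ^ (2 * ε) / 8)) * Real.exp (-(S.card * (n : ℝ) ^ ε)) := by
        apply mul_le_mul_of_nonneg_right _ (Real.exp_pos _).le
        apply mul_le_mul_of_nonneg_left _ hC
        calc Real.exp (-((n : ℝ) ^ (2 * ε) / 8)) ^ S.card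
            ≤ Real.exp (-((n : ℝ) ^ (2 * ε) / 8)) ^ 1 := by
              apply pow_le_pow_of_le_one (Real.exp_pos _).le _ hcard
              rw [Real.exp_le_one_iff, neg_nonpos]
              positivity
          _ = _ := pow_one _
    _ ≤ 1 / 2 * Real.exp (-(S.card * (n : ℝ) ^ ε)) :=
        mul_le_mul_of_nonneg_right h4n (Real.exp_pos _).le
    _ = Real.exp (-(S.card * (n : ℝ) ^ ε)) / 2 := by ring

end Pool.Agent.RGD
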