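import Pool.Agent.RGD.Stmts

/-!
FLOG: the formal logarithm and exponential recursions agree with the truncated power series.
-/

set_option autoImplicit false

namespace Pool.Agent.RGD

open Finset PowerSeries

section

variable {R : Type} [CommRing R] [Algebra ℚ R]

/-- rational constants as power series -/
noncomputable def flC : ℚ →+* PowerSeries R := (PowerSeries.C (R := R)).comp (algebraMap ℚ R)

theorem flC_der (c : ℚ) (f : PowerSeries R) :
    PowerSeries.derivative R (flC c * f) = flC c * PowerSeries.derivative R f := by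
  rw [Derivation.leibniz]
  have h : PowerSeries.derivative R (flC c : PowerSeries R) = 0 := by
    unfold flC
    exact PowerSeries.derivative_C
  rw [h, smul_zero, add_zero, smul_eq_mul]

theorem flC_coeff (c : ℚ) (f : PowerSeries R) (w : ℕ) :
    PowerSeries.coeff w (flC c * f) = c • PowerSeries.coeff w f := by
  unfold flC
  rw [RingHom.comp_apply, PowerSeries.coeff_C_mul, Algebra.smul_def]

/-- truncated logarithm -/
noncomputable def flL (F : PowerSeries R) (V : ℕ) : PowerSeries R :=
  ∑ q ∈ Icc 1 V, flC ((-1 : ℚ) ^ (q - 1) / q) * F ^ q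

/-- truncated exponential -/
noncomputable def flE (F : PowerSeries R) (V : ℕ) : PowerSeries R :=
  ∑ q ∈ range (V + 1), flC ((1 : ℚ) / q.factorial) * F ^ q

theorem flL_der (F : PowerSeries R) (V : ℕ) :
    (1 + F) * PowerSeries.derivative R (flL F V)
      = PowerSeries.derivative R F * (1 - (-F) ^ V) := by
  induction V with
  | zero => simp [flL]
  | succ V ih =>
    have h1 : flL F (V + 1) = flL F V + flC ((-1 : ℚ) ^ V / ((V + 1 : ℕ) : ℚ)) * F ^ (V + 1) := by
      unfold flL
      rw [Finset.sum_Icc_succ_top (by omega)]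
      simp
    have h2 : (flC ((-1 : ℚ) ^ V / ((V + 1 : ℕ) : ℚ)) : PowerSeries R) * ((V + 1 : ℕ) : PowerSeries R)
        = (-1) ^ V := by
      have h3 : ((V + 1 : ℕ) : PowerSeries R) = flC ((V + 1 : ℕ) : ℚ) := by
        rw [map_natCast]
      have h4 : ((-1) ^ V : PowerSeries R) = flC ((-1 : ℚ) ^ V) := by
        rw [map_pow, map_neg, map_one]
      rw [h3, h4, ← map_mul]
      congr 1
      have : ((V + 1 : ℕ) : ℚ) ≠ 0 := by positivity
      field_simp
    rw [h1, map_add, flC_der, PowerSeries.derivative_pow, mul_add, ih, Nat.add_sub_cancel]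
    have h5 : (flC ((-1 : ℚ) ^ V / ((V + 1 : ℕ) : ℚ)) : PowerSeries R) *
        (((V + 1 : ℕ) : PowerSeries R) * F ^ V * PowerSeries.derivative R F)
        = (-1) ^ V * F ^ V * PowerSeries.derivative R F := by
      rw [← h2]; ring
    rw [h5, pow_succ (-F) V, neg_pow F V]
    ring

theorem flE_der (F : PowerSeries R) (V : ℕ) :
    PowerSeries.derivative R (flE F (V + 1)) = PowerSeries.derivative R F * flE F V := by
  induction V with
  | zero =>
    simp [flE, Finset.sum_range_succ]
  | succ V ih =>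
    have h1 : ∀ V : ℕ, flE F (V + 1)
        = flE F V + flC ((1 : ℚ) / ((V + 1).factorial : ℕ)) * F ^ (V + 1) := by
      intro V
      unfold flE
      rw [Finset.sum_range_succ]
    have h2 : (flC ((1 : ℚ) / ((V + 1 + 1).factorial : ℕ)) : PowerSeries R) *
        ((V + 1 + 1 : ℕ) : PowerSeries R) = flC ((1 : ℚ) / ((V + 1).factorial : ℕ)) := by
      have h3 : ((V + 1 + 1 : ℕ) : PowerSeries R) = flC ((V + 1 + 1 : ℕ) : ℚ) := by
        rw [map_natCast]
      rw [h3, ← map_mul]
      congr 1
      have h4 : ((V + 1 + 1 : ℕ) : ℚ) ≠ 0 := by positivity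
      have h5 : ((V + 1).factorial : ℚ) ≠ 0 := by positivity
      rw [Nat.factorial_succ (V + 1)]
      push_cast at h4 ⊢
      field_simp
    rw [h1 (V + 1), map_add, ih, flC_der, PowerSeries.derivative_pow, h1 V,
      Nat.add_sub_cancel, ← h2]
    ring

omit [Algebra ℚ R] in
theorem fl_coeff_pow (F : PowerSeries R) (hF : PowerSeries.constantCoeff F = 0) (V w : ℕ)
    (h : w < V) (G : PowerSeries R) : PowerSeries.coeff w (G * F ^ V) = 0 := by
  have h1 : (PowerSeries.X : PowerSeries R) ∣ F := PowerSeries.X_dvd_iff.mpr hF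
  have h2 : (PowerSeries.X : PowerSeries R) ^ V ∣ G * F ^ V :=
    Dvd.dvd.mul_left (pow_dvd_pow_of_dvd h1 V) G
  exact (PowerSeries.X_pow_dvd_iff.mp h2) w h

theorem flL_coeff (F : PowerSeries R) (V w : ℕ) :
    PowerSeries.coeff w (flL F V)
      = ∑ q ∈ Icc 1 V, ((-1 : ℚ) ^ (q - 1) / q) • PowerSeries.coeff w (F ^ q) := by
  unfold flL
  rw [map_sum]
  exact Finset.sum_congr rfl (fun q _ => flC_coeff _ _ _)

theorem flE_coeff (F : PowerSeries R) (V w : ℕ) :
    PowerSeries.coeff w (flE F V)
      = ∑ q ∈ range (V + 1), ((1 : ℚ) / q.factorial) • PowerSeries.coeff w (F ^ q) := by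
  unfold flE
  rw [map_sum]
  exact Finset.sum_congr rfl (fun q _ => flC_coeff _ _ _)

theorem flL_rec (A : ℕ → R) (hA : A 0 = 0) (V w : ℕ) (hw : w < V) :
    PowerSeries.coeff (w + 1) (flL (PowerSeries.mk A) V) = A (w + 1) - (1 / ((w : ℚ) + 1)) •
      ∑ j ∈ range (w + 1), ((j : ℕ) : ℚ) •
        (PowerSeries.coeff j (flL (PowerSeries.mk A) V) * A (w + 1 - j)) := by
  set F : PowerSeries R := PowerSeries.mk A with hF
  set l : ℕ → R := fun j => PowerSeries.coeff j (flL F V) with hl
  have hc : PowerSeries.constantCoeff F = 0 := by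
    rw [hF, ← PowerSeries.coeff_zero_eq_constantCoeff_apply, PowerSeries.coeff_mk, hA]
  have h1 := congrArg (PowerSeries.coeff w) (flL_der F V)
  have h2 : PowerSeries.coeff w (PowerSeries.derivative R F * (1 - (-F) ^ V))
      = A (w + 1) * ((w : R) + 1) := by
    rw [mul_sub, mul_one, map_sub, PowerSeries.coeff_derivative,
      fl_coeff_pow (-F) (by rw [map_neg, hc, neg_zero]) V w hw, sub_zero, hF,
      PowerSeries.coeff_mk]
  have h3 : PowerSeries.coeff w ((1 + F) * PowerSeries.derivative R (flL F V))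
      = l (w + 1) * ((w : R) + 1)
        + ∑ k ∈ range (w + 1), l (k + 1) * ((k : R) + 1) * A (w - k) := by
    rw [add_mul, one_mul, map_add, PowerSeries.coeff_derivative,
      mul_comm F, PowerSeries.coeff_mul,
      Finset.Nat.sum_antidiagonal_eq_sum_range_succ (fun i j =>
        PowerSeries.coeff i (PowerSeries.derivative R (flL F V)) * PowerSeries.coeff j F) w]
    congr 1
    refine Finset.sum_congr rfl (fun k _ => ?_)
    rw [PowerSeries.coeff_derivative, hF, PowerSeries.coeff_mk]
  have h4 : ∑ k ∈ range (w + 1), l (k + 1) * ((k : R) + 1) * A (w - k)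
      = ∑ j ∈ range (w + 1), ((j : ℕ) : ℚ) • (l j * A (w + 1 - j)) := by
    rw [Finset.sum_range_succ, Nat.sub_self, hA, mul_zero, add_zero, Finset.sum_range_succ']
    rw [Nat.cast_zero, zero_smul, add_zero]
    refine Finset.sum_congr rfl (fun k _ => ?_)
    rw [Nat.add_sub_add_right, Algebra.smul_def, map_natCast]
    push_cast
    ring
  rw [h2, h3, h4] at h1
  have h5 : (1 / ((w : ℚ) + 1)) • (l (w + 1) * ((w : R) + 1)) = l (w + 1) := by
    have h6 : ((w : R) + 1) = algebraMap ℚ R ((w : ℚ) + 1) := by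
      rw [map_add, map_natCast, map_one]
    rw [Algebra.smul_def, h6, mul_left_comm, ← map_mul]
    have h7 : (1 / ((w : ℚ) + 1)) * ((w : ℚ) + 1) = 1 := by
      have : ((w : ℚ) + 1) ≠ 0 := by positivity
      field_simp
    rw [h7, map_one, mul_one]
  have h8 : (1 / ((w : ℚ) + 1)) • (A (w + 1) * ((w : R) + 1)) = A (w + 1) := by
    have h6 : ((w : R) + 1) = algebraMap ℚ R ((w : ℚ) + 1) := by
      rw [map_add, map_natCast, map_one]
    rw [Algebra.smul_def, h6, mul_left_comm, ← map_mul]
    have h7 : (1 / ((w : ℚ) + 1)) * ((w : ℚ) + 1) = 1 := by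
      have : ((w : ℚ) + 1) ≠ 0 := by positivity
      field_simp
    rw [h7, map_one, mul_one]
  have h9 := congrArg (fun x => (1 / ((w : ℚ) + 1)) • x) h1
  simp only [smul_add] at h9
  rw [h5, h8] at h9
  show l (w + 1) = _
  exact eq_sub_of_add_eq h9

theorem flE_rec (A : ℕ → R) (hA : A 0 = 0) (V w : ℕ) (hw : w < V) :
    PowerSeries.coeff (w + 1) (flE (PowerSeries.mk A) V) = (1 / ((w : ℚ) + 1)) •
      ∑ j ∈ range (w + 1), (((w + 1 - j : ℕ)) : ℚ) •
        (A (w + 1 - j) * PowerSeries.coeff j (flE (PowerSeries.mk A) V)) := by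
  obtain ⟨V, rfl⟩ : ∃ V', V = V' + 1 := ⟨V - 1, by omega⟩
  set F : PowerSeries R := PowerSeries.mk A with hF
  have hc : PowerSeries.constantCoeff F = 0 := by
    rw [hF, ← PowerSeries.coeff_zero_eq_constantCoeff_apply, PowerSeries.coeff_mk, hA]
  have h1 := congrArg (PowerSeries.coeff w) (flE_der F V)
  have h0 : ∀ k : ℕ, k ≤ w →
      PowerSeries.coeff k (flE F V) = PowerSeries.coeff k (flE F (V + 1)) := by
    intro k hk
    have : flE F (V + 1)
        = flE F V + flC ((1 : ℚ) / ((V + 1).factorial : ℕ)) * F ^ (V + 1) := by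
      unfold flE
      rw [Finset.sum_range_succ]
    rw [this, map_add, fl_coeff_pow F hc (V + 1) k (by omega), add_zero]
  rw [PowerSeries.coeff_derivative, mul_comm (PowerSeries.derivative R F), PowerSeries.coeff_mul,
    Finset.Nat.sum_antidiagonal_eq_sum_range_succ (fun i j =>
        PowerSeries.coeff i (flE F V) * PowerSeries.coeff j (PowerSeries.derivative R F)) w] at h1
  have h4 : ∑ k ∈ range w.succ, PowerSeries.coeff k (flE F V)
        * PowerSeries.coeff (w - k) (PowerSeries.derivative R F)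
      = ∑ j ∈ range (w + 1), (((w + 1 - j : ℕ)) : ℚ) •
        (A (w + 1 - j) * PowerSeries.coeff j (flE F (V + 1))) := by
    refine Finset.sum_congr rfl (fun k hk => ?_)
    have hk' : k ≤ w := Nat.lt_succ_iff.mp (Finset.mem_range.mp hk)
    rw [h0 k hk', PowerSeries.coeff_derivative, hF, PowerSeries.coeff_mk, Algebra.smul_def,
      map_natCast]
    have : w + 1 - k = w - k + 1 := by omega
    rw [this]
    push_cast
    ring
  rw [h4] at h1
  have h5 : (1 / ((w : ℚ) + 1)) • (PowerSeries.coeff (w + 1) (flE F (V + 1)) * ((w : R) + 1))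
      = PowerSeries.coeff (w + 1) (flE F (V + 1)) := by
    have h6 : ((w : R) + 1) = algebraMap ℚ R ((w : ℚ) + 1) := by
      rw [map_add, map_natCast, map_one]
    rw [Algebra.smul_def, h6, mul_left_comm, ← map_mul]
    have h7 : (1 / ((w : ℚ) + 1)) * ((w : ℚ) + 1) = 1 := by
      have : ((w : ℚ) + 1) ≠ 0 := by positivity
      field_simp
    rw [h7, map_one, mul_one]
  rw [← h5, h1]

theorem logS_eq (A : ℕ → R) (hA : A 0 = 0) (V : ℕ) : ∀ w : ℕ, w ≤ V →
    logS A w = PowerSeries.coeff w (flL (PowerSeries.mk A) V) := by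
  intro w
  induction w using Nat.strong_induction_on with
  | _ w ih =>
    intro hw
    rcases w with _ | w
    · rw [logS, flL_coeff]
      symm
      refine Finset.sum_eq_zero (fun q hq => ?_)
      have hq' := (Finset.mem_Icc.mp hq).1
      have hc : PowerSeries.constantCoeff (PowerSeries.mk A) = 0 := by
        rw [← PowerSeries.coeff_zero_eq_constantCoeff_apply, PowerSeries.coeff_mk, hA]
      have := fl_coeff_pow (PowerSeries.mk A) hc q 0 (by omega) 1
      rw [one_mul] at this
      rw [this, smul_zero]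
    · rw [logS, flL_rec A hA V w (by omega)]
      congr 2
      rw [← Fin.sum_univ_eq_sum_range (fun j => ((j : ℕ) : ℚ) •
        (PowerSeries.coeff j (flL (PowerSeries.mk A) V) * A (w + 1 - j))) (w + 1)]
      refine Finset.sum_congr rfl (fun j _ => ?_)
      have hj := j.isLt
      rw [ih j.val (by omega) (by omega)]

theorem expS_eq (A : ℕ → R) (hA : A 0 = 0) (V : ℕ) : ∀ w : ℕ, w ≤ V →
    expS A w = PowerSeries.coeff w (flE (PowerSeries.mk A) V) := by
  intro w
  induction w using Nat.strong_induction_on with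
  | _ w ih =>
    intro hw
    rcases w with _ | w
    · rw [expS, flE_coeff, Finset.sum_range_succ']
      have hc : PowerSeries.constantCoeff (PowerSeries.mk A) = 0 := by
        rw [← PowerSeries.coeff_zero_eq_constantCoeff_apply, PowerSeries.coeff_mk, hA]
      have h0 : ∑ k ∈ range V, ((1 : ℚ) / ((k + 1).factorial : ℕ)) •
          PowerSeries.coeff 0 (PowerSeries.mk A ^ (k + 1)) = 0 := by
        refine Finset.sum_eq_zero (fun q _ => ?_)
        have := fl_coeff_pow (PowerSeries.mk A) hc (q + 1) 0 (by omega) 1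
        rw [one_mul] at this
        rw [this, smul_zero]
      rw [h0]
      simp
    · rw [expS, flE_rec A hA V w (by omega)]
      congr 1
      rw [← Fin.sum_univ_eq_sum_range (fun j => (((w + 1 - j : ℕ)) : ℚ) •
        (A (w + 1 - j) * PowerSeries.coeff j (flE (PowerSeries.mk A) V))) (w + 1)]
      refine Finset.sum_congr rfl (fun j _ => ?_)
      have hj := j.isLt
      rw [ih j.val (by omega) (by omega)]

end

theorem flog_proof : Stmt_Flog := by
  intro A hA V w hw
  exact ⟨(logS_eq A hA V w hw).trans (flL_coeff _ _ _),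
    (expS_eq A hA V w hw).trans (flE_coeff _ _ _)⟩

end Pool.Agent.RGD
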