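import Pool.Agent.RGD.Stmts

/-!
RGD.Ftay (helper92): Taylor expansion of `f = exp (∑ G_i u^i - lgt (u²) / 2)` up to order `K`,
via the differential equation `f' = P' f`.
-/

set_option autoImplicit false

namespace Pool.Agent.RGD

open Finset

/-- coefficients of the derivative of the exponent -/
noncomputable def cFt (K : ℕ) (G : ℕ → ℂ) (i : ℕ) : ℂ :=
  (if i + 1 ≤ K then ((i : ℂ) + 1) * G (i + 1) else 0) + (iot (i + 1) : ℂ)

/-- the values of the Taylor coefficients -/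
noncomputable def bFt (t : ℝ) (G : ℕ → ℂ) (k : ℕ) : ℂ := MvPolynomial.aeval (vals t G) (bet k)

theorem bFt_zero (t : ℝ) (G : ℕ → ℂ) : bFt t G 0 = 1 := by
  simp [bFt, bet]

theorem bFt_succ (t : ℝ) (G : ℕ → ℂ) (k : ℕ) :
    ((k : ℂ) + 1) * bFt t G (k + 1) =
      ∑ j ∈ range (k + 1), (((k + 1 - j : ℕ) : ℂ) * G (k + 1 - j) + (iot (k + 1 - j) : ℂ))
        * bFt t G j := by
  unfold bFt
  rw [bet, map_mul, MvPolynomial.aeval_C, map_sum]
  rw [← mul_assoc]
  have h1 : ((k : ℂ) + 1) * (algebraMap ℚ ℂ) (1 / ((k : ℚ) + 1)) = 1 := by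
    have : ((k : ℂ) + 1) ≠ 0 := by exact_mod_cast Nat.succ_ne_zero k
    simp only [eq_ratCast]
    push_cast
    field_simp
  rw [h1, one_mul]
  rw [Finset.sum_range (fun j => (((k + 1 - j : ℕ) : ℂ) * G (k + 1 - j)
    + (iot (k + 1 - j) : ℂ)) * MvPolynomial.aeval (vals t G) (bet j))]
  refine Finset.sum_congr rfl fun j _ => ?_
  have hj : k + 1 - j.val ≠ 0 := by omega
  rw [map_mul, map_add, MvPolynomial.aeval_C, map_smul, MvPolynomial.aeval_X]
  congr 1
  simp only [vals, hj, if_false, eq_ratCast, Rat.smul_def]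
  push_cast
  rfl

theorem bFt_rec (K : ℕ) (t : ℝ) (G : ℕ → ℂ) (k : ℕ) (hk : k < K) :
    ((k : ℂ) + 1) * bFt t G (k + 1) = ∑ j ∈ range (k + 1), cFt K G (k - j) * bFt t G j := by
  rw [bFt_succ]
  refine Finset.sum_congr rfl fun j hj => ?_
  have hj' : j ≤ k := by simpa [Nat.lt_succ_iff] using hj
  congr 1
  unfold cFt
  have h1 : k - j + 1 = k + 1 - j := by omega
  rw [if_pos (by omega), h1]
  congr 2
  rw [← h1]
  push_cast
  ring

theorem norm_iot_le (i : ℕ) : ‖((iot i : ℚ) : ℂ)‖ ≤ 1 := by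
  unfold iot
  split_ifs
  · push_cast
    simp
  · simp

theorem norm_bFt_le (t : ℝ) (G : ℕ → ℂ) (A : ℝ) (hA : 1 ≤ A) (hG : ∀ i, ‖G i‖ ≤ A) (k : ℕ) :
    ‖bFt t G k‖ ≤ (3 * A) ^ k := by
  induction k using Nat.strong_induction_on with
  | _ k ih =>
    cases k with
    | zero => simp [bFt_zero]
    | succ k =>
      have hk : (0 : ℝ) < (k : ℝ) + 1 := by positivity
      have h1 : ‖((k : ℂ) + 1) * bFt t G (k + 1)‖ = ((k : ℝ) + 1) * ‖bFt t G (k + 1)‖ := by
        rw [norm_mul]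
        congr 1
        have : ((k : ℂ) + 1) = (((k : ℝ) + 1 : ℝ) : ℂ) := by push_cast; ring
        rw [this, Complex.norm_real, Real.norm_of_nonneg hk.le]
      have h2 : ((k : ℝ) + 1) * ‖bFt t G (k + 1)‖ ≤ ∑ j ∈ range (k + 1),
          (((k : ℝ) + 1) * (2 * A)) * (3 * A) ^ j := by
        rw [← h1, bFt_succ]
        refine (norm_sum_le _ _).trans (Finset.sum_le_sum fun j hj => ?_)
        have hj' : j < k + 1 := by simpa using hj
        rw [norm_mul]
        refine mul_le_mul ?_ (ih j hj') (norm_nonneg _) (by positivity)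
        refine (norm_add_le _ _).trans ?_
        rw [norm_mul, Complex.norm_natCast]
        have h3 : ((k + 1 - j : ℕ) : ℝ) ≤ (k : ℝ) + 1 := by
          have : (k + 1 - j : ℕ) ≤ k + 1 := Nat.sub_le _ _
          exact_mod_cast this
        have h4 : ((k + 1 - j : ℕ) : ℝ) * ‖G (k + 1 - j)‖ ≤ ((k : ℝ) + 1) * A :=
          mul_le_mul h3 (hG _) (norm_nonneg _) hk.le
        have h5 := norm_iot_le (k + 1 - j)
        nlinarith [mul_nonneg hk.le (sub_nonneg.2 hA), (Nat.cast_nonneg k : (0 : ℝ) ≤ (k : ℝ))]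
      have h6 : ∀ m : ℕ, ∑ j ∈ range m, (2 * A) * (3 * A) ^ j ≤ (3 * A) ^ m := by
        intro m
        induction m with
        | zero => simp
        | succ m ihm =>
          rw [Finset.sum_range_succ]
          have : (0 : ℝ) ≤ (3 * A) ^ m := by positivity
          have h7 : (3 * A) ^ (m + 1) = (3 * A) * (3 * A) ^ m := by ring
          rw [h7]
          nlinarith
      have h8 : ∑ j ∈ range (k + 1), (((k : ℝ) + 1) * (2 * A)) * (3 * A) ^ j
          = ((k : ℝ) + 1) * ∑ j ∈ range (k + 1), (2 * A) * (3 * A) ^ j := by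
        rw [Finset.mul_sum]
        refine Finset.sum_congr rfl fun j _ => by ring
      rw [h8] at h2
      have h9 := le_of_mul_le_mul_left h2 hk
      exact h9.trans (h6 _)

theorem iot_sum (w : ℂ) (L : ℕ) :
    ∑ i ∈ range (2 * L), ((iot (i + 1) : ℚ) : ℂ) * w ^ i
      = -∑ m ∈ range L, (-1) ^ m * w ^ (2 * m + 1) := by
  induction L with
  | zero => simp
  | succ L ih =>
    rw [show 2 * (L + 1) = 2 * L + 1 + 1 by ring, Finset.sum_range_succ, Finset.sum_range_succ, ih,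
      Finset.sum_range_succ]
    have h1 : iot (2 * L + 1) = 0 := by
      unfold iot
      rw [if_neg]
      simp
    have h2 : iot (2 * L + 1 + 1) = (-1) ^ (L + 1) := by
      unfold iot
      rw [if_pos (by rw [show 2 * L + 1 + 1 = 2 * (L + 1) by ring]; simp)]
      congr 1
      omega
    rw [h1, h2]
    push_cast
    ring

theorem sum_Icc_oneFt (K : ℕ) (f : ℕ → ℂ) : ∑ i ∈ Icc 1 K, f i = ∑ i ∈ range K, f (i + 1) := by
  induction K with
  | zero => simp
  | succ K ih => rw [Finset.sum_Icc_succ_top (by omega), ih, Finset.sum_range_succ]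

/-- the exponent -/
noncomputable def PFt (K : ℕ) (G : ℕ → ℂ) (w : ℂ) : ℂ :=
  (∑ i ∈ Icc 1 K, G i * w ^ i) - lgt K (w ^ 2) / 2

theorem hasDerivAt_PFt (K : ℕ) (G : ℕ → ℂ) (w : ℂ) :
    HasDerivAt (PFt K G) (∑ i ∈ range (2 * K), cFt K G i * w ^ i) w := by
  have h1 : HasDerivAt (fun w : ℂ => ∑ i ∈ Icc 1 K, G i * w ^ i)
      (∑ i ∈ Icc 1 K, G i * ((i : ℂ) * w ^ (i - 1))) w := by
    refine HasDerivAt.fun_sum fun i _ => ?_
    exact (hasDerivAt_pow i w).const_mul (G i)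
  have h2 : HasDerivAt (fun w : ℂ => lgt K (w ^ 2))
      (∑ i ∈ Icc 1 K, (-1) ^ (i - 1) * ((i : ℂ) * (w ^ 2) ^ (i - 1) * (2 * w)) / (i : ℂ)) w := by
    unfold lgt
    refine HasDerivAt.fun_sum fun i _ => ?_
    have h3 : HasDerivAt (fun w : ℂ => w ^ 2) (2 * w) w := by
      simpa using hasDerivAt_pow 2 w
    exact ((h3.fun_pow i).const_mul ((-1) ^ (i - 1))).div_const (i : ℂ)
  have h4 := h1.sub (h2.div_const 2)
  unfold PFt
  refine h4.congr_deriv ?_
  have h5 : ∑ i ∈ Icc 1 K, G i * ((i : ℂ) * w ^ (i - 1))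
      = ∑ i ∈ range (2 * K), (if i + 1 ≤ K then ((i : ℂ) + 1) * G (i + 1) else 0) * w ^ i := by
    have h6 : ∑ i ∈ range (2 * K), (if i + 1 ≤ K then ((i : ℂ) + 1) * G (i + 1) else 0) * w ^ i
        = ∑ i ∈ range K, ((i : ℂ) + 1) * G (i + 1) * w ^ i := by
      rw [← Finset.sum_subset (Finset.range_mono (by omega : K ≤ 2 * K))]
      · refine Finset.sum_congr rfl fun i hi => ?_
        rw [if_pos (by simpa [Nat.succ_le_iff] using hi)]
      · intro i _ hi
        rw [if_neg (by simp at hi; omega), zero_mul]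
    rw [h6, sum_Icc_oneFt]
    refine Finset.sum_congr rfl fun i _ => ?_
    rw [Nat.add_sub_cancel]
    push_cast
    ring
  have h7 : (∑ i ∈ Icc 1 K, (-1) ^ (i - 1) * ((i : ℂ) * (w ^ 2) ^ (i - 1) * (2 * w)) / (i : ℂ)) / 2
      = ∑ m ∈ range K, (-1) ^ m * w ^ (2 * m + 1) := by
    rw [sum_Icc_oneFt, Finset.sum_div]
    refine Finset.sum_congr rfl fun i _ => ?_
    rw [Nat.add_sub_cancel]
    have h8 : ((i + 1 : ℕ) : ℂ) ≠ 0 := by exact_mod_cast Nat.succ_ne_zero i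
    field_simp
    ring
  rw [h5, h7]
  have h8 := iot_sum w K
  rw [sub_eq_add_neg, ← h8, ← Finset.sum_add_distrib]
  refine Finset.sum_congr rfl fun i _ => ?_
  unfold cFt
  ring

theorem norm_cFt_le (K : ℕ) (G : ℕ → ℂ) (A : ℝ) (hA : 1 ≤ A) (hG : ∀ i, ‖G i‖ ≤ A) (i : ℕ) :
    ‖cFt K G i‖ ≤ ((K : ℝ) + 1) * A := by
  unfold cFt
  refine (norm_add_le _ _).trans ?_
  have h5 := norm_iot_le (i + 1)
  have h6 : ‖(if i + 1 ≤ K then ((i : ℂ) + 1) * G (i + 1) else 0)‖ ≤ (K : ℝ) * A := by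
    split_ifs with h
    · rw [norm_mul]
      have h1 : ‖((i : ℂ) + 1)‖ = (i : ℝ) + 1 := by
        have : ((i : ℂ) + 1) = (((i : ℝ) + 1 : ℝ) : ℂ) := by push_cast; ring
        rw [this, Complex.norm_real, Real.norm_of_nonneg (by positivity)]
      rw [h1]
      refine mul_le_mul ?_ (hG _) (norm_nonneg _) (by positivity)
      exact_mod_cast h
    · simp only [norm_zero]
      positivity
  linarith

/-- the Taylor polynomial -/
noncomputable def TFt (K : ℕ) (t : ℝ) (G : ℕ → ℂ) (w : ℂ) : ℂ :=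
  ∑ k ∈ range (K + 1), bFt t G k * w ^ k

theorem hasDerivAt_TFt (K : ℕ) (t : ℝ) (G : ℕ → ℂ) (w : ℂ) :
    HasDerivAt (TFt K t G) (∑ j ∈ range (K + 1), ∑ i ∈ range (K - j),
      cFt K G i * bFt t G j * w ^ (i + j)) w := by
  have h1 : HasDerivAt (TFt K t G) (∑ k ∈ range (K + 1), bFt t G k * ((k : ℂ) * w ^ (k - 1))) w := by
    unfold TFt
    refine HasDerivAt.fun_sum fun i _ => ?_
    exact (hasDerivAt_pow i w).const_mul (bFt t G i)
  refine h1.congr_deriv ?_
  rw [Finset.sum_range_succ']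
  rw [Finset.sum_range_succ (fun j => ∑ i ∈ range (K - j), cFt K G i * bFt t G j * w ^ (i + j))]
  simp only [Nat.cast_zero, zero_mul, mul_zero, add_zero, Nat.sub_self, Finset.range_zero,
    Finset.sum_empty]
  have h2 := Finset.sum_range_diag_flip K (fun j i => cFt K G i * bFt t G j * w ^ (i + j))
  rw [← h2]
  refine Finset.sum_congr rfl fun k hk => ?_
  rw [Nat.add_sub_cancel]
  have h3 := bFt_rec K t G k (by simpa using hk)
  have h4 : bFt t G (k + 1) * (((k + 1 : ℕ) : ℂ) * w ^ k)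
      = (((k : ℂ) + 1) * bFt t G (k + 1)) * w ^ k := by push_cast; ring
  rw [h4, h3, Finset.sum_mul]
  refine Finset.sum_congr rfl fun j hj => ?_
  have : k - j + j = k := Nat.sub_add_cancel (by simpa [Nat.lt_succ_iff] using hj)
  rw [this]

theorem hasDerivAt_gFt (K : ℕ) (t : ℝ) (G : ℕ → ℂ) (w : ℂ) :
    HasDerivAt (fun w => TFt K t G w * Complex.exp (-PFt K G w))
      (-(∑ j ∈ range (K + 1), ∑ i ∈ Ico (K - j) (2 * K),
        cFt K G i * bFt t G j * w ^ (i + j)) * Complex.exp (-PFt K G w)) w := by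
  have h1 := (hasDerivAt_TFt K t G w).mul (hasDerivAt_PFt K G w).neg.cexp
  refine h1.congr_deriv ?_
  have h2 : (∑ j ∈ range (K + 1), ∑ i ∈ Ico (K - j) (2 * K),
      cFt K G i * bFt t G j * w ^ (i + j)) = (∑ i ∈ range (2 * K), cFt K G i * w ^ i) * TFt K t G w
      - ∑ j ∈ range (K + 1), ∑ i ∈ range (K - j), cFt K G i * bFt t G j * w ^ (i + j) := by
    unfold TFt
    rw [Finset.sum_mul_sum, Finset.sum_comm, ← Finset.sum_sub_distrib]
    refine Finset.sum_congr rfl fun j hj => ?_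
    have h3 := Finset.sum_range_add_sum_Ico (fun i => cFt K G i * bFt t G j * w ^ (i + j))
      (by omega : K - j ≤ 2 * K)
    rw [eq_sub_iff_add_eq, add_comm, h3]
    refine Finset.sum_congr rfl fun i _ => ?_
    rw [pow_add]
    ring
  rw [h2]
  simp only [Pi.neg_apply]
  ring

theorem norm_EFt_le (K : ℕ) (t : ℝ) (G : ℕ → ℂ) (A : ℝ) (hA : 1 ≤ A) (hG : ∀ i, ‖G i‖ ≤ A)
    (w : ℂ) (hw : A * ‖w‖ ≤ 1) :
    ‖∑ j ∈ range (K + 1), ∑ i ∈ Ico (K - j) (2 * K), cFt K G i * bFt t G j * w ^ (i + j)‖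
      ≤ ((K : ℝ) + 1) * (2 * K) * (((K : ℝ) + 1) * 3 ^ K) * A * (A * ‖w‖) ^ K := by
  have h0 : (0 : ℝ) ≤ A * ‖w‖ := by positivity
  have hterm : ∀ j ∈ range (K + 1), ∀ i ∈ Ico (K - j) (2 * K),
      ‖cFt K G i * bFt t G j * w ^ (i + j)‖ ≤ (((K : ℝ) + 1) * 3 ^ K) * A * (A * ‖w‖) ^ K := by
    intro j hj i hi
    have hj' : j ≤ K := by simpa [Nat.lt_succ_iff] using hj
    have hi' : K - j ≤ i := (Finset.mem_Ico.1 hi).1
    rw [norm_mul, norm_mul, norm_pow]
    have h1 := norm_cFt_le K G A hA hG i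
    have h2 := norm_bFt_le t G A hA hG j
    have h3 : ‖cFt K G i‖ * ‖bFt t G j‖ * ‖w‖ ^ (i + j)
        ≤ (((K : ℝ) + 1) * A) * (3 * A) ^ j * ‖w‖ ^ (i + j) := by gcongr
    refine h3.trans ?_
    have h4 : (3 * A) ^ j * ‖w‖ ^ (i + j) ≤ 3 ^ K * (A * ‖w‖) ^ K := by
      have h5 : (3 * A) ^ j * ‖w‖ ^ (i + j) = 3 ^ j * ((A * ‖w‖) ^ j * ‖w‖ ^ i) := by
        rw [mul_pow, mul_pow, pow_add]; ring
      rw [h5]
      have h6 : (3 : ℝ) ^ j ≤ 3 ^ K := pow_le_pow_right₀ (by norm_num) hj'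
      have h7 : ‖w‖ ^ i ≤ (A * ‖w‖) ^ i := by
        refine pow_le_pow_left₀ (norm_nonneg _) ?_ i
        nlinarith [norm_nonneg w]
      have h8 : (A * ‖w‖) ^ j * ‖w‖ ^ i ≤ (A * ‖w‖) ^ K := by
        calc (A * ‖w‖) ^ j * ‖w‖ ^ i ≤ (A * ‖w‖) ^ j * (A * ‖w‖) ^ i := by gcongr
          _ = (A * ‖w‖) ^ (j + i) := (pow_add _ _ _).symm
          _ ≤ (A * ‖w‖) ^ K := pow_le_pow_of_le_one h0 hw (by omega)
      exact mul_le_mul h6 h8 (by positivity) (by positivity)
    calc (((K : ℝ) + 1) * A) * (3 * A) ^ j * ‖w‖ ^ (i + j)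
        = (((K : ℝ) + 1) * A) * ((3 * A) ^ j * ‖w‖ ^ (i + j)) := by ring
      _ ≤ (((K : ℝ) + 1) * A) * (3 ^ K * (A * ‖w‖) ^ K) := by gcongr
      _ = (((K : ℝ) + 1) * 3 ^ K) * A * (A * ‖w‖) ^ K := by ring
  have hB : (0 : ℝ) ≤ (((K : ℝ) + 1) * 3 ^ K) * A * (A * ‖w‖) ^ K := by positivity
  calc ‖∑ j ∈ range (K + 1), ∑ i ∈ Ico (K - j) (2 * K), cFt K G i * bFt t G j * w ^ (i + j)‖
      ≤ ∑ j ∈ range (K + 1), ∑ i ∈ Ico (K - j) (2 * K),
          (((K : ℝ) + 1) * 3 ^ K) * A * (A * ‖w‖) ^ K := by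
        refine (norm_sum_le _ _).trans (Finset.sum_le_sum fun j hj => ?_)
        refine (norm_sum_le _ _).trans (Finset.sum_le_sum fun i hi => ?_)
        exact hterm j hj i hi
    _ ≤ ∑ j ∈ range (K + 1), (2 * (K : ℝ)) * ((((K : ℝ) + 1) * 3 ^ K) * A * (A * ‖w‖) ^ K) := by
        refine Finset.sum_le_sum fun j hj => ?_
        rw [Finset.sum_const, nsmul_eq_mul, Nat.card_Ico]
        refine mul_le_mul_of_nonneg_right ?_ hB
        have : ((2 * K - (K - j) : ℕ) : ℝ) ≤ ((2 * K : ℕ) : ℝ) := by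
          exact_mod_cast Nat.sub_le _ _
        simpa using this
    _ = ((K : ℝ) + 1) * (2 * K) * (((K : ℝ) + 1) * 3 ^ K) * A * (A * ‖w‖) ^ K := by
        rw [Finset.sum_const, nsmul_eq_mul, Finset.card_range]
        push_cast
        ring

theorem norm_PFt_le (K : ℕ) (G : ℕ → ℂ) (A : ℝ) (hA : 1 ≤ A) (hG : ∀ i, ‖G i‖ ≤ A)
    (w : ℂ) (hw : A * ‖w‖ ≤ 1) : ‖PFt K G w‖ ≤ 2 * K := by
  have hw1 : ‖w‖ ≤ 1 := by nlinarith [norm_nonneg w]
  have h1 : ‖∑ i ∈ Icc 1 K, G i * w ^ i‖ ≤ (K : ℝ) := by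
    refine (norm_sum_le _ _).trans ?_
    have : ∀ i ∈ Icc 1 K, ‖G i * w ^ i‖ ≤ 1 := by
      intro i hi
      have hi' : 1 ≤ i := (Finset.mem_Icc.1 hi).1
      rw [norm_mul, norm_pow]
      calc ‖G i‖ * ‖w‖ ^ i ≤ A * ‖w‖ ^ 1 :=
            mul_le_mul (hG i) (pow_le_pow_of_le_one (norm_nonneg _) hw1 hi') (by positivity)
              (by linarith)
        _ ≤ 1 := by simpa using hw
    refine (Finset.sum_le_sum this).trans ?_
    simp
  have h2 : ‖lgt K (w ^ 2)‖ ≤ (K : ℝ) := by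
    unfold lgt
    refine (norm_sum_le _ _).trans ?_
    have : ∀ i ∈ Icc 1 K, ‖(-1) ^ (i - 1) * (w ^ 2) ^ i / (i : ℂ)‖ ≤ 1 := by
      intro i hi
      have hi' : 1 ≤ i := (Finset.mem_Icc.1 hi).1
      rw [norm_div, norm_mul, norm_pow, norm_neg, norm_one, one_pow, one_mul, Complex.norm_natCast,
        norm_pow, norm_pow]
      have h3 : (1 : ℝ) ≤ (i : ℝ) := by exact_mod_cast hi'
      rw [div_le_one (by linarith)]
      refine le_trans ?_ h3
      exact pow_le_one₀ (by positivity) (pow_le_one₀ (norm_nonneg _) hw1)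
    refine (Finset.sum_le_sum this).trans ?_
    simp
  unfold PFt
  refine (norm_sub_le _ _).trans ?_
  rw [norm_div]
  have h4 : ‖(2 : ℂ)‖ = 2 := by simp
  rw [h4]
  have : (0 : ℝ) ≤ (K : ℝ) := by positivity
  linarith

/-- FTAY -/
theorem ftay_proof : Stmt_Ftay := by
  intro K
  set C1 : ℝ := ((K : ℝ) + 1) * (2 * K) * (((K : ℝ) + 1) * 3 ^ K) with hC1
  have hC1' : 0 ≤ C1 := by positivity
  refine ⟨max (3 ^ K) (C1 * Real.exp (2 * K) * Real.exp (2 * K)), ?_⟩
  intro G A t u hA hG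
  refine ⟨?_, ?_⟩
  · intro k hk
    have h1 := norm_bFt_le t G A hA hG k
    refine h1.trans ?_
    rw [mul_pow]
    refine mul_le_mul_of_nonneg_right ?_ (by positivity)
    exact (pow_le_pow_right₀ (by norm_num) hk).trans (le_max_left _ _)
  · intro hu
    have hg := fun w => hasDerivAt_gFt K t G w
    set s : Set ℂ := Metric.closedBall 0 ‖u‖ with hs
    have hbound : ∀ w ∈ s, ‖(-(∑ j ∈ range (K + 1), ∑ i ∈ Ico (K - j) (2 * K),
        cFt K G i * bFt t G j * w ^ (i + j)) * Complex.exp (-PFt K G w))‖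
        ≤ C1 * A * (A * ‖u‖) ^ K * Real.exp (2 * K) := by
      intro w hw
      have hw1 : ‖w‖ ≤ ‖u‖ := by simpa [hs] using hw
      have hw2 : A * ‖w‖ ≤ A * ‖u‖ := mul_le_mul_of_nonneg_left hw1 (by linarith)
      have hw3 : A * ‖w‖ ≤ 1 := by linarith
      rw [norm_mul, norm_neg]
      have h1 := norm_EFt_le K t G A hA hG w hw3
      have h2 : ‖Complex.exp (-PFt K G w)‖ ≤ Real.exp (2 * K) := by
        rw [Complex.norm_exp]
        refine Real.exp_le_exp.2 ?_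
        refine (Complex.re_le_norm _).trans ?_
        rw [norm_neg]
        exact norm_PFt_le K G A hA hG w hw3
      have h3 : C1 * A * (A * ‖w‖) ^ K ≤ C1 * A * (A * ‖u‖) ^ K := by
        refine mul_le_mul_of_nonneg_left ?_ (by positivity)
        exact pow_le_pow_left₀ (by positivity) hw2 K
      exact mul_le_mul (h1.trans h3) h2 (norm_nonneg _) (by positivity)
    have hmv := Convex.norm_image_sub_le_of_norm_hasDerivWithin_le
      (f := fun w => TFt K t G w * Complex.exp (-PFt K G w))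
      (fun w (_ : w ∈ s) => (hg w).hasDerivWithinAt) hbound (convex_closedBall _ _)
      (show (0 : ℂ) ∈ s by simp [hs]) (show u ∈ s by simp [hs])
    have hP0 : PFt K G 0 = 0 := by
      unfold PFt lgt
      have h1 : ∑ i ∈ Icc 1 K, G i * (0 : ℂ) ^ i = 0 := by
        refine Finset.sum_eq_zero fun i hi => ?_
        rw [zero_pow (by have := (Finset.mem_Icc.1 hi).1; omega), mul_zero]
      have h2 : ∑ i ∈ Icc 1 K, (-1) ^ (i - 1) * ((0 : ℂ) ^ 2) ^ i / (i : ℂ) = 0 := by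
        refine Finset.sum_eq_zero fun i hi => ?_
        rw [zero_pow (two_ne_zero), zero_pow (by have := (Finset.mem_Icc.1 hi).1; omega), mul_zero,
          zero_div]
      rw [h1, h2]
      simp
    have hT0 : TFt K t G 0 = 1 := by
      unfold TFt
      rw [Finset.sum_range_succ']
      simp [bFt_zero]
    simp only [hP0, hT0, neg_zero, Complex.exp_zero, mul_one, sub_zero] at hmv
    have hf : fgG K G u - ∑ k ∈ range (K + 1), MvPolynomial.aeval (vals t G) (bet k) * u ^ k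
        = -(TFt K t G u * Complex.exp (-PFt K G u) - 1) * Complex.exp (PFt K G u) := by
      have h1 : fgG K G u = Complex.exp (PFt K G u) := rfl
      have h2 : ∑ k ∈ range (K + 1), MvPolynomial.aeval (vals t G) (bet k) * u ^ k
          = TFt K t G u := rfl
      have h3 : Complex.exp (-PFt K G u) * Complex.exp (PFt K G u) = 1 := by
        rw [← Complex.exp_add]; simp
      rw [h1, h2]
      linear_combination TFt K t G u * h3
    rw [hf, norm_mul, norm_neg]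
    have h4 : ‖Complex.exp (PFt K G u)‖ ≤ Real.exp (2 * K) := by
      rw [Complex.norm_exp]
      refine Real.exp_le_exp.2 ?_
      exact (Complex.re_le_norm _).trans (norm_PFt_le K G A hA hG u (by linarith))
    calc ‖TFt K t G u * Complex.exp (-PFt K G u) - 1‖ * ‖Complex.exp (PFt K G u)‖
        ≤ (C1 * A * (A * ‖u‖) ^ K * Real.exp (2 * K) * ‖u‖) * Real.exp (2 * K) :=
          mul_le_mul hmv h4 (norm_nonneg _) (by positivity)
      _ = (C1 * Real.exp (2 * K) * Real.exp (2 * K)) * (A * ‖u‖) ^ (K + 1) := by ring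
      _ ≤ max (3 ^ K) (C1 * Real.exp (2 * K) * Real.exp (2 * K)) * (A * ‖u‖) ^ (K + 1) :=
          mul_le_mul_of_nonneg_right (le_max_right _ _) (by positivity)

end Pool.Agent.RGD
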