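import Pool.Agent.RGD.Im

/-!
Q1 of MP_3a123b_co for all degrees, from the sparse theorem `Stmt_Final` and the dense expansion
(helper47).
-/

set_option autoImplicit false

namespace Pool.Agent.RGD

open Finset Pool.Agent.RGA Filter Topology

namespace Full

/-- the seven polynomials -/
noncomputable def pp : ℕ → Polynomial ℝ
  | 1 => Polynomial.C (1 / 4) * Polynomial.X ^ 1
  | 2 => Polynomial.C (-1 / 4) * Polynomial.X ^ 2
  | 3 => Polynomial.C (2 / 24) * Polynomial.X ^ 2 + Polynomial.C (-23 / 24) * Polynomial.X ^ 3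
  | 4 => Polynomial.C (22 / 24) * Polynomial.X ^ 3 + Polynomial.C (-129 / 24) * Polynomial.X ^ 4
  | 5 => Polynomial.C (-3 / 12) * Polynomial.X ^ 3 + Polynomial.C (115 / 12) * Polynomial.X ^ 4
      + Polynomial.C (-483 / 12) * Polynomial.X ^ 5
  | 6 => Polynomial.C (-375 / 60) * Polynomial.X ^ 4 + Polynomial.C (6615 / 60) * Polynomial.X ^ 5
      + Polynomial.C (-22097 / 60) * Polynomial.X ^ 6
  | 7 => Polynomial.C (1046 / 720) * Polynomial.X ^ 4
      + Polynomial.C (-87318 / 720) * Polynomial.X ^ 5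
      + Polynomial.C (1002900 / 720) * Polynomial.X ^ 6
      + Polynomial.C (-2791541 / 720) * Polynomial.X ^ 7
  | _ => 0

lemma pp_eval (j : ℕ) (hj : j ∈ Finset.Icc 1 7) (x : ℝ) : (pp j).eval x = pj j x := by
  rw [Finset.mem_Icc] at hj
  obtain ⟨h1, h2⟩ := hj
  interval_cases j <;> simp only [pp, pj, Polynomial.eval_add, Polynomial.eval_mul,
    Polynomial.eval_C, Polynomial.eval_pow, Polynomial.eval_X] <;> ring

lemma pp_deg (j : ℕ) : (pp j).natDegree ≤ j := by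
  have h : ∀ (c : ℝ) (i m : ℕ), i ≤ m →
      (Polynomial.C c * Polynomial.X ^ i : Polynomial ℝ).natDegree ≤ m :=
    fun c i m him => (Polynomial.natDegree_C_mul_X_pow_le c i).trans him
  match j with
  | 0 => simp [pp]
  | 1 => exact h _ _ _ le_rfl
  | 2 => exact h _ _ _ le_rfl
  | 3 => exact Polynomial.natDegree_add_le_of_degree_le (h _ _ _ (by norm_num)) (h _ _ _ le_rfl)
  | 4 => exact Polynomial.natDegree_add_le_of_degree_le (h _ _ _ (by norm_num)) (h _ _ _ le_rfl)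
  | 5 =>
    exact Polynomial.natDegree_add_le_of_degree_le
      (Polynomial.natDegree_add_le_of_degree_le (h _ _ _ (by norm_num)) (h _ _ _ (by norm_num)))
      (h _ _ _ le_rfl)
  | 6 =>
    exact Polynomial.natDegree_add_le_of_degree_le
      (Polynomial.natDegree_add_le_of_degree_le (h _ _ _ (by norm_num)) (h _ _ _ (by norm_num)))
      (h _ _ _ le_rfl)
  | 7 =>
    exact Polynomial.natDegree_add_le_of_degree_le
      (Polynomial.natDegree_add_le_of_degree_le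
        (Polynomial.natDegree_add_le_of_degree_le (h _ _ _ (by norm_num)) (h _ _ _ (by norm_num)))
        (h _ _ _ (by norm_num))) (h _ _ _ le_rfl)
  | (n + 8) => simp [pp]

/-- `T (j, k) = y ^ (3 + k - j) n ^ (5 - k)` -/
lemma T_eq (L n : ℝ) (hL : 0 < L) (hn : 0 < n) (j k : ℕ) (hj : 1 ≤ j) :
    (L * n) ^ 3 * n ^ 4 * (L ^ k / (L ^ j * n ^ (j - 1)))
      = (L * n) ^ ((3 : ℤ) + k - j) * n ^ ((5 : ℤ) - k) := by
  have hLn : L * n ≠ 0 := (mul_pos hL hn).ne'
  have hL' := hL.ne'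
  have hn' := hn.ne'
  have e1 : L ^ k = (L * n) ^ (k : ℤ) * n ^ (-(k : ℤ)) := by
    rw [mul_zpow, zpow_natCast, zpow_natCast, zpow_neg, zpow_natCast]
    field_simp
  have e2 : L ^ j * n ^ (j - 1) = (L * n) ^ (j : ℤ) * n ^ (-1 : ℤ) := by
    obtain ⟨i, rfl⟩ : ∃ i, j = i + 1 := ⟨j - 1, by omega⟩
    rw [Nat.add_sub_cancel, mul_zpow, zpow_natCast, zpow_natCast, zpow_neg_one, pow_succ n i]
    field_simp
  rw [e1, e2]
  have e3 : (L * n) ^ ((3 : ℤ) + k - j) = (L * n) ^ (3 : ℕ) * (L * n) ^ (k : ℤ)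
      * ((L * n) ^ (j : ℤ))⁻¹ := by
    rw [zpow_sub₀ hLn, zpow_add₀ hLn, div_eq_mul_inv]
    rfl
  have e4 : n ^ ((5 : ℤ) - k) = n ^ (4 : ℕ) * n ^ (-(k : ℤ)) * (n ^ (-1 : ℤ))⁻¹ := by
    rw [zpow_neg_one, inv_inv, zpow_sub₀ hn', zpow_neg, div_eq_mul_inv]
    have : n ^ (5 : ℤ) = n ^ (4 : ℕ) * n := by
      rw [show (5 : ℤ) = ((5 : ℕ) : ℤ) by norm_num, zpow_natCast]; ring
    rw [this]; ring
  rw [e3, e4]
  field_simp

lemma T_lim (s : ℝ) (hs : 0 < s) (hs1 : s < 1) (j k : ℕ) (hj : 1 ≤ j) :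
    Tendsto (fun n : ℕ => ((Lam n (Ovl.dd s n) * n) ^ 3 * (n : ℝ) ^ 4
        * (Lam n (Ovl.dd s n) ^ k / (Lam n (Ovl.dd s n) ^ j * (n : ℝ) ^ (j - 1))))
      / (n : ℝ) ^ ((5 - (k : ℝ)) + s * (3 + (k : ℝ) - j))) atTop (𝓝 1) := by
  have h := (Ovl.y_lim s hs hs1).zpow₀ ((3 : ℤ) + k - j) (Or.inl one_ne_zero)
  rw [one_zpow] at h
  refine h.congr' ?_
  have e1 := (Ovl.y_lim s hs hs1).eventually (lt_mem_nhds (by norm_num : (0 : ℝ) < 1))
  filter_upwards [eventually_gt_atTop 0, e1] with n hn hy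
  have hn' : (0 : ℝ) < n := by exact_mod_cast hn
  have hp := Real.rpow_pos_of_pos hn' s
  have hLn : 0 < Lam n (Ovl.dd s n) * n := by
    by_contra hcon
    push Not at hcon
    have := div_nonpos_of_nonpos_of_nonneg hcon hp.le
    linarith
  have hL : 0 < Lam n (Ovl.dd s n) := pos_of_mul_pos_left hLn hn'.le
  rw [T_eq _ _ hL hn' j k hj]
  have e2 : (n : ℝ) ^ ((5 - (k : ℝ)) + s * (3 + (k : ℝ) - j))
      = (n : ℝ) ^ ((5 : ℤ) - k) * ((n : ℝ) ^ s) ^ ((3 : ℤ) + k - j) := by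
    rw [Real.rpow_add hn', Real.rpow_mul hn'.le, ← Real.rpow_intCast (n : ℝ) ((5 : ℤ) - k),
      ← Real.rpow_intCast ((n : ℝ) ^ s) ((3 : ℤ) + k - j)]
    push_cast
    rfl
  rw [e2, div_zpow]
  have h5 : (n : ℝ) ^ ((5 : ℤ) - k) ≠ 0 := zpow_ne_zero _ hn'.ne'
  rw [mul_comm ((n : ℝ) ^ ((5 : ℤ) - k)), mul_div_mul_right _ _ h5]

/-- the difference of the polynomials -/
noncomputable def Dq (q : ℕ → Polynomial ℝ) (j : ℕ) : Polynomial ℝ :=
  q j - if j ≤ 7 then pp j else 0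

lemma Dq_deg (q : ℕ → Polynomial ℝ) (hdeg : ∀ j, (q j).natDegree ≤ j) (j : ℕ) :
    (Dq q j).natDegree ≤ j := by
  unfold Dq
  refine (Polynomial.natDegree_sub_le _ _).trans (max_le (hdeg j) ?_)
  split_ifs
  · exact pp_deg j
  · simp

theorem matchCoeff (hFinal : Stmt_Final) (q : ℕ → Polynomial ℝ)
    (hdeg : ∀ j, (q j).natDegree ≤ j)
    (hIM : ∀ σ : ℝ, 0 < σ → ∀ m : ℕ, 1 ≤ m → ∃ C : ℝ, ∃ n₀ : ℕ, ∀ n d : ℕ, n₀ ≤ n → 1 ≤ d →
      d ≤ n - 2 → Even (d * n) → (n : ℝ) ^ σ ≤ min (d : ℝ) ((n : ℝ) - 1 - d) →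
      |Real.log (RG n d) - (Real.log (Bnd n d)
        + ∑ j ∈ Finset.Icc 1 m, (q j).eval (Lam n d) / (Lam n d ^ j * (n : ℝ) ^ (j - 1)))|
        ≤ C / (Lam n d ^ (m + 1) * (n : ℝ) ^ m)) :
    ∀ j ∈ Finset.Icc 1 7, ∀ k ≤ 5, (Dq q j).coeff k = 0 := by
  classical
  obtain ⟨σ, hσ, C1, n1, hS⟩ := hFinal
  obtain ⟨σ0, hσ0, hσσ, hσh⟩ : ∃ σ0 : ℝ, 0 < σ0 ∧ σ0 ≤ σ ∧ σ0 ≤ 1 / 8 :=
    ⟨min σ (1 / 8), lt_min hσ (by norm_num), min_le_left _ _, min_le_right _ _⟩
  obtain ⟨s0, hs0, hs0σ⟩ : ∃ s0 : ℝ, 0 < s0 ∧ s0 < σ0 := ⟨σ0 / 2, by linarith, by linarith⟩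
  obtain ⟨m, hm8, hms⟩ : ∃ m : ℕ, 8 ≤ m ∧ (5 : ℝ) ≤ s0 * ((m - 2 : ℕ) : ℝ) := by
    refine ⟨⌈5 / s0⌉₊ + 8, by omega, ?_⟩
    have h1 := Nat.le_ceil (5 / s0)
    rw [div_le_iff₀ hs0] at h1
    have h2 : ((⌈5 / s0⌉₊ + 8 - 2 : ℕ) : ℝ) = (⌈5 / s0⌉₊ : ℝ) + 6 := by
      rw [show ⌈5 / s0⌉₊ + 8 - 2 = ⌈5 / s0⌉₊ + 6 by omega]; push_cast; ring
    rw [h2]
    nlinarith
  obtain ⟨C2, n2, hI⟩ := hIM s0 hs0 m (by omega)
  obtain ⟨s, hs0s, hsσ, hirr, -⟩ := Ovl.exists_s s0 σ0 hs0σ ∅ (by simp)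
  have hs : 0 < s := by linarith
  have hs1 : s < 1 := by linarith
  set P : Finset (ℕ × ℕ) := Finset.Icc 1 m ×ˢ Finset.range (m + 1) with hP
  set c : ℕ × ℕ → ℝ := fun i => (Dq q i.1).coeff i.2 with hc
  set E : ℕ × ℕ → ℝ := fun i => (5 - (i.2 : ℝ)) + s * (3 + (i.2 : ℝ) - i.1) with hE
  set T : ℕ × ℕ → ℕ → ℝ := fun i n => (Lam n (Ovl.dd s n) * n) ^ 3 * (n : ℝ) ^ 4
        * (Lam n (Ovl.dd s n) ^ i.2 / (Lam n (Ovl.dd s n) ^ i.1 * (n : ℝ) ^ (i.1 - 1))) with hT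
  have hPm : ∀ i ∈ P, 1 ≤ i.1 ∧ i.1 ≤ m ∧ i.2 ≤ m := by
    intro i hi
    rw [hP, Finset.mem_product, Finset.mem_Icc, Finset.mem_range] at hi
    exact ⟨hi.1.1, hi.1.2, by omega⟩
  have hlimT : ∀ i ∈ P, Tendsto (fun n => T i n / (n : ℝ) ^ E i) atTop (𝓝 1) :=
    fun i hi => T_lim s hs hs1 i.1 i.2 (hPm i hi).1
  -- the total sum is bounded on the path
  have htot : ∀ᶠ n : ℕ in atTop, |∑ i ∈ P, c i * T i n| ≤ 64 * |C1| + |C2| * 2 ^ (m - 2) := by
    have e1 := (Ovl.tendsto_pow_top s hs).eventually_ge_atTop 4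
    have e2 := (Ovl.tendsto_pow_top (1 - s) (by linarith)).eventually_ge_atTop 3
    have e3 := (Ovl.tendsto_pow_top (σ0 - s) (by linarith)).eventually_ge_atTop 2
    filter_upwards [e1, e2, e3, eventually_ge_atTop (max (max n1 n2) 3)] with n h1 h2 h3 h4
    have hn1 : n1 ≤ n := by omega
    have hn2 : n2 ≤ n := by omega
    have hn : 3 ≤ n := by omega
    have hnR : (3 : ℝ) ≤ n := by exact_mod_cast hn
    have hn0 : (0 : ℝ) < n := by linarith
    have hnn1 : (1 : ℝ) ≤ n := by linarith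
    have f1 : (n : ℝ) = (n : ℝ) ^ s * (n : ℝ) ^ (1 - s) := by
      rw [← Real.rpow_add hn0, add_sub_cancel, Real.rpow_one]
    have f2 : (n : ℝ) ^ σ0 = (n : ℝ) ^ s * (n : ℝ) ^ (σ0 - s) := by
      rw [← Real.rpow_add hn0, add_sub_cancel]
    have f3 : 2 * (n : ℝ) ^ s + 4 ≤ n := by nlinarith
    have f4 : (n : ℝ) ^ s + 2 ≤ (n : ℝ) ^ σ0 := by nlinarith
    have f5 : (n : ℝ) ^ s0 ≤ (n : ℝ) ^ s := Real.rpow_le_rpow_of_exponent_le hnn1 hs0s.le
    have f6 : (n : ℝ) ^ σ0 ≤ (n : ℝ) ^ σ := Real.rpow_le_rpow_of_exponent_le hnn1 hσσ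
    have g1 := Ovl.dd_ge s n
    have g2 := Ovl.dd_le s n
    have hd : 1 ≤ Ovl.dd s n := by unfold Ovl.dd; omega
    have hdn : Ovl.dd s n ≤ n - 2 := by
      have : (Ovl.dd s n : ℝ) + 2 ≤ n := by linarith
      have : Ovl.dd s n + 2 ≤ n := by exact_mod_cast this
      omega
    have he : Even (Ovl.dd s n * n) := by
      unfold Ovl.dd
      rw [mul_assoc]
      exact even_two_mul _
    have hmin : (n : ℝ) ^ s0 ≤ min (Ovl.dd s n : ℝ) ((n : ℝ) - 1 - Ovl.dd s n) :=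
      le_min (by linarith) (by linarith)
    have k1 := hI n (Ovl.dd s n) hn2 hd hdn he hmin
    have k2 := hS n (Ovl.dd s n) hn1 hd hdn he (Or.inl (by linarith))
    have k3 := Ovl.Q_le n (Ovl.dd s n) hd hdn
    obtain ⟨_, hd1, he1, _⟩ := Ovl.adm n (Ovl.dd s n) hd hdn
    have hL := Ovl.Lam_pos n (Ovl.dd s n) hd hdn
    have hL1 := Ovl.Lam_le_one n (Ovl.dd s n)
    have hy := Ovl.y_ge n (Ovl.dd s n) hd hdn
    rw [Ovl.log_Mnd n _ hd hdn] at k2
    set L := Lam n (Ovl.dd s n) with hLdef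
    set Q := (L * n) ^ 3 * (n : ℝ) ^ 4 with hQ
    have hQ0 : 0 < Q := by positivity
    have hKd : 0 < ((Ovl.dd s n : ℕ) : ℝ) ^ 3 * ((n : ℝ) - (Ovl.dd s n : ℕ)) ^ 3 * n := by
      have : 0 < (n : ℝ) - (Ovl.dd s n : ℕ) := by linarith
      positivity
    have k4 : |Q * (Real.log (RG n (Ovl.dd s n)) - (Real.log (Bnd n (Ovl.dd s n))
        + S7 n (Ovl.dd s n)))| ≤ 64 * |C1| := by
      rw [abs_mul, abs_of_pos hQ0]
      rw [le_div_iff₀ hKd] at k2
      have k5 := le_abs_self C1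
      calc Q * |Real.log (RG n (Ovl.dd s n)) - (Real.log (Bnd n (Ovl.dd s n))
        + S7 n (Ovl.dd s n))|
          ≤ (64 * (((Ovl.dd s n : ℕ) : ℝ) ^ 3 * ((n : ℝ) - (Ovl.dd s n : ℕ)) ^ 3 * n))
            * |Real.log (RG n (Ovl.dd s n)) - (Real.log (Bnd n (Ovl.dd s n))
        + S7 n (Ovl.dd s n))| :=
            mul_le_mul_of_nonneg_right k3 (abs_nonneg _)
        _ = 64 * (|Real.log (RG n (Ovl.dd s n)) - (Real.log (Bnd n (Ovl.dd s n))
        + S7 n (Ovl.dd s n))|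
            * (((Ovl.dd s n : ℕ) : ℝ) ^ 3 * ((n : ℝ) - (Ovl.dd s n : ℕ)) ^ 3 * n)) := by ring
        _ ≤ 64 * C1 := by linarith
        _ ≤ 64 * |C1| := by linarith
    have k6 : |Q * (Real.log (RG n (Ovl.dd s n)) - (Real.log (Bnd n (Ovl.dd s n))
        + ∑ j ∈ Finset.Icc 1 m, (q j).eval L / (L ^ j * (n : ℝ) ^ (j - 1))))|
        ≤ |C2| * 2 ^ (m - 2) := by
      have e3 : Q / (L ^ (m + 1) * (n : ℝ) ^ m) = (n : ℝ) ^ 5 / (L * n) ^ (m - 2) := by
        obtain ⟨r, rfl⟩ : ∃ r, m = r + 2 := ⟨m - 2, by omega⟩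
        rw [Nat.add_sub_cancel, div_eq_div_iff (by positivity) (by positivity), hQ]
        ring
      have e4 : (n : ℝ) ^ 5 / (L * n) ^ (m - 2) ≤ 2 ^ (m - 2) :=
        Ovl.harmless (n : ℝ) (L * n) s0 hnn1 (by linarith) 5 (m - 2) (by push_cast; exact hms)
      rw [abs_mul, abs_of_pos hQ0]
      calc Q * |Real.log (RG n (Ovl.dd s n)) - (Real.log (Bnd n (Ovl.dd s n))
        + ∑ j ∈ Finset.Icc 1 m, (q j).eval L / (L ^ j * (n : ℝ) ^ (j - 1)))|
          ≤ Q * (C2 / (L ^ (m + 1) * (n : ℝ) ^ m)) := mul_le_mul_of_nonneg_left k1 hQ0.le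
        _ = C2 * (Q / (L ^ (m + 1) * (n : ℝ) ^ m)) := by ring
        _ ≤ |C2| * (Q / (L ^ (m + 1) * (n : ℝ) ^ m)) :=
            mul_le_mul_of_nonneg_right (le_abs_self C2) (by positivity)
        _ ≤ |C2| * 2 ^ (m - 2) := by
            rw [e3]; exact mul_le_mul_of_nonneg_left e4 (abs_nonneg _)
    -- the difference
    have hsum : ∑ i ∈ P, c i * T i n
        = Q * ((∑ j ∈ Finset.Icc 1 m, (q j).eval L / (L ^ j * (n : ℝ) ^ (j - 1)))
          - S7 n (Ovl.dd s n)) := by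
      have a1 : S7 n (Ovl.dd s n) = ∑ j ∈ Finset.Icc 1 m,
          (if j ≤ 7 then pp j else 0 : Polynomial ℝ).eval L / (L ^ j * (n : ℝ) ^ (j - 1)) := by
        have a2 : Finset.Icc 1 m = Finset.Icc 1 7 ∪ Finset.Icc 8 m := by
          ext x; simp only [Finset.mem_union, Finset.mem_Icc]; omega
        have a3 : Disjoint (Finset.Icc 1 7) (Finset.Icc 8 m) := by
          rw [Finset.disjoint_left]; intro x; simp only [Finset.mem_Icc]; omega
        rw [a2, Finset.sum_union a3]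
        have a4 : ∑ j ∈ Finset.Icc 8 m,
            (if j ≤ 7 then pp j else 0 : Polynomial ℝ).eval L / (L ^ j * (n : ℝ) ^ (j - 1)) = 0 := by
          refine Finset.sum_eq_zero (fun j hj => ?_)
          rw [Finset.mem_Icc] at hj
          rw [if_neg (by omega)]
          simp
        rw [a4, add_zero]
        unfold S7
        refine Finset.sum_congr rfl (fun j hj => ?_)
        have hj' := Finset.mem_Icc.mp hj
        rw [if_pos hj'.2, pp_eval j hj]
      rw [a1, ← Finset.sum_sub_distrib, hP, Finset.sum_product, Finset.mul_sum]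
      refine Finset.sum_congr rfl (fun j hj => ?_)
      rw [Finset.mem_Icc] at hj
      have a5 : (q j).eval L / (L ^ j * (n : ℝ) ^ (j - 1))
          - (if j ≤ 7 then pp j else 0 : Polynomial ℝ).eval L / (L ^ j * (n : ℝ) ^ (j - 1))
          = (Dq q j).eval L / (L ^ j * (n : ℝ) ^ (j - 1)) := by
        unfold Dq
        rw [Polynomial.eval_sub, sub_div]
      rw [a5, Polynomial.eval_eq_sum_range' (lt_of_le_of_lt (Dq_deg q hdeg j)
        (by omega : j < m + 1)) L, Finset.sum_div, Finset.mul_sum]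
      refine Finset.sum_congr rfl (fun k _ => ?_)
      simp only [hc, hT]
      ring
    have heq : ∑ i ∈ P, c i * T i n
        = Q * (Real.log (RG n (Ovl.dd s n)) - (Real.log (Bnd n (Ovl.dd s n))
        + S7 n (Ovl.dd s n)))
        - Q * (Real.log (RG n (Ovl.dd s n)) - (Real.log (Bnd n (Ovl.dd s n))
        + ∑ j ∈ Finset.Icc 1 m, (q j).eval L / (L ^ j * (n : ℝ) ^ (j - 1)))) := by
      rw [hsum]; ring
    rw [heq]
    exact (abs_sub _ _).trans (add_le_add k4 k6)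
  -- terms with exponent ≤ 0 are bounded
  set S := P.filter (fun i => 0 < E i) with hSdef
  have hbnd : ∀ᶠ n : ℕ in atTop, ∀ i ∈ P.filter (fun i => ¬ 0 < E i), |T i n| ≤ 2 := by
    rw [Filter.eventually_all_finset]
    intro i hi
    rw [Finset.mem_filter] at hi
    have h1 := (hlimT i hi.1).eventually (Icc_mem_nhds (by norm_num : (0 : ℝ) < 1)
      (by norm_num : (1 : ℝ) < 2))
    filter_upwards [h1, eventually_ge_atTop 1] with n hn hn1
    have hn0 : (1 : ℝ) ≤ n := by exact_mod_cast hn1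
    have hp : 0 < (n : ℝ) ^ E i := Real.rpow_pos_of_pos (by linarith) _
    have hp1 : (n : ℝ) ^ E i ≤ 1 := Real.rpow_le_one_of_one_le_of_nonpos hn0 (not_lt.mp hi.2)
    obtain ⟨a, b⟩ := hn
    rw [le_div_iff₀ hp, zero_mul] at a
    rw [div_le_iff₀ hp] at b
    rw [abs_of_nonneg a]
    linarith
  have hvan : ∀ i ∈ S, c i = 0 := by
    refine Ovl.growth S c E T ?_ ?_ ?_
      (64 * |C1| + |C2| * 2 ^ (m - 2) + ∑ i ∈ P.filter (fun i => ¬ 0 < E i), |c i| * 2) ?_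
    · intro i hi; exact (Finset.mem_filter.mp hi).2
    · intro i hi i' hi' hEE
      have hi2 := hPm i (Finset.mem_filter.mp (Finset.mem_coe.mp hi)).1
      have hi2' := hPm i' (Finset.mem_filter.mp (Finset.mem_coe.mp hi')).1
      obtain ⟨j, k⟩ := i
      obtain ⟨j', k'⟩ := i'
      simp only [hE] at hi2 hi2' hEE
      have ht : (k : ℤ) - j = (k' : ℤ) - j' := by
        by_contra hne
        have hne' : (((k : ℤ) - j : ℤ) : ℝ) - (((k' : ℤ) - j' : ℤ) : ℝ) ≠ 0 := by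
          rw [sub_ne_zero]; exact_mod_cast hne
        apply hirr
        refine ⟨((k : ℚ) - k') / ((((k : ℤ) - j : ℤ) : ℚ) - (((k' : ℤ) - j' : ℤ) : ℚ)), ?_⟩
        push_cast at hne' ⊢
        rw [div_eq_iff hne']
        linarith
      have hk : k = k' := by
        have ht' : (k : ℝ) - j = (k' : ℝ) - j' := by exact_mod_cast ht
        have e1 : s * (3 + (k : ℝ) - j) = s * (3 + (k' : ℝ) - j') := by
          congr 1; linarith
        have : (k : ℝ) = k' := by linarith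
        exact_mod_cast this
      subst hk
      have : j = j' := by omega
      rw [this]
    · intro i hi
      exact hlimT i (Finset.mem_filter.mp hi).1
    · filter_upwards [htot, hbnd] with n h1 h2
      rw [← Finset.sum_filter_add_sum_filter_not P (fun i => 0 < E i)] at h1
      have h3 : |∑ i ∈ P.filter (fun i => ¬ 0 < E i), c i * T i n|
          ≤ ∑ i ∈ P.filter (fun i => ¬ 0 < E i), |c i| * 2 := by
        refine (Finset.abs_sum_le_sum_abs _ _).trans (Finset.sum_le_sum (fun i hi => ?_))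
        rw [abs_mul]
        exact mul_le_mul_of_nonneg_left (h2 i hi) (abs_nonneg _)
      have h4 : ∑ i ∈ S, c i * T i n = (∑ i ∈ P.filter (fun i => 0 < E i), c i * T i n
          + ∑ i ∈ P.filter (fun i => ¬ 0 < E i), c i * T i n)
          - ∑ i ∈ P.filter (fun i => ¬ 0 < E i), c i * T i n := by rw [hSdef]; ring
      rw [h4]
      exact (abs_sub _ _).trans (add_le_add h1 h3)
  intro j hj k hk
  have hj' := Finset.mem_Icc.mp hj
  refine hvan (j, k) ?_
  rw [hSdef, Finset.mem_filter]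
  refine ⟨?_, ?_⟩
  · rw [hP, Finset.mem_product, Finset.mem_Icc, Finset.mem_range]
    exact ⟨⟨hj'.1, by simp only; omega⟩, by simp only; omega⟩
  · simp only [hE]
    have hj7 : (j : ℝ) ≤ 7 := by exact_mod_cast hj'.2
    rcases Nat.lt_or_ge k 5 with hk5 | hk5
    · have hk4 : (k : ℝ) ≤ 4 := by exact_mod_cast (by omega : k ≤ 4)
      have hk0 : (0 : ℝ) ≤ k := Nat.cast_nonneg k
      have h1 : s * (3 + (k : ℝ) - j) ≥ s * (-4) :=
        mul_le_mul_of_nonneg_left (by linarith) hs.le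
      linarith
    · have hk5' : k = 5 := by omega
      subst hk5'
      have h1 : s * (3 + ((5 : ℕ) : ℝ) - j) ≥ s * 1 :=
        mul_le_mul_of_nonneg_left (by push_cast; linarith) hs.le
      push_cast at h1 ⊢
      linarith

/-- all coefficients of degree `≤ 5` vanish -/
lemma zero_of_low (D : Polynomial ℝ) (j : ℕ) (hd : D.natDegree ≤ j) (hj : j ≤ 5)
    (h : ∀ k ≤ 5, D.coeff k = 0) : D = 0 := by
  ext k
  rw [Polynomial.coeff_zero]
  rcases Nat.lt_or_ge j k with hk | hk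
  · exact Polynomial.coeff_eq_zero_of_natDegree_lt (lt_of_le_of_lt hd hk)
  · exact h k (hk.trans hj)

theorem eq7 (hFinal : Stmt_Final) (q : ℕ → Polynomial ℝ)
    (hdeg : ∀ j, (q j).natDegree ≤ j)
    (hIM : ∀ σ : ℝ, 0 < σ → ∀ m : ℕ, 1 ≤ m → ∃ C : ℝ, ∃ n₀ : ℕ, ∀ n d : ℕ, n₀ ≤ n → 1 ≤ d →
      d ≤ n - 2 → Even (d * n) → (n : ℝ) ^ σ ≤ min (d : ℝ) ((n : ℝ) - 1 - d) →
      |Real.log (RG n d) - (Real.log (Bnd n d)
        + ∑ j ∈ Finset.Icc 1 m, (q j).eval (Lam n d) / (Lam n d ^ j * (n : ℝ) ^ (j - 1)))|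
        ≤ C / (Lam n d ^ (m + 1) * (n : ℝ) ^ m))
    (h6 : (q 6).eval (1 / 4) = pj 6 (1 / 4)) (h7 : (q 7).eval (1 / 4) = pj 7 (1 / 4))
    (h75 : (q 7).eval (1 / 5) = pj 7 (1 / 5)) :
    ∀ j ∈ Finset.Icc 1 7, ∀ x : ℝ, (q j).eval x = pj j x := by
  have hM := matchCoeff hFinal q hdeg hIM
  have hD : ∀ j ∈ Finset.Icc 1 7, Dq q j = 0 := by
    intro j hj
    have hj' := Finset.mem_Icc.mp hj
    have hd := Dq_deg q hdeg j
    have hc := hM j hj
    rcases Nat.lt_or_ge j 6 with hj6 | hj6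
    · exact zero_of_low _ j hd (by omega) hc
    · rcases Nat.lt_or_ge j 7 with hj7 | hj7
      · have hj6' : j = 6 := by omega
        subst hj6'
        have e1 : (Dq q 6).eval (1 / 4) = 0 := by
          unfold Dq
          rw [if_pos (by norm_num), Polynomial.eval_sub, h6, pp_eval 6 (by simp), sub_self]
        rw [Polynomial.eval_eq_sum_range' (lt_of_le_of_lt hd (by norm_num : 6 < 7))] at e1
        simp only [Finset.sum_range_succ, Finset.sum_range_zero, hc 0 (by norm_num),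
          hc 1 (by norm_num), hc 2 (by norm_num), hc 3 (by norm_num), hc 4 (by norm_num),
          hc 5 (by norm_num)] at e1
        have e2 : (Dq q 6).coeff 6 = 0 := by
          norm_num at e1
          exact e1
        ext k
        rw [Polynomial.coeff_zero]
        rcases Nat.lt_or_ge 6 k with hk | hk
        · exact Polynomial.coeff_eq_zero_of_natDegree_lt (lt_of_le_of_lt hd hk)
        · rcases Nat.lt_or_ge k 6 with hk' | hk'
          · exact hc k (by omega)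
          · rw [show k = 6 by omega]; exact e2
      · have hj7' : j = 7 := by omega
        subst hj7'
        have e1 : (Dq q 7).eval (1 / 4) = 0 := by
          unfold Dq
          rw [if_pos (by norm_num), Polynomial.eval_sub, h7, pp_eval 7 (by simp), sub_self]
        have e1' : (Dq q 7).eval (1 / 5) = 0 := by
          unfold Dq
          rw [if_pos (by norm_num), Polynomial.eval_sub, h75, pp_eval 7 (by simp), sub_self]
        rw [Polynomial.eval_eq_sum_range' (lt_of_le_of_lt hd (by norm_num : 7 < 8))] at e1 e1'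
        simp only [Finset.sum_range_succ, Finset.sum_range_zero, hc 0 (by norm_num),
          hc 1 (by norm_num), hc 2 (by norm_num), hc 3 (by norm_num), hc 4 (by norm_num),
          hc 5 (by norm_num)] at e1 e1'
        have e2 : (Dq q 7).coeff 7 = 0 := by
          norm_num at e1 e1'
          linarith
        have e3 : (Dq q 7).coeff 6 = 0 := by
          norm_num at e1 e1'
          linarith
        ext k
        rw [Polynomial.coeff_zero]
        rcases Nat.lt_or_ge 7 k with hk | hk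
        · exact Polynomial.coeff_eq_zero_of_natDegree_lt (lt_of_le_of_lt hd hk)
        · rcases Nat.lt_or_ge k 6 with hk' | hk'
          · exact hc k (by omega)
          · rcases Nat.lt_or_ge k 7 with hk'' | hk''
            · rw [show k = 6 by omega]; exact e3
            · rw [show k = 7 by omega]; exact e2
  intro j hj x
  have h1 := hD j hj
  unfold Dq at h1
  rw [if_pos (Finset.mem_Icc.mp hj).2, sub_eq_zero] at h1
  rw [h1, pp_eval j hj]

end Full

open Full in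
/-- Q1 for all degrees -/
theorem full_proof (hFinal : Stmt_Final) (hCompl : Stmt_Compl) (hUid : Stmt_Uid)
    (hDeg : Stmt_Deg) (hPar : Stmt_Parity) (hComp : Stmt_Comp) (hSoft : Stmt_Soft) :
    Stmt_Full := by
  have hIM := Im.im hUid hDeg hPar hSoft hCompl
  obtain ⟨h6, h7, h75⟩ := Im.qj_vals hDeg hPar hComp
  have h8 := eq7 hFinal Im.qj Im.qj_deg hIM h6 h7 h75
  exact overlap hFinal (fun σ hσ => ⟨Im.qj, Im.qj_deg, h8, fun m hm => hIM σ hσ m hm⟩)

end Pool.Agent.RGD
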