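import Pool.Agent.RGD.Stmts

/-!
GSUM: sums of Gaussians over the grid.
-/

set_option autoImplicit false

namespace Pool.Agent.RGD

open Finset Pool.Agent.RGA

namespace GsumAux

lemma ss_eq (n : ℕ) (k : Fin (2 * n)) :
    ss n k = 1 - Real.cos (Real.pi * (k : ℕ) / n) := by
  unfold ss ee
  rw [Complex.exp_ofReal_mul_I_re]

lemma ss_nonneg (n : ℕ) (k : Fin (2 * n)) : 0 ≤ ss n k := by
  rw [ss_eq]
  have := Real.cos_le_one (Real.pi * (k : ℕ) / n)
  linarith

lemma quad (x : ℝ) (hx : |x| ≤ 1) : 2 * x ^ 2 ≤ 1 - Real.cos (Real.pi * x) := by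
  have hpi := Real.pi_pos
  have h := Real.cos_le_one_sub_mul_cos_sq (x := Real.pi * x) (by
    rw [abs_mul, abs_of_pos hpi]
    nlinarith [abs_nonneg x])
  have h2 : 2 / Real.pi ^ 2 * (Real.pi * x) ^ 2 = 2 * x ^ 2 := by
    field_simp
  rw [h2] at h
  linarith

lemma ss_ge (n : ℕ) (hn : 1 ≤ n) (k : Fin (2 * n)) (hk : (k : ℕ) ≤ n) :
    2 * (((k : ℕ) : ℝ) / n) ^ 2 ≤ ss n k := by
  have hn' : (0 : ℝ) < n := by exact_mod_cast hn
  have h1 : |(((k : ℕ) : ℝ) / n)| ≤ 1 := by
    rw [abs_of_nonneg (by positivity), div_le_one hn']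
    exact_mod_cast hk
  have h := quad _ h1
  rw [ss_eq, show Real.pi * ((k : ℕ) : ℝ) / n = Real.pi * (((k : ℕ) : ℝ) / n) by ring]
  exact h

lemma ss_ge' (n : ℕ) (hn : 1 ≤ n) (k : Fin (2 * n)) (hk : n ≤ (k : ℕ)) :
    2 * (((2 * n - (k : ℕ) : ℕ) : ℝ) / n) ^ 2 ≤ ss n k := by
  have hn' : (0 : ℝ) < n := by exact_mod_cast hn
  have hk2 : (k : ℕ) ≤ 2 * n := k.isLt.le
  have hle : 2 * n - (k : ℕ) ≤ n := by omega
  have h1 : |(((2 * n - (k : ℕ) : ℕ) : ℝ) / n)| ≤ 1 := by
    rw [abs_of_nonneg (by positivity), div_le_one hn']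
    exact_mod_cast hle
  have h := quad _ h1
  rw [ss_eq]
  have h2 : Real.pi * (((2 * n - (k : ℕ) : ℕ) : ℝ) / n)
      = 2 * Real.pi - Real.pi * ((k : ℕ) : ℝ) / n := by
    rw [Nat.cast_sub hk2]
    push_cast
    field_simp
  rw [h2, Real.cos_two_pi_sub] at h
  exact h

/-- the comparison function -/
noncomputable def ff (h : ℝ) (j : ℕ) : ℝ := 2 / (1 + h * j) ^ 2

lemma ff_nonneg (h : ℝ) (j : ℕ) : 0 ≤ ff h j := by
  unfold ff; positivity

lemma inv_le_ff (h : ℝ) (hh : 0 < h) (j : ℕ) (x : ℝ) (hx : (h * j) ^ 2 ≤ x) :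
    1 / (1 + x) ≤ ff h j := by
  unfold ff
  have h0 : 0 ≤ h * j := by positivity
  have h1 : 0 ≤ (h * j) ^ 2 := by positivity
  rw [div_le_div_iff₀ (by linarith) (by positivity)]
  nlinarith [sq_nonneg (h * j - 1)]

lemma sum_ff (h : ℝ) (hh : 0 < h) (m : ℕ) :
    ∑ j ∈ range m, h * ff h (j + 1) ≤ 2 * (1 - 1 / (1 + h * m)) := by
  induction m with
  | zero => simp
  | succ m ih =>
    rw [sum_range_succ]
    have hm : (0 : ℝ) ≤ m := by positivity
    have h1 : 0 < 1 + h * m := by positivity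
    have h2 : 0 < 1 + h * (m + 1) := by positivity
    have key : h * ff h (m + 1) ≤ 2 * (1 / (1 + h * m) - 1 / (1 + h * (m + 1))) := by
      unfold ff
      push_cast
      have e1 : 2 * (1 / (1 + h * m) - 1 / (1 + h * (m + 1)))
          = 2 * h / ((1 + h * m) * (1 + h * (m + 1))) := by
        field_simp
        ring
      rw [e1]
      have e2 : h * (2 / (1 + h * (m + 1)) ^ 2) = 2 * h / (1 + h * (m + 1)) ^ 2 := by ring
      rw [e2]
      apply div_le_div_of_nonneg_left (by positivity) (by positivity)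
      rw [sq]
      apply mul_le_mul_of_nonneg_right _ h2.le
      nlinarith
    push_cast
    linarith

lemma sum_ff' (h : ℝ) (hh : 0 < h) (m : ℕ) :
    ∑ j ∈ range m, ff h (j + 1) ≤ 2 / h := by
  have h1 := sum_ff h hh m
  rw [← mul_sum] at h1
  have h2 : 0 < 1 / (1 + h * (m : ℝ)) := by positivity
  rw [le_div_iff₀ hh]
  linarith

/-- the one variable bound -/
lemma term_le (p : ℕ) (a : ℝ) (ha : 0 < a) (x : ℝ) (hx : 0 ≤ x) :
    x ^ p * Real.exp (-(a * x)) ≤
      ((p.factorial : ℝ) / a ^ p + ((p + 1).factorial : ℝ) / a ^ (p + 1)) * (1 / (1 + x)) := by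
  have hax : 0 ≤ a * x := by positivity
  have h1 := Real.pow_div_factorial_le_exp (a * x) hax p
  have h2 := Real.pow_div_factorial_le_exp (a * x) hax (p + 1)
  have hp : (0 : ℝ) < p.factorial := by exact_mod_cast Nat.factorial_pos p
  have hp1 : (0 : ℝ) < (p + 1).factorial := by exact_mod_cast Nat.factorial_pos (p + 1)
  rw [div_le_iff₀ hp, mul_pow] at h1
  rw [div_le_iff₀ hp1, mul_pow] at h2
  have hE : 0 < Real.exp (a * x) := Real.exp_pos _
  have h1' : x ^ p ≤ (p.factorial : ℝ) / a ^ p * Real.exp (a * x) := by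
    rw [div_mul_eq_mul_div, le_div_iff₀ (by positivity)]
    linarith
  have h2' : x ^ (p + 1) ≤ ((p + 1).factorial : ℝ) / a ^ (p + 1) * Real.exp (a * x) := by
    rw [div_mul_eq_mul_div, le_div_iff₀ (by positivity)]
    linarith
  rw [Real.exp_neg, mul_one_div, ← div_eq_mul_inv, div_le_div_iff₀ hE (by linarith)]
  calc x ^ p * (1 + x) = x ^ p + x ^ (p + 1) := by ring
    _ ≤ (p.factorial : ℝ) / a ^ p * Real.exp (a * x)
        + ((p + 1).factorial : ℝ) / a ^ (p + 1) * Real.exp (a * x) := add_le_add h1' h2'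
    _ = _ := by ring

end GsumAux

open GsumAux

theorem gsum_proof (hUid : Stmt_Uid) (hBlow : Stmt_Blow) : Stmt_Gsum := by
  intro p a ha
  obtain ⟨c, hc, hB⟩ := hBlow
  set A : ℝ := (p.factorial : ℝ) / a ^ p + ((p + 1).factorial : ℝ) / a ^ (p + 1) with hA
  have hA0 : 0 ≤ A := by rw [hA]; positivity
  refine ⟨A * (5 / c), ?_⟩
  intro n d hd hdn
  obtain ⟨⟨_, _, _, _, _, _, hy1, hy2, hb⟩, _⟩ := hUid n d hd hdn
  have hcb := hB n d hd hdn
  have hn : 1 ≤ n := by omega
  have hn' : (1 : ℝ) ≤ n := by exact_mod_cast hn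
  have hn0 : (0 : ℝ) < n := by linarith
  set y := yy n d with hy
  have hy0 : 0 < y := by linarith
  have hsy : 0 < Real.sqrt y := Real.sqrt_pos.mpr hy0
  have hsq : Real.sqrt y ^ 2 = y := Real.sq_sqrt hy0.le
  -- step
  set h : ℝ := Real.sqrt y / n with hh
  have hhp : 0 < h := by positivity
  have hh1 : h ≤ 1 := by
    rw [hh, div_le_one hn0]
    have : Real.sqrt y ^ 2 ≤ (n : ℝ) ^ 2 := by rw [hsq]; nlinarith
    exact le_of_sq_le_sq this hn0.le
  have hs : ∀ k : Fin (2 * n), 0 ≤ y * ss n k := fun k => mul_nonneg hy0.le (ss_nonneg n k)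
  have hterm : ∀ k : Fin (2 * n), 1 / (1 + y * ss n k) ≤ ff h (k : ℕ) + ff h (2 * n - (k : ℕ)) := by
    intro k
    rcases le_total (k : ℕ) n with hk | hk
    · have h1 := ss_ge n hn k hk
      have h2 : (h * ((k : ℕ) : ℝ)) ^ 2 ≤ y * ss n k := by
        have e : (h * ((k : ℕ) : ℝ)) ^ 2 = y * (((k : ℕ) : ℝ) / n) ^ 2 := by
          rw [hh]
          have : (Real.sqrt y / n * ((k : ℕ) : ℝ)) ^ 2
              = Real.sqrt y ^ 2 * (((k : ℕ) : ℝ) / n) ^ 2 := by ring
          rw [this, hsq]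
        rw [e]
        apply mul_le_mul_of_nonneg_left _ hy0.le
        have : 0 ≤ (((k : ℕ) : ℝ) / n) ^ 2 := by positivity
        linarith
      have h3 := inv_le_ff h hhp (k : ℕ) _ h2
      have h4 := ff_nonneg h (2 * n - (k : ℕ))
      linarith
    · have h1 := ss_ge' n hn k hk
      have h2 : (h * ((2 * n - (k : ℕ) : ℕ) : ℝ)) ^ 2 ≤ y * ss n k := by
        have e : (h * ((2 * n - (k : ℕ) : ℕ) : ℝ)) ^ 2
            = y * (((2 * n - (k : ℕ) : ℕ) : ℝ) / n) ^ 2 := by
          rw [hh]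
          have : (Real.sqrt y / n * ((2 * n - (k : ℕ) : ℕ) : ℝ)) ^ 2
              = Real.sqrt y ^ 2 * (((2 * n - (k : ℕ) : ℕ) : ℝ) / n) ^ 2 := by ring
          rw [this, hsq]
        rw [e]
        apply mul_le_mul_of_nonneg_left _ hy0.le
        have : 0 ≤ (((2 * n - (k : ℕ) : ℕ) : ℝ) / n) ^ 2 := by positivity
        linarith
      have h3 := inv_le_ff h hhp (2 * n - (k : ℕ)) _ h2
      have h4 := ff_nonneg h (k : ℕ)
      linarith
  have hsum : ∑ k : Fin (2 * n), (ff h (k : ℕ) + ff h (2 * n - (k : ℕ))) ≤ 10 / h := by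
    rw [sum_add_distrib]
    have e1 : ∑ k : Fin (2 * n), ff h (k : ℕ) = ∑ j ∈ range (2 * n), ff h j :=
      Fin.sum_univ_eq_sum_range (fun j => ff h j) (2 * n)
    have e2 : ∑ k : Fin (2 * n), ff h (2 * n - (k : ℕ)) = ∑ j ∈ range (2 * n), ff h (j + 1) := by
      rw [Fin.sum_univ_eq_sum_range (fun j => ff h (2 * n - j)) (2 * n)]
      rw [← sum_range_reflect]
      apply sum_congr rfl
      intro j hj
      rw [mem_range] at hj
      congr 1
      omega
    have e3 : ∑ j ∈ range (2 * n), ff h j ≤ 2 + 2 / h := by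
      have : 2 * n = (2 * n - 1) + 1 := by omega
      rw [this, sum_range_succ']
      have h1 := sum_ff' h hhp (2 * n - 1)
      have h2 : ff h 0 = 2 := by unfold ff; simp
      rw [h2]
      linarith
    have e4 := sum_ff' h hhp (2 * n)
    rw [e1, e2]
    have e5 : 1 ≤ 1 / h := by rw [le_div_iff₀ hhp]; linarith
    have e6 : 2 / h = 2 * (1 / h) := by ring
    have e7 : 10 / h = 10 * (1 / h) := by ring
    rw [e7]
    rw [e6] at e3 e4
    linarith
  have hfin : ∑ k : Fin (2 * n), 1 / (1 + y * ss n k) ≤ 10 / h :=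
    (sum_le_sum (fun k _ => hterm k)).trans hsum
  calc ∑ k, (y * ss n k) ^ p * wt n d a k
      ≤ ∑ k : Fin (2 * n), A * (1 / (1 + y * ss n k)) / (2 * n * bb n d) := by
        apply sum_le_sum
        intro k _
        unfold wt
        rw [← hy, ← mul_div_assoc]
        apply div_le_div_of_nonneg_right _ (by positivity)
        have := term_le p a ha (y * ss n k) (hs k)
        rw [← hA, ← mul_assoc a] at this
        exact this
    _ = A * (∑ k : Fin (2 * n), 1 / (1 + y * ss n k)) / (2 * n * bb n d) := by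
        rw [mul_sum, sum_div]
    _ ≤ A * (10 / h) / (2 * n * bb n d) := by
        apply div_le_div_of_nonneg_right _ (by positivity)
        exact mul_le_mul_of_nonneg_left hfin hA0
    _ = A * (5 / (bb n d * Real.sqrt y)) := by
        rw [hh]
        field_simp
        ring
    _ ≤ A * (5 / c) := by
        apply mul_le_mul_of_nonneg_left _ hA0
        exact div_le_div_of_nonneg_left (by norm_num) hc hcb

end Pool.Agent.RGD
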