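import Pool.Agent.RGD.Stmts

/-!
RGD, module GX: the tilted Gaussian integral of a polynomial.
-/

set_option autoImplicit false

namespace Pool.Agent.RGD

open Finset MeasureTheory ProbabilityTheory

namespace GxP

/-! ### one dimension, Lebesgue measure -/

/-- the integrand `x^a exp (- b x² + s x)` -/
noncomputable def ff (b : ℝ) (s : ℂ) (a : ℕ) (x : ℝ) : ℂ :=
  (x : ℂ) ^ a * Complex.exp (-(b : ℂ) * (x : ℂ) ^ 2 + s * (x : ℂ))

lemma ff_cont (b : ℝ) (s : ℂ) (a : ℕ) : Continuous (ff b s a) := by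
  unfold ff
  fun_prop

lemma norm_ff (b : ℝ) (s : ℂ) (hs : s.re = 0) (a : ℕ) (x : ℝ) :
    ‖ff b s a x‖ = ‖x ^ a * Real.exp (-b * x ^ 2)‖ := by
  unfold ff
  rw [norm_mul, norm_mul, norm_pow, Complex.norm_exp, Complex.norm_real, norm_pow,
    Real.norm_of_nonneg (Real.exp_pos _).le]
  congr 2
  have h1 : (-(b : ℂ) * (x : ℂ) ^ 2) = ((-b * x ^ 2 : ℝ) : ℂ) := by push_cast; ring
  rw [h1, Complex.add_re, Complex.ofReal_re, Complex.mul_re, hs, Complex.ofReal_im]
  ring

lemma ff_int (b : ℝ) (hb : 0 < b) (s : ℂ) (hs : s.re = 0) (a : ℕ) : Integrable (ff b s a) := by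
  have h1 : Integrable (fun x : ℝ => x ^ a * Real.exp (-b * x ^ 2)) := by
    have h := integrable_rpow_mul_exp_neg_mul_sq hb
      (lt_of_lt_of_le (by norm_num : (-1 : ℝ) < 0) (Nat.cast_nonneg a))
    simpa only [Real.rpow_natCast] using h
  refine Integrable.mono h1 (ff_cont b s a).aestronglyMeasurable ?_
  exact Filter.Eventually.of_forall (fun x => le_of_eq (norm_ff b s hs a x))

lemma ff_deriv (b : ℝ) (s : ℂ) (a : ℕ) (x : ℝ) :
    HasDerivAt (ff b s (a + 1))
      (((a : ℂ) + 1) * ff b s a x - 2 * b * ff b s (a + 2) x + s * ff b s (a + 1) x) x := by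
  have h1 : HasDerivAt (fun z : ℂ => z ^ (a + 1) * Complex.exp (-(b : ℂ) * z ^ 2 + s * z))
      (((a : ℂ) + 1) * (x : ℂ) ^ a * Complex.exp (-(b : ℂ) * (x : ℂ) ^ 2 + s * x)
        + (x : ℂ) ^ (a + 1) * (Complex.exp (-(b : ℂ) * (x : ℂ) ^ 2 + s * x)
          * (-(b : ℂ) * (2 * x) + s))) (x : ℂ) := by
    have h2 : HasDerivAt (fun z : ℂ => z ^ (a + 1)) (((a : ℂ) + 1) * (x : ℂ) ^ a) (x : ℂ) := by
      have h := hasDerivAt_pow (a + 1) (x : ℂ)
      simpa using h
    have h3 : HasDerivAt (fun z : ℂ => -(b : ℂ) * z ^ 2 + s * z) (-(b : ℂ) * (2 * x) + s)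
        (x : ℂ) := by
      have h4 : HasDerivAt (fun z : ℂ => z ^ 2) (2 * (x : ℂ)) (x : ℂ) := by
        have h := hasDerivAt_pow 2 (x : ℂ)
        simpa using h
      have h5 := (h4.const_mul (-(b : ℂ))).fun_add ((hasDerivAt_id (x : ℂ)).const_mul s)
      simpa using h5
    exact h2.mul h3.cexp
  have h6 := h1.comp_ofReal
  have h7 : (((a : ℂ) + 1) * (x : ℂ) ^ a * Complex.exp (-(b : ℂ) * (x : ℂ) ^ 2 + s * x)
        + (x : ℂ) ^ (a + 1) * (Complex.exp (-(b : ℂ) * (x : ℂ) ^ 2 + s * x)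
          * (-(b : ℂ) * (2 * x) + s)))
      = (((a : ℂ) + 1) * ff b s a x - 2 * b * ff b s (a + 2) x + s * ff b s (a + 1) x) := by
    unfold ff
    ring
  rw [h7] at h6
  exact h6

lemma ff_deriv0 (b : ℝ) (s : ℂ) (x : ℝ) :
    HasDerivAt (ff b s 0) (- 2 * b * ff b s 1 x + s * ff b s 0 x) x := by
  have h1 : HasDerivAt (fun z : ℂ => z ^ 0 * Complex.exp (-(b : ℂ) * z ^ 2 + s * z))
      (Complex.exp (-(b : ℂ) * (x : ℂ) ^ 2 + s * x) * (-(b : ℂ) * (2 * x) + s)) (x : ℂ) := by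
    have h3 : HasDerivAt (fun z : ℂ => -(b : ℂ) * z ^ 2 + s * z) (-(b : ℂ) * (2 * x) + s)
        (x : ℂ) := by
      have h4 : HasDerivAt (fun z : ℂ => z ^ 2) (2 * (x : ℂ)) (x : ℂ) := by
        have h := hasDerivAt_pow 2 (x : ℂ)
        simpa using h
      have h5 := (h4.const_mul (-(b : ℂ))).fun_add ((hasDerivAt_id (x : ℂ)).const_mul s)
      simpa using h5
    have h8 := h3.cexp
    simp only [pow_zero, one_mul]
    exact h8
  have h6 := h1.comp_ofReal
  have h7 : (Complex.exp (-(b : ℂ) * (x : ℂ) ^ 2 + s * x) * (-(b : ℂ) * (2 * x) + s))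
      = (- 2 * b * ff b s 1 x + s * ff b s 0 x) := by
    unfold ff
    ring
  rw [h7] at h6
  exact h6

lemma ff_rec (b : ℝ) (hb : 0 < b) (s : ℂ) (hs : s.re = 0) (a : ℕ) :
    2 * (b : ℂ) * ∫ x, ff b s (a + 2) x
      = ((a : ℂ) + 1) * (∫ x, ff b s a x) + s * ∫ x, ff b s (a + 1) x := by
  have i0 := ff_int b hb s hs a
  have i1 := ff_int b hb s hs (a + 1)
  have i2 := ff_int b hb s hs (a + 2)
  have s1 : Integrable (fun x : ℝ => ((a : ℂ) + 1) * ff b s a x - 2 * b * ff b s (a + 2) x) :=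
    (i0.const_mul _).sub (i2.const_mul _)
  have h := integral_eq_zero_of_hasDerivAt_of_integrable (ff_deriv b s a)
    (s1.add (i1.const_mul _)) i1
  have e1 : ∫ x : ℝ, (((a : ℂ) + 1) * ff b s a x - 2 * b * ff b s (a + 2) x
      + s * ff b s (a + 1) x)
      = ((a : ℂ) + 1) * (∫ x, ff b s a x) - 2 * b * (∫ x, ff b s (a + 2) x)
        + s * ∫ x, ff b s (a + 1) x := by
    rw [integral_add s1 (i1.const_mul _),
      integral_sub (i0.const_mul _) (i2.const_mul _), integral_const_mul, integral_const_mul,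
      integral_const_mul]
  rw [e1] at h
  linear_combination -h

lemma ff_one (b : ℝ) (hb : 0 < b) (s : ℂ) (hs : s.re = 0) :
    2 * (b : ℂ) * ∫ x, ff b s 1 x = s * ∫ x, ff b s 0 x := by
  have i0 := ff_int b hb s hs 0
  have i1 := ff_int b hb s hs 1
  have h := integral_eq_zero_of_hasDerivAt_of_integrable (ff_deriv0 b s)
    ((i1.const_mul _).add (i0.const_mul _)) i0
  have e1 : ∫ x : ℝ, (- 2 * b * ff b s 1 x + s * ff b s 0 x)
      = - 2 * b * (∫ x, ff b s 1 x) + s * ∫ x, ff b s 0 x := by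
    rw [integral_add (i1.const_mul _) (i0.const_mul _), integral_const_mul, integral_const_mul]
  rw [e1] at h
  linear_combination -h

lemma ff_zero (b : ℝ) (hb : 0 < b) (s : ℂ) :
    ∫ x, ff b s 0 x = ((Real.sqrt (Real.pi / b) : ℝ) : ℂ) * Complex.exp (s ^ 2 / (4 * b)) := by
  have h := integral_cexp_quadratic (b := -(b : ℂ)) (by simpa using hb) s 0
  have e1 : ∫ x : ℝ, ff b s 0 x
      = ∫ x : ℝ, Complex.exp (-(b : ℂ) * (x : ℂ) ^ 2 + s * x + 0) := by
    congr 1
    funext x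
    unfold ff
    rw [pow_zero, one_mul, add_zero]
  rw [e1, h]
  have e2 : ((Real.pi : ℂ) / - -(b : ℂ)) ^ (1 / 2 : ℂ) = ((Real.sqrt (Real.pi / b) : ℝ) : ℂ) := by
    rw [neg_neg, Real.sqrt_eq_rpow]
    rw [Complex.ofReal_cpow (by positivity)]
    push_cast
    rfl
  rw [e2]
  congr 2
  ring

/-! ### one dimension, Gaussian measure -/

/-- `b` for the field `i` -/
noncomputable def bc (i : ℕ) : ℝ := if i = 1 then 1 else 1 / 2

/-- `s` for the field `i` -/
noncomputable def sc (i : ℕ) : ℂ := if i = 2 then -al 2 else 0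

/-- the tilt for the field `i` -/
noncomputable def ws (i : ℕ) (x : ℝ) : ℂ :=
  if i = 1 then Complex.exp (-((x : ℂ) ^ 2 / 2)) else
    if i = 2 then Complex.exp (-(al 2 * x)) else 1

/-- total mass -/
noncomputable def cst (i : ℕ) : ℝ :=
  if i = 1 then 1 / Real.sqrt 2 else if i = 2 then Real.exp (-(1 / 4)) else 1

lemma bc_pos (i : ℕ) : 0 < bc i := by
  unfold bc
  split_ifs <;> norm_num

lemma al_sq (i : ℕ) (hi : 1 ≤ i) : al i ^ 2 = (-1) ^ (i - 1) / (i : ℂ) := by
  have h0 : (0 : ℝ) < (i : ℝ) := by exact_mod_cast hi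
  have h1 : (((1 / Real.sqrt i : ℝ) : ℂ)) ^ 2 = 1 / (i : ℂ) := by
    rw [← Complex.ofReal_pow, div_pow, Real.sq_sqrt h0.le]
    push_cast
    ring
  unfold al
  by_cases he : Even i
  · rw [if_pos he, mul_pow, h1, Complex.I_sq]
    have h2 : Odd (i - 1) := by
      obtain ⟨k, hk⟩ := he
      exact ⟨k - 1, by omega⟩
    rw [h2.neg_one_pow]
    ring
  · rw [if_neg he, h1]
    have h2 : Even (i - 1) := by
      rw [Nat.not_even_iff_odd] at he
      obtain ⟨k, hk⟩ := he
      exact ⟨k, by omega⟩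
    rw [h2.neg_one_pow]

lemma al_two_re : (al 2).re = 0 := by
  unfold al
  rw [if_pos even_two, Complex.mul_re, Complex.I_re, Complex.I_im, Complex.ofReal_im]
  ring

lemma al_one : al 1 = 1 := by
  unfold al
  rw [if_neg (by decide)]
  simp

lemma sc_re (i : ℕ) : (sc i).re = 0 := by
  unfold sc
  split_ifs
  · rw [Complex.neg_re, al_two_re, neg_zero]
  · simp

lemma al_nva (i : ℕ) (hi : 1 ≤ i) : al i ^ 2 = 2 * (bc i : ℂ) * (nva i : ℂ) := by
  rw [al_sq i hi]
  unfold bc nva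
  by_cases h : i = 1
  · rw [if_pos h, if_pos h, h]
    norm_num
  · rw [if_neg h, if_neg h]
    push_cast
    ring

lemma al_nmu (i : ℕ) : al i * sc i = 2 * (bc i : ℂ) * (nmu i : ℂ) := by
  unfold sc nmu bc
  by_cases h : i = 2
  · rw [if_pos h, if_pos h, if_neg (by omega), h]
    have := al_sq 2 (by norm_num)
    norm_num at this
    push_cast
    linear_combination -this
  · rw [if_neg h, if_neg h]
    push_cast
    ring

lemma pdf_ws (i a : ℕ) (x : ℝ) :
    gaussianPDFReal 0 1 x • (ws i x * (al i * x) ^ a)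
      = (((Real.sqrt (2 * Real.pi))⁻¹ : ℝ) : ℂ) * al i ^ a * ff (bc i) (sc i) a x := by
  unfold gaussianPDFReal ff
  rw [Complex.real_smul]
  push_cast
  have key : Complex.exp (-((x : ℂ) - 0) ^ 2 / (2 * 1)) * ws i x
      = Complex.exp (-(bc i : ℂ) * (x : ℂ) ^ 2 + sc i * (x : ℂ)) := by
    unfold ws bc sc
    by_cases h1 : i = 1
    · rw [if_pos h1, if_pos h1, if_neg (by omega), ← Complex.exp_add]
      congr 1
      push_cast
      ring
    · rw [if_neg h1, if_neg h1]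
      by_cases h2 : i = 2
      · rw [if_pos h2, if_pos h2, ← Complex.exp_add]
        congr 1
        push_cast
        ring
      · rw [if_neg h2, if_neg h2, mul_one]
        congr 1
        push_cast
        ring
  rw [← key]
  rw [mul_pow, mul_one]
  ring

lemma ws_int (i a : ℕ) : Integrable (fun x : ℝ => ws i x * (al i * x) ^ a)
    (gaussianReal 0 1) := by
  rw [gaussianReal_of_var_ne_zero 0 one_ne_zero]
  rw [integrable_withDensity_iff_integrable_smul₀' (measurable_gaussianPDF 0 1).aemeasurable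
    (Filter.Eventually.of_forall (fun x => gaussianPDF_lt_top))]
  have e : (fun x : ℝ => (gaussianPDF 0 1 x).toReal • (ws i x * (al i * x) ^ a))
      = fun x => (((Real.sqrt (2 * Real.pi))⁻¹ : ℝ) : ℂ) * al i ^ a * ff (bc i) (sc i) a x := by
    funext x
    rw [toReal_gaussianPDF, pdf_ws]
  rw [e]
  exact (ff_int (bc i) (bc_pos i) (sc i) (sc_re i) a).const_mul _

lemma ws_eq (i a : ℕ) : ∫ x, ws i x * (al i * x) ^ a ∂(gaussianReal 0 1)
    = (((Real.sqrt (2 * Real.pi))⁻¹ : ℝ) : ℂ) * al i ^ a * ∫ x, ff (bc i) (sc i) a x := by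
  rw [integral_gaussianReal_eq_integral_smul one_ne_zero]
  simp_rw [pdf_ws]
  rw [integral_const_mul]

lemma ws_zero (i : ℕ) : (((Real.sqrt (2 * Real.pi))⁻¹ : ℝ) : ℂ) * ∫ x, ff (bc i) (sc i) 0 x
    = (cst i : ℂ) := by
  rw [ff_zero _ (bc_pos i)]
  have hp : (0 : ℝ) < Real.pi := Real.pi_pos
  unfold bc sc cst
  by_cases h1 : i = 1
  · rw [if_pos h1, if_pos h1, if_neg (by omega)]
    have : (Real.sqrt (2 * Real.pi))⁻¹ * Real.sqrt (Real.pi / 1) = 1 / Real.sqrt 2 := by
      rw [Real.sqrt_mul (by norm_num), div_one]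
      have : Real.sqrt Real.pi ≠ 0 := by positivity
      field_simp
    rw [← this]
    push_cast
    norm_num
  · rw [if_neg h1, if_neg h1]
    have h3 : (Real.sqrt (2 * Real.pi))⁻¹ * Real.sqrt (Real.pi / (1 / 2)) = 1 := by
      have : Real.pi / (1 / 2) = 2 * Real.pi := by ring
      rw [this]
      have : Real.sqrt (2 * Real.pi) ≠ 0 := by positivity
      field_simp
    rw [← mul_assoc, ← Complex.ofReal_mul, h3, Complex.ofReal_one, one_mul]
    by_cases h2 : i = 2
    · rw [if_pos h2, if_pos h2]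
      have := al_sq 2 (by norm_num)
      norm_num at this
      rw [Complex.ofReal_exp]
      congr 1
      rw [neg_sq, this]
      push_cast
      ring
    · rw [if_neg h2, if_neg h2]
      simp

lemma ws_val (i : ℕ) (hi : 1 ≤ i) : ∀ a : ℕ,
    ∫ x, ws i x * (al i * x) ^ a ∂(gaussianReal 0 1) = (cst i : ℂ) * (nu i a : ℂ)
  | 0 => by
      rw [ws_eq, pow_zero, mul_one, ws_zero]
      simp [nu]
  | 1 => by
      have h0 := ws_zero i
      have h1 := ff_one (bc i) (bc_pos i) (sc i) (sc_re i)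
      have h2 := al_nmu i
      have hb : (bc i : ℂ) ≠ 0 := by exact_mod_cast (bc_pos i).ne'
      rw [ws_eq, pow_one]
      have e : nu i 1 = nmu i := by simp [nu]
      rw [e, ← h0]
      have hb2 : 2 * (bc i : ℂ) ≠ 0 := mul_ne_zero two_ne_zero hb
      apply mul_left_cancel₀ hb2
      linear_combination (((Real.sqrt (2 * Real.pi))⁻¹ : ℝ) : ℂ) * al i * h1
        + (((Real.sqrt (2 * Real.pi))⁻¹ : ℝ) : ℂ) * (∫ x, ff (bc i) (sc i) 0 x) * h2
  | (a + 2) => by
      have j0 := ws_val i hi a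
      have j1 := ws_val i hi (a + 1)
      rw [ws_eq] at j0 j1 ⊢
      have h1 := ff_rec (bc i) (bc_pos i) (sc i) (sc_re i) a
      have h2 := al_nmu i
      have h3 := al_nva i hi
      have hb : (bc i : ℂ) ≠ 0 := by exact_mod_cast (bc_pos i).ne'
      have hb2 : 2 * (bc i : ℂ) ≠ 0 := mul_ne_zero two_ne_zero hb
      have e : (nu i (a + 2) : ℂ) = (nmu i : ℂ) * (nu i (a + 1) : ℂ)
          + ((a : ℂ) + 1) * (nva i : ℂ) * (nu i a : ℂ) := by
        rw [nu]
        push_cast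
        ring
      rw [e]
      apply mul_left_cancel₀ hb2
      have e2 : (cst i : ℂ) * ((nmu i : ℂ) * (nu i (a + 1) : ℂ)
          + ((a : ℂ) + 1) * (nva i : ℂ) * (nu i a : ℂ))
          = (nmu i : ℂ) * ((cst i : ℂ) * (nu i (a + 1) : ℂ))
            + ((a : ℂ) + 1) * (nva i : ℂ) * ((cst i : ℂ) * (nu i a : ℂ)) := by ring
      rw [e2, ← j0, ← j1]
      linear_combination (((Real.sqrt (2 * Real.pi))⁻¹ : ℝ) : ℂ) * al i ^ (a + 2) * h1
        + (((Real.sqrt (2 * Real.pi))⁻¹ : ℝ) : ℂ) * al i ^ (a + 1)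
            * (∫ x, ff (bc i) (sc i) (a + 1) x) * h2
        + (((Real.sqrt (2 * Real.pi))⁻¹ : ℝ) : ℂ) * al i ^ a
            * (∫ x, ff (bc i) (sc i) a x) * ((a : ℂ) + 1) * h3

/-! ### the product -/

lemma bet_zero : bet 0 = 1 := by
  rw [bet]

lemma bet_one : bet 1 = MvPolynomial.X 1 := by
  rw [bet]
  simp [bet_zero, iot]

lemma bet_two : bet 2 = MvPolynomial.X 2 - MvPolynomial.C (1 / 2)
    + MvPolynomial.C (1 / 2) * MvPolynomial.X 1 ^ 2 := by
  have e1 : iot 2 = -1 := by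
    unfold iot
    rw [if_pos even_two]
    norm_num
  have e2 : iot 1 = 0 := by
    unfold iot
    rw [if_neg (by decide)]
  rw [bet, Fin.sum_univ_two]
  simp only [Fin.val_zero, Fin.val_one, Nat.sub_zero, bet_zero, bet_one]
  have e3 : (1 + 1 - 1 : ℕ) = 1 := rfl
  have e4 : (1 + 1 : ℕ) = 2 := rfl
  rw [e3, e4, e1, e2]
  have e5 : (MvPolynomial.C (1 / ((1 : ℕ) + 1 : ℚ)) : Rg) = MvPolynomial.C (1 / 2) := by
    norm_num
  rw [e5]
  have e6 : (MvPolynomial.C (1 / 2) : Rg) * 2 = 1 := by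
    have : (2 : Rg) = MvPolynomial.C 2 := (map_ofNat MvPolynomial.C 2).symm
    rw [this, ← MvPolynomial.C_mul]
    norm_num
  have e7 : (((2 : ℕ) : ℚ) • (MvPolynomial.X 2 : Rg)) = 2 * MvPolynomial.X 2 := by
    rw [MvPolynomial.smul_eq_C_mul, Nat.cast_ofNat, map_ofNat]
  have e8 : (((1 : ℕ) : ℚ) • (MvPolynomial.X 1 : Rg)) = MvPolynomial.X 1 := by
    simp
  rw [e7, e8]
  rw [MvPolynomial.C_neg, MvPolynomial.C_0, MvPolynomial.C_1]
  linear_combination MvPolynomial.X 2 * e6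

lemma exp_bet (K : ℕ) (hK : 2 ≤ K) (t : ℝ) (g : Fin K → ℝ) :
    Complex.exp (-MvPolynomial.aeval (vals t (Gt K g)) (bet 2))
      = ((Real.exp (1 / 2) : ℝ) : ℂ) * ∏ l : Fin K, ws (l.val + 1) (g l) := by
  obtain ⟨k, rfl⟩ := Nat.exists_eq_add_of_le' hK
  rw [Fin.prod_univ_succ, Fin.prod_univ_succ]
  have h3 : ∏ i : Fin k, ws ((i.succ.succ : Fin (k + 2)).val + 1) (g i.succ.succ) = 1 := by
    apply Finset.prod_eq_one
    intro i _
    unfold ws
    rw [Fin.val_succ, Fin.val_succ, if_neg (by omega), if_neg (by omega)]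
  rw [h3, mul_one]
  have h4 : ws ((0 : Fin (k + 2)).val + 1) (g 0) = Complex.exp (-((g 0 : ℂ) ^ 2 / 2)) := by
    unfold ws
    rw [if_pos (by simp)]
  have h5 : ws ((Fin.succ (0 : Fin (k + 1))).val + 1) (g (Fin.succ 0))
      = Complex.exp (-(al 2 * g (Fin.succ 0))) := by
    unfold ws
    rw [Fin.val_succ, if_neg (by simp), if_pos (by simp)]
  rw [h4, h5, Complex.ofReal_exp, ← Complex.exp_add, ← Complex.exp_add]
  congr 1
  rw [bet_two]
  have v1 : vals t (Gt (k + 2) g) 1 = (g 0 : ℂ) := by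
    unfold vals Gt
    rw [if_neg (by norm_num), dif_pos (by omega), al_one, one_mul]
    rfl
  have v2 : vals t (Gt (k + 2) g) 2 = al 2 * (g (Fin.succ 0) : ℂ) := by
    unfold vals Gt
    rw [if_neg (by norm_num), dif_pos (by omega)]
    rfl
  simp only [map_add, map_sub, map_mul, map_pow, MvPolynomial.aeval_X, MvPolynomial.aeval_C,
    v1, v2]
  have e1 : (algebraMap ℚ ℂ) (1 / 2) = 1 / 2 := by simp
  rw [e1]
  push_cast
  ring

lemma vals_prod (K : ℕ) (t : ℝ) (g : Fin K → ℝ) (m : ℕ →₀ ℕ) (hm : ∀ i ∈ m.support, i ≤ K) :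
    ∏ i ∈ m.support, vals t (Gt K g) i ^ m i
      = (t : ℂ) ^ m 0 * ∏ l : Fin K, (al (l.val + 1) * (g l : ℂ)) ^ m (l.val + 1) := by
  have h1 : ∏ i ∈ m.support, vals t (Gt K g) i ^ m i
      = ∏ i ∈ range (K + 1), vals t (Gt K g) i ^ m i := by
    apply Finset.prod_subset
    · intro i hi
      rw [mem_range]
      have := hm i hi
      omega
    · intro i _ hi
      rw [Finsupp.notMem_support_iff] at hi
      rw [hi, pow_zero]
  rw [h1, Finset.prod_range_succ', Finset.prod_range, mul_comm]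
  have h0 : vals t (Gt K g) 0 = t := by
    unfold vals
    rw [if_pos rfl]
  rw [h0]
  congr 1
  apply Finset.prod_congr rfl
  intro l _
  congr 1
  unfold vals Gt
  rw [if_neg (by omega), dif_pos ⟨by omega, by omega⟩]
  rfl

lemma nu_prod (K : ℕ) (m : ℕ →₀ ℕ) (hm : ∀ i ∈ m.support, i ≤ K) :
    ∏ i ∈ m.support.erase 0, nu i (m i) = ∏ l : Fin K, nu (l.val + 1) (m (l.val + 1)) := by
  have h1 : ∏ i ∈ m.support.erase 0, nu i (m i)
      = ∏ i ∈ m.support.erase 0, (if i = 0 then 1 else nu i (m i)) := by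
    apply Finset.prod_congr rfl
    intro i hi
    rw [Finset.mem_erase] at hi
    rw [if_neg hi.1]
  have h2 : ∏ i ∈ m.support.erase 0, (if i = 0 then 1 else nu i (m i))
      = ∏ i ∈ range (K + 1), (if i = 0 then 1 else nu i (m i)) := by
    apply Finset.prod_subset
    · intro i hi
      rw [Finset.mem_erase] at hi
      rw [mem_range]
      have := hm i hi.2
      omega
    · intro i _ hi
      by_cases h : i = 0
      · rw [if_pos h]
      · rw [if_neg h]
        have h3 : i ∉ m.support := fun h4 => hi (Finset.mem_erase.mpr ⟨h, h4⟩)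
        rw [Finsupp.notMem_support_iff] at h3
        rw [h3, nu]
  rw [h1, h2, Finset.prod_range_succ', Finset.prod_range, if_pos rfl, mul_one]
  apply Finset.prod_congr rfl
  intro l _
  rw [if_neg (by omega)]

lemma cst_prod (K : ℕ) (hK : 2 ≤ K) :
    ∏ l : Fin K, (cst (l.val + 1) : ℂ) = ((1 / Real.sqrt 2 * Real.exp (-(1 / 4)) : ℝ) : ℂ) := by
  obtain ⟨k, rfl⟩ := Nat.exists_eq_add_of_le' hK
  rw [Fin.prod_univ_succ, Fin.prod_univ_succ]
  have h3 : ∏ i : Fin k, (cst ((i.succ.succ : Fin (k + 2)).val + 1) : ℂ) = 1 := by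
    apply Finset.prod_eq_one
    intro i _
    unfold cst
    rw [Fin.val_succ, Fin.val_succ, if_neg (by omega), if_neg (by omega), Complex.ofReal_one]
  rw [h3, mul_one]
  have h4 : cst ((0 : Fin (k + 2)).val + 1) = 1 / Real.sqrt 2 := by
    unfold cst
    rw [if_pos (by simp)]
  have h5 : cst ((Fin.succ (0 : Fin (k + 1))).val + 1) = Real.exp (-(1 / 4)) := by
    unfold cst
    rw [Fin.val_succ, if_neg (by simp), if_pos (by simp)]
  rw [h4, h5]
  push_cast
  ring

/-- one monomial: the integrand as a product -/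
lemma mono_eq (K : ℕ) (hK : 2 ≤ K) (t : ℝ) (m : ℕ →₀ ℕ) (hm : ∀ i ∈ m.support, i ≤ K)
    (g : Fin K → ℝ) :
    Complex.exp (-MvPolynomial.aeval (vals t (Gt K g)) (bet 2))
        * ∏ i ∈ m.support, vals t (Gt K g) i ^ m i
      = (((Real.exp (1 / 2) : ℝ) : ℂ) * (t : ℂ) ^ m 0)
          * ∏ l : Fin K, (ws (l.val + 1) (g l) * (al (l.val + 1) * (g l : ℂ)) ^ m (l.val + 1)) := by
  rw [exp_bet K hK, vals_prod K t g m hm, Finset.prod_mul_distrib]
  ring

lemma mono_int (K : ℕ) (hK : 2 ≤ K) (t : ℝ) (m : ℕ →₀ ℕ) (hm : ∀ i ∈ m.support, i ≤ K) :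
    Integrable (fun g : Fin K → ℝ =>
      Complex.exp (-MvPolynomial.aeval (vals t (Gt K g)) (bet 2))
        * ∏ i ∈ m.support, vals t (Gt K g) i ^ m i) (gam K) := by
  simp_rw [mono_eq K hK t m hm]
  apply Integrable.const_mul
  unfold gam
  exact Integrable.fintype_prod (𝕜 := ℂ) (E := ℝ)
    (f := fun (l : Fin K) (x : ℝ) =>
      ws (l.val + 1) x * (al (l.val + 1) * (x : ℂ)) ^ m (l.val + 1))
    (fun l => ws_int (l.val + 1) (m (l.val + 1)))

lemma mono_val (K : ℕ) (hK : 2 ≤ K) (t : ℝ) (m : ℕ →₀ ℕ) (hm : ∀ i ∈ m.support, i ≤ K) :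
    ∫ g : Fin K → ℝ, Complex.exp (-MvPolynomial.aeval (vals t (Gt K g)) (bet 2))
        * ∏ i ∈ m.support, vals t (Gt K g) i ^ m i ∂(gam K)
      = ((Real.exp (1 / 4) / Real.sqrt 2 * (t ^ m 0
          * ((∏ i ∈ m.support.erase 0, nu i (m i) : ℚ) : ℝ)) : ℝ) : ℂ) := by
  simp_rw [mono_eq K hK t m hm]
  rw [integral_const_mul]
  unfold gam
  rw [integral_fintype_prod_eq_prod (𝕜 := ℂ) (E := fun _ : Fin K => ℝ)
    (fun (l : Fin K) (x : ℝ) =>
      ws (l.val + 1) x * (al (l.val + 1) * (x : ℂ)) ^ m (l.val + 1))]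
  simp_rw [fun l : Fin K => ws_val (l.val + 1) (by omega) (m (l.val + 1))]
  rw [Finset.prod_mul_distrib, cst_prod K hK, nu_prod K m hm]
  have e1 : Real.exp (1 / 2) * Real.exp (-(1 / 4)) = Real.exp (1 / 4) := by
    rw [← Real.exp_add]
    norm_num
  rw [← e1]
  push_cast
  ring

end GxP

open GxP in
theorem gx_proof : Stmt_Gx := by
  intro K P t hK hP
  have hm : ∀ m ∈ P.support, ∀ i ∈ m.support, i ≤ K := by
    intro m hm i hi
    exact hP i ((MvPolynomial.mem_vars_iff_mem_support i).mpr ⟨m, hm, hi⟩)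
  have he : ∀ g : Fin K → ℝ, Complex.exp (-MvPolynomial.aeval (vals t (Gt K g)) (bet 2))
        * MvPolynomial.aeval (vals t (Gt K g)) P
      = ∑ m ∈ P.support, ((MvPolynomial.coeff m P : ℚ) : ℂ)
          * (Complex.exp (-MvPolynomial.aeval (vals t (Gt K g)) (bet 2))
            * ∏ i ∈ m.support, vals t (Gt K g) i ^ m i) := by
    intro g
    have h1 : MvPolynomial.aeval (vals t (Gt K g)) P
        = ∑ m ∈ P.support, ((MvPolynomial.coeff m P : ℚ) : ℂ)
          * ∏ i ∈ m.support, vals t (Gt K g) i ^ m i := by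
      rw [MvPolynomial.aeval_def, MvPolynomial.eval₂_eq]
      rfl
    rw [h1, Finset.mul_sum]
    apply Finset.sum_congr rfl
    intro m _
    ring
  simp_rw [he]
  constructor
  · apply integrable_finsetSum
    intro m h
    exact (mono_int K hK t m (hm m h)).const_mul _
  · rw [integral_finsetSum _ (fun m h => (mono_int K hK t m (hm m h)).const_mul _)]
    have h2 : Polynomial.aeval t (Ef P)
        = ∑ m ∈ P.support, ((MvPolynomial.coeff m P : ℚ) : ℝ)
          * (t ^ m 0 * ((∏ i ∈ m.support.erase 0, nu i (m i) : ℚ) : ℝ)) := by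
      unfold Ef
      rw [map_sum]
      apply Finset.sum_congr rfl
      intro m _
      rw [Polynomial.aeval_monomial]
      have : (algebraMap ℚ ℝ) (MvPolynomial.coeff m P * ∏ i ∈ m.support.erase 0, nu i (m i))
          = ((MvPolynomial.coeff m P : ℚ) : ℝ)
            * ((∏ i ∈ m.support.erase 0, nu i (m i) : ℚ) : ℝ) := by
        rw [map_mul]
        rfl
      rw [this]
      ring
    rw [h2, Finset.mul_sum, Complex.ofReal_sum]
    apply Finset.sum_congr rfl
    intro m h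
    rw [integral_const_mul, mono_val K hK t m (hm m h)]
    push_cast
    ring

end Pool.Agent.RGD
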