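import Pool.Agent.RGD.Gx

/-!
RGD, module GXT: the part of the tilted Gaussian integral outside the cut-off is small.
-/

set_option autoImplicit false

namespace Pool.Agent.RGD

open Finset MeasureTheory ProbabilityTheory

namespace GxtP

lemma sqn_nonneg {K : ℕ} (g : Fin K → ℝ) : 0 ≤ sqn g :=
  Finset.sum_nonneg (fun i _ => sq_nonneg (g i))

lemma abs_le_sqrt_sqn {K : ℕ} (g : Fin K → ℝ) (i : Fin K) : |g i| ≤ Real.sqrt (sqn g) := by
  rw [← Real.sqrt_sq_eq_abs]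
  apply Real.sqrt_le_sqrt
  exact Finset.single_le_sum (f := fun i => g i ^ 2) (fun j _ => sq_nonneg (g j)) (mem_univ i)

lemma norm_al (i : ℕ) : ‖al i‖ ≤ 1 := by
  have h : ‖((1 / Real.sqrt i : ℝ) : ℂ)‖ ≤ 1 := by
    rw [Complex.norm_real, Real.norm_of_nonneg (by positivity)]
    rcases Nat.eq_zero_or_pos i with h0 | h0
    · rw [h0]
      simp
    · have h1 : (1 : ℝ) ≤ Real.sqrt i := by
        rw [Real.one_le_sqrt]
        exact_mod_cast h0
      rw [div_le_one (by linarith)]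
      exact h1
  unfold al
  split_ifs
  · rw [norm_mul, Complex.norm_I, one_mul]
    exact h
  · exact h

lemma norm_Gt {K : ℕ} (g : Fin K → ℝ) (i : ℕ) : ‖Gt K g i‖ ≤ Real.exp (Real.sqrt (sqn g)) := by
  have h0 : 0 ≤ Real.sqrt (sqn g) := Real.sqrt_nonneg _
  unfold Gt
  split_ifs with h
  · rw [norm_mul, Complex.norm_real, Real.norm_eq_abs]
    have h1 := abs_le_sqrt_sqn g ⟨i - 1, by omega⟩
    have h2 := norm_al i
    have h3 : Real.sqrt (sqn g) ≤ Real.exp (Real.sqrt (sqn g)) := by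
      have := Real.add_one_le_exp (Real.sqrt (sqn g))
      linarith
    calc ‖al i‖ * |g ⟨i - 1, by omega⟩| ≤ 1 * Real.sqrt (sqn g) :=
          mul_le_mul h2 h1 (abs_nonneg _) zero_le_one
      _ ≤ _ := by rw [one_mul]; exact h3
  · rw [norm_zero]
    exact (Real.exp_pos _).le

lemma norm_ws (i : ℕ) (x : ℝ) : ‖GxP.ws i x‖ ≤ 1 := by
  unfold GxP.ws
  split_ifs with h1 h2
  · rw [Complex.norm_exp]
    have : (-((x : ℂ) ^ 2 / 2)).re = -(x ^ 2 / 2) := by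
      have : (-((x : ℂ) ^ 2 / 2)) = ((-(x ^ 2 / 2) : ℝ) : ℂ) := by push_cast; ring
      rw [this, Complex.ofReal_re]
    rw [this]
    apply Real.exp_le_one_iff.mpr
    have := sq_nonneg x
    linarith
  · rw [Complex.norm_exp, Complex.neg_re, Complex.mul_re, GxP.al_two_re, Complex.ofReal_im]
    simp
  · simp

lemma norm_tilt (K : ℕ) (hK : 2 ≤ K) (t : ℝ) (g : Fin K → ℝ) :
    ‖Complex.exp (-MvPolynomial.aeval (vals t (Gt K g)) (bet 2))‖ ≤ Real.exp (1 / 2) := by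
  rw [GxP.exp_bet K hK, norm_mul, Complex.norm_real, Real.norm_of_nonneg (Real.exp_pos _).le,
    norm_prod]
  have h : ∏ l : Fin K, ‖GxP.ws (l.val + 1) (g l)‖ ≤ 1 :=
    Finset.prod_le_one (fun l _ => norm_nonneg _) (fun l _ => norm_ws _ _)
  have := Real.exp_pos (1 / 2)
  nlinarith

/-- polynomial bound -/
lemma norm_poly (K : ℕ) (P : Rg) : ∃ (C : ℝ) (D : ℕ), 0 ≤ C ∧ ∀ (t n : ℝ) (g : Fin K → ℝ),
    1 ≤ n → |t| ≤ n →
    ‖MvPolynomial.aeval (vals t (Gt K g)) P‖ ≤ C * n ^ D * Real.exp (1 / 4 * sqn g) := by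
  refine ⟨∑ m ∈ P.support, |((MvPolynomial.coeff m P : ℚ) : ℝ)| * Real.exp ((m.degree : ℝ) ^ 2),
    P.support.sup (fun m => m.degree), Finset.sum_nonneg (fun m _ => by positivity), ?_⟩
  intro t n g hn ht
  have hv : ∀ i, ‖vals t (Gt K g) i‖ ≤ n * Real.exp (Real.sqrt (sqn g)) := by
    intro i
    have h0 : 1 ≤ Real.exp (Real.sqrt (sqn g)) := Real.one_le_exp (Real.sqrt_nonneg _)
    unfold vals
    split_ifs with h
    · rw [Complex.norm_real, Real.norm_eq_abs]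
      nlinarith
    · have h1 := norm_Gt g i
      nlinarith
  have h1 : MvPolynomial.aeval (vals t (Gt K g)) P
      = ∑ m ∈ P.support, ((MvPolynomial.coeff m P : ℚ) : ℂ)
        * ∏ i ∈ m.support, vals t (Gt K g) i ^ m i := by
    rw [MvPolynomial.aeval_def, MvPolynomial.eval₂_eq]
    rfl
  rw [h1]
  refine (norm_sum_le _ _).trans ?_
  rw [Finset.sum_mul, Finset.sum_mul]
  apply Finset.sum_le_sum
  intro m hm
  rw [norm_mul]
  have hc : ‖((MvPolynomial.coeff m P : ℚ) : ℂ)‖ = |((MvPolynomial.coeff m P : ℚ) : ℝ)| := by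
    rw [← Complex.ofReal_ratCast, Complex.norm_real, Real.norm_eq_abs]
  rw [hc, mul_assoc, mul_assoc]
  apply mul_le_mul_of_nonneg_left _ (abs_nonneg _)
  rw [norm_prod]
  have hD : m.degree ≤ P.support.sup (fun m => m.degree) :=
    Finset.le_sup (f := fun m : ℕ →₀ ℕ => m.degree) hm
  calc ∏ i ∈ m.support, ‖vals t (Gt K g) i ^ m i‖
      ≤ ∏ i ∈ m.support, (n * Real.exp (Real.sqrt (sqn g))) ^ m i := by
        apply Finset.prod_le_prod (fun i _ => norm_nonneg _)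
        intro i _
        rw [norm_pow]
        exact pow_le_pow_left₀ (norm_nonneg _) (hv i) _
    _ = (n * Real.exp (Real.sqrt (sqn g))) ^ m.degree := by
        rw [Finset.prod_pow_eq_pow_sum]
        rfl
    _ = n ^ m.degree * Real.exp ((m.degree : ℝ) * Real.sqrt (sqn g)) := by
        rw [mul_pow, ← Real.exp_nat_mul]
    _ ≤ n ^ (P.support.sup (fun m => m.degree))
          * Real.exp ((m.degree : ℝ) ^ 2 + 1 / 4 * sqn g) := by
        apply mul_le_mul (pow_le_pow_right₀ hn hD) _ (Real.exp_pos _).le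
          (pow_nonneg (by linarith) _)
        apply Real.exp_le_exp.mpr
        have h2 := Real.sq_sqrt (sqn_nonneg g)
        nlinarith [sq_nonneg ((m.degree : ℝ) - Real.sqrt (sqn g) / 2)]
    _ = Real.exp ((m.degree : ℝ) ^ 2)
          * (n ^ (P.support.sup (fun m => m.degree)) * Real.exp (1 / 4 * sqn g)) := by
        rw [Real.exp_add]
        ring

lemma exp_small (ε2 : ℝ) (h : 0 < ε2) (D M : ℕ) : ∃ C : ℝ, 0 ≤ C ∧ ∀ n : ℕ, 1 ≤ n →
    (n : ℝ) ^ D * Real.exp (-(((n : ℝ) ^ ε2) ^ 2 / 8)) ≤ C * (n : ℝ) ^ (-(M : ℝ)) := by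
  obtain ⟨k, hk⟩ := exists_nat_ge (((D : ℝ) + M) / (2 * ε2))
  have hk' : (D : ℝ) + M ≤ 2 * ε2 * k := by
    rw [div_le_iff₀ (by linarith)] at hk
    linarith
  refine ⟨(k.factorial : ℝ) * 8 ^ k, by positivity, ?_⟩
  intro n hn
  have hn1 : (1 : ℝ) ≤ n := by exact_mod_cast hn
  have hn0 : (0 : ℝ) < n := by linarith
  set y : ℝ := ((n : ℝ) ^ ε2) ^ 2 / 8 with hy
  have hy0 : 0 < y := by positivity
  have h1 := Real.pow_div_factorial_le_exp y hy0.le k
  have h2 : Real.exp (-y) ≤ (k.factorial : ℝ) / y ^ k := by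
    rw [Real.exp_neg, inv_le_comm₀ (Real.exp_pos _) (by positivity), inv_div]
    exact h1
  have h3 : y ^ k = (n : ℝ) ^ (2 * ε2 * k) / 8 ^ k := by
    rw [hy, div_pow]
    congr 1
    rw [← pow_mul, ← Real.rpow_natCast, ← Real.rpow_mul hn0.le]
    congr 1
    push_cast
    ring
  have h4 : (n : ℝ) ^ ((D : ℝ) + M) ≤ (n : ℝ) ^ (2 * ε2 * k) :=
    Real.rpow_le_rpow_of_exponent_le hn1 hk'
  have h5 : (n : ℝ) ^ ((D : ℝ) + M) = (n : ℝ) ^ D * (n : ℝ) ^ (M : ℝ) := by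
    rw [Real.rpow_add hn0, Real.rpow_natCast, Real.rpow_natCast]
  have hM : 0 < (n : ℝ) ^ (M : ℝ) := by positivity
  rw [Real.rpow_neg hn0.le]
  have h6 : (0 : ℝ) < (n : ℝ) ^ (2 * ε2 * k) := by positivity
  calc (n : ℝ) ^ D * Real.exp (-y) ≤ (n : ℝ) ^ D * ((k.factorial : ℝ) / y ^ k) :=
        mul_le_mul_of_nonneg_left h2 (by positivity)
    _ = (k.factorial : ℝ) * 8 ^ k * ((n : ℝ) ^ D / (n : ℝ) ^ (2 * ε2 * k)) := by
        rw [h3]
        field_simp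
    _ ≤ (k.factorial : ℝ) * 8 ^ k * ((n : ℝ) ^ (M : ℝ))⁻¹ := by
        apply mul_le_mul_of_nonneg_left _ (by positivity)
        rw [div_le_iff₀ h6, inv_mul_eq_div, le_div_iff₀ hM, ← h5]
        exact h4

end GxtP

open GxtP in
theorem gxt_proof (hUid : Stmt_Uid) (hHsg : Stmt_Hsg) : Stmt_Gxt := by
  intro σ M W K ε ε2 hp P
  have hK : 2 ≤ K := by
    have := hp.hK
    omega
  obtain ⟨C₁, D, hC₁, hP⟩ := norm_poly K P
  obtain ⟨C₂, hC₂⟩ := hHsg.2.2 K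
  obtain ⟨C₃, hC₃, hE⟩ := exp_small ε2 hp.f0 D M
  have hint := hHsg.2.1 K (1 / 4) (by norm_num)
  refine ⟨Real.exp (1 / 2) * C₁ * |C₂| * C₃, 1, ?_⟩
  intro n d hn hd
  obtain ⟨⟨_, _, hL0, _, ht0, ht2, _, _, _⟩, _⟩ := hUid n d hd.1 hd.2.1
  have hn1 : (1 : ℝ) ≤ n := by exact_mod_cast hn
  have hn0 : (0 : ℝ) < n := by linarith
  have ht : |tt n d| ≤ n := by
    rw [abs_of_nonneg ht0]
    have h1 : (1 : ℝ) ≤ yy n d := le_trans (Real.one_le_rpow hn1 hp.s0.le) hd.2.2.2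
    have h2 : 1 / RGA.Lam n d ≤ n := by
      rw [div_le_iff₀ hL0]
      unfold yy at h1
      linarith
    nlinarith
  have hset : {g : Fin K → ℝ | ¬ ∀ i, |g i| ≤ (n : ℝ) ^ ε2}
      = {g : Fin K → ℝ | ∃ i, (n : ℝ) ^ ε2 < |g i|} := by
    ext g
    simp only [Set.mem_ofPred_eq, not_forall, not_le]
  rw [hset]
  have hb : ∀ g : Fin K → ℝ, ‖Complex.exp (-MvPolynomial.aeval (vals (tt n d) (Gt K g)) (bet 2))
        * MvPolynomial.aeval (vals (tt n d) (Gt K g)) P‖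
      ≤ Real.exp (1 / 2) * C₁ * (n : ℝ) ^ D * Real.exp (1 / 4 * sqn g) := by
    intro g
    rw [norm_mul]
    have h1 := norm_tilt K hK (tt n d) g
    have h2 := hP (tt n d) n g hn1 ht
    calc _ ≤ Real.exp (1 / 2) * (C₁ * (n : ℝ) ^ D * Real.exp (1 / 4 * sqn g)) :=
          mul_le_mul h1 h2 (norm_nonneg _) (Real.exp_pos _).le
      _ = _ := by ring
  have h3 := norm_integral_le_of_norm_le
    (μ := (gam K).restrict {g : Fin K → ℝ | ∃ i, (n : ℝ) ^ ε2 < |g i|})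
    ((hint.const_mul (Real.exp (1 / 2) * C₁ * (n : ℝ) ^ D)).restrict)
    (Filter.Eventually.of_forall hb)
  refine h3.trans ?_
  rw [integral_const_mul]
  have h4 := hC₂ ((n : ℝ) ^ ε2) (by positivity)
  have h5 : ∀ g : Fin K → ℝ, Real.exp (1 / 4 * sqn g) = Real.exp (sqn g / 4) := by
    intro g
    congr 1
    ring
  simp_rw [h5]
  have h6 := hE n hn
  have h7 : C₂ * Real.exp (-(((n : ℝ) ^ ε2) ^ 2 / 8))
      ≤ |C₂| * Real.exp (-(((n : ℝ) ^ ε2) ^ 2 / 8)) :=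
    mul_le_mul_of_nonneg_right (le_abs_self _) (Real.exp_pos _).le
  have h8 : 0 ≤ Real.exp (1 / 2) * C₁ * (n : ℝ) ^ D := by positivity
  calc _ ≤ Real.exp (1 / 2) * C₁ * (n : ℝ) ^ D
        * (|C₂| * Real.exp (-(((n : ℝ) ^ ε2) ^ 2 / 8))) :=
        mul_le_mul_of_nonneg_left (h4.trans h7) h8
    _ = Real.exp (1 / 2) * C₁ * |C₂| * ((n : ℝ) ^ D * Real.exp (-(((n : ℝ) ^ ε2) ^ 2 / 8))) := by
        ring
    _ ≤ Real.exp (1 / 2) * C₁ * |C₂| * (C₃ * (n : ℝ) ^ (-(M : ℝ))) :=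
        mul_le_mul_of_nonneg_left h6 (by positivity)
    _ = _ := by ring

end Pool.Agent.RGD
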