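import Pool.Agent.RGD.Stmts

/-!
MP_3a123b_co, dense range: module HSB.
-/

set_option autoImplicit false

namespace Pool.Agent.RGD

open Finset Pool.Agent.RGA MeasureTheory

theorem hsb_proof (hHsid : Stmt_Hsid) (hInner : Stmt_Inner) (hHsg : Stmt_Hsg) : Stmt_Hsb := by
  intro σ M W K ε ε2 hP
  obtain ⟨η, C, n₀, hη0, hη1, hC, h⟩ := hInner σ M W K ε ε2 hP
  set G : ℝ := ∫ g, Real.exp (1 / 4 * sqn g) ∂(gam K) with hG
  have hint : Integrable (fun g : Fin K → ℝ => Real.exp (1 / 4 * sqn g)) (gam K) :=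
    hHsg.2.1 K (1 / 4) (by norm_num)
  have hG0 : 0 ≤ G := integral_nonneg (fun g => (Real.exp_pos _).le)
  refine ⟨η, C * (G + 1), n₀, hη0, by positivity, ?_⟩
  intro n d hn hD ι _ _ hι τ _ z hz hL
  rw [(hHsid n d ε K ι τ z).2]
  set L : ℝ := ∑ j, ‖z j‖ with hLdef
  have hb : ∀ g : Fin K → ℝ, ‖Inn n d ε K g ι z‖
      ≤ C * Real.exp (C * L ^ 2) * Real.exp (1 / 4 * sqn g) := by
    intro g
    have h1 := (h n d hn hD ι hι τ z hz hL g).1
    rw [Real.exp_add] at h1
    have e : sqn g / 4 = 1 / 4 * sqn g := by ring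
    rw [e] at h1
    linarith [h1]
  calc ‖∫ g, Inn n d ε K g ι z ∂(gam K)‖
      ≤ ∫ g, C * Real.exp (C * L ^ 2) * Real.exp (1 / 4 * sqn g) ∂(gam K) :=
        norm_integral_le_of_norm_le (hint.const_mul _) (Filter.Eventually.of_forall hb)
    _ = C * Real.exp (C * L ^ 2) * G := by rw [integral_const_mul]
    _ ≤ C * (G + 1) * Real.exp (C * (G + 1) * L ^ 2) := by
        have h2 : Real.exp (C * L ^ 2) ≤ Real.exp (C * (G + 1) * L ^ 2) := by
          apply Real.exp_le_exp.2
          have : 0 ≤ C * G * L ^ 2 := by positivity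
          nlinarith
        calc C * Real.exp (C * L ^ 2) * G ≤ C * Real.exp (C * (G + 1) * L ^ 2) * (G + 1) := by
              gcongr
              linarith
          _ = C * (G + 1) * Real.exp (C * (G + 1) * L ^ 2) := by ring

end Pool.Agent.RGD
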