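import Pool.Agent.RGD.Stmts

/-!
# HSG: Gaussian integrals on `ℝ^K`
-/

set_option autoImplicit false

open MeasureTheory ProbabilityTheory

namespace Pool.Agent.RGD

namespace HsgAux

theorem int1 (a : ℂ) :
    Integrable (fun x : ℝ => Complex.exp (a * (x : ℂ))) (gaussianReal 0 1) := by
  have h := integrable_exp_mul_gaussianReal (μ := 0) (v := 1) a.re
  refine Integrable.mono' h ?_ ?_
  · exact (Continuous.aestronglyMeasurable (by fun_prop))
  · refine Filter.Eventually.of_forall fun x => ?_
    rw [Complex.norm_exp]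
    simp

theorem val1 (a : ℂ) :
    ∫ x : ℝ, Complex.exp (a * (x : ℂ)) ∂(gaussianReal 0 1) = Complex.exp (a ^ 2 / 2) := by
  have h := complexMGF_id_gaussianReal (μ := 0) (v := 1) a
  unfold complexMGF at h
  simp only [id_eq] at h
  rw [h]
  congr 1
  push_cast
  ring

theorem sq1 (c : ℝ) (hc : c < 1 / 2) :
    Integrable (fun x : ℝ => Real.exp (c * x ^ 2)) (gaussianReal 0 1) := by
  rw [gaussianReal_of_var_ne_zero 0 (one_ne_zero)]
  rw [integrable_withDensity_iff (measurable_gaussianPDF 0 1)
    (Filter.Eventually.of_forall fun x => gaussianPDF_lt_top)]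
  have h := (integrable_exp_neg_mul_sq (b := 1 / 2 - c) (by linarith)).const_mul
    ((Real.sqrt (2 * Real.pi * 1))⁻¹)
  refine h.congr (Filter.Eventually.of_forall fun x => ?_)
  have e1 : Real.exp (-(1 / 2 - c) * x ^ 2)
      = Real.exp (-(x - 0) ^ 2 / (2 * 1)) * Real.exp (c * x ^ 2) := by
    rw [← Real.exp_add]
    congr 1
    ring
  simp only [toReal_gaussianPDF]
  unfold gaussianPDFReal
  rw [e1]
  simp only [NNReal.coe_one]
  ring

end HsgAux

open HsgAux

theorem hsg_proof : Stmt_Hsg := by
  have hA : ∀ (K : ℕ) (a : Fin K → ℂ) (g : Fin K → ℝ),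
      Complex.exp (∑ i, a i * (g i : ℂ)) = ∏ i, Complex.exp (a i * (g i : ℂ)) := by
    intro K a g
    exact Complex.exp_sum _ _
  have hB : ∀ (K : ℕ) (c : ℝ) (g : Fin K → ℝ),
      Real.exp (c * sqn g) = ∏ i, Real.exp (c * g i ^ 2) := by
    intro K c g
    unfold sqn
    rw [Finset.mul_sum, Real.exp_sum]
  have h2 : ∀ (K : ℕ) (c : ℝ), c < 1 / 2 →
      Integrable (fun g : Fin K → ℝ => Real.exp (c * sqn g)) (gam K) := by
    intro K c hc
    simp only [hB]
    unfold gam
    exact Integrable.fintype_prod (f := fun (_ : Fin K) (x : ℝ) => Real.exp (c * x ^ 2))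
      (fun _ => sq1 c hc)
  refine ⟨fun K a => ⟨?_, ?_⟩, h2, fun K => ⟨∫ g, Real.exp ((3 / 8) * sqn g) ∂(gam K), ?_⟩⟩
  · simp only [hA]
    unfold gam
    exact Integrable.fintype_prod (f := fun (i : Fin K) (x : ℝ) => Complex.exp (a i * (x : ℂ)))
      (fun i => int1 (a i))
  · simp only [hA]
    unfold gam
    rw [integral_fintype_prod_eq_prod
      (fun (i : Fin K) (x : ℝ) => Complex.exp (a i * (x : ℂ)))]
    simp only [val1]
    rw [← Complex.exp_sum, Finset.sum_div]
  · intro r hr
    have hm : MeasurableSet {g : Fin K → ℝ | ∃ i, r < |g i|} := by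
      have : {g : Fin K → ℝ | ∃ i, r < |g i|} = ⋃ i, {g : Fin K → ℝ | r < |g i|} := by
        ext g; simp
      rw [this]
      exact MeasurableSet.iUnion fun i => measurableSet_lt measurable_const (by fun_prop)
    have hI : Integrable (fun g : Fin K → ℝ => Real.exp ((3 / 8) * sqn g)) (gam K) :=
      h2 K (3 / 8) (by norm_num)
    have hI4 : Integrable (fun g : Fin K → ℝ => Real.exp (sqn g / 4)) (gam K) := by
      refine (h2 K (1 / 4) (by norm_num)).congr (Filter.Eventually.of_forall fun g => ?_)
      simp only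
      congr 1
      ring
    calc ∫ g in {g : Fin K → ℝ | ∃ i, r < |g i|}, Real.exp (sqn g / 4) ∂(gam K)
        ≤ ∫ g in {g : Fin K → ℝ | ∃ i, r < |g i|},
            Real.exp (-(r ^ 2 / 8)) * Real.exp ((3 / 8) * sqn g) ∂(gam K) := by
          refine setIntegral_mono_on hI4.integrableOn (hI.const_mul _).integrableOn hm ?_
          intro g hg
          obtain ⟨i, hi⟩ := hg
          rw [← Real.exp_add]
          apply Real.exp_le_exp.mpr
          have h3 : g i ^ 2 ≤ sqn g := by
            unfold sqn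
            exact Finset.single_le_sum (f := fun i => g i ^ 2) (fun j _ => sq_nonneg _)
              (Finset.mem_univ i)
          have h4 : r ^ 2 ≤ g i ^ 2 := by
            rw [← sq_abs (g i)]
            exact pow_le_pow_left₀ hr hi.le 2
          linarith
      _ ≤ ∫ g, Real.exp (-(r ^ 2 / 8)) * Real.exp ((3 / 8) * sqn g) ∂(gam K) := by
          refine setIntegral_le_integral (hI.const_mul _) ?_
          exact Filter.Eventually.of_forall fun g => by positivity
      _ = (∫ g, Real.exp ((3 / 8) * sqn g) ∂(gam K)) * Real.exp (-(r ^ 2 / 8)) := by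
          rw [integral_const_mul, mul_comm]

end Pool.Agent.RGD
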