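import Pool.Agent.RGD.Stmts

/-!
# HSID: the Hubbard–Stratonovich identity
-/

set_option autoImplicit false

open MeasureTheory

namespace Pool.Agent.RGD

namespace HsidAux

theorem sum_sym {ι : Type} [Fintype ι] [LinearOrder ι] (H : ι → ι → ℂ)
    (hs : ∀ l l', H l l' = H l' l) :
    ∑ l, ∑ l', H l l' = ∑ l, H l l + 2 * ∑ p ∈ prs ι, H p.1 p.2 := by
  rw [← Fintype.sum_prod_type' (f := fun l l' => H l l')]
  have h1 : ∀ p : ι × ι, H p.1 p.2 = (if p.1 < p.2 then H p.1 p.2 else 0) +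
      (if p.1 = p.2 then H p.1 p.2 else 0) + (if p.2 < p.1 then H p.1 p.2 else 0) := by
    intro p
    rcases lt_trichotomy p.1 p.2 with h | h | h
    · rw [if_pos h, if_neg h.ne, if_neg h.le.not_gt]; ring
    · rw [if_neg h.ge.not_gt, if_pos h, if_neg h.le.not_gt]; ring
    · rw [if_neg h.le.not_gt, if_neg h.ne', if_pos h]; ring
  rw [Finset.sum_congr rfl (fun p _ => h1 p), Finset.sum_add_distrib, Finset.sum_add_distrib]
  have h2 : ∑ p : ι × ι, (if p.2 < p.1 then H p.1 p.2 else 0)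
      = ∑ p : ι × ι, if p.1 < p.2 then H p.1 p.2 else 0 := by
    refine Fintype.sum_equiv (Equiv.prodComm ι ι) _ _ fun p => ?_
    change (if p.2 < p.1 then H p.1 p.2 else 0) = if p.2 < p.1 then H p.2 p.1 else 0
    rw [hs]
  have h3 : ∑ p : ι × ι, (if p.1 = p.2 then H p.1 p.2 else 0) = ∑ l, H l l := by
    rw [Fintype.sum_prod_type]
    refine Finset.sum_congr rfl fun l _ => ?_
    simp
  rw [h2, h3]
  unfold prs
  rw [Finset.sum_filter]
  ring

theorem sum_Icc (K : ℕ) (F : ℕ → ℂ) :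
    ∑ i ∈ Finset.Icc 1 K, F i = ∑ j : Fin K, F (j.val + 1) := by
  have h : Finset.Icc 1 K = Finset.Ico 1 (K + 1) := by
    ext i
    simp only [Finset.mem_Icc, Finset.mem_Ico]
    omega
  rw [h, Finset.sum_Ico_eq_sum_range, Nat.add_sub_cancel, Finset.sum_range]
  refine Finset.sum_congr rfl fun j _ => ?_
  rw [add_comm]

theorem al_sq (i : ℕ) (hi : 1 ≤ i) : al i ^ 2 = (-1) ^ (i - 1) / (i : ℂ) := by
  have h0 : (0 : ℝ) < i := by exact_mod_cast hi
  have h1 : (((1 / Real.sqrt i : ℝ) : ℂ)) ^ 2 = 1 / (i : ℂ) := by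
    rw [← Complex.ofReal_pow, div_pow, one_pow, Real.sq_sqrt h0.le]
    push_cast
    rfl
  unfold al
  split_ifs with he
  · rw [mul_pow, h1, Complex.I_sq]
    have ho : Odd (i - 1) := by
      obtain ⟨m, hm⟩ := he
      exact ⟨m - 1, by omega⟩
    rw [ho.neg_one_pow]
    ring
  · rw [h1]
    have ho : Even (i - 1) := by
      rw [Nat.not_even_iff_odd] at he
      obtain ⟨m, hm⟩ := he
      exact ⟨m, by omega⟩
    rw [ho.neg_one_pow]

theorem Gt_succ (K : ℕ) (g : Fin K → ℝ) (j : Fin K) :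
    Gt K g (j.val + 1) = al (j.val + 1) * (g j : ℂ) := by
  unfold Gt
  rw [dif_pos ⟨by omega, by omega⟩]
  rfl

/-- the product of the one-site factors is an exponential of a linear function -/
theorem prod_fg {ι : Type} [Fintype ι] (K : ℕ) (u : ι → ℂ) (g : Fin K → ℝ) :
    ∏ l, fg K g (u l) = Complex.exp (-(∑ l, lgt K (u l ^ 2)) / 2) *
      Complex.exp (∑ j : Fin K, (al (j.val + 1) * ∑ l, u l ^ (j.val + 1)) * (g j : ℂ)) := by
  unfold fg fgG
  rw [← Complex.exp_sum, ← Complex.exp_add]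
  congr 1
  rw [Finset.sum_sub_distrib, ← Finset.sum_div]
  have h1 : ∑ l, ∑ i ∈ Finset.Icc 1 K, Gt K g i * u l ^ i
      = ∑ j : Fin K, (al (j.val + 1) * ∑ l, u l ^ (j.val + 1)) * (g j : ℂ) := by
    rw [Finset.sum_comm, sum_Icc]
    refine Finset.sum_congr rfl fun j _ => ?_
    rw [← Finset.mul_sum, Gt_succ]
    ring
  rw [h1]
  ring

theorem sum_al {ι : Type} [Fintype ι] [LinearOrder ι] (K : ℕ) (u : ι → ℂ) :
    (∑ j : Fin K, (al (j.val + 1) * ∑ l, u l ^ (j.val + 1)) ^ 2)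
      = ∑ l, lgt K (u l ^ 2) + 2 * ∑ p ∈ prs ι, lgt K (u p.1 * u p.2) := by
  have h := sum_sym (ι := ι) (fun l l' => lgt K (u l * u l'))
    (fun l l' => by rw [mul_comm])
  have h2 : ∀ l, lgt K (u l * u l) = lgt K (u l ^ 2) := fun l => by rw [sq]
  simp only [h2] at h
  rw [← h]
  unfold lgt
  have h3 : ∀ l l' : ι, ∑ i ∈ Finset.Icc 1 K, (-1 : ℂ) ^ (i - 1) * (u l * u l') ^ i / (i : ℂ)
      = ∑ j : Fin K, al (j.val + 1) ^ 2 * (u l ^ (j.val + 1) * u l' ^ (j.val + 1)) := by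
    intro l l'
    rw [sum_Icc]
    refine Finset.sum_congr rfl fun j _ => ?_
    rw [al_sq _ (by omega), mul_pow]
    ring
  simp only [h3]
  have h4 : ∀ l : ι, ∑ l', ∑ j : Fin K, al (j.val + 1) ^ 2 * (u l ^ (j.val + 1) *
      u l' ^ (j.val + 1)) = ∑ j : Fin K, al (j.val + 1) ^ 2 * (u l ^ (j.val + 1) *
        ∑ l', u l' ^ (j.val + 1)) := by
    intro l
    rw [Finset.sum_comm]
    refine Finset.sum_congr rfl fun j _ => ?_
    rw [Finset.mul_sum, Finset.mul_sum]
  simp only [h4]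
  rw [Finset.sum_comm]
  refine Finset.sum_congr rfl fun j _ => ?_
  rw [← Finset.mul_sum, ← Finset.sum_mul]
  ring

end HsidAux

open HsidAux

theorem hsid_proof (hHsg : Stmt_Hsg) : Stmt_Hsid := by
  intro n d ε K ι _ _ τ _ z
  have hb : ∀ b : ι → Fin (2 * n), ∃ (c : ℂ) (a : Fin K → ℂ),
      (∀ g : Fin K → ℝ, (∏ l, kap n d (b l) * fg K g (uu n d (b l)) * sf z (uu n d (b l)))
        * ∏ p ∈ prs ι, (1 + chi K (uu n d (b p.1) * uu n d (b p.2)))
          = c * Complex.exp (∑ i, a i * (g i : ℂ))) ∧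
      c * Complex.exp ((∑ i, a i ^ 2) / 2) =
        (∏ l, kap n d (b l) * sf z (uu n d (b l)))
          * ∏ p ∈ prs ι, (1 + uu n d (b p.1) * uu n d (b p.2)) := by
    intro b
    refine ⟨(∏ l, kap n d (b l) * sf z (uu n d (b l))) *
        Complex.exp (-(∑ l, lgt K (uu n d (b l) ^ 2)) / 2) *
        ∏ p ∈ prs ι, (1 + chi K (uu n d (b p.1) * uu n d (b p.2))),
      fun j => al (j.val + 1) * ∑ l, uu n d (b l) ^ (j.val + 1), fun g => ?_, ?_⟩
    · have h1 : ∏ l, kap n d (b l) * fg K g (uu n d (b l)) * sf z (uu n d (b l))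
          = (∏ l, kap n d (b l) * sf z (uu n d (b l))) * ∏ l, fg K g (uu n d (b l)) := by
        rw [← Finset.prod_mul_distrib]
        refine Finset.prod_congr rfl fun l _ => ?_
        ring
      rw [h1, prod_fg]
      ring
    · rw [sum_al]
      have h2 : ∏ p ∈ prs ι, (1 + chi K (uu n d (b p.1) * uu n d (b p.2)))
          = (∏ p ∈ prs ι, (1 + uu n d (b p.1) * uu n d (b p.2))) *
            Complex.exp (-∑ p ∈ prs ι, lgt K (uu n d (b p.1) * uu n d (b p.2))) := by
        rw [← Finset.sum_neg_distrib, Complex.exp_sum, ← Finset.prod_mul_distrib]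
        refine Finset.prod_congr rfl fun p _ => ?_
        unfold chi
        ring
      rw [h2]
      have h3 : Complex.exp ((∑ l, lgt K (uu n d (b l) ^ 2) +
          2 * ∑ p ∈ prs ι, lgt K (uu n d (b p.1) * uu n d (b p.2))) / 2)
          = Complex.exp ((∑ l, lgt K (uu n d (b l) ^ 2)) / 2) *
            Complex.exp (∑ p ∈ prs ι, lgt K (uu n d (b p.1) * uu n d (b p.2))) := by
        rw [← Complex.exp_add]
        congr 1
        ring
      rw [h3]
      have h4 : Complex.exp (-(∑ l, lgt K (uu n d (b l) ^ 2)) / 2) *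
          Complex.exp ((∑ l, lgt K (uu n d (b l) ^ 2)) / 2) = 1 := by
        rw [← Complex.exp_add]
        rw [show -(∑ l, lgt K (uu n d (b l) ^ 2)) / 2 +
          (∑ l, lgt K (uu n d (b l) ^ 2)) / 2 = 0 by ring]
        exact Complex.exp_zero
      have h5 : Complex.exp (-∑ p ∈ prs ι, lgt K (uu n d (b p.1) * uu n d (b p.2))) *
          Complex.exp (∑ p ∈ prs ι, lgt K (uu n d (b p.1) * uu n d (b p.2))) = 1 := by
        rw [← Complex.exp_add, neg_add_cancel]
        exact Complex.exp_zero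
      calc _ = (∏ l, kap n d (b l) * sf z (uu n d (b l))) *
            (∏ p ∈ prs ι, (1 + uu n d (b p.1) * uu n d (b p.2))) *
            (Complex.exp (-(∑ l, lgt K (uu n d (b l) ^ 2)) / 2) *
              Complex.exp ((∑ l, lgt K (uu n d (b l) ^ 2)) / 2)) *
            (Complex.exp (-∑ p ∈ prs ι, lgt K (uu n d (b p.1) * uu n d (b p.2))) *
              Complex.exp (∑ p ∈ prs ι, lgt K (uu n d (b p.1) * uu n d (b p.2)))) := by ring
        _ = _ := by rw [h4, h5]; ring
  choose c a h1 h2 using hb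
  have hint : ∀ b : ι → Fin (2 * n), Integrable (fun g : Fin K → ℝ =>
      (∏ l, kap n d (b l) * fg K g (uu n d (b l)) * sf z (uu n d (b l)))
        * ∏ p ∈ prs ι, (1 + chi K (uu n d (b p.1) * uu n d (b p.2)))) (gam K) := by
    intro b
    simp only [h1 b]
    exact (hHsg.1 K (a b)).1.const_mul _
  constructor
  · unfold Inn
    exact integrable_finsetSum _ fun b _ => hint b
  · unfold Inn JJ
    rw [integral_finsetSum _ fun b _ => hint b]
    refine Finset.sum_congr rfl fun b _ => ?_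
    simp only [h1 b]
    rw [integral_const_mul, (hHsg.1 K (a b)).2, h2 b]

end Pool.Agent.RGD
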