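import Pool.Agent.RGD.Stmts
import Pool.Agent.RGA.Overlap

/-!
From `Soft` to the expansion in the form of Isaev and McKay (helper47).
-/

set_option autoImplicit false

namespace Pool.Agent.RGD

open Finset Pool.Agent.RGA

namespace Im

/-- the polynomials `q_j` -/
noncomputable def qj (j : ℕ) : Polynomial ℝ :=
  if j = 0 then 0 else if j = 1 then Polynomial.C (1 / 4) * Polynomial.X else
    ∑ i ∈ range j, Polynomial.C (((QQ (j - 1)).coeff (2 * i) : ℚ) : ℝ) * Polynomial.X ^ (j - i)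
      * (1 - 4 * Polynomial.X) ^ i

lemma qj_one : qj 1 = Polynomial.C (1 / 4) * Polynomial.X := by simp [qj]

lemma qj_deg (j : ℕ) : (qj j).natDegree ≤ j := by
  unfold qj
  split_ifs with h0 h1
  · simp
  · subst h1
    exact (Polynomial.natDegree_C_mul_le _ _).trans (by simp)
  · refine Polynomial.natDegree_sum_le_of_forall_le _ _ (fun i hi => ?_)
    rw [mem_range] at hi
    have a1 : (Polynomial.C (((QQ (j - 1)).coeff (2 * i) : ℚ) : ℝ)
        * Polynomial.X ^ (j - i)).natDegree ≤ j - i := Polynomial.natDegree_C_mul_X_pow_le _ _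
    have a2 : ((1 - 4 * Polynomial.X : Polynomial ℝ) ^ i).natDegree ≤ i := by
      have b1 : (1 - 4 * Polynomial.X : Polynomial ℝ).natDegree ≤ 1 := by
        refine (Polynomial.natDegree_sub_le _ _).trans ?_
        have : (4 * Polynomial.X : Polynomial ℝ) = Polynomial.C 4 * Polynomial.X := by
          rw [map_ofNat]
        rw [this]
        simp only [Polynomial.natDegree_one]
        exact max_le (by omega) ((Polynomial.natDegree_C_mul_le _ _).trans (by simp))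
      have := Polynomial.natDegree_pow_le_of_le i b1
      rwa [mul_one] at this
    exact (Polynomial.natDegree_mul_le_of_le a1 a2).trans (by omega)

/-- odd coefficients of an even polynomial vanish -/
lemma coeff_odd (P : Polynomial ℚ) (h : P.comp (-Polynomial.X) = P) (i : ℕ) (hi : Odd i) :
    P.coeff i = 0 := by
  have h1 : (P.comp (-Polynomial.X)).coeff i = (-1) ^ i * P.coeff i := by
    have : (-Polynomial.X : Polynomial ℚ) = Polynomial.C (-1) * Polynomial.X := by simp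
    rw [this, Polynomial.comp_C_mul_X_coeff]
    ring
  rw [h, hi.neg_one_pow] at h1
  linarith

lemma aeval_even (P : Polynomial ℚ) (h : P.comp (-Polynomial.X) = P) (w : ℕ)
    (hd : P.natDegree ≤ 2 * w) (t : ℝ) :
    Polynomial.aeval t P = ∑ i ∈ range (w + 1), ((P.coeff (2 * i) : ℚ) : ℝ) * (t ^ 2) ^ i := by
  have h1 : Polynomial.aeval t P = ∑ i ∈ range (2 * w + 1), ((P.coeff i : ℚ) : ℝ) * t ^ i := by
    rw [Polynomial.aeval_eq_sum_range' (by omega : P.natDegree < 2 * w + 1)]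
    refine Finset.sum_congr rfl (fun i _ => ?_)
    rw [Algebra.smul_def]
    rfl
  rw [h1]
  clear h1 hd
  induction w with
  | zero => simp
  | succ w ih =>
    rw [show 2 * (w + 1) + 1 = 2 * w + 1 + 1 + 1 by ring, Finset.sum_range_succ,
      Finset.sum_range_succ, ih, Finset.sum_range_succ _ (w + 1)]
    rw [coeff_odd P h (2 * w + 1) ⟨w, by ring⟩]
    have e : 2 * w + 1 + 1 = 2 * (w + 1) := by ring
    rw [e, pow_mul t 2 (w + 1)]
    simp

lemma qj_eval (hDeg : Stmt_Deg) (hPar : Stmt_Parity) (j : ℕ) (hj : 2 ≤ j) (x t : ℝ) (hx : x ≠ 0)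
    (ht : t ^ 2 = 1 / x - 4) : (qj j).eval x / x ^ j = Polynomial.aeval t (QQ (j - 1)) := by
  obtain ⟨w, rfl⟩ : ∃ w, j = w + 1 := ⟨j - 1, by omega⟩
  rw [Nat.add_sub_cancel, aeval_even (QQ w) (hPar w) w (hDeg.2.2.2.2.2.2.2.2 w) t]
  unfold qj
  rw [if_neg (by omega), if_neg (by omega), Nat.add_sub_cancel, Polynomial.eval_finsetSum,
    Finset.sum_div]
  refine Finset.sum_congr rfl (fun i hi => ?_)
  rw [mem_range] at hi
  simp only [Polynomial.eval_mul, Polynomial.eval_C, Polynomial.eval_pow, Polynomial.eval_X,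
    Polynomial.eval_sub, Polynomial.eval_one, Polynomial.eval_ofNat]
  have e : x ^ (w + 1) = x ^ (w + 1 - i) * x ^ i := by rw [← pow_add]; congr 1; omega
  rw [e, ht]
  have h1 : x ^ (w + 1 - i) ≠ 0 := pow_ne_zero _ hx
  have h2 : x ^ i ≠ 0 := pow_ne_zero _ hx
  have h3 : (1 / x - 4) ^ i = (1 - 4 * x) ^ i / x ^ i := by
    rw [← div_pow]; congr 1; field_simp
  rw [h3]
  field_simp

/-- the values at `Λ = 1/4` and `Λ = 1/5` -/
lemma qj_vals (hDeg : Stmt_Deg) (hPar : Stmt_Parity) (hComp : Stmt_Comp) :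
    (qj 6).eval (1 / 4) = pj 6 (1 / 4) ∧ (qj 7).eval (1 / 4) = pj 7 (1 / 4) ∧
      (qj 7).eval (1 / 5) = pj 7 (1 / 5) := by
  obtain ⟨c1, c2, c3⟩ := hComp
  have e0 : ∀ P : Polynomial ℚ, Polynomial.aeval (0 : ℝ) P = ((P.eval 0 : ℚ) : ℝ) := by
    intro P
    have := Polynomial.aeval_algebraMap_apply ℝ (0 : ℚ) P
    simp only [map_zero] at this
    rw [this, ← Polynomial.coe_aeval_eq_eval]
    rfl
  have e1 : ∀ P : Polynomial ℚ, Polynomial.aeval (1 : ℝ) P = ((P.eval 1 : ℚ) : ℝ) := by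
    intro P
    have := Polynomial.aeval_algebraMap_apply ℝ (1 : ℚ) P
    simp only [map_one] at this
    rw [this, ← Polynomial.coe_aeval_eq_eval]
    rfl
  have h6 := qj_eval hDeg hPar 6 (by norm_num) (1 / 4) 0 (by norm_num) (by norm_num)
  have h7 := qj_eval hDeg hPar 7 (by norm_num) (1 / 4) 0 (by norm_num) (by norm_num)
  have h8 := qj_eval hDeg hPar 7 (by norm_num) (1 / 5) 1 (by norm_num) (by norm_num)
  rw [show 6 - 1 = 5 by norm_num, e0, c1, div_eq_iff (by norm_num)] at h6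
  rw [show 7 - 1 = 6 by norm_num, e0, c2, div_eq_iff (by norm_num)] at h7
  rw [show 7 - 1 = 6 by norm_num, e1, c3, div_eq_iff (by norm_num)] at h8
  refine ⟨?_, ?_, ?_⟩
  · rw [h6]; unfold pj; norm_num
  · rw [h7]; unfold pj; norm_num
  · rw [h8]; unfold pj; norm_num

/-- bound for a polynomial of degree `≤ 2 w` in `t` -/
lemma poly_bound (P : Polynomial ℚ) (w : ℕ) (hd : P.natDegree ≤ 2 * w) :
    ∃ A : ℝ, 0 ≤ A ∧ ∀ t L : ℝ, 0 < L → L ≤ 1 → 0 ≤ t → t ^ 2 ≤ 1 / L →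
      |Polynomial.aeval t P| ≤ A / L ^ w := by
  refine ⟨∑ i ∈ range (2 * w + 1), |((P.coeff i : ℚ) : ℝ)|,
    Finset.sum_nonneg (fun _ _ => abs_nonneg _), fun t L hL hL1 ht ht2 => ?_⟩
  rw [Polynomial.aeval_eq_sum_range' (by omega : P.natDegree < 2 * w + 1), Finset.sum_div]
  refine (Finset.abs_sum_le_sum_abs _ _).trans (Finset.sum_le_sum (fun i hi => ?_))
  rw [mem_range] at hi
  rw [Algebra.smul_def]
  change |((P.coeff i : ℚ) : ℝ) * t ^ i| ≤ _
  rw [abs_mul, abs_of_nonneg (pow_nonneg ht i), div_eq_mul_inv]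
  refine mul_le_mul_of_nonneg_left ?_ (abs_nonneg _)
  have h1 : 1 ≤ 1 / L := by rw [le_div_iff₀ hL]; linarith
  have hm : max 1 t ^ 2 ≤ 1 / L := by
    rcases le_total 1 t with h | h
    · rw [max_eq_right h]; exact ht2
    · rw [max_eq_left h]; simpa using h1
  calc t ^ i ≤ max 1 t ^ i := pow_le_pow_left₀ ht (le_max_right _ _) i
    _ ≤ max 1 t ^ (2 * w) := pow_le_pow_right₀ (le_max_left _ _) (by omega)
    _ = (max 1 t ^ 2) ^ w := by rw [pow_mul]
    _ ≤ (1 / L) ^ w := pow_le_pow_left₀ (by positivity) hm w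
    _ = (L ^ w)⁻¹ := by rw [one_div, inv_pow]

/-- the expansion for `λ ≤ 1/2` -/
lemma half (hUid : Stmt_Uid) (hDeg : Stmt_Deg) (hPar : Stmt_Parity) (hSoft : Stmt_Soft)
    (σ : ℝ) (hσ : 0 < σ) (hσ1 : σ ≤ 1) (m : ℕ) (hm : 1 ≤ m) :
    ∃ C : ℝ, 0 ≤ C ∧ ∃ n₀ : ℕ, ∀ n d : ℕ, n₀ ≤ n → Dom σ n d →
      |Real.log (RG n d) - (Real.log (Bnd n d)
        + ∑ j ∈ Finset.Icc 1 m, (qj j).eval (Lam n d) / (Lam n d ^ j * (n : ℝ) ^ (j - 1)))|
        ≤ C / (Lam n d ^ (m + 1) * (n : ℝ) ^ m) := by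
  obtain ⟨W, C, n₀, hmW, hS⟩ := hSoft σ m hσ hσ1
  choose A hA0 hA using fun w => poly_bound (QQ w) w (hDeg.2.2.2.2.2.2.2.2 w)
  refine ⟨|C| + ∑ w ∈ Icc m W, A w,
    add_nonneg (abs_nonneg _) (Finset.sum_nonneg (fun w _ => hA0 w)), max n₀ 3,
    fun n d hn hD => ?_⟩
  obtain ⟨hRG, h1⟩ := hS n d ((le_max_left _ _).trans hn) hD
  have hn3 : 3 ≤ n := (le_max_right _ _).trans hn
  have hnR : (3 : ℝ) ≤ n := by exact_mod_cast hn3
  have hn0 : (0 : ℝ) < n := by linarith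
  obtain ⟨hd, hd2, hev, hy⟩ := hD
  obtain ⟨⟨hl0, hl1, hL0, hL4, ht0, ht2, hy0, hy1, hb⟩, -⟩ := hUid n d hd hd2
  set L := Lam n d with hL
  set t := tt n d with ht
  have hy' : 1 ≤ L * n := by
    have : (1 : ℝ) ≤ (n : ℝ) ^ σ := Real.one_le_rpow (by linarith) hσ.le
    have hy2 : yy n d = L * n := rfl
    linarith
  have hLne : L ≠ 0 := hL0.ne'
  -- the sum over j
  have hsum : ∑ j ∈ Finset.Icc 1 m, (qj j).eval L / (L ^ j * (n : ℝ) ^ (j - 1))
      = 1 / 4 + ∑ w ∈ Ico 1 m, Polynomial.aeval t (QQ w) / (n : ℝ) ^ w := by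
    have e1 : Finset.Icc 1 m = insert 1 (Finset.Icc 2 m) := by
      ext x; simp only [Finset.mem_insert, Finset.mem_Icc]; omega
    rw [e1, Finset.sum_insert (by simp), qj_one]
    congr 1
    · simp only [Polynomial.eval_mul, Polynomial.eval_C, Polynomial.eval_X]
      field_simp
      simp
    · have e2 : Finset.Icc 2 m = (Finset.Ico 1 m).image (fun w => w + 1) := by
        ext x
        simp only [Finset.mem_Icc, Finset.mem_image, Finset.mem_Ico]
        constructor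
        · intro hx; exact ⟨x - 1, by omega, by omega⟩
        · rintro ⟨w, hw, rfl⟩; omega
      rw [e2, Finset.sum_image (fun a _ b _ h => by simpa using h)]
      refine Finset.sum_congr rfl (fun w hw => ?_)
      rw [Finset.mem_Ico] at hw
      have := qj_eval hDeg hPar (w + 1) (by omega) L t hLne ht2
      rw [Nat.add_sub_cancel] at this ⊢
      rw [← this]
      field_simp
  have hsplit : ∑ w ∈ Icc 1 W, Polynomial.aeval t (QQ w) / (n : ℝ) ^ w
      = ∑ w ∈ Ico 1 m, Polynomial.aeval t (QQ w) / (n : ℝ) ^ w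
        + ∑ w ∈ Icc m W, Polynomial.aeval t (QQ w) / (n : ℝ) ^ w := by
    rw [← Finset.sum_union]
    · congr 1; ext x; simp only [Finset.mem_union, Finset.mem_Icc, Finset.mem_Ico]; omega
    · rw [Finset.disjoint_left]; intro x; simp only [Finset.mem_Icc, Finset.mem_Ico]; omega
  have hden : 0 < L ^ (m + 1) * (n : ℝ) ^ m := by positivity
  have hb1 : |∑ w ∈ Icc m W, Polynomial.aeval t (QQ w) / (n : ℝ) ^ w|
      ≤ (∑ w ∈ Icc m W, A w) / (L ^ (m + 1) * (n : ℝ) ^ m) := by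
    rw [Finset.sum_div]
    refine (Finset.abs_sum_le_sum_abs _ _).trans (Finset.sum_le_sum (fun w hw => ?_))
    rw [Finset.mem_Icc] at hw
    have h2 := hA w t L hL0 (by linarith) ht0 (by rw [ht2]; linarith)
    rw [abs_div, abs_of_pos (by positivity : (0 : ℝ) < (n : ℝ) ^ w)]
    calc |Polynomial.aeval t (QQ w)| / (n : ℝ) ^ w ≤ A w / L ^ w / (n : ℝ) ^ w :=
          div_le_div_of_nonneg_right h2 (by positivity)
      _ = A w / (L * n) ^ w := by rw [div_div, mul_pow]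
      _ ≤ A w / (L ^ (m + 1) * (n : ℝ) ^ m) := by
          refine div_le_div_of_nonneg_left (hA0 w) hden ?_
          calc L ^ (m + 1) * (n : ℝ) ^ m = L * (L * n) ^ m := by rw [mul_pow]; ring
            _ ≤ 1 * (L * n) ^ m := mul_le_mul_of_nonneg_right (by linarith) (by positivity)
            _ ≤ (L * n) ^ w := by rw [one_mul]; exact pow_le_pow_right₀ hy' hw.1
  have hb2 : C * (n : ℝ) ^ (-(m : ℝ)) ≤ |C| / (L ^ (m + 1) * (n : ℝ) ^ m) := by
    rw [Real.rpow_neg hn0.le, Real.rpow_natCast]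
    calc C * ((n : ℝ) ^ m)⁻¹ ≤ |C| * ((n : ℝ) ^ m)⁻¹ :=
          mul_le_mul_of_nonneg_right (le_abs_self C) (by positivity)
      _ = |C| / ((n : ℝ) ^ m) := by rw [div_eq_mul_inv]
      _ ≤ |C| / (L ^ (m + 1) * (n : ℝ) ^ m) := by
          refine div_le_div_of_nonneg_left (abs_nonneg _) hden ?_
          have : L ^ (m + 1) ≤ 1 := pow_le_one₀ hL0.le (by linarith)
          nlinarith [pow_pos hn0 m]
  rw [hsum]
  rw [hsplit] at h1
  have e3 : Real.log (RG n d) - (Real.log (Bnd n d)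
        + (1 / 4 + ∑ w ∈ Ico 1 m, Polynomial.aeval t (QQ w) / (n : ℝ) ^ w))
      = (Real.log (RG n d) - Real.log (Bnd n d) - 1 / 4
        - (∑ w ∈ Ico 1 m, Polynomial.aeval t (QQ w) / (n : ℝ) ^ w
        + ∑ w ∈ Icc m W, Polynomial.aeval t (QQ w) / (n : ℝ) ^ w))
        + ∑ w ∈ Icc m W, Polynomial.aeval t (QQ w) / (n : ℝ) ^ w := by ring
  rw [e3, add_div]
  exact (abs_add_le _ _).trans (add_le_add (h1.trans hb2) hb1)

lemma Lam_compl (n d : ℕ) (hdn : d + 2 ≤ n) : Lam n (n - 1 - d) = Lam n d := by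
  have h1 : lam n (n - 1 - d) = 1 - lam n d := by
    unfold lam
    have hn : ((n : ℝ) - 1) ≠ 0 := by
      have : (2 : ℝ) ≤ n := by exact_mod_cast (by omega : 2 ≤ n)
      linarith
    have : ((n - 1 - d : ℕ) : ℝ) = (n : ℝ) - 1 - d := by
      rw [Nat.cast_sub (by omega), Nat.cast_sub (by omega)]; norm_num
    rw [this]
    field_simp
  unfold Lam
  rw [h1]
  ring

/-- the expansion in the form of Isaev and McKay, for all `d` in the dense range -/
theorem im (hUid : Stmt_Uid) (hDeg : Stmt_Deg) (hPar : Stmt_Parity) (hSoft : Stmt_Soft)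
    (hCompl : Stmt_Compl) (σ : ℝ) (hσ : 0 < σ) (m : ℕ) (hm : 1 ≤ m) :
    ∃ C : ℝ, ∃ n₀ : ℕ, ∀ n d : ℕ, n₀ ≤ n → 1 ≤ d → d ≤ n - 2 →
      Even (d * n) → (n : ℝ) ^ σ ≤ min (d : ℝ) ((n : ℝ) - 1 - d) →
      |Real.log (RG n d) - (Real.log (Bnd n d)
        + ∑ j ∈ Finset.Icc 1 m, (qj j).eval (Lam n d) / (Lam n d ^ j * (n : ℝ) ^ (j - 1)))|
        ≤ C / (Lam n d ^ (m + 1) * (n : ℝ) ^ m) := by
  set τ := min σ 1 / 2 with hτ
  have hτ0 : 0 < τ := by rw [hτ]; have := lt_min hσ one_pos; linarith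
  have hτ1 : τ ≤ 1 := by rw [hτ]; have := min_le_right σ 1; linarith
  have hτσ : τ < σ := by rw [hτ]; have := min_le_left σ 1; have := lt_min hσ one_pos; linarith
  obtain ⟨C, hC, n₁, h1⟩ := half hUid hDeg hPar hSoft τ hτ0 hτ1 m hm
  have hlim := (Ovl.tendsto_pow_top (σ - τ) (by linarith)).eventually_ge_atTop 2
  obtain ⟨n₂, hn₂⟩ := Filter.eventually_atTop.mp hlim
  refine ⟨C, max (max n₁ n₂) 3, fun n d hn hd hdn he hmin => ?_⟩
  have hn1 : n₁ ≤ n := (le_max_left _ _).trans ((le_max_left _ _).trans hn)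
  have hn2 : n₂ ≤ n := (le_max_right _ _).trans ((le_max_left _ _).trans hn)
  have hn3 : 3 ≤ n := (le_max_right _ _).trans hn
  have hnR : (3 : ℝ) ≤ n := by exact_mod_cast hn3
  have hn0 : (0 : ℝ) < n := by linarith
  have hpow : (n : ℝ) ^ τ ≤ (n : ℝ) ^ σ / 2 := by
    have h2 := hn₂ n hn2
    have h3 : (n : ℝ) ^ σ = (n : ℝ) ^ τ * (n : ℝ) ^ (σ - τ) := by
      rw [← Real.rpow_add hn0]; congr 1; ring
    have h4 : 0 < (n : ℝ) ^ τ := Real.rpow_pos_of_pos hn0 _
    rw [h3]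
    nlinarith
  have hy : (n : ℝ) ^ τ ≤ Lam n d * n := by
    have := Ovl.y_ge n d hd hdn
    linarith
  by_cases hcase : 2 * d ≤ n - 1
  · exact h1 n d hn1 ⟨hd, hcase, by rwa [mul_comm] at he, hy⟩
  · have hd' : 1 ≤ n - 1 - d := by omega
    have hL := Lam_compl n d (by omega)
    obtain ⟨hR, hM⟩ := hCompl n d hd (by omega)
    have hev' : Even (n * (n - 1 - d)) := by
      have e1 : n * (n - 1 - d) + n * d = n * (n - 1) := by
        rw [← Nat.mul_add]; congr 1; omega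
      have e2 : Even (n * (n - 1)) := Nat.even_mul_pred_self n
      rw [← e1, Nat.even_add] at e2
      exact e2.mpr (by rwa [mul_comm] at he)
    have h2 := h1 n (n - 1 - d) hn1 ⟨hd', by omega, hev', by rw [yy, hL]; exact hy⟩
    have hB : Bnd n (n - 1 - d) = Bnd n d := by
      unfold Mnd at hM
      have hS : S7 n (n - 1 - d) = S7 n d := by unfold S7; rw [hL]
      rw [hS] at hM
      exact mul_right_cancel₀ (Real.exp_pos _).ne' hM
    rw [hL, hR, hB] at h2
    exact h2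

end Im

end Pool.Agent.RGD
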