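import Pool.Agent.RGD.Stmts

set_option autoImplicit false

namespace Pool.Agent.RGD

open Finset Pool.Agent.RGA

theorem inb_proof (hEeb : Stmt_Eeb) (hUid : Stmt_Uid) : Stmt_Inb := by
  intro σ M W K ε ε2 hPar
  refine ⟨4, ?_⟩
  intro n d hn hDom k hk
  obtain ⟨hd1, hd2, _, hy⟩ := hDom
  obtain ⟨hs0, hs1, -, -, he0, he1, -, -, -⟩ := hPar
  obtain ⟨⟨hl0, hl1, hL0, hL1, ht0, ht2, hy1, hy2, hb0⟩, hqv, hu, -⟩ := hUid n d hd1 hd2
  have hn4 : (4 : ℝ) ≤ (n : ℝ) := by exact_mod_cast hn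
  have hn1 : (1 : ℝ) ≤ (n : ℝ) := by linarith
  have hn0 : (0 : ℝ) < (n : ℝ) := by linarith
  have hk' : 2 * Lam n d * ss n k ≤ (n : ℝ) ^ (-1 + 2 * ε) := by
    simpa [inn] using hk
  have hs : 0 ≤ ss n k := ((hEeb.1 n k).2.1)
  have hshs : ss n (shf n k) = 2 - ss n k := (hEeb.1 n k).2.2.2.2.2.1
  set X : ℝ := (n : ℝ) ^ (-1 + 2 * ε) with hX
  have hXpos : 0 < X := Real.rpow_pos_of_pos hn0 _
  have hXhalf : X ≤ 1 / 2 := by
    have h1 : X ≤ (n : ℝ) ^ (-(1 / 2) : ℝ) :=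
      Real.rpow_le_rpow_of_exponent_le hn1 (by linarith)
    have h2 : (n : ℝ) ^ (-(1 / 2) : ℝ) ≤ (4 : ℝ) ^ (-(1 / 2) : ℝ) :=
      Real.rpow_le_rpow_of_nonpos (by norm_num) hn4 (by norm_num)
    have h3 : (4 : ℝ) ^ (-(1 / 2) : ℝ) = 1 / 2 := by
      rw [Real.rpow_neg (by norm_num), show (4 : ℝ) = 2 ^ (2 : ℝ) by norm_num,
        ← Real.rpow_mul (by norm_num)]
      norm_num
    linarith
  have hLs : 0 ≤ 2 * Lam n d * ss n k := by positivity
  have hq2 : ‖qq n d k‖ ^ 2 = 1 - 2 * Lam n d * ss n k := (hqv k).1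
  have hq0 : qq n d k ≠ 0 := by
    intro h
    rw [h] at hq2
    simp only [norm_zero, ne_eq, OfNat.ofNat_ne_zero, not_false_eq_true, zero_pow] at hq2
    linarith
  obtain ⟨hu1, hu2⟩ := hu k hq0
  have hun : ‖uu n d k‖ ^ 2 ≤ 2 * X := by
    rw [hu1, div_le_iff₀ (by linarith)]
    nlinarith
  have hyL : yy n d = Lam n d * n := rfl
  have hXn : X * n = (n : ℝ) ^ (2 * ε) := by
    rw [hX]
    nth_rewrite 2 [← Real.rpow_one (n : ℝ)]
    rw [← Real.rpow_add hn0]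
    congr 1
    ring
  refine ⟨hq0, hun, ?_, ?_, ?_⟩
  · -- s ≤ n ^ (- σ / 2)
    have h1 : 2 * yy n d * ss n k ≤ (n : ℝ) ^ (2 * ε) := by
      rw [← hXn, hyL]
      have := mul_le_mul_of_nonneg_right hk' hn0.le
      linarith
    have h2 : (n : ℝ) ^ σ * ss n k ≤ (n : ℝ) ^ (2 * ε) := by
      have : (n : ℝ) ^ σ * ss n k ≤ yy n d * ss n k := mul_le_mul_of_nonneg_right hy hs
      have h3 : 0 ≤ yy n d * ss n k := by positivity
      linarith
    have h3 : ss n k ≤ (n : ℝ) ^ (2 * ε - σ) := by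
      rw [Real.rpow_sub hn0, le_div_iff₀ (Real.rpow_pos_of_pos hn0 _)]
      linarith
    exact h3.trans (Real.rpow_le_rpow_of_exponent_le hn1 (by linarith))
  · -- real part
    have ht : tt n d ≤ (n : ℝ) ^ ((1 - σ) / 2) := by
      have h1 : tt n d ^ 2 ≤ ((n : ℝ) ^ ((1 - σ) / 2)) ^ 2 := by
        rw [ht2, ← Real.rpow_natCast, ← Real.rpow_mul hn0.le]
        have h2 : (1 - σ) / 2 * ((2 : ℕ) : ℝ) = 1 - σ := by push_cast; ring
        rw [h2, Real.rpow_sub hn0, Real.rpow_one]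
        have h3 : 1 / Lam n d ≤ (n : ℝ) / (n : ℝ) ^ σ := by
          rw [div_le_div_iff₀ hL0 (Real.rpow_pos_of_pos hn0 _)]
          rw [hyL] at hy
          linarith
        linarith
      exact (pow_le_pow_iff_left₀ ht0 (Real.rpow_nonneg hn0.le _) two_ne_zero).1 h1
    rw [hu2, abs_mul, abs_neg, abs_of_nonneg (by positivity : 0 ≤ tt n d / 2),
      abs_of_nonneg (by positivity : 0 ≤ ‖uu n d k‖ ^ 2)]
    calc tt n d / 2 * ‖uu n d k‖ ^ 2 ≤ (n : ℝ) ^ ((1 - σ) / 2) / 2 * (2 * X) := by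
          apply mul_le_mul _ hun (by positivity) (by positivity)
          linarith
      _ = (n : ℝ) ^ ((1 - σ) / 2) * X := by ring
      _ = (n : ℝ) ^ ((1 - σ) / 2 + (-1 + 2 * ε)) := by
          rw [hX, ← Real.rpow_add hn0]
      _ ≤ (n : ℝ) ^ (-(1 / 2) - σ / 4) := by
          apply Real.rpow_le_rpow_of_exponent_le hn1
          linarith
  · intro hmem
    have h1 : 2 * Lam n d * ss n (shf n k) ≤ X := by
      simpa [inn] using hmem
    rw [hshs] at h1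
    have h2 : 2 * Lam n d ≤ X := by nlinarith
    have h3 : 2 * yy n d ≤ (n : ℝ) ^ (2 * ε) := by
      rw [← hXn, hyL]
      have := mul_le_mul_of_nonneg_right h2 hn0.le
      linarith
    have h4 : (n : ℝ) ^ (2 * ε) ≤ (n : ℝ) ^ σ :=
      Real.rpow_le_rpow_of_exponent_le hn1 (by linarith)
    have h5 : 0 < (n : ℝ) ^ (2 * ε) := Real.rpow_pos_of_pos hn0 _
    linarith

end Pool.Agent.RGD
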