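import Pool.Agent.RGD.Ins

/-!
INNER: the sum over inner sites is the power of the one site integral, up to a tiny error.
-/

set_option autoImplicit false

namespace Pool.Agent.RGD

open Finset

namespace InnerA

theorem pow_sub_one_le {x : ℝ} (hx : 0 ≤ x) (N : ℕ) (h : N * x ≤ 1) :
    (1 + x) ^ N - 1 ≤ 2 * (N * x) := by
  have h1 : (1 + x) ^ N ≤ Real.exp (N * x) := by
    rw [Real.exp_nat_mul]
    refine pow_le_pow_left₀ (by linarith) ?_ N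
    have := Real.add_one_le_exp x
    linarith
  have h0 : 0 ≤ (N : ℝ) * x := by positivity
  have h2 : |Real.exp (N * x) - 1| ≤ 2 * |(N : ℝ) * x| :=
    Real.abs_exp_sub_one_le (by rw [abs_of_nonneg h0]; exact h)
  rw [abs_of_nonneg h0] at h2
  have h3 := le_abs_self (Real.exp (N * x) - 1)
  linarith

/-- the common part of the two cases -/
theorem core (n d : ℕ) (ε : ℝ) (K : ℕ) (g : Fin K → ℝ) (ι : Type) [Fintype ι] [LinearOrder ι]
    {τ : Type} [Fintype τ] (z : τ → ℂ) (A B ρ δ : ℝ) (hA : 1 ≤ A) (hB : 1 ≤ B) (hρ : 0 ≤ ρ)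
    (hPhis : ‖Phis n d ε K g z‖ ≤ B)
    (hsum : ∑ k ∈ inn n d ε, ‖kap n d k * fg K g (uu n d k) * sf z (uu n d k)‖ ≤ A * B)
    (hχ : ∀ a ∈ inn n d ε, ∀ b ∈ inn n d ε, ‖chi K (uu n d a * uu n d b)‖ ≤ ρ)
    (hcard : Fintype.card ι ≤ n) (hδ : δ ≤ 1) (hsmall : (n : ℝ) ^ 2 * (A ^ 2 * ρ) ≤ δ / 2) :
    ‖Inn n d ε K g ι z‖ ≤ 2 * B ^ n ∧ ‖Phis n d ε K g z‖ ^ Fintype.card ι ≤ B ^ n ∧
      ‖Inn n d ε K g ι z - Phis n d ε K g z ^ Fintype.card ι‖ ≤ B ^ n * δ := by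
  classical
  have hB0 : 0 ≤ B := by linarith
  have hpw : B ^ Fintype.card ι ≤ B ^ n := pow_le_pow_right₀ hB hcard
  have hP : ‖Phis n d ε K g z‖ ^ Fintype.card ι ≤ B ^ n :=
    (pow_le_pow_left₀ (norm_nonneg _) hPhis _).trans hpw
  have hins := ins_proof (Fin (2 * n)) (inn n d ε)
    (fun k => kap n d k * fg K g (uu n d k) * sf z (uu n d k))
    (fun a b => chi K (uu n d a * uu n d b)) ι A B ρ hA hB0 hρ hPhis hsum hχ
  have heq : Inn n d ε K g ι z - Phis n d ε K g z ^ Fintype.card ι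
      = ∑ b ∈ Fintype.piFinset (fun _ : ι => inn n d ε),
        (∏ l, (kap n d (b l) * fg K g (uu n d (b l)) * sf z (uu n d (b l)))) *
          (∏ p ∈ prs ι, (1 + chi K (uu n d (b p.1) * uu n d (b p.2))) - 1) := by
    have hpow : Phis n d ε K g z ^ Fintype.card ι
        = ∑ b ∈ Fintype.piFinset (fun _ : ι => inn n d ε),
          (∏ l, (kap n d (b l) * fg K g (uu n d (b l)) * sf z (uu n d (b l)))) := by
      rw [← Finset.prod_univ_sum (fun _ : ι => inn n d ε)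
        (fun _ k => kap n d k * fg K g (uu n d k) * sf z (uu n d k)), Finset.prod_const,
        Finset.card_univ]
      rfl
    rw [hpow, Inn, ← Finset.sum_sub_distrib]
    exact Finset.sum_congr rfl (fun b _ => by ring)
  have hx : 0 ≤ A ^ 2 * ρ := by positivity
  have hN : ((Fintype.card ι ^ 2 : ℕ) : ℝ) * (A ^ 2 * ρ) ≤ (n : ℝ) ^ 2 * (A ^ 2 * ρ) := by
    have : ((Fintype.card ι ^ 2 : ℕ) : ℝ) ≤ (n : ℝ) ^ 2 := by
      push_cast
      have : (Fintype.card ι : ℝ) ≤ n := by exact_mod_cast hcard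
      gcongr
    gcongr
  have hD : ‖Inn n d ε K g ι z - Phis n d ε K g z ^ Fintype.card ι‖ ≤ B ^ n * δ := by
    rw [heq]
    refine hins.trans ?_
    have h1 := pow_sub_one_le hx (Fintype.card ι ^ 2) (by linarith)
    have h2 : (1 + A ^ 2 * ρ) ^ (Fintype.card ι ^ 2) - 1 ≤ δ := by linarith
    have h3 : 0 ≤ (1 + A ^ 2 * ρ) ^ (Fintype.card ι ^ 2) - 1 := by
      have : 1 ≤ (1 + A ^ 2 * ρ) ^ (Fintype.card ι ^ 2) := one_le_pow₀ (by linarith)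
      linarith
    exact mul_le_mul hpw h2 h3 (by positivity)
  refine ⟨?_, hP, hD⟩
  have h4 : ‖Inn n d ε K g ι z‖ ≤ ‖Inn n d ε K g ι z - Phis n d ε K g z ^ Fintype.card ι‖
      + ‖Phis n d ε K g z ^ Fintype.card ι‖ := by
    have := norm_add_le (Inn n d ε K g ι z - Phis n d ε K g z ^ Fintype.card ι)
      (Phis n d ε K g z ^ Fintype.card ι)
    rwa [sub_add_cancel] at this
  rw [norm_pow] at h4
  have hBn : 0 ≤ B ^ n := by positivity
  nlinarith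

theorem tend (r : ℝ) (hr : 0 < r) :
    Filter.Tendsto (fun n : ℕ => (n : ℝ) ^ (-r)) Filter.atTop (nhds 0) :=
  (tendsto_rpow_neg_atTop hr).comp tendsto_natCast_atTop_atTop

end InnerA

open InnerA in
theorem inner_proof (hInb : Stmt_Inb) (hChi : Stmt_Chi) (hPhi1 : Stmt_Phi1)
    (hPhi2 : Stmt_Phi2) : Stmt_Inner := by
  intro σ M W K ε ε2 hP
  obtain ⟨nI, hI⟩ := hInb σ M W K ε ε2 hP
  obtain ⟨Cχ, hCχ0, hCχ⟩ := hChi K
  obtain ⟨η1, C1, n1, hη1, hη1', hC1, h1⟩ := hPhi1 σ M W K ε ε2 hP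
  obtain ⟨C2, n2, hC2, h2⟩ := hPhi2 σ M W K ε ε2 hP
  have hσ0 := hP.s0
  have hσ1 := hP.s1
  have hε0 := hP.e0
  have hε1 := hP.e1
  -- the exponent
  have hK : (K : ℝ) = 2 * W + 2 := by rw [hP.hK]; push_cast; ring
  have hW : 2 * ((M : ℝ) + 6) ≤ W := by
    refine hP.hW.trans ?_
    have : (0 : ℝ) ≤ W := Nat.cast_nonneg W
    nlinarith
  have hexp : 2 + ((K : ℝ) + 1) * (-1 + 2 * ε) ≤ -(M : ℝ) - 1 := by
    have := hP.e2
    have hM : (0 : ℝ) ≤ M := Nat.cast_nonneg M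
    nlinarith
  set η : ℝ := η1 ^ 2 / (32 * (C2 + 1)) with hη
  have hη0 : 0 < η := by positivity
  have hC2η : C2 * η ≤ η1 ^ 2 / 32 := by
    rw [hη]
    rw [mul_div_assoc', div_le_div_iff₀ (by positivity) (by norm_num)]
    nlinarith [sq_nonneg η1]
  have hηη1 : η ≤ η1 := by
    rw [hη, div_le_iff₀ (by positivity)]
    nlinarith
  have hη1n : η ≤ 1 := hηη1.trans hη1'
  set D : ℝ := Cχ * 2 ^ (K + 1) with hD
  have hD0 : 0 ≤ D := by positivity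
  -- eventual facts
  have ev1 : ∀ᶠ n : ℕ in Filter.atTop, (n : ℝ) ^ (-(1 / 2) : ℝ) < 1 / 4 :=
    (tend (1 / 2) (by norm_num)).eventually (gt_mem_nhds (by norm_num))
  have ev2 : ∀ᶠ n : ℕ in Filter.atTop,
      C2 * (n : ℝ) ^ (-(σ / 4)) + 16 * K * (n : ℝ) ^ (-(σ / 2)) < η1 ^ 2 / 32 := by
    have t : Filter.Tendsto (fun n : ℕ => C2 * (n : ℝ) ^ (-(σ / 4))
        + 16 * K * (n : ℝ) ^ (-(σ / 2))) Filter.atTop (nhds (C2 * 0 + 16 * K * 0)) :=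
      ((tend (σ / 4) (by linarith)).const_mul C2).add
        ((tend (σ / 2) (by linarith)).const_mul (16 * (K : ℝ)))
    refine t.eventually (gt_mem_nhds ?_)
    have : 0 < η1 ^ 2 / 32 := by positivity
    simpa using this
  have ev3 : ∀ᶠ n : ℕ in Filter.atTop, C1 ^ 2 * D * (n : ℝ) ^ (-1 : ℝ) < 1 / 2 := by
    have t : Filter.Tendsto (fun n : ℕ => C1 ^ 2 * D * (n : ℝ) ^ (-1 : ℝ)) Filter.atTop
        (nhds (C1 ^ 2 * D * 0)) := (tend 1 (by norm_num)).const_mul _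
    refine t.eventually (gt_mem_nhds ?_)
    norm_num
  obtain ⟨nA, hA⟩ := Filter.eventually_atTop.mp (ev1.and (ev2.and ev3))
  refine ⟨η, 2 * Real.exp C1 + C1 , max (max nI n1) (max (max n2 nA) 1), hη0, hη1n,
    by positivity, ?_⟩
  intro n d hn hdom ι _ _ hcard τ _ z hz hzs g
  have hnI : nI ≤ n := (le_max_left _ _).trans ((le_max_left _ _).trans hn)
  have hn1 : n1 ≤ n := (le_max_right _ _).trans ((le_max_left _ _).trans hn)
  have hn2 : n2 ≤ n := (le_max_left _ _).trans ((le_max_left _ _).trans ((le_max_right _ _).trans hn))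
  have hnA : nA ≤ n :=
    (le_max_right _ _).trans ((le_max_left _ _).trans ((le_max_right _ _).trans hn))
  have hn0 : 1 ≤ n := (le_max_right _ _).trans ((le_max_right _ _).trans hn)
  obtain ⟨ea, eb, ec⟩ := hA n hnA
  have hnR : (1 : ℝ) ≤ n := by exact_mod_cast hn0
  have hnpos : (0 : ℝ) < n := by linarith
  have hsq0 : 0 ≤ Real.sqrt n := Real.sqrt_nonneg _
  -- the bound of chi
  set X : ℝ := 2 * (n : ℝ) ^ (-1 + 2 * ε) with hX
  have hX0 : 0 ≤ X := by positivity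
  have hXle : X ≤ 1 / 2 := by
    have : (n : ℝ) ^ (-1 + 2 * ε) ≤ (n : ℝ) ^ (-(1 / 2) : ℝ) :=
      Real.rpow_le_rpow_of_exponent_le hnR (by linarith)
    rw [hX]; linarith
  set ρ : ℝ := Cχ * X ^ (K + 1) with hρ
  have hρ0 : 0 ≤ ρ := by positivity
  have hχ : ∀ a ∈ inn n d ε, ∀ b ∈ inn n d ε, ‖chi K (uu n d a * uu n d b)‖ ≤ ρ := by
    intro a ha b hb
    obtain ⟨-, ha2, -⟩ := hI n d hnI hdom a ha
    obtain ⟨-, hb2, -⟩ := hI n d hnI hdom b hb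
    have hab : ‖uu n d a * uu n d b‖ ≤ X := by
      rw [norm_mul]
      nlinarith [sq_nonneg (‖uu n d a‖ - ‖uu n d b‖)]
    refine (hCχ _ (hab.trans hXle)).trans ?_
    rw [hρ]
    gcongr
  have hρn : (n : ℝ) ^ 2 * ρ ≤ D * (n : ℝ) ^ (-1 : ℝ) * (n : ℝ) ^ (-(M : ℝ)) := by
    have e1 : X ^ (K + 1) = 2 ^ (K + 1) * (n : ℝ) ^ (((K : ℝ) + 1) * (-1 + 2 * ε)) := by
      rw [hX, mul_pow, mul_comm ((K : ℝ) + 1) (-1 + 2 * ε), Real.rpow_mul hnpos.le,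
        ← Nat.cast_succ, Real.rpow_natCast]
    have e2 : (n : ℝ) ^ 2 = (n : ℝ) ^ (2 : ℝ) := (Real.rpow_natCast _ 2).symm
    calc (n : ℝ) ^ 2 * ρ = D * ((n : ℝ) ^ (2 : ℝ) * (n : ℝ) ^ (((K : ℝ) + 1) * (-1 + 2 * ε))) := by
          rw [hρ, e1, hD, e2]; ring
      _ = D * (n : ℝ) ^ (2 + ((K : ℝ) + 1) * (-1 + 2 * ε)) := by rw [← Real.rpow_add hnpos]
      _ ≤ D * (n : ℝ) ^ (-(M : ℝ) - 1) := by
          gcongr
      _ = D * (n : ℝ) ^ (-1 : ℝ) * (n : ℝ) ^ (-(M : ℝ)) := by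
          have e3 : (n : ℝ) ^ (-(M : ℝ) - 1) = (n : ℝ) ^ (-1 : ℝ) * (n : ℝ) ^ (-(M : ℝ)) := by
            rw [← Real.rpow_add hnpos]
            congr 1
            ring
          rw [e3, ← mul_assoc D]
  set δ : ℝ := (n : ℝ) ^ (-(M : ℝ)) with hδ
  have hδ0 : 0 ≤ δ := by positivity
  have hδ1 : δ ≤ 1 := Real.rpow_le_one_of_one_le_of_nonpos hnR (by
    have : (0 : ℝ) ≤ M := Nat.cast_nonneg M
    linarith)
  have hC1sq : 1 ≤ C1 ^ 2 := one_le_pow₀ hC1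
  have hsm1 : (n : ℝ) ^ 2 * (C1 ^ 2 * ρ) ≤ δ / 2 := by
    calc (n : ℝ) ^ 2 * (C1 ^ 2 * ρ) = C1 ^ 2 * ((n : ℝ) ^ 2 * ρ) := by ring
      _ ≤ C1 ^ 2 * (D * (n : ℝ) ^ (-1 : ℝ) * δ) := by gcongr
      _ = (C1 ^ 2 * D * (n : ℝ) ^ (-1 : ℝ)) * δ := by ring
      _ ≤ 1 / 2 * δ := by gcongr
      _ = δ / 2 := by ring
  have hsm2 : (n : ℝ) ^ 2 * ((1 : ℝ) ^ 2 * ρ) ≤ δ / 2 := by
    refine le_trans ?_ hsm1
    gcongr
  set L : ℝ := ∑ j, ‖z j‖ with hL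
  have hL0 : 0 ≤ L := Finset.sum_nonneg (fun _ _ => norm_nonneg _)
  have hsq : 0 ≤ sqn g := Finset.sum_nonneg (fun i _ => sq_nonneg (g i))
  -- from a bound of `B ^ n` to the claim
  set C : ℝ := 2 * Real.exp C1 + C1 with hC
  have hCC1 : C1 ≤ C := by
    have := Real.exp_pos C1
    rw [hC]; linarith
  have fin : ∀ B : ℝ, 0 ≤ B ^ n → B ^ n ≤ Real.exp C1 * Real.exp (C1 * L ^ 2 + sqn g / 4) →
      (‖Inn n d ε K g ι z‖ ≤ 2 * B ^ n ∧ ‖Phis n d ε K g z‖ ^ Fintype.card ι ≤ B ^ n ∧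
        ‖Inn n d ε K g ι z - Phis n d ε K g z ^ Fintype.card ι‖ ≤ B ^ n * δ) →
      ‖Inn n d ε K g ι z‖ ≤ C * Real.exp (C * L ^ 2 + sqn g / 4) ∧
      ‖Phis n d ε K g z‖ ^ Fintype.card ι ≤ C * Real.exp (C * L ^ 2 + sqn g / 4) ∧
      ‖Inn n d ε K g ι z - Phis n d ε K g z ^ Fintype.card ι‖
        ≤ C * δ * Real.exp (C * L ^ 2 + sqn g / 4) := by
    intro B hB0 hB ⟨q1, q2, q3⟩
    have r1 : Real.exp (C1 * L ^ 2 + sqn g / 4) ≤ Real.exp (C * L ^ 2 + sqn g / 4) := by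
      apply Real.exp_le_exp.mpr
      have : C1 * L ^ 2 ≤ C * L ^ 2 := by gcongr
      linarith
    have r2 : 2 * B ^ n ≤ C * Real.exp (C * L ^ 2 + sqn g / 4) := by
      calc 2 * B ^ n ≤ 2 * (Real.exp C1 * Real.exp (C1 * L ^ 2 + sqn g / 4)) := by linarith
        _ = (2 * Real.exp C1) * Real.exp (C1 * L ^ 2 + sqn g / 4) := by ring
        _ ≤ C * Real.exp (C * L ^ 2 + sqn g / 4) := by
            have : 2 * Real.exp C1 ≤ C := by rw [hC]; linarith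
            gcongr
    refine ⟨q1.trans r2, q2.trans (by linarith), q3.trans ?_⟩
    have r3 : B ^ n ≤ C * Real.exp (C * L ^ 2 + sqn g / 4) := by linarith
    calc B ^ n * δ ≤ (C * Real.exp (C * L ^ 2 + sqn g / 4)) * δ := by gcongr
      _ = _ := by ring
  by_cases hg : ∀ i, |g i| ≤ η1 * Real.sqrt n
  · -- small fields
    have hzs1 : L ≤ η1 * Real.sqrt n := hzs.trans (by gcongr)
    obtain ⟨b1, b2⟩ := h1 n d hn1 hdom g hg τ z hz hzs1
    set B : ℝ := Real.exp ((C1 * (1 + L ^ 2) + sqn g / 4) / n) with hBdef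
    have hB1 : 1 ≤ B := by
      rw [hBdef]
      apply Real.one_le_exp
      positivity
    have hsum : ∑ k ∈ inn n d ε, ‖kap n d k * fg K g (uu n d k) * sf z (uu n d k)‖ ≤ C1 * B :=
      b2.trans (by nlinarith)
    refine fin B (by positivity) ?_ (core n d ε K g ι z C1 B ρ δ hC1 hB1 hρ0 b1 hsum hχ hcard hδ1 hsm1)
    rw [hBdef, ← Real.exp_nat_mul, ← Real.exp_add]
    apply Real.exp_le_exp.mpr
    have : (n : ℝ) * ((C1 * (1 + L ^ 2) + sqn g / 4) / n) = C1 * (1 + L ^ 2) + sqn g / 4 := by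
      field_simp
    rw [this]
    nlinarith
  · -- large fields
    push Not at hg
    obtain ⟨i0, hi0⟩ := hg
    have hsqn : η1 ^ 2 * n ≤ sqn g := by
      have e1 : (η1 * Real.sqrt n) ^ 2 ≤ (g i0) ^ 2 := by
        rw [← sq_abs (g i0)]
        gcongr
      have e2 : (g i0) ^ 2 ≤ sqn g :=
        Finset.single_le_sum (f := fun i => g i ^ 2) (fun i _ => sq_nonneg (g i))
          (Finset.mem_univ i0)
      rw [mul_pow, Real.sq_sqrt hnpos.le] at e1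
      linarith
    have b2 := h2 n d hn2 hdom g η hη0.le hη1n τ z hzs
    set B : ℝ := Real.exp (C2 * ((n : ℝ) ^ (-(σ / 4)) + η)
            + 2 * (∑ i, |g i|) * (n : ℝ) ^ (-(1 / 2) - σ / 4)) with hBdef
    have hB1 : 1 ≤ B := by
      rw [hBdef]
      apply Real.one_le_exp
      have : 0 ≤ ∑ i, |g i| := Finset.sum_nonneg (fun _ _ => abs_nonneg _)
      positivity
    have b1 : ‖Phis n d ε K g z‖ ≤ B := (norm_sum_le _ _).trans b2
    refine fin B (by positivity) ?_ (core n d ε K g ι z 1 B ρ δ le_rfl hB1 hρ0 b1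
      (by rw [one_mul]; exact b2) hχ hcard hδ1 hsm2)
    rw [hBdef, ← Real.exp_nat_mul, ← Real.exp_add]
    apply Real.exp_le_exp.mpr
    -- the sum over the fields
    have f1 : ∀ i : Fin K, 2 * |g i| * ((n : ℝ) * (n : ℝ) ^ (-(1 / 2) - σ / 4))
        ≤ g i ^ 2 / 16 + 16 * ((n : ℝ) * (n : ℝ) ^ (-(σ / 2))) := by
      intro i
      have e1 : ((n : ℝ) * (n : ℝ) ^ (-(1 / 2) - σ / 4)) ^ 2 = (n : ℝ) * (n : ℝ) ^ (-(σ / 2)) := by
        have a1 : (n : ℝ) * (n : ℝ) ^ (-(1 / 2) - σ / 4) = (n : ℝ) ^ (1 + (-(1 / 2) - σ / 4)) := by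
          rw [Real.rpow_add hnpos, Real.rpow_one]
        have a2 : (n : ℝ) * (n : ℝ) ^ (-(σ / 2)) = (n : ℝ) ^ (1 + -(σ / 2)) := by
          rw [Real.rpow_add hnpos, Real.rpow_one]
        rw [a1, a2, ← Real.rpow_natCast, ← Real.rpow_mul hnpos.le]
        congr 1
        push_cast
        ring
      rw [← sq_abs (g i), ← e1]
      nlinarith [sq_nonneg (|g i| - 16 * ((n : ℝ) * (n : ℝ) ^ (-(1 / 2) - σ / 4)))]
    have f2 : 2 * (∑ i, |g i|) * ((n : ℝ) * (n : ℝ) ^ (-(1 / 2) - σ / 4))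
        ≤ sqn g / 16 + 16 * K * ((n : ℝ) * (n : ℝ) ^ (-(σ / 2))) := by
      have := Finset.sum_le_sum (fun i (_ : i ∈ (Finset.univ : Finset (Fin K))) => f1 i)
      rw [Finset.sum_add_distrib, ← Finset.sum_div, Finset.sum_const, Finset.card_univ,
        Fintype.card_fin, nsmul_eq_mul, ← Finset.sum_mul, ← Finset.mul_sum] at this
      calc _ ≤ _ := this
        _ = _ := by rw [sqn]; ring
    have f3 : (n : ℝ) * (C2 * (n : ℝ) ^ (-(σ / 4)) + 16 * K * (n : ℝ) ^ (-(σ / 2)))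
        ≤ n * (η1 ^ 2 / 32) := by gcongr
    have f4 : (n : ℝ) * (C2 * η) ≤ n * (η1 ^ 2 / 32) := by gcongr
    have f5 : 0 ≤ C1 * L ^ 2 := by positivity
    have f6 : (n : ℝ) * (C2 * ((n : ℝ) ^ (-(σ / 4)) + η)
            + 2 * (∑ i, |g i|) * (n : ℝ) ^ (-(1 / 2) - σ / 4))
        = (n : ℝ) * (C2 * (n : ℝ) ^ (-(σ / 4)) + 16 * K * (n : ℝ) ^ (-(σ / 2)))
          + (n : ℝ) * (C2 * η) + (2 * (∑ i, |g i|) * ((n : ℝ) * (n : ℝ) ^ (-(1 / 2) - σ / 4))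
            - 16 * K * ((n : ℝ) * (n : ℝ) ^ (-(σ / 2)))) := by ring
    rw [f6]
    nlinarith

end Pool.Agent.RGD
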