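import Pool.Agent.RGD.Stmts

/-!
INS: the pair factors `1 + χ` with small `χ` are harmless (edge expansion).
-/

set_option autoImplicit false

namespace Pool.Agent.RGD

open Finset

namespace InsA

/-- split a sum over configurations into the sites of `V` and the other sites -/
theorem split_sum {α ι : Type} [Fintype ι] [DecidableEq ι] (T : Finset α) (V : Finset ι)
    (G : (ι → α) → ℂ) :
    ∑ b ∈ Fintype.piFinset (fun _ : ι => T), G b
      = ∑ c ∈ Fintype.piFinset (fun _ : {l // l ∈ V} => T),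
          ∑ c' ∈ Fintype.piFinset (fun _ : {l // ¬ l ∈ V} => T),
            G ((Equiv.piEquivPiSubtypeProd (fun l => l ∈ V) (fun _ => α)).symm (c, c')) := by
  classical
  rw [← Finset.sum_product']
  refine Finset.sum_equiv (Equiv.piEquivPiSubtypeProd (fun l => l ∈ V) (fun _ => α)) ?_ ?_
  · intro b
    simp only [Fintype.mem_piFinset, Finset.mem_product, Equiv.piEquivPiSubtypeProd_apply]
    constructor
    · intro h
      exact ⟨fun a => h _, fun a => h _⟩
    · rintro ⟨h1, h2⟩ l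
      by_cases hl : l ∈ V
      · exact h1 ⟨l, hl⟩
      · exact h2 ⟨l, hl⟩
  · intro b _
    rw [Prod.mk.eta, Equiv.symm_apply_apply]

/-- a function of the sites in `V` only -/
theorem local_bound {α ι : Type} [Fintype ι] [DecidableEq ι] (T : Finset α) (ω : α → ℂ)
    (A B R : ℝ) (hB : 0 ≤ B) (hR : 0 ≤ R) (h1 : ‖∑ a ∈ T, ω a‖ ≤ B)
    (h2 : ∑ a ∈ T, ‖ω a‖ ≤ A * B) (V : Finset ι) (F : (ι → α) → ℂ)
    (hF : ∀ b b' : ι → α, (∀ l ∈ V, b l = b' l) → F b = F b')
    (hFR : ∀ b ∈ Fintype.piFinset (fun _ : ι => T), ‖F b‖ ≤ R) :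
    ‖∑ b ∈ Fintype.piFinset (fun _ : ι => T), (∏ l, ω (b l)) * F b‖
      ≤ B ^ Fintype.card ι * A ^ V.card * R := by
  classical
  rw [split_sum T V]
  set E := (Equiv.piEquivPiSubtypeProd (fun l => l ∈ V) (fun _ => α)) with hE
  have hin : ∀ (c : {l // l ∈ V} → α) (c' : {l // ¬ l ∈ V} → α) (l : ι) (hl : l ∈ V),
      E.symm (c, c') l = c ⟨l, hl⟩ := by
    intro c c' l hl
    simp [hE, Equiv.piEquivPiSubtypeProd, hl]
  have hout : ∀ (c : {l // l ∈ V} → α) (c' : {l // ¬ l ∈ V} → α) (l : ι) (hl : ¬ l ∈ V),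
      E.symm (c, c') l = c' ⟨l, hl⟩ := by
    intro c c' l hl
    simp [hE, Equiv.piEquivPiSubtypeProd, hl]
  have hprod : ∀ (c : {l // l ∈ V} → α) (c' : {l // ¬ l ∈ V} → α),
      ∏ l, ω (E.symm (c, c') l) = (∏ l, ω (c l)) * ∏ l, ω (c' l) := by
    intro c c'
    rw [← Fintype.prod_subtype_mul_prod_subtype (fun l => l ∈ V) (fun l => ω (E.symm (c, c') l))]
    congr 1
    · exact Finset.prod_congr (by ext; simp) (fun l _ => by rw [hin c c' l.1 l.2])
    · exact Finset.prod_congr (by ext; simp) (fun l _ => by rw [hout c c' l.1 l.2])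
  have hmem : ∀ (c : {l // l ∈ V} → α) (c' : {l // ¬ l ∈ V} → α),
      c ∈ Fintype.piFinset (fun _ : {l // l ∈ V} => T) →
      c' ∈ Fintype.piFinset (fun _ : {l // ¬ l ∈ V} => T) →
      E.symm (c, c') ∈ Fintype.piFinset (fun _ : ι => T) := by
    intro c c' hc hc'
    rw [Fintype.mem_piFinset] at hc hc' ⊢
    intro l
    by_cases hl : l ∈ V
    · rw [hin c c' l hl]; exact hc _
    · rw [hout c c' l hl]; exact hc' _
  have hcard : Fintype.card {l // l ∈ V} = V.card := Fintype.card_coe V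
  have hcard' : Fintype.card {l // ¬ l ∈ V} + V.card = Fintype.card ι := by
    rw [Fintype.card_subtype_compl, hcard]
    exact Nat.sub_add_cancel (Finset.card_le_univ V)
  have hinner : ∀ c ∈ Fintype.piFinset (fun _ : {l // l ∈ V} => T),
      ‖∑ c' ∈ Fintype.piFinset (fun _ : {l // ¬ l ∈ V} => T),
        (∏ l, ω (E.symm (c, c') l)) * F (E.symm (c, c'))‖
      ≤ (∏ l, ‖ω (c l)‖) * (B ^ Fintype.card {l // ¬ l ∈ V} * R) := by
    intro c hc
    rcases (Fintype.piFinset (fun _ : {l // ¬ l ∈ V} => T)).eq_empty_or_nonempty with h0 | ⟨c0, hc0⟩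
    · rw [h0, Finset.sum_empty, norm_zero]
      positivity
    · have hcongr : ∑ c' ∈ Fintype.piFinset (fun _ : {l // ¬ l ∈ V} => T),
          (∏ l, ω (E.symm (c, c') l)) * F (E.symm (c, c'))
          = ((∏ l, ω (c l)) * F (E.symm (c, c0)))
            * ∑ c' ∈ Fintype.piFinset (fun _ : {l // ¬ l ∈ V} => T), ∏ l, ω (c' l) := by
        rw [Finset.mul_sum]
        refine Finset.sum_congr rfl (fun c' _ => ?_)
        rw [hprod c c', hF (E.symm (c, c')) (E.symm (c, c0))
          (fun l hl => by rw [hin c c' l hl, hin c c0 l hl])]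
        ring
      rw [hcongr, ← Finset.prod_univ_sum (fun _ : {l // ¬ l ∈ V} => T) (fun _ a => ω a),
        Finset.prod_const, Finset.card_univ, norm_mul, norm_mul, norm_pow, norm_prod]
      have e1 : ‖F (E.symm (c, c0))‖ ≤ R := hFR _ (hmem c c0 hc hc0)
      have e2 : ‖∑ a ∈ T, ω a‖ ^ Fintype.card {l // ¬ l ∈ V} ≤ B ^ Fintype.card {l // ¬ l ∈ V} :=
        pow_le_pow_left₀ (norm_nonneg _) h1 _
      have e3 : 0 ≤ ∏ l, ‖ω (c l)‖ := Finset.prod_nonneg (fun _ _ => norm_nonneg _)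
      calc (∏ l, ‖ω (c l)‖) * ‖F (E.symm (c, c0))‖ * ‖∑ a ∈ T, ω a‖ ^ Fintype.card {l // ¬ l ∈ V}
          ≤ (∏ l, ‖ω (c l)‖) * R * B ^ Fintype.card {l // ¬ l ∈ V} := by gcongr
        _ = _ := by ring
  calc ‖∑ c ∈ Fintype.piFinset (fun _ : {l // l ∈ V} => T),
        ∑ c' ∈ Fintype.piFinset (fun _ : {l // ¬ l ∈ V} => T),
          (∏ l, ω (E.symm (c, c') l)) * F (E.symm (c, c'))‖
      ≤ ∑ c ∈ Fintype.piFinset (fun _ : {l // l ∈ V} => T),
          (∏ l, ‖ω (c l)‖) * (B ^ Fintype.card {l // ¬ l ∈ V} * R) :=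
        (norm_sum_le _ _).trans (Finset.sum_le_sum hinner)
    _ = (∑ a ∈ T, ‖ω a‖) ^ V.card * (B ^ Fintype.card {l // ¬ l ∈ V} * R) := by
        rw [← Finset.sum_mul, ← Finset.prod_univ_sum (fun _ : {l // l ∈ V} => T)
          (fun _ a => ‖ω a‖), Finset.prod_const, Finset.card_univ, hcard]
    _ ≤ (A * B) ^ V.card * (B ^ Fintype.card {l // ¬ l ∈ V} * R) := by
        gcongr
    _ = B ^ Fintype.card ι * A ^ V.card * R := by
        rw [← hcard', pow_add, mul_pow]
        ring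

end InsA

open InsA in
theorem ins_proof : Stmt_Ins := by
  intro α T ω χ ι _ _ A B ρ hA hB hρ h1 h2 hχ
  classical
  have hexp : ∀ b : ι → α, (∏ p ∈ prs ι, (1 + χ (b p.1) (b p.2)) - 1)
      = ∑ E ∈ (prs ι).powerset.erase ∅, ∏ p ∈ E, χ (b p.1) (b p.2) := by
    intro b
    rw [Finset.prod_one_add, ← Finset.sum_erase_add _ _ (Finset.empty_mem_powerset (prs ι)),
      Finset.prod_empty, add_sub_cancel_right]
  have hswap : ∑ b ∈ Fintype.piFinset (fun _ : ι => T),
        (∏ l, ω (b l)) * (∏ p ∈ prs ι, (1 + χ (b p.1) (b p.2)) - 1)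
      = ∑ E ∈ (prs ι).powerset.erase ∅, ∑ b ∈ Fintype.piFinset (fun _ : ι => T),
          (∏ l, ω (b l)) * ∏ p ∈ E, χ (b p.1) (b p.2) := by
    rw [Finset.sum_comm]
    refine Finset.sum_congr rfl (fun b _ => ?_)
    rw [hexp b, Finset.mul_sum]
  rw [hswap]
  have hA2 : 0 ≤ A := by linarith
  have hE : ∀ E ∈ (prs ι).powerset.erase ∅, ‖∑ b ∈ Fintype.piFinset (fun _ : ι => T),
          (∏ l, ω (b l)) * ∏ p ∈ E, χ (b p.1) (b p.2)‖
      ≤ B ^ Fintype.card ι * (A ^ 2 * ρ) ^ E.card := by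
    intro E _
    set V : Finset ι := E.image Prod.fst ∪ E.image Prod.snd with hV
    have hVc : V.card ≤ 2 * E.card := by
      calc V.card ≤ (E.image Prod.fst).card + (E.image Prod.snd).card :=
            Finset.card_union_le _ _
        _ ≤ E.card + E.card := add_le_add Finset.card_image_le Finset.card_image_le
        _ = 2 * E.card := by ring
    have hb := local_bound T ω A B (ρ ^ E.card) hB (by positivity) h1 h2 V
      (fun b => ∏ p ∈ E, χ (b p.1) (b p.2))
      (by
        intro b b' hbb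
        refine Finset.prod_congr rfl (fun p hp => ?_)
        have m1 : p.1 ∈ V := Finset.mem_union_left _ (Finset.mem_image_of_mem _ hp)
        have m2 : p.2 ∈ V := Finset.mem_union_right _ (Finset.mem_image_of_mem _ hp)
        rw [hbb _ m1, hbb _ m2])
      (by
        intro b hb
        rw [Fintype.mem_piFinset] at hb
        rw [norm_prod, ← Finset.prod_const]
        exact Finset.prod_le_prod (fun _ _ => norm_nonneg _)
          (fun p _ => hχ _ (hb _) _ (hb _)))
    refine hb.trans ?_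
    have hAV : A ^ V.card ≤ A ^ (2 * E.card) := pow_le_pow_right₀ hA hVc
    calc B ^ Fintype.card ι * A ^ V.card * ρ ^ E.card
        ≤ B ^ Fintype.card ι * A ^ (2 * E.card) * ρ ^ E.card := by gcongr
      _ = B ^ Fintype.card ι * (A ^ 2 * ρ) ^ E.card := by
          rw [mul_pow, ← pow_mul]; ring
  calc ‖∑ E ∈ (prs ι).powerset.erase ∅, ∑ b ∈ Fintype.piFinset (fun _ : ι => T),
          (∏ l, ω (b l)) * ∏ p ∈ E, χ (b p.1) (b p.2)‖
      ≤ ∑ E ∈ (prs ι).powerset.erase ∅, B ^ Fintype.card ι * (A ^ 2 * ρ) ^ E.card :=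
        (norm_sum_le _ _).trans (Finset.sum_le_sum hE)
    _ = B ^ Fintype.card ι * ((1 + A ^ 2 * ρ) ^ (prs ι).card - 1) := by
        rw [← Finset.mul_sum]
        congr 1
        have h := Finset.prod_one_add (prs ι) (f := fun _ => A ^ 2 * ρ)
        rw [Finset.prod_const, ← Finset.sum_erase_add _ _ (Finset.empty_mem_powerset (prs ι)),
          Finset.prod_empty] at h
        rw [h, add_sub_cancel_right]
        exact Finset.sum_congr rfl (fun E _ => by rw [Finset.prod_const])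
    _ ≤ B ^ Fintype.card ι * ((1 + A ^ 2 * ρ) ^ (Fintype.card ι ^ 2) - 1) := by
        have hc : (prs ι).card ≤ Fintype.card ι ^ 2 := by
          refine (Finset.card_le_univ _).trans ?_
          rw [Fintype.card_prod, sq]
        have : (1 + A ^ 2 * ρ) ^ (prs ι).card ≤ (1 + A ^ 2 * ρ) ^ (Fintype.card ι ^ 2) := by
          refine pow_le_pow_right₀ ?_ hc
          have : 0 ≤ A ^ 2 * ρ := by positivity
          linarith
        gcongr

end Pool.Agent.RGD
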