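import Pool.Agent.RGD.Stmts

/-!
Module MEXP: expansion of the moments.
-/

set_option autoImplicit false

namespace Pool.Agent.RGD

open Finset Pool.Agent.RGA MeasureTheory

namespace MexpX

/-- coefficients of `geo` -/
noncomputable def gq (c : ℚ) (w : ℕ) : Rg := PowerSeries.coeff w (geo c)

/-- coefficients of `geo * t` -/
noncomputable def gtq (c : ℚ) (w : ℕ) : Rg := gq c w * MvPolynomial.X 0

/-- coefficients of the moments -/
noncomputable def am (k w : ℕ) : Rg := PowerSeries.coeff w (mfm k)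

theorem gq_eq (c : ℚ) (w : ℕ) : gq c w = if w = 0 then 0 else MvPolynomial.C (c ^ (w - 1)) := by
  rw [gq, geo, PowerSeries.coeff_mk]

theorem coeff_mul_eq (P Q : PowerSeries Rg) (w : ℕ) :
    PowerSeries.coeff w (P * Q) =
      cnv (fun j => PowerSeries.coeff j P) (fun j => PowerSeries.coeff j Q) w := by
  rw [PowerSeries.coeff_mul, cnv]
  exact Finset.Nat.sum_antidiagonal_eq_sum_range_succ
    (fun i j => PowerSeries.coeff i P * PowerSeries.coeff j Q) w

theorem am_succ (k w : ℕ) :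
    am (k + 2) w = MvPolynomial.C (-((k : ℚ) + 1)) *
      (cnv (gq (k + 2)) (am k) w + cnv (gtq (k + 2)) (am (k + 1)) w) := by
  have h1 : mfm (k + 2) = PowerSeries.C (MvPolynomial.C (-((k : ℚ) + 1))) *
      (geo (k + 2) * mfm k + (geo (k + 2) * PowerSeries.C (MvPolynomial.X 0)) * mfm (k + 1)) := by
    rw [mfm]
    have h2 : (PowerSeries.C (MvPolynomial.C (-((k : ℚ) + 1)))) =
        (-((k : PowerSeries Rg) + 1)) := by
      rw [map_neg, map_neg, map_add, map_add, map_natCast, map_natCast, map_one, map_one]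
    rw [h2]
    ring
  rw [am, h1, PowerSeries.coeff_C_mul, map_add, coeff_mul_eq, coeff_mul_eq]
  congr 2
  have h3 : (fun j => PowerSeries.coeff j (geo (k + 2) * PowerSeries.C (MvPolynomial.X 0))) =
      gtq (k + 2) := by
    funext j
    rw [PowerSeries.coeff_mul_C]
    rfl
  rw [h3]
  rfl

theorem degOK_gq (c : ℚ) : DegOK (gq c) := by
  intro w m hm
  rw [gq_eq] at hm
  split_ifs at hm with h
  · simp at hm
  · rw [MvPolynomial.mem_support_iff, MvPolynomial.coeff_C] at hm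
    split_ifs at hm with h0
    · subst h0
      refine ⟨by simp, ?_⟩
      simp [gdeg]
    · exact absurd rfl hm

theorem degOK_gtq (c : ℚ) : DegOK (gtq c) := by
  intro w m hm
  rw [gtq, gq_eq] at hm
  split_ifs at hm with h
  · simp at hm
  · rw [MvPolynomial.mem_support_iff, MvPolynomial.coeff_C_mul, MvPolynomial.coeff_X'] at hm
    split_ifs at hm with h0
    · subst h0
      refine ⟨?_, ?_⟩
      · rw [Finsupp.single_eq_same]
        omega
      · have h2 : (Finsupp.single 0 1 : ℕ →₀ ℕ).support.erase 0 = ∅ := by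
          rw [Finsupp.support_single_ne_zero _ one_ne_zero]
          simp
        rw [gdeg, h2, Finset.sum_empty]
        exact Nat.zero_le _
    · rw [mul_zero] at hm
      exact absurd rfl hm

theorem degOK_am (hEvb : Stmt_Evb) : ∀ k, DegOK (am k) ∧ DegOK (am (k + 1)) := by
  intro k
  induction k with
  | zero =>
    constructor
    · intro w m hm
      rw [am, mfm, PowerSeries.coeff_one] at hm
      split_ifs at hm with h
      · rw [MvPolynomial.mem_support_iff, MvPolynomial.coeff_one] at hm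
        split_ifs at hm with h0
        · subst h0
          refine ⟨by simp, ?_⟩
          simp [gdeg]
        · exact absurd rfl hm
      · simp at hm
    · intro w m hm
      rw [am, mfm, map_zero] at hm
      simp at hm
  | succ k ih =>
    refine ⟨ih.2, ?_⟩
    have h1 := hEvb.1 _ _ (degOK_gq (k + 2)) ih.1
    have h2 := hEvb.1 _ _ (degOK_gtq (k + 2)) ih.2
    have h3 := hEvb.2.2.1 (-((k : ℚ) + 1)) _ (hEvb.2.1 _ _ h1 h2)
    have h4 : am (k + 1 + 1) = fun w => (-((k : ℚ) + 1)) •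
        (cnv (gq (k + 2)) (am k) w + cnv (gtq (k + 2)) (am (k + 1)) w) := by
      funext w
      rw [am_succ, MvPolynomial.smul_eq_C_mul]
    rw [h4]
    exact h3

theorem am_zero : ∀ k, (∀ w, 2 * w < k → am k w = 0) ∧ (∀ w, 2 * w < k + 1 → am (k + 1) w = 0) := by
  intro k
  induction k with
  | zero =>
    constructor
    · intro w hw
      omega
    · intro w _
      rw [am, mfm, map_zero]
  | succ k ih =>
    refine ⟨ih.2, fun w hw => ?_⟩
    rw [am_succ]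
    have h1 : cnv (gq (k + 2)) (am k) w = 0 := by
      refine Finset.sum_eq_zero fun j hj => ?_
      rcases Nat.eq_zero_or_pos j with rfl | hj0
      · rw [gq_eq, if_pos rfl, zero_mul]
      · rw [mem_range] at hj
        rw [ih.1 (w - j) (by omega), mul_zero]
    have h2 : cnv (gtq (k + 2)) (am (k + 1)) w = 0 := by
      refine Finset.sum_eq_zero fun j hj => ?_
      rcases Nat.eq_zero_or_pos j with rfl | hj0
      · rw [gtq, gq_eq, if_pos rfl, zero_mul, zero_mul]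
      · rw [mem_range] at hj
        rw [ih.2 (w - j) (by omega), mul_zero]
    rw [h1, h2, add_zero, mul_zero]

section approx

variable (σ : ℝ) (M W : ℕ) (ε2 : ℝ)

/-- `x` is approximated by the series `A` -/
def Ap (A : ℕ → Rg) (x : ℕ → ℕ → ℂ) : Prop :=
  ∃ (C : ℝ) (n₀ : ℕ), 0 ≤ C ∧ ∀ n d : ℕ, n₀ ≤ n → Dom σ n d → ∀ G : ℕ → ℂ,
    (∀ i, ‖G i‖ ≤ (n : ℝ) ^ ε2) →
    ‖x n d - ev A (W + 1) n (tt n d) G‖ ≤ C * (n : ℝ) ^ (-(M + 6 : ℝ))

variable {σ M W ε2}

theorem Ap.add {A B : ℕ → Rg} {x y : ℕ → ℕ → ℂ} (hA : Ap σ M W ε2 A x) (hB : Ap σ M W ε2 B y) :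
    Ap σ M W ε2 (fun w => A w + B w) (fun n d => x n d + y n d) := by
  obtain ⟨C, n₀, hC, h⟩ := hA
  obtain ⟨C', n₁, hC', h'⟩ := hB
  refine ⟨C + C', max n₀ n₁, by positivity, fun n d hn hD G hG => ?_⟩
  have e1 := h n d (le_of_max_le_left hn) hD G hG
  have e2 := h' n d (le_of_max_le_right hn) hD G hG
  have e3 : ev (fun w => A w + B w) (W + 1) n (tt n d) G =
      ev A (W + 1) n (tt n d) G + ev B (W + 1) n (tt n d) G := by
    rw [ev, ev, ev, ← Finset.sum_add_distrib]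
    refine Finset.sum_congr rfl fun w _ => ?_
    rw [map_add, add_div]
  rw [e3, add_mul]
  have e4 : x n d + y n d - (ev A (W + 1) n (tt n d) G + ev B (W + 1) n (tt n d) G) =
      (x n d - ev A (W + 1) n (tt n d) G) + (y n d - ev B (W + 1) n (tt n d) G) := by ring
  rw [e4]
  exact (norm_add_le _ _).trans (add_le_add e1 e2)

theorem Ap.const_mul (q : ℚ) {A : ℕ → Rg} {x : ℕ → ℕ → ℂ} (hA : Ap σ M W ε2 A x) :
    Ap σ M W ε2 (fun w => MvPolynomial.C q * A w) (fun n d => (q : ℂ) * x n d) := by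
  obtain ⟨C, n₀, hC, h⟩ := hA
  refine ⟨‖(q : ℂ)‖ * C, n₀, by positivity, fun n d hn hD G hG => ?_⟩
  have e1 := h n d hn hD G hG
  have e3 : ev (fun w => MvPolynomial.C q * A w) (W + 1) n (tt n d) G =
      (q : ℂ) * ev A (W + 1) n (tt n d) G := by
    rw [ev, ev, Finset.mul_sum]
    refine Finset.sum_congr rfl fun w _ => ?_
    rw [map_mul, MvPolynomial.aeval_C, mul_div_assoc]
    rfl
  rw [e3, ← mul_sub, norm_mul, mul_assoc]
  exact mul_le_mul_of_nonneg_left e1 (norm_nonneg _)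

theorem ev_bound (hEvb : Stmt_Evb) {K : ℕ} {ε : ℝ} (hP : Par σ M W K ε ε2) {A : ℕ → Rg}
    (hA : DegOK A) : ∃ C : ℝ, 0 ≤ C ∧ ∀ n d : ℕ, 1 ≤ n → Dom σ n d → ∀ G : ℕ → ℂ,
      (∀ i, ‖G i‖ ≤ (n : ℝ) ^ ε2) → ‖ev A (W + 1) n (tt n d) G‖ ≤ C := by
  have h1 := fun w => hEvb.2.2.2 σ M W K ε ε2 hP A hA w
  choose C hC using h1
  refine ⟨∑ w ∈ range (W + 1 + 1), |C w|, Finset.sum_nonneg fun _ _ => abs_nonneg _,
    fun n d hn hD G hG => ?_⟩
  rw [ev]
  refine (norm_sum_le _ _).trans (Finset.sum_le_sum fun w _ => ?_)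
  refine (hC w n d hn hD G hG).trans ?_
  have h2 : (n : ℝ) ^ (-(σ * w / 2)) ≤ 1 := by
    apply Real.rpow_le_one_of_one_le_of_nonpos
    · exact_mod_cast hn
    · have := hP.s0
      have : 0 ≤ σ * w / 2 := by positivity
      linarith
  have h3 : 0 ≤ (n : ℝ) ^ (-(σ * w / 2)) := by positivity
  calc C w * (n : ℝ) ^ (-(σ * w / 2)) ≤ |C w| * (n : ℝ) ^ (-(σ * w / 2)) :=
        mul_le_mul_of_nonneg_right (le_abs_self _) h3
    _ ≤ |C w| * 1 := mul_le_mul_of_nonneg_left h2 (abs_nonneg _)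
    _ = |C w| := mul_one _

theorem Ap.mul (hEvb : Stmt_Evb) (hEvm : Stmt_Evm) {K : ℕ} {ε : ℝ} (hP : Par σ M W K ε ε2)
    {A B : ℕ → Rg} (hdA : DegOK A) (hdB : DegOK B)
    {x y : ℕ → ℕ → ℂ} (hA : Ap σ M W ε2 A x) (hB : Ap σ M W ε2 B y) :
    Ap σ M W ε2 (cnv A B) (fun n d => x n d * y n d) := by
  obtain ⟨C, n₀, hC, h⟩ := hA
  obtain ⟨C', n₁, hC', h'⟩ := hB
  obtain ⟨D, hD0, hD⟩ := ev_bound hEvb hP hdA
  obtain ⟨D', hD0', hD'⟩ := ev_bound hEvb hP hdB
  obtain ⟨E, hE⟩ := hEvm σ M W K ε ε2 hP A B hdA hdB (W + 1) (Nat.le_succ W)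
  refine ⟨C * (D' + C') + D * C' + |E|, max 1 (max n₀ n₁), by positivity,
    fun n d hn hDom G hG => ?_⟩
  have hn1 : 1 ≤ n := le_of_max_le_left hn
  have hn2 : n₀ ≤ n := le_of_max_le_left (le_of_max_le_right hn)
  have hn3 : n₁ ≤ n := le_of_max_le_right (le_of_max_le_right hn)
  have e1 := h n d hn2 hDom G hG
  have e2 := h' n d hn3 hDom G hG
  have e3 := hD n d hn1 hDom G hG
  have e4 := hD' n d hn1 hDom G hG
  have e5 := hE n d hn1 hDom G hG
  set a := ev A (W + 1) n (tt n d) G with ha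
  set b := ev B (W + 1) n (tt n d) G with hb
  set P := (n : ℝ) ^ (-(M + 6 : ℝ)) with hPdef
  have hP0 : 0 ≤ P := by positivity
  have hP1 : P ≤ 1 := by
    apply Real.rpow_le_one_of_one_le_of_nonpos
    · exact_mod_cast hn1
    · have : (0 : ℝ) ≤ M := Nat.cast_nonneg M
      linarith
  have e6 : ‖y n d‖ ≤ D' + C' := by
    calc ‖y n d‖ = ‖b + (y n d - b)‖ := by rw [add_sub_cancel]
      _ ≤ ‖b‖ + ‖y n d - b‖ := norm_add_le _ _
      _ ≤ D' + C' * P := add_le_add e4 e2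
      _ ≤ D' + C' := by
          have := mul_le_mul_of_nonneg_left hP1 hC'
          linarith
  have e7 : x n d * y n d - ev (cnv A B) (W + 1) n (tt n d) G =
      (x n d - a) * y n d + a * (y n d - b) + (a * b - ev (cnv A B) (W + 1) n (tt n d) G) := by
    ring
  simp only
  rw [e7]
  calc _ ≤ ‖(x n d - a) * y n d + a * (y n d - b)‖ +
          ‖a * b - ev (cnv A B) (W + 1) n (tt n d) G‖ := norm_add_le _ _
    _ ≤ ‖(x n d - a) * y n d‖ + ‖a * (y n d - b)‖ +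
          ‖a * b - ev (cnv A B) (W + 1) n (tt n d) G‖ := by
        gcongr
        exact norm_add_le _ _
    _ ≤ C * P * (D' + C') + D * (C' * P) + |E| * P := by
        rw [norm_mul, norm_mul]
        have f1 : ‖x n d - a‖ * ‖y n d‖ ≤ C * P * (D' + C') :=
          mul_le_mul e1 e6 (norm_nonneg _) (by positivity)
        have f2 : ‖a‖ * ‖y n d - b‖ ≤ D * (C' * P) :=
          mul_le_mul e3 e2 (norm_nonneg _) hD0
        have f3 : ‖a * b - ev (cnv A B) (W + 1) n (tt n d) G‖ ≤ |E| * P :=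
          e5.trans (mul_le_mul_of_nonneg_right (le_abs_self _) hP0)
        linarith
    _ = (C * (D' + C') + D * C' + |E|) * P := by ring

/-- the truncated geometric series -/
theorem geo_err (c : ℝ) (hc : 0 ≤ c) (V n : ℕ) (hn : 2 * c ≤ n) (hn1 : 1 ≤ n) :
    |1 / ((n : ℝ) - c) - ∑ w ∈ range (V + 1), (if w = 0 then 0 else c ^ (w - 1)) / (n : ℝ) ^ w|
      ≤ 2 * c ^ V * ((n : ℝ) ^ (V + 1))⁻¹ := by
  have hn0 : (0 : ℝ) < n := by exact_mod_cast hn1
  have hnc : (n : ℝ) / 2 ≤ n - c := by linarith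
  have hnc0 : 0 < (n : ℝ) - c := by linarith
  have key : ∀ V : ℕ, 1 / ((n : ℝ) - c) -
      ∑ w ∈ range (V + 1), (if w = 0 then 0 else c ^ (w - 1)) / (n : ℝ) ^ w =
      c ^ V / (n : ℝ) ^ V * (1 / ((n : ℝ) - c)) := by
    intro V
    induction V with
    | zero => simp
    | succ V ih =>
      rw [Finset.sum_range_succ, ← sub_sub, ih, if_neg (Nat.succ_ne_zero V), Nat.succ_sub_one]
      rw [pow_succ c, pow_succ (n : ℝ)]
      field_simp
      ring
  rw [key, abs_of_nonneg (by positivity)]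
  have h1 : 1 / ((n : ℝ) - c) ≤ 2 / n := by
    rw [div_le_div_iff₀ hnc0 hn0]
    linarith
  calc c ^ V / (n : ℝ) ^ V * (1 / ((n : ℝ) - c)) ≤ c ^ V / (n : ℝ) ^ V * (2 / n) :=
        mul_le_mul_of_nonneg_left h1 (by positivity)
    _ = 2 * c ^ V * ((n : ℝ) ^ (V + 1))⁻¹ := by
        rw [pow_succ]
        field_simp

theorem pow_le (hM : (M : ℝ) + 6 ≤ W) (n : ℕ) (hn : 1 ≤ n) :
    ((n : ℝ) ^ W)⁻¹ ≤ (n : ℝ) ^ (-(M + 6 : ℝ)) := by
  have hn1 : (1 : ℝ) ≤ n := by exact_mod_cast hn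
  rw [← Real.rpow_natCast, ← Real.rpow_neg (by linarith)]
  exact Real.rpow_le_rpow_of_exponent_le hn1 (by linarith)

theorem tt_le (hUid : Stmt_Uid) (hσ : 0 < σ) {n d : ℕ} (hn : 1 ≤ n) (hD : Dom σ n d) :
    0 ≤ tt n d ∧ tt n d ≤ n := by
  obtain ⟨⟨_, _, hL, _, ht, ht2, _, _, _⟩, -⟩ := hUid n d hD.1 hD.2.1
  refine ⟨ht, ?_⟩
  have hn1 : (1 : ℝ) ≤ n := by exact_mod_cast hn
  have hy : 1 ≤ yy n d := (Real.one_le_rpow hn1 hσ.le).trans hD.2.2.2
  rw [yy] at hy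
  have h1 : 1 / Lam n d ≤ n := by
    rw [div_le_iff₀ hL]
    linarith
  have h2 : tt n d ^ 2 ≤ (n : ℝ) ^ 2 := by
    nlinarith
  exact (sq_le_sq₀ ht (by linarith)).1 h2

theorem ap_gq (hM : (M : ℝ) + 6 ≤ W) (c : ℕ) :
    Ap σ M W ε2 (gq c) (fun n _ => ((1 / ((n : ℝ) - c) : ℝ) : ℂ)) := by
  refine ⟨2 * (c : ℝ) ^ (W + 1), max 1 (2 * c), by positivity, fun n d hn _ G _ => ?_⟩
  have hn1 : 1 ≤ n := le_of_max_le_left hn
  have hn2 : 2 * c ≤ n := le_of_max_le_right hn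
  have hn1' : (1 : ℝ) ≤ n := by exact_mod_cast hn1
  have h1 := geo_err c (Nat.cast_nonneg c) (W + 1) n (by exact_mod_cast hn2) hn1
  have h2 : ev (gq c) (W + 1) n (tt n d) G =
      ((∑ w ∈ range (W + 1 + 1), (if w = 0 then 0 else (c : ℝ) ^ (w - 1)) / (n : ℝ) ^ w : ℝ) : ℂ) :=
    by
    rw [ev, Complex.ofReal_sum]
    refine Finset.sum_congr rfl fun w _ => ?_
    rw [gq_eq]
    split_ifs with h
    · simp
    · rw [MvPolynomial.aeval_C]
      push_cast
      simp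
  rw [h2, ← Complex.ofReal_sub, Complex.norm_real, Real.norm_eq_abs]
  refine h1.trans ?_
  refine mul_le_mul_of_nonneg_left ?_ (by positivity)
  refine le_trans ?_ (pow_le hM n hn1)
  apply inv_anti₀ (by positivity)
  exact pow_le_pow_right₀ hn1' (by omega)

theorem ap_gtq (hUid : Stmt_Uid) (hσ : 0 < σ) (hM : (M : ℝ) + 6 ≤ W) (c : ℕ) :
    Ap σ M W ε2 (gtq c) (fun n d => ((tt n d / ((n : ℝ) - c) : ℝ) : ℂ)) := by
  refine ⟨2 * (c : ℝ) ^ (W + 1), max 1 (2 * c), by positivity, fun n d hn hD G _ => ?_⟩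
  have hn1 : 1 ≤ n := le_of_max_le_left hn
  have hn2 : 2 * c ≤ n := le_of_max_le_right hn
  have hn1' : (1 : ℝ) ≤ n := by exact_mod_cast hn1
  have h1 := geo_err c (Nat.cast_nonneg c) (W + 1) n (by exact_mod_cast hn2) hn1
  obtain ⟨ht0, ht⟩ := tt_le hUid hσ hn1 hD
  have h2 : ev (gtq c) (W + 1) n (tt n d) G =
      ((tt n d * ∑ w ∈ range (W + 1 + 1), (if w = 0 then 0 else (c : ℝ) ^ (w - 1)) /
        (n : ℝ) ^ w : ℝ) : ℂ) := by
    rw [ev, Complex.ofReal_mul, Complex.ofReal_sum, Finset.mul_sum]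
    refine Finset.sum_congr rfl fun w _ => ?_
    rw [gtq, gq_eq, map_mul, MvPolynomial.aeval_X]
    have h3 : vals (tt n d) G 0 = (tt n d : ℂ) := if_pos rfl
    rw [h3]
    split_ifs with h
    · simp
    · rw [MvPolynomial.aeval_C]
      push_cast
      ring
  have h4 : tt n d / ((n : ℝ) - c) = tt n d * (1 / ((n : ℝ) - c)) := by ring
  rw [h2, ← Complex.ofReal_sub, Complex.norm_real, Real.norm_eq_abs, h4, ← mul_sub, abs_mul,
    abs_of_nonneg ht0]
  calc tt n d * |_| ≤ n * (2 * (c : ℝ) ^ (W + 1) * ((n : ℝ) ^ (W + 1 + 1))⁻¹) :=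
        mul_le_mul ht h1 (abs_nonneg _) (by linarith)
    _ = 2 * (c : ℝ) ^ (W + 1) * ((n : ℝ) ^ (W + 1))⁻¹ := by
        rw [pow_succ (n : ℝ) (W + 1)]
        have : (n : ℝ) ≠ 0 := by positivity
        field_simp
    _ ≤ 2 * (c : ℝ) ^ (W + 1) * (n : ℝ) ^ (-(M + 6 : ℝ)) := by
        refine mul_le_mul_of_nonneg_left ?_ (by positivity)
        refine le_trans ?_ (pow_le hM n hn1)
        apply inv_anti₀ (by positivity)
        exact pow_le_pow_right₀ hn1' (by omega)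

theorem ap_am (hUid : Stmt_Uid) (hEvb : Stmt_Evb) (hEvm : Stmt_Evm) {K : ℕ} {ε : ℝ}
    (hP : Par σ M W K ε ε2) (hM : (M : ℝ) + 6 ≤ W) : ∀ k,
    Ap σ M W ε2 (am k) (fun n d => ((mm n (tt n d) k : ℝ) : ℂ)) ∧
    Ap σ M W ε2 (am (k + 1)) (fun n d => ((mm n (tt n d) (k + 1) : ℝ) : ℂ)) := by
  intro k
  induction k with
  | zero =>
    constructor
    · refine ⟨0, 0, le_refl _, fun n d _ _ G _ => ?_⟩
      have h1 : ev (am 0) (W + 1) n (tt n d) G = 1 := by
        rw [ev, Finset.sum_eq_single 0]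
        · rw [am, mfm, PowerSeries.coeff_one, if_pos rfl]
          simp
        · intro w _ hw
          rw [am, mfm, PowerSeries.coeff_one, if_neg hw]
          simp
        · intro h
          exact absurd (mem_range.2 (Nat.succ_pos _)) h
      have h2 : mm n (tt n d) 0 = 1 := rfl
      change ‖((mm n (tt n d) 0 : ℝ) : ℂ) - _‖ ≤ _
      rw [h1, h2]
      simp
    · refine ⟨0, 0, le_refl _, fun n d _ _ G _ => ?_⟩
      have h1 : ev (am (0 + 1)) (W + 1) n (tt n d) G = 0 := by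
        rw [ev]
        refine Finset.sum_eq_zero fun w _ => ?_
        rw [am, mfm, map_zero]
        simp
      have h2 : mm n (tt n d) (0 + 1) = 0 := rfl
      change ‖((mm n (tt n d) (0 + 1) : ℝ) : ℂ) - _‖ ≤ _
      rw [h1, h2]
      simp
  | succ k ih =>
    refine ⟨ih.2, ?_⟩
    have hd := degOK_am hEvb k
    have hc : ((k : ℚ) + 2) = ((k + 2 : ℕ) : ℚ) := by push_cast; ring
    have h1 := Ap.mul hEvb hEvm hP (degOK_gq ((k + 2 : ℕ) : ℚ)) hd.1 (ap_gq hM (k + 2)) ih.1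
    have h2 := Ap.mul hEvb hEvm hP (degOK_gtq ((k + 2 : ℕ) : ℚ)) hd.2
      (ap_gtq hUid hP.s0 hM (k + 2)) ih.2
    have h3 := (h1.add h2).const_mul (-((k : ℚ) + 1))
    have h4 : am (k + 1 + 1) = fun w => MvPolynomial.C (-((k : ℚ) + 1)) *
        (cnv (gq ((k + 2 : ℕ) : ℚ)) (am k) w + cnv (gtq ((k + 2 : ℕ) : ℚ)) (am (k + 1)) w) := by
      funext w
      rw [am_succ, hc]
    rw [h4]
    have h5 : (fun (n d : ℕ) => ((mm n (tt n d) (k + 1 + 1) : ℝ) : ℂ)) = fun (n d : ℕ) =>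
        ((-((k : ℚ) + 1) : ℚ) : ℂ) *
        (((1 / ((n : ℝ) - (k + 2 : ℕ)) : ℝ) : ℂ) * ((mm n (tt n d) k : ℝ) : ℂ) +
          ((tt n d / ((n : ℝ) - (k + 2 : ℕ)) : ℝ) : ℂ) * ((mm n (tt n d) (k + 1) : ℝ) : ℂ)) := by
      funext n d
      have h6 : mm n (tt n d) (k + 1 + 1) = -((k : ℝ) + 1) * (mm n (tt n d) k + tt n d *
          mm n (tt n d) (k + 1)) / ((n : ℝ) - 1 - (k + 1)) := rfl
      have h7 : (n : ℝ) - 1 - (k + 1) = (n : ℝ) - (k + 2 : ℕ) := by push_cast; ring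
      rw [h6, h7, ← Complex.ofReal_mul, ← Complex.ofReal_mul, ← Complex.ofReal_add]
      have h8 : ((-((k : ℚ) + 1) : ℚ) : ℂ) = ((-((k : ℝ) + 1) : ℝ) : ℂ) := by push_cast; ring
      rw [h8, ← Complex.ofReal_mul]
      congr 1
      ring
    rw [h5]
    exact h3

end approx

end MexpX

open MexpX

theorem mexp_proof (hUid : Stmt_Uid) (hEvb : Stmt_Evb) (hEvm : Stmt_Evm) : Stmt_Mexp := by
  refine ⟨fun k => (degOK_am hEvb k).1, fun k w h => (am_zero k).1 w h, ?_⟩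
  intro σ M W K ε ε2 hP k _
  have hM : (M : ℝ) + 6 ≤ W := by
    have h1 := hP.hW
    have h2 : σ * W ≤ 1 * W := mul_le_mul_of_nonneg_right hP.s1 (Nat.cast_nonneg W)
    have h3 : (0 : ℝ) ≤ M := Nat.cast_nonneg M
    linarith
  obtain ⟨C, n₀, -, h⟩ := (ap_am hUid hEvb hEvm hP hM k).1
  exact ⟨C, n₀, h⟩

end Pool.Agent.RGD
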