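import Pool.Agent.RGD.Stmts

/-!
# MOMB: exponential moments
-/

set_option autoImplicit false

namespace Pool.Agent.RGD

open Finset Pool.Agent.RGA

namespace MombAux

theorem norm_kap (hEeb : Stmt_Eeb) (n d : ℕ) (k : Fin (2 * n)) (hb : 0 < bb n d) :
    ‖kap n d k‖ = ‖qq n d k‖ ^ (n - 1) / (2 * n * bb n d) := by
  unfold kap kpj
  have h1 := (hEeb.1 n k).1
  rw [norm_div, norm_mul, norm_mul, norm_pow, norm_pow, norm_pow, h1, Complex.norm_real,
    Real.norm_of_nonneg (by positivity)]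
  simp

theorem small (ε : ℝ) (h8 : 8 * ε ≤ 1) (n : ℕ) (hn : 10000 ≤ n) :
    (n : ℝ) ^ (-1 + 2 * ε) ≤ 1 / 100 := by
  have hn' : (10000 : ℝ) ≤ n := by exact_mod_cast hn
  have h1 : (n : ℝ) ^ (-1 + 2 * ε) ≤ (n : ℝ) ^ (-(3 / 4) : ℝ) :=
    Real.rpow_le_rpow_of_exponent_le (by linarith) (by linarith)
  have h2 : (n : ℝ) ^ (-(3 / 4) : ℝ) ≤ (10000 : ℝ) ^ (-(3 / 4) : ℝ) :=
    Real.rpow_le_rpow_of_nonpos (by norm_num) hn' (by norm_num)
  have h3 : (10000 : ℝ) ^ (-(3 / 4) : ℝ) = 1 / 1000 := by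
    have : (10000 : ℝ) = (10 : ℝ) ^ (4 : ℝ) := by norm_num
    rw [this, ← Real.rpow_mul (by norm_num)]
    have e : (4 : ℝ) * -(3 / 4) = -((3 : ℕ) : ℝ) := by norm_num
    rw [e, Real.rpow_neg (by norm_num), Real.rpow_natCast]
    norm_num
  linarith

theorem core (r x : ℝ) (hr : 0 ≤ r) (h : r ^ 2 ≤ 2.1 * x) (p : ℕ) (E : ℝ) (hE : 0.99 * x ≤ E) :
    Real.exp (-E) * r ^ p * Real.exp (3 * r + r ^ 2 / 8)
      ≤ Real.exp 25 * ((1 + (2.1 * x) ^ p) * Real.exp (-(1 / 2 * x))) := by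
  have hx : 0 ≤ x := by nlinarith [sq_nonneg r]
  have h1 : r ^ p ≤ 1 + (2.1 * x) ^ p := by
    rcases le_total r 1 with h1 | h1
    · have := pow_le_one₀ (n := p) hr h1
      have h2 : 0 ≤ (2.1 * x) ^ p := by positivity
      linarith
    · have h2 : r ^ p ≤ (r ^ 2) ^ p := pow_le_pow_left₀ hr (by nlinarith) p
      have h3 : (r ^ 2) ^ p ≤ (2.1 * x) ^ p := pow_le_pow_left₀ (by positivity) h p
      linarith
  have h2 : Real.exp (-E) * Real.exp (3 * r + r ^ 2 / 8)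
      ≤ Real.exp 25 * Real.exp (-(1 / 2 * x)) := by
    rw [← Real.exp_add, ← Real.exp_add]
    apply Real.exp_le_exp.mpr
    nlinarith [sq_nonneg (0.3 * r - 5)]
  calc Real.exp (-E) * r ^ p * Real.exp (3 * r + r ^ 2 / 8)
      = r ^ p * (Real.exp (-E) * Real.exp (3 * r + r ^ 2 / 8)) := by ring
    _ ≤ (1 + (2.1 * x) ^ p) * (Real.exp 25 * Real.exp (-(1 / 2 * x))) := by
        apply mul_le_mul h1 h2 (by positivity) (by positivity)
    _ = _ := by ring

end MombAux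

open MombAux

theorem momb_proof (hEeb : Stmt_Eeb) (hUid : Stmt_Uid) (hGsum : Stmt_Gsum) : Stmt_Momb := by
  intro ε p hε h8
  obtain ⟨C0, hC0⟩ := hGsum 0 (1 / 2) (by norm_num)
  obtain ⟨Cp, hCp⟩ := hGsum p (1 / 2) (by norm_num)
  refine ⟨Real.exp 25 * (C0 + 2.1 ^ p * Cp), 10000, ?_⟩
  intro n d hn hd1 hd2
  obtain ⟨⟨hl0, hl1, hL0, hL1, -, -, hy0, -, hb⟩, hq, hu, -⟩ := hUid n d hd1 hd2
  have hn' : (10000 : ℝ) ≤ n := by exact_mod_cast hn
  have hn0 : (0 : ℝ) < n := by linarith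
  have hyy : yy n d = Lam n d * n := rfl
  have hterm : ∀ k ∈ inn n d ε, ‖kap n d k‖ * (Real.sqrt n * ‖uu n d k‖) ^ p
      * Real.exp (3 * (Real.sqrt n * ‖uu n d k‖) + (n : ℝ) * ‖uu n d k‖ ^ 2 / 8)
      ≤ Real.exp 25 * ((yy n d * ss n k) ^ 0 * wt n d (1 / 2) k
        + 2.1 ^ p * ((yy n d * ss n k) ^ p * wt n d (1 / 2) k)) := by
    intro k hk
    have hk' : 2 * Lam n d * ss n k ≤ 1 / 100 := by
      unfold inn at hk
      rw [mem_filter] at hk
      exact hk.2.trans (small ε h8 n hn)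
    have hs0 := (hEeb.1 n k).2.1
    have hX0 : 0 ≤ Lam n d * ss n k := mul_nonneg hL0.le hs0
    have hqk := (hq k).1
    have hqpos : 0 < ‖qq n d k‖ ^ 2 := by rw [hqk]; linarith
    have hqne : qq n d k ≠ 0 := by
      intro h0
      rw [h0] at hqpos
      simp at hqpos
    have huk := (hu k hqne).1
    -- the norm of `q`
    have hq1 : ‖qq n d k‖ ≤ Real.exp (-(Lam n d * ss n k)) := by
      apply le_of_sq_le_sq _ (Real.exp_pos _).le
      rw [hqk, ← Real.exp_nat_mul]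
      have := Real.add_one_le_exp (-(2 * Lam n d * ss n k))
      push_cast
      have e : (2 : ℝ) * -(Lam n d * ss n k) = -(2 * Lam n d * ss n k) := by ring
      rw [e]
      linarith
    have hkap : ‖kap n d k‖ ≤ Real.exp (-(((n : ℝ) - 1) * (Lam n d * ss n k)))
        / (2 * n * bb n d) := by
      rw [norm_kap hEeb n d k hb]
      apply div_le_div_of_nonneg_right _ (by positivity)
      calc ‖qq n d k‖ ^ (n - 1) ≤ Real.exp (-(Lam n d * ss n k)) ^ (n - 1) :=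
            pow_le_pow_left₀ (norm_nonneg _) hq1 _
        _ = Real.exp (-(((n : ℝ) - 1) * (Lam n d * ss n k))) := by
            rw [← Real.exp_nat_mul, Nat.cast_sub (by omega)]
            congr 1
            push_cast
            ring
    -- the norm of `u`
    have hr2 : (Real.sqrt n * ‖uu n d k‖) ^ 2 = (n : ℝ) * ‖uu n d k‖ ^ 2 := by
      rw [mul_pow, Real.sq_sqrt hn0.le]
    have hr : (Real.sqrt n * ‖uu n d k‖) ^ 2 ≤ 2.1 * (yy n d * ss n k) := by
      rw [hr2, huk, hyy]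
      rw [mul_div_assoc', div_le_iff₀ (by linarith)]
      have h1 : (n : ℝ) * (2 * Lam n d * ss n k) = 2 * ((n : ℝ) * (Lam n d * ss n k)) := by ring
      have h2 : 2.1 * (Lam n d * n * ss n k) = 2.1 * ((n : ℝ) * (Lam n d * ss n k)) := by ring
      rw [h1, h2]
      have h3 : 0 ≤ (n : ℝ) * (Lam n d * ss n k) := by positivity
      nlinarith
    have hE : 0.99 * (yy n d * ss n k) ≤ ((n : ℝ) - 1) * (Lam n d * ss n k) := by
      rw [hyy]
      nlinarith
    have hc := core (Real.sqrt n * ‖uu n d k‖) (yy n d * ss n k) (by positivity) hr p _ hE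
    rw [hr2] at hc
    calc ‖kap n d k‖ * (Real.sqrt n * ‖uu n d k‖) ^ p
        * Real.exp (3 * (Real.sqrt n * ‖uu n d k‖) + (n : ℝ) * ‖uu n d k‖ ^ 2 / 8)
        ≤ (Real.exp (-(((n : ℝ) - 1) * (Lam n d * ss n k))) / (2 * n * bb n d))
          * (Real.sqrt n * ‖uu n d k‖) ^ p
          * Real.exp (3 * (Real.sqrt n * ‖uu n d k‖) + (n : ℝ) * ‖uu n d k‖ ^ 2 / 8) := by
          gcongr
      _ = (Real.exp (-(((n : ℝ) - 1) * (Lam n d * ss n k)))
          * (Real.sqrt n * ‖uu n d k‖) ^ p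
          * Real.exp (3 * (Real.sqrt n * ‖uu n d k‖) + (n : ℝ) * ‖uu n d k‖ ^ 2 / 8))
          / (2 * n * bb n d) := by ring
      _ ≤ (Real.exp 25 * ((1 + (2.1 * (yy n d * ss n k)) ^ p)
          * Real.exp (-(1 / 2 * (yy n d * ss n k))))) / (2 * n * bb n d) :=
          div_le_div_of_nonneg_right hc (by positivity)
      _ = _ := by
          unfold wt
          rw [mul_pow, pow_zero, show (1 : ℝ) / 2 * yy n d * ss n k
            = 1 / 2 * (yy n d * ss n k) by ring]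
          ring
  calc _ ≤ ∑ k ∈ inn n d ε, Real.exp 25 * ((yy n d * ss n k) ^ 0 * wt n d (1 / 2) k
        + 2.1 ^ p * ((yy n d * ss n k) ^ p * wt n d (1 / 2) k)) := sum_le_sum hterm
    _ ≤ ∑ k, Real.exp 25 * ((yy n d * ss n k) ^ 0 * wt n d (1 / 2) k
        + 2.1 ^ p * ((yy n d * ss n k) ^ p * wt n d (1 / 2) k)) := by
        refine sum_le_sum_of_subset_of_nonneg (subset_univ _) fun k _ _ => ?_
        have hs0 := (hEeb.1 n k).2.1
        have hw : 0 ≤ wt n d (1 / 2) k := by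
          unfold wt
          positivity
        have : 0 ≤ yy n d * ss n k := mul_nonneg (by linarith) hs0
        positivity
    _ = Real.exp 25 * (∑ k, (yy n d * ss n k) ^ 0 * wt n d (1 / 2) k
        + 2.1 ^ p * ∑ k, (yy n d * ss n k) ^ p * wt n d (1 / 2) k) := by
        rw [← mul_sum, sum_add_distrib, ← mul_sum]
    _ ≤ Real.exp 25 * (C0 + 2.1 ^ p * Cp) := by
        have h1 := hC0 n d hd1 hd2
        have h2 := hCp n d hd1 hd2
        gcongr

end Pool.Agent.RGD
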