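import Pool.Agent.RGD.Exact

/-!
MREC: exact moments of `u` (MP_3a123b_co, dense range).
-/

set_option autoImplicit false

namespace Pool.Agent.RGD

open Finset Pool.Agent.RGA Polynomial

namespace Mrec

/-- `q` as a polynomial -/
noncomputable def Qp (l : ℝ) : ℝ[X] := 1 + C l * (X - 1)

/-- `v` as a polynomial -/
noncomputable def Vp (r : ℝ) : ℝ[X] := C r * (X - 1)

theorem coeff_X_deriv (P : ℝ[X]) (d : ℕ) (hd : 1 ≤ d) :
    (X * derivative P).coeff d = d * P.coeff d := by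
  obtain ⟨e, rfl⟩ : ∃ e, d = e + 1 := ⟨d - 1, by omega⟩
  rw [coeff_X_mul, coeff_derivative]
  push_cast
  ring

theorem deriv_rel {l r : ℝ} (h : r * r = l * (1 - l)) (s i : ℕ) :
    X * derivative (Qp l ^ (s + 1) * Vp r ^ (i + 1)) =
      C ((s + 1) * l) * (Qp l ^ (s + 1) * Vp r ^ (i + 1)) +
      C ((s + 1) * r) * (Qp l ^ s * Vp r ^ (i + 2)) +
      C ((i + 1) * r) * (Qp l ^ (s + 2) * Vp r ^ i) +
      C ((i + 1) * (1 - l)) * (Qp l ^ (s + 1) * Vp r ^ (i + 1)) := by
  have dQ : derivative (Qp l) = C l := by simp [Qp]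
  have dV : derivative (Vp r) = C r := by simp [Vp]
  have e1 : X * C l = C l * Qp l + C r * Vp r := by
    have h' : (C r * C r : ℝ[X]) = C l * (1 - C l) := by
      rw [← C_mul, h, C_mul, C_sub, C_1]
    rw [Qp, Vp]
    linear_combination (-(X : ℝ[X]) + 1) * h'
  have e2 : X * C r = C r * Qp l + C (1 - l) * Vp r := by
    rw [Qp, Vp, C_sub, C_1]
    ring
  rw [derivative_mul, derivative_pow, derivative_pow, dQ, dV]
  simp only [Nat.add_sub_cancel, C_mul, C_add, C_1, Nat.cast_add, Nat.cast_one, map_natCast]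
  linear_combination ((s : ℝ[X]) + 1) * Qp l ^ s * Vp r ^ (i + 1) * e1 +
    ((i : ℝ[X]) + 1) * Vp r ^ i * Qp l ^ (s + 1) * e2

theorem deriv_rel0 {l r : ℝ} (h : r * r = l * (1 - l)) (s : ℕ) :
    X * derivative (Qp l ^ (s + 1)) =
      C ((s + 1) * l) * Qp l ^ (s + 1) + C ((s + 1) * r) * (Qp l ^ s * Vp r) := by
  have dQ : derivative (Qp l) = C l := by simp [Qp]
  have e1 : X * C l = C l * Qp l + C r * Vp r := by
    have h' : (C r * C r : ℝ[X]) = C l * (1 - C l) := by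
      rw [← C_mul, h, C_mul, C_sub, C_1]
    rw [Qp, Vp]
    linear_combination (-(X : ℝ[X]) + 1) * h'
  rw [derivative_pow, dQ]
  simp only [Nat.add_sub_cancel, C_mul, C_add, C_1, Nat.cast_add, Nat.cast_one, map_natCast]
  linear_combination ((s : ℝ[X]) + 1) * Qp l ^ s * e1

theorem coeff_Q (l : ℝ) (N d : ℕ) (hd : d ≤ N) :
    (Qp l ^ N).coeff d = (N.choose d : ℝ) * l ^ d * (1 - l) ^ (N - d) := by
  have e : Qp l = C l * X + C (1 - l) := by
    rw [Qp, C_sub, C_1]; ring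
  rw [e, add_pow, finset_sum_coeff]
  have h : ∀ m ∈ range (N + 1), ((C l * X) ^ m * C (1 - l) ^ (N - m) * (N.choose m : ℝ[X])).coeff d =
      if d = m then (N.choose m : ℝ) * l ^ m * (1 - l) ^ (N - m) else 0 := by
    intro m _
    have e2 : (C l * X) ^ m * C (1 - l) ^ (N - m) * (N.choose m : ℝ[X]) =
        C ((N.choose m : ℝ) * l ^ m * (1 - l) ^ (N - m)) * X ^ m := by
      rw [mul_pow, ← C_pow, ← C_pow, C_mul, C_mul, map_natCast]
      ring
    rw [e2, coeff_C_mul, coeff_X_pow]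
    simp
  rw [sum_congr rfl h, sum_ite_eq]
  simp
  intro h'
  omega

theorem natDegree_le (l r : ℝ) (a b : ℕ) : (Qp l ^ a * Vp r ^ b).natDegree ≤ a + b := by
  have h1 : (Qp l).natDegree ≤ 1 := by
    rw [Qp]
    compute_degree
  have h2 : (Vp r).natDegree ≤ 1 := by
    rw [Vp]
    compute_degree
  calc (Qp l ^ a * Vp r ^ b).natDegree ≤ (Qp l ^ a).natDegree + (Vp r ^ b).natDegree :=
        natDegree_mul_le
    _ ≤ a * (Qp l).natDegree + b * (Vp r).natDegree :=
        Nat.add_le_add natDegree_pow_le natDegree_pow_le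
    _ ≤ a * 1 + b * 1 := Nat.add_le_add (Nat.mul_le_mul_left _ h1) (Nat.mul_le_mul_left _ h2)
    _ = a + b := by ring

theorem sum_eq (hEeb : Stmt_Eeb) {n d : ℕ} (h1 : 1 ≤ d) (h2 : 2 * d ≤ n - 1) (hb : bb n d ≠ 0)
    (P : ℝ[X]) (hP : P.natDegree ≤ n - 1) :
    ∑ k : Fin (2 * n), aeval (ee n k) P * (1 / (ee n k ^ d * ((2 * n * bb n d : ℝ) : ℂ))) =
      ((P.coeff d / bb n d : ℝ) : ℂ) := by
  have hn : 1 ≤ n := by omega
  have e1 : ∀ k : Fin (2 * n), aeval (ee n k) P * (1 / (ee n k ^ d * ((2 * n * bb n d : ℝ) : ℂ))) =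
      ∑ i ∈ range n, (P.coeff i : ℂ) *
        (ee n k ^ i * (1 / (ee n k ^ d * ((2 * n * bb n d : ℝ) : ℂ)))) := by
    intro k
    rw [aeval_eq_sum_range' (n := n) (by omega), sum_mul]
    refine sum_congr rfl (fun i _ => ?_)
    rw [Complex.real_smul]
    ring
  rw [sum_congr rfl (fun k _ => e1 k), sum_comm]
  have e2 : ∀ i ∈ range n, ∑ k : Fin (2 * n), (P.coeff i : ℂ) *
        (ee n k ^ i * (1 / (ee n k ^ d * ((2 * n * bb n d : ℝ) : ℂ)))) =
      if d = i then (P.coeff i : ℂ) * (1 / (bb n d : ℂ)) else 0 := by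
    intro i hi
    rw [mem_range] at hi
    rw [← mul_sum, Exact.site_sum hEeb h1 h2 hb (by omega : i ≤ 2 * n)]
    by_cases h : i = d
    · rw [if_pos h, if_pos h.symm]
    · rw [if_neg h, if_neg (fun h' => h h'.symm), mul_zero]
  rw [sum_congr rfl e2, sum_ite_eq, if_pos (mem_range.mpr (by omega))]
  push_cast
  ring

end Mrec

open Mrec in
theorem mrec_proof (hEeb : Stmt_Eeb) (hUid : Stmt_Uid) : Stmt_Mrec := by
  intro n d h1 h2
  obtain ⟨⟨hl0, hl1, hL0, -, -, -, -, -, hb⟩, -⟩ := hUid n d h1 h2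
  have hb0 : bb n d ≠ 0 := hb.ne'
  set l : ℝ := lam n d with hl
  set r : ℝ := Real.sqrt (Lam n d) with hr
  have hr0 : r ≠ 0 := (Real.sqrt_pos.mpr hL0).ne'
  have hrr : r * r = l * (1 - l) := by
    rw [hr, Real.mul_self_sqrt hL0.le, Lam]
  have htt : tt n d = (1 - 2 * l) / r := rfl
  have hnr : ((n : ℝ) - 1) ≠ 0 := by
    have : (1 : ℝ) < n := by exact_mod_cast (by omega : 1 < n)
    linarith
  have hld : l * ((n : ℝ) - 1) = d := by
    rw [hl, lam]
    field_simp
  obtain ⟨N, rfl⟩ : ∃ N, n = N + 1 := ⟨n - 1, by omega⟩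
  have hld' : l * (N : ℝ) = d := by
    rw [← hld]; push_cast; ring
  -- the coefficients
  set a : ℕ → ℝ := fun j => (Qp l ^ (N - j) * Vp r ^ j).coeff d with ha
  have hsum : ∀ j ≤ N, ∑ k, kpj (N + 1) d j k = ((a j / bb (N + 1) d : ℝ) : ℂ) := by
    intro j hj
    rw [ha, ← sum_eq hEeb h1 h2 hb0 _ (le_trans (natDegree_le l r _ _) (by omega))]
    refine sum_congr rfl (fun k _ => ?_)
    rw [kpj, map_mul, map_pow, map_pow, Qp, Vp]
    simp only [map_add, map_one, map_mul, map_sub, aeval_C, aeval_X, qq, vv,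
      Complex.coe_algebraMap]
    rw [Nat.add_sub_cancel, ← hl, ← hr]
    ring
  have h0 : a 0 = bb (N + 1) d := by
    show (Qp l ^ (N - 0) * Vp r ^ 0).coeff d = _
    rw [pow_zero, mul_one, Nat.sub_zero, coeff_Q l N d (by omega), bb, Nat.add_sub_cancel, ← hl]
  have hstep0 : a 1 = 0 := by
    obtain ⟨s, hs⟩ : ∃ s, N = s + 1 := ⟨N - 1, by omega⟩
    have e := congrArg (fun P : ℝ[X] => P.coeff d) (deriv_rel0 hrr s)
    simp only [coeff_X_deriv _ d h1, coeff_add, coeff_C_mul] at e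
    have e1 : a 1 = (Qp l ^ s * Vp r).coeff d := by
      show (Qp l ^ (N - 1) * Vp r ^ 1).coeff d = _
      rw [hs, Nat.add_sub_cancel, pow_one]
    have hN : (N : ℝ) = s + 1 := by rw [hs]; push_cast; ring
    rw [← e1, ← hld', hN] at e
    have e2 : ((s : ℝ) + 1) * r * a 1 = 0 := by linear_combination -e
    have hs0 : ((s : ℝ) + 1) * r ≠ 0 := mul_ne_zero (by positivity) hr0
    exact (mul_eq_zero.mp e2).resolve_left hs0
  have hstep : ∀ i s : ℕ, N = i + s + 2 →
      a (i + 2) = -((i : ℝ) + 1) * (a i + tt (N + 1) d * a (i + 1)) / ((s : ℝ) + 1) := by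
    intro i s hN
    have e := congrArg (fun P : ℝ[X] => P.coeff d) (deriv_rel hrr s i)
    simp only [coeff_X_deriv _ d h1, coeff_add, coeff_C_mul] at e
    have e1 : a (i + 2) = (Qp l ^ s * Vp r ^ (i + 2)).coeff d := by
      show (Qp l ^ (N - (i + 2)) * Vp r ^ (i + 2)).coeff d = _
      rw [show N - (i + 2) = s by omega]
    have e2 : a (i + 1) = (Qp l ^ (s + 1) * Vp r ^ (i + 1)).coeff d := by
      show (Qp l ^ (N - (i + 1)) * Vp r ^ (i + 1)).coeff d = _
      rw [show N - (i + 1) = s + 1 by omega]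
    have e3 : a i = (Qp l ^ (s + 2) * Vp r ^ i).coeff d := by
      show (Qp l ^ (N - i) * Vp r ^ i).coeff d = _
      rw [show N - i = s + 2 by omega]
    have hNr : (N : ℝ) = i + s + 2 := by rw [hN]; push_cast; ring
    rw [← e1, ← e2, ← e3, ← hld', hNr] at e
    have hs0 : (s : ℝ) + 1 ≠ 0 := by positivity
    rw [htt, eq_div_iff hs0]
    field_simp
    linear_combination -e
  have main : ∀ j ≤ N, a j = bb (N + 1) d * mm (N + 1) (tt (N + 1) d) j := by
    intro j
    induction j using Nat.strong_induction_on with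
    | _ j ih =>
      intro hj
      match j, ih, hj with
      | 0, _, _ => rw [h0, mm, mul_one]
      | 1, _, _ => rw [hstep0, mm, mul_zero]
      | (i + 2), ih, hj =>
        obtain ⟨s, hs⟩ : ∃ s, N = i + s + 2 := ⟨N - (i + 2), by omega⟩
        rw [hstep i s hs, ih i (by omega) (by omega), ih (i + 1) (by omega) (by omega), mm]
        have hNr : ((N + 1 : ℕ) : ℝ) - 1 - (i + 1) = s + 1 := by rw [hs]; push_cast; ring
        rw [hNr]
        ring
  intro j hj
  rw [hsum j (by omega), main j (by omega)]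
  congr 1
  field_simp

end Pool.Agent.RGD
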