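import Pool.Agent.RGD.Stmts

/-!
Module Parity (MP_3a123b_co, dense range): the polynomials `QQ w` are even.
-/

set_option autoImplicit false

namespace Pool.Agent.RGD

open Finset Pool.Agent.RGA MvPolynomial

namespace ParityAux

/-- weight of a monomial: variable `0` has weight `1`, variable `i ≥ 1` has weight `i` -/
def wg (m : ℕ →₀ ℕ) : ℕ := m 0 + ∑ i ∈ m.support, i * m i

lemma wg_add (m m' : ℕ →₀ ℕ) : wg (m + m') = wg m + wg m' := by
  unfold wg
  have h4 : ∑ i ∈ (m + m').support, i * (m + m') i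
      = ∑ i ∈ m.support, i * m i + ∑ i ∈ m'.support, i * m' i := by
    have := Finsupp.sum_add_index' (f := m) (g := m') (h := fun i (x : ℕ) => i * x)
      (fun _ => by simp) (fun _ _ _ => by ring)
    simpa [Finsupp.sum] using this
  have h5 : (m + m') 0 = m 0 + m' 0 := rfl
  omega

/-- all monomials have weight of the parity of `p` -/
def Pr (p : ℕ) (P : Rg) : Prop := ∀ m ∈ P.support, wg m % 2 = p % 2

lemma Pr.congr {p q : ℕ} {P : Rg} (h : Pr p P) (hpq : p % 2 = q % 2) : Pr q P :=
  fun m hm => (h m hm).trans hpq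

lemma Pr.zero (p : ℕ) : Pr p 0 := fun m hm => by simp at hm

lemma Pr.add {p : ℕ} {P Q : Rg} (h : Pr p P) (h' : Pr p Q) : Pr p (P + Q) := by
  intro m hm
  rcases Finset.mem_union.mp (MvPolynomial.support_add hm) with h1 | h1
  · exact h m h1
  · exact h' m h1

lemma Pr.neg {p : ℕ} {P : Rg} (h : Pr p P) : Pr p (-P) := by
  intro m hm
  rw [MvPolynomial.support_neg] at hm
  exact h m hm

lemma Pr.sub {p : ℕ} {P Q : Rg} (h : Pr p P) (h' : Pr p Q) : Pr p (P - Q) := by
  rw [sub_eq_add_neg]; exact h.add h'.neg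

lemma Pr.sum {p : ℕ} {β : Type} (s : Finset β) (f : β → Rg) (h : ∀ x ∈ s, Pr p (f x)) :
    Pr p (∑ x ∈ s, f x) := by
  classical
  induction s using Finset.induction_on with
  | empty => simpa using Pr.zero p
  | insert x s hx ih =>
    rw [Finset.sum_insert hx]
    exact (h x (Finset.mem_insert_self _ _)).add
      (ih (fun y hy => h y (Finset.mem_insert_of_mem hy)))

lemma Pr.mul {p q : ℕ} {P Q : Rg} (h : Pr p P) (h' : Pr q Q) : Pr (p + q) (P * Q) := by
  classical
  intro m hm
  obtain ⟨m1, h1, m2, h2, rfl⟩ := Finset.mem_add.mp (MvPolynomial.support_mul _ _ hm)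
  have p1 := h m1 h1
  have p2 := h' m2 h2
  rw [wg_add]
  omega

lemma Pr.C (q : ℚ) : Pr 0 (MvPolynomial.C q : Rg) := by
  intro m hm
  have h0 : m = 0 := by
    by_contra hne
    rw [MvPolynomial.mem_support_iff, MvPolynomial.coeff_C] at hm
    rw [if_neg (fun h => hne h.symm)] at hm
    exact hm rfl
  subst h0
  simp [wg]

lemma Pr.smul {p : ℕ} {P : Rg} (q : ℚ) (h : Pr p P) : Pr p (q • P) := by
  rw [MvPolynomial.smul_eq_C_mul]
  have := (Pr.C q).mul h
  simpa using this

lemma Pr.one : Pr 0 (1 : Rg) := by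
  have := Pr.C 1
  simpa using this

lemma Pr.X0 : Pr 1 (MvPolynomial.X 0 : Rg) := by
  intro m hm
  rw [MvPolynomial.support_X, Finset.mem_singleton] at hm
  subst hm
  unfold wg
  rw [Finsupp.support_single_ne_zero _ one_ne_zero]
  simp

lemma Pr.X (i : ℕ) (hi : 1 ≤ i) : Pr i (MvPolynomial.X i : Rg) := by
  intro m hm
  rw [MvPolynomial.support_X, Finset.mem_singleton] at hm
  subst hm
  have h0 : (Finsupp.single i 1 : ℕ →₀ ℕ) 0 = 0 := by
    rw [Finsupp.single_apply, if_neg (by omega)]
  unfold wg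
  rw [Finsupp.support_single_ne_zero _ one_ne_zero, h0]
  simp

lemma Pr.iot (i : ℕ) : Pr i (MvPolynomial.C (iot i) : Rg) := by
  rcases Nat.even_or_odd i with h | h
  · exact (Pr.C _).congr (by rw [Nat.even_iff] at h; omega)
  · have : RGD.iot i = 0 := by
      unfold RGD.iot
      rw [if_neg (by rw [Nat.not_even_iff_odd]; exact h)]
    rw [this, map_zero]
    exact Pr.zero _

lemma pr_bet (k : ℕ) : Pr k (bet k) := by
  induction k using Nat.strong_induction_on with
  | _ k ih =>
    rcases k with _ | k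
    · rw [bet]; exact Pr.one
    · rw [bet]
      have hs : Pr (k + 1) (∑ j : Fin (k + 1),
          ((((k + 1 - j.val : ℕ) : ℚ)) • MvPolynomial.X (k + 1 - j.val)
            + MvPolynomial.C (RGD.iot (k + 1 - j.val))) * bet j.val) := by
        refine Pr.sum _ _ fun j _ => ?_
        have hj := j.isLt
        have h1 : Pr (k + 1 - j.val) ((((k + 1 - j.val : ℕ) : ℚ)) •
            (MvPolynomial.X (k + 1 - j.val) : Rg) + MvPolynomial.C (RGD.iot (k + 1 - j.val))) :=
          ((Pr.X _ (by omega)).smul _).add (Pr.iot _)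
        exact (h1.mul (ih j.val hj)).congr (by omega)
      exact ((Pr.C _).mul hs).congr (by omega)

lemma coeff_mfm (k w : ℕ) : PowerSeries.coeff w (mfm (k + 2))
    = MvPolynomial.C (-((k : ℚ) + 1)) * ∑ p ∈ antidiagonal w,
        PowerSeries.coeff p.1 (geo (k + 2)) *
          (PowerSeries.coeff p.2 (mfm k) + MvPolynomial.X 0 * PowerSeries.coeff p.2 (mfm (k + 1))) := by
  have h : mfm (k + 2) = PowerSeries.C (MvPolynomial.C (-((k : ℚ) + 1)) : Rg) *
      (geo (k + 2) * (mfm k + PowerSeries.C (MvPolynomial.X 0) * mfm (k + 1))) := by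
    rw [mfm]
    simp only [map_neg, map_add, map_natCast, map_one]
    ring
  rw [h, PowerSeries.coeff_C_mul, PowerSeries.coeff_mul]
  simp only [map_add, PowerSeries.coeff_C_mul]

lemma pr_mfm (k : ℕ) : ∀ w, Pr k (PowerSeries.coeff w (mfm k)) := by
  induction k using Nat.strong_induction_on with
  | _ k ih =>
    intro w
    rcases k with _ | _ | k
    · rw [mfm, PowerSeries.coeff_one]
      split_ifs with h
      · exact Pr.one
      · exact Pr.zero _
    · rw [mfm]; simpa using Pr.zero _
    · rw [coeff_mfm]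
      have hs : Pr k (∑ p ∈ antidiagonal w,
        PowerSeries.coeff p.1 (geo (k + 2)) *
          (PowerSeries.coeff p.2 (mfm k) + MvPolynomial.X 0 *
            PowerSeries.coeff p.2 (mfm (k + 1)))) := by
        refine Pr.sum _ _ fun p _ => ?_
        have hg : Pr 0 (PowerSeries.coeff p.1 (geo (k + 2))) := by
          rw [geo, PowerSeries.coeff_mk]
          split_ifs
          · exact Pr.zero _
          · exact Pr.C _
        have h1 : Pr k (PowerSeries.coeff p.2 (mfm k)) := ih k (by omega) p.2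
        have h2 : Pr k (MvPolynomial.X 0 * PowerSeries.coeff p.2 (mfm (k + 1))) :=
          (Pr.X0.mul (ih (k + 1) (by omega) p.2)).congr (by omega)
        exact (hg.mul (h1.add h2)).congr (by omega)
      exact ((Pr.C _).mul hs).congr (by omega)

lemma pr_Del (w : ℕ) : Pr 0 (Del w) := by
  unfold Del
  refine Pr.sum _ _ fun k _ => ?_
  exact ((pr_bet k).mul (pr_mfm k w)).congr (by omega)

lemma pr_logS (A : ℕ → Rg) (hA : ∀ w, Pr 0 (A w)) (w : ℕ) : Pr 0 (logS A w) := by
  induction w using Nat.strong_induction_on with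
  | _ w ih =>
    rcases w with _ | w
    · rw [logS]; exact Pr.zero _
    · rw [logS]
      refine (hA (w + 1)).sub (Pr.smul _ (Pr.sum _ _ fun j _ => Pr.smul _ ?_))
      exact (ih j.val j.isLt).mul (hA _)

lemma pr_rr (w : ℕ) : Pr 0 (rr w) := by
  unfold rr
  refine (pr_logS _ pr_Del _).add ?_
  split_ifs
  · exact (pr_bet 2).congr (by omega)
  · exact Pr.zero _

lemma pr_EE (w : ℕ) : Pr 0 (EE w) := by
  unfold EE
  induction w using Nat.strong_induction_on with
  | _ w ih =>
    rcases w with _ | w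
    · rw [expS]; exact Pr.one
    · rw [expS]
      refine Pr.smul _ (Pr.sum _ _ fun j _ => Pr.smul _ ?_)
      exact (pr_rr _).mul (ih j.val j.isLt)

/-! ### the expectation -/

lemma nu_odd (i : ℕ) (hi : i % 2 = 1) (a : ℕ) (ha : a % 2 = 1) : nu i a = 0 := by
  have hm : nmu i = 0 := by
    unfold nmu
    rw [if_neg (by omega)]
  induction a using Nat.strong_induction_on with
  | _ a ih =>
    rcases a with _ | _ | a
    · omega
    · rw [nu, hm]
    · rw [nu, hm, ih a (by omega) (by omega)]
      ring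

lemma even_of_prod_ne (m : ℕ →₀ ℕ) (hw : wg m % 2 = 0)
    (hne : ∏ i ∈ m.support.erase 0, nu i (m i) ≠ 0) : m 0 % 2 = 0 := by
  have h1 : ∀ i ∈ m.support, Even (i * m i) := by
    intro i hi
    rcases Nat.eq_zero_or_pos i with h0 | h0
    · simp [h0]
    · rcases Nat.mod_two_eq_zero_or_one i with h2 | h2
      · exact Even.mul_right (Nat.even_iff.mpr h2) _
      · rcases Nat.mod_two_eq_zero_or_one (m i) with h3 | h3
        · exact Even.mul_left (Nat.even_iff.mpr h3) _
        · exfalso
          refine hne (Finset.prod_eq_zero (Finset.mem_erase.mpr ⟨by omega, hi⟩)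
            (nu_odd i h2 (m i) h3))
  have h2 : Even (∑ i ∈ m.support, i * m i) := Finset.even_sum _ h1
  rw [Nat.even_iff] at h2
  unfold wg at hw
  omega

lemma ef_even (P : Rg) (hP : Pr 0 P) : (Ef P).comp (-Polynomial.X) = Ef P := by
  unfold Ef
  rw [Polynomial.sum_comp]
  refine Finset.sum_congr rfl fun m hm => ?_
  by_cases h : ∏ i ∈ m.support.erase 0, nu i (m i) = 0
  · rw [h, mul_zero, map_zero, Polynomial.zero_comp]
  · have h1 := even_of_prod_ne m (hP m hm) h
    rw [Polynomial.monomial_comp, Even.neg_pow (Nat.even_iff.mpr h1),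
      Polynomial.C_mul_X_pow_eq_monomial]

lemma qt_even (w : ℕ) : (Qt w).comp (-Polynomial.X) = Qt w := ef_even _ (pr_EE w)

end ParityAux

open ParityAux in
theorem parity_proof : Stmt_Parity := by
  intro w
  unfold QQ
  induction w using Nat.strong_induction_on with
  | _ w ih =>
    rcases w with _ | w
    · rw [logS]; simp
    · rw [logS, Polynomial.sub_comp, qt_even, Polynomial.smul_comp, Polynomial.sum_comp]
      congr 2
      refine Finset.sum_congr rfl fun j _ => ?_
      rw [Polynomial.smul_comp, Polynomial.mul_comp, ih j.val j.isLt, qt_even]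

end Pool.Agent.RGD
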