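import Pool.Agent.RGD.Stmts

/-!
Module PHI1 of squad RGD (MP_3a123b_co): the one site integral for fields up to `η √n`.
-/

set_option autoImplicit false

namespace Pool.Agent.RGD

open Finset Pool.Agent.RGA MeasureTheory

namespace Phi1

/-! ### elementary lemmas -/

lemma exp_three (w : ℂ) :
    ‖Complex.exp w - (1 + w + w ^ 2 / 2)‖ ≤ ‖w‖ ^ 3 * Real.exp ‖w‖ := by
  have h := Complex.norm_exp_sub_sum_le_norm_mul_exp w 3
  have e : ∑ m ∈ range 3, w ^ m / (m.factorial : ℂ) = 1 + w + w ^ 2 / 2 := by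
    simp [Finset.sum_range_succ, Nat.factorial]
  rw [e] at h
  exact h

lemma norm_al_le (i : ℕ) (hi : 1 ≤ i) : ‖al i‖ ≤ 1 := by
  have h1 : (1 : ℝ) ≤ Real.sqrt i := by
    rw [show (1 : ℝ) = Real.sqrt 1 by simp]
    exact Real.sqrt_le_sqrt (by exact_mod_cast hi)
  have h2 : 1 / Real.sqrt i ≤ 1 := by
    rw [div_le_one (by linarith)]
    exact h1
  have h3 : 0 ≤ 1 / Real.sqrt i := by positivity
  unfold al
  split_ifs
  · rw [norm_mul, Complex.norm_I, one_mul, Complex.norm_real, Real.norm_of_nonneg h3]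
    exact h2
  · rw [Complex.norm_real, Real.norm_of_nonneg h3]
    exact h2

lemma al_one : al 1 = 1 := by
  unfold al
  rw [if_neg (by decide)]
  simp

lemma norm_lgt_le (K : ℕ) (x : ℂ) (hx : ‖x‖ ≤ 1) : ‖lgt K x‖ ≤ K * ‖x‖ := by
  unfold lgt
  calc ‖∑ i ∈ Icc 1 K, (-1) ^ (i - 1) * x ^ i / (i : ℂ)‖
      ≤ ∑ i ∈ Icc 1 K, ‖(-1) ^ (i - 1) * x ^ i / (i : ℂ)‖ := norm_sum_le _ _
    _ ≤ ∑ i ∈ Icc 1 K, ‖x‖ := by
        apply Finset.sum_le_sum
        intro i hi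
        rw [mem_Icc] at hi
        rw [norm_div, norm_mul, norm_pow, norm_pow, norm_neg, norm_one, one_pow, one_mul,
          Complex.norm_natCast]
        have h1 : (1 : ℝ) ≤ i := by exact_mod_cast hi.1
        have h2 : ‖x‖ ^ i ≤ ‖x‖ := by
          calc ‖x‖ ^ i ≤ ‖x‖ ^ 1 := pow_le_pow_of_le_one (norm_nonneg _) hx hi.1
            _ = ‖x‖ := pow_one _
        calc ‖x‖ ^ i / i ≤ ‖x‖ ^ i / 1 := by
              apply div_le_div_of_nonneg_left (by positivity) (by norm_num) h1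
          _ ≤ ‖x‖ := by rw [div_one]; exact h2
    _ = K * ‖x‖ := by
        rw [Finset.sum_const, Nat.card_Icc, nsmul_eq_mul]
        simp

/-- the sum over the fields -/
lemma fields (K : ℕ) (hK : 1 ≤ K) (g : Fin K → ℝ) (u : ℂ) (hu : ‖u‖ ≤ 1) :
    ‖(∑ i ∈ Icc 1 K, Gt K g i * u ^ i) - (g ⟨0, hK⟩ : ℂ) * u‖
      ≤ (∑ i, |g i|) * ‖u‖ ^ 2 := by
  have e1 : ∑ i ∈ Icc 1 K, Gt K g i * u ^ i = ∑ i : Fin K, (al (i.val + 1) * (g i : ℂ)) * u ^ (i.val + 1) := by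
    rw [Finset.sum_fin_eq_sum_range]
    have : Icc 1 K = (range K).image (fun i => i + 1) := by
      ext j
      simp only [mem_Icc, mem_image, mem_range]
      constructor
      · rintro ⟨h1, h2⟩
        exact ⟨j - 1, by omega, by omega⟩
      · rintro ⟨i, hi, rfl⟩
        omega
    rw [this, Finset.sum_image (fun a _ b _ h => by omega)]
    apply Finset.sum_congr rfl
    intro i hi
    rw [mem_range] at hi
    rw [dif_pos hi]
    unfold Gt
    rw [dif_pos ⟨by omega, by omega⟩]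
    rfl
  rw [e1]
  rw [← Finset.add_sum_erase univ _ (mem_univ (⟨0, hK⟩ : Fin K))]
  simp only [zero_add, al_one, one_mul, pow_one, add_sub_cancel_left]
  calc ‖∑ i ∈ univ.erase (⟨0, hK⟩ : Fin K), al (i.val + 1) * (g i : ℂ) * u ^ (i.val + 1)‖
      ≤ ∑ i ∈ univ.erase (⟨0, hK⟩ : Fin K), ‖al (i.val + 1) * (g i : ℂ) * u ^ (i.val + 1)‖ :=
        norm_sum_le _ _
    _ ≤ ∑ i ∈ univ.erase (⟨0, hK⟩ : Fin K), |g i| * ‖u‖ ^ 2 := by
        apply Finset.sum_le_sum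
        intro i hi
        have hi0 : i.val ≠ 0 := by
          intro h
          exact (Finset.mem_erase.1 hi).1 (Fin.ext h)
        rw [norm_mul, norm_mul, norm_pow, Complex.norm_real, Real.norm_eq_abs]
        have h1 := norm_al_le (i.val + 1) (by omega)
        have h2 : ‖u‖ ^ (i.val + 1) ≤ ‖u‖ ^ 2 :=
          pow_le_pow_of_le_one (norm_nonneg _) hu (by omega)
        have h3 : ‖al (i.val + 1)‖ * |g i| ≤ |g i| := by
          calc _ ≤ 1 * |g i| := mul_le_mul_of_nonneg_right h1 (abs_nonneg _)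
            _ = |g i| := one_mul _
        exact mul_le_mul h3 h2 (by positivity) (abs_nonneg _)
    _ ≤ ∑ i : Fin K, |g i| * ‖u‖ ^ 2 := by
        apply Finset.sum_le_sum_of_subset_of_nonneg (Finset.erase_subset _ _)
        intro i _ _
        positivity
    _ = (∑ i, |g i|) * ‖u‖ ^ 2 := by rw [Finset.sum_mul]

/-- the logarithm of one site -/
lemma logsite (K : ℕ) (hK : 1 ≤ K) (g : Fin K → ℝ) {τ : Type} [Fintype τ] (z : τ → ℂ)
    (hz : ∀ j, ‖z j‖ ≤ 1) (u : ℂ) (hu : ‖u‖ ≤ 1 / 2) :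
    ∃ w : ℂ, fg K g u * sf z u = Complex.exp w ∧
      ‖w - ((g ⟨0, hK⟩ : ℂ) + ∑ j, z j) * u‖
        ≤ ((K : ℝ) + (∑ i, |g i|) + ∑ j, ‖z j‖) * ‖u‖ ^ 2 := by
  refine ⟨((∑ i ∈ Icc 1 K, Gt K g i * u ^ i) - lgt K (u ^ 2) / 2)
    + ∑ j, Complex.log (1 + z j * u), ?_, ?_⟩
  · rw [Complex.exp_add, Complex.exp_sum]
    unfold fg fgG sf
    congr 1
    apply Finset.prod_congr rfl
    intro j _
    rw [Complex.exp_log]
    intro h
    have h1 : z j * u = -1 := by linear_combination h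
    have h2 : ‖z j * u‖ = 1 := by rw [h1]; simp
    rw [norm_mul] at h2
    have h3 := hz j
    have h4 : ‖z j‖ * ‖u‖ ≤ 1 * (1 / 2) := mul_le_mul h3 hu (norm_nonneg _) (by norm_num)
    linarith
  · have h1 := fields K hK g u (by linarith)
    have h2 : ‖lgt K (u ^ 2)‖ ≤ K * ‖u‖ ^ 2 := by
      have := norm_lgt_le K (u ^ 2) (by rw [norm_pow]; nlinarith [norm_nonneg u])
      rwa [norm_pow] at this
    have h3 : ‖∑ j, (Complex.log (1 + z j * u) - z j * u)‖ ≤ (∑ j, ‖z j‖) * ‖u‖ ^ 2 := by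
      calc _ ≤ ∑ j, ‖Complex.log (1 + z j * u) - z j * u‖ := norm_sum_le _ _
        _ ≤ ∑ j, ‖z j‖ * ‖u‖ ^ 2 := by
            apply Finset.sum_le_sum
            intro j _
            have h5 : ‖z j * u‖ ≤ 1 / 2 := by
              rw [norm_mul]
              have h4 : ‖z j‖ * ‖u‖ ≤ 1 * (1 / 2) :=
                mul_le_mul (hz j) hu (norm_nonneg _) (by norm_num)
              linarith
            have h6 := Complex.norm_log_one_add_sub_self_le (z := z j * u) (by linarith)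
            have h7 : (1 - ‖z j * u‖)⁻¹ ≤ 2 := by
              rw [inv_le_comm₀ (by linarith) (by norm_num)]
              linarith
            calc _ ≤ ‖z j * u‖ ^ 2 * (1 - ‖z j * u‖)⁻¹ / 2 := h6
              _ ≤ ‖z j * u‖ ^ 2 * 2 / 2 := by gcongr
              _ = ‖z j‖ ^ 2 * ‖u‖ ^ 2 := by rw [norm_mul]; ring
              _ ≤ ‖z j‖ * ‖u‖ ^ 2 := by
                  apply mul_le_mul_of_nonneg_right _ (by positivity)
                  have := hz j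
                  nlinarith [norm_nonneg (z j)]
        _ = (∑ j, ‖z j‖) * ‖u‖ ^ 2 := by rw [Finset.sum_mul]
    have e : ((∑ i ∈ Icc 1 K, Gt K g i * u ^ i) - lgt K (u ^ 2) / 2)
        + ∑ j, Complex.log (1 + z j * u) - ((g ⟨0, hK⟩ : ℂ) + ∑ j, z j) * u
        = ((∑ i ∈ Icc 1 K, Gt K g i * u ^ i) - (g ⟨0, hK⟩ : ℂ) * u) + (-(lgt K (u ^ 2) / 2))
          + ∑ j, (Complex.log (1 + z j * u) - z j * u) := by
      rw [Finset.sum_sub_distrib, ← Finset.sum_mul]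
      ring
    rw [e]
    have h8 : ‖-(lgt K (u ^ 2) / 2)‖ ≤ K * ‖u‖ ^ 2 := by
      rw [norm_neg, norm_div]
      have : ‖(2 : ℂ)‖ = 2 := by simp
      rw [this]
      have := norm_nonneg (lgt K (u ^ 2))
      linarith
    calc _ ≤ ‖(∑ i ∈ Icc 1 K, Gt K g i * u ^ i) - (g ⟨0, hK⟩ : ℂ) * u‖
          + ‖-(lgt K (u ^ 2) / 2)‖ + ‖∑ j, (Complex.log (1 + z j * u) - z j * u)‖ :=
            norm_add₃_le
      _ ≤ (∑ i, |g i|) * ‖u‖ ^ 2 + K * ‖u‖ ^ 2 + (∑ j, ‖z j‖) * ‖u‖ ^ 2 := by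
          linarith
      _ = _ := by ring

/-- pointwise expansion -/
lemma pointwise (A w u : ℂ) (r a β : ℝ) (hr : 0 < r) (ha : 0 ≤ a) (hβ : 0 ≤ β) (ha1 : a ≤ 1)
    (hβ1 : β ≤ 1 / 8) (hA : ‖A‖ ≤ a * r) (hw : ‖w - A * u‖ ≤ β * r ^ 2 * ‖u‖ ^ 2) :
    ‖w‖ ≤ 3 * (r * ‖u‖) + (r * ‖u‖) ^ 2 / 8 ∧
    ‖Complex.exp w - (1 + A * u + A ^ 2 / 2 * u ^ 2)‖
      ≤ ((β * (r * ‖u‖) ^ 2 + a * β * (r * ‖u‖) ^ 3 + β ^ 2 * (r * ‖u‖) ^ 4)
        + 4 * (a + β) ^ 3 * ((r * ‖u‖) ^ 3 + (r * ‖u‖) ^ 6))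
          * Real.exp (3 * (r * ‖u‖) + (r * ‖u‖) ^ 2 / 8) := by
  set x : ℝ := r * ‖u‖ with hx
  have hx0 : 0 ≤ x := by positivity
  have hρ : ‖w - A * u‖ ≤ β * x ^ 2 := by
    rw [hx]; nlinarith [hw]
  have hAu : ‖A * u‖ ≤ a * x := by
    rw [norm_mul, hx]
    calc ‖A‖ * ‖u‖ ≤ a * r * ‖u‖ := mul_le_mul_of_nonneg_right hA (norm_nonneg _)
      _ = _ := by ring
  have hw1 : ‖w‖ ≤ a * x + β * x ^ 2 := by
    calc ‖w‖ = ‖A * u + (w - A * u)‖ := by congr 1; ring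
      _ ≤ ‖A * u‖ + ‖w - A * u‖ := norm_add_le _ _
      _ ≤ _ := by linarith
  have hw2 : ‖w‖ ≤ 3 * x + x ^ 2 / 8 := by
    have h1 : a * x ≤ 1 * x := mul_le_mul_of_nonneg_right ha1 hx0
    have h2 : β * x ^ 2 ≤ 1 / 8 * x ^ 2 := mul_le_mul_of_nonneg_right hβ1 (by positivity)
    linarith
  refine ⟨hw2, ?_⟩
  have hE1 : (1 : ℝ) ≤ Real.exp (3 * x + x ^ 2 / 8) := by
    apply Real.one_le_exp
    positivity
  have hE2 : Real.exp ‖w‖ ≤ Real.exp (3 * x + x ^ 2 / 8) := Real.exp_le_exp.2 hw2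
  have h3 := exp_three w
  have hw3 : ‖w‖ ^ 3 ≤ 4 * (a + β) ^ 3 * (x ^ 3 + x ^ 6) := by
    have h4 : ‖w‖ ≤ (a + β) * (x + x ^ 2) := by
      have : 0 ≤ a * x ^ 2 + β * x := by positivity
      nlinarith
    calc ‖w‖ ^ 3 ≤ ((a + β) * (x + x ^ 2)) ^ 3 := pow_le_pow_left₀ (norm_nonneg _) h4 3
      _ = (a + β) ^ 3 * (x + x ^ 2) ^ 3 := by ring
      _ ≤ (a + β) ^ 3 * (4 * (x ^ 3 + x ^ 6)) := by
          apply mul_le_mul_of_nonneg_left _ (by positivity)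
          have : 0 ≤ x ^ 3 * (x - 1) ^ 2 * (x + 1) := by positivity
          nlinarith [this, pow_nonneg hx0 3]
      _ = _ := by ring
  have h5 : ‖Complex.exp w - (1 + w + w ^ 2 / 2)‖
      ≤ 4 * (a + β) ^ 3 * (x ^ 3 + x ^ 6) * Real.exp (3 * x + x ^ 2 / 8) := by
    refine h3.trans ?_
    exact mul_le_mul hw3 hE2 (Real.exp_pos _).le (by positivity)
  have h6 : ‖(1 + w + w ^ 2 / 2) - (1 + A * u + A ^ 2 / 2 * u ^ 2)‖
      ≤ β * x ^ 2 + a * β * x ^ 3 + β ^ 2 * x ^ 4 := by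
    have e : (1 + w + w ^ 2 / 2) - (1 + A * u + A ^ 2 / 2 * u ^ 2)
        = (w - A * u) + (A * u) * (w - A * u) + (w - A * u) ^ 2 / 2 := by ring
    rw [e]
    calc _ ≤ ‖w - A * u‖ + ‖(A * u) * (w - A * u)‖ + ‖(w - A * u) ^ 2 / 2‖ := norm_add₃_le
      _ ≤ β * x ^ 2 + (a * x) * (β * x ^ 2) + (β * x ^ 2) ^ 2 := by
          have h7 : ‖(A * u) * (w - A * u)‖ ≤ (a * x) * (β * x ^ 2) := by
            rw [norm_mul]
            exact mul_le_mul hAu hρ (norm_nonneg _) (by positivity)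
          have h8 : ‖(w - A * u) ^ 2 / 2‖ ≤ (β * x ^ 2) ^ 2 := by
            rw [norm_div, norm_pow]
            have : ‖(2 : ℂ)‖ = 2 := by simp
            rw [this]
            have h9 : ‖w - A * u‖ ^ 2 ≤ (β * x ^ 2) ^ 2 :=
              pow_le_pow_left₀ (norm_nonneg _) hρ 2
            have h10 : 0 ≤ (β * x ^ 2) ^ 2 := by positivity
            linarith
          linarith
      _ = _ := by ring
  calc ‖Complex.exp w - (1 + A * u + A ^ 2 / 2 * u ^ 2)‖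
      = ‖(Complex.exp w - (1 + w + w ^ 2 / 2))
          + ((1 + w + w ^ 2 / 2) - (1 + A * u + A ^ 2 / 2 * u ^ 2))‖ := by congr 1; ring
    _ ≤ _ := norm_add_le _ _
    _ ≤ 4 * (a + β) ^ 3 * (x ^ 3 + x ^ 6) * Real.exp (3 * x + x ^ 2 / 8)
        + (β * x ^ 2 + a * β * x ^ 3 + β ^ 2 * x ^ 4) * Real.exp (3 * x + x ^ 2 / 8) := by
        apply add_le_add h5
        refine h6.trans ?_
        have : 0 ≤ β * x ^ 2 + a * β * x ^ 3 + β ^ 2 * x ^ 4 := by positivity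
        nlinarith
    _ = _ := by ring

/-! ### moments over the inner points -/

lemma kpj_eq (n d j : ℕ) (k : Fin (2 * n)) (hq : qq n d k ≠ 0) (hj : j ≤ n - 1) :
    kpj n d j k = kap n d k * uu n d k ^ j := by
  unfold kap kpj uu
  have e : qq n d k ^ (n - 1 - 0) = qq n d k ^ (n - 1 - j) * qq n d k ^ j := by
    rw [← pow_add]; congr 1; omega
  rw [e, div_pow, pow_zero, mul_one]
  field_simp

lemma inner_moment (hMrec : Stmt_Mrec) (n d j : ℕ) (ε : ℝ) (h1 : 1 ≤ d) (h2 : 2 * d ≤ n - 1)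
    (hj : j ≤ n - 1) (hq : ∀ k ∈ inn n d ε, qq n d k ≠ 0) (δ : ℝ)
    (ht : ∑ k ∈ outt n d ε, ‖kpj n d j k‖ ≤ δ) :
    ‖∑ k ∈ inn n d ε, kap n d k * uu n d k ^ j - ((mm n (tt n d) j : ℝ) : ℂ)‖ ≤ δ := by
  have e1 : ∑ k ∈ inn n d ε, kap n d k * uu n d k ^ j = ∑ k ∈ inn n d ε, kpj n d j k :=
    Finset.sum_congr rfl fun k hk => (kpj_eq n d j k (hq k hk) hj).symm
  have e2 : ∑ k ∈ inn n d ε, kpj n d j k + ∑ k ∈ outt n d ε, kpj n d j k = ∑ k, kpj n d j k := by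
    have : outt n d ε = univ.filter
        (fun k => ¬ (2 * Lam n d * ss n k ≤ (n : ℝ) ^ (-1 + 2 * ε))) := by
      unfold outt
      apply Finset.filter_congr
      intro k _
      rw [not_le]
    rw [this]
    unfold inn
    exact Finset.sum_filter_add_sum_filter_not _ _ _
  rw [e1, ← hMrec n d h1 h2 j hj, ← e2]
  have : ∑ k ∈ inn n d ε, kpj n d j k
      - (∑ k ∈ inn n d ε, kpj n d j k + ∑ k ∈ outt n d ε, kpj n d j k)
      = -∑ k ∈ outt n d ε, kpj n d j k := by ring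
  rw [this, norm_neg]
  exact (norm_sum_le _ _).trans ht

/-- eventually `3 n² exp (-n^ε) ≤ 1` -/
lemma tiny (ε : ℝ) (hε : 0 < ε) : ∃ n₀ : ℕ, ∀ n : ℕ, n₀ ≤ n →
    3 * (n : ℝ) ^ 2 * Real.exp (-(n : ℝ) ^ ε) ≤ 1 := by
  have h := tendsto_rpow_mul_exp_neg_mul_atTop_nhds_zero (2 / ε) 1 one_pos
  have h2 := h.comp ((tendsto_rpow_atTop hε).comp tendsto_natCast_atTop_atTop)
  have h3 := h2.eventually (gt_mem_nhds (show (0 : ℝ) < 1 / 3 by norm_num))
  obtain ⟨n₀, hn₀⟩ := Filter.eventually_atTop.1 h3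
  refine ⟨n₀, fun n hn => ?_⟩
  have h4 := hn₀ n hn
  simp only [Function.comp] at h4
  rw [← Real.rpow_mul (Nat.cast_nonneg n), mul_div_cancel₀ _ hε.ne'] at h4
  rw [show (2 : ℝ) = ((2 : ℕ) : ℝ) by norm_num, Real.rpow_natCast] at h4
  rw [neg_one_mul] at h4
  linarith

/-- the main quadratic term -/
lemma quad (n g1 L : ℝ) (Z : ℂ) (hn : 4 ≤ n) (hg : g1 ^ 2 ≤ n) (hZ : ‖Z‖ ≤ L) :
    ‖(1 : ℂ) + ((g1 : ℂ) + Z) ^ 2 / 2 * ((-1 / (n - 2) : ℝ) : ℂ)‖ ≤ 1 + (2 * |g1| * L + L ^ 2) / n := by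
  have hL : 0 ≤ L := (norm_nonneg _).trans hZ
  have h2 : 0 < n - 2 := by linarith
  have e : (1 : ℂ) + ((g1 : ℂ) + Z) ^ 2 / 2 * ((-1 / (n - 2) : ℝ) : ℂ)
      = ((1 - g1 ^ 2 / (2 * (n - 2)) : ℝ) : ℂ)
        + (-((1 / (2 * (n - 2)) : ℝ) : ℂ)) * (2 * (g1 : ℂ) * Z + Z ^ 2) := by
    have h3 : ((n : ℂ) - 2) ≠ 0 := by
      have : ((n - 2 : ℝ) : ℂ) ≠ 0 := by
        rw [Ne, Complex.ofReal_eq_zero]; exact h2.ne'
      rwa [Complex.ofReal_sub, Complex.ofReal_ofNat] at this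
    push_cast
    field_simp
    ring
  rw [e]
  have h3 : ‖((1 - g1 ^ 2 / (2 * (n - 2)) : ℝ) : ℂ)‖ ≤ 1 := by
    rw [Complex.norm_real, Real.norm_eq_abs, abs_le]
    have h4 : g1 ^ 2 / (2 * (n - 2)) ≤ 1 := by
      rw [div_le_one (by linarith)]
      linarith
    have h5 : 0 ≤ g1 ^ 2 / (2 * (n - 2)) := by positivity
    constructor <;> linarith
  have h4 : ‖(-((1 / (2 * (n - 2)) : ℝ) : ℂ)) * (2 * (g1 : ℂ) * Z + Z ^ 2)‖
      ≤ (2 * |g1| * L + L ^ 2) / n := by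
    rw [norm_mul, norm_neg, Complex.norm_real, Real.norm_of_nonneg (by positivity)]
    have h5 : ‖2 * (g1 : ℂ) * Z + Z ^ 2‖ ≤ 2 * |g1| * L + L ^ 2 := by
      calc _ ≤ ‖2 * (g1 : ℂ) * Z‖ + ‖Z ^ 2‖ := norm_add_le _ _
        _ ≤ 2 * |g1| * L + L ^ 2 := by
          rw [norm_mul, norm_mul, norm_pow, Complex.norm_real, Real.norm_eq_abs]
          have : ‖(2 : ℂ)‖ = 2 := by simp
          rw [this]
          gcongr
    have h6 : 1 / (2 * (n - 2)) ≤ 1 / n := by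
      apply one_div_le_one_div_of_le (by linarith)
      linarith
    calc _ ≤ 1 / n * (2 * |g1| * L + L ^ 2) := by
          apply mul_le_mul h6 h5 (norm_nonneg _) (by positivity)
      _ = _ := by ring
  calc _ ≤ _ := norm_add_le _ _
    _ ≤ _ := by linarith

/-- final arithmetic -/
lemma arith (n r g1 L S1 Q K Cm η a β : ℝ) (hr : 0 < r) (hrn : r ^ 2 = n) (hL : 0 ≤ L)
    (hS1 : 0 ≤ S1) (hK : 0 ≤ K) (hCm : 1 ≤ Cm) (hη : η = 1 / (2048 * Cm))
    (haη : a ≤ 2 * η) (ha : a * r = |g1| + L) (hβ : β * n = K + S1 + L) (hβ0 : 0 ≤ β)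
    (hβ1 : β ≤ 1) (hg1 : g1 ^ 2 ≤ Q)
    (hCS : ∀ c : ℝ, 0 ≤ c → c * S1 ≤ Q / 16 + 4 * c ^ 2 * K) :
    n * (Cm * (β + a * β + β ^ 2 + 8 * (a + β) ^ 3)) + 2 * |g1| * L + L ^ 2 + 1
      ≤ (20 + 35 * Cm * K + 4 * (35 * Cm) ^ 2 * K + (35 * Cm) ^ 2) * (1 + L ^ 2) + Q / 4 := by
  have hn : 0 < n := by rw [← hrn]; positivity
  have ha0 : 0 ≤ a := by
    by_contra h
    push Not at h
    have h1 : a * r < 0 := mul_neg_of_neg_of_pos h hr
    have h2 := abs_nonneg g1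
    linarith
  have hη0 : 0 < η := by rw [hη]; positivity
  have hη1 : 2 * η ≤ 1 := by
    rw [hη]
    rw [mul_one_div, div_le_one (by positivity)]
    linarith
  set B : ℝ := K + S1 + L with hB
  have hB0 : 0 ≤ B := by positivity
  set p : ℝ := |g1| + L with hp
  have hp0 : 0 ≤ p := by positivity
  have hnp : n * a ^ 2 = p ^ 2 := by rw [← hrn, ← ha]; ring
  have e1 : n * (β + a * β + β ^ 2) ≤ 3 * B := by
    have : n * (β + a * β + β ^ 2) = (1 + a + β) * (β * n) := by ring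
    rw [this, hβ]
    have : 1 + a + β ≤ 3 := by linarith
    exact mul_le_mul_of_nonneg_right this hB0
  have e2 : n * (8 * (a + β) ^ 3) ≤ 64 * η * p ^ 2 + 32 * B := by
    have h1 : (a + β) ^ 3 ≤ 4 * (a ^ 3 + β ^ 3) := by
      have : 0 ≤ (a + β) * (a - β) ^ 2 := by positivity
      nlinarith
    have h2 : n * a ^ 3 ≤ 2 * η * p ^ 2 := by
      have : n * a ^ 3 = a * (n * a ^ 2) := by ring
      rw [this, hnp]
      exact mul_le_mul_of_nonneg_right haη (by positivity)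
    have h3 : n * β ^ 3 ≤ B := by
      have : n * β ^ 3 = β ^ 2 * (β * n) := by ring
      rw [this, hβ]
      have : β ^ 2 ≤ 1 := by nlinarith
      nlinarith
    have h4 : n * (8 * (a + β) ^ 3) ≤ n * (8 * (4 * (a ^ 3 + β ^ 3))) := by
      apply mul_le_mul_of_nonneg_left _ hn.le
      linarith
    nlinarith
  have e3 : p ^ 2 ≤ 2 * (g1 ^ 2 + L ^ 2) := by
    have : 0 ≤ (|g1| - L) ^ 2 := sq_nonneg _
    have h2 : |g1| ^ 2 = g1 ^ 2 := sq_abs g1
    rw [hp]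
    nlinarith
  have e4 : Cm * (64 * η * p ^ 2) ≤ (g1 ^ 2 + L ^ 2) / 16 := by
    have h1 : Cm * (64 * η * p ^ 2) = (Cm * η) * 64 * p ^ 2 := by ring
    have h2 : Cm * η = 1 / 2048 := by
      rw [hη]; field_simp
    rw [h1, h2]
    linarith
  have e5 : n * (Cm * (β + a * β + β ^ 2 + 8 * (a + β) ^ 3))
      ≤ 35 * Cm * B + (g1 ^ 2 + L ^ 2) / 16 := by
    have h1 : n * (Cm * (β + a * β + β ^ 2 + 8 * (a + β) ^ 3))
        = Cm * (n * (β + a * β + β ^ 2) + n * (8 * (a + β) ^ 3)) := by ring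
    rw [h1]
    calc _ ≤ Cm * (3 * B + (64 * η * p ^ 2 + 32 * B)) := by
          apply mul_le_mul_of_nonneg_left _ (by linarith)
          linarith
      _ = 35 * Cm * B + Cm * (64 * η * p ^ 2) := by ring
      _ ≤ _ := by linarith
  have e6 : 2 * |g1| * L ≤ g1 ^ 2 / 16 + 16 * L ^ 2 := by
    have h2 : |g1| ^ 2 = g1 ^ 2 := sq_abs g1
    have : 0 ≤ (|g1| / 4 - 4 * L) ^ 2 := sq_nonneg _
    nlinarith
  have e7 := hCS (35 * Cm) (by positivity)
  have e8 : 35 * Cm * L ≤ L ^ 2 + (35 * Cm) ^ 2 := by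
    have h1 := two_mul_le_add_sq (35 * Cm) L
    have h2 : 0 ≤ 35 * Cm * L := by positivity
    linarith
  have e9 : 35 * Cm * B = 35 * Cm * K + 35 * Cm * S1 + 35 * Cm * L := by rw [hB]; ring
  have hL2 : 0 ≤ L ^ 2 := by positivity
  have e11 : 0 ≤ (35 * Cm * K + 4 * (35 * Cm) ^ 2 * K + (35 * Cm) ^ 2) * L ^ 2 := by positivity
  have e12 : (20 + 35 * Cm * K + 4 * (35 * Cm) ^ 2 * K + (35 * Cm) ^ 2) * (1 + L ^ 2) + Q / 4
      = 20 + 20 * L ^ 2 + 35 * Cm * K + 4 * (35 * Cm) ^ 2 * K + (35 * Cm) ^ 2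
        + (35 * Cm * K + 4 * (35 * Cm) ^ 2 * K + (35 * Cm) ^ 2) * L ^ 2 + Q / 4 := by ring
  rw [e12]
  have hQ0 : 0 ≤ Q := (sq_nonneg g1).trans hg1
  linarith

lemma cauchy (K : ℕ) (g : Fin K → ℝ) (c : ℝ) (_hc : 0 ≤ c) :
    c * (∑ i, |g i|) ≤ sqn g / 16 + 4 * c ^ 2 * K := by
  unfold sqn
  rw [Finset.mul_sum, Finset.sum_div]
  have : (4 * c ^ 2 * K : ℝ) = ∑ _i : Fin K, 4 * c ^ 2 := by
    rw [Finset.sum_const, Finset.card_univ, Fintype.card_fin, nsmul_eq_mul]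
    ring
  rw [this, ← Finset.sum_add_distrib]
  apply Finset.sum_le_sum
  intro i _
  have h2 : |g i| ^ 2 = g i ^ 2 := sq_abs (g i)
  nlinarith [sq_nonneg (|g i| / 4 - 2 * c)]

end Phi1

open Phi1 in
theorem phi1_proof (hInb : Stmt_Inb) (hMomb : Stmt_Momb) (hMrec : Stmt_Mrec) (hTail : Stmt_Tail) :
    Stmt_Phi1 := by
  intro σ M W K ε ε2 hP
  have hε : 0 < ε := hP.e0
  have hε8 : 8 * ε ≤ 1 := hP.e1.trans hP.s1
  have hK2 : 1 ≤ K := by rw [hP.hK]; omega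
  choose Cp np hp using fun p : ℕ => hMomb ε p hε hε8
  obtain ⟨n1, hn1⟩ := hInb σ M W K ε ε2 hP
  obtain ⟨n2, hn2⟩ := hTail ε 2 hε
  obtain ⟨n3, hn3⟩ := tiny ε hε
  set Cm : ℝ := 1 + ∑ p ∈ range 7, |Cp p| with hCm
  have hCm1 : 1 ≤ Cm := by
    have : 0 ≤ ∑ p ∈ range 7, |Cp p| := Finset.sum_nonneg fun p _ => abs_nonneg _
    linarith
  have hCmp : ∀ p ∈ range 7, Cp p ≤ Cm := by
    intro p hp7
    have h1 : |Cp p| ≤ ∑ p ∈ range 7, |Cp p| :=
      Finset.single_le_sum (f := fun p => |Cp p|) (fun p _ => abs_nonneg _) hp7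
    have h2 := le_abs_self (Cp p)
    linarith
  set η : ℝ := 1 / (2048 * Cm) with hη
  have hη0 : 0 < η := by positivity
  have hη1 : 2 * η ≤ 1 := by
    rw [hη, mul_one_div, div_le_one (by positivity)]
    linarith
  set C : ℝ := 20 + 35 * Cm * K + 4 * (35 * Cm) ^ 2 * K + (35 * Cm) ^ 2 with hC
  have hC1 : Cm ≤ C := by
    rw [hC]
    have h1 : 0 ≤ 35 * Cm * K + 4 * (35 * Cm) ^ 2 * K := by positivity
    nlinarith
  refine ⟨η, C, n1 + n2 + n3 + (∑ p ∈ range 7, np p) + 256 * (K + 1) ^ 2 + 64, hη0, by linarith,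
    by linarith, ?_⟩
  intro n d hn hD g hg τ _ z hz hL
  obtain ⟨hd1, hd2, _, _⟩ := hD
  have hnp : ∀ p ∈ range 7, np p ≤ n := by
    intro p hp7
    have h1 : np p ≤ ∑ p ∈ range 7, np p :=
      Finset.single_le_sum (f := fun p => np p) (fun p _ => Nat.zero_le _) hp7
    omega
  have hn64 : 64 ≤ n := by omega
  have hnR : (64 : ℝ) ≤ n := by exact_mod_cast hn64
  have hn0 : (0 : ℝ) < n := by linarith
  set r : ℝ := Real.sqrt n with hr
  have hr0 : 0 < r := Real.sqrt_pos.2 hn0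
  have hr2 : r ^ 2 = n := Real.sq_sqrt hn0.le
  have hrK : 16 * ((K : ℝ) + 1) ≤ r := by
    rw [hr]
    apply Real.le_sqrt_of_sq_le
    have : 256 * (K + 1) ^ 2 ≤ n := by omega
    have : (256 : ℝ) * (K + 1) ^ 2 ≤ n := by exact_mod_cast this
    nlinarith
  set L : ℝ := ∑ j, ‖z j‖ with hLdef
  have hL0 : 0 ≤ L := Finset.sum_nonneg fun j _ => norm_nonneg _
  set S1 : ℝ := ∑ i, |g i| with hS1
  have hS10 : 0 ≤ S1 := Finset.sum_nonneg fun j _ => abs_nonneg _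
  set g1 : ℝ := g ⟨0, hK2⟩ with hg1
  set Z1 : ℂ := ∑ j, z j with hZ1
  have hZL : ‖Z1‖ ≤ L := norm_sum_le _ _
  have hg1b : |g1| ≤ η * r := hg _
  set a : ℝ := (|g1| + L) / r with ha
  set β : ℝ := ((K : ℝ) + S1 + L) / n with hβ
  have har : a * r = |g1| + L := by rw [ha]; field_simp
  have hβn : β * n = (K : ℝ) + S1 + L := by rw [hβ]; field_simp
  have ha0 : 0 ≤ a := by rw [ha]; positivity
  have hβ0 : 0 ≤ β := by rw [hβ]; positivity
  have ha2 : a ≤ 2 * η := by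
    rw [ha, div_le_iff₀ hr0]
    linarith
  have ha1 : a ≤ 1 := by linarith
  have hβ1 : β ≤ 1 / 8 := by
    rw [hβ, div_le_iff₀ hn0]
    have h1 : S1 ≤ K * r := by
      calc S1 ≤ ∑ _i : Fin K, η * r := Finset.sum_le_sum fun i _ => hg i
        _ = K * (η * r) := by rw [Finset.sum_const, Finset.card_univ, Fintype.card_fin, nsmul_eq_mul]
        _ ≤ K * r := by
            apply mul_le_mul_of_nonneg_left _ (Nat.cast_nonneg K)
            nlinarith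
    have h2 : L ≤ r := by nlinarith
    have hK0 : (0 : ℝ) ≤ K := Nat.cast_nonneg K
    nlinarith
  -- the logarithms
  have hin : ∀ k ∈ inn n d ε, qq n d k ≠ 0 ∧ ‖uu n d k‖ ≤ 1 / 2 := by
    intro k hk
    obtain ⟨h1, h2, _⟩ := hn1 n d (by omega) ⟨hd1, hd2, by assumption, by assumption⟩ k hk
    refine ⟨h1, ?_⟩
    have h3 : (n : ℝ) ^ (-1 + 2 * ε) ≤ (n : ℝ) ^ (-(1 / 2) : ℝ) := by
      apply Real.rpow_le_rpow_of_exponent_le (by linarith)
      linarith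
    have h4 : (n : ℝ) ^ (-(1 / 2) : ℝ) ≤ 1 / 8 := by
      rw [Real.rpow_neg hn0.le, ← Real.sqrt_eq_rpow, ← hr]
      rw [← one_div]
      apply one_div_le_one_div_of_le (by norm_num)
      have hK0 : (0 : ℝ) ≤ K := Nat.cast_nonneg K
      linarith
    have h5 : ‖uu n d k‖ ^ 2 ≤ (1 / 2) ^ 2 := by linarith
    exact le_of_sq_le_sq h5 (by norm_num)
  have hw : ∀ k : Fin (2 * n), ∃ w : ℂ, k ∈ inn n d ε →
      fg K g (uu n d k) * sf z (uu n d k) = Complex.exp w ∧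
      ‖w - ((g1 : ℂ) + Z1) * uu n d k‖ ≤ β * r ^ 2 * ‖uu n d k‖ ^ 2 := by
    intro k
    by_cases hk : k ∈ inn n d ε
    · obtain ⟨w, h1, h2⟩ := logsite K hK2 g z hz (uu n d k) (hin k hk).2
      refine ⟨w, fun _ => ⟨h1, ?_⟩⟩
      rw [hr2, hβn]
      exact h2
    · exact ⟨0, fun h => absurd h hk⟩
  choose w hw using hw
  set A : ℂ := (g1 : ℂ) + Z1 with hA
  have hAb : ‖A‖ ≤ a * r := by
    rw [har]
    calc ‖A‖ ≤ ‖(g1 : ℂ)‖ + ‖Z1‖ := norm_add_le _ _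
      _ ≤ |g1| + L := by
          rw [Complex.norm_real, Real.norm_eq_abs]
          linarith
  have hpt := fun k (hk : k ∈ inn n d ε) =>
    pointwise A (w k) (uu n d k) r a β hr0 ha0 hβ0 ha1 hβ1 hAb (hw k hk).2
  -- moments
  have hmom : ∀ p ∈ range 7, ∑ k ∈ inn n d ε, ‖kap n d k‖ * (r * ‖uu n d k‖) ^ p
      * Real.exp (3 * (r * ‖uu n d k‖) + (r * ‖uu n d k‖) ^ 2 / 8) ≤ Cm := by
    intro p hp7
    refine le_trans (le_of_eq ?_) ((hp p n d (hnp p hp7) hd1 hd2).trans (hCmp p hp7))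
    apply Finset.sum_congr rfl
    intro k _
    rw [mul_pow r _ 2, hr2]
  constructor
  · -- first claim
    have hδ := hn2 n d (by omega) hd1 hd2
    set δ : ℝ := Real.exp (-(n : ℝ) ^ ε) with hδdef
    have hδ0 : 0 < δ := Real.exp_pos _
    have hm := fun j (hj : j ≤ 2) => inner_moment hMrec n d j ε hd1 hd2 (by omega)
      (fun k hk => (hin k hk).1) δ (hδ.1 j hj)
    have hm0 := hm 0 (by norm_num)
    have hm1 := hm 1 (by norm_num)
    have hm2 := hm 2 le_rfl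
    have mm0 : mm n (tt n d) 0 = 1 := by simp [mm]
    have mm1 : mm n (tt n d) 1 = 0 := by simp [mm]
    have mm2 : mm n (tt n d) 2 = -1 / ((n : ℝ) - 2) := by
      simp only [mm]
      push_cast
      ring_nf
    rw [mm0] at hm0
    rw [mm1] at hm1
    rw [mm2] at hm2
    simp only [pow_zero, mul_one, pow_one] at hm0 hm1
    set m0 : ℂ := ∑ k ∈ inn n d ε, kap n d k with hm0d
    set m1 : ℂ := ∑ k ∈ inn n d ε, kap n d k * uu n d k with hm1d
    set m2 : ℂ := ∑ k ∈ inn n d ε, kap n d k * uu n d k ^ 2 with hm2d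
    have hPhis : Phis n d ε K g z = ∑ k ∈ inn n d ε, kap n d k * Complex.exp (w k) := by
      unfold Phis
      apply Finset.sum_congr rfl
      intro k hk
      rw [mul_assoc, (hw k hk).1]
    have hdiff : ‖Phis n d ε K g z - (m0 + A * m1 + A ^ 2 / 2 * m2)‖
        ≤ Cm * (β + a * β + β ^ 2 + 8 * (a + β) ^ 3) := by
      have e : Phis n d ε K g z - (m0 + A * m1 + A ^ 2 / 2 * m2)
          = ∑ k ∈ inn n d ε, kap n d k
            * (Complex.exp (w k) - (1 + A * uu n d k + A ^ 2 / 2 * uu n d k ^ 2)) := by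
        rw [hPhis, hm0d, hm1d, hm2d, Finset.mul_sum, Finset.mul_sum, ← Finset.sum_add_distrib,
          ← Finset.sum_add_distrib, ← Finset.sum_sub_distrib]
        apply Finset.sum_congr rfl
        intro k _
        ring
      rw [e]
      calc _ ≤ ∑ k ∈ inn n d ε, ‖kap n d k
            * (Complex.exp (w k) - (1 + A * uu n d k + A ^ 2 / 2 * uu n d k ^ 2))‖ :=
              norm_sum_le _ _
        _ ≤ ∑ k ∈ inn n d ε,
            (β * (‖kap n d k‖ * (r * ‖uu n d k‖) ^ 2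
                * Real.exp (3 * (r * ‖uu n d k‖) + (r * ‖uu n d k‖) ^ 2 / 8))
              + a * β * (‖kap n d k‖ * (r * ‖uu n d k‖) ^ 3
                * Real.exp (3 * (r * ‖uu n d k‖) + (r * ‖uu n d k‖) ^ 2 / 8))
              + β ^ 2 * (‖kap n d k‖ * (r * ‖uu n d k‖) ^ 4
                * Real.exp (3 * (r * ‖uu n d k‖) + (r * ‖uu n d k‖) ^ 2 / 8))
              + 4 * (a + β) ^ 3 * ((‖kap n d k‖ * (r * ‖uu n d k‖) ^ 3
                * Real.exp (3 * (r * ‖uu n d k‖) + (r * ‖uu n d k‖) ^ 2 / 8))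
                + (‖kap n d k‖ * (r * ‖uu n d k‖) ^ 6
                * Real.exp (3 * (r * ‖uu n d k‖) + (r * ‖uu n d k‖) ^ 2 / 8)))) := by
            apply Finset.sum_le_sum
            intro k hk
            rw [norm_mul]
            refine (mul_le_mul_of_nonneg_left (hpt k hk).2 (norm_nonneg _)).trans (le_of_eq ?_)
            ring
        _ = β * (∑ k ∈ inn n d ε, (‖kap n d k‖ * (r * ‖uu n d k‖) ^ 2
                * Real.exp (3 * (r * ‖uu n d k‖) + (r * ‖uu n d k‖) ^ 2 / 8)))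
              + a * β * (∑ k ∈ inn n d ε, (‖kap n d k‖ * (r * ‖uu n d k‖) ^ 3
                * Real.exp (3 * (r * ‖uu n d k‖) + (r * ‖uu n d k‖) ^ 2 / 8)))
              + β ^ 2 * (∑ k ∈ inn n d ε, (‖kap n d k‖ * (r * ‖uu n d k‖) ^ 4
                * Real.exp (3 * (r * ‖uu n d k‖) + (r * ‖uu n d k‖) ^ 2 / 8)))
              + 4 * (a + β) ^ 3 * ((∑ k ∈ inn n d ε, (‖kap n d k‖ * (r * ‖uu n d k‖) ^ 3
                * Real.exp (3 * (r * ‖uu n d k‖) + (r * ‖uu n d k‖) ^ 2 / 8)))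
                + ∑ k ∈ inn n d ε, (‖kap n d k‖ * (r * ‖uu n d k‖) ^ 6
                * Real.exp (3 * (r * ‖uu n d k‖) + (r * ‖uu n d k‖) ^ 2 / 8))) := by
            simp only [Finset.sum_add_distrib, Finset.mul_sum, mul_add]
        _ ≤ β * Cm + a * β * Cm + β ^ 2 * Cm + 4 * (a + β) ^ 3 * (Cm + Cm) := by
            have h2 := hmom 2 (by simp)
            have h3 := hmom 3 (by simp)
            have h4 := hmom 4 (by simp)
            have h6 := hmom 6 (by simp)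
            gcongr
        _ = _ := by ring
    -- the polynomial part
    have hpoly : ‖m0 + A * m1 + A ^ 2 / 2 * m2‖ ≤ 1 + (2 * |g1| * L + L ^ 2) / n + 1 / n := by
      have e : m0 + A * m1 + A ^ 2 / 2 * m2
          = ((1 : ℂ) + A ^ 2 / 2 * ((-1 / ((n : ℝ) - 2) : ℝ) : ℂ))
            + (m0 - ((1 : ℝ) : ℂ)) + A * (m1 - ((0 : ℝ) : ℂ))
            + A ^ 2 / 2 * (m2 - ((-1 / ((n : ℝ) - 2) : ℝ) : ℂ)) := by
        simp only [Complex.ofReal_one, Complex.ofReal_zero]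
        ring
      rw [e]
      have hg1n : g1 ^ 2 ≤ n := by
        have h1 : |g1| ≤ r := by nlinarith
        have h2 : |g1| ^ 2 ≤ r ^ 2 := pow_le_pow_left₀ (abs_nonneg _) h1 2
        rwa [sq_abs, hr2] at h2
      have h1 := quad n g1 L Z1 (by linarith) hg1n hZL
      have hAr : ‖A‖ ≤ r := by
        calc ‖A‖ ≤ a * r := hAb
          _ ≤ 1 * r := mul_le_mul_of_nonneg_right ha1 hr0.le
          _ = r := one_mul r
      have h2 : ‖A * (m1 - ((0 : ℝ) : ℂ))‖ ≤ r * δ := by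
        rw [norm_mul]
        exact mul_le_mul hAr hm1 (norm_nonneg _) hr0.le
      have h3 : ‖A ^ 2 / 2 * (m2 - ((-1 / ((n : ℝ) - 2) : ℝ) : ℂ))‖ ≤ n * δ := by
        rw [norm_mul, norm_div, norm_pow]
        have h4 : ‖(2 : ℂ)‖ = 2 := by simp
        rw [h4]
        have h5 : ‖A‖ ^ 2 ≤ n := by
          rw [← hr2]; exact pow_le_pow_left₀ (norm_nonneg _) hAr 2
        exact mul_le_mul (by linarith) hm2 (norm_nonneg _) hn0.le
      have h4 : δ + r * δ + n * δ ≤ 1 / n := by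
        rw [le_div_iff₀ hn0]
        have h5 := hn3 n (by omega)
        have h6 : r ≤ n := by
          rw [← hr2]
          have hK0 : (0 : ℝ) ≤ K := Nat.cast_nonneg K
          nlinarith
        have h7 : (δ + r * δ + n * δ) * n ≤ 3 * (n : ℝ) ^ 2 * δ := by
          have h8 : 1 + r + n ≤ 3 * (n : ℝ) := by linarith
          have h9 : 0 ≤ δ * n := by positivity
          calc (δ + r * δ + n * δ) * n = (1 + r + n) * (δ * n) := by ring
            _ ≤ 3 * (n : ℝ) * (δ * n) := mul_le_mul_of_nonneg_right h8 h9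
            _ = _ := by ring
        linarith
      calc _ ≤ ‖((1 : ℂ) + A ^ 2 / 2 * ((-1 / ((n : ℝ) - 2) : ℝ) : ℂ))
            + (m0 - ((1 : ℝ) : ℂ)) + A * (m1 - ((0 : ℝ) : ℂ))‖
            + ‖A ^ 2 / 2 * (m2 - ((-1 / ((n : ℝ) - 2) : ℝ) : ℂ))‖ := norm_add_le _ _
        _ ≤ (‖(1 : ℂ) + A ^ 2 / 2 * ((-1 / ((n : ℝ) - 2) : ℝ) : ℂ)‖
            + ‖m0 - ((1 : ℝ) : ℂ)‖ + ‖A * (m1 - ((0 : ℝ) : ℂ))‖)
            + ‖A ^ 2 / 2 * (m2 - ((-1 / ((n : ℝ) - 2) : ℝ) : ℂ))‖ := by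
              gcongr
              exact norm_add₃_le
        _ ≤ _ := by linarith
    have harith := arith n r g1 L S1 (sqn g) K Cm η a β hr0 hr2 hL0 hS10 (Nat.cast_nonneg K) hCm1
      hη ha2 har hβn hβ0 (by linarith)
      (by
        unfold sqn
        exact Finset.single_le_sum (f := fun i => g i ^ 2) (fun i _ => sq_nonneg _) (mem_univ _))
      (fun c hc => cauchy K g c hc)
    rw [← hC] at harith
    have hfin : ‖Phis n d ε K g z‖ ≤ 1 + (C * (1 + L ^ 2) + sqn g / 4) / n := by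
      have h1 : ‖Phis n d ε K g z‖ ≤ ‖Phis n d ε K g z - (m0 + A * m1 + A ^ 2 / 2 * m2)‖
          + ‖m0 + A * m1 + A ^ 2 / 2 * m2‖ := by
        calc ‖Phis n d ε K g z‖ = ‖(Phis n d ε K g z - (m0 + A * m1 + A ^ 2 / 2 * m2))
              + (m0 + A * m1 + A ^ 2 / 2 * m2)‖ := by congr 1; ring
          _ ≤ _ := norm_add_le _ _
      have h2 : Cm * (β + a * β + β ^ 2 + 8 * (a + β) ^ 3)
          + (1 + (2 * |g1| * L + L ^ 2) / n + 1 / n)
          = 1 + (n * (Cm * (β + a * β + β ^ 2 + 8 * (a + β) ^ 3))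
            + 2 * |g1| * L + L ^ 2 + 1) / n := by
        field_simp
        ring
      calc _ ≤ _ := h1
        _ ≤ Cm * (β + a * β + β ^ 2 + 8 * (a + β) ^ 3)
          + (1 + (2 * |g1| * L + L ^ 2) / n + 1 / n) := add_le_add hdiff hpoly
        _ = _ := h2
        _ ≤ _ := by
            gcongr
    refine hfin.trans ?_
    have := Real.add_one_le_exp ((C * (1 + L ^ 2) + sqn g / 4) / n)
    linarith
  · -- second claim
    have h0 := hmom 0 (by simp)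
    refine le_trans ?_ (h0.trans hC1)
    apply Finset.sum_le_sum
    intro k hk
    rw [mul_assoc, norm_mul, (hw k hk).1, Complex.norm_exp, pow_zero, mul_one]
    apply mul_le_mul_of_nonneg_left _ (norm_nonneg _)
    apply Real.exp_le_exp.2
    exact ((Complex.re_le_norm _).trans (hpt k hk).1)

end Pool.Agent.RGD
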