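import Pool.Agent.RGD.Stmts

/-!
# PHI2: one site integral, all fields
-/

set_option autoImplicit false

namespace Pool.Agent.RGD

open Finset Pool.Agent.RGA MeasureTheory

namespace P2

theorem norm_al_le (i : ℕ) (hi : 1 ≤ i) : ‖al i‖ ≤ 1 := by
  have h : ‖((1 / Real.sqrt i : ℝ) : ℂ)‖ ≤ 1 := by
    rw [Complex.norm_real, Real.norm_eq_abs, abs_of_nonneg (by positivity)]
    rw [div_le_one (Real.sqrt_pos.mpr (by exact_mod_cast hi))]
    rw [Real.one_le_sqrt]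
    exact_mod_cast hi
  unfold al
  split_ifs
  · rw [norm_mul, Complex.norm_I, one_mul]
    exact h
  · exact h

theorem al_one : al 1 = 1 := by
  unfold al
  rw [if_neg (by decide)]
  simp

theorem norm_lgt_le (K : ℕ) (x : ℂ) (hx : ‖x‖ ≤ 1) : ‖lgt K x‖ ≤ K * ‖x‖ := by
  unfold lgt
  calc _ ≤ ∑ i ∈ Icc 1 K, ‖(-1 : ℂ) ^ (i - 1) * x ^ i / i‖ := norm_sum_le _ _
    _ ≤ ∑ i ∈ Icc 1 K, ‖x‖ := by
        apply sum_le_sum
        intro i hi
        rw [mem_Icc] at hi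
        rw [norm_div, norm_mul, norm_pow, norm_neg, norm_one, one_pow, one_mul, norm_pow]
        have : ‖(i : ℂ)‖ = i := Complex.norm_natCast i
        rw [this]
        have h1 : ‖x‖ ^ i ≤ ‖x‖ := by
          calc ‖x‖ ^ i ≤ ‖x‖ ^ 1 := pow_le_pow_of_le_one (norm_nonneg _) hx hi.1
            _ = ‖x‖ := pow_one _
        have h2 : (1 : ℝ) ≤ i := by exact_mod_cast hi.1
        calc ‖x‖ ^ i / i ≤ ‖x‖ ^ i / 1 := by
                apply div_le_div_of_nonneg_left (by positivity) one_pos h2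
          _ ≤ ‖x‖ := by rw [div_one]; exact h1
    _ = K * ‖x‖ := by simp

theorem norm_fg_le (K : ℕ) (g : Fin K → ℝ) (u : ℂ) (hu : ‖u‖ ≤ 1) (A : ℝ) (hA0 : 0 ≤ A)
    (hA1 : |u.re| ≤ A) (hA2 : ‖u‖ ^ 2 ≤ 2 * A) :
    ‖fg K g u‖ ≤ Real.exp (2 * (∑ i, |g i|) * A + K * ‖u‖ ^ 2 / 2) := by
  unfold fg fgG
  rw [Complex.norm_exp]
  apply Real.exp_le_exp.mpr
  rw [Complex.sub_re, Complex.re_sum]
  have hI : ∑ i ∈ Icc 1 K, (Gt K g i * u ^ i).re ≤ 2 * (∑ i, |g i|) * A := by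
    have e : Icc 1 K = Ico 1 (K + 1) := by
      ext i
      simp only [mem_Icc, mem_Ico]
      omega
    rw [e, sum_Ico_eq_sum_range, Nat.add_sub_cancel, sum_range, mul_sum, sum_mul]
    apply sum_le_sum
    intro i _
    have hGt : Gt K g (1 + i) = al (1 + i) * (g i : ℂ) := by
      unfold Gt
      rw [dif_pos ⟨by omega, by omega⟩]
      congr 3
      apply Fin.ext
      simp
    rw [hGt]
    rcases Nat.eq_zero_or_pos (i : ℕ) with h0 | h0
    · rw [h0, add_zero, al_one, one_mul, pow_one, Complex.re_ofReal_mul]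
      calc g i * u.re ≤ |g i * u.re| := le_abs_self _
        _ = |g i| * |u.re| := abs_mul _ _
        _ ≤ |g i| * A := mul_le_mul_of_nonneg_left hA1 (abs_nonneg _)
        _ ≤ 2 * |g i| * A := by nlinarith [mul_nonneg (abs_nonneg (g i)) hA0]
    · calc (al (1 + i) * (g i : ℂ) * u ^ (1 + (i : ℕ))).re
          ≤ ‖al (1 + i) * (g i : ℂ) * u ^ (1 + (i : ℕ))‖ := Complex.re_le_norm _
        _ = ‖al (1 + i)‖ * |g i| * ‖u‖ ^ (1 + (i : ℕ)) := by
            rw [norm_mul, norm_mul, norm_pow, Complex.norm_real, Real.norm_eq_abs]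
        _ ≤ 1 * |g i| * ‖u‖ ^ 2 := by
            apply mul_le_mul
            · exact mul_le_mul_of_nonneg_right (norm_al_le _ (by omega)) (abs_nonneg _)
            · exact pow_le_pow_of_le_one (norm_nonneg _) hu (by omega)
            · positivity
            · positivity
        _ ≤ 1 * |g i| * (2 * A) := mul_le_mul_of_nonneg_left hA2 (by positivity)
        _ = 2 * |g i| * A := by ring
  have hL : -(lgt K (u ^ 2) / 2).re ≤ K * ‖u‖ ^ 2 / 2 := by
    have h1 : ‖u ^ 2‖ ≤ 1 := by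
      rw [norm_pow]
      exact pow_le_one₀ (norm_nonneg _) hu
    have h2 := norm_lgt_le K (u ^ 2) h1
    rw [norm_pow] at h2
    have h3 : -(lgt K (u ^ 2) / 2).re ≤ ‖lgt K (u ^ 2) / 2‖ := by
      have := Complex.abs_re_le_norm (lgt K (u ^ 2) / 2)
      exact le_trans (neg_le_abs _) this
    rw [norm_div] at h3
    have h4 : ‖(2 : ℂ)‖ = 2 := by simp
    rw [h4] at h3
    linarith
  linarith

theorem norm_sf_le {τ : Type} [Fintype τ] (z : τ → ℂ) (u : ℂ) :
    ‖sf z u‖ ≤ Real.exp ((∑ j, ‖z j‖) * ‖u‖) := by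
  unfold sf
  rw [norm_prod, sum_mul, Real.exp_sum]
  apply prod_le_prod
  · intro i _
    exact norm_nonneg _
  · intro i _
    calc ‖1 + z i * u‖ ≤ ‖(1 : ℂ)‖ + ‖z i * u‖ := norm_add_le _ _
      _ = ‖z i‖ * ‖u‖ + 1 := by rw [norm_one, norm_mul]; ring
      _ ≤ Real.exp (‖z i‖ * ‖u‖) := Real.add_one_le_exp _

/-- `e^{η x} ≤ 1 + η x e^x` -/
theorem exp_le (η x : ℝ) (h0 : 0 ≤ η) (h1 : η ≤ 1) (hx : 0 ≤ x) :
    Real.exp (η * x) ≤ 1 + η * (x * Real.exp x) := by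
  have h2 : 0 ≤ η * x := mul_nonneg h0 hx
  have h3 : η * x ≤ x := by nlinarith
  have h4 : Real.exp (η * x) ≤ 1 + (η * x) * Real.exp (η * x) := by
    have := Real.add_one_le_exp (-(η * x))
    have h5 := Real.exp_pos (η * x)
    have h6 : Real.exp (-(η * x)) * Real.exp (η * x) = 1 := by
      rw [← Real.exp_add]; simp
    nlinarith
  have h5 : Real.exp (η * x) ≤ Real.exp x := Real.exp_le_exp.mpr h3
  nlinarith

end P2

open P2 in
theorem phi2_proof (hInb : Stmt_Inb) (hTv : Stmt_Tv) (hMomb : Stmt_Momb) : Stmt_Phi2 := by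
  intro σ M W K ε ε2 hP
  obtain ⟨n1, hn1⟩ := hInb σ M W K ε ε2 hP
  obtain ⟨CT, n2, hn2⟩ := hTv σ ε hP.s0 hP.e0 (by linarith [hP.e1, hP.e0])
  obtain ⟨CM, n3, hn3⟩ := hMomb ε 1 hP.e0 (by linarith [hP.e1, hP.s1])
  refine ⟨|CT| + |CM| + K, max (max n1 n2) (max n3 4), by positivity, ?_⟩
  intro n d hn hD g η hη0 hη1 τ _ z hz
  have hN1 : n1 ≤ n := le_trans (le_trans (le_max_left _ _) (le_max_left _ _)) hn
  have hN2 : n2 ≤ n := le_trans (le_trans (le_max_right _ _) (le_max_left _ _)) hn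
  have hN3 : n3 ≤ n := le_trans (le_trans (le_max_left _ _) (le_max_right _ _)) hn
  have hN4 : 4 ≤ n := le_trans (le_trans (le_max_right _ _) (le_max_right _ _)) hn
  have hn4 : (4 : ℝ) ≤ n := by exact_mod_cast hN4
  have hn1' : (1 : ℝ) ≤ n := by linarith
  have hnp : (0 : ℝ) < n := by linarith
  have hI := hn1 n d hN1 hD
  have hT := hn2 n d hN2 hD
  have hM := hn3 n d hN3 hD.1 hD.2.1
  set A : ℝ := (n : ℝ) ^ (-(1 / 2) - σ / 4) with hA
  set B : ℝ := (n : ℝ) ^ (-(σ / 4)) with hB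
  have hA0 : 0 ≤ A := by positivity
  have hB0 : 0 ≤ B := by positivity
  have hs0 := hP.s0
  have hs1 := hP.s1
  have he0 := hP.e0
  have he1 := hP.e1
  have hX1 : (n : ℝ) ^ (-1 + 2 * ε) ≤ A := Real.rpow_le_rpow_of_exponent_le hn1' (by linarith)
  have hX2 : (n : ℝ) ^ (-1 + 2 * ε) ≤ B := Real.rpow_le_rpow_of_exponent_le hn1' (by linarith)
  have hX3 : (n : ℝ) ^ (-1 + 2 * ε) ≤ 1 / 2 := by
    calc (n : ℝ) ^ (-1 + 2 * ε) ≤ (n : ℝ) ^ (-(1 / 2) : ℝ) :=
          Real.rpow_le_rpow_of_exponent_le hn1' (by linarith)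
      _ ≤ (4 : ℝ) ^ (-(1 / 2) : ℝ) :=
          Real.rpow_le_rpow_of_nonpos (by norm_num) hn4 (by norm_num)
      _ = 1 / 2 := by
          rw [Real.rpow_neg (by norm_num), ← Real.sqrt_eq_rpow]
          rw [show (4 : ℝ) = 2 ^ 2 by norm_num, Real.sqrt_sq (by norm_num)]
          norm_num
  have hy : B ^ 4 ≤ 1 := by
    apply pow_le_one₀ hB0
    exact Real.rpow_le_one_of_one_le_of_nonpos hn1' (by linarith)
  have hyy : 1 / yy n d ≤ B := by
    have h1 : (n : ℝ) ^ σ ≤ yy n d := hD.2.2.2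
    have h2 : 0 < (n : ℝ) ^ σ := by positivity
    calc 1 / yy n d ≤ 1 / (n : ℝ) ^ σ := one_div_le_one_div_of_le h2 h1
      _ = (n : ℝ) ^ (-σ) := by rw [Real.rpow_neg hnp.le, one_div]
      _ ≤ B := Real.rpow_le_rpow_of_exponent_le hn1' (by linarith)
  have hyp : 0 < yy n d := lt_of_lt_of_le (by positivity) hD.2.2.2
  -- pointwise bound
  have key : ∀ k ∈ inn n d ε, ‖kap n d k * fg K g (uu n d k) * sf z (uu n d k)‖
      ≤ Real.exp (2 * (∑ i, |g i|) * A + K * B) *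
        (‖kap n d k‖ + η * (‖kap n d k‖ * (Real.sqrt n * ‖uu n d k‖) ^ 1
          * Real.exp (3 * (Real.sqrt n * ‖uu n d k‖) + (n : ℝ) * ‖uu n d k‖ ^ 2 / 8))) := by
    intro k hk
    obtain ⟨-, hu2, -, hre, -⟩ := hI k hk
    have hu2' : ‖uu n d k‖ ^ 2 ≤ 1 := by linarith
    have hu1 : ‖uu n d k‖ ≤ 1 := by
      nlinarith [norm_nonneg (uu n d k)]
    have hf := norm_fg_le K g (uu n d k) hu1 A hA0 hre (by linarith)
    have hf' : ‖fg K g (uu n d k)‖ ≤ Real.exp (2 * (∑ i, |g i|) * A + K * B) := by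
      refine le_trans hf (Real.exp_le_exp.mpr ?_)
      have : (K : ℝ) * ‖uu n d k‖ ^ 2 / 2 ≤ K * B := by
        have h1 : ‖uu n d k‖ ^ 2 / 2 ≤ B := by linarith
        have h2 : (0 : ℝ) ≤ K := Nat.cast_nonneg _
        calc (K : ℝ) * ‖uu n d k‖ ^ 2 / 2 = K * (‖uu n d k‖ ^ 2 / 2) := by ring
          _ ≤ K * B := mul_le_mul_of_nonneg_left h1 h2
      linarith
    set x : ℝ := Real.sqrt n * ‖uu n d k‖ with hx
    have hx0 : 0 ≤ x := by positivity
    have hs : ‖sf z (uu n d k)‖ ≤ 1 + η * (x * Real.exp (3 * x + (n : ℝ) * ‖uu n d k‖ ^ 2 / 8)) := by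
      calc ‖sf z (uu n d k)‖ ≤ Real.exp ((∑ j, ‖z j‖) * ‖uu n d k‖) := norm_sf_le _ _
        _ ≤ Real.exp (η * x) := by
            apply Real.exp_le_exp.mpr
            calc (∑ j, ‖z j‖) * ‖uu n d k‖ ≤ (η * Real.sqrt n) * ‖uu n d k‖ :=
                  mul_le_mul_of_nonneg_right hz (norm_nonneg _)
              _ = η * x := by rw [hx]; ring
        _ ≤ 1 + η * (x * Real.exp x) := exp_le η x hη0 hη1 hx0
        _ ≤ 1 + η * (x * Real.exp (3 * x + (n : ℝ) * ‖uu n d k‖ ^ 2 / 8)) := by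
            have h1 : Real.exp x ≤ Real.exp (3 * x + (n : ℝ) * ‖uu n d k‖ ^ 2 / 8) := by
              apply Real.exp_le_exp.mpr
              have : 0 ≤ (n : ℝ) * ‖uu n d k‖ ^ 2 / 8 := by positivity
              linarith
            have h2 := mul_le_mul_of_nonneg_left h1 hx0
            have h3 := mul_le_mul_of_nonneg_left h2 hη0
            linarith
    rw [norm_mul, norm_mul]
    calc ‖kap n d k‖ * ‖fg K g (uu n d k)‖ * ‖sf z (uu n d k)‖
        ≤ ‖kap n d k‖ * Real.exp (2 * (∑ i, |g i|) * A + K * B) *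
          (1 + η * (x * Real.exp (3 * x + (n : ℝ) * ‖uu n d k‖ ^ 2 / 8))) := by
          apply mul_le_mul
          · exact mul_le_mul_of_nonneg_left hf' (norm_nonneg _)
          · exact hs
          · exact norm_nonneg _
          · positivity
      _ = _ := by rw [pow_one]; ring
  calc ∑ k ∈ inn n d ε, ‖kap n d k * fg K g (uu n d k) * sf z (uu n d k)‖
      ≤ ∑ k ∈ inn n d ε, Real.exp (2 * (∑ i, |g i|) * A + K * B) *
        (‖kap n d k‖ + η * (‖kap n d k‖ * (Real.sqrt n * ‖uu n d k‖) ^ 1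
          * Real.exp (3 * (Real.sqrt n * ‖uu n d k‖) + (n : ℝ) * ‖uu n d k‖ ^ 2 / 8))) :=
        sum_le_sum key
    _ = Real.exp (2 * (∑ i, |g i|) * A + K * B) *
        (∑ k ∈ inn n d ε, ‖kap n d k‖ + η * ∑ k ∈ inn n d ε,
          ‖kap n d k‖ * (Real.sqrt n * ‖uu n d k‖) ^ 1
          * Real.exp (3 * (Real.sqrt n * ‖uu n d k‖) + (n : ℝ) * ‖uu n d k‖ ^ 2 / 8)) := by
        rw [← mul_sum, sum_add_distrib, ← mul_sum]
    _ ≤ Real.exp (2 * (∑ i, |g i|) * A + K * B) *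
        Real.exp ((|CT| + |CM|) * (B + η)) := by
        apply mul_le_mul_of_nonneg_left _ (Real.exp_pos _).le
        have h1 : CT / yy n d ≤ |CT| * B := by
          calc CT / yy n d ≤ |CT| / yy n d := by
                apply div_le_div_of_nonneg_right (le_abs_self _) hyp.le
            _ = |CT| * (1 / yy n d) := by ring
            _ ≤ |CT| * B := mul_le_mul_of_nonneg_left hyy (abs_nonneg _)
        have h2 : η * ∑ k ∈ inn n d ε, ‖kap n d k‖ * (Real.sqrt n * ‖uu n d k‖) ^ 1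
          * Real.exp (3 * (Real.sqrt n * ‖uu n d k‖) + (n : ℝ) * ‖uu n d k‖ ^ 2 / 8)
            ≤ η * |CM| := mul_le_mul_of_nonneg_left (le_trans hM (le_abs_self _)) hη0
        have h3 := Real.add_one_le_exp ((|CT| + |CM|) * (B + η))
        nlinarith [mul_nonneg (abs_nonneg CT) hη0, mul_nonneg (abs_nonneg CM) hB0]
    _ = Real.exp ((2 * (∑ i, |g i|) * A + K * B) + (|CT| + |CM|) * (B + η)) :=
        (Real.exp_add _ _).symm
    _ ≤ _ := by
        apply Real.exp_le_exp.mpr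
        have h1 : (0 : ℝ) ≤ K * η := by positivity
        nlinarith

end Pool.Agent.RGD
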