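import Pool.Agent.RGD.Stmts

/-!
PHIX: expansion of the one site integral `Φ` (MP_3a123b_co).
-/

set_option autoImplicit false

namespace Pool.Agent.RGD

open Finset Pool.Agent.RGA Filter

namespace Phix

lemma norm_Gt_le (K : ℕ) (g : Fin K → ℝ) (A : ℝ) (hA : 0 ≤ A) (hg : ∀ i, |g i| ≤ A) (i : ℕ) :
    ‖Gt K g i‖ ≤ A := by
  unfold Gt
  split_ifs with h
  · have h2 : (1 : ℝ) / Real.sqrt i ≤ 1 := by
      have h3 : (1 : ℝ) ≤ Real.sqrt i := by
        rw [Real.one_le_sqrt]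
        exact_mod_cast h.1
      rw [div_le_one (by linarith)]
      exact h3
    have h4 : (0 : ℝ) ≤ 1 / Real.sqrt i := by positivity
    have h1 : ‖al i‖ ≤ 1 := by
      unfold al
      split_ifs
      · rw [norm_mul, Complex.norm_I, one_mul, Complex.norm_real, Real.norm_of_nonneg h4]
        exact h2
      · rw [Complex.norm_real, Real.norm_of_nonneg h4]
        exact h2
    rw [norm_mul, Complex.norm_real, Real.norm_eq_abs]
    calc _ ≤ 1 * A := mul_le_mul h1 (hg _) (abs_nonneg _) zero_le_one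
      _ = A := one_mul A
  · simpa using hA

lemma kap_mul_pow (n d j : ℕ) (k : Fin (2 * n)) (hq : qq n d k ≠ 0) (hj : j ≤ n - 1) :
    kap n d k * uu n d k ^ j = kpj n d j k := by
  unfold kap kpj uu
  have h1 : qq n d k ^ (n - 1 - 0) = qq n d k ^ (n - 1 - j) * qq n d k ^ j := by
    rw [← pow_add]; congr 1; omega
  rw [h1, div_pow, pow_zero]
  field_simp

lemma sum_inn_add_out (n d : ℕ) (ε : ℝ) (f : Fin (2 * n) → ℂ) :
    ∑ k ∈ inn n d ε, f k + ∑ k ∈ outt n d ε, f k = ∑ k, f k := by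
  have h1 : outt n d ε
      = univ.filter (fun k => ¬ (2 * Lam n d * ss n k ≤ (n : ℝ) ^ (-1 + 2 * ε))) := by
    unfold outt
    refine Finset.filter_congr (fun k _ => ?_)
    exact not_le.symm
  rw [h1]
  unfold inn
  exact Finset.sum_filter_add_sum_filter_not _ _ _

lemma sum_range_split (K : ℕ) (hK : 2 ≤ K) (f : ℕ → ℂ) :
    ∑ j ∈ range (K + 1), f j = f 0 + (f 1 + ∑ j ∈ Icc 2 K, f j) := by
  rw [Finset.range_eq_Ico, Finset.sum_eq_sum_Ico_succ_bot (by omega),
    Finset.sum_eq_sum_Ico_succ_bot (by omega)]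
  rfl

lemma ev_Del (W K n : ℕ) (hK : K = 2 * W + 2) (t : ℝ) (G : ℕ → ℂ)
    (h0 : ∀ k w, 2 * w < k → PowerSeries.coeff w (mfm k) = 0) :
    ev Del (W + 1) n t G = ∑ j ∈ Icc 2 K, MvPolynomial.aeval (vals t G) (bet j)
      * ev (fun w => PowerSeries.coeff w (mfm j)) (W + 1) n t G := by
  unfold ev
  simp_rw [Finset.mul_sum]
  rw [Finset.sum_comm]
  refine Finset.sum_congr rfl (fun w hw => ?_)
  have hw' : w ≤ W + 1 := by
    rw [Finset.mem_range] at hw; omega
  have h1 : Del w = ∑ k ∈ Icc 2 K, bet k * PowerSeries.coeff w (mfm k) := by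
    unfold Del
    refine Finset.sum_subset (Finset.Icc_subset_Icc_right (by omega)) (fun k hk hk' => ?_)
    have : 2 * w < k := by
      simp only [Finset.mem_Icc] at hk hk'
      omega
    rw [h0 k w this, mul_zero]
  rw [h1, map_sum, Finset.sum_div]
  refine Finset.sum_congr rfl (fun k _ => ?_)
  rw [map_mul, mul_div_assoc]

end Phix

open Phix in
/-- module `PHIX` -/
theorem phix_proof (hInb : Stmt_Inb) (hTail : Stmt_Tail) (hMomb : Stmt_Momb) (hMrec : Stmt_Mrec)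
    (hFtay : Stmt_Ftay) (hMexp : Stmt_Mexp) : Stmt_Phix := by
  classical
  intro σ M W K ε ε2 hPar
  obtain ⟨s0, s1, hW, hK, e0, e1, e2, f0, f1⟩ := id hPar
  have hKr : (K : ℝ) = 2 * W + 2 := by rw [hK]; push_cast; ring
  have hW0 : (0 : ℝ) ≤ W := Nat.cast_nonneg W
  have hM0 : (0 : ℝ) ≤ M := Nat.cast_nonneg M
  have hWM : 2 * ((M : ℝ) + 6) ≤ W := hW.trans (by nlinarith)
  have he : ε ≤ 1 / 16 := by nlinarith
  have hKe : ((K : ℝ) + 2) * ε2 ≤ 1 / 64 := by linarith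
  have he2 : ε2 ≤ 1 / 64 := by nlinarith
  obtain ⟨n₁, hInb'⟩ := hInb σ M W K ε ε2 hPar
  obtain ⟨n₂, hTail'⟩ := hTail ε K e0
  obtain ⟨CM, n₃, hMomb'⟩ := hMomb ε (K + 1) e0 (by linarith)
  obtain ⟨CF, hFtay'⟩ := hFtay K
  obtain ⟨-, hMz, hMexp'⟩ := hMexp
  have hMe : ∀ k, ∃ (C : ℝ) (n₀ : ℕ), k ≤ K → ∀ n d : ℕ, n₀ ≤ n → Dom σ n d → ∀ G : ℕ → ℂ,
      (∀ i, ‖G i‖ ≤ (n : ℝ) ^ ε2) →
      ‖((mm n (tt n d) k : ℝ) : ℂ)
          - ev (fun w => PowerSeries.coeff w (mfm k)) (W + 1) n (tt n d) G‖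
        ≤ C * (n : ℝ) ^ (-(M + 6 : ℝ)) := by
    intro k
    by_cases hk : k ≤ K
    · obtain ⟨C, n₀, h⟩ := hMexp' σ M W K ε ε2 hPar k hk
      exact ⟨C, n₀, fun _ => h⟩
    · exact ⟨0, 0, fun h => absurd h hk⟩
  choose CE nE hE using hMe
  have hlim : ∀ᶠ x : ℝ in atTop, Real.exp (-x ^ ε) ≤ x ^ (-(M + 6 : ℝ)) := by
    have h1 := (isLittleO_log_rpow_atTop (r := ε) e0).def
      (c := 1 / ((M : ℝ) + 6)) (by positivity)
    filter_upwards [h1, eventually_ge_atTop (1 : ℝ)] with x hx hx1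
    have hx0 : 0 < x := by linarith
    rw [Real.norm_of_nonneg (Real.log_nonneg hx1),
      Real.norm_of_nonneg (Real.rpow_nonneg (by linarith) _)] at hx
    rw [Real.rpow_def_of_pos hx0 (-(M + 6 : ℝ))]
    refine Real.exp_le_exp.mpr ?_
    have h2 : Real.log x * ((M : ℝ) + 6) ≤ x ^ ε := by
      rw [div_mul_eq_mul_div, one_mul, le_div_iff₀ (by positivity)] at hx
      exact hx
    linarith
  obtain ⟨n₄, hn₄⟩ := Filter.eventually_atTop.mp (tendsto_natCast_atTop_atTop.eventually hlim)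
  set CC : ℝ := ∑ j ∈ range (K + 1), |CE j| with hCC
  have hCC0 : 0 ≤ CC := Finset.sum_nonneg (fun _ _ => abs_nonneg _)
  set nn : ℕ := ∑ j ∈ range (K + 1), nE j with hnn
  refine ⟨|CF| * |CM| + ((K : ℝ) + 1) * (|CF| * (CC + 1)), n₁ + n₂ + n₃ + n₄ + nn + 16384 + K,
    ?_⟩
  intro n d hn hdom g hg
  obtain ⟨hd, h2d, -, -⟩ := id hdom
  have hnpos : 0 < n := by omega
  have hnr : (0 : ℝ) < n := by exact_mod_cast hnpos
  have hn1 : (1 : ℝ) ≤ n := by exact_mod_cast hnpos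
  have hKn : K ≤ n - 1 := by omega
  set A : ℝ := (n : ℝ) ^ ε2 with hA
  have hA1 : 1 ≤ A := Real.one_le_rpow hn1 f0.le
  have hA0 : 0 < A := by linarith
  have hG : ∀ i, ‖Gt K g i‖ ≤ A := norm_Gt_le K g A hA0.le hg
  obtain ⟨hbet, hfg⟩ : (∀ k ≤ K, ‖MvPolynomial.aeval (vals (tt n d) (Gt K g)) (bet k)‖
      ≤ CF * A ^ k) ∧ ∀ u : ℂ, (A * ‖u‖ ≤ 1 / 8 →
      ‖fgG K (Gt K g) u - ∑ k ∈ range (K + 1),
        MvPolynomial.aeval (vals (tt n d) (Gt K g)) (bet k) * u ^ k‖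
        ≤ CF * (A * ‖u‖) ^ (K + 1)) :=
    ⟨(hFtay' (Gt K g) A (tt n d) 0 hA1 hG).1, fun u => (hFtay' (Gt K g) A (tt n d) u hA1 hG).2⟩
  set β : ℕ → ℂ := fun k => MvPolynomial.aeval (vals (tt n d) (Gt K g)) (bet k) with hβ
  have hβ0 : β 0 = 1 := by simp [hβ, bet]
  -- size of the coefficients
  have hAK : A ^ K ≤ n := by
    rw [hA, ← Real.rpow_natCast, ← Real.rpow_mul hnr.le]
    calc (n : ℝ) ^ (ε2 * K) ≤ (n : ℝ) ^ (1 : ℝ) :=
          Real.rpow_le_rpow_of_exponent_le hn1 (by nlinarith)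
      _ = n := Real.rpow_one _
  have hβn : ∀ k ≤ K, ‖β k‖ ≤ |CF| * n := by
    intro k hk
    calc ‖β k‖ ≤ CF * A ^ k := hbet k hk
      _ ≤ |CF| * A ^ k := mul_le_mul_of_nonneg_right (le_abs_self _) (by positivity)
      _ ≤ |CF| * A ^ K := mul_le_mul_of_nonneg_left (pow_le_pow_right₀ hA1 hk) (abs_nonneg _)
      _ ≤ |CF| * n := mul_le_mul_of_nonneg_left hAK (abs_nonneg _)
  -- the inner moments
  set X : ℕ → ℂ := fun j => ∑ k ∈ inn n d ε, kap n d k * uu n d k ^ j with hX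
  have hXm : ∀ j ≤ K, ‖X j - ((mm n (tt n d) j : ℝ) : ℂ)‖ ≤ (n : ℝ) ^ (-(M + 6 : ℝ)) := by
    intro j hj
    have h1 : X j = ∑ k ∈ inn n d ε, kpj n d j k := by
      refine Finset.sum_congr rfl (fun k hk => ?_)
      exact kap_mul_pow n d j k (hInb' n d (by omega) hdom k hk).1 (by omega)
    have h2 := sum_inn_add_out n d ε (kpj n d j)
    rw [hMrec n d hd h2d j (by omega)] at h2
    have h3 : X j - ((mm n (tt n d) j : ℝ) : ℂ) = -∑ k ∈ outt n d ε, kpj n d j k := by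
      rw [h1, ← h2]; ring
    rw [h3, norm_neg]
    refine (norm_sum_le _ _).trans (((hTail' n d (by omega) hd h2d).1 j hj).trans ?_)
    exact hn₄ n (by omega)
  -- comparison with the series
  set Y : ℕ → ℂ := fun j => if j = 0 then 1 else if j = 1 then 0 else
    ev (fun w => PowerSeries.coeff w (mfm j)) (W + 1) n (tt n d) (Gt K g) with hY
  have hXY : ∀ j ≤ K, ‖X j - Y j‖ ≤ (CC + 1) * (n : ℝ) ^ (-(M + 6 : ℝ)) := by
    intro j hj
    have hnp : 0 ≤ (n : ℝ) ^ (-(M + 6 : ℝ)) := by positivity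
    have h1 : ‖((mm n (tt n d) j : ℝ) : ℂ) - Y j‖ ≤ CC * (n : ℝ) ^ (-(M + 6 : ℝ)) := by
      rcases j with _ | _ | j
      · simp only [hY, mm, if_true]
        simp only [Complex.ofReal_one, sub_self, norm_zero]
        positivity
      · simp only [hY, mm, zero_add, one_ne_zero, if_false, if_true]
        simp only [Complex.ofReal_zero, sub_self, norm_zero]
        positivity
      · have h2 : Y (j + 2) = ev (fun w => PowerSeries.coeff w (mfm (j + 2))) (W + 1) n (tt n d)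
            (Gt K g) := by
          simp only [hY]
          rw [if_neg (by omega), if_neg (by omega)]
        change ‖((mm n (tt n d) (j + 2) : ℝ) : ℂ) - Y (j + 2)‖ ≤ _
        rw [h2]
        have hjm : j + 2 ∈ range (K + 1) := by rw [Finset.mem_range]; omega
        have hnE : nE (j + 2) ≤ nn :=
          Finset.single_le_sum (f := nE) (fun _ _ => Nat.zero_le _) hjm
        have hCE : |CE (j + 2)| ≤ CC :=
          Finset.single_le_sum (f := fun j => |CE j|) (fun _ _ => abs_nonneg _) hjm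
        refine (hE (j + 2) hj n d (by omega) hdom (Gt K g) hG).trans ?_
        exact mul_le_mul_of_nonneg_right ((le_abs_self _).trans hCE) hnp
    calc ‖X j - Y j‖ = ‖(X j - ((mm n (tt n d) j : ℝ) : ℂ))
          + (((mm n (tt n d) j : ℝ) : ℂ) - Y j)‖ := by congr 1; ring
      _ ≤ ‖X j - ((mm n (tt n d) j : ℝ) : ℂ)‖ + ‖((mm n (tt n d) j : ℝ) : ℂ) - Y j‖ :=
          norm_add_le _ _
      _ ≤ (n : ℝ) ^ (-(M + 6 : ℝ)) + CC * (n : ℝ) ^ (-(M + 6 : ℝ)) :=
          add_le_add (hXm j hj) h1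
      _ = _ := by ring
  have hsumY : ∑ j ∈ range (K + 1), β j * Y j = 1 + ev Del (W + 1) n (tt n d) (Gt K g) := by
    rw [sum_range_split K (by omega), ev_Del W K n hK (tt n d) (Gt K g) hMz]
    have h0 : Y 0 = 1 := by simp [hY]
    have h1 : Y 1 = 0 := by simp [hY]
    rw [hβ0, h0, h1, mul_zero, zero_add, mul_one]
    congr 1
    refine Finset.sum_congr rfl (fun j hj => ?_)
    have h2 : Y j = ev (fun w => PowerSeries.coeff w (mfm j)) (W + 1) n (tt n d) (Gt K g) := by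
      rw [Finset.mem_Icc] at hj
      simp only [hY]
      rw [if_neg (by omega), if_neg (by omega)]
    rw [h2]
  -- Taylor expansion
  have hAu : ∀ k ∈ inn n d ε, A * ‖uu n d k‖ ≤ 1 / 8 := by
    intro k hk
    have h1 := (hInb' n d (by omega) hdom k hk).2.1
    have h2 : (A * ‖uu n d k‖) ^ 2 ≤ (1 / 8) ^ 2 := by
      calc (A * ‖uu n d k‖) ^ 2 = A ^ 2 * ‖uu n d k‖ ^ 2 := by ring
        _ ≤ A ^ 2 * (2 * (n : ℝ) ^ (-1 + 2 * ε)) :=
            mul_le_mul_of_nonneg_left h1 (by positivity)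
        _ = 2 * (n : ℝ) ^ (ε2 * 2 + (-1 + 2 * ε)) := by
            rw [hA, ← Real.rpow_natCast, ← Real.rpow_mul hnr.le,
              Real.rpow_add hnr (ε2 * 2) (-1 + 2 * ε)]
            push_cast
            ring
        _ ≤ 2 * (n : ℝ) ^ (-(1 / 2) : ℝ) := by
            refine mul_le_mul_of_nonneg_left ?_ (by norm_num)
            exact Real.rpow_le_rpow_of_exponent_le hn1 (by linarith)
        _ ≤ (1 / 8) ^ 2 := by
            rw [Real.rpow_neg hnr.le, ← Real.sqrt_eq_rpow]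
            have h3 : (128 : ℝ) ≤ Real.sqrt n := by
              rw [Real.le_sqrt (by norm_num) hnr.le]
              have : (16384 : ℝ) ≤ n := by
                have : 16384 ≤ n := by omega
                exact_mod_cast this
              linarith
            have h4 : (Real.sqrt n)⁻¹ ≤ 128⁻¹ := inv_anti₀ (by norm_num) h3
            linarith
    exact (pow_le_pow_iff_left₀ (by positivity) (by norm_num) (two_ne_zero)).mp h2
  have hPhi : ‖Phi n d ε K g - ∑ j ∈ range (K + 1), β j * X j‖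
      ≤ |CF| * |CM| * (n : ℝ) ^ (-(M + 4 : ℝ)) := by
    have h1 : Phi n d ε K g - ∑ j ∈ range (K + 1), β j * X j
        = ∑ k ∈ inn n d ε, kap n d k * (fgG K (Gt K g) (uu n d k)
          - ∑ j ∈ range (K + 1), β j * uu n d k ^ j) := by
      simp_rw [mul_sub, Finset.sum_sub_distrib, hX, Finset.mul_sum]
      rw [Finset.sum_comm]
      unfold Phi fg
      congr 1
      refine Finset.sum_congr rfl (fun k _ => Finset.sum_congr rfl (fun j _ => ?_))
      ring
    have hs : 0 < Real.sqrt n := Real.sqrt_pos.mpr hnr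
    have h2 : ∀ k ∈ inn n d ε, ‖kap n d k * (fgG K (Gt K g) (uu n d k)
          - ∑ j ∈ range (K + 1), β j * uu n d k ^ j)‖
        ≤ |CF| * (A / Real.sqrt n) ^ (K + 1) * (‖kap n d k‖ * (Real.sqrt n * ‖uu n d k‖) ^ (K + 1)
          * Real.exp (3 * (Real.sqrt n * ‖uu n d k‖) + (n : ℝ) * ‖uu n d k‖ ^ 2 / 8)) := by
      intro k hk
      have h3 := hfg (uu n d k) (hAu k hk)
      rw [norm_mul]
      have h4 : (1 : ℝ) ≤ Real.exp (3 * (Real.sqrt n * ‖uu n d k‖)
          + (n : ℝ) * ‖uu n d k‖ ^ 2 / 8) := Real.one_le_exp (by positivity)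
      have h5 : (A * ‖uu n d k‖) ^ (K + 1)
          = (A / Real.sqrt n) ^ (K + 1) * (Real.sqrt n * ‖uu n d k‖) ^ (K + 1) := by
        rw [← mul_pow]
        congr 1
        field_simp
      calc ‖kap n d k‖ * _ ≤ ‖kap n d k‖ * (CF * (A * ‖uu n d k‖) ^ (K + 1)) :=
            mul_le_mul_of_nonneg_left h3 (norm_nonneg _)
        _ ≤ ‖kap n d k‖ * (|CF| * (A * ‖uu n d k‖) ^ (K + 1)) := by
            refine mul_le_mul_of_nonneg_left ?_ (norm_nonneg _)
            exact mul_le_mul_of_nonneg_right (le_abs_self _) (by positivity)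
        _ = |CF| * (A / Real.sqrt n) ^ (K + 1)
            * (‖kap n d k‖ * (Real.sqrt n * ‖uu n d k‖) ^ (K + 1) * 1) := by
            rw [h5]; ring
        _ ≤ _ := by
            refine mul_le_mul_of_nonneg_left ?_ (by positivity)
            exact mul_le_mul_of_nonneg_left h4 (by positivity)
    rw [h1]
    refine (norm_sum_le _ _).trans ((Finset.sum_le_sum h2).trans ?_)
    rw [← Finset.mul_sum]
    have h6 := hMomb' n d (by omega) hd h2d
    have h7 : (A / Real.sqrt n) ^ (K + 1) ≤ (n : ℝ) ^ (-(M + 4 : ℝ)) := by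
      have h8 : A / Real.sqrt n = (n : ℝ) ^ (ε2 - 1 / 2) := by
        rw [hA, Real.sqrt_eq_rpow, Real.rpow_sub hnr]
      rw [h8, ← Real.rpow_natCast, ← Real.rpow_mul hnr.le]
      refine Real.rpow_le_rpow_of_exponent_le hn1 ?_
      push_cast
      nlinarith
    calc |CF| * (A / Real.sqrt n) ^ (K + 1) * _
        ≤ |CF| * (A / Real.sqrt n) ^ (K + 1) * CM :=
          mul_le_mul_of_nonneg_left h6 (by positivity)
      _ ≤ |CF| * (A / Real.sqrt n) ^ (K + 1) * |CM| :=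
          mul_le_mul_of_nonneg_left (le_abs_self _) (by positivity)
      _ ≤ |CF| * (n : ℝ) ^ (-(M + 4 : ℝ)) * |CM| := by
          refine mul_le_mul_of_nonneg_right ?_ (abs_nonneg _)
          exact mul_le_mul_of_nonneg_left h7 (abs_nonneg _)
      _ = _ := by ring
  have hXYs : ‖∑ j ∈ range (K + 1), β j * X j - ∑ j ∈ range (K + 1), β j * Y j‖
      ≤ ((K : ℝ) + 1) * (|CF| * (CC + 1)) * (n : ℝ) ^ (-(M + 4 : ℝ)) := by
    rw [← Finset.sum_sub_distrib]
    have h1 : ∀ j ∈ range (K + 1), ‖β j * X j - β j * Y j‖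
        ≤ |CF| * (CC + 1) * (n : ℝ) ^ (-(M + 4 : ℝ)) := by
      intro j hj
      have hj' : j ≤ K := by rw [Finset.mem_range] at hj; omega
      rw [← mul_sub, norm_mul]
      calc ‖β j‖ * ‖X j - Y j‖
          ≤ (|CF| * n) * ((CC + 1) * (n : ℝ) ^ (-(M + 6 : ℝ))) :=
            mul_le_mul (hβn j hj') (hXY j hj') (norm_nonneg _) (by positivity)
        _ = |CF| * (CC + 1) * ((n : ℝ) ^ (1 : ℝ) * (n : ℝ) ^ (-(M + 6 : ℝ))) := by
            rw [Real.rpow_one]; ring
        _ = |CF| * (CC + 1) * (n : ℝ) ^ (1 + -(M + 6 : ℝ)) := by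
            rw [← Real.rpow_add hnr]
        _ ≤ |CF| * (CC + 1) * (n : ℝ) ^ (-(M + 4 : ℝ)) := by
            refine mul_le_mul_of_nonneg_left ?_ (by positivity)
            exact Real.rpow_le_rpow_of_exponent_le hn1 (by linarith)
    refine (norm_sum_le _ _).trans ((Finset.sum_le_sum h1).trans ?_)
    rw [Finset.sum_const, nsmul_eq_mul, Finset.card_range]
    push_cast
    apply le_of_eq
    ring
  calc ‖Phi n d ε K g - 1 - ev Del (W + 1) n (tt n d) (Gt K g)‖
      = ‖(Phi n d ε K g - ∑ j ∈ range (K + 1), β j * X j)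
        + (∑ j ∈ range (K + 1), β j * X j - ∑ j ∈ range (K + 1), β j * Y j)‖ := by
        rw [hsumY]; congr 1; ring
    _ ≤ _ := norm_add_le _ _
    _ ≤ |CF| * |CM| * (n : ℝ) ^ (-(M + 4 : ℝ))
        + ((K : ℝ) + 1) * (|CF| * (CC + 1)) * (n : ℝ) ^ (-(M + 4 : ℝ)) :=
        add_le_add hPhi hXYs
    _ = _ := by ring

end Pool.Agent.RGD
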