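import Pool.Agent.RGD.Stmts

/-!
REST: configurations with many outer sites on both sides are negligible (MP_3a123b_co).
-/

set_option autoImplicit false

namespace Pool.Agent.RGD

open Finset Pool.Agent.RGA Filter

namespace Rest

/-- crude bound of the summand -/
lemma norm_FF_le (hEeb : Stmt_Eeb) (hUid : Stmt_Uid) (hCr : Stmt_Cr) (n d : ℕ) (hd : 1 ≤ d)
    (h2d : 2 * d ≤ n - 1) (k : Fin n → Fin (2 * n)) :
    ‖FF n d k‖ ≤ Real.exp (-(Lam n d * ∑ p ∈ prs (Fin n), (1 - (ee n (k p.1) * ee n (k p.2)).re)))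
      * (1 / (2 * n * bb n d)) ^ n := by
  obtain ⟨⟨hl0, hl1, hL0, hL1, -, -, -, -, hb⟩, -⟩ := hUid n d hd h2d
  have hn : 0 < n := by omega
  have hB : 0 < 2 * (n : ℝ) * bb n d := by positivity
  unfold FF
  rw [norm_mul, norm_prod, norm_prod]
  have h1 : ∏ j : Fin n, ‖(1 : ℂ) / (ee n (k j) ^ d * ((2 * n * bb n d : ℝ) : ℂ))‖
      = (1 / (2 * n * bb n d)) ^ n := by
    have : ∀ j : Fin n, ‖(1 : ℂ) / (ee n (k j) ^ d * ((2 * n * bb n d : ℝ) : ℂ))‖
        = 1 / (2 * n * bb n d) := by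
      intro j
      rw [norm_div, norm_mul, norm_pow, (hEeb.1 n (k j)).1, one_pow, one_mul, norm_one,
        Complex.norm_real, Real.norm_of_nonneg hB.le]
    rw [Finset.prod_congr rfl (fun j _ => this j), Finset.prod_const, Finset.card_univ,
      Fintype.card_fin]
  rw [h1]
  refine mul_le_mul_of_nonneg_right ?_ (by positivity)
  have h2 : ∀ p ∈ prs (Fin n), ‖1 + (lam n d : ℂ) * (ee n (k p.1) * ee n (k p.2) - 1)‖
      ≤ Real.exp (-(Lam n d * (1 - (ee n (k p.1) * ee n (k p.2)).re))) := by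
    intro p _
    have := hCr.2 (lam n d) (ee n (k p.1) * ee n (k p.2)) hl0.le (by linarith)
      (by rw [norm_mul, (hEeb.1 n (k p.1)).1, (hEeb.1 n (k p.2)).1, one_mul])
    simpa [Lam] using this
  refine (Finset.prod_le_prod (fun _ _ => norm_nonneg _) h2).trans ?_
  rw [← Real.exp_sum]
  apply le_of_eq
  congr 1
  rw [Finset.mul_sum, ← Finset.sum_neg_distrib]

/-- many outer sites: `Λ ∑ s` is large -/
lemma sum_ss_ge (hEeb : Stmt_Eeb) (n d : ℕ) (ε c : ℝ) (hL0 : 0 < Lam n d) (hn : 0 < n)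
    (k : Fin n → Fin (2 * n)) (hk : c * n ≤ (Sout n d ε k).card) :
    c * (n : ℝ) ^ (2 * ε) / 2 ≤ Lam n d * ∑ j, ss n (k j) := by
  have hnr : (0 : ℝ) < n := by exact_mod_cast hn
  have h1 : ∀ j ∈ Sout n d ε k, (n : ℝ) ^ (-1 + 2 * ε) ≤ 2 * Lam n d * ss n (k j) := by
    intro j hj
    have h2 := (Finset.mem_filter.mp hj).2
    exact ((Finset.mem_filter.mp h2).2).le
  have h3 : ((Sout n d ε k).card : ℝ) * (n : ℝ) ^ (-1 + 2 * ε)
      ≤ ∑ j ∈ Sout n d ε k, 2 * Lam n d * ss n (k j) := by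
    rw [← nsmul_eq_mul]
    exact Finset.card_nsmul_le_sum _ _ _ h1
  have h4 : ∑ j ∈ Sout n d ε k, 2 * Lam n d * ss n (k j) ≤ ∑ j, 2 * Lam n d * ss n (k j) :=
    Finset.sum_le_sum_of_subset_of_nonneg (Finset.subset_univ _)
      (fun j _ _ => mul_nonneg (by positivity) (hEeb.1 n (k j)).2.1)
  have h5 : c * n * (n : ℝ) ^ (-1 + 2 * ε) ≤ 2 * (Lam n d * ∑ j, ss n (k j)) := by
    calc c * n * (n : ℝ) ^ (-1 + 2 * ε)
        ≤ ((Sout n d ε k).card : ℝ) * (n : ℝ) ^ (-1 + 2 * ε) :=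
          mul_le_mul_of_nonneg_right hk (by positivity)
      _ ≤ _ := h3.trans h4
      _ = 2 * (Lam n d * ∑ j, ss n (k j)) := by rw [← Finset.mul_sum]; ring
  have h6 : c * n * (n : ℝ) ^ (-1 + 2 * ε) = c * (n : ℝ) ^ (2 * ε) := by
    rw [Real.rpow_add hnr, Real.rpow_neg_one]
    field_simp
  rw [h6] at h5
  linarith

end Rest

open Rest in
/-- module `REST` -/
theorem rest_proof (hEeb : Stmt_Eeb) (hUid : Stmt_Uid) (hBlow : Stmt_Blow) (hCr : Stmt_Cr) :
    Stmt_Rest := by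
  classical
  intro σ ε c hσ hε hc
  obtain ⟨b₀, hb₀, hblow⟩ := hBlow
  have hlim1 : ∀ᶠ x : ℝ in atTop, Real.log x ≤ c / 16 * x ^ (2 * ε) := by
    have h1 := (isLittleO_log_rpow_atTop (r := 2 * ε) (by positivity)).def
      (c := c / 16) (by positivity)
    filter_upwards [h1, eventually_ge_atTop (1 : ℝ)] with x hx hx1
    rw [Real.norm_of_nonneg (Real.log_nonneg hx1),
      Real.norm_of_nonneg (Real.rpow_nonneg (by linarith) _)] at hx
    exact hx
  have hlim2 : ∀ᶠ x : ℝ in atTop, 1 - Real.log b₀ ≤ c / 16 * x ^ (2 * ε) := by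
    have h1 : Tendsto (fun x : ℝ => c / 16 * x ^ (2 * ε)) atTop atTop :=
      (tendsto_rpow_atTop (by positivity)).const_mul_atTop (by positivity)
    exact h1.eventually (eventually_ge_atTop _)
  obtain ⟨n₁, hn₁⟩ := Filter.eventually_atTop.mp
    (tendsto_natCast_atTop_atTop.eventually (hlim1.and hlim2))
  refine ⟨max n₁ 8, ?_⟩
  intro n d hn hdom
  have hn1 : n₁ ≤ n := le_trans (le_max_left _ _) hn
  have hn8 : 8 ≤ n := le_trans (le_max_right _ _) hn
  obtain ⟨hd, h2d, hev, hy⟩ := id hdom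
  obtain ⟨⟨hl0, hl1, hL0, hL1, -, -, hy0, hy1, hb⟩, -⟩ := hUid n d hd h2d
  have hnpos : 0 < n := by omega
  have hnr : (0 : ℝ) < n := by exact_mod_cast hnpos
  have hn8r : (8 : ℝ) ≤ n := by exact_mod_cast hn8
  have hB : 0 < 2 * (n : ℝ) * bb n d := by positivity
  obtain ⟨hlog, hcst⟩ := hn₁ n hn1
  -- the binomial probability
  have hbinv : 1 / bb n d ≤ Real.exp (c / 8 * (n : ℝ) ^ (2 * ε) - 1) := by
    have h1 := hblow n d hd h2d
    have h2 : Real.sqrt (yy n d) ≤ n := by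
      rw [Real.sqrt_le_left hnr.le]
      nlinarith
    have h3 : b₀ ≤ bb n d * n := h1.trans (mul_le_mul_of_nonneg_left h2 hb.le)
    have h4 : 1 / bb n d ≤ n / b₀ := by
      rw [div_le_div_iff₀ hb hb₀]
      linarith
    refine h4.trans ?_
    rw [← Real.log_le_iff_le_exp (by positivity), Real.log_div hnr.ne' hb₀.ne']
    have h5 : c / 8 * (n : ℝ) ^ (2 * ε)
        = c / 16 * (n : ℝ) ^ (2 * ε) + c / 16 * (n : ℝ) ^ (2 * ε) := by ring
    rw [h5]
    linarith
  -- termwise bound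
  have hterm : ∀ k ∈ univ.filter (fun k : Fin n → Fin (2 * n) => c * n ≤ (Sout n d ε k).card ∧
        c * n ≤ (Sout n d ε (fun j => shf n (k j))).card),
      ‖FF n d k‖ ≤ Real.exp (-(n * (c / 8 * (n : ℝ) ^ (2 * ε)))) * (1 / (2 * n * bb n d)) ^ n := by
    intro k hk
    obtain ⟨hk1, hk2⟩ := (Finset.mem_filter.mp hk).2
    refine (norm_FF_le hEeb hUid hCr n d hd h2d k).trans ?_
    refine mul_le_mul_of_nonneg_right (Real.exp_le_exp.mpr (neg_le_neg ?_)) (by positivity)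
    have h3 := (hCr.1 (Fin n) (fun j => ee n (k j)) (fun j => (hEeb.1 n (k j)).1)).1
      (by rw [Fintype.card_fin]; omega)
    rw [Fintype.card_fin] at h3
    have hs1 : c * (n : ℝ) ^ (2 * ε) / 2 ≤ Lam n d * ∑ j, (1 - (ee n (k j)).re) :=
      sum_ss_ge hEeb n d ε c hL0 hnpos k hk1
    have hs2 : c * (n : ℝ) ^ (2 * ε) / 2 ≤ Lam n d * ∑ j, (1 + (ee n (k j)).re) := by
      have h4 := sum_ss_ge hEeb n d ε c hL0 hnpos (fun j => shf n (k j)) hk2
      have h5 : ∀ j, ss n (shf n (k j)) = 1 + (ee n (k j)).re := by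
        intro j
        rw [(hEeb.1 n (k j)).2.2.2.2.2.1, ss]
        ring
      rw [Finset.sum_congr rfl (fun j _ => h5 j)] at h4
      exact h4
    have hmin : c * (n : ℝ) ^ (2 * ε) / 2
        ≤ Lam n d * min (∑ j, (1 - (ee n (k j)).re)) (∑ j, (1 + (ee n (k j)).re)) := by
      rw [mul_min_of_nonneg _ _ hL0.le]
      exact le_min hs1 hs2
    have hx : 0 ≤ c * (n : ℝ) ^ (2 * ε) / 2 := by positivity
    calc (n : ℝ) * (c / 8 * (n : ℝ) ^ (2 * ε))
        = (n : ℝ) / 4 * (c * (n : ℝ) ^ (2 * ε) / 2) := by ring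
      _ ≤ ((n : ℝ) - 4) / 2 * (c * (n : ℝ) ^ (2 * ε) / 2) :=
          mul_le_mul_of_nonneg_right (by linarith) hx
      _ ≤ ((n : ℝ) - 4) / 2
          * (Lam n d * min (∑ j, (1 - (ee n (k j)).re)) (∑ j, (1 + (ee n (k j)).re))) :=
          mul_le_mul_of_nonneg_left hmin (by linarith)
      _ = Lam n d * (((n : ℝ) - 4) / 2
          * min (∑ j, (1 - (ee n (k j)).re)) (∑ j, (1 + (ee n (k j)).re))) := by ring
      _ ≤ _ := mul_le_mul_of_nonneg_left h3 hL0.le
  have hcard : ((univ.filter (fun k : Fin n → Fin (2 * n) => c * n ≤ (Sout n d ε k).card ∧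
        c * n ≤ (Sout n d ε (fun j => shf n (k j))).card)).card : ℝ) ≤ (2 * n) ^ n := by
    have h1 := Finset.card_le_univ (univ.filter (fun k : Fin n → Fin (2 * n) =>
      c * n ≤ (Sout n d ε k).card ∧ c * n ≤ (Sout n d ε (fun j => shf n (k j))).card))
    rw [Fintype.card_fun, Fintype.card_fin, Fintype.card_fin] at h1
    exact_mod_cast h1
  have hnn : 0 ≤ Real.exp (-(n * (c / 8 * (n : ℝ) ^ (2 * ε)))) * (1 / (2 * n * bb n d)) ^ n := by
    positivity
  calc ∑ k ∈ univ.filter (fun k : Fin n → Fin (2 * n) => c * n ≤ (Sout n d ε k).card ∧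
        c * n ≤ (Sout n d ε (fun j => shf n (k j))).card), ‖FF n d k‖
      ≤ _ := Finset.sum_le_sum hterm
    _ ≤ (2 * n) ^ n * (Real.exp (-(n * (c / 8 * (n : ℝ) ^ (2 * ε))))
          * (1 / (2 * n * bb n d)) ^ n) := by
        rw [Finset.sum_const, nsmul_eq_mul]
        exact mul_le_mul_of_nonneg_right hcard hnn
    _ = Real.exp (-(n * (c / 8 * (n : ℝ) ^ (2 * ε)))) * (1 / bb n d) ^ n := by
        have h1 : (1 / (2 * n * bb n d)) ^ n = (1 / bb n d) ^ n / (2 * n) ^ n := by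
          rw [← div_pow]
          congr 1
          field_simp
        rw [h1]
        have h2 : ((2 : ℝ) * n) ^ n ≠ 0 := by positivity
        field_simp
    _ ≤ Real.exp (-(n * (c / 8 * (n : ℝ) ^ (2 * ε))))
          * Real.exp (c / 8 * (n : ℝ) ^ (2 * ε) - 1) ^ n := by
        refine mul_le_mul_of_nonneg_left ?_ (Real.exp_pos _).le
        exact pow_le_pow_left₀ (by positivity) hbinv n
    _ = Real.exp (-(n : ℝ)) := by
        rw [← Real.exp_nat_mul, ← Real.exp_add]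
        congr 1
        ring

end Pool.Agent.RGD
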