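import Pool.Agent.RGD.Stmts

/-!
# SERX: expansion of `Φ^n`
-/

set_option autoImplicit false

namespace Pool.Agent.RGD

open Finset Pool.Agent.RGA

namespace SerxAux

theorem norm_al (i : ℕ) (hi : 1 ≤ i) : ‖al i‖ ≤ 1 := by
  have h1 : (1 : ℝ) ≤ Real.sqrt i := by
    rw [Real.one_le_sqrt]
    exact_mod_cast hi
  have h2 : ‖(((1 / Real.sqrt i : ℝ) : ℂ))‖ ≤ 1 := by
    rw [Complex.norm_real, Real.norm_of_nonneg (by positivity), div_le_one (by linarith)]
    exact h1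
  unfold al
  split_ifs
  · rw [norm_mul, Complex.norm_I, one_mul]
    exact h2
  · exact h2

theorem norm_Gt (K : ℕ) (g : Fin K → ℝ) (R : ℝ) (hR : 0 ≤ R) (h : ∀ i, |g i| ≤ R) (i : ℕ) :
    ‖Gt K g i‖ ≤ R := by
  unfold Gt
  split_ifs with hi
  · rw [norm_mul, Complex.norm_real, Real.norm_eq_abs]
    calc ‖al i‖ * |g ⟨i - 1, by omega⟩| ≤ 1 * R :=
          mul_le_mul (norm_al i hi.1) (h _) (abs_nonneg _) zero_le_one
      _ = R := one_mul R
  · rw [norm_zero]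
    exact hR

theorem bet_two : bet 2 = MvPolynomial.X 2 - MvPolynomial.C (1 / 2)
    + MvPolynomial.C (1 / 2) * MvPolynomial.X 1 ^ 2 := by
  have h1 : bet 1 = MvPolynomial.X 1 := by
    rw [bet]
    simp [bet, iot]
  rw [bet]
  rw [Fin.sum_univ_two]
  simp only [Fin.val_zero, Fin.val_one, Nat.sub_zero, Nat.reduceAdd, Nat.reduceSub]
  rw [h1]
  have e0 : bet 0 = 1 := by rw [bet]
  rw [e0]
  have i2 : iot 2 = -1 := by simp [iot]
  have i1 : iot 1 = 0 := by simp [iot]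
  rw [i2, i1]
  have e1 : ((2 : ℕ) : ℚ) • (MvPolynomial.X 2 : Rg) = MvPolynomial.C 2 * MvPolynomial.X 2 := by
    rw [MvPolynomial.smul_eq_C_mul]
    norm_num
  have e2 : ((1 : ℕ) : ℚ) • (MvPolynomial.X 1 : Rg) = MvPolynomial.X 1 := by
    simp
  rw [e1, e2]
  have e3 : (MvPolynomial.C (1 / (((1 : ℕ) : ℚ) + 1)) : Rg) = MvPolynomial.C (1 / 2) := by
    norm_num
  rw [e3]
  have e4 : (MvPolynomial.C (1 / 2 : ℚ) : Rg) * MvPolynomial.C 2 = 1 := by
    rw [← MvPolynomial.C_mul]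
    norm_num
  have e5 : (MvPolynomial.C (-1 : ℚ) : Rg) = -1 := by
    rw [MvPolynomial.C_neg, MvPolynomial.C_1]
  rw [e5, MvPolynomial.C_0]
  linear_combination (MvPolynomial.X 2 : Rg) * e4

theorem re_beta (K : ℕ) (g : Fin K → ℝ) (t : ℝ) :
    -(1 / 2) ≤ (MvPolynomial.aeval (vals t (Gt K g)) (bet 2)).re := by
  rw [bet_two]
  simp only [map_add, map_sub, map_mul, map_pow, MvPolynomial.aeval_X, MvPolynomial.aeval_C]
  have v1 : vals t (Gt K g) 1 = Gt K g 1 := by simp [vals]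
  have v2 : vals t (Gt K g) 2 = Gt K g 2 := by simp [vals]
  rw [v1, v2]
  have h2 : (Gt K g 2).re = 0 := by
    unfold Gt
    split_ifs with h
    · have : al 2 = Complex.I * ((1 / Real.sqrt (2 : ℕ) : ℝ) : ℂ) := by
        unfold al
        rw [if_pos (by decide)]
      rw [this, mul_assoc, ← Complex.ofReal_mul, Complex.I_mul_re, Complex.ofReal_im]
      simp
    · simp
  obtain ⟨x, hx⟩ : ∃ x : ℝ, Gt K g 1 = (x : ℂ) := by
    unfold Gt
    split_ifs with h
    · refine ⟨(1 / Real.sqrt (1 : ℕ)) * g ⟨1 - 1, by omega⟩, ?_⟩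
      unfold al
      rw [if_neg (by decide)]
      push_cast
      rfl
    · exact ⟨0, by simp⟩
  rw [hx]
  have e : (algebraMap ℚ ℂ) (1 / 2) = ((1 / 2 : ℝ) : ℂ) := by
    simp
  rw [e, ← Complex.ofReal_pow, ← Complex.ofReal_mul, Complex.add_re, Complex.sub_re, h2,
    Complex.ofReal_re, Complex.ofReal_re]
  nlinarith [sq_nonneg x]

theorem ev_rr (W n : ℕ) (hn : 1 ≤ n) (t : ℝ) (G : ℕ → ℂ) :
    ev rr W n t G = (n : ℂ) * ev (logS Del) (W + 1) n t G
      + MvPolynomial.aeval (vals t G) (bet 2) := by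
  have hn0 : (n : ℂ) ≠ 0 := by
    have : n ≠ 0 := by omega
    exact_mod_cast this
  unfold ev
  rw [Finset.sum_range_succ' (n := W + 1)]
  have h0 : logS Del 0 = 0 := by rw [logS]
  rw [h0, map_zero, zero_div, add_zero, Finset.mul_sum]
  have h1 : ∀ w ∈ range (W + 1), MvPolynomial.aeval (vals t G) (rr w) / (n : ℂ) ^ w
      = (n : ℂ) * (MvPolynomial.aeval (vals t G) (logS Del (w + 1)) / (n : ℂ) ^ (w + 1))
        + (if w = 0 then MvPolynomial.aeval (vals t G) (bet 2) else 0) := by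
    intro w _
    unfold rr
    rw [map_add, add_div]
    congr 1
    · field_simp
      ring
    · split_ifs with hw
      · rw [hw, pow_zero, div_one]
      · rw [map_zero, zero_div]
  rw [Finset.sum_congr rfl h1, Finset.sum_add_distrib]
  congr 1
  rw [Finset.sum_ite_eq' (range (W + 1)) 0, if_pos (by simp)]

end SerxAux

open SerxAux

theorem serx_proof (hPhix : Stmt_Phix) (hEvlog : Stmt_Evlog) (hEvexp : Stmt_Evexp)
    (hDeg : Stmt_Deg) : Stmt_Serx := by
  intro σ M W K ε ε2 hP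
  obtain ⟨C1, n1, h1⟩ := hPhix σ M W K ε ε2 hP
  obtain ⟨hD, hD0, hR, hR0, -, -, -, -, -⟩ := hDeg
  obtain ⟨C2, n2, h2⟩ := hEvlog σ M W K ε ε2 hP Del hD hD0 (W + 1) (by omega) C1 (M + 4)
    (by positivity) (by linarith)
  obtain ⟨C3, n3, h3⟩ := hEvexp σ M W K ε ε2 hP rr hR hR0 W le_rfl C2 (M + 3)
    (by positivity) (by linarith)
  refine ⟨2 * |C3|, n1 + n2 + n3 + 1, ?_⟩
  intro n d hn hdom g hg
  have hn1 : (1 : ℝ) ≤ n := by
    have : 1 ≤ n := by omega
    exact_mod_cast this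
  have hn0 : (0 : ℝ) < n := by linarith
  have hG : ∀ i, ‖Gt K g i‖ ≤ (n : ℝ) ^ ε2 := norm_Gt K g _ (by positivity) hg
  have a1 := h1 n d (by omega) hdom g hg
  obtain ⟨a2, a3⟩ := h2 n d (by omega) hdom (Gt K g) hG (Phi n d ε K g - 1) a1
  set x : ℂ := Phi n d ε K g - 1 with hx
  set β : ℂ := MvPolynomial.aeval (vals (tt n d) (Gt K g)) (bet 2) with hβ
  have a4 : ‖((n : ℂ) * Complex.log (1 + x) + β) - ev rr W n (tt n d) (Gt K g)‖
      ≤ C2 * (n : ℝ) ^ (-(M + 3 : ℝ)) := by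
    rw [ev_rr W n (by omega)]
    have e1 : ((n : ℂ) * Complex.log (1 + x) + β) - ((n : ℂ) *
        ev (logS Del) (W + 1) n (tt n d) (Gt K g) + β)
        = (n : ℂ) * (Complex.log (1 + x) - ev (logS Del) (W + 1) n (tt n d) (Gt K g)) := by
      ring
    rw [e1, norm_mul, Complex.norm_natCast]
    calc (n : ℝ) * ‖Complex.log (1 + x) - ev (logS Del) (W + 1) n (tt n d) (Gt K g)‖
        ≤ (n : ℝ) * (C2 * (n : ℝ) ^ (-(M + 4 : ℝ))) :=
          mul_le_mul_of_nonneg_left a3 hn0.le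
      _ = C2 * (n : ℝ) ^ (-(M + 3 : ℝ)) := by
          have e2 : (n : ℝ) ^ (-(M + 3 : ℝ)) = (n : ℝ) * (n : ℝ) ^ (-(M + 4 : ℝ)) := by
            have e3 : (-(M + 3 : ℝ)) = 1 + (-(M + 4 : ℝ)) := by ring
            rw [e3, Real.rpow_add hn0, Real.rpow_one]
          rw [e2]
          ring
  have a5 := h3 n d (by omega) hdom (Gt K g) hG _ a4
  have hne : 1 + x ≠ 0 := by
    intro h0
    have : x = -1 := by linear_combination h0
    rw [this, norm_neg, norm_one] at a2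
    norm_num at a2
  have a6 : Phi n d ε K g ^ n = Complex.exp (-β) *
      Complex.exp ((n : ℂ) * Complex.log (1 + x) + β) := by
    rw [← Complex.exp_add]
    rw [show -β + ((n : ℂ) * Complex.log (1 + x) + β) = (n : ℂ) * Complex.log (1 + x) by ring]
    rw [Complex.exp_nat_mul, Complex.exp_log hne]
    rw [hx]
    ring
  have a7 : ‖Complex.exp (-β)‖ ≤ 2 := by
    rw [Complex.norm_exp]
    have h4 := re_beta K g (tt n d)
    rw [← hβ] at h4
    calc Real.exp (-β).re ≤ Real.exp (1 / 2) := by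
          apply Real.exp_le_exp.mpr
          rw [Complex.neg_re]
          linarith
      _ ≤ 2 := by
          have h5 : Real.exp (1 / 2) ^ 2 = Real.exp 1 := by
            rw [← Real.exp_nat_mul]
            norm_num
          have h6 := Real.exp_one_lt_d9
          nlinarith [Real.exp_pos (1 / 2 : ℝ)]
  have hEE : EE = expS rr := rfl
  rw [a6, ← mul_sub, norm_mul, hEE]
  calc ‖Complex.exp (-β)‖ * ‖Complex.exp ((n : ℂ) * Complex.log (1 + x) + β)
        - ev (expS rr) W n (tt n d) (Gt K g)‖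
      ≤ 2 * (C3 * (n : ℝ) ^ (-(M + 3 : ℝ))) :=
        mul_le_mul a7 a5 (norm_nonneg _) (by norm_num)
    _ ≤ 2 * (|C3| * (n : ℝ) ^ (-(M : ℝ))) := by
        have h7 : (n : ℝ) ^ (-(M + 3 : ℝ)) ≤ (n : ℝ) ^ (-(M : ℝ)) :=
          Real.rpow_le_rpow_of_exponent_le hn1 (by linarith)
        have h8 : C3 * (n : ℝ) ^ (-(M + 3 : ℝ)) ≤ |C3| * (n : ℝ) ^ (-(M + 3 : ℝ)) :=
          mul_le_mul_of_nonneg_right (le_abs_self _) (by positivity)
        have h9 : |C3| * (n : ℝ) ^ (-(M + 3 : ℝ)) ≤ |C3| * (n : ℝ) ^ (-(M : ℝ)) :=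
          mul_le_mul_of_nonneg_left h7 (abs_nonneg _)
        linarith
    _ = _ := by ring

end Pool.Agent.RGD
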