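import Pool.Agent.RGD.Stmts

/-!
# SHARP
-/

set_option autoImplicit false

namespace Pool.Agent.RGD

open Finset Pool.Agent.RGA

namespace SharpAux

theorem norm_kap (hEeb : Stmt_Eeb) (n d : ℕ) (k : Fin (2 * n)) (hb : 0 < bb n d) :
    ‖kap n d k‖ = ‖qq n d k‖ ^ (n - 1) / (2 * n * bb n d) := by
  unfold kap kpj
  have h1 := (hEeb.1 n k).1
  rw [norm_div, norm_mul, norm_mul, norm_pow, norm_pow, norm_pow, h1, Complex.norm_real,
    Real.norm_of_nonneg (by positivity)]
  simp

theorem one_sub_ge (X : ℝ) (h0 : 0 ≤ X) (h1 : X ≤ 1 / 2) : Real.exp (-(X + X ^ 2)) ≤ 1 - X := by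
  have h2 := Real.quadratic_le_exp_of_nonneg (show 0 ≤ X + X ^ 2 by positivity)
  have h3 : 1 ≤ (1 - X) * Real.exp (X + X ^ 2) := by
    have h4 : 1 ≤ (1 - X) * (1 + (X + X ^ 2) + (X + X ^ 2) ^ 2 / 2) := by
      have e : (1 - X) * (1 + (X + X ^ 2) + (X + X ^ 2) ^ 2 / 2) - 1
          = X ^ 2 * ((1 + X) ^ 2 * (1 - X) / 2 - X) := by ring
      have h5 : 0 ≤ (1 + X) ^ 2 * (1 - X) / 2 - X := by
        nlinarith [mul_nonneg h0 (show 0 ≤ 1 / 2 - X by linarith), sq_nonneg X,
          mul_nonneg (mul_nonneg h0 h0) (show 0 ≤ 1 / 2 - X by linarith)]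
      have h6 : 0 ≤ X ^ 2 * ((1 + X) ^ 2 * (1 - X) / 2 - X) := mul_nonneg (sq_nonneg X) h5
      linarith
    exact h4.trans (mul_le_mul_of_nonneg_left h2 (by linarith))
  rw [Real.exp_neg]
  rw [inv_le_iff_one_le_mul₀ (Real.exp_pos _)]
  exact h3

end SharpAux

open SharpAux

theorem sharp_proof (hEeb : Stmt_Eeb) (hUid : Stmt_Uid) (hGsum : Stmt_Gsum) (hTail : Stmt_Tail)
    (hTv : Stmt_Tv) : Stmt_Sharp := by
  obtain ⟨C1, hC1⟩ := hGsum 1 (1 / 2) (by norm_num)
  refine ⟨2 + 2 * C1, ?_⟩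
  intro σ c hσ hc hc4
  obtain ⟨ε, hεdef⟩ : ∃ ε, ε = min σ 1 / 8 := ⟨_, rfl⟩
  have hε : 0 < ε := by
    rw [hεdef]
    have : 0 < min σ 1 := lt_min hσ one_pos
    positivity
  have hεσ : 4 * ε ≤ σ := by
    rw [hεdef]
    have := min_le_left σ 1
    linarith
  have hε1 : 8 * ε ≤ 1 := by
    rw [hεdef]
    have := min_le_right σ 1
    linarith
  obtain ⟨C2, n1, hTV⟩ := hTv σ ε hσ hε hεσ
  obtain ⟨n2, hTL⟩ := hTail ε 0 hε
  have e1 : Filter.Tendsto (fun n : ℕ => (n : ℝ) ^ (-(3 / 4) : ℝ)) Filter.atTop (nhds 0) :=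
    (tendsto_rpow_neg_atTop (by norm_num : (0 : ℝ) < 3 / 4)).comp tendsto_natCast_atTop_atTop
  have e2 : Filter.Tendsto (fun n : ℕ => Real.exp (-((n : ℝ) ^ ε))) Filter.atTop (nhds 0) :=
    Real.tendsto_exp_neg_atTop_nhds_zero.comp
      ((tendsto_rpow_atTop hε).comp tendsto_natCast_atTop_atTop)
  have e3 : Filter.Tendsto (fun n : ℕ => |C2| * (n : ℝ) ^ (-σ)) Filter.atTop (nhds 0) := by
    have := ((tendsto_rpow_neg_atTop hσ).comp tendsto_natCast_atTop_atTop).const_mul |C2|
    rw [mul_zero] at this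
    exact this
  have f1 := e1.eventually_le_const hc
  have f2 := e2.eventually_le_const hc
  have f3 := e3.eventually_le_const hc
  obtain ⟨n3, hn3⟩ := Filter.eventually_atTop.mp (f1.and (f2.and f3))
  refine ⟨n1 + n2 + n3 + 1, ?_⟩
  intro n d hn hdom
  obtain ⟨g1, g2, g3⟩ := hn3 n (by omega)
  have hn1 : (1 : ℝ) ≤ n := by
    have : 1 ≤ n := by omega
    exact_mod_cast this
  have hn0 : (0 : ℝ) < n := by linarith
  obtain ⟨hd1, hd2, hev, hy⟩ := hdom
  obtain ⟨⟨hl0, hl1, hL0, hL1, -, -, hy0, -, hb⟩, hq, -, -⟩ := hUid n d hd1 hd2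
  have hden : 0 < 2 * (n : ℝ) * bb n d := by positivity
  have hyy : yy n d = Lam n d * n := rfl
  -- first step
  have s1 : ∀ k, wt n d (1 - c) k ≤ wt n d (1 + c) k
      + 2 * c * ((yy n d * ss n k) ^ 1 * wt n d (1 / 2) k) := by
    intro k
    have hs0 := (hEeb.1 n k).2.1
    have hx : 0 ≤ yy n d * ss n k := mul_nonneg (by linarith) hs0
    unfold wt
    rw [pow_one, mul_assoc (1 - c), mul_assoc (1 + c), mul_assoc (1 / 2 : ℝ)]
    set x := yy n d * ss n k with hxdef
    rw [← mul_div_assoc, ← mul_div_assoc, ← add_div]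
    apply div_le_div_of_nonneg_right _ hden.le
    have h1 : Real.exp (-((1 - c) * x)) ≤ Real.exp (-(1 / 2 * x)) := by
      apply Real.exp_le_exp.mpr
      nlinarith
    have h2 : Real.exp (-((1 + c) * x)) = Real.exp (-((1 - c) * x)) * Real.exp (-(2 * c * x)) := by
      rw [← Real.exp_add]
      congr 1
      ring
    have h3 := Real.add_one_le_exp (-(2 * c * x))
    have h4 : Real.exp (-((1 - c) * x)) * (1 - 2 * c * x) ≤ Real.exp (-((1 + c) * x)) := by
      rw [h2]
      apply mul_le_mul_of_nonneg_left _ (Real.exp_pos _).le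
      linarith
    have h5 : Real.exp (-((1 - c) * x)) * (2 * c * x)
        ≤ Real.exp (-(1 / 2 * x)) * (2 * c * x) :=
      mul_le_mul_of_nonneg_right h1 (by positivity)
    nlinarith
  -- outer part
  have s2 : ∑ k ∈ outt n d ε, wt n d (1 + c) k ≤ c := by
    have h1 : ∑ k ∈ outt n d ε, wt n d (1 + c) k ≤ ∑ k ∈ outt n d ε, wt n d (1 / 4) k := by
      refine sum_le_sum fun k _ => ?_
      have hs0 := (hEeb.1 n k).2.1
      have hx : 0 ≤ yy n d * ss n k := mul_nonneg (by linarith) hs0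
      unfold wt
      apply div_le_div_of_nonneg_right _ hden.le
      apply Real.exp_le_exp.mpr
      rw [mul_assoc, mul_assoc]
      nlinarith
    exact (h1.trans ((hTL n d (by omega) hd1 hd2).2)).trans g2
  -- inner part
  have s3 : ∑ k ∈ inn n d ε, wt n d (1 + c) k ≤ 1 + c := by
    have h1 : ∀ k ∈ inn n d ε, wt n d (1 + c) k ≤ ‖kap n d k‖ := by
      intro k hk
      have hs0 := (hEeb.1 n k).2.1
      have hk' : 2 * Lam n d * ss n k ≤ c := by
        unfold inn at hk
        rw [mem_filter] at hk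
        refine hk.2.trans (le_trans ?_ g1)
        exact Real.rpow_le_rpow_of_exponent_le hn1 (by linarith)
      have hX0 : 0 ≤ 2 * Lam n d * ss n k := by positivity
      have h2 := one_sub_ge (2 * Lam n d * ss n k) hX0 (by linarith)
      rw [← (hq k).1] at h2
      rw [norm_kap hEeb n d k hb]
      unfold wt
      apply div_le_div_of_nonneg_right _ hden.le
      have h3 : Real.exp (-((2 * Lam n d * ss n k + (2 * Lam n d * ss n k) ^ 2) / 2))
          ≤ ‖qq n d k‖ := by
        apply le_of_sq_le_sq _ (norm_nonneg _)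
        rw [← Real.exp_nat_mul]
        refine le_trans (le_of_eq ?_) h2
        congr 1
        push_cast
        ring
      calc Real.exp (-((1 + c) * yy n d * ss n k))
          ≤ Real.exp (-(((n : ℝ) - 1) * ((2 * Lam n d * ss n k
              + (2 * Lam n d * ss n k) ^ 2) / 2))) := by
            apply Real.exp_le_exp.mpr
            rw [hyy]
            have h4 : (2 * Lam n d * ss n k) ^ 2 ≤ c * (2 * Lam n d * ss n k) := by
              rw [sq]
              exact mul_le_mul_of_nonneg_right hk' hX0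
            have h5 : ((n : ℝ) - 1) * ((2 * Lam n d * ss n k
              + (2 * Lam n d * ss n k) ^ 2) / 2) ≤ (n : ℝ) * ((2 * Lam n d * ss n k
              + c * (2 * Lam n d * ss n k)) / 2) := by
              apply mul_le_mul (by linarith) (by linarith) (by positivity) hn0.le
            nlinarith
        _ = Real.exp (-((2 * Lam n d * ss n k + (2 * Lam n d * ss n k) ^ 2) / 2)) ^ (n - 1) := by
            rw [← Real.exp_nat_mul, Nat.cast_sub (by omega)]
            congr 1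
            push_cast
            ring
        _ ≤ ‖qq n d k‖ ^ (n - 1) := pow_le_pow_left₀ (Real.exp_pos _).le h3 _
    have h2 := hTV n d (by omega) ⟨hd1, hd2, hev, hy⟩
    have h3 : C2 / yy n d ≤ c := by
      have hnσ : 0 < (n : ℝ) ^ σ := by positivity
      calc C2 / yy n d ≤ |C2| / yy n d :=
            div_le_div_of_nonneg_right (le_abs_self _) (by linarith)
        _ ≤ |C2| / (n : ℝ) ^ σ := div_le_div_of_nonneg_left (abs_nonneg _) hnσ hy
        _ = |C2| * (n : ℝ) ^ (-σ) := by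
            rw [Real.rpow_neg hn0.le]
            rfl
        _ ≤ c := g3
    have h4 := sum_le_sum h1
    linarith
  have s4 : ∑ k, wt n d (1 + c) k ≤ 1 + 2 * c := by
    have h1 : outt n d ε = univ.filter (fun k => ¬ 2 * Lam n d * ss n k
        ≤ (n : ℝ) ^ (-1 + 2 * ε)) := by
      unfold outt
      ext k
      simp only [mem_filter, not_le]
    have h2 := sum_filter_add_sum_filter_not (univ : Finset (Fin (2 * n)))
      (fun k => 2 * Lam n d * ss n k ≤ (n : ℝ) ^ (-1 + 2 * ε)) (fun k => wt n d (1 + c) k)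
    rw [← h1] at h2
    have h3 : ∑ k ∈ univ.filter (fun k => 2 * Lam n d * ss n k ≤ (n : ℝ) ^ (-1 + 2 * ε)),
        wt n d (1 + c) k = ∑ k ∈ inn n d ε, wt n d (1 + c) k := rfl
    rw [h3] at h2
    linarith
  have s5 := hC1 n d hd1 hd2
  calc ∑ k, wt n d (1 - c) k ≤ ∑ k, (wt n d (1 + c) k
      + 2 * c * ((yy n d * ss n k) ^ 1 * wt n d (1 / 2) k)) := sum_le_sum fun k _ => s1 k
    _ = ∑ k, wt n d (1 + c) k + 2 * c * ∑ k, (yy n d * ss n k) ^ 1 * wt n d (1 / 2) k := by
        rw [sum_add_distrib, ← mul_sum]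
    _ ≤ (1 + 2 * c) + 2 * c * C1 := by
        have : 2 * c * ∑ k, (yy n d * ss n k) ^ 1 * wt n d (1 / 2) k ≤ 2 * c * C1 :=
          mul_le_mul_of_nonneg_left s5 (by positivity)
        linarith
    _ = 1 + (2 + 2 * C1) * c := by ring

end Pool.Agent.RGD
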