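import Pool.Agent.RGD.Stmts

/-!
RGD, module SOFT: the asymptotic expansion of `log RG` in the dense range (MP_3a123b_co).
-/

set_option autoImplicit false

namespace Pool.Agent.RGD

open Finset Pool.Agent.RGA MeasureTheory

namespace Soft

/-- `logS` commutes with algebra homomorphisms -/
theorem logS_map {R S : Type} [CommRing R] [Algebra ℚ R] [CommRing S] [Algebra ℚ S]
    (φ : R →ₐ[ℚ] S) (A : ℕ → R) (w : ℕ) : logS (fun w => φ (A w)) w = φ (logS A w) := by
  induction w using Nat.strong_induction_on with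
  | _ w ih =>
    cases w with
    | zero => simp [logS]
    | succ w =>
      rw [logS, logS, map_sub, map_smul, map_sum]
      congr 2
      refine Finset.sum_congr rfl fun j _ => ?_
      rw [map_smul, map_mul, ih j.val (by omega)]

/-- `logS` does not depend on the constant term -/
theorem logS_congr {R : Type} [CommRing R] [Algebra ℚ R] (A B : ℕ → R)
    (h : ∀ w, 1 ≤ w → A w = B w) (w : ℕ) : logS A w = logS B w := by
  induction w using Nat.strong_induction_on with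
  | _ w ih =>
    cases w with
    | zero => simp [logS]
    | succ w =>
      rw [logS, logS, h (w + 1) (by omega)]
      congr 2
      refine Finset.sum_congr rfl fun j _ => ?_
      rw [h (w + 1 - j.val) (by omega), ih j.val (by omega)]

/-- the embedding `t ↦ X 0` -/
noncomputable def emb : Polynomial ℚ →ₐ[ℚ] Rg := Polynomial.aeval (MvPolynomial.X 0)

theorem supp_emb (P : Polynomial ℚ) (m : ℕ →₀ ℕ) (hm : m ∈ (emb P).support) :
    ∃ i ≤ P.natDegree, m = Finsupp.single 0 i := by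
  classical
  have h1 : emb P = ∑ i ∈ range (P.natDegree + 1), P.coeff i • (MvPolynomial.X 0 : Rg) ^ i := by
    rw [emb, Polynomial.aeval_eq_sum_range]
  rw [h1, MvPolynomial.mem_support_iff, MvPolynomial.coeff_sum] at hm
  obtain ⟨i, hi, hne⟩ := Finset.exists_ne_zero_of_sum_ne_zero hm
  refine ⟨i, by simpa [Nat.lt_succ_iff] using hi, ?_⟩
  rw [MvPolynomial.coeff_smul, MvPolynomial.coeff_X_pow] at hne
  by_contra h
  apply hne
  rw [if_neg (fun h2 => h h2.symm), smul_zero]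

theorem gdeg_single (i : ℕ) : gdeg (Finsupp.single 0 i) = 0 := by
  classical
  rw [gdeg]
  refine Finset.sum_eq_zero fun j hj => ?_
  rw [Finset.mem_erase] at hj
  exact Finsupp.single_eq_of_ne hj.1

theorem aeval_emb (t : ℝ) (G : ℕ → ℂ) (P : Polynomial ℚ) :
    MvPolynomial.aeval (vals t G) (emb P) = ((Polynomial.aeval t P : ℝ) : ℂ) := by
  have h1 : ((Polynomial.aeval t P : ℝ) : ℂ) = Polynomial.aeval (t : ℂ) P := by
    simp only [Polynomial.aeval_eq_sum_range]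
    push_cast
    refine Finset.sum_congr rfl fun i _ => ?_
    simp [Algebra.smul_def]
  rw [h1]
  have h2 : (MvPolynomial.aeval (vals t G)).comp emb = Polynomial.aeval (t : ℂ) := by
    apply Polynomial.algHom_ext
    simp [emb, vals]
  exact congrArg (fun φ => φ P) h2

theorem Bnd_pos (n d : ℕ) (hd : 1 ≤ d) (hdn : 2 * d ≤ n - 1) : 0 < Bnd n d := by
  have hn : (3 : ℝ) ≤ n := by
    have : 3 ≤ n := by omega
    exact_mod_cast this
  have hd' : (0 : ℝ) < d := by exact_mod_cast hd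
  have h1 : 0 < lam n d := by
    unfold lam
    exact div_pos hd' (by linarith)
  have h2 : 0 < 1 - lam n d := by
    have h3 : (2 : ℝ) * d ≤ n - 1 := by
      have : 2 * d + 1 ≤ n := by omega
      have h4 : ((2 * d + 1 : ℕ) : ℝ) ≤ n := by exact_mod_cast this
      push_cast at h4
      linarith
    unfold lam
    rw [sub_pos, div_lt_one (by linarith)]
    linarith
  have h5 : 0 < (n - 1).choose d := Nat.choose_pos (by omega)
  have h6 : (0 : ℝ) < ((n - 1).choose d : ℝ) := by exact_mod_cast h5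
  unfold Bnd
  positivity

end Soft

open Soft in
theorem soft_proof (hExact : Stmt_Exact) (hFew : Stmt_Few) (hSoftz : Stmt_Softz)
    (hEvlog : Stmt_Evlog) (hDeg : Stmt_Deg) : Stmt_Soft := by
  intro σ M hσ0 hσ1
  -- parameters
  obtain ⟨W, hW⟩ := exists_nat_ge (2 * (((M + 1 : ℕ) : ℝ) + 6) / σ)
  have hW2 : 2 * (((M + 1 : ℕ) : ℝ) + 6) ≤ σ * W := by
    rw [div_le_iff₀ hσ0] at hW
    linarith
  have hMW : M ≤ W := by
    have h1 : (M : ℝ) ≤ W := by
      have h2 : σ * (W : ℝ) ≤ W := by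
        have : (0 : ℝ) ≤ W := Nat.cast_nonneg _
        nlinarith
      have h3 : (0 : ℝ) ≤ M := Nat.cast_nonneg _
      push_cast at hW2
      linarith
    exact_mod_cast h1
  obtain ⟨K, hK⟩ : ∃ K : ℕ, K = 2 * W + 2 := ⟨_, rfl⟩
  obtain ⟨ε, hε⟩ : ∃ ε : ℝ, ε = σ / (16 * ((K : ℝ) + 1)) := ⟨_, rfl⟩
  obtain ⟨ε2, hε2⟩ : ∃ ε2 : ℝ, ε2 = σ / (64 * ((K : ℝ) + 2)) := ⟨_, rfl⟩
  have hK0 : (0 : ℝ) ≤ K := Nat.cast_nonneg _
  have hε0 : 0 < ε := by rw [hε]; positivity
  have hε20 : 0 < ε2 := by rw [hε2]; positivity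
  have hεe : 16 * ((K : ℝ) + 1) * ε = σ := by rw [hε]; field_simp
  have hε2e : 64 * ((K : ℝ) + 2) * ε2 = σ := by rw [hε2]; field_simp
  have hPar : Par σ (M + 1) W K ε ε2 := by
    refine ⟨hσ0, hσ1, hW2, hK, hε0, ?_, ?_, hε20, ?_⟩
    · nlinarith
    · linarith
    · linarith
  -- the sequence
  obtain ⟨A, hA⟩ : ∃ A : ℕ → Rg, A = fun w => if w = 0 then 0 else emb (Qt w) := ⟨_, rfl⟩
  have hA0 : A 0 = 0 := by rw [hA]; simp
  obtain ⟨-, -, -, -, -, -, hQt0, hQtd, -⟩ := hDeg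
  have hADeg : DegOK A := by
    intro w m hm
    rw [hA] at hm
    by_cases hw : w = 0
    · simp [hw] at hm
    · simp only [if_neg hw] at hm
      obtain ⟨i, hi, rfl⟩ := supp_emb _ _ hm
      refine ⟨?_, ?_⟩
      · rw [Finsupp.single_eq_same]
        exact hi.trans (hQtd w)
      · rw [gdeg_single]
        exact Nat.zero_le _
  have hlog : ∀ w, logS A w = emb (QQ w) := by
    intro w
    rw [QQ, ← logS_map emb Qt w]
    refine logS_congr _ _ (fun w hw => ?_) w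
    rw [hA]
    simp only
    rw [if_neg (by omega)]
  obtain ⟨n₁, h₁⟩ := hFew σ (M + 1) W K ε ε2 hPar
  obtain ⟨C₂, n₂, h₂⟩ := hSoftz σ (M + 1) W K ε ε2 hPar
  have hs0 : (0 : ℝ) < (M : ℝ) + 1 := by positivity
  obtain ⟨C₃, n₃, h₃⟩ := hEvlog σ (M + 1) W K ε ε2 hPar A hADeg hA0 W le_rfl (1 + 2 * C₂)
    ((M : ℝ) + 1) hs0 (by push_cast; linarith)
  refine ⟨W, |C₃|, max (max n₁ n₂) (max n₃ 1), hMW, fun n d hn hDom => ?_⟩
  have hn1 : n₁ ≤ n := le_trans (le_trans (le_max_left _ _) (le_max_left _ _)) hn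
  have hn2 : n₂ ≤ n := le_trans (le_trans (le_max_right _ _) (le_max_left _ _)) hn
  have hn3 : n₃ ≤ n := le_trans (le_trans (le_max_left _ _) (le_max_right _ _)) hn
  have hn4 : 1 ≤ n := le_trans (le_trans (le_max_right _ _) (le_max_right _ _)) hn
  have hnR : (1 : ℝ) ≤ n := by exact_mod_cast hn4
  have hd := hDom.1
  have hdn := hDom.2.1
  have hBpos := Bnd_pos n d hd hdn
  have e1 := h₁ n d hn1 hDom
  have e2 := h₂ n d hn2 hDom
  have e0 := hExact n d hd hdn
  obtain ⟨t, ht⟩ : ∃ t : ℝ, t = tt n d := ⟨_, rfl⟩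
  rw [← ht] at e2
  obtain ⟨S, hS⟩ : ∃ S : ℝ, S = ∑ w ∈ range (W + 1), Polynomial.aeval t (Qt w) / (n : ℝ) ^ w :=
    ⟨_, rfl⟩
  rw [← hS] at e2
  obtain ⟨x, hx⟩ : ∃ x : ℝ, x = (RG n d : ℝ) / (Bnd n d * Real.exp (1 / 4)) - 1 := ⟨_, rfl⟩
  -- the evaluation of `A`
  have hev : ev A W n t (fun _ => 0) = ((S - 1 : ℝ) : ℂ) := by
    have h1 : S = 1 + ∑ w ∈ range W, Polynomial.aeval t (Qt (w + 1)) / (n : ℝ) ^ (w + 1) := by
      rw [hS, Finset.sum_range_succ', hQt0]
      simp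
      ring
    rw [h1, ev, Finset.sum_range_succ', hA0]
    simp only [map_zero, zero_div, add_zero, add_sub_cancel_left]
    push_cast
    refine Finset.sum_congr rfl fun w _ => ?_
    rw [hA]
    simp only [Nat.add_eq_zero_iff, one_ne_zero, and_false, if_false]
    rw [aeval_emb]
  have hpow : (0 : ℝ) < (n : ℝ) ^ (-((M : ℝ) + 1)) := Real.rpow_pos_of_pos (by linarith) _
  have hs2 : (0 : ℝ) < Real.sqrt 2 := by positivity
  have hs2sq : Real.sqrt 2 * Real.sqrt 2 = 2 := Real.mul_self_sqrt (by norm_num)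
  have he : (0 : ℝ) < Real.exp (1 / 4) := Real.exp_pos _
  -- the main estimate
  have hmain : ‖((x : ℝ) : ℂ) - ev A W n t (fun _ => 0)‖ ≤
      (1 + 2 * C₂) * (n : ℝ) ^ (-((M : ℝ) + 1)) := by
    rw [hev, ← Complex.ofReal_sub, Complex.norm_real, Real.norm_eq_abs]
    have h3 : ‖ZZ n d - 2 * ((Real.exp (1 / 4) / Real.sqrt 2 * S : ℝ) : ℂ)‖ ≤
        (1 + 2 * C₂) * (n : ℝ) ^ (-((M : ℝ) + 1)) := by
      have h4 : ZZ n d - 2 * ((Real.exp (1 / 4) / Real.sqrt 2 * S : ℝ) : ℂ) =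
          (ZZ n d - 2 * Zb n d ε) +
            2 * (Zb n d ε - ((Real.exp (1 / 4) / Real.sqrt 2 * S : ℝ) : ℂ)) := by ring
      rw [h4]
      refine (norm_add_le _ _).trans ?_
      rw [norm_mul, Complex.norm_two]
      push_cast at e1 e2 ⊢
      linarith
    have h5 : ZZ n d - 2 * ((Real.exp (1 / 4) / Real.sqrt 2 * S : ℝ) : ℂ) =
        ((Real.sqrt 2 * Real.exp (1 / 4) * (x - (S - 1)) : ℝ) : ℂ) := by
      rw [e0, hx]
      have h6 : (RG n d : ℝ) / (Bnd n d / Real.sqrt 2) - 2 * (Real.exp (1 / 4) / Real.sqrt 2 * S)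
          = Real.sqrt 2 * Real.exp (1 / 4) *
            ((RG n d : ℝ) / (Bnd n d * Real.exp (1 / 4)) - 1 - (S - 1)) := by
        have h7 : (2 : ℝ) / Real.sqrt 2 = Real.sqrt 2 := by
          rw [div_eq_iff hs2.ne', hs2sq]
        have h8 : 2 * (Real.exp (1 / 4) / Real.sqrt 2 * S) = (2 / Real.sqrt 2) *
          Real.exp (1 / 4) * S := by ring
        rw [h8, h7]
        field_simp
        ring
      rw [← h6]
      push_cast
      ring
    rw [h5, Complex.norm_real, Real.norm_eq_abs, abs_mul,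
      abs_of_pos (mul_pos hs2 he)] at h3
    have h9 : (1 : ℝ) ≤ Real.sqrt 2 * Real.exp (1 / 4) := by
      have h10 : (1 : ℝ) ≤ Real.sqrt 2 := by
        rw [show (1 : ℝ) = Real.sqrt 1 by simp]
        exact Real.sqrt_le_sqrt (by norm_num)
      have h11 : (1 : ℝ) ≤ Real.exp (1 / 4) := Real.one_le_exp (by norm_num)
      nlinarith
    have h12 : (0 : ℝ) ≤ |x - (S - 1)| := abs_nonneg _
    nlinarith
  rw [← ht]
  obtain ⟨hx12, hlogx⟩ := h₃ n d hn3 hDom (fun _ => 0) (by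
    intro i
    rw [norm_zero]
    positivity) x (by rw [← ht]; exact hmain)
  rw [← ht] at hlogx
  rw [Complex.norm_real, Real.norm_eq_abs] at hx12
  have hx1 : (1 : ℝ) / 2 ≤ 1 + x := by
    have := (abs_le.1 hx12).1
    linarith
  have hq : 1 + x = (RG n d : ℝ) / (Bnd n d * Real.exp (1 / 4)) := by rw [hx]; ring
  have hRG : (0 : ℝ) < RG n d := by
    have h1 : 0 < (RG n d : ℝ) / (Bnd n d * Real.exp (1 / 4)) := by rw [← hq]; linarith
    by_contra h
    have h2 : (RG n d : ℝ) = 0 := le_antisymm (not_lt.1 h) (Nat.cast_nonneg _)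
    rw [h2, zero_div] at h1
    exact lt_irrefl _ h1
  refine ⟨by exact_mod_cast hRG, ?_⟩
  have hlogreal : Real.log (1 + x) = Real.log (RG n d) - Real.log (Bnd n d) - 1 / 4 := by
    rw [hq, Real.log_div hRG.ne' (by positivity), Real.log_mul hBpos.ne' he.ne', Real.log_exp]
    ring
  have hevl : ev (logS A) W n t (fun _ => 0) =
      ((∑ w ∈ Icc 1 W, Polynomial.aeval t (QQ w) / (n : ℝ) ^ w : ℝ) : ℂ) := by
    rw [ev, Finset.sum_range_succ', hlog 0]
    have h0 : QQ 0 = 0 := by rw [QQ, logS]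
    rw [h0, map_zero, map_zero, zero_div, add_zero]
    have h1 : ∑ w ∈ Icc 1 W, Polynomial.aeval t (QQ w) / (n : ℝ) ^ w =
        ∑ w ∈ range W, Polynomial.aeval t (QQ (w + 1)) / (n : ℝ) ^ (w + 1) := by
      rw [Finset.range_eq_Ico, Finset.sum_Ico_add' (fun w => Polynomial.aeval t (QQ w) /
        (n : ℝ) ^ w) 0 W 1]
      rfl
    rw [h1]
    push_cast
    refine Finset.sum_congr rfl fun w _ => ?_
    rw [hlog, aeval_emb]
  rw [hevl] at hlogx
  have hcast : Complex.log (1 + (x : ℂ)) = ((Real.log (1 + x) : ℝ) : ℂ) := by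
    rw [Complex.ofReal_log (by linarith)]
    push_cast
    rfl
  rw [hcast, ← Complex.ofReal_sub, Complex.norm_real, Real.norm_eq_abs, hlogreal] at hlogx
  refine hlogx.trans ?_
  have hp1 : (n : ℝ) ^ (-((M : ℝ) + 1)) ≤ (n : ℝ) ^ (-(M : ℝ)) :=
    Real.rpow_le_rpow_of_exponent_le hnR (by linarith)
  calc C₃ * (n : ℝ) ^ (-((M : ℝ) + 1)) ≤ |C₃| * (n : ℝ) ^ (-((M : ℝ) + 1)) :=
        mul_le_mul_of_nonneg_right (le_abs_self _) hpow.le
    _ ≤ |C₃| * (n : ℝ) ^ (-(M : ℝ)) := mul_le_mul_of_nonneg_left hp1 (abs_nonneg _)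

end Pool.Agent.RGD
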