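import Pool.Agent.RGD.Stmts

/-!
Module SPLIT: factorisation of the sum over the configurations with a given outer set.
-/

set_option autoImplicit false

namespace Pool.Agent.RGD

open Finset Pool.Agent.RGA MeasureTheory

namespace SplitX

/-- a product over the unordered pairs as a double product -/
theorem prod_prs {ι : Type} [Fintype ι] [LinearOrder ι] (P : ι → ι → ℂ) :
    ∏ p ∈ prs ι, P p.1 p.2 = ∏ i, ∏ j, if i < j then P i j else 1 := by
  rw [prs, Finset.prod_filter, Fintype.prod_prod_type]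

theorem prod_prs_mul {ι : Type} [Fintype ι] [LinearOrder ι] (g : ι → ℂ) :
    ∏ p ∈ prs ι, (g p.1 * g p.2) = ∏ l, g l ^ (Fintype.card ι - 1) := by
  rw [Finset.prod_mul_distrib, prod_prs (fun i _ => g i), prod_prs (fun _ j => g j),
    Finset.prod_comm (s := univ) (t := univ) (f := fun i j => if i < j then g j else 1),
    ← Finset.prod_mul_distrib]
  refine Finset.prod_congr rfl fun l _ => ?_
  rw [← Finset.prod_filter, ← Finset.prod_filter, Finset.prod_const, Finset.prod_const, ← pow_add]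
  congr 1
  have h1 : Disjoint (univ.filter fun j => l < j) (univ.filter fun j => j < l) := by
    rw [Finset.disjoint_filter]
    intro x _ h h'
    exact lt_asymm h h'
  rw [← Finset.card_union_of_disjoint h1]
  have h2 : (univ.filter fun j => l < j) ∪ (univ.filter fun j => j < l) = univ.erase l := by
    ext x
    simp only [mem_union, mem_filter, mem_univ, true_and, mem_erase, and_true]
    constructor
    · rintro (h | h)
      · exact h.ne'
      · exact h.ne
    · intro h
      exact (lt_or_gt_of_ne h).symm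
  rw [h2, Finset.card_erase_of_mem (mem_univ l), card_univ]

theorem prod_split {n : ℕ} (S : Finset (Fin n)) (h : Fin n → ℂ) :
    ∏ i, h i = (∏ i : {j // j ∈ S}, h i) * ∏ i : {j // j ∉ S}, h i := by
  rw [← Finset.prod_mul_prod_compl S h,
    Finset.prod_subtype S (p := fun j => j ∈ S) (fun _ => Iff.rfl) h,
    Finset.prod_subtype Sᶜ (p := fun j => j ∉ S) (fun _ => Finset.mem_compl) h]

/-- splitting the pairs according to a set -/
theorem prod_prs_split {n : ℕ} (S : Finset (Fin n)) (P : Fin n → Fin n → ℂ)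
    (hP : ∀ i j, P i j = P j i) :
    ∏ p ∈ prs (Fin n), P p.1 p.2 =
      (∏ p ∈ prs {j // j ∈ S}, P p.1 p.2) *
        ((∏ l : {j // j ∉ S}, ∏ j : {j // j ∈ S}, P j l) *
          ∏ p ∈ prs {j // j ∉ S}, P p.1 p.2) := by
  rw [prod_prs P, prod_prs (fun (i j : {j // j ∈ S}) => P i j),
    prod_prs (fun (i j : {j // j ∉ S}) => P i j)]
  set G : Fin n → Fin n → ℂ := fun i j => if i < j then P i j else 1 with hG
  have h1 : ∀ h : Fin n → ℂ, ∏ i, h i = (∏ i : {j // j ∈ S}, h i) * ∏ i : {j // j ∉ S}, h i :=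
    fun h => prod_split S h
  have h2 : ∏ i, ∏ j, G i j = (∏ i : {j // j ∈ S}, ((∏ j : {j // j ∈ S}, G i j) *
      ∏ j : {j // j ∉ S}, G i j)) * ∏ i : {j // j ∉ S}, ((∏ j : {j // j ∈ S}, G i j) *
      ∏ j : {j // j ∉ S}, G i j) := by
    rw [h1]
    congr 1
    · exact Finset.prod_congr rfl fun i _ => h1 _
    · exact Finset.prod_congr rfl fun i _ => h1 _
  have h3 : ∏ l : {j // j ∉ S}, ∏ j : {j // j ∈ S}, P j l =
      (∏ i : {j // j ∈ S}, ∏ j : {j // j ∉ S}, G i j) *
        ∏ i : {j // j ∉ S}, ∏ j : {j // j ∈ S}, G i j := by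
    rw [Finset.prod_comm (s := univ) (t := univ)
      (f := fun (i : {j // j ∈ S}) (j : {j // j ∉ S}) => G i j), ← Finset.prod_mul_distrib]
    refine Finset.prod_congr rfl fun l _ => ?_
    rw [← Finset.prod_mul_distrib]
    refine Finset.prod_congr rfl fun j _ => ?_
    have hne : (j : Fin n) ≠ l := fun h => l.2 (h ▸ j.2)
    rcases lt_or_gt_of_ne hne with h | h
    · simp only [hG]
      rw [if_pos h, if_neg (lt_asymm h), mul_one]
    · simp only [hG]
      rw [if_neg (lt_asymm h), if_pos h, one_mul, hP]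
  have h4 : ∀ (T : Fin n → Prop) [DecidablePred T], (∏ i : {j // T j}, ∏ j : {j // T j},
      if i < j then P i j else 1) = ∏ i : {j // T j}, ∏ j : {j // T j}, G i j := by
    intro T _
    rfl
  rw [h2, Finset.prod_mul_distrib, Finset.prod_mul_distrib, h3]
  have e1 : (∏ i : {j // j ∈ S}, ∏ j : {j // j ∈ S}, if i < j then P i j else 1) =
      ∏ i : {j // j ∈ S}, ∏ j : {j // j ∈ S}, G i j := rfl
  have e2 : (∏ i : {j // j ∉ S}, ∏ j : {j // j ∉ S}, if i < j then P i j else 1) =
      ∏ i : {j // j ∉ S}, ∏ j : {j // j ∉ S}, G i j := rfl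
  rw [e1, e2]
  ring

theorem mem_outt_iff {n d : ℕ} {ε : ℝ} (k : Fin (2 * n)) : k ∈ outt n d ε ↔ ¬ k ∈ inn n d ε := by
  rw [outt, inn, mem_filter, mem_filter]
  simp only [mem_univ, true_and, not_le]

theorem pair_eq {n d : ℕ} (h1 : 1 ≤ d) (h2 : 2 * d ≤ n - 1) (k l : Fin (2 * n)) :
    1 + (lam n d : ℂ) * (ee n k * ee n l - 1) = qq n d k * qq n d l + vv n d k * vv n d l := by
  have hn : (2 : ℝ) * d ≤ n - 1 := by
    have h3 : 2 * d + 1 ≤ n := by omega
    have h4 : ((2 * d + 1 : ℕ) : ℝ) ≤ n := by exact_mod_cast h3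
    push_cast at h4
    linarith
  have hd : (1 : ℝ) ≤ d := by exact_mod_cast h1
  have hN : (0 : ℝ) < n - 1 := by linarith
  have hl0 : 0 ≤ lam n d := by
    unfold lam
    positivity
  have hl1 : lam n d ≤ 1 := by
    unfold lam
    rw [div_le_one hN]
    linarith
  have hL : 0 ≤ Lam n d := by
    unfold Lam
    exact mul_nonneg hl0 (by linarith)
  have hs : ((Real.sqrt (Lam n d) : ℝ) : ℂ) * (Real.sqrt (Lam n d) : ℂ) =
      (lam n d : ℂ) * (1 - lam n d) := by
    rw [← Complex.ofReal_mul, Real.mul_self_sqrt hL, Lam]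
    push_cast
    ring
  unfold qq vv
  linear_combination (-(ee n k - 1) * (ee n l - 1)) * hs

end SplitX

open SplitX

theorem split_proof : Stmt_Split := by
  intro n d ε h1 h2 hq S φ
  rw [Finset.sum_congr rfl fun a _ => Finset.mul_sum (f := fun b =>
    (∏ l, kap n d (b l)) * (∏ l, ∏ j, (qq n d (a j) + vv n d (a j) * uu n d (b l)))
      * ∏ p ∈ prs {j // j ∉ S}, (1 + uu n d (b p.1) * uu n d (b p.2)))
    (s := Fintype.piFinset (fun _ : {j // j ∉ S} => inn n d ε)) (a := φ a * FF n d a)]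
  rw [← Finset.sum_product']
  refine Finset.sum_equiv (Equiv.piEquivPiSubtypeProd (fun j => j ∈ S) (fun _ => Fin (2 * n)))
    ?_ ?_
  · intro k
    rw [mem_filter, mem_product, Fintype.mem_piFinset, Fintype.mem_piFinset]
    simp only [mem_univ, true_and]
    constructor
    · intro h
      constructor
      · intro a
        change k a ∈ outt n d ε
        have : (a : Fin n) ∈ Sout n d ε k := h ▸ a.2
        rw [Sout, mem_filter] at this
        exact this.2
      · intro a
        change k a ∈ inn n d ε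
        by_contra hc
        rw [← mem_outt_iff] at hc
        apply a.2
        refine (Finset.ext_iff.mp h _).mp ?_
        rw [Sout, mem_filter]
        exact ⟨mem_univ _, hc⟩
    · rintro ⟨ha, hb⟩
      ext j
      rw [Sout, mem_filter]
      constructor
      · rintro ⟨_, hj⟩
        by_contra hc
        have := hb ⟨j, hc⟩
        exact (mem_outt_iff _).mp hj this
      · intro hj
        exact ⟨mem_univ _, ha ⟨j, hj⟩⟩
  · intro k hk
    rw [mem_filter] at hk
    have hk := hk.2
    have hin : ∀ l : {j // j ∉ S}, k l ∈ inn n d ε := by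
      intro a
      by_contra hc
      rw [← mem_outt_iff] at hc
      apply a.2
      refine (Finset.ext_iff.mp hk _).mp ?_
      rw [Sout, mem_filter]
      exact ⟨mem_univ _, hc⟩
    have hq0 : ∀ l : {j // j ∉ S}, qq n d (k l) ≠ 0 := fun l => hq _ (hin l)
    change φ (fun j => k j.1) * FF n d k = φ (fun j => k j.1) * FF n d (fun j : {j // j ∈ S} => k j)
      * ((∏ l : {j // j ∉ S}, kap n d (k l)) *
        (∏ l : {j // j ∉ S}, ∏ j : {j // j ∈ S}, (qq n d (k j) + vv n d (k j) * uu n d (k l)))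
        * ∏ p ∈ prs {j // j ∉ S}, (1 + uu n d (k p.1) * uu n d (k p.2)))
    rw [mul_assoc]
    congr 1
    have hpair := prod_prs_split S
      (fun i j => 1 + (lam n d : ℂ) * (ee n (k i) * ee n (k j) - 1))
      (fun i j => by rw [mul_comm (ee n (k i))])
    have hsite : ∏ j, (1 / (ee n (k j) ^ d * ((2 * n * bb n d : ℝ) : ℂ))) =
        (∏ j : {j // j ∈ S}, (1 / (ee n (k j) ^ d * ((2 * n * bb n d : ℝ) : ℂ)))) *
        ∏ j : {j // j ∉ S}, (1 / (ee n (k j) ^ d * ((2 * n * bb n d : ℝ) : ℂ))) :=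
      prod_split S (fun j => 1 / (ee n (k j) ^ d * ((2 * n * bb n d : ℝ) : ℂ)))
    have huv : ∀ l : {j // j ∉ S}, vv n d (k l) = qq n d (k l) * uu n d (k l) := by
      intro l
      rw [uu, mul_div_cancel₀ _ (hq0 l)]
    have hmix : ∏ l : {j // j ∉ S}, ∏ j : {j // j ∈ S},
        (1 + (lam n d : ℂ) * (ee n (k j) * ee n (k l) - 1)) =
        (∏ l : {j // j ∉ S}, qq n d (k l) ^ Fintype.card {j // j ∈ S}) *
        ∏ l : {j // j ∉ S}, ∏ j : {j // j ∈ S}, (qq n d (k j) + vv n d (k j) * uu n d (k l)) := by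
      rw [← Finset.prod_mul_distrib]
      refine Finset.prod_congr rfl fun l _ => ?_
      rw [← Finset.card_univ, ← Finset.prod_const, ← Finset.prod_mul_distrib]
      refine Finset.prod_congr rfl fun j _ => ?_
      rw [pair_eq h1 h2, huv l]
      ring
    have hinn : ∏ p ∈ prs {j // j ∉ S},
        (1 + (lam n d : ℂ) * (ee n (k p.1) * ee n (k p.2) - 1)) =
        (∏ l : {j // j ∉ S}, qq n d (k l) ^ (Fintype.card {j // j ∉ S} - 1)) *
        ∏ p ∈ prs {j // j ∉ S}, (1 + uu n d (k p.1) * uu n d (k p.2)) := by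
      rw [← prod_prs_mul (fun l : {j // j ∉ S} => qq n d (k l)), ← Finset.prod_mul_distrib]
      refine Finset.prod_congr rfl fun p _ => ?_
      rw [pair_eq h1 h2, huv p.1, huv p.2]
      ring
    have hkap : ∏ l : {j // j ∉ S}, kap n d (k l) =
        ((∏ l : {j // j ∉ S}, qq n d (k l) ^ Fintype.card {j // j ∈ S}) *
        ∏ l : {j // j ∉ S}, qq n d (k l) ^ (Fintype.card {j // j ∉ S} - 1)) *
        ∏ j : {j // j ∉ S}, (1 / (ee n (k j) ^ d * ((2 * n * bb n d : ℝ) : ℂ))) := by
      rw [← Finset.prod_mul_distrib, ← Finset.prod_mul_distrib]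
      refine Finset.prod_congr rfl fun l _ => ?_
      have hc : Fintype.card {j // j ∈ S} + (Fintype.card {j // j ∉ S} - 1) = n - 1 := by
        have e1 := Fintype.card_subtype_compl (fun j : Fin n => j ∈ S)
        have e2 : 1 ≤ Fintype.card {j // j ∉ S} := Fintype.card_pos_iff.mpr ⟨l⟩
        have e3 : Fintype.card {j // j ∈ S} ≤ Fintype.card (Fin n) := Fintype.card_subtype_le _
        rw [Fintype.card_fin] at e1 e3
        omega
      rw [← pow_add, hc, kap, kpj, Nat.sub_zero, pow_zero, mul_one, div_eq_mul_one_div]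
    unfold FF
    rw [hpair, hsite, hmix, hinn, hkap]
    ring

end Pool.Agent.RGD
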