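import Pool.Agent.RGD.Stmts

/-!
TAIL: outer grid points have tiny weight.
-/

set_option autoImplicit false

namespace Pool.Agent.RGD

open Finset Pool.Agent.RGA

theorem tail_num (ε C : ℝ) (hε : 0 < ε) : ∃ n₀ : ℕ, ∀ n : ℕ, n₀ ≤ n →
    Real.exp (-((n : ℝ) ^ (2 * ε) / 16)) * C ≤ Real.exp (-(n : ℝ) ^ ε) := by
  have h1 : Filter.Tendsto (fun n : ℕ => (n : ℝ) ^ ε) Filter.atTop Filter.atTop :=
    (tendsto_rpow_atTop hε).comp tendsto_natCast_atTop_atTop
  have h2 := (h1.eventually_ge_atTop (max 32 C))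
  obtain ⟨n₀, hn₀⟩ := Filter.eventually_atTop.mp h2
  refine ⟨n₀, fun n hn => ?_⟩
  have h3 := hn₀ n hn
  set x : ℝ := (n : ℝ) ^ ε with hx
  have hx1 : 32 ≤ x := le_trans (le_max_left _ _) h3
  have hx2 : C ≤ x := le_trans (le_max_right _ _) h3
  have h4 : (n : ℝ) ^ (2 * ε) = x ^ 2 := by
    rw [hx, mul_comm, Real.rpow_mul (Nat.cast_nonneg n)]
    norm_cast
  have h5 : C ≤ Real.exp x := le_trans hx2 (le_trans (by linarith) (Real.add_one_le_exp x))
  rw [h4]
  calc Real.exp (-(x ^ 2 / 16)) * C ≤ Real.exp (-(x ^ 2 / 16)) * Real.exp x :=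
        mul_le_mul_of_nonneg_left h5 (Real.exp_pos _).le
    _ = Real.exp (-(x ^ 2 / 16) + x) := by rw [Real.exp_add]
    _ ≤ Real.exp (-x) := by
        apply Real.exp_le_exp.mpr
        nlinarith

theorem tail_proof (hEeb : Stmt_Eeb) (hUid : Stmt_Uid) (hGsum : Stmt_Gsum) : Stmt_Tail := by
  intro ε J hε
  obtain ⟨C1, hC1⟩ := hGsum 0 (1 / 4) (by norm_num)
  obtain ⟨C2, hC2⟩ := hGsum 0 (1 / 8) (by norm_num)
  obtain ⟨n1, hn1⟩ := tail_num ε C1 hε
  obtain ⟨n2, hn2⟩ := tail_num ε C2 hε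
  refine ⟨max (max n1 n2) (2 * J + 2), fun n d hn hd1 hd2 => ?_⟩
  have hnn1 : n1 ≤ n := le_trans (le_trans (le_max_left _ _) (le_max_left _ _)) hn
  have hnn2 : n2 ≤ n := le_trans (le_trans (le_max_right _ _) (le_max_left _ _)) hn
  have hnJ : 2 * J + 2 ≤ n := le_trans (le_max_right _ _) hn
  obtain ⟨⟨hl0, hl1, hL0, hL1, ht0, ht1, hy0, hy1, hb⟩, hqv, -, -⟩ := hUid n d hd1 hd2
  have hn0 : (0 : ℝ) < n := by
    have : 0 < n := by omega
    exact_mod_cast this
  have hD : (0 : ℝ) < 2 * n * bb n d := by positivity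
  have hyL : yy n d = Lam n d * n := rfl
  -- outer points
  have hout : ∀ k ∈ outt n d ε, (n : ℝ) ^ (2 * ε) ≤ 2 * (yy n d * ss n k) := by
    intro k hk
    have h1 : (n : ℝ) ^ (-1 + 2 * ε) < 2 * Lam n d * ss n k := (Finset.mem_filter.mp hk).2
    have h2 : (n : ℝ) ^ (2 * ε) = n * (n : ℝ) ^ (-1 + 2 * ε) := by
      have : (n : ℝ) * (n : ℝ) ^ (-1 + 2 * ε) = (n : ℝ) ^ (1 : ℝ) * (n : ℝ) ^ (-1 + 2 * ε) := by
        rw [Real.rpow_one]
      rw [this, ← Real.rpow_add hn0]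
      congr 1
      ring
    rw [h2, hyL]
    nlinarith
  have hs0 : ∀ k, 0 ≤ ss n k := fun k => ((hEeb.1 n k).2.1)
  have hs2 : ∀ k, ss n k ≤ 2 := fun k => ((hEeb.1 n k).2.2.1)
  have hw0 : ∀ a k, 0 ≤ wt n d a k := by
    intro a k
    unfold wt
    positivity
  have hsum : ∀ a C : ℝ, (∑ k, (yy n d * ss n k) ^ 0 * wt n d a k ≤ C) →
      ∑ k ∈ outt n d ε, wt n d a k ≤ C := by
    intro a C h
    refine le_trans ?_ h
    have h1 : ∑ k, (yy n d * ss n k) ^ 0 * wt n d a k = ∑ k, wt n d a k :=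
      Finset.sum_congr rfl (fun k _ => by rw [pow_zero, one_mul])
    rw [h1]
    exact Finset.sum_le_sum_of_subset_of_nonneg (Finset.subset_univ _) (fun k _ _ => hw0 a k)
  constructor
  · intro j hj
    have hpt : ∀ k ∈ outt n d ε, ‖kpj n d j k‖
        ≤ Real.exp (-((n : ℝ) ^ (2 * ε) / 16)) * wt n d (1 / 4) k := by
      intro k hk
      have hk' := hout k hk
      obtain ⟨hq, hv⟩ := hqv k
      have he : ‖ee n k‖ = 1 := (hEeb.1 n k).1
      have h1 : ‖kpj n d j k‖ = ‖qq n d k‖ ^ (n - 1 - j) * ‖vv n d k‖ ^ j / (2 * n * bb n d) := by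
        unfold kpj
        rw [norm_div, norm_mul, norm_mul, norm_pow, norm_pow, norm_pow, he, one_pow, one_mul]
        congr 1
        rw [Complex.norm_real, Real.norm_of_nonneg hD.le]
      have h2 : ‖vv n d k‖ ≤ 1 := by
        have : ‖vv n d k‖ ^ 2 ≤ 1 := by
          rw [hv]
          nlinarith [hs0 k, hs2 k]
        exact (sq_le_one_iff₀ (norm_nonneg _)).mp this
      have h3 : ‖vv n d k‖ ^ j ≤ 1 := pow_le_one₀ (norm_nonneg _) h2
      have h4 : ‖qq n d k‖ ≤ Real.exp (-(Lam n d * ss n k)) := by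
        have h5 : ‖qq n d k‖ ^ 2 ≤ Real.exp (-(Lam n d * ss n k)) ^ 2 := by
          rw [hq, ← Real.exp_nat_mul]
          have := Real.add_one_le_exp (((2 : ℕ) : ℝ) * -(Lam n d * ss n k))
          refine le_trans ?_ this
          push_cast
          nlinarith
        exact le_of_sq_le_sq h5 (Real.exp_pos _).le
      have h6 : ‖qq n d k‖ ^ (n - 1 - j) ≤ Real.exp (-(yy n d * ss n k / 2)) := by
        refine le_trans (pow_le_pow_left₀ (norm_nonneg _) h4 _) ?_
        rw [← Real.exp_nat_mul]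
        apply Real.exp_le_exp.mpr
        have h7 : (n : ℝ) / 2 ≤ ((n - 1 - j : ℕ) : ℝ) := by
          have h8 : n ≤ 2 * (n - 1 - j) := by omega
          have h9 : (n : ℝ) ≤ 2 * ((n - 1 - j : ℕ) : ℝ) := by exact_mod_cast h8
          linarith
        have h10 : 0 ≤ Lam n d * ss n k := mul_nonneg hL0.le (hs0 k)
        rw [hyL]
        nlinarith [mul_le_mul_of_nonneg_right h7 h10]
      rw [h1]
      calc ‖qq n d k‖ ^ (n - 1 - j) * ‖vv n d k‖ ^ j / (2 * n * bb n d)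
          ≤ Real.exp (-(yy n d * ss n k / 2)) / (2 * n * bb n d) := by
            apply div_le_div_of_nonneg_right _ hD.le
            calc ‖qq n d k‖ ^ (n - 1 - j) * ‖vv n d k‖ ^ j
                ≤ Real.exp (-(yy n d * ss n k / 2)) * 1 :=
                  mul_le_mul h6 h3 (pow_nonneg (norm_nonneg _) _) (Real.exp_pos _).le
              _ = _ := mul_one _
        _ = Real.exp (-(yy n d * ss n k / 4)) * wt n d (1 / 4) k := by
            unfold wt
            rw [mul_div_assoc', ← Real.exp_add]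
            congr 2
            ring
        _ ≤ _ := by
            apply mul_le_mul_of_nonneg_right _ (hw0 _ _)
            apply Real.exp_le_exp.mpr
            have : 0 ≤ (n : ℝ) ^ (2 * ε) := by positivity
            linarith
    calc ∑ k ∈ outt n d ε, ‖kpj n d j k‖
        ≤ ∑ k ∈ outt n d ε, Real.exp (-((n : ℝ) ^ (2 * ε) / 16)) * wt n d (1 / 4) k :=
          Finset.sum_le_sum hpt
      _ = Real.exp (-((n : ℝ) ^ (2 * ε) / 16)) * ∑ k ∈ outt n d ε, wt n d (1 / 4) k := by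
          rw [Finset.mul_sum]
      _ ≤ Real.exp (-((n : ℝ) ^ (2 * ε) / 16)) * C1 :=
          mul_le_mul_of_nonneg_left (hsum _ _ (hC1 n d hd1 hd2)) (Real.exp_pos _).le
      _ ≤ _ := hn1 n hnn1
  · have hpt : ∀ k ∈ outt n d ε, wt n d (1 / 4) k
        ≤ Real.exp (-((n : ℝ) ^ (2 * ε) / 16)) * wt n d (1 / 8) k := by
      intro k hk
      have hk' := hout k hk
      have h1 : wt n d (1 / 4) k
          = Real.exp (-(yy n d * ss n k / 8)) * wt n d (1 / 8) k := by
        unfold wt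
        rw [mul_div_assoc', ← Real.exp_add]
        congr 2
        ring
      rw [h1]
      apply mul_le_mul_of_nonneg_right _ (hw0 _ _)
      apply Real.exp_le_exp.mpr
      linarith
    calc ∑ k ∈ outt n d ε, wt n d (1 / 4) k
        ≤ ∑ k ∈ outt n d ε, Real.exp (-((n : ℝ) ^ (2 * ε) / 16)) * wt n d (1 / 8) k :=
          Finset.sum_le_sum hpt
      _ = Real.exp (-((n : ℝ) ^ (2 * ε) / 16)) * ∑ k ∈ outt n d ε, wt n d (1 / 8) k := by
          rw [Finset.mul_sum]
      _ ≤ Real.exp (-((n : ℝ) ^ (2 * ε) / 16)) * C2 :=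
          mul_le_mul_of_nonneg_left (hsum _ _ (hC2 n d hd1 hd2)) (Real.exp_pos _).le
      _ ≤ _ := hn2 n hnn2

end Pool.Agent.RGD
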