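import Pool.Agent.RGD.Stmts

/-!
TV: total variation of the one site weight.
-/

set_option autoImplicit false

namespace Pool.Agent.RGD

open Finset Pool.Agent.RGA

namespace TvAux

lemma sin_sub_le (x : ℝ) : |Real.sin x - x| ≤ |x| ^ 3 / 4 := by
  have h := Real.abs_sub_sin_le x
  rw [abs_sub_comm] at h
  have h2 : 0 ≤ |x| ^ 3 := by positivity
  linarith

lemma rew (l θ : ℝ) :
    (1 + (l : ℂ) * (Complex.exp ((θ : ℂ) * Complex.I) - 1))
      * Complex.exp (((-(l * θ) : ℝ) : ℂ) * Complex.I)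
    = ((1 - l : ℝ) : ℂ) * Complex.exp (((-(l * θ) : ℝ) : ℂ) * Complex.I)
      + (l : ℂ) * Complex.exp ((((1 - l) * θ : ℝ) : ℂ) * Complex.I) := by
  have h : Complex.exp ((((1 - l) * θ : ℝ) : ℂ) * Complex.I)
      = Complex.exp ((θ : ℂ) * Complex.I) * Complex.exp (((-(l * θ) : ℝ) : ℂ) * Complex.I) := by
    rw [← Complex.exp_add]
    congr 1
    push_cast
    ring
  rw [h]
  push_cast
  ring

lemma im_bound (l θ : ℝ) (hl0 : 0 ≤ l) (hl1 : l ≤ 1) (hθ : |θ| ≤ 1) (w : ℂ)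
    (hw : w = (1 + (l : ℂ) * (Complex.exp ((θ : ℂ) * Complex.I) - 1))
      * Complex.exp (((-(l * θ) : ℝ) : ℂ) * Complex.I)) :
    0 ≤ w.re ∧ |w.im| ≤ l * (1 - l) * |θ| ^ 3 / 4 := by
  rw [rew] at hw
  have hre : w.re = (1 - l) * Real.cos (-(l * θ)) + l * Real.cos ((1 - l) * θ) := by
    rw [hw, Complex.add_re, Complex.re_ofReal_mul, Complex.re_ofReal_mul,
      Complex.exp_ofReal_mul_I_re, Complex.exp_ofReal_mul_I_re]
  have him : w.im = (1 - l) * Real.sin (-(l * θ)) + l * Real.sin ((1 - l) * θ) := by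
    rw [hw, Complex.add_im, Complex.im_ofReal_mul, Complex.im_ofReal_mul,
      Complex.exp_ofReal_mul_I_im, Complex.exp_ofReal_mul_I_im]
  have h1l : 0 ≤ 1 - l := by linarith
  have a1 : |(-(l * θ))| = l * |θ| := by rw [abs_neg, abs_mul, abs_of_nonneg hl0]
  have a2 : |(1 - l) * θ| = (1 - l) * |θ| := by rw [abs_mul, abs_of_nonneg h1l]
  have b0 := abs_nonneg θ
  have b1 : |(-(l * θ))| ≤ 1 := by rw [a1]; nlinarith
  have b2 : |(1 - l) * θ| ≤ 1 := by rw [a2]; nlinarith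
  constructor
  · have hpos : ∀ x : ℝ, |x| ≤ 1 → 0 ≤ Real.cos x := by
      intro x hx
      have hpi := Real.pi_gt_three
      obtain ⟨hx1, hx2⟩ := abs_le.mp hx
      exact Real.cos_nonneg_of_neg_pi_div_two_le_of_le (by linarith) (by linarith)
    rw [hre]
    exact add_nonneg (mul_nonneg h1l (hpos _ b1)) (mul_nonneg hl0 (hpos _ b2))
  · have c1 := sin_sub_le (-(l * θ))
    have c2 := sin_sub_le ((1 - l) * θ)
    rw [a1] at c1
    rw [a2] at c2
    have e : w.im = (1 - l) * (Real.sin (-(l * θ)) - (-(l * θ)))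
        + l * (Real.sin ((1 - l) * θ) - (1 - l) * θ) := by
      rw [him]; ring
    rw [e]
    calc |(1 - l) * (Real.sin (-(l * θ)) - (-(l * θ)))
        + l * (Real.sin ((1 - l) * θ) - (1 - l) * θ)|
        ≤ (1 - l) * |Real.sin (-(l * θ)) - (-(l * θ))|
          + l * |Real.sin ((1 - l) * θ) - (1 - l) * θ| := by
          refine (abs_add_le _ _).trans ?_
          rw [abs_mul, abs_mul, abs_of_nonneg h1l, abs_of_nonneg hl0]
      _ ≤ (1 - l) * ((l * |θ|) ^ 3 / 4) + l * (((1 - l) * |θ|) ^ 3 / 4) := by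
          gcongr
      _ = l * (1 - l) * |θ| ^ 3 / 4 * (l ^ 2 + (1 - l) ^ 2) := by ring
      _ ≤ l * (1 - l) * |θ| ^ 3 / 4 * 1 := by
          apply mul_le_mul_of_nonneg_left _ (by positivity)
          nlinarith
      _ = _ := by ring

lemma sin_nat_mul (N : ℕ) (x : ℝ) : |Real.sin (N * x)| ≤ N * |Real.sin x| := by
  induction N with
  | zero => simp
  | succ N ih =>
    have e : ((N + 1 : ℕ) : ℝ) * x = N * x + x := by push_cast; ring
    rw [e, Real.sin_add]
    have h1 := Real.abs_cos_le_one x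
    have h2 := Real.abs_cos_le_one (N * x)
    have h3 := abs_nonneg (Real.sin x)
    have h4 := abs_nonneg (Real.sin (N * x))
    calc |Real.sin (N * x) * Real.cos x + Real.cos (N * x) * Real.sin x|
        ≤ |Real.sin (N * x)| * |Real.cos x| + |Real.cos (N * x)| * |Real.sin x| := by
          refine (abs_add_le _ _).trans ?_
          rw [abs_mul, abs_mul]
      _ ≤ |Real.sin (N * x)| * 1 + 1 * |Real.sin x| := by gcongr
      _ ≤ _ := by push_cast; linarith

lemma pow_bound (w : ℂ) (hw : 0 ≤ w.re) (hw0 : w ≠ 0) (N : ℕ) :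
    ‖w ^ N‖ - (w ^ N).re ≤ (N : ℝ) ^ 2 * ‖w‖ ^ N * (w.im ^ 2 / ‖w‖ ^ 2) := by
  set r := ‖w‖ with hr
  set φ := Complex.arg w with hφ
  have hr0 : 0 < r := norm_pos_iff.mpr hw0
  have e1 : w = (r : ℂ) * Complex.exp ((φ : ℂ) * Complex.I) :=
    (Complex.norm_mul_exp_arg_mul_I w).symm
  have e2 : w ^ N = ((r ^ N : ℝ) : ℂ) * Complex.exp (((N * φ : ℝ) : ℂ) * Complex.I) := by
    conv_lhs => rw [e1]
    rw [mul_pow, ← Complex.exp_nat_mul]
    push_cast
    congr 2
    ring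
  have e3 : (w ^ N).re = r ^ N * Real.cos (N * φ) := by
    rw [e2, Complex.re_ofReal_mul, Complex.exp_ofReal_mul_I_re]
  have e4 : w.re = r * Real.cos φ := by
    conv_lhs => rw [e1]
    rw [Complex.re_ofReal_mul, Complex.exp_ofReal_mul_I_re]
  have e5 : r ^ 2 = w.re ^ 2 + w.im ^ 2 := by
    rw [hr, ← Complex.normSq_eq_norm_sq, Complex.normSq_apply]; ring
  have half : ∀ x : ℝ, 1 - Real.cos x = 2 * Real.sin (x / 2) ^ 2 := by
    intro x
    have h1 := Real.cos_sq (x / 2)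
    have h2 := Real.sin_sq_add_cos_sq (x / 2)
    rw [show 2 * (x / 2) = x by ring] at h1
    linarith
  have h1 : 1 - Real.cos (N * φ) ≤ (N : ℝ) ^ 2 * (1 - Real.cos φ) := by
    rw [half, half φ]
    have h := sin_nat_mul N (φ / 2)
    rw [show (N : ℝ) * (φ / 2) = N * φ / 2 by ring] at h
    have h2 : Real.sin (N * φ / 2) ^ 2 ≤ ((N : ℝ) * |Real.sin (φ / 2)|) ^ 2 := by
      rw [← sq_abs]
      exact pow_le_pow_left₀ (abs_nonneg _) h 2
    rw [mul_pow, sq_abs] at h2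
    linarith
  have h2 : 1 - Real.cos φ ≤ w.im ^ 2 / r ^ 2 := by
    rw [le_div_iff₀ (by positivity)]
    have : (1 - Real.cos φ) * r ^ 2 = (r - w.re) * r := by rw [e4]; ring
    rw [this]
    have h3 : w.im ^ 2 = (r - w.re) * (r + w.re) := by nlinarith
    rw [h3]
    apply mul_le_mul_of_nonneg_left (by linarith)
    nlinarith
  rw [norm_pow, ← hr, e3]
  calc r ^ N - r ^ N * Real.cos (N * φ) = r ^ N * (1 - Real.cos (N * φ)) := by ring
    _ ≤ r ^ N * ((N : ℝ) ^ 2 * (w.im ^ 2 / r ^ 2)) := by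
        apply mul_le_mul_of_nonneg_left _ (by positivity)
        exact h1.trans (mul_le_mul_of_nonneg_left h2 (by positivity))
    _ = _ := by ring

/-- one site -/
lemma site (n d : ℕ) (hd : 1 ≤ d) (hdn : 2 * d ≤ n - 1) (hl0 : 0 ≤ lam n d) (hl1 : lam n d ≤ 1)
    (hb : 0 < bb n d) (hL : Lam n d = lam n d * (1 - lam n d)) (hL0 : 0 < Lam n d)
    (hL4 : Lam n d ≤ 1 / 4) (k : Fin (2 * n))
    (hq : ‖qq n d k‖ ^ 2 = 1 - 2 * Lam n d * ss n k) (hs : ss n k ≤ 1 / 5) :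
    ‖kap n d k‖ ≤ wt n d (1 / 2) k ∧
    ‖kap n d k‖ - (kap n d k).re ≤ ‖kap n d k‖ * (100 * (Lam n d * n) ^ 2 * ss n k ^ 3) := by
  have hn : 1 ≤ n := by omega
  have hn3 : 3 ≤ n := by omega
  have hn' : (1 : ℝ) ≤ n := by exact_mod_cast hn
  have hN : ((n - 1 : ℕ) : ℝ) = n - 1 := by push_cast [Nat.cast_sub hn]; ring
  have hNpos : (0 : ℝ) < ((n - 1 : ℕ) : ℝ) := by
    have : 0 < n - 1 := by omega
    exact_mod_cast this
  have hs0 : 0 ≤ ss n k := by
    unfold ss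
    have : (ee n k).re ≤ ‖ee n k‖ := Complex.re_le_norm _
    have h2 : ‖ee n k‖ = 1 := by unfold ee; rw [Complex.norm_exp_ofReal_mul_I]
    linarith
  have he1 : ‖ee n k‖ = 1 := by unfold ee; rw [Complex.norm_exp_ofReal_mul_I]
  set θ := Complex.arg (ee n k) with hθ
  have heq : ee n k = Complex.exp ((θ : ℂ) * Complex.I) := by
    have := Complex.norm_mul_exp_arg_mul_I (ee n k)
    rw [he1] at this
    rw [← this]; simp [hθ]
  have hθpi : |θ| ≤ Real.pi := Complex.abs_arg_le_pi _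
  have hscos : ss n k = 1 - Real.cos θ := by
    unfold ss; rw [heq, Complex.exp_ofReal_mul_I_re]
  have hθ2 : θ ^ 2 ≤ 5 * ss n k := by
    have h := Real.cos_le_one_sub_mul_cos_sq hθpi
    have hpi := Real.pi_pos
    have hpi2 : Real.pi ^ 2 ≤ 10 := by
      have h1 := Real.pi_lt_d2
      nlinarith
    have h2 : 2 / Real.pi ^ 2 * θ ^ 2 ≤ ss n k := by rw [hscos]; linarith
    rw [div_mul_eq_mul_div, div_le_iff₀ (by positivity)] at h2
    nlinarith
  have hθ1 : |θ| ≤ 1 := by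
    rw [abs_le_one_iff_mul_self_le_one]
    nlinarith
  -- the base
  set w : ℂ := (1 + (lam n d : ℂ) * (Complex.exp ((θ : ℂ) * Complex.I) - 1))
      * Complex.exp (((-(lam n d * θ) : ℝ) : ℂ) * Complex.I) with hw
  obtain ⟨hwre, hwim⟩ := im_bound (lam n d) θ hl0 hl1 hθ1 w hw
  have hwq : ‖w‖ = ‖qq n d k‖ := by
    rw [hw, norm_mul, Complex.norm_exp_ofReal_mul_I, mul_one]
    unfold qq
    rw [heq]
  have hw2 : ‖w‖ ^ 2 = 1 - 2 * Lam n d * ss n k := by rw [hwq, hq]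
  have hLs : 2 * Lam n d * ss n k ≤ 1 / 10 := by nlinarith
  have hw2' : 9 / 10 ≤ ‖w‖ ^ 2 := by linarith
  have hw0 : w ≠ 0 := by
    intro h
    rw [h, norm_zero] at hw2'
    norm_num at hw2'
  have hdl : lam n d * ((n - 1 : ℕ) : ℝ) = d := by
    unfold lam
    rw [hN]
    field_simp
    rw [div_self]
    rw [← hN]; exact hNpos.ne'
  have hpw : w ^ (n - 1) = qq n d k ^ (n - 1) / ee n k ^ d := by
    rw [hw, mul_pow, ← Complex.exp_nat_mul, div_eq_mul_inv]
    congr 1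
    · unfold qq; rw [heq]
    · rw [heq, ← Complex.exp_nat_mul, ← Complex.exp_neg]
      congr 1
      have hdl' : (lam n d : ℂ) * ((n - 1 : ℕ) : ℂ) = (d : ℂ) := by exact_mod_cast hdl
      rw [← hdl']
      push_cast
      ring
  set D : ℝ := 2 * n * bb n d with hD
  have hD0 : 0 < D := by rw [hD]; positivity
  have hkap : kap n d k = w ^ (n - 1) / (D : ℂ) := by
    unfold kap kpj
    rw [hpw]
    simp only [Nat.sub_zero, pow_zero, mul_one]
    rw [div_div]
  have hnk : ‖kap n d k‖ = ‖w‖ ^ (n - 1) / D := by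
    rw [hkap, norm_div, norm_pow, Complex.norm_real, Real.norm_eq_abs, abs_of_pos hD0]
  have hrk : (kap n d k).re = (w ^ (n - 1)).re / D := by
    rw [hkap, Complex.div_ofReal_re]
  constructor
  · rw [hnk]
    unfold wt
    rw [← hD]
    apply div_le_div_of_nonneg_right _ hD0.le
    -- ‖w‖^(n-1) ≤ exp (-(1/2) y s)
    have h1 : ‖w‖ ^ 2 ≤ Real.exp (-(2 * Lam n d * ss n k)) := by
      rw [hw2]
      have := Real.add_one_le_exp (-(2 * Lam n d * ss n k))
      linarith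
    have h2 : ‖w‖ ≤ Real.exp (-(Lam n d * ss n k)) := by
      have : Real.exp (-(2 * Lam n d * ss n k)) = Real.exp (-(Lam n d * ss n k)) ^ 2 := by
        rw [← Real.exp_nat_mul]; congr 1; push_cast; ring
      rw [this] at h1
      exact le_of_sq_le_sq h1 (Real.exp_pos _).le
    calc ‖w‖ ^ (n - 1) ≤ Real.exp (-(Lam n d * ss n k)) ^ (n - 1) :=
          pow_le_pow_left₀ (norm_nonneg _) h2 _
      _ = Real.exp (-(((n - 1 : ℕ) : ℝ) * (Lam n d * ss n k))) := by
          rw [← Real.exp_nat_mul]; congr 1; ring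
      _ ≤ _ := by
          apply Real.exp_le_exp.mpr
          apply neg_le_neg
          unfold yy
          rw [hN]
          have hn3' : (3 : ℝ) ≤ n := by exact_mod_cast hn3
          have : 0 ≤ Lam n d * ss n k := by positivity
          nlinarith
  · have hpb := pow_bound w hwre hw0 (n - 1)
    rw [norm_pow] at hpb
    rw [hnk, hrk, ← sub_div, div_mul_eq_mul_div]
    apply div_le_div_of_nonneg_right _ hD0.le
    refine hpb.trans ?_
    have h3 : w.im ^ 2 ≤ 125 / 16 * (Lam n d) ^ 2 * ss n k ^ 3 := by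
      rw [← hL] at hwim
      have h4 : w.im ^ 2 ≤ (Lam n d * |θ| ^ 3 / 4) ^ 2 := by
        rw [← sq_abs]
        exact pow_le_pow_left₀ (abs_nonneg _) hwim 2
      have h5 : (Lam n d * |θ| ^ 3 / 4) ^ 2 = (Lam n d) ^ 2 / 16 * (θ ^ 2) ^ 3 := by
        rw [← sq_abs θ]; ring
      rw [h5] at h4
      have h6 : (θ ^ 2) ^ 3 ≤ (5 * ss n k) ^ 3 := pow_le_pow_left₀ (sq_nonneg _) hθ2 3
      calc w.im ^ 2 ≤ (Lam n d) ^ 2 / 16 * (θ ^ 2) ^ 3 := h4
        _ ≤ (Lam n d) ^ 2 / 16 * (5 * ss n k) ^ 3 := by gcongr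
        _ = _ := by ring
    have h7 : w.im ^ 2 / ‖w‖ ^ 2 ≤ 100 * (Lam n d) ^ 2 * ss n k ^ 3 := by
      rw [div_le_iff₀ (by positivity)]
      have h8 : 0 ≤ (Lam n d) ^ 2 * ss n k ^ 3 := by positivity
      nlinarith
    have hNn : (((n - 1 : ℕ) : ℝ)) ^ 2 ≤ (n : ℝ) ^ 2 := by
      rw [hN]; nlinarith
    calc ((n - 1 : ℕ) : ℝ) ^ 2 * ‖w‖ ^ (n - 1) * (w.im ^ 2 / ‖w‖ ^ 2)
        ≤ (n : ℝ) ^ 2 * ‖w‖ ^ (n - 1) * (100 * (Lam n d) ^ 2 * ss n k ^ 3) := by
          gcongr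
      _ = _ := by ring

end TvAux

open TvAux

theorem tv_proof (hUid : Stmt_Uid) (hGsum : Stmt_Gsum) (hTail : Stmt_Tail)
    (hMrec : Stmt_Mrec) : Stmt_Tv := by
  intro σ ε hσ hε h4
  obtain ⟨C3, hC3⟩ := hGsum 3 (1 / 2) (by norm_num)
  obtain ⟨n1, hn1⟩ := hTail ε 0 hε
  -- eventually facts
  have ev1 : ∀ᶠ n : ℕ in Filter.atTop, (n : ℝ) * Real.exp (-(n : ℝ) ^ ε) ≤ 1 := by
    have h1 := tendsto_rpow_mul_exp_neg_mul_atTop_nhds_zero (1 / ε) 1 one_pos
    have h2 : Filter.Tendsto (fun n : ℕ => (n : ℝ) ^ ε) Filter.atTop Filter.atTop :=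
      (tendsto_rpow_atTop hε).comp tendsto_natCast_atTop_atTop
    have h3 := (h1.comp h2).eventually (gt_mem_nhds (show (0 : ℝ) < 1 by norm_num))
    filter_upwards [h3] with n hn
    have e : ((n : ℝ) ^ ε) ^ (1 / ε) = n := by
      rw [← Real.rpow_mul (Nat.cast_nonneg n), mul_one_div_cancel hε.ne', Real.rpow_one]
    simp only [Function.comp] at hn
    rw [e] at hn
    have e2 : (-1 : ℝ) * (n : ℝ) ^ ε = -(n : ℝ) ^ ε := by ring
    rw [e2] at hn
    exact hn.le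
  have ev2 : ∀ᶠ n : ℕ in Filter.atTop, (n : ℝ) ^ (-(σ / 2)) ≤ 2 / 5 := by
    have h2 : Filter.Tendsto (fun n : ℕ => (n : ℝ) ^ (-(σ / 2))) Filter.atTop (nhds 0) :=
      (tendsto_rpow_neg_atTop (half_pos hσ)).comp tendsto_natCast_atTop_atTop
    filter_upwards [h2.eventually (gt_mem_nhds (show (0 : ℝ) < 2 / 5 by norm_num))] with n hn
    exact hn.le
  obtain ⟨n2, hn2⟩ := Filter.eventually_atTop.mp (ev1.and ev2)
  refine ⟨100 * C3 + 1, max n1 n2, ?_⟩
  intro n d hnn hDom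
  obtain ⟨hd, hdn, _, hyσ⟩ := hDom
  obtain ⟨hA, hB⟩ := hn2 n (le_trans (le_max_right _ _) hnn)
  obtain ⟨⟨hl0, hl1, hL0, hL4, _, _, hy1, hy2, hb⟩, hU2, _, _⟩ := hUid n d hd hdn
  have hn : 1 ≤ n := by omega
  have hn' : (1 : ℝ) ≤ n := by exact_mod_cast hn
  have hn0 : (0 : ℝ) < n := by linarith
  have hy0 : 0 < yy n d := by linarith
  have hLdef : Lam n d = lam n d * (1 - lam n d) := rfl
  have hsite : ∀ k ∈ inn n d ε, ‖kap n d k‖ - (kap n d k).re
      ≤ 100 / yy n d * ((yy n d * ss n k) ^ 3 * wt n d (1 / 2) k) := by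
    intro k hk
    have hk' : 2 * Lam n d * ss n k ≤ (n : ℝ) ^ (-1 + 2 * ε) := (mem_filter.mp hk).2
    have hs0 : 0 ≤ ss n k := by
      unfold ss
      have : (ee n k).re ≤ ‖ee n k‖ := Complex.re_le_norm _
      have h2 : ‖ee n k‖ = 1 := by unfold ee; rw [Complex.norm_exp_ofReal_mul_I]
      linarith
    have hs : ss n k ≤ 1 / 5 := by
      have h1 : 2 * yy n d * ss n k ≤ (n : ℝ) ^ (2 * ε) := by
        have : (n : ℝ) ^ (2 * ε) = (n : ℝ) ^ (-1 + 2 * ε) * n := by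
          rw [← Real.rpow_add_one hn0.ne']; congr 1; ring
        rw [this]
        have h2 := mul_le_mul_of_nonneg_right hk' hn0.le
        unfold yy
        linarith
      have h3 : 2 * (n : ℝ) ^ σ * ss n k ≤ (n : ℝ) ^ (2 * ε) := by
        refine le_trans ?_ h1
        apply mul_le_mul_of_nonneg_right _ hs0
        linarith
      have h5 : (n : ℝ) ^ (2 * ε) ≤ (n : ℝ) ^ (σ / 2) :=
        Real.rpow_le_rpow_of_exponent_le hn' (by linarith)
      have h6 : (n : ℝ) ^ σ = (n : ℝ) ^ (σ / 2) * (n : ℝ) ^ (σ / 2) := by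
        rw [← Real.rpow_add hn0]; congr 1; ring
      have h7 : 0 < (n : ℝ) ^ (σ / 2) := Real.rpow_pos_of_pos hn0 _
      have h8 : 2 * (n : ℝ) ^ (σ / 2) * ss n k ≤ 1 := by
        have : (n : ℝ) ^ (σ / 2) * (2 * (n : ℝ) ^ (σ / 2) * ss n k) ≤ (n : ℝ) ^ (σ / 2) * 1 := by
          rw [h6] at h3
          nlinarith
        exact le_of_mul_le_mul_left this h7
      have h9 : (n : ℝ) ^ (-(σ / 2)) * (n : ℝ) ^ (σ / 2) = 1 := by
        rw [← Real.rpow_add hn0]; simp
      have h10 : 5 / 2 ≤ (n : ℝ) ^ (σ / 2) := by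
        nlinarith
      nlinarith
    obtain ⟨hs1, hs2⟩ := site n d hd hdn hl0.le (by linarith) hb hLdef hL0 hL4 k (hU2 k).1 hs
    refine hs2.trans ?_
    have e : 100 / yy n d * ((yy n d * ss n k) ^ 3 * wt n d (1 / 2) k)
        = wt n d (1 / 2) k * (100 * (Lam n d * n) ^ 2 * ss n k ^ 3) := by
      have : Lam n d * n = yy n d := rfl
      rw [this]
      field_simp
    rw [e]
    apply mul_le_mul_of_nonneg_right hs1
    positivity
  -- the real part
  have hcompl : ∀ k, k ∈ outt n d ε ↔ k ∉ inn n d ε := by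
    intro k
    unfold outt inn
    simp
  have hsplit : ∑ k, kap n d k = ∑ k ∈ inn n d ε, kap n d k + ∑ k ∈ outt n d ε, kap n d k := by
    have : outt n d ε = univ \ inn n d ε := by
      ext k; rw [hcompl]; simp
    rw [this, add_comm, sum_sdiff (subset_univ _)]
  have htot : ∑ k, kap n d k = 1 := by
    have := hMrec n d hd hdn 0 (Nat.zero_le _)
    simp only [mm] at this
    unfold kap
    rw [this]; simp
  have hout : ∑ k ∈ outt n d ε, ‖kap n d k‖ ≤ Real.exp (-(n : ℝ) ^ ε) :=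
    (hn1 n d (le_trans (le_max_left _ _) hnn) hd hdn).1 0 le_rfl
  have hre : ∑ k ∈ inn n d ε, (kap n d k).re ≤ 1 + Real.exp (-(n : ℝ) ^ ε) := by
    have h1 : (∑ k ∈ inn n d ε, kap n d k).re = 1 - (∑ k ∈ outt n d ε, kap n d k).re := by
      rw [htot] at hsplit
      have := congrArg Complex.re hsplit
      rw [Complex.one_re, Complex.add_re] at this
      linarith
    rw [← Complex.re_sum, h1]
    have h2 : -(∑ k ∈ outt n d ε, kap n d k).re ≤ ∑ k ∈ outt n d ε, ‖kap n d k‖ := by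
      calc -(∑ k ∈ outt n d ε, kap n d k).re ≤ |(∑ k ∈ outt n d ε, kap n d k).re| := neg_le_abs _
        _ ≤ ‖∑ k ∈ outt n d ε, kap n d k‖ := Complex.abs_re_le_norm _
        _ ≤ _ := norm_sum_le _ _
    linarith
  have hexp : Real.exp (-(n : ℝ) ^ ε) ≤ 1 / yy n d := by
    rw [le_div_iff₀ hy0]
    have h1 : 0 < Real.exp (-(n : ℝ) ^ ε) := Real.exp_pos _
    nlinarith
  have hmain : ∑ k ∈ inn n d ε, (‖kap n d k‖ - (kap n d k).re) ≤ 100 * C3 / yy n d := by
    calc ∑ k ∈ inn n d ε, (‖kap n d k‖ - (kap n d k).re)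
        ≤ ∑ k ∈ inn n d ε, 100 / yy n d * ((yy n d * ss n k) ^ 3 * wt n d (1 / 2) k) :=
          sum_le_sum hsite
      _ ≤ ∑ k, 100 / yy n d * ((yy n d * ss n k) ^ 3 * wt n d (1 / 2) k) := by
          apply sum_le_sum_of_subset_of_nonneg (subset_univ _)
          intro k _ _
          have hs0 : 0 ≤ ss n k := by
            unfold ss
            have : (ee n k).re ≤ ‖ee n k‖ := Complex.re_le_norm _
            have h2 : ‖ee n k‖ = 1 := by unfold ee; rw [Complex.norm_exp_ofReal_mul_I]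
            linarith
          unfold wt
          positivity
      _ = 100 / yy n d * ∑ k, (yy n d * ss n k) ^ 3 * wt n d (1 / 2) k := by rw [mul_sum]
      _ ≤ 100 / yy n d * C3 :=
          mul_le_mul_of_nonneg_left (hC3 n d hd hdn) (by positivity)
      _ = _ := by ring
  have hfin : ∑ k ∈ inn n d ε, ‖kap n d k‖
      = ∑ k ∈ inn n d ε, (kap n d k).re + ∑ k ∈ inn n d ε, (‖kap n d k‖ - (kap n d k).re) := by
    rw [← sum_add_distrib]
    apply sum_congr rfl
    intro k _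
    ring
  rw [hfin]
  have : (100 * C3 + 1) / yy n d = 100 * C3 / yy n d + 1 / yy n d := by ring
  rw [this]
  linarith

end Pool.Agent.RGD
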