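import Pool.Agent.RGD.Stmts

/-!
RGD, module UID: elementary identities.
-/

set_option autoImplicit false

namespace Pool.Agent.RGD

open Finset Pool.Agent.RGA

namespace UidP

lemma nsq (z : ℂ) : ‖z‖ ^ 2 = z.re ^ 2 + z.im ^ 2 := by
  rw [Complex.sq_norm, Complex.normSq_apply]
  ring

lemma ee_circle (n : ℕ) (k : Fin (2 * n)) : (ee n k).re ^ 2 + (ee n k).im ^ 2 = 1 := by
  rw [← nsq]
  unfold ee
  rw [Complex.norm_exp_ofReal_mul_I]
  norm_num

lemma lam_pos (n d : ℕ) (h1 : 1 ≤ d) (h2 : 2 * d ≤ n - 1) : 0 < lam n d := by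
  unfold lam
  have h3 : 3 ≤ n := by omega
  have h4 : (3 : ℝ) ≤ n := by exact_mod_cast h3
  have h5 : (1 : ℝ) ≤ d := by exact_mod_cast h1
  apply div_pos <;> linarith

lemma lam_half (n d : ℕ) (h1 : 1 ≤ d) (h2 : 2 * d ≤ n - 1) : lam n d ≤ 1 / 2 := by
  unfold lam
  have h3 : 3 ≤ n := by omega
  have h4 : (3 : ℝ) ≤ n := by exact_mod_cast h3
  have h5 : 2 * d + 1 ≤ n := by omega
  have h6 : 2 * (d : ℝ) + 1 ≤ n := by exact_mod_cast h5
  rw [div_le_iff₀ (by linarith)]
  linarith

lemma sqrt_sq_c (x : ℝ) (h : 0 ≤ x) : ((Real.sqrt x : ℝ) : ℂ) ^ 2 = (x : ℂ) := by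
  rw [← Complex.ofReal_pow, Real.sq_sqrt h]

end UidP

open UidP in
theorem uid_proof : Stmt_Uid := by
  intro n d h1 h2
  have hl0 := lam_pos n d h1 h2
  have hl1 := lam_half n d h1 h2
  have h3 : 3 ≤ n := by omega
  have h4 : (3 : ℝ) ≤ n := by exact_mod_cast h3
  have hL : Lam n d = lam n d * (1 - lam n d) := rfl
  have hL0 : 0 < Lam n d := by
    rw [hL]
    apply mul_pos hl0
    linarith
  have hL1 : Lam n d ≤ 1 / 4 := by
    rw [hL]
    nlinarith [sq_nonneg (lam n d - 1 / 2)]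
  have hs0 : 0 < Real.sqrt (Lam n d) := Real.sqrt_pos.mpr hL0
  have hs2 : Real.sqrt (Lam n d) ^ 2 = Lam n d := Real.sq_sqrt hL0.le
  have hq : ∀ k, ‖qq n d k‖ ^ 2 = 1 - 2 * Lam n d * ss n k := by
    intro k
    have hc := ee_circle n k
    rw [nsq]
    have e1 : (qq n d k).re = 1 + lam n d * ((ee n k).re - 1) := by
      unfold qq
      simp
    have e2 : (qq n d k).im = lam n d * (ee n k).im := by
      unfold qq
      simp
    rw [e1, e2, hL]
    unfold ss
    linear_combination (lam n d) ^ 2 * hc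
  have hv : ∀ k, ‖vv n d k‖ ^ 2 = 2 * Lam n d * ss n k := by
    intro k
    have hc := ee_circle n k
    rw [nsq]
    have e1 : (vv n d k).re = Real.sqrt (Lam n d) * ((ee n k).re - 1) := by
      unfold vv
      simp
    have e2 : (vv n d k).im = Real.sqrt (Lam n d) * (ee n k).im := by
      unfold vv
      simp
    rw [e1, e2]
    unfold ss
    linear_combination (Real.sqrt (Lam n d)) ^ 2 * hc + 2 * (1 - (ee n k).re) * hs2
  refine ⟨⟨hl0, hl1, hL0, hL1, ?_, ?_, ?_, ?_, ?_⟩, fun k => ⟨hq k, hv k⟩, ?_, ?_⟩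
  · unfold tt
    apply div_nonneg _ hs0.le
    linarith
  · unfold tt
    rw [div_pow, hs2]
    have : (1 - 2 * lam n d) ^ 2 = 1 - 4 * Lam n d := by
      rw [hL]
      ring
    rw [this]
    field_simp
  · unfold yy
    have e1 : (1 : ℝ) ≤ lam n d * n := by
      unfold lam
      have h5 : (1 : ℝ) ≤ d := by exact_mod_cast h1
      rw [div_mul_eq_mul_div, le_div_iff₀ (by linarith)]
      nlinarith
    rw [hL]
    nlinarith
  · unfold yy
    nlinarith
  · unfold bb
    have e1 : 0 < ((n - 1).choose d : ℝ) := by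
      exact_mod_cast Nat.choose_pos (by omega)
    have e2 : 0 < 1 - lam n d := by linarith
    positivity
  · intro k hk
    have hN : ‖uu n d k‖ ^ 2 = 2 * Lam n d * ss n k / (1 - 2 * Lam n d * ss n k) := by
      unfold uu
      rw [norm_div, div_pow, hq, hv]
    refine ⟨hN, ?_⟩
    have hq0 : (1 - 2 * Lam n d * ss n k) ≠ 0 := by
      rw [← hq k]
      exact pow_ne_zero _ (norm_ne_zero_iff.mpr hk)
    rw [hN]
    have hc := ee_circle n k
    have e1 : (qq n d k).re = 1 + lam n d * ((ee n k).re - 1) := by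
      unfold qq
      simp
    have e2 : (qq n d k).im = lam n d * (ee n k).im := by
      unfold qq
      simp
    have e3 : (vv n d k).re = Real.sqrt (Lam n d) * ((ee n k).re - 1) := by
      unfold vv
      simp
    have e4 : (vv n d k).im = Real.sqrt (Lam n d) * (ee n k).im := by
      unfold vv
      simp
    have e5 : Complex.normSq (qq n d k) = 1 - 2 * Lam n d * ss n k := by
      rw [← hq k, Complex.sq_norm]
    unfold uu
    rw [Complex.div_re, e5, e1, e2, e3, e4, ← add_div]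
    rw [← mul_div_assoc]
    congr 1
    unfold tt ss
    have e6 : (1 - 2 * lam n d) / Real.sqrt (Lam n d) * Lam n d
        = (1 - 2 * lam n d) * Real.sqrt (Lam n d) := by
      rw [div_mul_eq_mul_div, div_eq_iff hs0.ne', mul_assoc, ← sq, hs2]
    linear_combination (Real.sqrt (Lam n d)) * (lam n d) * hc + (1 - (ee n k).re) * e6
  · intro k l
    have hs : ((Real.sqrt (Lam n d) : ℝ) : ℂ) ^ 2 = (lam n d : ℂ) * (1 - (lam n d : ℂ)) := by
      rw [sqrt_sq_c _ hL0.le, hL]
      push_cast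
      ring
    unfold qq vv
    linear_combination -(ee n k - 1) * (ee n l - 1) * hs

end Pool.Agent.RGD
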