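import Pool.Agent.RGD.Eeb
import Pool.Agent.RGD.Uid
import Pool.Agent.RGD.Exact
import Pool.Agent.RGD.Blow
import Pool.Agent.RGD.Gsum
import Pool.Agent.RGD.Inb
import Pool.Agent.RGD.Tail
import Pool.Agent.RGD.Tv
import Pool.Agent.RGD.Momb
import Pool.Agent.RGD.Mrec
import Pool.Agent.RGD.Sharp
import Pool.Agent.RGD.Cr
import Pool.Agent.RGD.Hsg
import Pool.Agent.RGD.Ins
import Pool.Agent.RGD.Chi
import Pool.Agent.RGD.Phi1
import Pool.Agent.RGD.Inner
import Pool.Agent.RGD.Hsid
import Pool.Agent.RGD.Hsb
import Pool.Agent.RGD.Split
import Pool.Agent.RGD.Shift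
import Pool.Agent.RGD.Rest
import Pool.Agent.RGD.Fewc
import Pool.Agent.RGD.Fewh
import Pool.Agent.RGD.Few
import Pool.Agent.RGD.Box
import Pool.Agent.RGD.Ftay
import Pool.Agent.RGD.Evb
import Pool.Agent.RGD.Evm
import Pool.Agent.RGD.Flog
import Pool.Agent.RGD.Evexp
import Pool.Agent.RGD.Mexp
import Pool.Agent.RGD.Phix
import Pool.Agent.RGD.Serx
import Pool.Agent.RGD.Gx
import Pool.Agent.RGD.Gxt
import Pool.Agent.RGD.Phi2
import Pool.Agent.RGD.Evlog
import Pool.Agent.RGD.Deg
import Pool.Agent.RGD.Parity
import Pool.Agent.RGD.Softz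
import Pool.Agent.RGD.Soft
import Pool.Agent.RGD.Full
import Pool.Agent.RGD.Comp
import Pool.Agent.RGA.Main

/-!
Assembly of the dense range and of Q1 for all degrees (MP_3a123b_co).
-/

set_option autoImplicit false

namespace Pool.Agent.RGD

open Pool.Agent.RGA

theorem softOf : Stmt_Soft := by
  have eeb := eeb_proof
  have uid := uid_proof
  have gsum := gsum_proof uid blow_proof
  have inb := inb_proof eeb uid
  have tail := tail_proof eeb uid gsum
  have mrec := mrec_proof eeb uid
  have tv := tv_proof uid gsum tail mrec
  have momb := momb_proof eeb uid gsum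
  have sharp := sharp_proof eeb uid gsum tail tv
  have phi1 := phi1_proof inb momb mrec tail
  have hPhi2 := phi2_proof inb tv momb
  have inner := inner_proof inb chi_proof phi1 hPhi2
  have hsid := hsid_proof hsg_proof
  have hsb := hsb_proof hsid inner hsg_proof
  have rest := rest_proof eeb uid blow_proof cr_proof
  have fewc := fewc_proof eeb uid tail sharp cr_proof
  have fewh := fewh_proof eeb uid inb tail hsb split_proof cr_proof
  have few := few_proof eeb inb shift_proof rest fewc fewh
  have box := box_proof uid inb hsg_proof hsid inner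
  have evm := evm_proof evb_proof
  have evexp := evexp_proof evb_proof evm flog_proof
  have hEvlog := evlog_proof evb_proof evm flog_proof
  have mexp := mexp_proof uid evb_proof evm
  have phix := phix_proof inb tail momb mrec ftay_proof mexp
  have serx := serx_proof phix hEvlog evexp deg_proof
  have gxt := gxt_proof uid hsg_proof
  have softz := softz_proof box serx gx_proof gxt deg_proof
  exact soft_proof (exact_proof eeb uid) few softz hEvlog deg_proof

/-- Q1 of MP_3a123b_co for all degrees -/
theorem full_main : Stmt_Full :=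
  full_proof final_main compl_proof uid_proof deg_proof parity_proof (comp_proof deg_proof) softOf

end Pool.Agent.RGD
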