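import Pool.Agent.RGD.Stmts

/-!
SHIFT: the summand is invariant under `e -> -e` at all sites.
-/

set_option autoImplicit false

namespace Pool.Agent.RGD

open Finset Pool.Agent.RGA

namespace ShiftX

theorem exp_add_pi (x : ℝ) :
    Complex.exp (((x + Real.pi : ℝ) : ℂ) * Complex.I) = -Complex.exp ((x : ℂ) * Complex.I) := by
  have : (((x + Real.pi : ℝ) : ℂ) * Complex.I) = (x : ℂ) * Complex.I + Real.pi * Complex.I := by
    push_cast; ring
  rw [this, Complex.exp_add, Complex.exp_pi_mul_I]
  ring

theorem ee_shf (n : ℕ) (hn : 0 < n) (k : Fin (2 * n)) : ee n (shf n k) = -ee n k := by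
  have hn' : (n : ℝ) ≠ 0 := by exact_mod_cast hn.ne'
  rcases Nat.lt_or_ge (k.val + n) (2 * n) with h | h
  · have hv : ((shf n k : Fin (2 * n)) : ℕ) = k.val + n := Nat.mod_eq_of_lt h
    unfold ee
    rw [hv, ← exp_add_pi]
    have : (Real.pi * ((k.val + n : ℕ) : ℝ) / n : ℝ) = Real.pi * (k.val : ℝ) / n + Real.pi := by
      push_cast; field_simp
    rw [this]
  · have hk : n ≤ k.val := by omega
    have hlt := k.isLt
    have hv : ((shf n k : Fin (2 * n)) : ℕ) = k.val - n := by
      have : (k.val + n) % (2 * n) = k.val - n := by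
        have e : k.val + n = (k.val - n) + 2 * n := by omega
        rw [e, Nat.add_mod_right, Nat.mod_eq_of_lt (by omega)]
      exact this
    unfold ee
    rw [hv]
    have : (Real.pi * (k.val : ℝ) / n : ℝ) = Real.pi * ((k.val - n : ℕ) : ℝ) / n + Real.pi := by
      rw [Nat.cast_sub hk]; field_simp; ring
    rw [this, exp_add_pi, neg_neg]

end ShiftX

open ShiftX in
theorem shift_proof : Stmt_Shift := by
  intro n d k hev
  rcases Nat.eq_zero_or_pos n with h0 | hn
  · subst h0
    congr 1
    funext j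
    exact j.elim0
  · unfold FF
    simp only [ee_shf n hn]
    have h1 : ∀ p : Fin n × Fin n, (1 + (lam n d : ℂ) * (-ee n (k p.1) * -ee n (k p.2) - 1))
        = (1 + (lam n d : ℂ) * (ee n (k p.1) * ee n (k p.2) - 1)) := by
      intro p; rw [neg_mul_neg]
    have h2 : ∀ j : Fin n, (1 / ((-ee n (k j)) ^ d * ((2 * n * bb n d : ℝ) : ℂ)))
        = (-1 : ℂ) ^ d * (1 / (ee n (k j) ^ d * ((2 * n * bb n d : ℝ) : ℂ))) := by
      intro j
      rw [neg_pow, mul_assoc, one_div, mul_inv, one_div]
      congr 1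
      rw [← inv_pow]
      norm_num
    rw [prod_congr rfl (fun p _ => h1 p), prod_congr rfl (fun j _ => h2 j), prod_mul_distrib,
      prod_const, card_univ, Fintype.card_fin, ← pow_mul, mul_comm d n, hev.neg_one_pow, one_mul]

end Pool.Agent.RGD
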