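import Pool.Agent.RGD.Stmts

/-!
SOFTZ: the expansion of `Zb` from `BOX`, `SERX`, `GX`, `GXT` and `DEG`.
-/

set_option autoImplicit false

namespace Pool.Agent.RGD

open Finset MeasureTheory

namespace SoftzA

instance isProb (K : ℕ) : IsProbabilityMeasure (gam K) := by
  unfold gam; infer_instance

theorem continuous_Gt (K i : ℕ) : Continuous (fun g : Fin K → ℝ => Gt K g i) := by
  unfold Gt
  by_cases h : 1 ≤ i ∧ i ≤ K
  · simp only [h, and_self, ↓reduceDIte]
    fun_prop
  · simp only [h, ↓reduceDIte]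
    exact continuous_const

theorem continuous_Phi (n d : ℕ) (ε : ℝ) (K : ℕ) :
    Continuous (fun g : Fin K → ℝ => Phi n d ε K g) := by
  unfold Phi fg fgG
  refine continuous_finset_sum _ (fun k _ => ?_)
  refine continuous_const.mul (Complex.continuous_exp.comp ?_)
  refine (continuous_finset_sum _ (fun i _ => ?_)).sub continuous_const
  exact (continuous_Gt K i).mul continuous_const

theorem compact_box (K : ℕ) (r : ℝ) : IsCompact {g : Fin K → ℝ | ∀ i, |g i| ≤ r} := by
  have h : {g : Fin K → ℝ | ∀ i, |g i| ≤ r} = Set.pi Set.univ (fun _ => Set.Icc (-r) r) := by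
    ext g
    simp only [Set.mem_setOf_eq, Set.mem_pi, Set.mem_univ, forall_true_left, Set.mem_Icc, abs_le]
  rw [h]
  exact isCompact_univ_pi (fun _ => isCompact_Icc)

end SoftzA

open SoftzA in
theorem softz_proof (hBox : Stmt_Box) (hSerx : Stmt_Serx) (hGx : Stmt_Gx) (hGxt : Stmt_Gxt)
    (hDeg : Stmt_Deg) : Stmt_Softz := by
  intro σ M W K ε ε2 hP
  obtain ⟨CB, nB, hB⟩ := hBox σ M W K ε ε2 hP
  obtain ⟨CS, nS, hS⟩ := hSerx σ M W K ε ε2 hP
  choose CG nG hG using fun w => hGxt σ M W K ε ε2 hP (EE w)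
  obtain ⟨-, -, -, -, -, hvar, -⟩ := hDeg
  have hK2 : 2 ≤ K := by have := hP.hK; omega
  refine ⟨|CB| + |CS| + ∑ w ∈ range (W + 1), |CG w|,
    max 1 (max nB (max nS ((range (W + 1)).sup nG))), ?_⟩
  intro n d hn hdom
  have hn1 : 1 ≤ n := (le_max_left _ _).trans hn
  have hnB : nB ≤ n := (le_max_left _ _).trans ((le_max_right _ _).trans hn)
  have hnS : nS ≤ n :=
    (le_max_left _ _).trans ((le_max_right _ _).trans ((le_max_right _ _).trans hn))
  have hnG : ∀ w ∈ range (W + 1), nG w ≤ n := fun w hw =>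
    (Finset.le_sup (f := nG) hw).trans
      ((le_max_right _ _).trans ((le_max_right _ _).trans ((le_max_right _ _).trans hn)))
  have hnR : (1 : ℝ) ≤ n := by exact_mod_cast hn1
  have hδ0 : 0 ≤ (n : ℝ) ^ (-(M : ℝ)) := by positivity
  set t : ℝ := tt n d with ht
  set δ : ℝ := (n : ℝ) ^ (-(M : ℝ)) with hδ
  set S : Set (Fin K → ℝ) := {g : Fin K → ℝ | ∀ i, |g i| ≤ (n : ℝ) ^ ε2} with hSdef
  have hScpt : IsCompact S := compact_box K _
  have hSmeas : MeasurableSet S := hScpt.isClosed.measurableSet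
  set hf : ℕ → (Fin K → ℝ) → ℂ := fun w g =>
    Complex.exp (-MvPolynomial.aeval (vals t (Gt K g)) (bet 2))
      * MvPolynomial.aeval (vals t (Gt K g)) (EE w) with hhf
  set V : ℕ → ℂ := fun w =>
    ((Real.exp (1 / 4) / Real.sqrt 2 * Polynomial.aeval t (Qt w) : ℝ) : ℂ) with hV
  have hint : ∀ w ∈ range (W + 1), Integrable (hf w) (gam K) ∧ ∫ g, hf w g ∂(gam K) = V w := by
    intro w hw
    refine hGx K (EE w) t hK2 (fun i hi => ?_)
    have h1 := hvar w i hi
    have h2 := hP.hK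
    rw [Finset.mem_range] at hw
    omega
  -- the three steps
  have s1 : ‖Zb n d ε - ∫ g in S, Phi n d ε K g ^ n ∂(gam K)‖ ≤ |CB| * δ :=
    (hB n d hnB hdom).trans (by gcongr; exact le_abs_self _)
  have hev : ∀ g : Fin K → ℝ,
      Complex.exp (-MvPolynomial.aeval (vals t (Gt K g)) (bet 2)) * ev EE W n t (Gt K g)
        = ∑ w ∈ range (W + 1), hf w g / (n : ℂ) ^ w := by
    intro g
    rw [ev, Finset.mul_sum]
    exact Finset.sum_congr rfl (fun w _ => by rw [hhf]; ring)
  have hint2 : ∀ w ∈ range (W + 1),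
      Integrable (fun g => hf w g / (n : ℂ) ^ w) ((gam K).restrict S) := fun w hw =>
    ((hint w hw).1.div_const _).restrict
  have hintPhi : Integrable (fun g => Phi n d ε K g ^ n) ((gam K).restrict S) :=
    ((continuous_Phi n d ε K).pow n).continuousOn.integrableOn_compact hScpt
  have s2 : ‖(∫ g in S, Phi n d ε K g ^ n ∂(gam K))
      - ∑ w ∈ range (W + 1), (∫ g in S, hf w g ∂(gam K)) / (n : ℂ) ^ w‖ ≤ |CS| * δ := by
    have e1 : ∑ w ∈ range (W + 1), (∫ g in S, hf w g ∂(gam K)) / (n : ℂ) ^ w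
        = ∫ g in S, ∑ w ∈ range (W + 1), hf w g / (n : ℂ) ^ w ∂(gam K) := by
      rw [integral_finset_sum _ hint2]
      exact Finset.sum_congr rfl (fun w _ => by rw [integral_div])
    rw [e1, ← integral_sub hintPhi (integrable_finset_sum _ hint2)]
    have e2 := norm_setIntegral_le_of_norm_le_const (μ := gam K) (s := S)
      (f := fun g => Phi n d ε K g ^ n - ∑ w ∈ range (W + 1), hf w g / (n : ℂ) ^ w)
      (C := |CS| * δ) (measure_lt_top _ _) (fun g hg => by
        rw [← hev g]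
        exact (hS n d hnS hdom g hg).trans (by gcongr; exact le_abs_self _))
    refine e2.trans ?_
    have e3 : (gam K).real S ≤ 1 := measureReal_le_one
    have e4 : 0 ≤ |CS| * δ := by positivity
    nlinarith
  have s3 : ‖(∑ w ∈ range (W + 1), (∫ g in S, hf w g ∂(gam K)) / (n : ℂ) ^ w)
      - ∑ w ∈ range (W + 1), V w / (n : ℂ) ^ w‖ ≤ (∑ w ∈ range (W + 1), |CG w|) * δ := by
    rw [← Finset.sum_sub_distrib, Finset.sum_mul]
    refine (norm_sum_le _ _).trans (Finset.sum_le_sum (fun w hw => ?_))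
    have e1 : (∫ g in S, hf w g ∂(gam K)) + ∫ g in Sᶜ, hf w g ∂(gam K) = V w := by
      rw [integral_add_compl hSmeas (hint w hw).1, (hint w hw).2]
    have e2 : ‖∫ g in Sᶜ, hf w g ∂(gam K)‖ ≤ |CG w| * δ :=
      (hG w n d (hnG w hw) hdom).trans (by gcongr; exact le_abs_self _)
    rw [← e1, ← sub_div, sub_add_cancel_left, norm_div, norm_neg, norm_pow, Complex.norm_natCast]
    refine (div_le_self (norm_nonneg _) ?_).trans e2
    exact one_le_pow₀ hnR
  have hfin : (((Real.exp (1 / 4) / Real.sqrt 2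
        * ∑ w ∈ range (W + 1), Polynomial.aeval (tt n d) (Qt w) / (n : ℝ) ^ w : ℝ)) : ℂ)
      = ∑ w ∈ range (W + 1), V w / (n : ℂ) ^ w := by
    rw [Finset.mul_sum, Complex.ofReal_sum]
    refine Finset.sum_congr rfl (fun w _ => ?_)
    rw [hV]
    push_cast
    ring
  rw [hfin]
  have tri : Zb n d ε - ∑ w ∈ range (W + 1), V w / (n : ℂ) ^ w
      = (Zb n d ε - ∫ g in S, Phi n d ε K g ^ n ∂(gam K))
        + ((∫ g in S, Phi n d ε K g ^ n ∂(gam K))
          - ∑ w ∈ range (W + 1), (∫ g in S, hf w g ∂(gam K)) / (n : ℂ) ^ w)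
        + ((∑ w ∈ range (W + 1), (∫ g in S, hf w g ∂(gam K)) / (n : ℂ) ^ w)
          - ∑ w ∈ range (W + 1), V w / (n : ℂ) ^ w) := by ring
  rw [tri]
  calc _ ≤ _ := norm_add₃_le
    _ ≤ |CB| * δ + |CS| * δ + (∑ w ∈ range (W + 1), |CG w|) * δ := add_le_add (add_le_add s1 s2) s3
    _ = _ := by ring

end Pool.Agent.RGD
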