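import Pool.Agent.RGD.Defs

/-!
Exact statements of all modules (MP_3a123b_co, dense range).  Module file
`Pool/Agent/RGD/<Name>.lean` proves `theorem <name>_proof : Stmt_<Name>`; any other `Stmt_*` may be
taken as a hypothesis.  Proofs on paper: /team-store/MP_3a123b_DENSE.md
-/

set_option autoImplicit false

namespace Pool.Agent.RGD

open Finset Pool.Agent.RGA MeasureTheory

/-! ### one site -/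

/-- EEB: grid points -/
def Stmt_Eeb : Prop :=
  (∀ (n : ℕ) (k : Fin (2 * n)), ‖ee n k‖ = 1 ∧ 0 ≤ ss n k ∧ ss n k ≤ 2 ∧
    ‖ee n k - 1‖ ^ 2 = 2 * ss n k ∧ ee n (shf n k) = -ee n k ∧ ss n (shf n k) = 2 - ss n k ∧
    shf n (shf n k) = k) ∧
  ∀ (n : ℕ) (m : ℤ), 1 ≤ n →
    ∑ k : Fin (2 * n), ee n k ^ m = if (2 * (n : ℤ)) ∣ m then (2 * n : ℂ) else 0

/-- UID: elementary identities -/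
def Stmt_Uid : Prop :=
  ∀ n d : ℕ, 1 ≤ d → 2 * d ≤ n - 1 →
    (0 < lam n d ∧ lam n d ≤ 1 / 2 ∧ 0 < Lam n d ∧ Lam n d ≤ 1 / 4 ∧ 0 ≤ tt n d ∧
      tt n d ^ 2 = 1 / Lam n d - 4 ∧ 1 / 2 ≤ yy n d ∧ yy n d ≤ (n : ℝ) / 4 ∧ 0 < bb n d) ∧
    (∀ k, ‖qq n d k‖ ^ 2 = 1 - 2 * Lam n d * ss n k ∧ ‖vv n d k‖ ^ 2 = 2 * Lam n d * ss n k) ∧
    (∀ k, qq n d k ≠ 0 →
      ‖uu n d k‖ ^ 2 = 2 * Lam n d * ss n k / (1 - 2 * Lam n d * ss n k) ∧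
      (uu n d k).re = -(tt n d / 2) * ‖uu n d k‖ ^ 2) ∧
    ∀ k l, 1 + (lam n d : ℂ) * (ee n k * ee n l - 1)
      = qq n d k * qq n d l + vv n d k * vv n d l

/-- EXACT: the count as a sum over the grid -/
def Stmt_Exact : Prop :=
  ∀ n d : ℕ, 1 ≤ d → 2 * d ≤ n - 1 →
    ZZ n d = (((RG n d : ℝ) / (Bnd n d / Real.sqrt 2) : ℝ) : ℂ)

/-- BLOW: lower bound for the binomial probability -/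
def Stmt_Blow : Prop :=
  ∃ c : ℝ, 0 < c ∧ ∀ n d : ℕ, 1 ≤ d → 2 * d ≤ n - 1 → c ≤ bb n d * Real.sqrt (yy n d)

/-- GSUM -/
def Stmt_Gsum : Prop :=
  ∀ (p : ℕ) (a : ℝ), 0 < a → ∃ C : ℝ, ∀ n d : ℕ, 1 ≤ d → 2 * d ≤ n - 1 →
    ∑ k, (yy n d * ss n k) ^ p * wt n d a k ≤ C

/-- INB: facts on inner grid points -/
def Stmt_Inb : Prop :=
  ∀ (σ : ℝ) (M W K : ℕ) (ε ε2 : ℝ), Par σ M W K ε ε2 → ∃ n₀ : ℕ, ∀ n d : ℕ, n₀ ≤ n →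
    Dom σ n d → ∀ k ∈ inn n d ε, qq n d k ≠ 0 ∧ ‖uu n d k‖ ^ 2 ≤ 2 * (n : ℝ) ^ (-1 + 2 * ε) ∧
      ss n k ≤ (n : ℝ) ^ (-(σ / 2)) ∧ |(uu n d k).re| ≤ (n : ℝ) ^ (-(1 / 2) - σ / 4) ∧
      shf n k ∉ inn n d ε

/-- TAIL: outer grid points have tiny weight -/
def Stmt_Tail : Prop :=
  ∀ (ε : ℝ) (J : ℕ), 0 < ε → ∃ n₀ : ℕ, ∀ n d : ℕ, n₀ ≤ n → 1 ≤ d → 2 * d ≤ n - 1 →
    (∀ j ≤ J, ∑ k ∈ outt n d ε, ‖kpj n d j k‖ ≤ Real.exp (-(n : ℝ) ^ ε)) ∧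
    ∑ k ∈ outt n d ε, wt n d (1 / 4) k ≤ Real.exp (-(n : ℝ) ^ ε)

/-- TV: total variation of the one site weight -/
def Stmt_Tv : Prop :=
  ∀ σ ε : ℝ, 0 < σ → 0 < ε → 4 * ε ≤ σ → ∃ (C : ℝ) (n₀ : ℕ), ∀ n d : ℕ, n₀ ≤ n → Dom σ n d →
    ∑ k ∈ inn n d ε, ‖kap n d k‖ ≤ 1 + C / yy n d

/-- MOMB: exponential moments -/
def Stmt_Momb : Prop :=
  ∀ (ε : ℝ) (p : ℕ), 0 < ε → 8 * ε ≤ 1 → ∃ (C : ℝ) (n₀ : ℕ), ∀ n d : ℕ, n₀ ≤ n → 1 ≤ d →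
    2 * d ≤ n - 1 →
    ∑ k ∈ inn n d ε, ‖kap n d k‖ * (Real.sqrt n * ‖uu n d k‖) ^ p
      * Real.exp (3 * (Real.sqrt n * ‖uu n d k‖) + (n : ℝ) * ‖uu n d k‖ ^ 2 / 8) ≤ C

/-- MREC: exact moments -/
def Stmt_Mrec : Prop :=
  ∀ n d : ℕ, 1 ≤ d → 2 * d ≤ n - 1 → ∀ j ≤ n - 1,
    ∑ k, kpj n d j k = ((mm n (tt n d) j : ℝ) : ℂ)

/-- SHARP -/
def Stmt_Sharp : Prop :=
  ∃ C₀ : ℝ, ∀ σ c : ℝ, 0 < σ → 0 < c → c ≤ 1 / 4 → ∃ n₀ : ℕ, ∀ n d : ℕ, n₀ ≤ n → Dom σ n d →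
    ∑ k, wt n d (1 - c) k ≤ 1 + C₀ * c

/-! ### pair inequalities -/

/-- CR -/
def Stmt_Cr : Prop :=
  (∀ (ι : Type) [Fintype ι] [LinearOrder ι] (x : ι → ℂ), (∀ j, ‖x j‖ = 1) →
    (4 ≤ Fintype.card ι →
      ((Fintype.card ι : ℝ) - 4) / 2 * min (∑ j, (1 - (x j).re)) (∑ j, (1 + (x j).re))
        ≤ ∑ p ∈ prs ι, (1 - (x p.1 * x p.2).re)) ∧
    ∀ c : ℝ, ∑ j, (1 - (x j).re) ≤ c * Fintype.card ι →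
      ((1 - c / 2) * (Fintype.card ι : ℝ) - 2) * ∑ j, (1 - (x j).re)
        ≤ ∑ p ∈ prs ι, (1 - (x p.1 * x p.2).re)) ∧
  ∀ (l : ℝ) (z : ℂ), 0 ≤ l → l ≤ 1 → ‖z‖ = 1 →
    ‖1 + (l : ℂ) * (z - 1)‖ ≤ Real.exp (-(l * (1 - l) * (1 - z.re)))

/-! ### Gaussian integrals, edge expansion -/

/-- HSG -/
def Stmt_Hsg : Prop :=
  (∀ (K : ℕ) (a : Fin K → ℂ),
    Integrable (fun g : Fin K → ℝ => Complex.exp (∑ i, a i * (g i : ℂ))) (gam K) ∧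
    ∫ g, Complex.exp (∑ i, a i * (g i : ℂ)) ∂(gam K) = Complex.exp ((∑ i, a i ^ 2) / 2)) ∧
  (∀ (K : ℕ) (c : ℝ), c < 1 / 2 →
    Integrable (fun g : Fin K → ℝ => Real.exp (c * sqn g)) (gam K)) ∧
  ∀ K : ℕ, ∃ C : ℝ, ∀ r : ℝ, 0 ≤ r →
    ∫ g in {g : Fin K → ℝ | ∃ i, r < |g i|}, Real.exp (sqn g / 4) ∂(gam K)
      ≤ C * Real.exp (-(r ^ 2 / 8))

/-- INS: the pair factors `1 + χ` with small `χ` are harmless -/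
def Stmt_Ins : Prop :=
  ∀ (α : Type) (T : Finset α) (ω : α → ℂ) (χ : α → α → ℂ) (ι : Type) [Fintype ι]
    [LinearOrder ι] (A B ρ : ℝ), 1 ≤ A → 0 ≤ B → 0 ≤ ρ → ‖∑ a ∈ T, ω a‖ ≤ B →
    ∑ a ∈ T, ‖ω a‖ ≤ A * B → (∀ a ∈ T, ∀ b ∈ T, ‖χ a b‖ ≤ ρ) →
    ‖∑ b ∈ Fintype.piFinset (fun _ : ι => T),
        (∏ l, ω (b l)) * (∏ p ∈ prs ι, (1 + χ (b p.1) (b p.2)) - 1)‖
      ≤ B ^ Fintype.card ι * ((1 + A ^ 2 * ρ) ^ (Fintype.card ι ^ 2) - 1)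

/-- CHI -/
def Stmt_Chi : Prop :=
  ∀ K : ℕ, ∃ C : ℝ, 0 ≤ C ∧ ∀ x : ℂ, ‖x‖ ≤ 1 / 2 → ‖chi K x‖ ≤ C * ‖x‖ ^ (K + 1)

/-- PHI1: one site integral, fields up to `η √n` -/
def Stmt_Phi1 : Prop :=
  ∀ (σ : ℝ) (M W K : ℕ) (ε ε2 : ℝ), Par σ M W K ε ε2 → ∃ (η C : ℝ) (n₀ : ℕ), 0 < η ∧ η ≤ 1 ∧
    1 ≤ C ∧ ∀ n d : ℕ, n₀ ≤ n → Dom σ n d → ∀ g : Fin K → ℝ, (∀ i, |g i| ≤ η * Real.sqrt n) →
    ∀ (τ : Type) [Fintype τ] (z : τ → ℂ), (∀ j, ‖z j‖ ≤ 1) → ∑ j, ‖z j‖ ≤ η * Real.sqrt n →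
      ‖Phis n d ε K g z‖ ≤ Real.exp ((C * (1 + (∑ j, ‖z j‖) ^ 2) + sqn g / 4) / n) ∧
      ∑ k ∈ inn n d ε, ‖kap n d k * fg K g (uu n d k) * sf z (uu n d k)‖ ≤ C

/-- PHI2: one site integral, all fields -/
def Stmt_Phi2 : Prop :=
  ∀ (σ : ℝ) (M W K : ℕ) (ε ε2 : ℝ), Par σ M W K ε ε2 → ∃ (C : ℝ) (n₀ : ℕ), 0 ≤ C ∧
    ∀ n d : ℕ, n₀ ≤ n → Dom σ n d → ∀ (g : Fin K → ℝ) (η : ℝ), 0 ≤ η → η ≤ 1 →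
    ∀ (τ : Type) [Fintype τ] (z : τ → ℂ), ∑ j, ‖z j‖ ≤ η * Real.sqrt n →
      ∑ k ∈ inn n d ε, ‖kap n d k * fg K g (uu n d k) * sf z (uu n d k)‖
        ≤ Real.exp (C * ((n : ℝ) ^ (-(σ / 4)) + η)
            + 2 * (∑ i, |g i|) * (n : ℝ) ^ (-(1 / 2) - σ / 4))

/-- INNER -/
def Stmt_Inner : Prop :=
  ∀ (σ : ℝ) (M W K : ℕ) (ε ε2 : ℝ), Par σ M W K ε ε2 → ∃ (η C : ℝ) (n₀ : ℕ), 0 < η ∧ η ≤ 1 ∧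
    0 ≤ C ∧ ∀ n d : ℕ, n₀ ≤ n → Dom σ n d → ∀ (ι : Type) [Fintype ι] [LinearOrder ι],
    Fintype.card ι ≤ n → ∀ (τ : Type) [Fintype τ] (z : τ → ℂ), (∀ j, ‖z j‖ ≤ 1) →
    ∑ j, ‖z j‖ ≤ η * Real.sqrt n → ∀ g : Fin K → ℝ,
      ‖Inn n d ε K g ι z‖ ≤ C * Real.exp (C * (∑ j, ‖z j‖) ^ 2 + sqn g / 4) ∧
      ‖Phis n d ε K g z‖ ^ Fintype.card ι ≤ C * Real.exp (C * (∑ j, ‖z j‖) ^ 2 + sqn g / 4) ∧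
      ‖Inn n d ε K g ι z - Phis n d ε K g z ^ Fintype.card ι‖
        ≤ C * (n : ℝ) ^ (-(M : ℝ)) * Real.exp (C * (∑ j, ‖z j‖) ^ 2 + sqn g / 4)

/-- HSID: Hubbard-Stratonovich -/
def Stmt_Hsid : Prop :=
  ∀ (n d : ℕ) (ε : ℝ) (K : ℕ) (ι : Type) [Fintype ι] [LinearOrder ι] (τ : Type) [Fintype τ]
    (z : τ → ℂ),
    Integrable (fun g : Fin K → ℝ => Inn n d ε K g ι z) (gam K) ∧
    JJ n d ε ι z = ∫ g, Inn n d ε K g ι z ∂(gam K)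

/-- HSB: bound with sources -/
def Stmt_Hsb : Prop :=
  ∀ (σ : ℝ) (M W K : ℕ) (ε ε2 : ℝ), Par σ M W K ε ε2 → ∃ (η C : ℝ) (n₀ : ℕ), 0 < η ∧ 0 ≤ C ∧
    ∀ n d : ℕ, n₀ ≤ n → Dom σ n d → ∀ (ι : Type) [Fintype ι] [LinearOrder ι],
    Fintype.card ι ≤ n → ∀ (τ : Type) [Fintype τ] (z : τ → ℂ), (∀ j, ‖z j‖ ≤ 1) →
    ∑ j, ‖z j‖ ≤ η * Real.sqrt n → ‖JJ n d ε ι z‖ ≤ C * Real.exp (C * (∑ j, ‖z j‖) ^ 2)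

/-! ### decomposition -/

/-- SPLIT -/
def Stmt_Split : Prop :=
  ∀ (n d : ℕ) (ε : ℝ), 1 ≤ d → 2 * d ≤ n - 1 → (∀ k ∈ inn n d ε, qq n d k ≠ 0) →
    ∀ (S : Finset (Fin n)) (φ : ({j // j ∈ S} → Fin (2 * n)) → ℂ),
    ∑ k ∈ univ.filter (fun k : Fin n → Fin (2 * n) => Sout n d ε k = S),
        φ (fun j => k j.1) * FF n d k
      = ∑ a ∈ Fintype.piFinset (fun _ : {j // j ∈ S} => outt n d ε),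
          φ a * FF n d a *
            ∑ b ∈ Fintype.piFinset (fun _ : {j // j ∉ S} => inn n d ε),
              (∏ l, kap n d (b l)) * (∏ l, ∏ j, (qq n d (a j) + vv n d (a j) * uu n d (b l)))
                * ∏ p ∈ prs {j // j ∉ S}, (1 + uu n d (b p.1) * uu n d (b p.2))

/-- SHIFT -/
def Stmt_Shift : Prop :=
  ∀ (n d : ℕ) (k : Fin n → Fin (2 * n)), Even (n * d) →
    FF n d (fun j => shf n (k j)) = FF n d k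

/-- REST: many outer sites on both sides -/
def Stmt_Rest : Prop :=
  ∀ σ ε c : ℝ, 0 < σ → 0 < ε → 0 < c → ∃ n₀ : ℕ, ∀ n d : ℕ, n₀ ≤ n → Dom σ n d →
    ∑ k ∈ univ.filter (fun k : Fin n → Fin (2 * n) => c * n ≤ (Sout n d ε k).card ∧
        c * n ≤ (Sout n d ε (fun j => shf n (k j))).card), ‖FF n d k‖ ≤ Real.exp (-(n : ℝ))

/-- FEWC: few outer sites with large `Λ ∑ s` -/
def Stmt_Fewc : Prop :=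
  ∀ σ ε : ℝ, 0 < σ → 0 < ε → 8 * ε ≤ σ → ∃ c₀ : ℝ, 0 < c₀ ∧ ∀ c : ℝ, 0 < c → c ≤ c₀ →
    ∃ n₀ : ℕ, ∀ n d : ℕ,
    n₀ ≤ n → Dom σ n d → ∀ S : Finset (Fin n), S.Nonempty → (S.card : ℝ) ≤ c * n →
    ∑ k ∈ univ.filter (fun k : Fin n → Fin (2 * n) => Sout n d ε k = S ∧
        1 / 8 ≤ Lam n d * ∑ j ∈ S, ss n (k j)), ‖FF n d k‖
      ≤ Real.exp (-(S.card * (n : ℝ) ^ ε)) / 2

/-- FEWH: few outer sites with small `Λ ∑ s` -/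
def Stmt_Fewh : Prop :=
  ∀ (σ : ℝ) (M W K : ℕ) (ε ε2 : ℝ), Par σ M W K ε ε2 → ∃ c₀ : ℝ, 0 < c₀ ∧
    ∀ c : ℝ, 0 < c → c ≤ c₀ → ∃ n₀ : ℕ, ∀ n d : ℕ, n₀ ≤ n → Dom σ n d → ∀ S : Finset (Fin n),
    S.Nonempty → (S.card : ℝ) ≤ c * n →
    ‖∑ k ∈ univ.filter (fun k : Fin n → Fin (2 * n) => Sout n d ε k = S ∧
        Lam n d * ∑ j ∈ S, ss n (k j) < 1 / 8), FF n d k‖
      ≤ Real.exp (-(S.card * (n : ℝ) ^ ε)) / 2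

/-- FEW: only the two boxes matter -/
def Stmt_Few : Prop :=
  ∀ (σ : ℝ) (M W K : ℕ) (ε ε2 : ℝ), Par σ M W K ε ε2 → ∃ n₀ : ℕ, ∀ n d : ℕ, n₀ ≤ n →
    Dom σ n d → ‖ZZ n d - 2 * Zb n d ε‖ ≤ (n : ℝ) ^ (-(M : ℝ))

/-! ### the main term -/

/-- BOX -/
def Stmt_Box : Prop :=
  ∀ (σ : ℝ) (M W K : ℕ) (ε ε2 : ℝ), Par σ M W K ε ε2 → ∃ (C : ℝ) (n₀ : ℕ), ∀ n d : ℕ, n₀ ≤ n →
    Dom σ n d →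
    ‖Zb n d ε - ∫ g in {g : Fin K → ℝ | ∀ i, |g i| ≤ (n : ℝ) ^ ε2}, Phi n d ε K g ^ n ∂(gam K)‖
      ≤ C * (n : ℝ) ^ (-(M : ℝ))

/-- FTAY: Taylor expansion of `f` -/
def Stmt_Ftay : Prop :=
  ∀ K : ℕ, ∃ C : ℝ, ∀ (G : ℕ → ℂ) (A t : ℝ) (u : ℂ), 1 ≤ A → (∀ i, ‖G i‖ ≤ A) →
    (∀ k ≤ K, ‖MvPolynomial.aeval (vals t G) (bet k)‖ ≤ C * A ^ k) ∧
    (A * ‖u‖ ≤ 1 / 8 →
      ‖fgG K G u - ∑ k ∈ range (K + 1), MvPolynomial.aeval (vals t G) (bet k) * u ^ k‖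
        ≤ C * (A * ‖u‖) ^ (K + 1))

/-- Cauchy product -/
noncomputable def cnv (A B : ℕ → Rg) (w : ℕ) : Rg := ∑ j ∈ range (w + 1), A j * B (w - j)

/-- EVB: closure of `DegOK`, size of the terms -/
def Stmt_Evb : Prop :=
  (∀ A B : ℕ → Rg, DegOK A → DegOK B → DegOK (cnv A B)) ∧
  (∀ A B : ℕ → Rg, DegOK A → DegOK B → DegOK (fun w => A w + B w)) ∧
  (∀ (c : ℚ) (A : ℕ → Rg), DegOK A → DegOK (fun w => c • A w)) ∧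
  ∀ (σ : ℝ) (M W K : ℕ) (ε ε2 : ℝ), Par σ M W K ε ε2 → ∀ A : ℕ → Rg, DegOK A → ∀ w : ℕ,
    ∃ C : ℝ, ∀ n d : ℕ, 1 ≤ n → Dom σ n d → ∀ G : ℕ → ℂ, (∀ i, ‖G i‖ ≤ (n : ℝ) ^ ε2) →
      ‖MvPolynomial.aeval (vals (tt n d) G) (A w) / (n : ℂ) ^ w‖
        ≤ C * (n : ℝ) ^ (-(σ * w / 2))

/-- EVM: evaluation is almost multiplicative -/
def Stmt_Evm : Prop :=
  ∀ (σ : ℝ) (M W K : ℕ) (ε ε2 : ℝ), Par σ M W K ε ε2 → ∀ A B : ℕ → Rg, DegOK A → DegOK B →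
    ∀ V : ℕ, W ≤ V → ∃ C : ℝ, ∀ n d : ℕ, 1 ≤ n → Dom σ n d → ∀ G : ℕ → ℂ,
      (∀ i, ‖G i‖ ≤ (n : ℝ) ^ ε2) →
      ‖ev A V n (tt n d) G * ev B V n (tt n d) G - ev (cnv A B) V n (tt n d) G‖
        ≤ C * (n : ℝ) ^ (-(M + 6 : ℝ))

/-- FLOG: formal logarithm and exponential -/
def Stmt_Flog : Prop :=
  ∀ A : ℕ → Rg, A 0 = 0 → ∀ V w : ℕ, w ≤ V →
    logS A w = (∑ q ∈ Icc 1 V, ((-1 : ℚ) ^ (q - 1) / q) •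
      PowerSeries.coeff w ((PowerSeries.mk A) ^ q)) ∧
    expS A w = (∑ q ∈ range (V + 1), ((1 : ℚ) / q.factorial) •
      PowerSeries.coeff w ((PowerSeries.mk A) ^ q))

/-- EVLOG -/
def Stmt_Evlog : Prop :=
  ∀ (σ : ℝ) (M W K : ℕ) (ε ε2 : ℝ), Par σ M W K ε ε2 → ∀ A : ℕ → Rg, DegOK A → A 0 = 0 →
    ∀ V : ℕ, W ≤ V → ∀ (C₁ s : ℝ), 0 < s → s ≤ M + 6 → ∃ (C : ℝ) (n₀ : ℕ), ∀ n d : ℕ, n₀ ≤ n →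
    Dom σ n d → ∀ G : ℕ → ℂ, (∀ i, ‖G i‖ ≤ (n : ℝ) ^ ε2) → ∀ x : ℂ,
      ‖x - ev A V n (tt n d) G‖ ≤ C₁ * (n : ℝ) ^ (-s) →
      ‖x‖ ≤ 1 / 2 ∧
      ‖Complex.log (1 + x) - ev (logS A) V n (tt n d) G‖ ≤ C * (n : ℝ) ^ (-s)

/-- EVEXP -/
def Stmt_Evexp : Prop :=
  ∀ (σ : ℝ) (M W K : ℕ) (ε ε2 : ℝ), Par σ M W K ε ε2 → ∀ A : ℕ → Rg, DegOK A → A 0 = 0 →
    ∀ V : ℕ, W ≤ V → ∀ (C₁ s : ℝ), 0 < s → s ≤ M + 6 → ∃ (C : ℝ) (n₀ : ℕ), ∀ n d : ℕ, n₀ ≤ n →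
    Dom σ n d → ∀ G : ℕ → ℂ, (∀ i, ‖G i‖ ≤ (n : ℝ) ^ ε2) → ∀ x : ℂ,
      ‖x - ev A V n (tt n d) G‖ ≤ C₁ * (n : ℝ) ^ (-s) →
      ‖Complex.exp x - ev (expS A) V n (tt n d) G‖ ≤ C * (n : ℝ) ^ (-s)

/-- MEXP: expansion of the moments -/
def Stmt_Mexp : Prop :=
  (∀ k, DegOK (fun w => PowerSeries.coeff w (mfm k))) ∧
  (∀ k w, 2 * w < k → PowerSeries.coeff w (mfm k) = 0) ∧
  ∀ (σ : ℝ) (M W K : ℕ) (ε ε2 : ℝ), Par σ M W K ε ε2 → ∀ k ≤ K, ∃ (C : ℝ) (n₀ : ℕ),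
    ∀ n d : ℕ, n₀ ≤ n → Dom σ n d → ∀ G : ℕ → ℂ, (∀ i, ‖G i‖ ≤ (n : ℝ) ^ ε2) →
      ‖((mm n (tt n d) k : ℝ) : ℂ)
          - ev (fun w => PowerSeries.coeff w (mfm k)) (W + 1) n (tt n d) G‖
        ≤ C * (n : ℝ) ^ (-(M + 6 : ℝ))

/-- PHIX: expansion of `Φ` -/
def Stmt_Phix : Prop :=
  ∀ (σ : ℝ) (M W K : ℕ) (ε ε2 : ℝ), Par σ M W K ε ε2 → ∃ (C : ℝ) (n₀ : ℕ), ∀ n d : ℕ, n₀ ≤ n →
    Dom σ n d → ∀ g : Fin K → ℝ, (∀ i, |g i| ≤ (n : ℝ) ^ ε2) →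
      ‖Phi n d ε K g - 1 - ev Del (W + 1) n (tt n d) (Gt K g)‖ ≤ C * (n : ℝ) ^ (-(M + 4 : ℝ))

/-- SERX: expansion of `Φ^n` -/
def Stmt_Serx : Prop :=
  ∀ (σ : ℝ) (M W K : ℕ) (ε ε2 : ℝ), Par σ M W K ε ε2 → ∃ (C : ℝ) (n₀ : ℕ), ∀ n d : ℕ, n₀ ≤ n →
    Dom σ n d → ∀ g : Fin K → ℝ, (∀ i, |g i| ≤ (n : ℝ) ^ ε2) →
      ‖Phi n d ε K g ^ n
          - Complex.exp (-MvPolynomial.aeval (vals (tt n d) (Gt K g)) (bet 2))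
              * ev EE W n (tt n d) (Gt K g)‖ ≤ C * (n : ℝ) ^ (-(M : ℝ))

/-- GX: the tilted Gaussian integral of a polynomial -/
def Stmt_Gx : Prop :=
  ∀ (K : ℕ) (P : Rg) (t : ℝ), 2 ≤ K → (∀ i ∈ P.vars, i ≤ K) →
    Integrable (fun g : Fin K → ℝ =>
      Complex.exp (-MvPolynomial.aeval (vals t (Gt K g)) (bet 2))
        * MvPolynomial.aeval (vals t (Gt K g)) P) (gam K) ∧
    ∫ g, Complex.exp (-MvPolynomial.aeval (vals t (Gt K g)) (bet 2))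
        * MvPolynomial.aeval (vals t (Gt K g)) P ∂(gam K)
      = ((Real.exp (1 / 4) / Real.sqrt 2 * Polynomial.aeval t (Ef P) : ℝ) : ℂ)

/-- GXT: the part of the same integral outside the cut-off is small -/
def Stmt_Gxt : Prop :=
  ∀ (σ : ℝ) (M W K : ℕ) (ε ε2 : ℝ), Par σ M W K ε ε2 → ∀ P : Rg, ∃ (C : ℝ) (n₀ : ℕ),
    ∀ n d : ℕ, n₀ ≤ n → Dom σ n d →
    ‖∫ g in {g : Fin K → ℝ | ¬ ∀ i, |g i| ≤ (n : ℝ) ^ ε2},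
        Complex.exp (-MvPolynomial.aeval (vals (tt n d) (Gt K g)) (bet 2))
          * MvPolynomial.aeval (vals (tt n d) (Gt K g)) P ∂(gam K)‖
      ≤ C * (n : ℝ) ^ (-(M : ℝ))

/-- DEG: degrees and variables -/
def Stmt_Deg : Prop :=
  DegOK Del ∧ Del 0 = 0 ∧ DegOK rr ∧ rr 0 = 0 ∧ DegOK EE ∧ VarOK EE ∧ Qt 0 = 1 ∧
    (∀ w, (Qt w).natDegree ≤ 2 * w) ∧ ∀ w, (QQ w).natDegree ≤ 2 * w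

/-- PARITY -/
def Stmt_Parity : Prop := ∀ w, (QQ w).comp (-Polynomial.X) = QQ w

/-- COMP: the explicit computation -/
def Stmt_Comp : Prop :=
  (QQ 5).eval 0 = -1637 / 60 ∧ (QQ 6).eval 0 = -7339 / 48 ∧ (QQ 6).eval 1 = 170759 / 720

/-- SOFTZ -/
def Stmt_Softz : Prop :=
  ∀ (σ : ℝ) (M W K : ℕ) (ε ε2 : ℝ), Par σ M W K ε ε2 → ∃ (C : ℝ) (n₀ : ℕ), ∀ n d : ℕ, n₀ ≤ n →
    Dom σ n d →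
    ‖Zb n d ε - ((Real.exp (1 / 4) / Real.sqrt 2
        * ∑ w ∈ range (W + 1), Polynomial.aeval (tt n d) (Qt w) / (n : ℝ) ^ w : ℝ) : ℂ)‖
      ≤ C * (n : ℝ) ^ (-(M : ℝ))

/-- SOFT: the asymptotic expansion in the dense range -/
def Stmt_Soft : Prop :=
  ∀ (σ : ℝ) (M : ℕ), 0 < σ → σ ≤ 1 → ∃ (W : ℕ) (C : ℝ) (n₀ : ℕ), M ≤ W ∧ ∀ n d : ℕ, n₀ ≤ n →
    Dom σ n d → 0 < RG n d ∧
    |Real.log (RG n d) - Real.log (Bnd n d) - 1 / 4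
        - ∑ w ∈ Icc 1 W, Polynomial.aeval (tt n d) (QQ w) / (n : ℝ) ^ w|
      ≤ C * (n : ℝ) ^ (-(M : ℝ))

/-- DENSE: Q1 from the sparse theorem and `SOFT` -/
def Stmt_Full : Prop :=
  ∃ C : ℝ, ∃ n₀ : ℕ, ∀ n d : ℕ, n₀ ≤ n → 1 ≤ d → d ≤ n - 2 → Even (d * n) →
    |Real.log (RG n d) - Real.log (Mnd n d)|
      ≤ C / ((d : ℝ) ^ 3 * ((n : ℝ) - d) ^ 3 * n)

end Pool.Agent.RGD
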